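import Mathlib
import Pool.Agent.Lib.H13T.C0
import Pool.Agent.Lib.H13R.H1
import Pool.Agent.Lib.H35M.SZ1

/-! # H35Z, part 1: the exceptional primes of the analytic side and the anomalous ramified primes -/

open NumberField IsDedekindDomain WeierstrassCurve

namespace H35Z

open H55N H55P
open H55K.TQ (BaseH PrimeH)
open H13T (AnW CycI)
open H55K (cj)

variable {F : Type} [Field F] [NumberField F] [IQ F] {W₀ : WeierstrassCurve (𝓞 F)} {Om : ℂ} {m : Ideal (𝓞 F)} {ψ : Ideal (𝓞 F) →*₀ 𝓞 F} {p : ℕ}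

/-- An integer divisible by p has valuation less than 1. -/
theorem z1_dvd {V : ValuationSubring ℂ} (hV : V.valuation (p : ℂ) < 1) {n : ℤ} (h : (p : ℤ) ∣ n) : V.valuation ((n : ℤ) : ℂ) < 1 := by
  obtain ⟨k, rfl⟩ := h
  push_cast
  rw [map_mul]
  exact mul_lt_one_of_lt_of_le hV (by rw [V.valuation_le_one_iff]; exact intCast_mem V.toSubring k)

/-- If the norm of x is 1 modulo p and p divides the norm of 1 - x then 1 - x is not a unit at any place above p. -/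
theorem z1_one {V : ValuationSubring ℂ} (hV : V.valuation (p : ℂ) < 1) {x : 𝓞 F} {n : ℕ} (hx : Nm x = n) (hn : 1 ≤ n) (h1 : p ∣ n - 1)
    (h2 : p ∣ Nm (1 - x)) : V.valuation (eF F (1 - x)) < 1 := by
  have e1 := H55K.mul_cj x
  have e2 := H55K.mul_cj (1 - x)
  rw [map_sub, map_one] at e2
  have e3 : (1 - x) ^ 2 = (1 - (Nm x : 𝓞 F)) * (1 - x) - x * (Nm (1 - x) : 𝓞 F) := by
    rw [← e1, ← e2]
    ring
  have e4 := congrArg (eF F) e3
  rw [map_pow, map_sub (eF F) ((1 - (Nm x : 𝓞 F)) * (1 - x)), map_mul, map_mul, map_natCast, map_sub (eF F) 1 (Nm x : 𝓞 F), map_one,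
    map_natCast] at e4
  have h3 : V.valuation (1 - (Nm x : ℂ)) < 1 := by
    have h4 : (p : ℤ) ∣ 1 - (Nm x : ℤ) := by
      rw [hx]
      have h5 : ((n - 1 : ℕ) : ℤ) = (n : ℤ) - 1 := by
        push_cast [Nat.cast_sub hn]
        ring
      have h6 : (p : ℤ) ∣ ((n - 1 : ℕ) : ℤ) := Int.natCast_dvd_natCast.2 h1
      rw [h5] at h6
      have h7 := (dvd_neg (α := ℤ)).2 h6
      rwa [neg_sub] at h7
    have h5 := z1_dvd hV h4
    push_cast at h5
    exact h5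
  have h4 : V.valuation ((Nm (1 - x) : ℕ) : ℂ) < 1 := by
    have h5 := z1_dvd hV (Int.natCast_dvd_natCast.2 h2)
    push_cast at h5
    exact h5
  have hle : V.valuation (eF F (1 - x)) ≤ 1 := H35M.sn2_le V _
  have hlx : V.valuation (eF F x) ≤ 1 := H35M.sn2_le V _
  have h5 : V.valuation (eF F (1 - x) ^ 2) < 1 := by
    rw [e4]
    refine lt_of_le_of_lt (Valuation.map_sub _ _ _) (max_lt ?_ ?_)
    · rw [map_mul]
      exact mul_lt_one_of_lt_of_le h3 hle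
    · rw [map_mul, mul_comm]
      exact mul_lt_one_of_lt_of_le h4 hlx
  rw [map_pow] at h5
  by_contra hlt
  have h6 : V.valuation (eF F (1 - x)) = 1 := le_antisymm hle (not_lt.1 hlt)
  rw [h6, one_pow] at h5
  exact lt_irrefl _ h5

/-- The condition of the analytic side at a prime of norm 1 modulo p. -/
theorem z1_cnd (hH : BaseH F W₀ Om m ψ) (hp : PrimeH F W₀ p) {V : ValuationSubring ℂ} (hV : V.valuation (p : ℂ) < 1)
    {K : Type} [Field K] [NumberField K] [Algebra F K] (w : HeightOneSpectrum (𝓞 K)) (h1 : p ∣ Ideal.absNorm w.asIdeal - 1) :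
    V.valuation (1 - (starRingEnd ℂ) (PsiP K ψ w.asIdeal)) ≠ 1 ↔
      algebraMap (𝓞 F) (𝓞 K) W₀.Δ ∉ w.asIdeal ∧ p ∣ Nat.card (W₀⁄(𝓞 K ⧸ w.asIdeal)).toAffine.Point := by
  have hloc := H13R.y10_locR hH hp.prime w
  obtain ⟨x, hx⟩ : ∃ x : 𝓞 F, x = ψ (Ideal.relNorm (𝓞 F) w.asIdeal) := ⟨_, rfl⟩
  rw [← hx] at hloc
  have e1 : 1 - (starRingEnd ℂ) (PsiP K ψ w.asIdeal) = eF F (1 - x) := by
    rw [PsiP_apply, ← hx, Complex.conj_conj, map_sub, map_one]
  have hR : (algebraMap (𝓞 F) (𝓞 K) W₀.Δ ∉ w.asIdeal ∧ p ∣ Nat.card (W₀⁄(𝓞 K ⧸ w.asIdeal)).toAffine.Point) ↔ p ∣ Nm (1 - x) := by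
    have h2 : p ∣ Nm (1 - x) ↔ ¬ ¬ p ∣ Ideal.absNorm (Ideal.span {1 - x}) := by
      rw [not_not]
      rfl
    rw [h2, hloc]
    tauto
  rw [e1, hR]
  constructor
  · intro h
    by_contra hn
    exact h (gen_unit p hp.prime (1 - x) hn V hV).1
  · intro h
    obtain ⟨hΔ, -⟩ := hR.2 h
    obtain ⟨v₀, hv₀, hN, hf, hmv⟩ := H55K.DD.below (m := m) w
    have hm : ¬ mK K m ≤ w.asIdeal := by
      intro h
      have h1 : W₀.Δ ∈ v₀.asIdeal := (hH.supp v₀).2 (hmv.1 h)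
      rw [hv₀] at h1
      exact hΔ h1
    have hcop : IsCoprime (Ideal.relNorm (𝓞 F) w.asIdeal) m := by
      rw [hN]
      exact (H55K.DD.d8_cop fun h => hm (hmv.2 h)).pow_left
    have hgen : Ideal.span {x} = Ideal.relNorm (𝓞 F) w.asIdeal := by
      rw [hx]
      exact hH.data.hecke.gen _ hcop
    have hNm : Nm x = Ideal.absNorm w.asIdeal := by
      show Ideal.absNorm (Ideal.span {x}) = _
      rw [hgen]
      exact Ideal.absNorm_relNorm (𝓞 F) (𝓞 K) w.asIdeal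
    have hpos : 1 ≤ Ideal.absNorm w.asIdeal := by
      rw [Nat.one_le_iff_ne_zero]
      intro h0
      exact w.ne_bot (Ideal.absNorm_eq_zero_iff.1 h0)
    exact (z1_one hV hNm hpos h1 h).ne

open Classical in
/-- The exceptional primes are the anomalous ramified primes. -/
theorem z1_set (hH : BaseH F W₀ Om m ψ) (hp : PrimeH F W₀ p) {V : ValuationSubring ℂ} (hV : V.valuation (p : ℂ) < 1)
    {N' N L : IntermediateField F (AlgebraicClosure F)} [NumberField N'] [NumberField N] (hL : PExt p N' L) (hle : N' ≤ N) (hNL : N ≤ L)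
    (hU : UnrP p N) (w : HeightOneSpectrum (𝓞 N')) :
    w ∈ AnW p W₀ N' N ↔ Ram N' N w.asIdeal ∧ V.valuation (1 - (starRingEnd ℂ) (PsiP N' ψ w.asIdeal)) ≠ 1 := by
  have key : Ram N' N w.asIdeal → (V.valuation (1 - (starRingEnd ℂ) (PsiP N' ψ w.asIdeal)) ≠ 1 ↔
      algebraMap (𝓞 F) (𝓞 N') W₀.Δ ∉ w.asIdeal ∧ p ∣ Nat.card (W₀⁄(𝓞 N' ⧸ w.asIdeal)).toAffine.Point) := fun hr =>
    z1_cnd hH hp hV w (ram_norm p hp.prime N' L hL N hle hNL hU w hr)
  constructor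
  · rintro ⟨h1, h2, h3⟩
    exact ⟨h2, (key h2).2 ⟨h1, h3⟩⟩
  · rintro ⟨h1, h2⟩
    obtain ⟨h3, h4⟩ := (key h1).1 h2
    exact ⟨h3, h1, h4⟩

end H35Z
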