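import Mathlib
import Pool.Agent.Lib.H35Z.Z1
import Pool.Agent.Lib.H35U.U1
import Pool.Agent.Lib.H41S.Int
import Pool.Agent.Lib.H13T.C2
import Pool.Agent.Lib.H13R.K1
import Pool.Agent.Lib.H55K.RP3
import Pool.Agent.Lib.H55K.FC2

/-! # H35Z, part 2: the L-value over FK -/

open NumberField IsDedekindDomain WeierstrassCurve

namespace H35Z

open H55N H55P
open H55K.TQ
open H13T (AnW CycI)
open H55K (cj)

variable {F : Type} [Field F] [NumberField F] [IQ F]

/-- If p is unramified in K and in F it is unramified in the field generated by F and K. -/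
theorem unr_up {p : ℕ} (hp : p.Prime) (hp2 : p ≠ 2) (hU : UnrP p F) (K : Type) [Field K] [NumberField K] (ι : K →ₐ[ℚ] AlgebraicClosure F)
    [NumberField (KG F K ι)] (h : UnrP p K) : UnrP p (KG F K ι) := by
  have hd := pl1_discr p hp h
  apply FC2_unr hp
  rcases kg_dich F K ι with ⟨f, hf⟩ | hQ
  · letI : Algebra F K := f.toAlgebra
    obtain ⟨θ⟩ := kg_iso F K ι f hf
    have h4 : discr K = discr (KG F K ι) := NumberField.discr_eq_discr_of_algEquiv K (θ.restrictScalars ℚ)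
    rwa [← h4]
  · letI : Algebra K (KG F K ι) := (KGmap F K ι).toAlgebra
    obtain ⟨V, hV⟩ := exists_above_p p hp
    have h1 := H35U.val_discr_quad hQ hp hp2 hU V hV
    have h2 : V.valuation (((discr K).natAbs : ℕ) : ℂ) = 1 :=
      val_nat p hp V hV _ fun hd' => hd (Int.natCast_dvd.2 hd')
    rw [h2, one_pow] at h1
    intro hd'
    have h3 := z1_dvd hV (Int.natCast_dvd_natCast.2 (Int.natCast_dvd.1 hd'))
    rw [Int.cast_natCast, h1] at h3
    exact lt_irrefl _ h3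

variable {W₀ : WeierstrassCurve (𝓞 F)} {Om : ℂ} {m : Ideal (𝓞 F)} {ψ : Ideal (𝓞 F) →*₀ 𝓞 F} {p n : ℕ}

/-- The L-value over N. -/
theorem z2_val (hH : BaseH F W₀ Om m ψ) (hp : PrimeH F W₀ p) {M N' N : IntermediateField F (AlgebraicClosure F)} [NumberField M]
    [NumberField N'] [NumberField N] {γ : AlgebraicClosure F ≃ₐ[F] AlgebraicClosure F} (c : CycI p n M N' N γ) (hU : UnrP p N)
    (hval : ValG p Om ψ N') (hfin : (AnW p W₀ N' N).Finite) (hr : (AnW p W₀ N' N).ncard < p ^ n) :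
    ∃ Φ : ℂ → ℂ, AnalyticOnNhd ℂ Φ {s | 1 / 2 < s.re} ∧ (∀ s : ℂ, 3 / 2 < s.re → HasSum (tm (PsiP N ψ) s) (Φ s)) ∧ Φ 1 ≠ 0 ∧
      ∀ V : ValuationSubring ℂ, V.valuation (p : ℂ) < 1 →
        V.valuation (Φ 1 / Om ^ Module.finrank F N) = V.valuation (p : ℂ) ^ (AnW p W₀ N' N).ncard := by
  classical
  have hpp := hp.prime
  have hNf : FiniteDimensional F N := c.fin
  have hUM : UnrP p M := H13R.unr_le hpp (c.le.trans c.le') hU
  have hL : PExt p M N := ⟨c.fin, c.le.trans c.le', c.nrm, ⟨n + 1, c.deg⟩⟩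
  have hL' : PExt p N' N := by
    refine ⟨c.fin, c.le', fun s hs x hx => c.nrm s ?_ x hx, ⟨1, by rw [pow_one]; exact c.deg'⟩⟩
    rw [IntermediateField.mem_fixingSubgroup_iff] at hs ⊢
    exact fun x hx => hs x (c.le hx)
  have hcop := y10_cop hH hp
  have hm : IsCoprime m (Ideal.span {(p : 𝓞 F)}) := hcop.of_mul_left_right
  have hΔ : IsCoprime (Ideal.span {W₀.Δ}) (Ideal.span {(p : 𝓞 F)}) := hcop.of_mul_left_left
  obtain ⟨v₀, hv₀⟩ := H13R.exists_goodGR hH hp M hUM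
  obtain ⟨Λ, hΛa, hΛs, -, hΛu⟩ := hval
  obtain ⟨T, hT⟩ : ∃ T : Finset (HeightOneSpectrum (𝓞 N')), (T : Set (HeightOneSpectrum (𝓞 N'))) = AnW p W₀ N' N :=
    ⟨hfin.toFinset, hfin.coe_toFinset⟩
  have hcard : T.card = (AnW p W₀ N' N).ncard := by
    rw [← hT, Set.ncard_coe_finset]
  rw [← hcard] at hr ⊢
  have key := fun (V : ValuationSubring ℂ) (hV : V.valuation (p : ℂ) < 1) =>
    H41S.main_int (m := m) (ψ := ψ) hpp M N' N c.le c.le' γ c.gam c.nrm c.gen c.deg c.deg' hH.data.hecke hm hU _ _ Om hH.data.per V hV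
      (gen_good p hpp hp.five W₀ hΔ V hV) (gen_ntp p hpp M v₀ hv₀ V hV) ⟨Λ, hΛa, hΛs, hΛu V hV⟩ T
      (fun w => by
        rw [← Finset.mem_coe, hT]
        exact z1_set hH hp hV hL' c.le' le_rfl hU w) hr
  obtain ⟨V₀, hV₀⟩ := exists_above_p p hpp
  obtain ⟨Φ, h1, h2, h3⟩ := key V₀ hV₀
  refine ⟨Φ, h1, h2, ?_, fun V hV => ?_⟩
  · intro h0
    rw [h0, zero_div, map_zero] at h3
    exact pow_ne_zero _ ((Valuation.ne_zero_iff _).2 (Nat.cast_ne_zero.2 hpp.ne_zero)) h3.symm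
  · obtain ⟨Φ', h1', h2', h3'⟩ := key V hV
    have h6 : Φ 1 = Φ' 1 := ident Φ Φ' h1 h1' (fun s hs => (h2 s hs).unique (h2' s hs)) 1 (by norm_num)
    rw [h6]
    exact h3'

end H35Z
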