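import Mathlib
import Pool.Agent.Lib.H35Z.Z2
import Pool.Agent.Lib.H55Z.Q9

/-! # H35Z, part 3: the real normalisation -/

open NumberField IsDedekindDomain WeierstrassCurve

namespace H35Z

open H55N H55P
open H55K.TQ
open H55Z (lG_relD sD sD_sq)

variable {F : Type} [Field F] [NumberField F] [IQ F] {W : WeierstrassCurve ℤ} {Om : ℂ} {m : Ideal (𝓞 F)} {ψ : Ideal (𝓞 F) →*₀ 𝓞 F} {p : ℕ}

/-- The valuation of the complex conjugate. -/
theorem z3_conj (hp : p.Prime) {x : ℂ} {r : ℕ} (hx0 : x ≠ 0)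
    (h : ∀ V : ValuationSubring ℂ, V.valuation (p : ℂ) < 1 → V.valuation x = V.valuation (p : ℂ) ^ r)
    (V : ValuationSubring ℂ) (hV : V.valuation (p : ℂ) < 1) : V.valuation ((starRingEnd ℂ) x) = V.valuation (p : ℂ) ^ r := by
  have hp0 : (p : ℂ) ≠ 0 := Nat.cast_ne_zero.2 hp.ne_zero
  have h1 : UnitP p (x / (p : ℂ) ^ r) := by
    intro A hA
    have hA0 : A.valuation (p : ℂ) ≠ 0 := (Valuation.ne_zero_iff _).2 hp0
    rw [map_div₀, map_pow, h A hA]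
    exact div_self (pow_ne_zero _ hA0)
  have h2 := pz6_conj hp (div_ne_zero hx0 (pow_ne_zero r hp0)) h1 V hV
  rw [map_div₀, map_pow, map_natCast, map_div₀, map_pow] at h2
  have hV0 : V.valuation (p : ℂ) ≠ 0 := (Valuation.ne_zero_iff _).2 hp0
  exact (div_eq_one_iff_eq (pow_ne_zero _ hV0)).1 h2

theorem z3_sD (hp : p.Prime) (K : Type) [Field K] [NumberField K] (hU : UnrP p K) (V : ValuationSubring ℂ) (hV : V.valuation (p : ℂ) < 1) :
    sD V K = 1 := by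
  have h1 := sD_sq V K
  have h2 : V.valuation (((discr K).natAbs : ℕ) : ℂ) = 1 :=
    val_nat p hp V hV _ fun hd => pl1_discr p hp hU (Int.natCast_dvd.2 hd)
  rw [h2] at h1
  rcases pow_eq_one_iff.1 h1 with h | h
  · exact h
  · exact absurd h two_ne_zero

/-- The L-value over K. -/
theorem z3_real (hH : BaseH F (W⁄(𝓞 F)) Om m ψ) (hp : PrimeH F (W⁄(𝓞 F)) p) (K : Type) [Field K] [NumberField K]
    (ι : K →ₐ[ℚ] AlgebraicClosure F) (hU : UnrP p K) (hR : LRel W ψ K (KG F K ι)) {Φ : ℂ → ℂ}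
    (hΦa : AnalyticOnNhd ℂ Φ {s | 1 / 2 < s.re}) (hΦs : ∀ s : ℂ, 3 / 2 < s.re → HasSum (tm (PsiP (KG F K ι) ψ) s) (Φ s)) (hΦ1 : Φ 1 ≠ 0)
    {r a d : ℕ} (hd : d = 1 ∨ d = 2) (hdeg : Module.finrank ℚ (KG F K ι) = d * Module.finrank ℚ K) (hr : r = d * a)
    (hv : ∀ V : ValuationSubring ℂ, V.valuation (p : ℂ) < 1 →
      V.valuation (Φ 1 / Om ^ Module.finrank F (KG F K ι)) = V.valuation (p : ℂ) ^ r) :
    ∃ Λ : ℂ → ℂ, AnalyticOnNhd ℂ Λ {s | 1 / 2 < s.re} ∧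
      (∀ s : ℂ, 3 / 2 < s.re → LSeriesSummable (fun n => (((W⁄K).LFunction n : ℤ) : ℂ)) s ∧ Λ s = (W⁄K).LSeries s) ∧
      Λ 1 ≠ 0 ∧
      ∀ L : PeriodPair, PerZ W L → ∀ V : ValuationSubring ℂ, V.valuation (p : ℂ) < 1 →
        V.valuation (lG K W L (Λ 1)) = V.valuation (p : ℂ) ^ (2 * a) := by
  obtain ⟨Λ, h1, h2, h3, h4⟩ := lG_relD hH hp K (KG F K ι) hR hΦa hΦs
  refine ⟨Λ, h1, h2, h3 hΦ1, fun L hL V hV => ?_⟩
  have hfd : FiniteDimensional F (KG F K ι) := H13R.kg_fin F K ι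
  have hpos : 0 < Module.finrank ℚ K := Module.finrank_pos
  have hx0 : Φ 1 / Om ^ Module.finrank F (KG F K ι) ≠ 0 := div_ne_zero hΦ1 (pow_ne_zero _ hH.data.per.ne)
  have e1 : Module.finrank ℚ (KG F K ι) = 2 * Module.finrank F (KG F K ι) := by
    rw [← Module.finrank_mul_finrank ℚ F (KG F K ι), IQ.deg]
  have hone := z3_sD hp.prime K hU V hV
  rcases h4 V hV L hL with ⟨hk, h⟩ | ⟨hk, h⟩
  · have hd1 : d = 1 := by
      rcases hd with h5 | h5
      · exact h5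
      · rw [h5, e1, hk] at hdeg
        omega
    rw [h, hv V hV, z3_conj hp.prime hx0 hv V hV, hone, mul_one, hr, hd1, one_mul, ← pow_add, two_mul]
  · have hd2 : d = 2 := by
      rcases hd with h5 | h5
      · rw [h5, e1, hk] at hdeg
        omega
      · exact h5
    rw [h, hv V hV, hone, mul_one, hr, hd2]

end H35Z
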