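import Mathlib
import Pool.Agent.Lib.H13T.Stm
import Pool.Agent.Lib.H28I.L0
import Pool.Agent.Lib.H55K.RC1
import Pool.Agent.Lib.H55K.RC2
import Pool.Agent.Lib.H55K.RH
import Pool.Agent.Lib.H55K.RF
import Pool.Agent.Lib.H55K.WM
import Pool.Agent.Lib.H55K.FB3C
import Pool.Agent.Lib.H55K.FB9B
import Pool.Agent.Lib.H13R.H1

/-! # H35Z, part 5A: the sets AnR of isogenous curves agree -/

open NumberField IsDedekindDomain WeierstrassCurve

namespace H35Z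

open H55P (IQ embF eF LF Per IsHecke Nm)
open H55K H55K.TQ
open H28I (TW tw_supp tw_deu)
open H13T (AnR)

/-- The roots of a quadratic equation. -/
theorem z5_roots (t q : ℂ) : ∃ α β : ℂ, α + β = t ∧ α * β = q := rh_roots t q

/-- The residue field of a prime of norm l. -/
theorem z5_equiv {R : Type} [CommRing R] {v : Ideal R} (hv : v.IsMaximal) {l : ℕ} (hl : l.Prime) (hlv : (l : R) ∈ v)
    (hc : Nat.card (R ⧸ v) = l) : Nonempty (ZMod l ≃+* R ⧸ v) := by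
  have : Fact l.Prime := ⟨hl⟩
  let _ : Field (R ⧸ v) := Ideal.Quotient.field v
  have h0 : ((l : ℕ) : R ⧸ v) = 0 := by
    rw [← map_natCast (Ideal.Quotient.mk v), Ideal.Quotient.eq_zero_iff_mem]
    exact hlv
  have : CharP (R ⧸ v) l := by
    obtain ⟨p, hp⟩ := CharP.exists (R ⧸ v)
    have h1 : p ∣ l := (CharP.cast_eq_zero_iff _ p l).1 h0
    rcases (Nat.dvd_prime hl).1 h1 with h2 | h2
    · exfalso
      rw [h2] at hp
      exact one_ne_zero ((CharP.cast_eq_zero_iff (R ⧸ v) 1 1).2 (dvd_refl 1) ▸ (Nat.cast_one (R := R ⧸ v)).symm)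
    · rwa [h2] at hp
  have hf : Finite (R ⧸ v) := Nat.finite_of_card_ne_zero (by rw [hc]; exact hl.ne_zero)
  let _ : Fintype (R ⧸ v) := Fintype.ofFinite _
  refine ⟨RingEquiv.ofBijective (ZMod.castHom (dvd_refl l) (R ⧸ v)) ?_⟩
  rw [Fintype.bijective_iff_injective_and_card]
  refine ⟨RingHom.injective _, ?_⟩
  rw [ZMod.card, ← hc, Nat.card_eq_fintype_card]

/-- The number of points over an isomorphic ring. -/
theorem z5_iso (W : WeierstrassCurve ℤ) {A B : Type} [CommRing A] [CommRing B] [Algebra ℤ A] [Algebra ℤ B] (f : A ≃+* B) :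
    Nat.card (W⁄B).toAffine.Point = Nat.card (W⁄A).toAffine.Point := by
  have h : (W⁄B) = (W⁄A).map (f : A →+* B) := by
    show W.map (algebraMap ℤ B) = (W.map (algebraMap ℤ A)).map (f : A →+* B)
    rw [WeierstrassCurve.map_map]
    congr 1
    exact RingHom.ext_int _ _
  rw [h]
  exact rc2_card (W⁄A) f

variable {F : Type} [Field F] [NumberField F] [IQ F] {W W' : WeierstrassCurve ℤ} {Om : ℂ} {m : Ideal (𝓞 F)}
    {ψ : Ideal (𝓞 F) →*₀ 𝓞 F} {kap : ℤ} {e t u lam : ℚ} {p : ℕ}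

/-- The discriminants of isogenous curves have the same prime divisors. -/
theorem z5_disc (h : TW F W W' Om m ψ kap e t u lam) {l : ℕ} (hl : l.Prime) : (l : ℤ) ∣ W'.Δ ↔ (l : ℤ) ∣ W.Δ := by
  have hlu : ¬ IsUnit ((l : ℕ) : 𝓞 F) := by
    intro hu
    have h3 : Nm (l : 𝓞 F) = 1 := by
      show Ideal.absNorm (Ideal.span {(l : 𝓞 F)}) = 1
      rw [Ideal.span_singleton_eq_top.2 hu]
      exact Ideal.absNorm_top
    have h4 : Nm (l : 𝓞 F) = l ^ 2 := Nm_nat l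
    rw [h4] at h3
    have h5 := hl.one_lt
    nlinarith
  obtain ⟨P, hPm, hP⟩ := Ideal.exists_le_maximal (Ideal.span {(l : 𝓞 F)}) (fun h => hlu (Ideal.span_singleton_eq_top.1 h))
  have hlP : (l : 𝓞 F) ∈ P := hP (Ideal.mem_span_singleton_self _)
  have hPb : P ≠ ⊥ := by
    rintro rfl
    rw [Ideal.mem_bot] at hlP
    exact hl.ne_zero (by exact_mod_cast hlP)
  have h1 := tw_supp h ⟨P, hPm.isPrime, hPb⟩
  have e1 : ∀ X : WeierstrassCurve ℤ, (X⁄(𝓞 F)).Δ = ((X.Δ : ℤ) : 𝓞 F) := fun X => rh_disc X (𝓞 F)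
  rw [e1, e1] at h1
  rw [← rh_int hPm.ne_top hl hlP W'.Δ, ← rh_int hPm.ne_top hl hlP W.Δ]
  exact h1

/-- The numbers of points over the prime field agree. -/
theorem z5_prime (h : TW F W W' Om m ψ kap e t u lam) {l : ℕ} (hl : l.Prime) (hΔ : ¬ (l : ℤ) ∣ W.Δ) :
    Nat.card (W'⁄(ZMod l)).toAffine.Point = Nat.card (W⁄(ZMod l)).toAffine.Point := by
  have hΔ' : ¬ (l : ℤ) ∣ W'.Δ := fun hd => hΔ ((z5_disc h hl).1 hd)
  have hl0 : (l : 𝓞 F) ≠ 0 := Nat.cast_ne_zero.2 hl.ne_zero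
  have hlu : ¬ IsUnit ((l : ℕ) : 𝓞 F) := by
    intro hu
    have h3 : Nm (l : 𝓞 F) = 1 := by
      show Ideal.absNorm (Ideal.span {(l : 𝓞 F)}) = 1
      rw [Ideal.span_singleton_eq_top.2 hu]
      exact Ideal.absNorm_top
    have h4 : Nm (l : 𝓞 F) = l ^ 2 := Nm_nat l
    rw [h4] at h3
    have h5 := hl.one_lt
    nlinarith
  obtain ⟨P, hPm, hP⟩ := Ideal.exists_le_maximal (Ideal.span {(l : 𝓞 F)}) (fun h => hlu (Ideal.span_singleton_eq_top.1 h))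
  have hlP : (l : 𝓞 F) ∈ P := hP (Ideal.mem_span_singleton_self _)
  have hPb : P ≠ ⊥ := by
    rintro rfl
    rw [Ideal.mem_bot] at hlP
    exact hl0 hlP
  obtain ⟨v, hv⟩ : ∃ v : HeightOneSpectrum (𝓞 F), v.asIdeal = P := ⟨⟨P, hPm.isPrime, hPb⟩, rfl⟩
  rw [← hv] at hlP hP hPm
  have e1 : ∀ X : WeierstrassCurve ℤ, (X⁄(𝓞 F)).Δ ∈ v.asIdeal ↔ (l : ℤ) ∣ X.Δ := fun X => by
    rw [rh_disc X (𝓞 F)]
    exact rh_int hPm.ne_top hl hlP X.Δ
  have hΔv : (W⁄(𝓞 F)).Δ ∉ v.asIdeal := fun hc => hΔ ((e1 W).1 hc)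
  have hΔv' : (W'⁄(𝓞 F)).Δ ∉ v.asIdeal := fun hc => hΔ' ((e1 W').1 hc)
  have hm : ¬ m ≤ v.asIdeal := fun hc => hΔv ((h.base.supp v).2 hc)
  -- the norm of v
  have hdv : v.asIdeal ∣ Ideal.span {(l : 𝓞 F)} := Ideal.dvd_iff_le.2 hP
  obtain ⟨J, hJ⟩ := hdv
  have hN : Ideal.absNorm v.asIdeal * Ideal.absNorm J = l ^ 2 := by
    rw [← map_mul, ← hJ]
    exact Nm_nat l
  obtain ⟨k, hk, hk'⟩ := (Nat.dvd_prime_pow hl).1 ⟨_, hN.symm⟩
  have hk0 : k ≠ 0 := by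
    rintro rfl
    rw [pow_zero] at hk'
    exact v.isPrime.ne_top (Ideal.absNorm_eq_one_iff.1 hk')
  rcases (by omega : k = 1 ∨ k = 2) with rfl | rfl
  · rw [pow_one] at hk'
    have hc : Nat.card (𝓞 F ⧸ v.asIdeal) = l := hk'
    obtain ⟨φ⟩ := z5_equiv hPm hl hlP hc
    have e2 : ∀ X : WeierstrassCurve ℤ, (X⁄(𝓞 F))⁄(𝓞 F ⧸ v.asIdeal) = X⁄(𝓞 F ⧸ v.asIdeal) := fun X => fb9b_map X
    have h1 := (tw_deu h v hΔv').1
    rw [e2, e2, z5_iso W' φ, z5_iso W φ] at h1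
    exact h1
  · have hJ1 : Ideal.absNorm J = 1 := by
      rw [hk'] at hN
      exact Nat.eq_of_mul_eq_mul_left (pow_pos hl.pos 2) (by rw [hN, mul_one])
    have hJ2 : J = ⊤ := Ideal.absNorm_eq_one_iff.1 hJ1
    have hvl : v.asIdeal = Ideal.span {(l : 𝓞 F)} := by
      rw [hJ, hJ2, Ideal.mul_top]
    have h1 := (inert_F (W := W) h.base.data.hecke (fun v hv _ => h.base.deu v hv) hl v hvl hΔv hm).1
    have h2 := (inert_F (W := W') h.base.data.hecke (fun v hv _ => (tw_deu h v hv).2) hl v hvl hΔv' hm).1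
    rw [h1, h2]

/-- The numbers of points over finite fields agree. -/
theorem z5_fin (h : TW F W W' Om m ψ kap e t u lam) {l : ℕ} (hl : l.Prime) (hΔ : ¬ (l : ℤ) ∣ W.Δ) (k : Type) [Field k] [Finite k]
    (hk : ((l : ℕ) : k) = 0) : Nat.card (W'⁄k).toAffine.Point = Nat.card (W⁄k).toAffine.Point := by
  have hΔ' : ¬ (l : ℤ) ∣ W'.Δ := fun hd => hΔ ((z5_disc h hl).1 hd)
  have : Fact l.Prime := ⟨hl⟩
  have : CharP k l := by
    obtain ⟨q, hq⟩ := CharP.exists k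
    have h1 : q ∣ l := (CharP.cast_eq_zero_iff _ q l).1 hk
    rcases (Nat.dvd_prime hl).1 h1 with h2 | h2
    · exfalso
      rw [h2] at hq
      exact one_ne_zero ((CharP.cast_eq_zero_iff k 1 1).2 (dvd_refl 1) ▸ (Nat.cast_one (R := k)).symm)
    · rwa [h2] at hq
  let _ : Algebra (ZMod l) k := ZMod.algebra k l
  obtain ⟨α, β, h1, h2⟩ := z5_roots ((l : ℂ) + 1 - (Nat.card (W⁄(ZMod l)).toAffine.Point : ℂ)) (l : ℂ)
  have hz : ∀ X : WeierstrassCurve ℤ, ¬ (l : ℤ) ∣ X.Δ → (X⁄(ZMod l)).Δ ≠ 0 := by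
    intro X hX h0
    apply hX
    rw [rh_disc X (ZMod l)] at h0
    exact (ZMod.intCast_zmod_eq_zero_iff_dvd _ l).1 h0
  have e1 : ∀ X : WeierstrassCurve ℤ, WeierstrassCurve.baseChange (X⁄(ZMod l)) k = X⁄k := fun X => fb9b_map X
  have hc : (Nat.card (ZMod l) : ℂ) = (l : ℂ) := by rw [Nat.card_zmod]
  have w1 := H55K.weil (k := ZMod l) (K := k) (W⁄(ZMod l)) (hz W hΔ) α β (by rw [hc]; exact h1) (by rw [hc]; exact h2)
  have w2 := H55K.weil (k := ZMod l) (K := k) (W'⁄(ZMod l)) (hz W' hΔ') α β (by rw [hc, z5_prime h hl hΔ]; exact h1) (by rw [hc]; exact h2)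
  rw [e1] at w1 w2
  have w3 := w2.trans w1.symm
  exact_mod_cast w3

/-- The sets AnR agree. -/
theorem z5_AnR (h : TW F W W' Om m ψ kap e t u lam) (K' K : Type) [Field K'] [NumberField K'] [Field K] [NumberField K] [Algebra K' K] :
    AnR p W' K' K = AnR p W K' K := by
  ext w
  obtain ⟨l, f, hl, hlw, hf, hN⟩ := below_W w
  have hwm := w.isMaximal
  have e1 : ∀ X : WeierstrassCurve ℤ, ((X.Δ : ℤ) : 𝓞 K') ∈ w.asIdeal ↔ (l : ℤ) ∣ X.Δ := fun X => rh_int w.isPrime.ne_top hl hlw X.Δ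
  let _ : Field (𝓞 K' ⧸ w.asIdeal) := Ideal.Quotient.field _
  have hfin : Finite (𝓞 K' ⧸ w.asIdeal) := w.asIdeal.finiteQuotientOfFreeOfNeBot w.ne_bot
  have hk : ((l : ℕ) : 𝓞 K' ⧸ w.asIdeal) = 0 := by
    rw [← map_natCast (Ideal.Quotient.mk w.asIdeal), Ideal.Quotient.eq_zero_iff_mem]
    exact hlw
  have hcard : ¬ (l : ℤ) ∣ W.Δ → Nat.card (W'⁄(𝓞 K' ⧸ w.asIdeal)).toAffine.Point = Nat.card (W⁄(𝓞 K' ⧸ w.asIdeal)).toAffine.Point :=
    fun hΔ => z5_fin h hl hΔ (𝓞 K' ⧸ w.asIdeal) hk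
  show (_ ∧ _ ∧ _) ↔ (_ ∧ _ ∧ _)
  rw [e1, e1, z5_disc h hl]
  refine and_congr_right fun hΔ => ?_
  rw [hcard hΔ]

end H35Z
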