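import Mathlib
import Pool.Agent.Lib.H35X.L1
import Pool.Agent.Lib.H35X.L2

/-! Chunk A1 (M): places above 2 where the valuation of 2 is odd: every m whose norm is a cube is a cube. This generalises H35X.cube_two (e = 1).
v = Valued.v, v(2) = exp(-e), e odd, B = 3 + 4 B1 is a unit, v(3) = 1. m = a + b T.
a1_est: v(2) v(a^2 + B b^2) < v(a^2 - B b^2) for (a, b) not (0, 0). Proof: if v(a) <> v(b) both v(a^2 + B b^2) and v(a^2 - B b^2) are the maximum of
v(a)^2, v(b)^2 and v(2) < 1. Let v(a) = v(b); dividing by b we may assume b = 1, v(a) = 1 (the statement is homogeneous; or keep b). Write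
B = -1 + 4 B2, B2 = B1 + 1. a^2 - B = a^2 + 1 - 4 B2, a^2 + 1 = (a + 1)^2 - 2 a. v(2 a) = v(2) = exp(-e) is an odd power of exp 1, v((a+1)^2) is 0 or an even
power, so v(a^2 + 1) = max (v(a+1)^2, v(2)) >= v(2) > v(4), hence v(a^2 - B) = max (v(a+1)^2, v(2)). And a^2 + B = (a - 1)(a + 1) + 4 B2, a - 1 = (a + 1) - 2.
Case v(a+1)^2 > v(2): then v(a+1) > v(2) (v(2)^2 < v(2)), so v(a - 1) = v(a + 1), v(a^2 + B) <= max (v(a+1)^2, v(4)) = v(a+1)^2 = v(a^2 - B), and v(2) < 1.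
Case v(a+1)^2 < v(2): v(a^2 - B) = v(2) and v(a^2 + B) < 1 because v(a+1) < 1, v(a-1) < 1, v(4) < 1.
cube_two': m <> 0 in both coordinates is (a, b) <> (0, 0) since norm m = n^3 <> 0. Put D = a^2 - B b^2 = norm m, p = (a^2 + B b^2)/D, q = 2 a b/D:
m = (p + q T) star m (m^2 = D (p + q T)) and p^2 - B q^2 = 1. v(2 p) < 1 by a1_est. By hensel3 (with p = 0, q = -3, r = -2p, s0 = 0: derivative -3, a unit) there is ρ with
ρ^3 - 3 ρ - 2 p = 0 and v(ρ) < 1. ρ^2 - 1 is nonzero (valuation 1). Put r = ρ/2, s = q/(ρ^2 - 1). From (ρ^3 - 3ρ)^2 - 4 = (ρ^2 - 4)(ρ^2 - 1)^2 and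
4 p^2 - 4 = 4 B q^2 we get 4 B s^2 = ρ^2 - 4. γ = (r, s): γ^3 = (r^3 + 3 B r s^2, 3 r^2 s + B s^3) (L1_cube): r^3 + 3 B r s^2 = ρ^3/8 + 3 ρ (ρ^2 - 4)/8 = (ρ^3 - 3 ρ)/2 = p,
s (3 r^2 + B s^2) = s (3 ρ^2/4 + (ρ^2 - 4)/4) = s (ρ^2 - 1) = q. So m = γ^3 * star m, cube_of_ratio. -/

open NumberField IsDedekindDomain Polynomial

namespace H35Z

open H55B H35T H13E H35X

theorem a1_est {k : Type} [Field k] (v : Valuation k (WithZero (Multiplicative ℤ))) (e : ℕ) (he : Odd e)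
    (h2 : v 2 = WithZero.exp (-(e : ℤ))) (B B2 : k) (hB : B = -1 + 4 * B2) (hB2 : v B2 ≤ 1)
    (a b : k) (hab : ¬ (a = 0 ∧ b = 0)) : v 2 * v (a ^ 2 + B * b ^ 2) < v (a ^ 2 - B * b ^ 2) := by
  obtain ⟨e', he'⟩ := he
  have h2lt : v 2 < 1 := by
    rw [h2, ← WithZero.exp_zero, WithZero.exp_lt_exp]
    omega
  have h20 : v 2 ≠ 0 := by
    rw [h2]
    exact WithZero.exp_ne_zero
  have h2pos : 0 < v 2 := zero_lt_iff.2 h20
  have h4lt : v (4 * B2) < v 2 := by
    have e1 : (4 : k) * B2 = 2 * (2 * B2) := by ring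
    rw [e1, map_mul v 2 (2 * B2), map_mul]
    calc v 2 * (v 2 * v B2) ≤ v 2 * (v 2 * 1) := by gcongr
      _ = v 2 * v 2 := by rw [mul_one]
      _ < v 2 * 1 := mul_lt_mul_of_pos_left h2lt h2pos
      _ = v 2 := mul_one _
  have hvB : v B = 1 := by
    rw [hB]
    rw [Valuation.map_add_eq_of_lt_left]
    · rw [Valuation.map_neg, map_one]
    · rw [Valuation.map_neg, map_one]
      exact h4lt.trans h2lt
  have hvBb : v (B * b ^ 2) = v b ^ 2 := by rw [map_mul, hvB, one_mul, map_pow]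
  have hva2 : v (a ^ 2) = v a ^ 2 := map_pow _ _ _
  have hsub : a ^ 2 - B * b ^ 2 = a ^ 2 + -(B * b ^ 2) := by ring
  rcases lt_trichotomy (v a) (v b) with h | h | h
  · have h1 : v a ^ 2 < v b ^ 2 := pow_lt_pow_left₀ h zero_le two_ne_zero
    have hb0 : 0 < v b ^ 2 := lt_of_le_of_lt zero_le h1
    have e1 : v (a ^ 2 + B * b ^ 2) = v b ^ 2 := by
      rw [Valuation.map_add_eq_of_lt_right _ (by rw [hva2, hvBb]; exact h1), hvBb]
    have e2 : v (a ^ 2 - B * b ^ 2) = v b ^ 2 := by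
      rw [hsub, Valuation.map_add_eq_of_lt_right _ (by
        rw [Valuation.map_neg, hva2, hvBb]; exact h1), Valuation.map_neg, hvBb]
    rw [e1, e2]
    calc v 2 * v b ^ 2 < 1 * v b ^ 2 := mul_lt_mul_of_pos_right h2lt hb0
      _ = v b ^ 2 := one_mul _
  · -- the main case
    have ha0 : a ≠ 0 := by
      rintro rfl
      rw [map_zero] at h
      exact hab ⟨rfl, (Valuation.zero_iff _).1 h.symm⟩
    have hb0 : b ≠ 0 := by
      rintro rfl
      rw [map_zero] at h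
      exact ha0 ((Valuation.zero_iff _).1 h)
    have hvb : v b ≠ 0 := (Valuation.ne_zero_iff _).2 hb0
    obtain ⟨c, hc⟩ : ∃ c : k, c = a / b := ⟨_, rfl⟩
    have hac : a = c * b := by rw [hc]; field_simp
    have hvc : v c = 1 := by rw [hc, map_div₀, h, div_self hvb]
    have e1 : a ^ 2 + B * b ^ 2 = (c ^ 2 + B) * b ^ 2 := by rw [hac]; ring
    have e2 : a ^ 2 - B * b ^ 2 = (c ^ 2 - B) * b ^ 2 := by rw [hac]; ring
    rw [e1, e2, map_mul v (c ^ 2 + B), map_mul v (c ^ 2 - B), ← mul_assoc]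
    refine mul_lt_mul_of_pos_right ?_ (zero_lt_iff.2 (by rw [map_pow]; exact pow_ne_zero 2 hvb))
    have ht1 : v (c + 1) ≤ 1 := (Valuation.map_add _ _ _).trans (max_le hvc.le (by rw [map_one]))
    have e3 : c ^ 2 - B = (c + 1) ^ 2 + -(2 * c + 4 * B2) := by rw [hB]; ring
    have e4 : c ^ 2 + B = (c + 1) * (c - 1) + 4 * B2 := by rw [hB]; ring
    have hv2c : v (2 * c + 4 * B2) = v 2 := by
      rw [Valuation.map_add_eq_of_lt_left]
      · rw [map_mul, hvc, mul_one]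
      · rw [map_mul v 2 c, hvc, mul_one]
        exact h4lt
    have hcm : v (c - 1) ≤ max (v (c + 1)) (v 2) := by
      have e5 : c - 1 = (c + 1) - 2 := by ring
      rw [e5]
      exact Valuation.map_sub _ _ _
    have hne : v (c + 1) ^ 2 ≠ v 2 := by
      intro h5
      by_cases h6 : v (c + 1) = 0
      · rw [h6] at h5
        exact h20 (by rw [← h5]; exact zero_pow two_ne_zero)
      · have h7 := congrArg WithZero.log h5
        rw [WithZero.log_pow, h2, WithZero.log_exp] at h7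
        simp only [nsmul_eq_mul] at h7
        push_cast at h7
        omega
    rcases lt_or_gt_of_ne hne with h5 | h5
    · have hv1 : v (c ^ 2 - B) = v 2 := by
        rw [e3, Valuation.map_add_eq_of_lt_right]
        · rw [Valuation.map_neg, hv2c]
        · rw [Valuation.map_neg, hv2c, map_pow]
          exact h5
      have ht : v (c + 1) < 1 := by
        by_contra h6
        have h7 : v (c + 1) = 1 := le_antisymm ht1 (not_lt.1 h6)
        rw [h7, one_pow] at h5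
        exact absurd h5 (not_lt.2 h2lt.le)
      have hv3 : v (c ^ 2 + B) < 1 := by
        rw [e4]
        refine lt_of_le_of_lt (Valuation.map_add _ _ _) (max_lt ?_ (h4lt.trans h2lt))
        rw [map_mul]
        refine mul_lt_one_of_nonneg_of_lt_one_left zero_le ht ?_
        exact hcm.trans (max_le ht1 h2lt.le)
      rw [hv1]
      calc v 2 * v (c ^ 2 + B) < v 2 * 1 := mul_lt_mul_of_pos_left hv3 h2pos
        _ = v 2 := mul_one _
    · have hv1 : v (c ^ 2 - B) = v (c + 1) ^ 2 := by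
        rw [e3, Valuation.map_add_eq_of_lt_left]
        · rw [map_pow]
        · rw [Valuation.map_neg, hv2c, map_pow]
          exact h5
      have ht2 : v (c + 1) ^ 2 ≤ v (c + 1) := by
        rw [pow_two]
        exact mul_le_of_le_one_right' ht1
      have hcm' : v (c - 1) ≤ v (c + 1) := hcm.trans (max_le le_rfl (h5.le.trans ht2))
      have hv3 : v (c ^ 2 + B) ≤ v (c + 1) ^ 2 := by
        rw [e4]
        refine (Valuation.map_add _ _ _).trans (max_le ?_ (h4lt.le.trans h5.le))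
        rw [map_mul, pow_two]
        exact mul_le_mul_right hcm' _
      rw [hv1]
      have hpos : 0 < v (c + 1) ^ 2 := lt_of_le_of_lt zero_le h5
      calc v 2 * v (c ^ 2 + B) ≤ v 2 * v (c + 1) ^ 2 := mul_le_mul_right hv3 _
        _ < 1 * v (c + 1) ^ 2 := mul_lt_mul_of_pos_right h2lt hpos
        _ = v (c + 1) ^ 2 := one_mul _
  · have h1 : v b ^ 2 < v a ^ 2 := pow_lt_pow_left₀ h zero_le two_ne_zero
    have hb0 : 0 < v a ^ 2 := lt_of_le_of_lt zero_le h1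
    have e1 : v (a ^ 2 + B * b ^ 2) = v a ^ 2 := by
      rw [Valuation.map_add_eq_of_lt_left _ (by rw [hva2, hvBb]; exact h1), hva2]
    have e2 : v (a ^ 2 - B * b ^ 2) = v a ^ 2 := by
      rw [hsub, Valuation.map_add_eq_of_lt_left _ (by
        rw [Valuation.map_neg, hva2, hvBb]; exact h1), hva2]
    rw [e1, e2]
    calc v 2 * v a ^ 2 < 1 * v a ^ 2 := mul_lt_mul_of_pos_right h2lt hb0
      _ = v a ^ 2 := one_mul _

theorem cube_two' {K : Type} [Field K] [NumberField K] (w : HeightOneSpectrum (𝓞 K)) (e : ℕ) (he : Odd e)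
    (h2 : Valued.v (2 : w.adicCompletion K) = WithZero.exp (-(e : ℤ)))
    (B B1 : w.adicCompletion K) (hB : B = 3 + 4 * B1) (hB1 : Valued.v B1 ≤ 1)
    (m : QA (w.adicCompletion K) B) (n : w.adicCompletion K) (hn : m.norm = n ^ 3) (hn0 : n ≠ 0) :
    ∃ β : QA (w.adicCompletion K) B, m = β ^ 3 := by
  obtain ⟨a, b⟩ := m
  have hD : a ^ 2 - B * b ^ 2 = n ^ 3 := by
    rw [← hn, QuadraticAlgebra.norm_def]
    ring
  have hn3 : n ^ 3 ≠ 0 := pow_ne_zero 3 hn0
  have hab : ¬ (a = 0 ∧ b = 0) := by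
    rintro ⟨rfl, rfl⟩
    apply hn3
    rw [← hD]
    ring
  have h20v : Valued.v (2 : w.adicCompletion K) ≠ 0 := by
    rw [h2]
    exact WithZero.exp_ne_zero
  have h20 : (2 : w.adicCompletion K) ≠ 0 := (Valuation.ne_zero_iff _).1 h20v
  have h2lt : Valued.v (2 : w.adicCompletion K) < 1 := by
    obtain ⟨e', he'⟩ := he
    rw [h2, ← WithZero.exp_zero, WithZero.exp_lt_exp]
    omega
  have v1 : Valued.v (1 : w.adicCompletion K) = 1 := map_one _
  have h3v : Valued.v (3 : w.adicCompletion K) = 1 := by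
    have e1 : (3 : w.adicCompletion K) = 1 + 2 := by norm_num
    rw [e1, Valuation.map_add_eq_of_lt_left _ (by rw [v1]; exact h2lt), v1]
  have est := a1_est Valued.v e he h2 B (B1 + 1) (by rw [hB]; ring)
    ((Valuation.map_add _ _ _).trans (max_le hB1 v1.le)) a b hab
  rw [hD] at est
  obtain ⟨p, hp⟩ : ∃ p, p = (a ^ 2 + B * b ^ 2) / n ^ 3 := ⟨_, rfl⟩
  obtain ⟨q, hq⟩ : ∃ q, q = 2 * a * b / n ^ 3 := ⟨_, rfl⟩
  have h2p : Valued.v (2 * p) < 1 := by
    rw [hp, ← mul_div_assoc, map_div₀, map_mul]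
    exact (div_lt_one₀ (zero_lt_iff.2 ((Valuation.ne_zero_iff _).2 hn3))).2 est
  have hpq : p ^ 2 - B * q ^ 2 = 1 := by
    rw [hp, hq]
    field_simp
    linear_combination (a ^ 2 - B * b ^ 2 + n ^ 3) * hD
  obtain ⟨ρ, hρ, hρ'⟩ := hensel3 w 0 (-3) (-(2 * p)) 0 (by rw [map_zero]; exact zero_le)
    (by rw [Valuation.map_neg, h3v]) (by rw [Valuation.map_neg]; exact h2p.le)
    (by rw [map_zero]; exact zero_le)
    (by
      have e1 : (0 : w.adicCompletion K) ^ 3 + 0 * 0 ^ 2 + -3 * 0 + -(2 * p) = -(2 * p) := by ring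
      rw [e1, Valuation.map_neg]
      exact h2p)
    (by
      have e1 : 3 * (0 : w.adicCompletion K) ^ 2 + 2 * 0 * 0 + -3 = -3 := by ring
      rw [e1, Valuation.map_neg, h3v])
  rw [sub_zero] at hρ'
  have hρ1 : ρ ^ 3 - 3 * ρ = 2 * p := by linear_combination hρ
  have hd : ρ ^ 2 - 1 ≠ 0 := by
    intro h0
    have h4 : ρ ^ 2 = 1 := sub_eq_zero.1 h0
    have h5 : Valued.v ρ ^ 2 = 1 := by rw [← map_pow, h4, v1]
    have h6 : Valued.v ρ ^ 2 < 1 := by
      rw [pow_two]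
      exact mul_lt_one_of_nonneg_of_lt_one_left zero_le hρ' hρ'.le
    rw [h5] at h6
    exact lt_irrefl _ h6
  -- 4 B q^2 = (ρ^2 - 4) (ρ^2 - 1)^2
  have hBq : 4 * (B * q ^ 2) = (ρ ^ 2 - 4) * (ρ ^ 2 - 1) ^ 2 := by
    have h5 : (ρ ^ 3 - 3 * ρ) ^ 2 = 4 * p ^ 2 := by rw [hρ1]; ring
    linear_combination (-4 : w.adicCompletion K) * hpq - h5
  refine cube_of_ratio n hn hn0 ⟨⟨ρ / 2, q / (ρ ^ 2 - 1)⟩, ?_⟩
  rw [L1_cube, QuadraticAlgebra.star_mk]
  have hA : (ρ / 2) ^ 3 + 3 * B * (ρ / 2) * (q / (ρ ^ 2 - 1)) ^ 2 = p := by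
    have h5 : B * (q / (ρ ^ 2 - 1)) ^ 2 = (ρ ^ 2 - 4) / 4 := by
      rw [div_pow, ← mul_div_assoc, div_eq_div_iff (pow_ne_zero 2 hd)
        (by have : (4 : w.adicCompletion K) = 2 ^ 2 := by norm_num
            rw [this]; exact pow_ne_zero 2 h20)]
      linear_combination hBq
    have h6 : (ρ / 2) ^ 3 + 3 * B * (ρ / 2) * (q / (ρ ^ 2 - 1)) ^ 2 =
        (ρ / 2) ^ 3 + 3 * (ρ / 2) * (B * (q / (ρ ^ 2 - 1)) ^ 2) := by ring
    rw [h6, h5]
    have h7 : p = (ρ ^ 3 - 3 * ρ) / 2 := by rw [hρ1]; field_simp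
    rw [h7]
    have h4 : (4 : w.adicCompletion K) ≠ 0 := by
      have : (4 : w.adicCompletion K) = 2 ^ 2 := by norm_num
      rw [this]
      exact pow_ne_zero 2 h20
    field_simp
    ring
  have hC : 3 * (ρ / 2) ^ 2 * (q / (ρ ^ 2 - 1)) + B * (q / (ρ ^ 2 - 1)) ^ 3 = q := by
    have h4 : (4 : w.adicCompletion K) ≠ 0 := by
      have : (4 : w.adicCompletion K) = 2 ^ 2 := by norm_num
      rw [this]
      exact pow_ne_zero 2 h20
    have h5 : B * (q / (ρ ^ 2 - 1)) ^ 2 = (ρ ^ 2 - 4) / 4 := by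
      rw [div_pow, ← mul_div_assoc, div_eq_div_iff (pow_ne_zero 2 hd) h4]
      linear_combination hBq
    have h6 : 3 * (ρ / 2) ^ 2 * (q / (ρ ^ 2 - 1)) + B * (q / (ρ ^ 2 - 1)) ^ 3 =
        (q / (ρ ^ 2 - 1)) * (3 * (ρ / 2) ^ 2 + B * (q / (ρ ^ 2 - 1)) ^ 2) := by ring
    rw [h6, h5]
    have h8 : 3 * (ρ / 2) ^ 2 + (ρ ^ 2 - 4) / 4 = ρ ^ 2 - 1 := by
      field_simp
      ring
    rw [h8]
    field_simp
  rw [hA, hC]
  refine QuadraticAlgebra.ext ?_ ?_
  · simp only [QuadraticAlgebra.re_mul]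
    rw [hp, hq]
    field_simp
    rw [← hD]
    ring
  · simp only [QuadraticAlgebra.im_mul]
    rw [hp, hq]
    field_simp
    rw [← hD]
    ring

end H35Z
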