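import Mathlib
import Pool.Agent.Lib.H35X.L6
import Pool.Agent.Lib.H55B.F3
import Pool.Agent.Lib.H55C.A17

/-! Chunk A2 (M): places w not above 6 with N(w) = 7 modulo 12: every m whose norm is a cube is a cube. B = -1 or 27.
a2_abs is the abstract statement (compare H35X.L6_abs, which shows how to work with O, φ; a finite residue field k'). b' = φ of the integral element B.
Step 1: for (a, b) with v(a), v(b) <= 1 not both < 1: v(a^2 - B b^2) = 1. Otherwise φ(a)^2 = b' φ(b)^2 in k' with (φ a, φ b) <> (0, 0), so φ(b) <> 0 and b' is a square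
in k', contradiction. Step 2: let (a, b) be arbitrary with a^2 - B b^2 = n^3 <> 0. Let c be the one of a, b with the larger valuation (c <> 0). v(a^2 - B b^2) = v(c)^2 (step 1 for
(a/c, b/c)), so v(c)^2 = v(n)^3. Put g = n/c: v(g)^3... we need an element g of k with v(g)^3 = v(c): g = c/n: v(c/n)^3 = v(c)^3/v(n)^3 = v(c). So
(a, b) = g^3 (a1, b1) with g = c/n, a1 = a/g^3, b1 = b/g^3, max (v(a1), v(b1)) = 1 and norm (a1, b1) = n^3/g^6 = (n/g^2)^3, n1 = n/g^2, v(n1) = 1. So we may assume v(a), v(b) <= 1 and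
v(n) = 1. Step 3: reduce: ff_triv for k' and b' (b' <> 0, no square root of -3 b', hypotheses) gives (p', q') with (φ a, φ b) = (p', q')^3. Lift to p, q in O. ν = p^2 - B q^2 has
φ(ν)^3 = φ(n)^3 <> 0, so v(ν) = 1. (a, b) (p, q)^(-3) = (a, b) (p, -q)^3/ν^3 is congruent to (1, 0) modulo the maximal ideal in both coordinates, so it is a cube by the
hypothesis small; hence (a, b) is a cube (multiply by (p, q)^3). In coordinates use L1_cube.
cube_seven: O = w.adicCompletionIntegers K, k' = its residue field (IsLocalRing.ResidueField), φ = residue, finite; see the proof of H35X.li_good (L6) for all these data; small = cube_small.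
N(w) is the number of elements of k' (H55B.residue_card). q = 7 modulo 12: q = 3 modulo 4, so -1 is not a square in k' (FiniteField.isSquare_neg_one_iff), and q = 1 modulo 3,
so -3 is a square in k' (there is a primitive cube root of unity z: the unit group is cyclic of order q - 1 divisible by 3, (2z+1)^2 = -3). B = -1: B is not a square;
-3 B = 3 = (-1)(-3) is not a square (otherwise -1 = 3/(-3) is a square). B = 27 = 3 * 3^2 is not a square; -3 B = -81 = -(9^2) is not a square. -/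

open NumberField IsDedekindDomain Polynomial

namespace H35Z

open H55B H35T H13E H35X

theorem a2_alg {k : Type} [Field k] (B a b p q ν : k) (hν : ν = p ^ 2 - B * q ^ 2) (hν0 : ν ≠ 0)
    (γ : QA k B)
    (hγ : (⟨(a * (p ^ 3 + 3 * B * p * q ^ 2) - B * (b * (3 * p ^ 2 * q + B * q ^ 3))) / ν ^ 3,
      (b * (p ^ 3 + 3 * B * p * q ^ 2) - a * (3 * p ^ 2 * q + B * q ^ 3)) / ν ^ 3⟩ : QA k B) = γ ^ 3) :
    (⟨a, b⟩ : QA k B) = (⟨p, q⟩ * γ) ^ 3 := by
  rw [mul_pow, ← hγ, L1_cube]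
  have hcc' : (p ^ 3 + 3 * B * p * q ^ 2) ^ 2 - B * (3 * p ^ 2 * q + B * q ^ 3) ^ 2 = ν ^ 3 := by
    rw [hν]; ring
  generalize p ^ 3 + 3 * B * p * q ^ 2 = u1 at *
  generalize 3 * p ^ 2 * q + B * q ^ 3 = u2 at *
  have h0 : ν ^ 3 ≠ 0 := pow_ne_zero 3 hν0
  generalize ν ^ 3 = N at *
  refine QuadraticAlgebra.ext ?_ ?_
  · simp only [QuadraticAlgebra.re_mul]
    field_simp
    rw [← hcc']
    ring
  · simp only [QuadraticAlgebra.im_mul]
    field_simp
    rw [← hcc']
    ring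

/-- Step 3: the unit case. -/
theorem a2_unit {k : Type} [Field k] {Γ : Type*} [LinearOrderedCommGroupWithZero Γ] (v : Valuation k Γ)
    (k' : Type) [Field k'] [Finite k'] (O : Subring k)
    (hO : ∀ x : k, x ∈ O ↔ v x ≤ 1) (φ : O →+* k') (hsurj : Function.Surjective φ)
    (hφ : ∀ x : O, φ x = 0 ↔ v (x : k) < 1)
    (h2 : v 2 = 1) (h3 : v 3 = 1) (B : O) (hB : v (B : k) = 1)
    (hns3 : ¬ ∃ s : k', s ^ 2 = -3 * φ B)
    (small : ∀ p q : k, v (p - 1) < 1 → v q < 1 → ∃ β : QA k (B : k), (⟨p, q⟩ : QA k (B : k)) = β ^ 3)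
    (a b n : k) (ha : v a ≤ 1) (hb : v b ≤ 1) (hn : a ^ 2 - (B : k) * b ^ 2 = n ^ 3) (hn1 : v n = 1) :
    ∃ β : QA k (B : k), (⟨a, b⟩ : QA k (B : k)) = β ^ 3 := by
  have hint (x : O) : v (x : k) ≤ 1 := (hO _).1 x.2
  have hφ1 (x : O) (hx : v (x : k) = 1) : φ x ≠ 0 := by
    intro h
    rw [hφ, hx] at h
    exact lt_irrefl _ h
  have hφ2 (x : O) (hx : φ x ≠ 0) : v (x : k) = 1 := by
    refine le_antisymm (hint x) (not_lt.1 fun h => hx ((hφ x).2 h))
  obtain ⟨a1, ha1e⟩ : ∃ x : O, (x : k) = a := ⟨⟨a, (hO _).2 ha⟩, rfl⟩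
  obtain ⟨b1, hb1e⟩ : ∃ x : O, (x : k) = b := ⟨⟨b, (hO _).2 hb⟩, rfl⟩
  obtain ⟨n1, hn1e⟩ : ∃ x : O, (x : k) = n := ⟨⟨n, (hO _).2 hn1.le⟩, rfl⟩
  subst ha1e hb1e hn1e
  have hn1' : a1 ^ 2 - B * b1 ^ 2 = n1 ^ 3 := Subtype.ext (by push_cast; exact hn)
  have hB1 : φ B ≠ 0 := hφ1 _ hB
  have hnn : (⟨φ a1, φ b1⟩ : QA k' (φ B)).norm = φ n1 ^ 3 := by
    rw [← map_pow, ← hn1', QuadraticAlgebra.norm_def]
    simp only [map_sub, map_mul, map_pow]
    ring
  obtain ⟨β', hβ'⟩ := ff_triv k'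
    (by
      have h := hφ1 2 (by push_cast; exact h2)
      rwa [map_ofNat] at h)
    (by
      have h := hφ1 3 (by push_cast; exact h3)
      rwa [map_ofNat] at h) (φ B) hB1 hns3 ⟨φ a1, φ b1⟩ (φ n1) hnn (hφ1 _ hn1)
  obtain ⟨p, hp⟩ := hsurj β'.re
  obtain ⟨q, hq⟩ := hsurj β'.im
  obtain ⟨ν, hν⟩ : ∃ ν : O, ν = p ^ 2 - B * q ^ 2 := ⟨_, rfl⟩
  have hνu : v (ν : k) = 1 := by
    apply hφ2
    intro h
    have h4 : (β' ^ 3).norm = 0 := by
      rw [map_pow]
      have : β'.norm = φ ν := by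
        rw [QuadraticAlgebra.norm_def, ← hp, ← hq, hν]
        simp only [map_sub, map_mul, map_pow]
        ring
      rw [this, h]
      ring
    rw [← hβ', hnn] at h4
    exact hφ1 n1 hn1 (by simpa using h4)
  have hν0 : (ν : k) ≠ 0 := by
    intro h
    rw [h, map_zero] at hνu
    exact zero_ne_one hνu
  obtain ⟨u1, hu1⟩ : ∃ r : O, r = p ^ 3 + 3 * B * p * q ^ 2 := ⟨_, rfl⟩
  obtain ⟨u2, hu2⟩ : ∃ r : O, r = 3 * p ^ 2 * q + B * q ^ 3 := ⟨_, rfl⟩
  have hβ3 : β' ^ 3 = ⟨φ u1, φ u2⟩ := by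
    have e : β' = ⟨φ p, φ q⟩ := QuadraticAlgebra.ext hp.symm hq.symm
    rw [e, L1_cube, hu1, hu2]
    simp only [map_add, map_mul, map_pow, map_ofNat]
  have hd1 : φ (a1 - u1) = 0 := by
    have h := congrArg QuadraticAlgebra.re hβ'
    rw [hβ3] at h
    have h' : φ a1 = φ u1 := h
    rw [map_sub, h', sub_self]
  have hd2 : φ (b1 - u2) = 0 := by
    have h := congrArg QuadraticAlgebra.im hβ'
    rw [hβ3] at h
    have h' : φ b1 = φ u2 := h
    rw [map_sub, h', sub_self]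
  have hcc : u1 ^ 2 - B * u2 ^ 2 = ν ^ 3 := by rw [hu1, hu2, hν]; ring
  have hm1 : φ (a1 * u1 - B * (b1 * u2) - ν ^ 3) = 0 := by
    have e : a1 * u1 - B * (b1 * u2) - ν ^ 3 = (a1 - u1) * u1 - B * ((b1 - u2) * u2) := by
      rw [← hcc]; ring
    rw [e, map_sub, map_mul, hd1, map_mul, map_mul, hd2]
    ring
  have hm2 : φ (b1 * u1 - a1 * u2) = 0 := by
    have e : b1 * u1 - a1 * u2 = (b1 - u2) * u1 - (a1 - u1) * u2 := by ring
    rw [e, map_sub, map_mul φ (b1 - u2), map_mul φ (a1 - u1), hd1, hd2]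
    ring
  rw [hφ] at hm1 hm2
  push_cast at hm1 hm2
  obtain ⟨γ, hγ⟩ := small
    (((a1 : k) * u1 - B * (b1 * u2)) / (ν : k) ^ 3)
    (((b1 : k) * u1 - a1 * u2) / (ν : k) ^ 3)
    (by
      have e : ((a1 : k) * u1 - B * (b1 * u2)) / (ν : k) ^ 3 - 1 =
        ((a1 : k) * u1 - B * (b1 * u2) - ν ^ 3) / (ν : k) ^ 3 := by
        field_simp
      rw [e, map_div₀, map_pow, hνu, one_pow, div_one]
      exact hm1)
    (by
      rw [map_div₀, map_pow, hνu, one_pow, div_one]
      exact hm2)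
  have e1 : (ν : k) = (p : k) ^ 2 - B * (q : k) ^ 2 := by rw [hν]; push_cast; rfl
  have e4 : (u1 : k) = p ^ 3 + 3 * B * p * q ^ 2 := by rw [hu1]; push_cast; rfl
  have e5 : (u2 : k) = 3 * p ^ 2 * q + B * q ^ 3 := by rw [hu2]; push_cast; rfl
  rw [e4, e5] at hγ
  exact ⟨_, a2_alg (B : k) a1 b1 p q ν e1 hν0 γ hγ⟩

/-- Step 1. -/
theorem a2_aniso {k : Type} [Field k] {Γ : Type*} [LinearOrderedCommGroupWithZero Γ] (v : Valuation k Γ)
    (k' : Type) [Field k'] (O : Subring k)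
    (hO : ∀ x : k, x ∈ O ↔ v x ≤ 1) (φ : O →+* k')
    (hφ : ∀ x : O, φ x = 0 ↔ v (x : k) < 1) (B : O)
    (hns : ¬ ∃ s : k', s ^ 2 = φ B) (a b : k) (ha : v a ≤ 1) (hb : v b ≤ 1) (hab : ¬ (v a < 1 ∧ v b < 1)) :
    v (a ^ 2 - (B : k) * b ^ 2) = 1 := by
  obtain ⟨a1, ha1e⟩ : ∃ x : O, (x : k) = a := ⟨⟨a, (hO _).2 ha⟩, rfl⟩
  obtain ⟨b1, hb1e⟩ : ∃ x : O, (x : k) = b := ⟨⟨b, (hO _).2 hb⟩, rfl⟩
  subst ha1e hb1e
  have h1 : v (((a1 ^ 2 - B * b1 ^ 2 : O)) : k) ≤ 1 := (hO _).1 (a1 ^ 2 - B * b1 ^ 2).2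
  have h2 : ¬ v (((a1 ^ 2 - B * b1 ^ 2 : O)) : k) < 1 := by
    rw [← hφ]
    intro h
    rw [map_sub, map_mul, map_pow, map_pow, sub_eq_zero] at h
    by_cases hb0 : φ b1 = 0
    · apply hab
      rw [← hφ, ← hφ]
      refine ⟨?_, hb0⟩
      rw [hb0] at h
      simpa using h
    · apply hns
      refine ⟨φ a1 / φ b1, ?_⟩
      rw [div_pow, h]
      field_simp
  have h3 := le_antisymm h1 (not_lt.1 h2)
  push_cast at h3
  exact h3

theorem a2_abs {k : Type} [Field k] (v : Valuation k (WithZero (Multiplicative ℤ)))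
    (k' : Type) [Field k'] [Finite k'] (O : Subring k)
    (hO : ∀ x : k, x ∈ O ↔ v x ≤ 1) (φ : O →+* k') (hsurj : Function.Surjective φ)
    (hφ : ∀ x : O, φ x = 0 ↔ v (x : k) < 1)
    (h2 : v 2 = 1) (h3 : v 3 = 1) (B : O) (hB : v (B : k) = 1)
    (hns : ¬ ∃ s : k', s ^ 2 = φ B) (hns3 : ¬ ∃ s : k', s ^ 2 = -3 * φ B)
    (small : ∀ p q : k, v (p - 1) < 1 → v q < 1 → ∃ β : QA k (B : k), (⟨p, q⟩ : QA k (B : k)) = β ^ 3)
    (a b n : k) (hn : a ^ 2 - (B : k) * b ^ 2 = n ^ 3) (hn0 : n ≠ 0) :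
    ∃ β : QA k (B : k), (⟨a, b⟩ : QA k (B : k)) = β ^ 3 := by
  obtain ⟨c, hc0, hac, hbc, hcc⟩ : ∃ c : k, c ≠ 0 ∧ v a ≤ v c ∧ v b ≤ v c ∧ (c = a ∨ c = b) := by
    rcases le_total (v b) (v a) with h | h
    · refine ⟨a, ?_, le_rfl, h, Or.inl rfl⟩
      rintro rfl
      rw [map_zero] at h
      have hb0 : b = 0 := by
        by_contra hb
        exact (Valuation.ne_zero_iff v).2 hb (le_antisymm h zero_le)
      rw [hb0] at hn
      apply hn0
      have : n ^ 3 = 0 := by rw [← hn]; ring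
      exact eq_zero_of_pow_eq_zero this
    · refine ⟨b, ?_, h, le_rfl, Or.inr rfl⟩
      rintro rfl
      rw [map_zero] at h
      have ha0 : a = 0 := by
        by_contra ha
        exact (Valuation.ne_zero_iff v).2 ha (le_antisymm h zero_le)
      rw [ha0] at hn
      apply hn0
      have : n ^ 3 = 0 := by rw [← hn]; ring
      exact eq_zero_of_pow_eq_zero this
  have hvc : v c ≠ 0 := (Valuation.ne_zero_iff v).2 hc0
  have hvc' : 0 < v c := zero_lt_iff.2 hvc
  have hvn : v n ≠ 0 := (Valuation.ne_zero_iff v).2 hn0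
  have hva : v (a / c) ≤ 1 := by
    rw [map_div₀]
    exact (div_le_one₀ hvc').2 hac
  have hvb : v (b / c) ≤ 1 := by
    rw [map_div₀]
    exact (div_le_one₀ hvc').2 hbc
  have hnot : ¬ (v (a / c) < 1 ∧ v (b / c) < 1) := by
    rintro ⟨h4, h5⟩
    rcases hcc with rfl | rfl
    · rw [div_self hc0, map_one] at h4
      exact lt_irrefl _ h4
    · rw [div_self hc0, map_one] at h5
      exact lt_irrefl _ h5
  have h4 := a2_aniso v k' O hO φ hφ B hns (a / c) (b / c) hva hvb hnot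
  have h5 : v n ^ 3 = v c ^ 2 := by
    have e : (a / c) ^ 2 - (B : k) * (b / c) ^ 2 = n ^ 3 / c ^ 2 := by
      rw [← hn]
      field_simp
    rw [e, map_div₀, map_pow, map_pow] at h4
    exact (div_eq_one_iff_eq (pow_ne_zero 2 hvc)).1 h4
  have hg0 : c / n ≠ 0 := div_ne_zero hc0 hn0
  have hg : v ((c / n) ^ 3) = v c := by
    rw [map_pow, map_div₀, div_pow, h5]
    field_simp
  obtain ⟨β, hβ⟩ := a2_unit v k' O hO φ hsurj hφ h2 h3 B hB hns3 small (a / (c / n) ^ 3) (b / (c / n) ^ 3)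
    (n / (c / n) ^ 2) (by rw [map_div₀, hg, ← map_div₀]; exact hva) (by rw [map_div₀, hg, ← map_div₀]; exact hvb)
    (by
      have e : (a / (c / n) ^ 3) ^ 2 - (B : k) * (b / (c / n) ^ 3) ^ 2 =
          (a ^ 2 - (B : k) * b ^ 2) / ((c / n) ^ 3) ^ 2 := by
        field_simp
      rw [e, hn, div_pow]
      congr 1
      ring)
    (by
      have e : v (n / (c / n) ^ 2) ^ 3 = 1 := by
        rw [← map_pow]
        have e2 : (n / (c / n) ^ 2) ^ 3 = n ^ 3 / ((c / n) ^ 3) ^ 2 := by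
          rw [div_pow]
          congr 1
          ring
        rw [e2, map_div₀, map_pow, map_pow v ((c / n) ^ 3), hg, h5]
        exact div_self (pow_ne_zero 2 hvc)
      exact (pow_eq_one_iff.1 e).resolve_right (by norm_num))
  refine ⟨⟨c / n, 0⟩ * β, ?_⟩
  rw [mul_pow, ← hβ, L1_cube]
  have hg3 : (c / n) ^ 3 ≠ 0 := pow_ne_zero 3 hg0
  refine QuadraticAlgebra.ext ?_ ?_
  · simp only [QuadraticAlgebra.re_mul]
    generalize (c / n) ^ 3 = G at *
    field_simp
    ring
  · simp only [QuadraticAlgebra.im_mul]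
    generalize (c / n) ^ 3 = G at *
    field_simp
    ring

theorem a2_sq3 (k : Type) [Field k] [Finite k] (h : Nat.card k % 12 = 7) :
    (¬ ∃ s : k, s ^ 2 = -1) ∧ ∃ t : k, t ^ 2 = -3 := by
  have hfin : Fintype k := Fintype.ofFinite k
  have hc : Fintype.card k = Nat.card k := (Nat.card_eq_fintype_card).symm
  constructor
  · rintro ⟨s, hs⟩
    have h1 : IsSquare (-1 : k) := ⟨s, by rw [← hs, pow_two]⟩
    rw [FiniteField.isSquare_neg_one_iff, hc] at h1
    omega
  · have hd : 3 ∣ Nat.card kˣ := by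
      rw [Nat.card_units]
      omega
    have hp : Fact (Nat.Prime 3) := ⟨Nat.prime_three⟩
    obtain ⟨z, hz⟩ := exists_prime_orderOf_dvd_card' 3 hd
    have hz3 : (z : k) ^ 3 = 1 := by
      have h1 := pow_orderOf_eq_one z
      rw [hz] at h1
      rw [← Units.val_pow_eq_pow_val, h1, Units.val_one]
    have hz1 : (z : k) ≠ 1 := by
      intro h1
      have h2 : z = 1 := Units.ext h1
      rw [h2, orderOf_one] at hz
      norm_num at hz
    have hq : (z : k) ^ 2 + z + 1 = 0 := by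
      have h4 : ((z : k) - 1) * ((z : k) ^ 2 + z + 1) = 0 := by linear_combination hz3
      exact (mul_eq_zero.1 h4).resolve_left (sub_ne_zero.2 hz1)
    exact ⟨2 * z + 1, by linear_combination 4 * hq⟩

/-- the two conditions in the residue field -/
theorem a2_ns (k : Type) [Field k] [Finite k] (h : Nat.card k % 12 = 7) (h3 : (3 : k) ≠ 0) (B : ℤ)
    (hB : B = -1 ∨ B = 27) : (¬ ∃ s : k, s ^ 2 = (B : k)) ∧ ¬ ∃ s : k, s ^ 2 = -3 * (B : k) := by
  obtain ⟨h1, t, ht⟩ := a2_sq3 k h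
  have ht0 : t ≠ 0 := by
    rintro rfl
    apply h3
    linear_combination ht
  have h3' : ¬ ∃ s : k, s ^ 2 = 3 := by
    rintro ⟨s, hs⟩
    apply h1
    refine ⟨s / t, ?_⟩
    rw [div_pow, hs, ht]
    field_simp
  rcases hB with rfl | rfl
  · constructor
    · rintro ⟨s, hs⟩
      exact h1 ⟨s, by rw [hs]; push_cast; rfl⟩
    · rintro ⟨s, hs⟩
      exact h3' ⟨s, by rw [hs]; push_cast; ring⟩
  · constructor
    · rintro ⟨s, hs⟩
      refine h3' ⟨s / 3, ?_⟩
      rw [div_pow, hs]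
      push_cast
      have e : (27 : k) = 3 * 3 ^ 2 := by norm_num
      rw [e]
      field_simp
    · rintro ⟨s, hs⟩
      refine h1 ⟨s / 9, ?_⟩
      have h9 : (9 : k) ≠ 0 := by
        have e : (9 : k) = 3 ^ 2 := by norm_num
        rw [e]
        exact pow_ne_zero 2 h3
      rw [div_pow, hs]
      push_cast
      have e : (-3 * 27 : k) = -1 * 9 ^ 2 := by norm_num
      rw [e]
      field_simp

theorem a2_v {K : Type} [Field K] [NumberField K] (w : HeightOneSpectrum (𝓞 K)) (n : ℕ)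
    (h : (n : 𝓞 K) ∉ w.asIdeal) : Valued.v (n : w.adicCompletion K) = 1 := by
  have e : (n : w.adicCompletion K) = algebraMap K _ (algebraMap (𝓞 K) K (n : 𝓞 K)) := by
    rw [map_natCast, map_natCast]
  rw [e, H55C.valued_alg]
  refine le_antisymm (w.valuation_le_one (K := K) (n : 𝓞 K)) (not_lt.1 ?_)
  intro h1
  exact h ((HeightOneSpectrum.valuation_lt_one_iff_mem (K := K) w (n : 𝓞 K)).1 h1)

/-- data above a place of norm 7 modulo 12 -/
theorem a2_data {K : Type} [Field K] [NumberField K] (w : HeightOneSpectrum (𝓞 K))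
    (h6 : (6 : 𝓞 K) ∉ w.asIdeal) (h7 : Ideal.absNorm w.asIdeal % 12 = 7) (B : ℤ)
    (hB : B = -1 ∨ B = 27) :
    Valued.v (2 : w.adicCompletion K) = 1 ∧ Valued.v (3 : w.adicCompletion K) = 1 ∧
    Valued.v (B : w.adicCompletion K) = 1 ∧
    (¬ ∃ s : IsLocalRing.ResidueField (w.adicCompletionIntegers K), s ^ 2 = (B : IsLocalRing.ResidueField _)) ∧
    ¬ ∃ s : IsLocalRing.ResidueField (w.adicCompletionIntegers K), s ^ 2 = -3 * (B : IsLocalRing.ResidueField _) := by
  obtain ⟨hfin, hcard⟩ := H55B.residue_card K w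
  have h2 : Valued.v (2 : w.adicCompletion K) = 1 := by
    have h := a2_v w 2 (by
      intro h
      apply h6
      have e : (6 : 𝓞 K) = 3 * ((2 : ℕ) : 𝓞 K) := by norm_num
      rw [e]
      exact Ideal.mul_mem_left _ _ h)
    exact_mod_cast h
  have h3 : Valued.v (3 : w.adicCompletion K) = 1 := by
    have h := a2_v w 3 (by
      intro h
      apply h6
      have e : (6 : 𝓞 K) = 2 * ((3 : ℕ) : 𝓞 K) := by norm_num
      rw [e]
      exact Ideal.mul_mem_left _ _ h)
    exact_mod_cast h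
  have hBv : Valued.v (B : w.adicCompletion K) = 1 := by
    rcases hB with rfl | rfl
    · push_cast
      rw [Valuation.map_neg, map_one]
    · have e : (((27 : ℤ) : w.adicCompletion K)) = 3 ^ 3 := by
        push_cast
        norm_num
      rw [e, map_pow, h3, one_pow]
  have h3r : (3 : IsLocalRing.ResidueField (w.adicCompletionIntegers K)) ≠ 0 := by
    have e : (3 : IsLocalRing.ResidueField (w.adicCompletionIntegers K)) =
        IsLocalRing.residue (w.adicCompletionIntegers K) 3 := (map_ofNat _ 3).symm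
    rw [e, Ne, L6_res w]
    intro h
    have h' : Valued.v (3 : w.adicCompletion K) < 1 := h
    rw [h3] at h'
    exact lt_irrefl _ h'
  obtain ⟨h4, h5⟩ := a2_ns (IsLocalRing.ResidueField (w.adicCompletionIntegers K)) (by rw [hcard]; exact h7) h3r B hB
  exact ⟨h2, h3, hBv, h4, h5⟩

theorem cube_seven {K : Type} [Field K] [NumberField K] (w : HeightOneSpectrum (𝓞 K))
    (h6 : (6 : 𝓞 K) ∉ w.asIdeal) (h7 : Ideal.absNorm w.asIdeal % 12 = 7) (B : ℤ)
    (hB : B = -1 ∨ B = 27)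
    (m : QA (w.adicCompletion K) (B : w.adicCompletion K)) (n : w.adicCompletion K)
    (hn : m.norm = n ^ 3) (hn0 : n ≠ 0) :
    ∃ β : QA (w.adicCompletion K) (B : w.adicCompletion K), m = β ^ 3 := by
  obtain ⟨hfin, -⟩ := H55B.residue_card K w
  obtain ⟨h2, h3, hBv, h4, h5⟩ := a2_data w h6 h7 B hB
  have hφB : IsLocalRing.residue (w.adicCompletionIntegers K) (B : w.adicCompletionIntegers K) =
      (B : IsLocalRing.ResidueField (w.adicCompletionIntegers K)) := map_intCast _ B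
  have hr := L6_res (K := K) w
  have hs : Function.Surjective (IsLocalRing.residue (w.adicCompletionIntegers K)) :=
    IsLocalRing.residue_surjective
  have hgen : ∀ (Bk : w.adicCompletion K) (B1 : w.adicCompletionIntegers K), (B1 : w.adicCompletion K) = Bk →
      Valued.v Bk = 1 →
      (¬ ∃ s, s ^ 2 = IsLocalRing.residue (w.adicCompletionIntegers K) B1) →
      (¬ ∃ s, s ^ 2 = -3 * IsLocalRing.residue (w.adicCompletionIntegers K) B1) →
      ∀ (m : QA (w.adicCompletion K) Bk) (n : w.adicCompletion K), m.norm = n ^ 3 → n ≠ 0 →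
        ∃ β : QA (w.adicCompletion K) Bk, m = β ^ 3 := by
    rintro _ B1 rfl hv hn1 hn3 ⟨a, b⟩ n hn hn0
    exact a2_abs (k := w.adicCompletion K) (Valued.v (R := w.adicCompletion K))
      (IsLocalRing.ResidueField (w.adicCompletionIntegers K))
      (w.adicCompletionIntegers K).toSubring
      (fun x => HeightOneSpectrum.mem_adicCompletionIntegers (𝓞 K) K w)
      (IsLocalRing.residue (w.adicCompletionIntegers K)) hs hr h2 h3 B1 hv hn1 hn3
      (fun p q hp hq => cube_small w h3 _ hv p q hp hq) a b n (by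
        rw [L5a_norm] at hn
        rw [← hn]
        ring) hn0
  refine hgen (B : w.adicCompletion K) (B : w.adicCompletionIntegers K) ?_ hBv (by rw [hφB]; exact h4)
    (by rw [hφB]; exact h5) m n hn hn0
  rfl

/-- Squares in the completion: -1 and 27 are not squares. -/
theorem nosq_seven {K : Type} [Field K] [NumberField K] (w : HeightOneSpectrum (𝓞 K))
    (h6 : (6 : 𝓞 K) ∉ w.asIdeal) (h7 : Ideal.absNorm w.asIdeal % 12 = 7) (B : ℤ)
    (hB : B = -1 ∨ B = 27) (x : w.adicCompletion K) : x ^ 2 ≠ (B : w.adicCompletion K) := by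
  intro hx
  obtain ⟨h2, h3, hBv, h4, h5⟩ := a2_data w h6 h7 B hB
  have hvx : Valued.v x ≤ 1 := by
    have h : Valued.v x ^ 2 = 1 := by rw [← map_pow, hx, hBv]
    exact ((pow_eq_one_iff.1 h).resolve_right (by norm_num)).le
  obtain ⟨x1, hx1⟩ : ∃ x1 : w.adicCompletionIntegers K, (x1 : w.adicCompletion K) = x :=
    ⟨⟨x, (HeightOneSpectrum.mem_adicCompletionIntegers (𝓞 K) K w).2 hvx⟩, rfl⟩
  apply h4
  refine ⟨IsLocalRing.residue _ x1, ?_⟩
  rw [← map_pow, ← map_intCast (IsLocalRing.residue (w.adicCompletionIntegers K)) B]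
  congr 1
  apply Subtype.ext
  show (x1 : w.adicCompletion K) ^ 2 = (B : w.adicCompletion K)
  rw [hx1]
  exact hx

theorem a2_parity {k : Type} [Field k] (v : Valuation k (WithZero (Multiplicative ℤ))) (e : ℕ) (he : Odd e)
    (y : k) (h : v y ^ 2 = WithZero.exp (-(e : ℤ))) : False := by
  have h0 : v y ≠ 0 := by
    intro h0
    rw [h0] at h
    exact WithZero.exp_ne_zero (h.symm.trans (zero_pow two_ne_zero))
  have h1 : v y = WithZero.exp (WithZero.log (v y)) := (WithZero.exp_log h0).symm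
  rw [h1, ← WithZero.exp_nsmul, WithZero.exp_inj] at h
  obtain ⟨j, hj⟩ := he
  simp only [nsmul_eq_mul, Nat.cast_ofNat] at h
  omega

/-- The same above 2 if the valuation of 2 is odd: (1 + x)^2 = 1 + x^2 + 2 x with x^2 = -1 gives v(2) = v(1 + x)^2, and with x^2 = 27:
(1 + x)^2 = 28 + 2 x = 2 (14 + x), v(14 + x) = 1. -/
theorem nosq_two {K : Type} [Field K] [NumberField K] (w : HeightOneSpectrum (𝓞 K)) (e : ℕ) (he : Odd e)
    (h2 : Valued.v (2 : w.adicCompletion K) = WithZero.exp (-(e : ℤ))) (B : ℤ)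
    (hB : B = -1 ∨ B = 27) (x : w.adicCompletion K) : x ^ 2 ≠ (B : w.adicCompletion K) := by
  intro hx
  have h2lt : Valued.v (2 : w.adicCompletion K) < 1 := by
    rw [h2, ← WithZero.exp_zero, WithZero.exp_lt_exp]
    obtain ⟨j, hj⟩ := he
    omega
  have hnat : ∀ n : ℕ, Valued.v (n : w.adicCompletion K) ≤ 1 := by
    intro n
    have e : (n : w.adicCompletion K) = algebraMap K _ (algebraMap (𝓞 K) K (n : 𝓞 K)) := by
      rw [map_natCast, map_natCast]
    rw [e, H55C.valued_alg]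
    exact w.valuation_le_one (K := K) (n : 𝓞 K)
  have heven : ∀ n : ℕ, Valued.v ((2 * n : ℕ) : w.adicCompletion K) < 1 := by
    intro n
    push_cast
    rw [map_mul]
    calc Valued.v (2 : w.adicCompletion K) * Valued.v (n : w.adicCompletion K)
        ≤ Valued.v (2 : w.adicCompletion K) * 1 := mul_le_mul' le_rfl (hnat n)
      _ < 1 := by rw [mul_one]; exact h2lt
  have hodd : ∀ n : ℕ, Valued.v ((2 * n + 1 : ℕ) : w.adicCompletion K) = 1 := by
    intro n
    rw [Nat.cast_add, Nat.cast_one]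
    have h := Valuation.map_add_eq_of_lt_right Valued.v (x := ((2 * n : ℕ) : w.adicCompletion K))
      (y := (1 : w.adicCompletion K)) (by rw [map_one]; exact heven n)
    rw [h, map_one]
  have hvB : Valued.v (B : w.adicCompletion K) = 1 := by
    rcases hB with rfl | rfl
    · push_cast
      rw [Valuation.map_neg, map_one]
    · have h := hodd 13
      have e : ((2 * 13 + 1 : ℕ) : w.adicCompletion K) = ((27 : ℤ) : w.adicCompletion K) := by
        push_cast
        norm_num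
      rw [e] at h
      exact h
  have hvx : Valued.v x = 1 := by
    have h : Valued.v x ^ 2 = 1 := by rw [← map_pow, hx, hvB]
    exact (pow_eq_one_iff.1 h).resolve_right (by norm_num)
  apply a2_parity (Valued.v (R := w.adicCompletion K)) e he (1 + x)
  rw [← map_pow, ← h2]
  rcases hB with rfl | rfl
  · push_cast at hx
    have e1 : (1 + x) ^ 2 = 2 * x := by linear_combination hx
    rw [e1, map_mul, hvx, mul_one]
  · push_cast at hx
    have e1 : (1 + x) ^ 2 = 2 * (((2 * 7 : ℕ) : w.adicCompletion K) + x) := by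
      push_cast
      linear_combination hx
    have h14 : Valued.v (((2 * 7 : ℕ) : w.adicCompletion K) + x) = 1 := by
      rw [Valuation.map_add_eq_of_lt_right Valued.v (by rw [hvx]; exact heven 7), hvx]
    rw [e1, map_mul, h14, mul_one]

end H35Z
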