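import Mathlib
import Pool.Agent.Lib.H19Z.L0
import Pool.Agent.Lib.H35N.U3
import Pool.Agent.Lib.H35X.Stat

/-!
# H35Z: the exact criterion at 3 for the curves y^2 = x^3 - d^2

Definitions. See PROOF.md.
-/

open NumberField IsDedekindDomain Polynomial

namespace H35Z

open H55B H35T H19T H13E H35X

/-! ## The curves and their Selmer groups -/

/-- The elliptic curve y^2 = x^3 - d^2 over the rationals. -/
def Ec (d : ℤ) : WeierstrassCurve ℚ := ⟨0, 0, 0, 0, -(d : ℚ) ^ 2⟩

/-- The image of the local Kummer map of the isogeny of degree 3 from y^2 = x^3 + 27 d^2 to y^2 = x^3 - d^2: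
m is y - d T up to cubes for a point (x, y) of y^2 = x^3 - d^2 over k with x nonzero (T^2 = -1). -/
def LocImd (d : ℤ) (k : Type) [Field k] (m : Qd k) : Prop :=
  ∃ x y : k, y ^ 2 = x ^ 3 - (d : k) ^ 2 ∧ x ≠ 0 ∧
    ∃ b : Qd k, m * (AdjoinRoot.of _ y - AdjoinRoot.of _ (d : k) * AdjoinRoot.root _) = b ^ 3

/-- The same for the isogeny from y^2 = x^3 - d^2 to y^2 = x^3 + 27 d^2 (T^2 = 27). -/
def LocImEd (d : ℤ) (k : Type) [Field k] (m : Qe k) : Prop :=
  ∃ x y : k, y ^ 2 = x ^ 3 + 27 * (d : k) ^ 2 ∧ x ≠ 0 ∧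
    ∃ b : Qe k, m * (AdjoinRoot.of _ y - AdjoinRoot.of _ (d : k) * AdjoinRoot.root _) = b ^ 3

/-- Representatives of the Selmer group over K of the isogeny from y^2 = x^3 + 27 d^2 to y^2 = x^3 - d^2. -/
def Seld (d : ℤ) (K : Type) [Field K] [NumberField K] : Set (Qd K) :=
  {m | IsUnit m ∧ (∃ n : K, Algebra.norm K m = n ^ 3) ∧
    ∀ w : HeightOneSpectrum (𝓞 K),
      LocImd d (w.adicCompletion K) (qmap (algebraMap K (w.adicCompletion K)) m)}

/-- Representatives of the Selmer group over K of the isogeny from y^2 = x^3 - d^2 to y^2 = x^3 + 27 d^2. -/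
def SelEd (d : ℤ) (K : Type) [Field K] [NumberField K] : Set (Qe K) :=
  {m | IsUnit m ∧ (∃ n : K, Algebra.norm K m = n ^ 3) ∧
    ∀ w : HeightOneSpectrum (𝓞 K),
      LocImEd d (w.adicCompletion K) (emap (algebraMap K (w.adicCompletion K)) m)}

/-- The Selmer groups over K of the two isogenies of degree 3 (whose composition is multiplication by 3 or -3) are
trivial. -/
def SelZ (d : ℤ) (K : Type) [Field K] [NumberField K] : Prop :=
  (∀ m ∈ Seld d K, ∃ b : Qd K, m = b ^ 3) ∧ (∀ m ∈ SelEd d K, ∃ b : Qe K, m = b ^ 3)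

/-! ## The formula of Birch and Swinnerton-Dyer -/

/-- The curve over the completion of K at w. -/
noncomputable def Ew (d : ℤ) (K : Type) [Field K] [NumberField K] (w : HeightOneSpectrum (𝓞 K)) :
    WeierstrassCurve (w.adicCompletion K) :=
  ((Ec d).baseChange K).baseChange (w.adicCompletion K)

/-- A minimal Weierstrass equation over the completion of K at w (the one of Mathlib). -/
noncomputable def Wm (d : ℤ) (K : Type) [Field K] [NumberField K] (w : HeightOneSpectrum (𝓞 K)) :
    WeierstrassCurve (w.adicCompletion K) :=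
  (Ew d K w).minimal (w.adicCompletionIntegers K)

open Classical in
/-- The Tamagawa number: the index of the subgroup of points with nonsingular reduction of the minimal
model. -/
noncomputable def cw (d : ℤ) (K : Type) [Field K] [NumberField K] (w : HeightOneSpectrum (𝓞 K)) : ℕ :=
  (AddSubgroup.closure (H19Z.NonsRed w (Wm d K w))).index

/-- The product of the Tamagawa numbers and the numbers |Δmin/Δ|^(1/12) (normalised absolute values;
Δ is the discriminant of the equation y^2 = x^3 - d^2). -/
noncomputable def CEK (d : ℤ) (K : Type) [Field K] [NumberField K] : ℝ :=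
  ∏ᶠ w : HeightOneSpectrum (𝓞 K), (cw d K w : ℝ) * ‖(Wm d K w).Δ / (Ew d K w).Δ‖ ^ (1 / 12 : ℝ)

open Classical in
/-- The number of torsion points over K. -/
noncomputable def torsd (d : ℤ) (K : Type) [Field K] [NumberField K] : ℕ :=
  Nat.card {P : ((Ec d).baseChange K).toAffine.Point // IsOfFinAddOrder P}

/-- The analytic order of the Tate-Shafarevich group of y^2 = x^3 - d^2 over K predicted by the formula of
Birch and Swinnerton-Dyer in rank 0 (it is 0 if L1 = 0); L1 is the value of the L-function at 1, torsd the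
number of torsion points, L the period lattice of dx/(2y), Omr its real period, Om twice the area of a
period parallelogram, CEK the product of the Tamagawa numbers and the discriminant factors. -/
noncomputable def shaD (d : ℤ) (K : Type) [Field K] [NumberField K] (L : PeriodPair) (L1 : ℂ) : ℂ :=
  L1 * (Real.sqrt |(NumberField.discr K : ℝ)| : ℝ) * (torsd d K : ℂ) ^ 2 /
    ((Omr L : ℂ) ^ NumberField.InfinitePlace.nrRealPlaces K *
      (Om L : ℂ) ^ NumberField.InfinitePlace.nrComplexPlaces K * ((CEK d K : ℝ) : ℂ))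

/-- Λ is the analytic continuation to Re s > 1/2 of the L-function of y^2 = x^3 - d^2 over K. -/
def ContD (d : ℤ) (K : Type) [Field K] [NumberField K] (Λ : ℂ → ℂ) : Prop :=
  AnalyticOnNhd ℂ Λ {s | 1 / 2 < s.re} ∧
    ∀ s : ℂ, 3 / 2 < s.re →
      LSeriesSummable (fun n => ((((Ec d).baseChange K).LFunction n : ℤ) : ℂ)) s ∧
      Λ s = ((Ec d).baseChange K).LSeries s

/-! ## The classes of fields -/

/-- K (which need not contain F) is contained in a Galois extension L of F of 3-power degree which is unramified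
at the primes above 3. -/
def Cls3T (K : Type) [Field K] [NumberField K] : Prop :=
  ∃ (L : Type) (_ : Field L) (_ : NumberField L) (_ : Algebra F L) (_ : Algebra K L),
    ThreeExt L ∧ H35N.Unr3 L

/-- The valuations of 2 are odd. -/
def OddTwo (K : Type) [Field K] [NumberField K] : Prop :=
  ∀ w : HeightOneSpectrum (𝓞 K), (2 : 𝓞 K) ∈ w.asIdeal →
    ∃ e : ℕ, Odd e ∧ w.valuation K (2 : K) = WithZero.exp (-(e : ℤ))

/-- The base fields of the relative theorem: M/F of odd degree, unramified above 3, and the valuations of 2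
are odd. -/
structure BaseF (M : Type) [Field M] [NumberField M] [Algebra F M] : Prop where
  odd : Odd (Module.finrank F M)
  unr : H35N.Unr3 M
  two : OddTwo M

/-- K is contained in a Galois extension L of M of 3-power degree which is unramified at the primes above 3. -/
def RelT (M K : Type) [Field M] [NumberField M] [Field K] [NumberField K] [Algebra M K] : Prop :=
  ∃ (L : Type) (_ : Field L) (_ : NumberField L) (_ : Algebra M L) (_ : Algebra K L)
    (_ : IsScalarTower M K L), IsGalois M L ∧ (∃ k : ℕ, Module.finrank M L = 3 ^ k) ∧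
      ∀ w : HeightOneSpectrum (𝓞 L), (3 : 𝓞 L) ∈ w.asIdeal → w.asIdeal.ramificationIdx (𝓞 M) = 1

/-- The primes of K not above 6 and ramified over M have norm 7 modulo 12. -/
def GoodRel (M K : Type) [Field M] [NumberField M] [Field K] [NumberField K] [Algebra M K] : Prop :=
  ∀ w : HeightOneSpectrum (𝓞 K), (6 : 𝓞 K) ∉ w.asIdeal → w.asIdeal.ramificationIdx (𝓞 M) ≠ 1 →
    Ideal.absNorm w.asIdeal % 12 = 7

/-- The integers d: d is 1 or -1 modulo 9 and not divisible by the cube of a nonunit; the primes of K not above 2 which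
divide d are unramified over the rationals and have norm 7 modulo 12. -/
def AdmAt (d : ℤ) (K : Type) [Field K] [NumberField K] : Prop :=
  ((9 : ℤ) ∣ d - 1 ∨ (9 : ℤ) ∣ d + 1) ∧ (∀ l : ℤ, l ^ 3 ∣ d → IsUnit l) ∧
  ∀ w : HeightOneSpectrum (𝓞 K), (d : 𝓞 K) ∈ w.asIdeal → (2 : 𝓞 K) ∉ w.asIdeal →
    w.asIdeal.ramificationIdx ℤ = 1 ∧ Ideal.absNorm w.asIdeal % 12 = 7

/-! ## The statements -/

/-- The exact criterion. A period lattice L of dx/(2y) exists; the L-function of y^2 = x^3 - d^2 over K continues
analytically to Re s > 1/2; the analytic order of the Tate-Shafarevich group is 3-integral; it is a 3-adic unit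
(and the value at 1 is not 0) if and only if the Selmer groups of the two isogenies of degree 3 are trivial, if and
only if the primes of K not above 6 ramified over the rationals have norm 7 modulo 12; if this is so then the group
of points is finite of order prime to 3, and otherwise the analytic order of the Tate-Shafarevich group has positive
valuation for every valuation above 3. -/
def CritD (d : ℤ) (K : Type) [Field K] [NumberField K] : Prop :=
  (∃ L : PeriodPair, L.g₂ = 0 ∧ L.g₃ = 4 * (d : ℂ) ^ 2) ∧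
  ∃ Λ : ℂ → ℂ, ContD d K Λ ∧
    ∀ L : PeriodPair, L.g₂ = 0 → L.g₃ = 4 * (d : ℂ) ^ 2 →
      Int3 (shaD d K L (Λ 1)) ∧
      (SelZ d K ↔ Λ 1 ≠ 0 ∧ Unit3 (shaD d K L (Λ 1))) ∧
      (SelZ d K ↔ GoodRam3 K) ∧
      (SelZ d K → Finite ((Ec d).baseChange K).toAffine.Point ∧
        ¬ 3 ∣ Nat.card ((Ec d).baseChange K).toAffine.Point) ∧
      (¬ SelZ d K → Non3 (shaD d K L (Λ 1)))

/-- The relative criterion for K/M: for every valuation above 3 the analytic orders of the Tate-Shafarevich groups
over M and over K are integral, and the one over K is a unit if and only if the one over M is a unit and the primes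
of K not above 6 ramified over M have norm 7 modulo 12; the Selmer groups over K are trivial if and only if those over
M are trivial and the same condition on primes holds. -/
def CritRel (d : ℤ) (M K : Type) [Field M] [NumberField M] [Field K] [NumberField K] [Algebra M K] : Prop :=
  ∃ ΛM ΛK : ℂ → ℂ, ContD d M ΛM ∧ ContD d K ΛK ∧
    (∀ L : PeriodPair, L.g₂ = 0 → L.g₃ = 4 * (d : ℂ) ^ 2 →
      ∀ V : ValuationSubring ℂ, V.valuation 3 < 1 →
        V.valuation (shaD d M L (ΛM 1)) ≤ 1 ∧ V.valuation (shaD d K L (ΛK 1)) ≤ 1 ∧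
        (V.valuation (shaD d K L (ΛK 1)) = 1 ↔
          V.valuation (shaD d M L (ΛM 1)) = 1 ∧ GoodRel M K)) ∧
    (SelZ d K ↔ SelZ d M ∧ GoodRel M K)

/-! ## Auxiliary definitions (not used in the statement of the theorem) -/

/-- The elements of K(i) satisfying Cnd3 (H35X) are cubes. -/
def CndZ (K : Type) [Field K] [NumberField K] : Prop :=
  ∀ (N : Type) [Field N] [NumberField N] [Algebra K N] (t : N) (T : N ≃ₐ[K] N), QN (-1) K N t T →
    ∀ m : N, Cnd3 K N T m → ∃ z : N, m = z ^ 3

/-- In the extension K'/K no prime of K, not above 6, modulo which -1 is a square is ramified. -/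
def NoBad (K K' : Type) [Field K] [NumberField K] [Field K'] [NumberField K'] [Algebra K K'] : Prop :=
  ∀ (w : HeightOneSpectrum (𝓞 K)) (W : HeightOneSpectrum (𝓞 K')), w.asIdeal = W.asIdeal.under (𝓞 K) →
    (6 : 𝓞 K) ∉ w.asIdeal → (∃ x : 𝓞 K, x ^ 2 + 1 ∈ w.asIdeal) → W.asIdeal.ramificationIdx (𝓞 K) = 1

/-- Local images of y^2 = x^3 + B d^2, in coordinates: m (y - d T) is a cube, T^2 = B. -/
def LId (k : Type) [Field k] (B d : k) (m : QA k B) : Prop :=
  ∃ x y : k, y ^ 2 = x ^ 3 + B * d ^ 2 ∧ x ≠ 0 ∧ ∃ β : QA k B, m * (⟨y, -d⟩ : QA k B) = β ^ 3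

/-- Cubic characters with conductor dividing f, on ideals, trivial on principal ideals of
elements congruent to 1 modulo f; f is prime to 3. -/
structure CChr3 {K : Type} [Field K] [NumberField K] (f : Ideal (𝓞 K)) (χ : Ideal (𝓞 K) →*₀ ℂ) :
    Prop where
  ne : f ≠ ⊥
  three : IsCoprime f (Ideal.span {(3 : 𝓞 K)})
  val : ∀ a : Ideal (𝓞 K), a ≠ ⊥ → IsCoprime a f → χ a ^ 3 = 1
  zero : ∀ a : Ideal (𝓞 K), ¬ IsCoprime a f → χ a = 0
  per : ∀ x y : 𝓞 K, x ≠ 0 → y ≠ 0 → IsCoprime (Ideal.span {x}) f → x - y ∈ f →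
    χ (Ideal.span {x}) = χ (Ideal.span {y})

end H35Z
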