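import Mathlib
import Pool.Agent.Lib.H35X.L6
import Pool.Agent.Lib.H35Z.Defs
import Pool.Agent.Lib.H55C.A17

/-! Chunk D1 (M): local images of y^2 = x^3 + B d^2. UnrM w D m: up to cubes m has integral coordinates and its norm is a cube of a unit.
lid_scale: the ring isomorphism QA k B = QA k (B d^2), (p, q) ↦ (p, q/d) (d nonzero): T of the second algebra is d times T of the first. If ⟨a, b⟩ ⟨y, -d⟩ = β^3, β = (p, q), then
(a, b/d) (y, -1) = (p, q/d)^3 (compare coordinates, L1_cube, re_mul, im_mul), and conversely.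
lid_mul: as H35X.li_mul. lid_one_three (a cube root of d): (x, y) ↦ (x/δ^2, y/δ^3), ⟨y, -d⟩ = δ^3 ⟨y/δ^3, -1⟩.
formal_point: let s have 0 < v(s) < 1 (a uniformizer: an element of K with w.valuation exp(-1), HeightOneSpectrum.valuation_exists_uniformizer, H55C.valued_alg). By cube_one there is ρ with
ρ^3 = 1 - D s^6, v(ρ - 1) < 1, so ρ is nonzero. x = ρ/s^2, y = 1/s^3: y^2 = 1/s^6 = x^3 + D. (y, -1) = (1/s)^3 (1, -s^3), and (1, -s^3) is a cube by cube_small.
li_cube_any: multiply. unrM_scale: d a unit: (a, b) κ^3 ↦ (a, b/d) (κ.re, κ.im/d)^3, norms are equal.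
unrM_of_li: the point (x, y), m (y, -1) = β^3, so m x^3 = m (y, -1) (y, 1) = β^3 (y, 1), m = (β/x)^3 (y, 1) (x is a nonzero scalar). So it is enough that
(y, 1) = (a, b) κ^3 as in UnrM (d1_pt). Let v(D) = 1.
(i) v(y) > 1: v(x)^3 = v(y)^2 (v(D) = 1 < v(y)^2), κ = y/x (scalar), a = x^3/y^2, b = x^3/y^3, a^2 - D b^2 = x^6 (y^2 - D)/y^6 = x^9/y^6 = n^3 with n = x^3/y^2, v(n) = 1 = v(a), v(b) = 1/v(y).
(ii) v(y) <= 1, v(x) = 1: a = y, b = 1, n = x, κ = 1. (v(x) <= 1 as x^3 = y^2 - D.)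
(iii) v(y) <= 1, v(x) < 1: v(y^2 - D) < 1, so v(y) = 1. 1 - x^3/y^2 = D/y^2; by hensel3 for s^3 - u s with u = 1 - x^3/y^2, s0 = 1 (value 1 - u small, derivative 3 - u = 2 + small, a unit
as v(2) = 1) there is s near 1 with s^3 = u s, so s^2 = u (s nonzero). r = y s: r^2 = y^2 - x^3 = D. r is a unit. s1 = y + r is a unit (y (1 + s), 1 + s = 2 + small), s2 = y - r, s1 s2 = x^3.
Coordinates in QA k D: for p1, p2 in k put [p1, p2] = ((p1 + p2)/2, (p1 - p2)/(2 r)) (the element z with z.re + z.im r = p1, z.re - z.im r = p2); [p1,p2] [q1,q2] = [p1 q1, p2 q2]. (y, 1) =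
[s1, s2] = [1, x]^3 [s1, 1/s1]. (a, b) = [s1, 1/s1] is integral with norm s1/s1 = 1 = 1^3. -/

open NumberField IsDedekindDomain Polynomial

namespace H35Z

open H55B H35T H13E H35X

/-- Up to cubes m has integral coordinates, and its norm is the cube of a unit. -/
def UnrM {K : Type} [Field K] [NumberField K] (w : HeightOneSpectrum (𝓞 K)) (D : w.adicCompletion K)
    (m : QA (w.adicCompletion K) D) : Prop :=
  ∃ (a b n : w.adicCompletion K) (κ : QA (w.adicCompletion K) D),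
    m = (⟨a, b⟩ : QA (w.adicCompletion K) D) * κ ^ 3 ∧ Valued.v a ≤ 1 ∧ Valued.v b ≤ 1 ∧
      a ^ 2 - D * b ^ 2 = n ^ 3 ∧ Valued.v n = 1

section alg

variable {k : Type} [Field k]

theorem lid_scale (B d a b : k) (hd : d ≠ 0) :
    LId k B d ⟨a, b⟩ ↔ LI k (B * d ^ 2) ⟨a, b / d⟩ := by
  constructor
  · rintro ⟨x, y, hxy, hx, β, hβ⟩
    refine ⟨x, y, hxy, hx, ⟨β.re, β.im / d⟩, ?_⟩
    obtain ⟨p, q⟩ := β
    rw [L1_cube] at hβ ⊢
    have h1 := congrArg QuadraticAlgebra.re hβ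
    have h2 := congrArg QuadraticAlgebra.im hβ
    rw [QuadraticAlgebra.re_mul] at h1
    rw [QuadraticAlgebra.im_mul] at h2
    simp only at h1 h2
    refine QuadraticAlgebra.ext ?_ ?_
    · rw [QuadraticAlgebra.re_mul]
      simp only
      field_simp
      linear_combination h1
    · rw [QuadraticAlgebra.im_mul]
      simp only
      field_simp
      linear_combination h2
  · rintro ⟨x, y, hxy, hx, β, hβ⟩
    refine ⟨x, y, hxy, hx, ⟨β.re, β.im * d⟩, ?_⟩
    obtain ⟨p, q⟩ := β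
    rw [L1_cube] at hβ ⊢
    have h1 := congrArg QuadraticAlgebra.re hβ
    have h2 := congrArg QuadraticAlgebra.im hβ
    rw [QuadraticAlgebra.re_mul] at h1
    rw [QuadraticAlgebra.im_mul] at h2
    simp only at h1 h2
    field_simp at h1 h2
    refine QuadraticAlgebra.ext ?_ ?_
    · rw [QuadraticAlgebra.re_mul]
      simp only
      linear_combination h1
    · rw [QuadraticAlgebra.im_mul]
      simp only
      linear_combination h2

theorem lid_mul {B d : k} {m m' : QA k B} (h : LId k B d m) (h' : ∃ β : QA k B, m' = β ^ 3) :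
    LId k B d (m * m') := by
  obtain ⟨x, y, hxy, hx, β, hβ⟩ := h
  obtain ⟨γ, rfl⟩ := h'
  refine ⟨x, y, hxy, hx, β * γ, ?_⟩
  rw [mul_pow, ← hβ]
  ring

theorem lid_one_three (B d δ : k) (hδ : δ ^ 3 = d) (hd : d ≠ 0) (m : QA k B) :
    LId k B d m ↔ LI k B m := by
  have hδ0 : δ ≠ 0 := by
    rintro rfl
    apply hd
    rw [← hδ, zero_pow three_ne_zero]
  have key : ∀ y : k, (⟨y, -d⟩ : QA k B) = algebraMap k (QA k B) δ ^ 3 * ⟨y / δ ^ 3, -1⟩ := by
    intro y
    rw [← map_pow]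
    refine QuadraticAlgebra.ext ?_ ?_
    · simp only [QuadraticAlgebra.re_mul, QuadraticAlgebra.algebraMap_re, QuadraticAlgebra.algebraMap_im]
      field_simp
      ring
    · simp only [QuadraticAlgebra.im_mul, QuadraticAlgebra.algebraMap_re, QuadraticAlgebra.algebraMap_im]
      rw [hδ]
      ring
  have hinv : algebraMap k (QA k B) δ * algebraMap k (QA k B) δ⁻¹ = 1 := by
    rw [← map_mul, mul_inv_cancel₀ hδ0, map_one]
  constructor
  · rintro ⟨x, y, hxy, hx, β, hβ⟩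
    refine ⟨x / δ ^ 2, y / δ ^ 3, ?_, div_ne_zero hx (pow_ne_zero 2 hδ0), β * algebraMap k (QA k B) δ⁻¹, ?_⟩
    · rw [← hδ] at hxy
      field_simp
      linear_combination hxy
    · rw [mul_pow, ← hβ, key]
      linear_combination (- m * (⟨y / δ ^ 3, -1⟩ : QA k B) * ((algebraMap k (QA k B) δ * algebraMap k (QA k B) δ⁻¹) ^ 2 + algebraMap k (QA k B) δ * algebraMap k (QA k B) δ⁻¹ + 1)) * hinv
  · rintro ⟨x, y, hxy, hx, β, hβ⟩
    refine ⟨x * δ ^ 2, y * δ ^ 3, ?_, mul_ne_zero hx (pow_ne_zero 2 hδ0), β * algebraMap k (QA k B) δ, ?_⟩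
    · rw [← hδ]
      linear_combination δ ^ 6 * hxy
    · rw [mul_pow, ← hβ, key, mul_div_cancel_right₀ _ (pow_ne_zero 3 hδ0)]
      ring

end alg

variable {K : Type} [Field K] [NumberField K] (w : HeightOneSpectrum (𝓞 K))

theorem d1_small : ∃ s : w.adicCompletion K, s ≠ 0 ∧ Valued.v s < 1 := by
  obtain ⟨π, hπ⟩ := w.valuation_exists_uniformizer K
  have h : Valued.v (algebraMap K (w.adicCompletion K) π) = WithZero.exp (-1 : ℤ) := by
    rw [H55C.valued_alg]
    exact hπ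
  refine ⟨algebraMap K _ π, ?_, ?_⟩
  · intro h0
    rw [h0, map_zero] at h
    exact WithZero.exp_ne_zero h.symm
  · rw [h, ← WithZero.exp_zero, WithZero.exp_lt_exp]
    norm_num

theorem d1_form {k : Type} [Field k] (B d s : k) (hs : s ≠ 0) (β : QA k B)
    (hβ : (⟨1, -(d * s ^ 3)⟩ : QA k B) = β ^ 3) :
    (⟨1 / s ^ 3, -d⟩ : QA k B) = (algebraMap k (QA k B) (1 / s) * β) ^ 3 := by
  rw [mul_pow, ← hβ, ← map_pow]
  refine QuadraticAlgebra.ext ?_ ?_
  · simp only [QuadraticAlgebra.re_mul, QuadraticAlgebra.algebraMap_re, QuadraticAlgebra.algebraMap_im]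
    field_simp
    ring
  · simp only [QuadraticAlgebra.im_mul, QuadraticAlgebra.algebraMap_re, QuadraticAlgebra.algebraMap_im]
    field_simp
    ring

theorem d1_alg {k : Type} [Field k] (E s ρ : k) (hs : s ≠ 0) (hρ : ρ ^ 3 = 1 - E * s ^ 6) :
    (1 / s ^ 3) ^ 2 = (ρ / s ^ 2) ^ 3 + E := by
  rw [div_pow ρ, hρ]
  field_simp
  ring

theorem d1_formal (h3 : Valued.v (3 : w.adicCompletion K) = 1) (B d : w.adicCompletion K)
    (hB : Valued.v B = 1) (hd : Valued.v d ≤ 1) :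
    ∃ x y : w.adicCompletion K, y ^ 2 = x ^ 3 + B * d ^ 2 ∧ x ≠ 0 ∧
      ∃ β : QA (w.adicCompletion K) B, (⟨y, -d⟩ : QA (w.adicCompletion K) B) = β ^ 3 := by
  obtain ⟨s, hs0, hs1⟩ := d1_small w
  obtain ⟨ρ, hρ, hρ1⟩ := cube_one w h3 (1 - B * d ^ 2 * s ^ 6) (by
    rw [sub_sub_cancel_left, Valuation.map_neg, map_mul, map_mul, hB, one_mul, map_pow, map_pow]
    exact lt_of_le_of_lt (mul_le_of_le_one_left zero_le (pow_le_one' hd 2))
      (pow_lt_one₀ zero_le hs1 (by norm_num)))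
  have hρ0 : ρ ≠ 0 := by
    have h := L6_near_one _ hρ1
    rintro rfl
    rw [map_zero] at h
    exact zero_ne_one h
  obtain ⟨β, hβ⟩ := cube_small w h3 B hB 1 (-(d * s ^ 3)) (by rw [sub_self, map_zero]; exact zero_lt_one) (by
    rw [Valuation.map_neg, map_mul, map_pow]
    exact lt_of_le_of_lt (mul_le_of_le_one_left zero_le hd)
      (pow_lt_one₀ zero_le hs1 (by norm_num)))
  exact ⟨ρ / s ^ 2, 1 / s ^ 3, d1_alg _ s ρ hs0 hρ, div_ne_zero hρ0 (pow_ne_zero 2 hs0), _,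
    d1_form B d s hs0 β hβ⟩

theorem formal_point (h3 : Valued.v (3 : w.adicCompletion K) = 1) (D : w.adicCompletion K)
    (hD : Valued.v D = 1) : ∃ x y : w.adicCompletion K, y ^ 2 = x ^ 3 + D ∧ x ≠ 0 ∧
      ∃ β : QA (w.adicCompletion K) D, (⟨y, -1⟩ : QA (w.adicCompletion K) D) = β ^ 3 := by
  obtain ⟨x, y, hxy, hx, β, hβ⟩ := d1_formal w h3 D 1 hD (by rw [map_one])
  exact ⟨x, y, by rw [hxy, one_pow, mul_one], hx, β, hβ⟩

/-- The same for D = B d^2, d integral. y = 1/s^3, x = ρ/s^2, ρ^3 = 1 - B d^2 s^6, ⟨y, -d⟩ = (1/s)^3 ⟨1, -d s^3⟩. -/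
theorem formal_pointd (h3 : Valued.v (3 : w.adicCompletion K) = 1) (B d : w.adicCompletion K)
    (hB : Valued.v B = 1) (hd : Valued.v d ≤ 1) :
    ∃ x y : w.adicCompletion K, y ^ 2 = x ^ 3 + B * d ^ 2 ∧ x ≠ 0 ∧
      ∃ β : QA (w.adicCompletion K) B, (⟨y, -d⟩ : QA (w.adicCompletion K) B) = β ^ 3 := by
  exact d1_formal w h3 B d hB hd

theorem li_cube_any (h3 : Valued.v (3 : w.adicCompletion K) = 1) (D : w.adicCompletion K)
    (hD : Valued.v D = 1) (m : QA (w.adicCompletion K) D)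
    (hm : ∃ β : QA (w.adicCompletion K) D, m = β ^ 3) : LI (w.adicCompletion K) D m := by
  obtain ⟨β, rfl⟩ := hm
  obtain ⟨x, y, hxy, hx, γ, hγ⟩ := formal_point w h3 D hD
  exact ⟨x, y, hxy, hx, β * γ, by rw [hγ, mul_pow]⟩

theorem lid_cube_any (h3 : Valued.v (3 : w.adicCompletion K) = 1) (B d : w.adicCompletion K)
    (hB : Valued.v B = 1) (hd : Valued.v d ≤ 1) (m : QA (w.adicCompletion K) B)
    (hm : ∃ β : QA (w.adicCompletion K) B, m = β ^ 3) : LId (w.adicCompletion K) B d m := by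
  obtain ⟨β, rfl⟩ := hm
  obtain ⟨x, y, hxy, hx, γ, hγ⟩ := formal_pointd w h3 B d hB hd
  exact ⟨x, y, hxy, hx, β * γ, by rw [hγ, mul_pow]⟩

theorem d1_up {k : Type} [Field k] (B d a b a' b' p q : k) (hd : d ≠ 0)
    (h : (⟨a, b⟩ : QA k B) = ⟨a', b'⟩ * (⟨p, q⟩ : QA k B) ^ 3) :
    (⟨a, b / d⟩ : QA k (B * d ^ 2)) = ⟨a', b' / d⟩ * (⟨p, q / d⟩ : QA k (B * d ^ 2)) ^ 3 := by
  rw [L1_cube] at h ⊢
  have h1 := congrArg QuadraticAlgebra.re h
  have h2 := congrArg QuadraticAlgebra.im h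
  rw [QuadraticAlgebra.re_mul] at h1
  rw [QuadraticAlgebra.im_mul] at h2
  simp only at h1 h2
  refine QuadraticAlgebra.ext ?_ ?_
  · rw [QuadraticAlgebra.re_mul]
    simp only
    rw [h1]
    field_simp
  · rw [QuadraticAlgebra.im_mul]
    simp only
    rw [h2]
    field_simp
    ring

theorem d1_down {k : Type} [Field k] (B d a b a' b' p q : k) (hd : d ≠ 0)
    (h : (⟨a, b / d⟩ : QA k (B * d ^ 2)) = ⟨a', b'⟩ * (⟨p, q⟩ : QA k (B * d ^ 2)) ^ 3) :
    (⟨a, b⟩ : QA k B) = ⟨a', b' * d⟩ * (⟨p, q * d⟩ : QA k B) ^ 3 := by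
  rw [L1_cube] at h ⊢
  have h1 := congrArg QuadraticAlgebra.re h
  have h2 := congrArg QuadraticAlgebra.im h
  rw [QuadraticAlgebra.re_mul] at h1
  rw [QuadraticAlgebra.im_mul] at h2
  simp only at h1 h2
  rw [div_eq_iff hd] at h2
  refine QuadraticAlgebra.ext ?_ ?_
  · rw [QuadraticAlgebra.re_mul]
    simp only
    rw [h1]
    ring
  · rw [QuadraticAlgebra.im_mul]
    simp only
    rw [h2]
    ring

theorem unrM_scale (B d a b : w.adicCompletion K) (hd : Valued.v d = 1) :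
    UnrM w B ⟨a, b⟩ ↔ UnrM w (B * d ^ 2) ⟨a, b / d⟩ := by
  have hd0 : d ≠ 0 := by
    rintro rfl
    rw [map_zero] at hd
    exact zero_ne_one hd
  constructor
  · rintro ⟨a', b', n, ⟨p, q⟩, h, ha, hb, hn, hn1⟩
    refine ⟨a', b' / d, n, ⟨p, q / d⟩, d1_up B d a b a' b' p q hd0 h, ha, ?_, ?_, hn1⟩
    · rw [map_div₀, hd, div_one]
      exact hb
    · rw [← hn]
      field_simp
  · rintro ⟨a', b', n, ⟨p, q⟩, h, ha, hb, hn, hn1⟩
    refine ⟨a', b' * d, n, ⟨p, q * d⟩, d1_down B d a b a' b' p q hd0 h, ha, ?_, ?_, hn1⟩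
    · rw [map_mul, hd, mul_one]
      exact hb
    · rw [← hn]
      ring

theorem d1_sqone (h2 : Valued.v (2 : w.adicCompletion K) = 1) (u : w.adicCompletion K)
    (hu : Valued.v (u - 1) < 1) : ∃ s : w.adicCompletion K, s ^ 2 = u ∧ Valued.v (s - 1) < 1 := by
  have hu1 : Valued.v u = 1 := L6_near_one _ hu
  obtain ⟨s, hs, hs'⟩ := hensel3 w 0 (-u) 0 1
    (by rw [map_zero]; exact zero_le_one) (by rw [Valuation.map_neg, hu1])
    (by rw [map_zero]; exact zero_le_one) (by rw [map_one])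
    (by
      have e : (1 : w.adicCompletion K) ^ 3 + 0 * 1 ^ 2 + -u * 1 + 0 = -(u - 1) := by ring
      rw [e, Valuation.map_neg]
      exact hu)
    (by
      have e : 3 * (1 : w.adicCompletion K) ^ 2 + 2 * 0 * 1 + -u = 2 - (u - 1) := by ring
      rw [e, Valuation.map_sub_eq_of_lt_left _ (by rw [h2]; exact hu), h2])
  have hs1 := L6_near_one _ hs'
  have hs0 : s ≠ 0 := by
    rintro rfl
    rw [map_zero] at hs1
    exact zero_ne_one hs1
  refine ⟨s, ?_, hs'⟩
  have h : s * (s ^ 2 - u) = 0 := by linear_combination hs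
  exact sub_eq_zero.1 ((mul_eq_zero.1 h).resolve_left hs0)

theorem d1_coord {k : Type} [Field k] (D r : k) (hr : r ^ 2 = D) (h2 : (2 : k) ≠ 0)
    (hr0 : r ≠ 0) (a b a' b' p q : k)
    (h1 : a + b * r = (a' + b' * r) * (p + q * r) ^ 3)
    (h1' : a - b * r = (a' - b' * r) * (p - q * r) ^ 3) :
    (⟨a, b⟩ : QA k D) = ⟨a', b'⟩ * (⟨p, q⟩ : QA k D) ^ 3 := by
  rw [L1_cube, ← hr]
  refine QuadraticAlgebra.ext ?_ ?_
  · rw [QuadraticAlgebra.re_mul]
    simp only
    refine mul_left_cancel₀ h2 ?_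
    linear_combination h1 + h1'
  · rw [QuadraticAlgebra.im_mul]
    simp only
    refine mul_left_cancel₀ (mul_ne_zero h2 hr0) ?_
    linear_combination h1 - h1'

theorem d1_split {k : Type} [Field k] (D r : k) (hr : r ^ 2 = D) (h2 : (2 : k) ≠ 0)
    (hr0 : r ≠ 0) (x y : k) (h0 : y + r ≠ 0) (hx : x ^ 3 = y ^ 2 - D) :
    (⟨y, 1⟩ : QA k D) = ⟨((y + r) + 1 / (y + r)) / 2, ((y + r) - 1 / (y + r)) / (2 * r)⟩ *
      (⟨(1 + x) / 2, (1 - x) / (2 * r)⟩ : QA k D) ^ 3 := by
  have hx' : x ^ 3 = (y + r) * (y - r) := by rw [hx, ← hr]; ring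
  have e1 : ((y + r) + 1 / (y + r)) / 2 + ((y + r) - 1 / (y + r)) / (2 * r) * r = y + r := by
    generalize y + r = S at *
    field_simp
    ring
  have e2 : ((y + r) + 1 / (y + r)) / 2 - ((y + r) - 1 / (y + r)) / (2 * r) * r = 1 / (y + r) := by
    generalize y + r = S at *
    field_simp
    ring
  have e3 : (1 + x) / 2 + (1 - x) / (2 * r) * r = 1 := by
    field_simp
    ring
  have e4 : (1 + x) / 2 - (1 - x) / (2 * r) * r = x := by
    field_simp
    ring
  refine d1_coord D r hr h2 hr0 _ _ _ _ _ _ ?_ ?_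
  · rw [e1, e3]
    ring
  · rw [e2, e4, hx']
    field_simp

theorem d1_big {k : Type} [Field k] (D x y : k) (hx : x ≠ 0) (hy : y ≠ 0) :
    (⟨y, 1⟩ : QA k D) = ⟨x ^ 3 / y ^ 2, x ^ 3 / y ^ 3⟩ * (algebraMap k (QA k D) (y / x)) ^ 3 := by
  rw [← map_pow]
  refine QuadraticAlgebra.ext ?_ ?_
  · simp only [QuadraticAlgebra.re_mul, QuadraticAlgebra.algebraMap_re, QuadraticAlgebra.algebraMap_im]
    field_simp
    ring
  · simp only [QuadraticAlgebra.im_mul, QuadraticAlgebra.algebraMap_re, QuadraticAlgebra.algebraMap_im]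
    field_simp
    ring

theorem d1_pt (h2 : Valued.v (2 : w.adicCompletion K) = 1) (h3 : Valued.v (3 : w.adicCompletion K) = 1)
    (D : w.adicCompletion K) (hD : Valued.v D = 1) (x y : w.adicCompletion K)
    (hxy : y ^ 2 = x ^ 3 + D) (hx : x ≠ 0) : UnrM w D ⟨y, 1⟩ := by
  have hne : ∀ x : w.adicCompletion K, Valued.v x = 1 → x ≠ 0 := by
    rintro _ hx rfl
    rw [map_zero] at hx
    exact zero_ne_one hx
  have hx3 : x ^ 3 = y ^ 2 - D := by linear_combination -hxy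
  by_cases hy : Valued.v y ≤ 1
  · by_cases hx1 : Valued.v x = 1
    · refine ⟨y, 1, x, 1, ?_, hy, by rw [map_one], ?_, hx1⟩
      · rw [one_pow, mul_one]
      · rw [hx3]
        ring
    · have hxle : Valued.v x ≤ 1 := by
        have h : Valued.v x ^ 3 ≤ 1 := by
          rw [← map_pow, hx3]
          refine Valuation.map_sub_le _ ?_ hD.le
          rw [map_pow]
          exact pow_le_one' hy 2
        by_contra hcon
        rw [not_le] at hcon
        exact absurd h (not_le.2 (one_lt_pow₀ hcon three_ne_zero))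
      have hxlt : Valued.v x < 1 := lt_of_le_of_ne hxle hx1
      have hx3lt : Valued.v (x ^ 3) < 1 := by
        rw [map_pow]
        exact pow_lt_one₀ zero_le hxlt three_ne_zero
      have hvy : Valued.v y = 1 := by
        have h : Valued.v (y ^ 2) = 1 := by
          rw [hxy, Valuation.map_add_eq_of_lt_right _ (by rw [hD]; exact hx3lt), hD]
        rw [map_pow] at h
        exact (pow_eq_one_iff.1 h).resolve_right (by norm_num)
      have hy0 := hne y hvy
      have h20 := hne 2 h2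
      obtain ⟨s, hs, hs1⟩ := d1_sqone w h2 (1 - x ^ 3 / y ^ 2) (by
        have hvy2 : Valued.v (y ^ 2) = 1 := by rw [map_pow, hvy, one_pow]
        rw [sub_sub_cancel_left, Valuation.map_neg, map_div₀, hvy2, div_one]
        exact hx3lt)
      have hvs := L6_near_one _ hs1
      obtain ⟨r, hr⟩ : ∃ r, r = y * s := ⟨_, rfl⟩
      have hrD : r ^ 2 = D := by
        rw [hr, mul_pow, hs, hx3]
        field_simp
        ring
      have hvr : Valued.v r = 1 := by rw [hr, map_mul, hvy, hvs, one_mul]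
      have hr0 := hne r hvr
      have hv1 : Valued.v (y + r) = 1 := by
        have e : y + r = y * (2 + (s - 1)) := by rw [hr]; ring
        rw [e, map_mul, hvy, one_mul, Valuation.map_add_eq_of_lt_left _ (by rw [h2]; exact hs1), h2]
      have h10 := hne _ hv1
      have hvi : Valued.v (1 / (y + r)) = 1 := by rw [map_div₀, map_one, hv1, div_one]
      refine ⟨((y + r) + 1 / (y + r)) / 2, ((y + r) - 1 / (y + r)) / (2 * r), 1,
        ⟨(1 + x) / 2, (1 - x) / (2 * r)⟩, d1_split D r hrD h20 hr0 x y h10 hx3, ?_, ?_, ?_, by rw [map_one]⟩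
      · rw [map_div₀, h2, div_one]
        exact Valuation.map_add_le _ hv1.le hvi.le
      · rw [map_div₀, map_mul, h2, hvr, one_mul, div_one]
        exact Valuation.map_sub_le _ hv1.le hvi.le
      · rw [← hrD]
        generalize y + r = S at *
        field_simp
        ring
  · rw [not_le] at hy
    have hy0 : y ≠ 0 := by
      rintro rfl
      rw [map_zero] at hy
      exact absurd hy (not_lt.2 zero_le)
    have hvx : Valued.v (x ^ 3) = Valued.v (y ^ 2) := by
      rw [hx3, Valuation.map_sub_eq_of_lt_left]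
      rw [hD, map_pow]
      exact one_lt_pow₀ hy two_ne_zero
    have hvn : Valued.v (x ^ 3 / y ^ 2) = 1 := by
      rw [map_div₀, hvx]
      exact div_self ((Valuation.ne_zero_iff _).2 (pow_ne_zero 2 hy0))
    refine ⟨x ^ 3 / y ^ 2, x ^ 3 / y ^ 3, x ^ 3 / y ^ 2, algebraMap _ _ (y / x), ?_, hvn.le, ?_, ?_, hvn⟩
    · exact d1_big D x y hx hy0
    · have e : x ^ 3 / y ^ 3 = x ^ 3 / y ^ 2 * (1 / y) := by
        field_simp
      rw [e, map_mul, hvn, one_mul, map_div₀, map_one]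
      exact (div_le_one₀ (zero_lt_one.trans hy)).2 hy.le
    · field_simp
      linear_combination -hx3

theorem d1_mul {k : Type} [Field k] (D x y : k) (hxy : y ^ 2 = x ^ 3 + D) (m β : QA k D)
    (hβ : m * (⟨y, -1⟩ : QA k D) = β ^ 3) :
    m * algebraMap k (QA k D) x ^ 3 = β ^ 3 * ⟨y, 1⟩ := by
  rw [← hβ, mul_assoc]
  congr 1
  rw [← map_pow]
  refine QuadraticAlgebra.ext ?_ ?_
  · simp only [QuadraticAlgebra.re_mul, QuadraticAlgebra.algebraMap_re]
    linear_combination -hxy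
  · simp only [QuadraticAlgebra.im_mul, QuadraticAlgebra.algebraMap_im]
    ring

theorem unrM_of_li (h2 : Valued.v (2 : w.adicCompletion K) = 1)
    (h3 : Valued.v (3 : w.adicCompletion K) = 1) (D : w.adicCompletion K) (hD : Valued.v D = 1)
    (m : QA (w.adicCompletion K) D) (hm : LI (w.adicCompletion K) D m) : UnrM w D m := by
  obtain ⟨x, y, hxy, hx, β, hβ⟩ := hm
  obtain ⟨a, b, n, κ, h, ha, hb, hn, hn1⟩ := d1_pt w h2 h3 D hD x y hxy hx
  refine ⟨a, b, n, κ * β * algebraMap _ _ x⁻¹, ?_, ha, hb, hn, hn1⟩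
  have h4 := d1_mul D x y hxy m β hβ
  have h5 : algebraMap (w.adicCompletion K) (QA (w.adicCompletion K) D) x *
      algebraMap (w.adicCompletion K) (QA (w.adicCompletion K) D) x⁻¹ = 1 := by
    rw [← map_mul, mul_inv_cancel₀ hx, map_one]
  rw [h] at h4
  generalize algebraMap (w.adicCompletion K) (QA (w.adicCompletion K) D) x = X at *
  generalize algebraMap (w.adicCompletion K) (QA (w.adicCompletion K) D) x⁻¹ = X' at *
  calc m = m * (X * X') ^ 3 := by rw [h5, one_pow, mul_one]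
    _ = (m * X ^ 3) * X' ^ 3 := by ring
    _ = _ := by
      rw [h4]
      ring

/-- If D is a cube then the unramified classes are local images (li_good). -/
theorem li_of_unrM (h2 : Valued.v (2 : w.adicCompletion K) = 1)
    (h3 : Valued.v (3 : w.adicCompletion K) = 1) (D c : w.adicCompletion K) (hc : c ^ 3 = D)
    (hD : Valued.v D = 1) (m : QA (w.adicCompletion K) D) (hm : UnrM w D m) :
    LI (w.adicCompletion K) D m := by
  obtain ⟨a, b, n, κ, rfl, ha, hb, hn, hn1⟩ := hm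
  exact li_mul (li_good w h2 h3 D c hc hD a b n ha hb hn hn1) ⟨κ, rfl⟩

end H35Z
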