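import Mathlib
import Pool.Agent.Lib.H35X.L6

/-! Chunk D2 (M): finite fields. ff_exists1': this is ff_exists1 (H35X/L5b.lean) with a point (x0, y0) instead of a cube root of B: copy the proof, the only use of c is at the end
(the set S is nonempty): use the point. ff_pointN: this is ff_point (L5a.lean) for m which is not a cube: copy the proof, the case j = 0 cannot occur (it says that m is a cube).
ff_or: put together: m is a cube or LI: (x0, y0) is given; by ff_exists1' there is a point (x, y), x nonzero, (y, -1) not a cube; ff_pointN.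
d2_abs: this is L6_abs (L6.lean) with the hypothesis hff instead of the cube root c: reduce ⟨a, b⟩ to ⟨φ a, φ b⟩, norm φ(n)^3, φ(n) nonzero. Case 1: it is a cube (p', q')^3: lift (p, q); ν = p^2 - D q^2,
φ(ν)^3 = φ(n)^3 is nonzero; ⟨a, b⟩ (p, -q)^3/ν^3 is congruent to (1, 0), a cube by small, so ⟨a, b⟩ = (p, q)^3 γ^3 (see also chunk A2, a2_abs). Case 2: LI: exactly as in L6_abs (the point x', y' is lifted
by hens; y and the coordinates of β' by surjectivity; L6_alg). -/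

open NumberField IsDedekindDomain Polynomial

namespace H35Z

open H55B H35T H13E H35X

theorem ff_exists1' (k : Type) [Field k] [Finite k] (h2 : (2 : k) ≠ 0) (h3 : (3 : k) ≠ 0) (B : k)
    (hB : B ≠ 0) (s : k) (hs : s ^ 2 = -3 * B) (om : k) (hom : om ^ 2 + om + 1 = 0)
    (x0 y0 : k) (h0 : y0 ^ 2 = x0 ^ 3 + B) (hx0 : x0 ≠ 0) :
    ∃ x y : k, y ^ 2 = x ^ 3 + B ∧ x ≠ 0 ∧ ¬ ∃ β : QA k B, (⟨y, -1⟩ : QA k B) = β ^ 3 := by
  classical
  by_contra hcon
  push Not at hcon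
  have hs0 : s ≠ 0 := by
    rintro rfl
    have h4 : 3 * B = 0 := by linear_combination hs
    rcases mul_eq_zero.1 h4 with h | h
    · exact h3 h
    · exact hB h
  have hom3 : om ^ 3 = 1 := by linear_combination (om - 1) * hom
  set g : k := 2 * om + 1 with hg
  have hg2 : g ^ 2 = -3 := by rw [hg]; linear_combination 4 * hom
  have hg0 : g ≠ 0 := by
    intro h0
    rw [h0] at hg2
    apply h3
    linear_combination hg2
  -- cube roots with the right norm
  have hroot : ∀ x y : k, y ^ 2 = x ^ 3 + B → x ≠ 0 → ∃ κ : QA k B, κ ^ 3 = ⟨y, -1⟩ ∧ l5b_N κ = x := by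
    intro x y hxy hx
    obtain ⟨κ, hκ⟩ := hcon x y hxy hx
    have h4 : l5b_N κ ^ 3 = x ^ 3 := by
      have h5 : l5b_N (κ ^ 3) = l5b_N κ ^ 3 := by
        have h : κ ^ 3 = κ * κ * κ := by ring
        rw [h, l5b_N_mul, l5b_N_mul]
        ring
      rw [← h5, ← hκ]
      unfold l5b_N
      linear_combination hxy
    have h5 : (l5b_N κ - x) * (l5b_N κ - om * x) * (l5b_N κ - om ^ 2 * x) = 0 := by
      linear_combination h4 - (l5b_N κ ^ 2 * x - l5b_N κ * x ^ 2 * om) * hom + (- x ^ 3) * hom3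
    have hsc : ∀ z : k, z ^ 3 = 1 → ((⟨z, 0⟩ : QA k B) * κ) ^ 3 = ⟨y, -1⟩ ∧
        l5b_N ((⟨z, 0⟩ : QA k B) * κ) = z ^ 2 * l5b_N κ := by
      intro z hz
      constructor
      · rw [mul_pow, ← hκ, l5b_cube]
        ext
        · simp only [QuadraticAlgebra.re_mul]
          linear_combination y * hz
        · simp only [QuadraticAlgebra.im_mul]
          linear_combination (-1) * hz
      · rw [l5b_N_mul]
        unfold l5b_N
        ring
    rcases mul_eq_zero.1 h5 with h6 | h6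
    · rcases mul_eq_zero.1 h6 with h7 | h7
      · exact ⟨κ, hκ.symm, sub_eq_zero.1 h7⟩
      · refine ⟨_, (hsc om hom3).1, ?_⟩
        rw [(hsc om hom3).2, sub_eq_zero.1 h7]
        linear_combination x * hom3
    · refine ⟨_, (hsc (om ^ 2) (by linear_combination (om ^ 3 + 1) * hom3)).1, ?_⟩
      rw [(hsc (om ^ 2) (by linear_combination (om ^ 3 + 1) * hom3)).2, sub_eq_zero.1 h6]
      linear_combination x * (om ^ 3 + 1) * hom3
  -- the sets
  let S := {z : k × k // z.2 ^ 2 = z.1 ^ 3 + B ∧ z.1 ≠ 0}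
  let R := {κ : QA k B // 3 * κ.re ^ 2 * κ.im + B * κ.im ^ 3 = -1 ∧ l5b_N κ ≠ 0}
  have hfQ : Finite (QA k B) := Finite.of_injective (fun κ : QA k B => (κ.re, κ.im))
    (fun a b h => QuadraticAlgebra.ext (congrArg Prod.fst h) (congrArg Prod.snd h))
  have hfS : Finite S := Subtype.finite
  have hfR : Finite R := Subtype.finite
  choose K hK1 hK2 using fun z : S => hroot z.1.1 z.1.2 z.2.1 z.2.2
  -- cube roots of unity
  set e : k := -3 / (2 * s) with he
  have he0 : e ≠ 0 := div_ne_zero (neg_ne_zero.2 h3) (mul_ne_zero h2 hs0)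
  have hBe : 4 * (B * e ^ 2) = -3 := by
    rw [he]
    field_simp
    linear_combination (4 : k) * hs
  let Z : Fin 3 → QA k B := ![⟨1, 0⟩, ⟨-1 / 2, e⟩, ⟨-1 / 2, -e⟩]
  have hZ3 : ∀ i, Z i ^ 3 = ⟨1, 0⟩ ∧ l5b_N (Z i) = 1 := by
    intro i
    rw [l5b_cube]
    unfold l5b_N
    fin_cases i
    · simp [Z]
    · refine ⟨QuadraticAlgebra.ext ?_ ?_, ?_⟩
      · show (-1 / 2 : k) ^ 3 + 3 * B * (-1 / 2) * e ^ 2 = 1
        field_simp
        linear_combination (-3 : k) * hBe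
      · show 3 * (-1 / 2 : k) ^ 2 * e + B * e ^ 3 = 0
        field_simp
        linear_combination e * hBe
      · show (-1 / 2 : k) ^ 2 - B * e ^ 2 = 1
        field_simp
        linear_combination (-1 : k) * hBe
    · refine ⟨QuadraticAlgebra.ext ?_ ?_, ?_⟩
      · show (-1 / 2 : k) ^ 3 + 3 * B * (-1 / 2) * (-e) ^ 2 = 1
        field_simp
        linear_combination (-3 : k) * hBe
      · show 3 * (-1 / 2 : k) ^ 2 * (-e) + B * (-e) ^ 3 = 0
        field_simp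
        linear_combination (-e) * hBe
      · show (-1 / 2 : k) ^ 2 - B * (-e) ^ 2 = 1
        field_simp
        linear_combination (-1 : k) * hBe
  have hZi : Function.Injective Z := by
    have e1 : (1 : k) ≠ -1 / 2 := by
      intro h
      apply h3
      rw [eq_div_iff h2] at h
      linear_combination h
    have e2 : e ≠ -e := by
      intro h
      have h4 : 2 * e = 0 := by linear_combination h
      rcases mul_eq_zero.1 h4 with h5 | h5
      · exact h2 h5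
      · exact he0 h5
    intro i j hij
    fin_cases i <;> fin_cases j
    · rfl
    · exact absurd (congrArg QuadraticAlgebra.re hij) e1
    · exact absurd (congrArg QuadraticAlgebra.re hij) e1
    · exact absurd (congrArg QuadraticAlgebra.re hij).symm e1
    · rfl
    · exact absurd (congrArg QuadraticAlgebra.im hij) e2
    · exact absurd (congrArg QuadraticAlgebra.re hij).symm e1
    · exact absurd (congrArg QuadraticAlgebra.im hij).symm e2
    · rfl
  have hone : (⟨1, 0⟩ : QA k B) = 1 := rfl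
  have hcube : ∀ (z : S) (i : Fin 3), (K z * Z i) ^ 3 = ⟨z.1.2, -1⟩ := by
    intro z i
    rw [mul_pow, hK1, (hZ3 i).1, hone, mul_one]
  have hnorm : ∀ (z : S) (i : Fin 3), l5b_N (K z * Z i) = z.1.1 := by
    intro z i
    rw [l5b_N_mul, hK2, (hZ3 i).2, mul_one]
  let f : S × Fin 3 → R := fun w => ⟨K w.1 * Z w.2, by
      have h := congrArg QuadraticAlgebra.im (hcube w.1 w.2)
      rw [l5b_cube] at h
      exact h, by
      rw [hnorm]
      exact w.1.2.2⟩
  have hf : Function.Injective f := by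
    rintro ⟨z, i⟩ ⟨z', j⟩ h
    have h4 : K z * Z i = K z' * Z j := congrArg Subtype.val h
    have h5 := hcube z i
    rw [h4, hcube z' j] at h5
    have h6 := hnorm z i
    rw [h4, hnorm z' j] at h6
    have h7 : z = z' := Subtype.ext (Prod.ext h6.symm (congrArg QuadraticAlgebra.re h5).symm)
    subst h7
    have h8 : Z i = Z j := l5b_cancel (by rw [hK2]; exact z.2.2) h4
    rw [hZi h8]
  let h : R → S := fun κ => ⟨(1 / κ.1.im, 3 * κ.1.re / (g * κ.1.im)), by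
      have h4 : κ.1.im ≠ 0 := by
        intro h0
        have h5 := κ.2.1
        rw [h0] at h5
        have h6 : (0 : k) = -1 := by linear_combination h5
        exact one_ne_zero (α := k) (by linear_combination h6)
      refine ⟨?_, one_div_ne_zero h4⟩
      show (3 * κ.1.re / (g * κ.1.im)) ^ 2 = (1 / κ.1.im) ^ 3 + B
      have h5 := κ.2.1
      rw [div_pow, mul_pow g, hg2]
      field_simp
      linear_combination (-1 : k) * h5⟩
  have hh : Function.Injective h := by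
    intro κ μ hκμ
    have h4 : ∀ κ : R, κ.1.im ≠ 0 := by
      intro κ h0
      have h5 := κ.2.1
      rw [h0] at h5
      have h6 : (0 : k) = -1 := by linear_combination h5
      exact one_ne_zero (α := k) (by linear_combination h6)
    have h5 := congrArg Subtype.val hκμ
    have h6 : 1 / κ.1.im = 1 / μ.1.im := congrArg Prod.fst h5
    have h7 : 3 * κ.1.re / (g * κ.1.im) = 3 * μ.1.re / (g * μ.1.im) := congrArg Prod.snd h5
    have h8 : κ.1.im = μ.1.im := by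
      rw [one_div, one_div] at h6
      exact inv_injective h6
    rw [h8, div_left_inj' (mul_ne_zero hg0 (h4 μ))] at h7
    exact Subtype.ext (QuadraticAlgebra.ext (mul_left_cancel₀ h3 h7) h8)
  have hcard := Nat.card_le_card_of_injective _ (hh.comp hf)
  rw [Nat.card_prod, Nat.card_eq_fintype_card (α := Fin 3), Fintype.card_fin] at hcard
  have hpos : 0 < Nat.card S := by
    have hne : Nonempty S := ⟨⟨(x0, y0), h0, hx0⟩⟩
    exact Nat.card_pos
  omega

theorem ff_pointN (k : Type) [Field k] [Finite k] (h2 : (2 : k) ≠ 0) (h3 : (3 : k) ≠ 0) (B : k)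
    (hB : B ≠ 0) (x y : k) (hxy : y ^ 2 = x ^ 3 + B) (hx : x ≠ 0)
    (hno : ¬ ∃ β : QA k B, (⟨y, -1⟩ : QA k B) = β ^ 3) (m : QA k B) (n : k) (hn : m.norm = n ^ 3)
    (hn0 : n ≠ 0) (hm : ¬ ∃ β : QA k B, m = β ^ 3) : LI k B m := by
  have hf := L5a_fin (k := k) (B := B)
  set κ : QA k B := ⟨y, -1⟩ with hκ
  have hNκ : κ.norm = x ^ 3 := by
    rw [L5a_norm, hκ]
    linear_combination hxy
  obtain ⟨g, hg⟩ := L5a_ex m (by rw [hn]; exact pow_ne_zero 3 hn0)
  obtain ⟨h, hh⟩ := L5a_ex κ (by rw [hNκ]; exact pow_ne_zero 3 hx)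
  have hcub : ∀ j : ℕ, (∃ γ : L5a_G k B, γ ^ 3 = g * h ^ j) → ∃ β : QA k B, m * κ ^ j = β ^ 3 := by
    intro j hj
    refine L5a_back (n * x ^ j) ?_ (mul_ne_zero hn0 (pow_ne_zero j hx)) (g * h ^ j) ?_ hj
    · rw [map_mul, map_pow, hn, hNκ]
      ring
    · rw [star_mul', star_pow]
      have e1 : (((g * h ^ j : L5a_G k B) : (QA k B)ˣ) : QA k B) =
          ((g : (QA k B)ˣ) : QA k B) * ((h : (QA k B)ˣ) : QA k B) ^ j := by
        rw [Subgroup.coe_mul, Subgroup.coe_pow, Units.val_mul, Units.val_pow_eq_pow_val]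
      rw [e1]
      calc m * κ ^ j = (((g : (QA k B)ˣ) : QA k B) * star m) *
            (((h : (QA k B)ˣ) : QA k B) * star κ) ^ j := by rw [← hg, ← hh]
        _ = _ := by ring
  obtain ⟨j, hj, hj'⟩ := L5a_grp (L5a_card h2 h3 hB) h (fun h4 => hno (L5a_back x hNκ hx h hh h4)) g
  obtain ⟨β, hβ⟩ := hcub j hj'
  interval_cases j
  · rw [pow_zero, mul_one] at hβ
    exact absurd ⟨β, hβ⟩ hm
  · rw [pow_one] at hβ
    exact ⟨x, y, hxy, hx, β, hβ⟩
  · have hu : IsUnit κ := QuadraticAlgebra.isUnit_iff_norm_isUnit.2 (by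
      rw [hNκ]
      exact isUnit_iff_ne_zero.2 (pow_ne_zero 3 hx))
    obtain ⟨u, hu⟩ := hu
    have hs : κ * star κ = (⟨x, 0⟩ : QA k B) ^ 3 := by
      rw [L5a_cube, hκ, QuadraticAlgebra.star_mk]
      refine QuadraticAlgebra.ext ?_ ?_
      · simp only [QuadraticAlgebra.re_mul]
        linear_combination hxy
      · simp only [QuadraticAlgebra.im_mul]
        ring
    have hinv : ((u⁻¹ : (QA k B)ˣ) : QA k B) * κ = 1 := by
      rw [← hu, Units.inv_mul]
    have h5 : (⟨-y, -1⟩ : QA k B) = -star κ := by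
      rw [hκ, QuadraticAlgebra.star_mk]
      refine QuadraticAlgebra.ext ?_ ?_
      · simp
      · simp
    refine ⟨x, -y, by linear_combination hxy, hx, -(β * ⟨x, 0⟩ * ((u⁻¹ : (QA k B)ˣ) : QA k B)), ?_⟩
    rw [h5]
    have e2 : (-(β * ⟨x, 0⟩ * ((u⁻¹ : (QA k B)ˣ) : QA k B))) ^ 3 =
        -(β ^ 3 * (⟨x, 0⟩ : QA k B) ^ 3 * ((u⁻¹ : (QA k B)ˣ) : QA k B) ^ 3) := by ring
    rw [e2, ← hβ, ← hs]
    calc m * -star κ = -(m * star κ * (((u⁻¹ : (QA k B)ˣ) : QA k B) * κ) ^ 3) := by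
          rw [hinv]
          ring
      _ = _ := by ring

theorem ff_or (k : Type) [Field k] [Finite k] (h2 : (2 : k) ≠ 0) (h3 : (3 : k) ≠ 0) (B : k)
    (hB : B ≠ 0) (s : k) (hs : s ^ 2 = -3 * B) (om : k) (hom : om ^ 2 + om + 1 = 0)
    (x0 y0 : k) (h0 : y0 ^ 2 = x0 ^ 3 + B) (hx0 : x0 ≠ 0) (m : QA k B) (n : k)
    (hn : m.norm = n ^ 3) (hn0 : n ≠ 0) : (∃ β : QA k B, m = β ^ 3) ∨ LI k B m := by
  by_cases hm : ∃ β : QA k B, m = β ^ 3
  · exact Or.inl hm
  · obtain ⟨x, y, hxy, hx, hno⟩ := ff_exists1' k h2 h3 B hB s hs om hom x0 y0 h0 hx0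
    exact Or.inr (ff_pointN k h2 h3 B hB x y hxy hx hno m n hn hn0 hm)

theorem d2_alg {k : Type} [Field k] (B a b p q ν : k) (hν : ν = p ^ 2 - B * q ^ 2) (hν0 : ν ≠ 0)
    (γ : QA k B)
    (hγ : (⟨(a * (p ^ 3 + 3 * B * p * q ^ 2) - B * (b * (3 * p ^ 2 * q + B * q ^ 3))) / ν ^ 3,
      (b * (p ^ 3 + 3 * B * p * q ^ 2) - a * (3 * p ^ 2 * q + B * q ^ 3)) / ν ^ 3⟩ : QA k B) = γ ^ 3) :
    (⟨a, b⟩ : QA k B) = (⟨p, q⟩ * γ) ^ 3 := by
  rw [mul_pow, ← hγ]
  have hβ4 : (⟨p, q⟩ : QA k B) ^ 3 = ⟨p ^ 3 + 3 * B * p * q ^ 2, 3 * p ^ 2 * q + B * q ^ 3⟩ := by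
    rw [pow_succ, pow_two]
    ext
    · simp only [QuadraticAlgebra.re_mul, QuadraticAlgebra.im_mul]
      ring
    · simp only [QuadraticAlgebra.re_mul, QuadraticAlgebra.im_mul]
      ring
  have hcc' : (p ^ 3 + 3 * B * p * q ^ 2) ^ 2 - B * (3 * p ^ 2 * q + B * q ^ 3) ^ 2 = ν ^ 3 := by
    rw [hν]; ring
  rw [hβ4]
  generalize p ^ 3 + 3 * B * p * q ^ 2 = u1 at *
  generalize 3 * p ^ 2 * q + B * q ^ 3 = u2 at *
  have h0 : ν ^ 3 ≠ 0 := pow_ne_zero 3 hν0
  generalize ν ^ 3 = N at *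
  ext
  · simp only [QuadraticAlgebra.re_mul]
    field_simp
    rw [← hcc']
    ring
  · simp only [QuadraticAlgebra.im_mul]
    field_simp
    rw [← hcc']
    ring

theorem d2_abs {k : Type} [Field k] {Γ : Type*} [LinearOrderedCommGroupWithZero Γ]
    (v : Valuation k Γ) (k' : Type) [Field k'] [Finite k'] (O : Subring k)
    (hO : ∀ x : k, x ∈ O ↔ v x ≤ 1) (φ : O →+* k') (hsurj : Function.Surjective φ)
    (hφ : ∀ x : O, φ x = 0 ↔ v (x : k) < 1)
    (h2 : v 2 = 1) (h3 : v 3 = 1) (D : O) (hD : v (D : k) = 1)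
    (hens : ∀ r s0 : k, v r ≤ 1 → v s0 = 1 → v (s0 ^ 3 + r) < 1 →
      ∃ s : k, s ^ 3 + r = 0 ∧ v (s - s0) < 1)
    (small : ∀ p q : k, v (p - 1) < 1 → v q < 1 → ∃ β : QA k (D : k), (⟨p, q⟩ : QA k (D : k)) = β ^ 3)
    (hff : ∀ (m : QA k' (φ D)) (n : k'), m.norm = n ^ 3 → n ≠ 0 →
      (∃ β : QA k' (φ D), m = β ^ 3) ∨ LI k' (φ D) m)
    (a b n : k) (ha : v a ≤ 1) (hb : v b ≤ 1) (hn : a ^ 2 - (D : k) * b ^ 2 = n ^ 3) (hn1 : v n = 1) :
    (∃ β : QA k (D : k), (⟨a, b⟩ : QA k (D : k)) = β ^ 3) ∨ LIp k (D : k) a b := by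
  have hint (x : O) : v (x : k) ≤ 1 := (hO _).1 x.2
  have hφ1 (x : O) (hx : v (x : k) = 1) : φ x ≠ 0 := by
    intro h
    rw [hφ, hx] at h
    exact lt_irrefl _ h
  have hφ2 (x : O) (hx : φ x ≠ 0) : v (x : k) = 1 := by
    refine le_antisymm (hint x) (not_lt.1 fun h => hx ((hφ x).2 h))
  obtain ⟨B1, hB1e⟩ : ∃ x : O, x = D := ⟨D, rfl⟩
  obtain ⟨a1, ha1e⟩ : ∃ x : O, (x : k) = a := ⟨⟨a, (hO _).2 ha⟩, rfl⟩
  obtain ⟨b1, hb1e⟩ : ∃ x : O, (x : k) = b := ⟨⟨b, (hO _).2 hb⟩, rfl⟩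
  obtain ⟨n1, hn1e⟩ : ∃ x : O, (x : k) = n := ⟨⟨n, (hO _).2 hn1.le⟩, rfl⟩
  subst hB1e ha1e hb1e hn1e
  have hn1' : a1 ^ 2 - B1 * b1 ^ 2 = n1 ^ 3 := Subtype.ext (by push_cast; exact hn)
  have hB1 : φ B1 ≠ 0 := hφ1 _ hD
  have hnn : (⟨φ a1, φ b1⟩ : QA k' (φ B1)).norm = φ n1 ^ 3 := by
    rw [← map_pow, ← hn1', QuadraticAlgebra.norm_def]
    simp only [map_sub, map_mul, map_pow]
    ring
  rcases hff ⟨φ a1, φ b1⟩ (φ n1) hnn (hφ1 _ hn1) with hcase | hcase
  · left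
    obtain ⟨β', hβ'⟩ := hcase
    obtain ⟨p, hp⟩ := hsurj β'.re
    obtain ⟨q, hq⟩ := hsurj β'.im
    obtain ⟨ν, hν⟩ : ∃ ν : O, ν = p ^ 2 - B1 * q ^ 2 := ⟨_, rfl⟩
    have hνu : v (ν : k) = 1 := by
      apply hφ2
      intro h
      have h4 : (β' ^ 3).norm = 0 := by
        rw [map_pow]
        have : β'.norm = φ ν := by
          rw [QuadraticAlgebra.norm_def, ← hp, ← hq, hν]
          simp only [map_sub, map_mul, map_pow]
          ring
        rw [this, h]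
        ring
      rw [← hβ', hnn] at h4
      exact hφ1 n1 hn1 (by simpa using h4)
    have hν0 : (ν : k) ≠ 0 := by
      intro h
      rw [h, map_zero] at hνu
      exact zero_ne_one hνu
    obtain ⟨u1, hu1⟩ : ∃ r : O, r = p ^ 3 + 3 * B1 * p * q ^ 2 := ⟨_, rfl⟩
    obtain ⟨u2, hu2⟩ : ∃ r : O, r = 3 * p ^ 2 * q + B1 * q ^ 3 := ⟨_, rfl⟩
    have hβ3 : β' ^ 3 = ⟨φ u1, φ u2⟩ := by
      rw [pow_succ, pow_two]
      ext
      · simp only [QuadraticAlgebra.re_mul, QuadraticAlgebra.im_mul, ← hp, ← hq, hu1, map_add,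
          map_mul, map_pow, map_ofNat]
        ring
      · simp only [QuadraticAlgebra.re_mul, QuadraticAlgebra.im_mul, ← hp, ← hq, hu2, map_add,
          map_mul, map_pow, map_ofNat]
        ring
    have hd1 : φ (a1 - u1) = 0 := by
      have h := congrArg QuadraticAlgebra.re hβ'
      rw [hβ3] at h
      have h' : φ a1 = φ u1 := h
      rw [map_sub, h', sub_self]
    have hd2 : φ (b1 - u2) = 0 := by
      have h := congrArg QuadraticAlgebra.im hβ'
      rw [hβ3] at h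
      have h' : φ b1 = φ u2 := h
      rw [map_sub, h', sub_self]
    have hcc : u1 ^ 2 - B1 * u2 ^ 2 = ν ^ 3 := by rw [hu1, hu2, hν]; ring
    have hm1 : φ (a1 * u1 - B1 * (b1 * u2) - ν ^ 3) = 0 := by
      have e : a1 * u1 - B1 * (b1 * u2) - ν ^ 3 = (a1 - u1) * u1 - B1 * ((b1 - u2) * u2) := by
        rw [← hcc]; ring
      rw [e, map_sub, map_mul, hd1, map_mul, map_mul, hd2]
      ring
    have hm2 : φ (b1 * u1 - a1 * u2) = 0 := by
      have e : b1 * u1 - a1 * u2 = (b1 - u2) * u1 - (a1 - u1) * u2 := by ring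
      rw [e, map_sub, map_mul φ (b1 - u2), map_mul φ (a1 - u1), hd1, hd2]
      ring
    rw [hφ] at hm1 hm2
    push_cast at hm1 hm2
    obtain ⟨γ, hγ⟩ := small
      (((a1 : k) * u1 - B1 * (b1 * u2)) / (ν : k) ^ 3)
      (((b1 : k) * u1 - a1 * u2) / (ν : k) ^ 3)
      (by
        have e : ((a1 : k) * u1 - B1 * (b1 * u2)) / (ν : k) ^ 3 - 1 =
          ((a1 : k) * u1 - B1 * (b1 * u2) - ν ^ 3) / (ν : k) ^ 3 := by
          field_simp
        rw [e, map_div₀, map_pow, hνu, one_pow, div_one]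
        exact hm1)
      (by
        rw [map_div₀, map_pow, hνu, one_pow, div_one]
        exact hm2)
    have e1 : (ν : k) = (p : k) ^ 2 - B1 * (q : k) ^ 2 := by rw [hν]; push_cast; rfl
    have e4 : (u1 : k) = p ^ 3 + 3 * B1 * p * q ^ 2 := by rw [hu1]; push_cast; rfl
    have e5 : (u2 : k) = 3 * p ^ 2 * q + B1 * q ^ 3 := by rw [hu2]; push_cast; rfl
    rw [e4, e5] at hγ
    exact ⟨_, d2_alg (B1 : k) a1 b1 p q ν e1 hν0 γ hγ⟩
  right
  obtain ⟨x', y', hxy', hx', β', hβ'⟩ := hcase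
  obtain ⟨y, rfl⟩ := hsurj y'
  obtain ⟨x0, rfl⟩ := hsurj x'
  obtain ⟨p, hp⟩ := hsurj β'.re
  obtain ⟨q, hq⟩ := hsurj β'.im
  -- the point
  have hvx0 : v (x0 : k) = 1 := hφ2 _ hx'
  obtain ⟨x, hx, hxx⟩ := hens ((B1 - y ^ 2 : O) : k) (x0 : k) (hint (B1 - y ^ 2)) hvx0
    (by
      have h : φ (x0 ^ 3 + (B1 - y ^ 2)) = 0 := by
        simp only [map_add, map_sub, map_pow]
        rw [hxy']
        ring
      rw [hφ] at h
      push_cast at h ⊢
      exact h)
  push_cast at hx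
  have hx3 : (y : k) ^ 2 = x ^ 3 + B1 := by linear_combination -hx
  have hvx : v x = 1 := by
    have h := Valuation.map_add_eq_of_lt_right v
      (x := x - x0) (y := x0) (by rw [hvx0]; exact hxx)
    rw [sub_add_cancel, hvx0] at h
    exact h
  have hx0 : x ≠ 0 := by
    rintro rfl
    rw [map_zero] at hvx
    exact zero_ne_one hvx
  -- the norm of (p, q)
  obtain ⟨ν, hν⟩ : ∃ ν : O, ν = p ^ 2 - B1 * q ^ 2 := ⟨_, rfl⟩
  have hνu : v (ν : k) = 1 := by
    apply hφ2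
    intro h
    have h4 : (β' ^ 3).norm = 0 := by
      rw [map_pow]
      have : β'.norm = φ ν := by
        rw [QuadraticAlgebra.norm_def, ← hp, ← hq, hν]
        simp only [map_sub, map_mul, map_pow]
        ring
      rw [this, h]
      ring
    rw [← hβ', map_mul, hnn] at h4
    rcases mul_eq_zero.1 h4 with h5 | h5
    · exact hφ1 n1 hn1 (by simpa using h5)
    · rw [QuadraticAlgebra.norm_def] at h5
      have h6 : φ x0 ^ 3 = 0 := by
        have : φ y ^ 2 - φ B1 = 0 := by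
          rw [← h5]
          ring
        rw [hxy'] at this
        linear_combination this
      exact hx' (by simpa using h6)
  have hν0 : (ν : k) ≠ 0 := by
    intro h
    rw [h, map_zero] at hνu
    exact zero_ne_one hνu
  -- the difference of m κ and (p, q) ^ 3
  obtain ⟨r1, hr1⟩ : ∃ r : O, r = a1 * y - B1 * b1 := ⟨_, rfl⟩
  obtain ⟨r2, hr2⟩ : ∃ r : O, r = b1 * y - a1 := ⟨_, rfl⟩
  obtain ⟨u1, hu1⟩ : ∃ r : O, r = p ^ 3 + 3 * B1 * p * q ^ 2 := ⟨_, rfl⟩
  obtain ⟨u2, hu2⟩ : ∃ r : O, r = 3 * p ^ 2 * q + B1 * q ^ 3 := ⟨_, rfl⟩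
  have hβ3 : β' ^ 3 = ⟨φ u1, φ u2⟩ := by
    rw [pow_succ, pow_two]
    ext
    · simp only [QuadraticAlgebra.re_mul, QuadraticAlgebra.im_mul, ← hp, ← hq, hu1, map_add,
        map_mul, map_pow, map_ofNat]
      ring
    · simp only [QuadraticAlgebra.re_mul, QuadraticAlgebra.im_mul, ← hp, ← hq, hu2, map_add,
        map_mul, map_pow, map_ofNat]
      ring
  have hd1 : φ (r1 - u1) = 0 := by
    have h := congrArg QuadraticAlgebra.re hβ'
    rw [hβ3, QuadraticAlgebra.re_mul] at h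
    have h' : φ a1 * φ y + φ B1 * φ b1 * -1 = φ u1 := h
    rw [map_sub, ← h', hr1]
    simp only [map_sub, map_mul]
    ring
  have hd2 : φ (r2 - u2) = 0 := by
    have h := congrArg QuadraticAlgebra.im hβ'
    rw [hβ3, QuadraticAlgebra.im_mul] at h
    have h' : φ a1 * -1 + φ b1 * φ y + 0 * φ b1 * -1 = φ u2 := h
    rw [map_sub, ← h', hr2]
    simp only [map_sub, map_mul]
    ring
  -- the quotient: (r1, r2) (u1, -u2) / ν^3
  have hcc : u1 ^ 2 - B1 * u2 ^ 2 = ν ^ 3 := by rw [hu1, hu2, hν]; ring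
  have hm1 : φ (r1 * u1 - B1 * (r2 * u2) - ν ^ 3) = 0 := by
    have e : r1 * u1 - B1 * (r2 * u2) - ν ^ 3 = (r1 - u1) * u1 - B1 * ((r2 - u2) * u2) := by
      rw [← hcc]; ring
    rw [e, map_sub, map_mul, hd1, map_mul, map_mul, hd2]
    ring
  have hm2 : φ (r2 * u1 - r1 * u2) = 0 := by
    have e : r2 * u1 - r1 * u2 = (r2 - u2) * u1 - (r1 - u1) * u2 := by ring
    rw [e, map_sub, map_mul φ (r2 - u2), map_mul φ (r1 - u1), hd1, hd2]
    ring
  rw [hφ] at hm1 hm2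
  push_cast at hm1 hm2
  obtain ⟨γ, hγ⟩ := small
    (((r1 : k) * u1 - B1 * (r2 * u2)) / (ν : k) ^ 3)
    (((r2 : k) * u1 - r1 * u2) / (ν : k) ^ 3)
    (by
      have e : ((r1 : k) * u1 - B1 * (r2 * u2)) / (ν : k) ^ 3 - 1 =
        ((r1 : k) * u1 - B1 * (r2 * u2) - ν ^ 3) / (ν : k) ^ 3 := by
        field_simp
      rw [e, map_div₀, map_pow, hνu, one_pow, div_one]
      exact hm1)
    (by
      rw [map_div₀, map_pow, hνu, one_pow, div_one]
      exact hm2)
  have e1 : (ν : k) = (p : k) ^ 2 - B1 * (q : k) ^ 2 := by rw [hν]; push_cast; rfl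
  have e2 : (r1 : k) = a1 * y - B1 * b1 := by rw [hr1]; push_cast; rfl
  have e3 : (r2 : k) = b1 * y - a1 := by rw [hr2]; push_cast; rfl
  have e4 : (u1 : k) = p ^ 3 + 3 * B1 * p * q ^ 2 := by rw [hu1]; push_cast; rfl
  have e5 : (u2 : k) = 3 * p ^ 2 * q + B1 * q ^ 3 := by rw [hu2]; push_cast; rfl
  rw [e2, e3, e4, e5] at hγ
  exact ⟨x, y, hx3, hx0, _, L6_alg (B1 : k) a1 b1 y p q ν e1 hν0 γ hγ⟩

end H35Z
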