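import Mathlib
import Pool.Agent.Lib.H35Z.D1
import Pool.Agent.Lib.H35Z.D2

/-! Chunk D3 (M/L): places w not above 6 with N(w) = 1 modulo 3, D = r^2 a square unit: the unramified classes are local images.
Facts: k' = IsLocalRing.ResidueField (w.adicCompletionIntegers K), finite (H16A.finite_residueField w), Nat.card k' = N(w) (H55B.residue_card or as in chunk A2), φ = residue; see li_good
(H35X/L6.lean) for the hypotheses hO, hsurj, hφ, hens, small of d2_abs. v(r) = 1. u in K_w with v(u) = 1 is a cube iff φ(u) is a cube in k' (Hensel: hens; d3_cube).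
k' contains om with om^2 + om + 1 = 0 (the unit group is cyclic of order divisible by 3; FiniteField, or IsCyclic.exists_ofOrder_eq_natCard) and its unit group is cyclic: if g in kˣ is not a
cube then for every u in k'ˣ one of u, u g, u g^2 is a cube (d3_three; the quotient by the cubes has at most 3 elements, see L5a_grp).
By UnrM and li_mul it is enough to treat m = ⟨a, b⟩, a, b integral, a^2 - D b^2 = n^3, v(n) = 1. Coordinates [p1, p2] = ((p1+p2)/2, (p1-p2)/(2r)); m = [s1, s2], s1 = a + b r, s2 = a - b r, s1 s2 = n^3, units.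
CASE A: 2 r is not a cube in K_w. Take x in K_w with 0 < v(x) < 1 (uniformizer). y near r with y^2 = D + x^3 (hensel3 as in D1 (iii): 1 + x^3/D is a square s^2 with s near 1, y = r s). y + r = 2 r (1 + small) is
2 r times a cube (cube_one); y - r = x^3/(y + r). ⟨y, -1⟩ = [y - r, y + r], ⟨-y, -1⟩ = [-(y + r), -(y - r)]. By d3_three one of s1, 2 r s1, (2r)^2 s1 is a cube:
s1 a cube: s2 = n^3/s1 is a cube, m is a cube, li_cube_any. 2 r s1 = cube: the point (x, -y): m ⟨-y, -1⟩ = [-s1 (y + r), -s2 (y - r)], s1 (y + r) is a cube and s2 (y - r) = n^3 x^3/(s1 (y + r)) is a cube.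
(2r)^2 s1 a cube: the point (x, y): s1 (y - r) = s1 x^3/(y + r) = s1 (y + r)^2 x^3/(y + r)^3 is a cube; s2 (y + r) = n^3 x^3/(s1 (y - r)) is a cube.
CASE B: 2 r = f^3: in k': 4 φ(D) = φ(f^2)^3 =: c'^3, g = 2 om + 1, g^2 = -3; x0 = -c', y0 = φ(r) g: y0^2 = -3 φ(D) = x0^3 + φ(D), x0 nonzero. s = φ(r) g. ff_or gives hff, and d2_abs the result
(a cube: li_cube_any). -/

open NumberField IsDedekindDomain Polynomial

namespace H35Z

open H55B H35T H13E H35X

variable {K : Type} [Field K] [NumberField K] (w : HeightOneSpectrum (𝓞 K))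

theorem d3_hens (h3 : Valued.v (3 : w.adicCompletion K) = 1) (r s0 : w.adicCompletion K)
    (hr : Valued.v r ≤ 1) (hs0 : Valued.v s0 = 1) (h : Valued.v (s0 ^ 3 + r) < 1) :
    ∃ s : w.adicCompletion K, s ^ 3 + r = 0 ∧ Valued.v (s - s0) < 1 := by
  obtain ⟨s, hs, hs'⟩ := hensel3 w 0 0 r s0
    (by rw [map_zero]; exact zero_le_one) (by rw [map_zero]; exact zero_le_one)
    hr hs0.le
    (by
      have e : s0 ^ 3 + 0 * s0 ^ 2 + 0 * s0 + r = s0 ^ 3 + r := by ring
      rw [e]
      exact h)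
    (by
      have e : 3 * s0 ^ 2 + 2 * 0 * s0 + 0 = 3 * s0 ^ 2 := by ring
      rw [e, map_mul, map_pow, h3, hs0, one_mul, one_pow])
  exact ⟨s, by linear_combination hs, hs'⟩

theorem d3_unit (z : w.adicCompletionIntegers K)
    (h : IsLocalRing.residue (w.adicCompletionIntegers K) z ≠ 0) :
    Valued.v (z : w.adicCompletion K) = 1 := by
  refine le_antisymm ((HeightOneSpectrum.mem_adicCompletionIntegers (𝓞 K) K w).1 z.2) (not_lt.1 ?_)
  intro h1
  exact h ((L6_res w z).2 h1)

theorem d3_unit' (z : w.adicCompletionIntegers K) (h : Valued.v (z : w.adicCompletion K) = 1) :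
    IsLocalRing.residue (w.adicCompletionIntegers K) z ≠ 0 := by
  intro h1
  have h2 := (L6_res w z).1 h1
  rw [h] at h2
  exact lt_irrefl _ h2

theorem d3_v (n : ℕ) (h : (n : 𝓞 K) ∉ w.asIdeal) : Valued.v (n : w.adicCompletion K) = 1 := by
  have e : (n : w.adicCompletion K) = algebraMap K _ (algebraMap (𝓞 K) K (n : 𝓞 K)) := by
    rw [map_natCast, map_natCast]
  rw [e, H55C.valued_alg]
  refine le_antisymm (w.valuation_le_one (K := K) (n : 𝓞 K)) (not_lt.1 ?_)
  intro h1
  exact h ((HeightOneSpectrum.valuation_lt_one_iff_mem (K := K) w (n : 𝓞 K)).1 h1)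

theorem d3_23 (h6 : (6 : 𝓞 K) ∉ w.asIdeal) :
    Valued.v (2 : w.adicCompletion K) = 1 ∧ Valued.v (3 : w.adicCompletion K) = 1 := by
  constructor
  · have h := d3_v w 2 (by
      intro h
      apply h6
      have e : (6 : 𝓞 K) = 3 * ((2 : ℕ) : 𝓞 K) := by norm_num
      rw [e]
      exact Ideal.mul_mem_left _ _ h)
    exact_mod_cast h
  · have h := d3_v w 3 (by
      intro h
      apply h6
      have e : (6 : 𝓞 K) = 2 * ((3 : ℕ) : 𝓞 K) := by norm_num
      rw [e]
      exact Ideal.mul_mem_left _ _ h)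
    exact_mod_cast h

theorem d3_nat (n : ℕ) (h : Valued.v (n : w.adicCompletion K) = 1) :
    (n : IsLocalRing.ResidueField (w.adicCompletionIntegers K)) ≠ 0 := by
  have e : (n : IsLocalRing.ResidueField (w.adicCompletionIntegers K)) =
      IsLocalRing.residue (w.adicCompletionIntegers K) (n : w.adicCompletionIntegers K) :=
    (map_natCast _ n).symm
  rw [e]
  refine d3_unit' w _ ?_
  have e2 : ((n : w.adicCompletionIntegers K) : w.adicCompletion K) = (n : w.adicCompletion K) := rfl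
  rw [e2]
  exact h

/-- a finite field whose order is one modulo three has a primitive cube root of unity -/
theorem d3_root (k : Type) [Field k] [Finite k] (h : Nat.card k % 3 = 1) :
    ∃ om : k, om ^ 2 + om + 1 = 0 := by
  have hd : 3 ∣ Nat.card kˣ := by
    rw [Nat.card_units]
    omega
  have hp : Fact (Nat.Prime 3) := ⟨Nat.prime_three⟩
  obtain ⟨z, hz⟩ := exists_prime_orderOf_dvd_card' 3 hd
  have hz3 : (z : k) ^ 3 = 1 := by
    have h1 := pow_orderOf_eq_one z
    rw [hz] at h1
    rw [← Units.val_pow_eq_pow_val, h1, Units.val_one]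
  have hz1 : (z : k) ≠ 1 := by
    intro h1
    have h2 : z = 1 := Units.ext h1
    rw [h2, orderOf_one] at hz
    norm_num at hz
  refine ⟨z, ?_⟩
  have h4 : ((z : k) - 1) * ((z : k) ^ 2 + z + 1) = 0 := by linear_combination hz3
  exact (mul_eq_zero.1 h4).resolve_left (sub_ne_zero.2 hz1)

theorem d3_cube (h3 : Valued.v (3 : w.adicCompletion K) = 1) (u : w.adicCompletionIntegers K)
    (hu : Valued.v (u : w.adicCompletion K) = 1)
    (h : ∃ z : IsLocalRing.ResidueField (w.adicCompletionIntegers K),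
      z ^ 3 = IsLocalRing.residue (w.adicCompletionIntegers K) u) :
    ∃ s : w.adicCompletion K, s ^ 3 = (u : w.adicCompletion K) := by
  obtain ⟨z, hz⟩ := h
  obtain ⟨z1, rfl⟩ := IsLocalRing.residue_surjective z
  have h1 : Valued.v ((z1 ^ 3 - u : w.adicCompletionIntegers K) : w.adicCompletion K) < 1 := by
    rw [← L6_res w, map_sub, map_pow, hz, sub_self]
  have hz1 : Valued.v (z1 : w.adicCompletion K) = 1 := by
    refine d3_unit w z1 ?_
    intro h0
    rw [h0, zero_pow three_ne_zero] at hz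
    have h2 := (L6_res w u).1 hz.symm
    rw [hu] at h2
    exact lt_irrefl _ h2
  obtain ⟨s, hs, -⟩ := d3_hens w h3 (-(u : w.adicCompletion K)) (z1 : w.adicCompletion K)
    (by rw [Valuation.map_neg, hu]) hz1 (by
      have e : (z1 : w.adicCompletion K) ^ 3 + -(u : w.adicCompletion K) =
        ((z1 ^ 3 - u : w.adicCompletionIntegers K) : w.adicCompletion K) := by
        push_cast
        ring
      rw [e]
      exact h1)
  exact ⟨s, by linear_combination hs⟩

theorem d3_cyc (k : Type) [Field k] [Finite k] (g u : k) (hg : g ≠ 0) (hu : u ≠ 0)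
    (hno : ¬ ∃ z : k, z ^ 3 = g) : ∃ j : ℕ, j < 3 ∧ ∃ z : k, z ^ 3 = g ^ j * u := by
  obtain ⟨ζ, hζ⟩ := IsCyclic.exists_generator (α := kˣ)
  obtain ⟨a, ha⟩ := (mem_powers_iff_mem_zpowers.2 (hζ (Units.mk0 g hg)) : Units.mk0 g hg ∈ Submonoid.powers ζ)
  obtain ⟨b, hb⟩ := (mem_powers_iff_mem_zpowers.2 (hζ (Units.mk0 u hu)) : Units.mk0 u hu ∈ Submonoid.powers ζ)
  have ha' : (ζ : k) ^ a = g := by
    have h := congrArg (fun x : kˣ => (x : k)) ha
    simpa using h
  have hb' : (ζ : k) ^ b = u := by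
    have h := congrArg (fun x : kˣ => (x : k)) hb
    simpa using h
  have h3 : ¬ 3 ∣ a := by
    rintro ⟨c, rfl⟩
    exact hno ⟨(ζ : k) ^ c, by rw [← pow_mul, mul_comm, ha']⟩
  have hmain : ∃ j : ℕ, j < 3 ∧ 3 ∣ a * j + b := by
    have h1 : a % 3 = 1 ∨ a % 3 = 2 := by omega
    have h2 : b % 3 = 0 ∨ b % 3 = 1 ∨ b % 3 = 2 := by omega
    rcases h1 with h1 | h1 <;> rcases h2 with h2 | h2 | h2
    · exact ⟨0, by omega, by omega⟩
    · exact ⟨2, by omega, by omega⟩
    · exact ⟨1, by omega, by omega⟩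
    · exact ⟨0, by omega, by omega⟩
    · exact ⟨1, by omega, by omega⟩
    · exact ⟨2, by omega, by omega⟩
  obtain ⟨j, hj, c, hc⟩ := hmain
  refine ⟨j, hj, (ζ : k) ^ c, ?_⟩
  rw [← ha', ← hb', ← pow_mul, ← pow_mul, ← pow_add, hc, mul_comm c 3]

theorem d3_three (h3 : Valued.v (3 : w.adicCompletion K) = 1) (g u : w.adicCompletion K)
    (hg : Valued.v g = 1) (hu : Valued.v u = 1) (hno : ¬ ∃ s : w.adicCompletion K, s ^ 3 = g) :
    ∃ j : ℕ, j < 3 ∧ ∃ s : w.adicCompletion K, s ^ 3 = g ^ j * u := by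
  obtain ⟨hfin, -⟩ := H55B.residue_card K w
  obtain ⟨g1, rfl⟩ : ∃ x1 : w.adicCompletionIntegers K, (x1 : w.adicCompletion K) = g :=
    ⟨⟨g, (HeightOneSpectrum.mem_adicCompletionIntegers (𝓞 K) K w).2 hg.le⟩, rfl⟩
  obtain ⟨u1, rfl⟩ : ∃ x1 : w.adicCompletionIntegers K, (x1 : w.adicCompletion K) = u :=
    ⟨⟨u, (HeightOneSpectrum.mem_adicCompletionIntegers (𝓞 K) K w).2 hu.le⟩, rfl⟩
  obtain ⟨j, hj, z, hz⟩ := d3_cyc (IsLocalRing.ResidueField (w.adicCompletionIntegers K))
    (IsLocalRing.residue _ g1) (IsLocalRing.residue _ u1) (d3_unit' w g1 hg) (d3_unit' w u1 hu) (by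
      rintro ⟨z, hz⟩
      exact hno (d3_cube w h3 g1 hg ⟨z, hz⟩))
  refine ⟨j, hj, ?_⟩
  obtain ⟨s, hs⟩ := d3_cube w h3 (g1 ^ j * u1) (by
    push_cast
    rw [map_mul, map_pow, hg, hu, one_pow, one_mul]) ⟨z, by rw [map_mul, map_pow, hz]⟩
  refine ⟨s, ?_⟩
  rw [hs]
  push_cast
  rfl

theorem d3_sqone (h2 : Valued.v (2 : w.adicCompletion K) = 1) (u : w.adicCompletion K)
    (hu : Valued.v (u - 1) < 1) : ∃ s : w.adicCompletion K, s ^ 2 = u ∧ Valued.v (s - 1) < 1 := by
  have hu1 : Valued.v u = 1 := L6_near_one _ hu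
  obtain ⟨s, hs, hs'⟩ := hensel3 w 0 (-u) 0 1
    (by rw [map_zero]; exact zero_le_one) (by rw [Valuation.map_neg, hu1])
    (by rw [map_zero]; exact zero_le_one) (by rw [map_one])
    (by
      have e : (1 : w.adicCompletion K) ^ 3 + 0 * 1 ^ 2 + -u * 1 + 0 = -(u - 1) := by ring
      rw [e, Valuation.map_neg]
      exact hu)
    (by
      have e : 3 * (1 : w.adicCompletion K) ^ 2 + 2 * 0 * 1 + -u = 2 - (u - 1) := by ring
      rw [e, Valuation.map_sub_eq_of_lt_left _ (by rw [h2]; exact hu), h2])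
  have hs1 := L6_near_one _ hs'
  have hs0 : s ≠ 0 := by
    rintro rfl
    rw [map_zero] at hs1
    exact zero_ne_one hs1
  refine ⟨s, ?_, hs'⟩
  have h : s * (s ^ 2 - u) = 0 := by linear_combination hs
  exact sub_eq_zero.1 ((mul_eq_zero.1 h).resolve_left hs0)

theorem d3_split {k : Type} [Field k] (D r : k) (hr : r ^ 2 = D) (h2 : (2 : k) ≠ 0)
    (hr0 : r ≠ 0) (a b c1 c2 : k) (h1 : c1 ^ 3 = a + b * r)
    (h2' : c2 ^ 3 = a - b * r) : ∃ β : QA k D, (⟨a, b⟩ : QA k D) = β ^ 3 := by
  refine ⟨⟨(c1 + c2) / 2, (c1 - c2) / (2 * r)⟩, ?_⟩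
  rw [L1_cube]
  have ea : a = (c1 ^ 3 + c2 ^ 3) / 2 := by
    rw [h1, h2']
    field_simp
    ring
  have eb : b = (c1 ^ 3 - c2 ^ 3) / (2 * r) := by
    rw [h1, h2']
    field_simp
    ring
  rw [ea, eb, ← hr]
  refine QuadraticAlgebra.ext ?_ ?_
  · show (c1 ^ 3 + c2 ^ 3) / 2 = ((c1 + c2) / 2) ^ 3 + 3 * r ^ 2 * ((c1 + c2) / 2) * ((c1 - c2) / (2 * r)) ^ 2
    field_simp
    ring
  · show (c1 ^ 3 - c2 ^ 3) / (2 * r) = 3 * ((c1 + c2) / 2) ^ 2 * ((c1 - c2) / (2 * r)) + r ^ 2 * ((c1 - c2) / (2 * r)) ^ 3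
    field_simp
    ring

theorem d3_li {k : Type} [Field k] (D r : k) (hr : r ^ 2 = D) (h2 : (2 : k) ≠ 0)
    (hr0 : r ≠ 0) (a b x y c1 c2 : k) (hxy : y ^ 2 = x ^ 3 + D) (hx : x ≠ 0)
    (h1 : (a + b * r) * (y - r) = c1 ^ 3) (h2' : (a - b * r) * (y + r) = c2 ^ 3) :
    LI k D ⟨a, b⟩ := by
  refine ⟨x, y, hxy, hx, ?_⟩
  have e : (⟨a, b⟩ : QA k D) * ⟨y, -1⟩ = ⟨a * y - D * b, b * y - a⟩ := by
    refine QuadraticAlgebra.ext ?_ ?_
    · simp only [QuadraticAlgebra.re_mul]
      ring
    · simp only [QuadraticAlgebra.im_mul]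
      ring
  rw [e]
  refine d3_split D r hr h2 hr0 _ _ c1 c2 ?_ ?_
  · rw [← h1, ← hr]
    ring
  · rw [← h2', ← hr]
    ring

theorem li_of_unrM_sq (h6 : (6 : 𝓞 K) ∉ w.asIdeal) (h1 : Ideal.absNorm w.asIdeal % 3 = 1)
    (D r : w.adicCompletion K) (hr : r ^ 2 = D) (hD : Valued.v D = 1)
    (m : QA (w.adicCompletion K) D) (hm : UnrM w D m) : LI (w.adicCompletion K) D m := by
  obtain ⟨h2, h3⟩ := d3_23 w h6
  obtain ⟨hfin, hcard⟩ := H55B.residue_card K w
  obtain ⟨a, b, n, κ, rfl, ha, hb, hn, hn1⟩ := hm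
  refine li_mul ?_ ⟨κ, rfl⟩
  have hvr : Valued.v r = 1 := by
    have h : Valued.v r ^ 2 = 1 := by rw [← map_pow, hr, hD]
    exact (pow_eq_one_iff.1 h).resolve_right (by norm_num)
  have hne : ∀ x : w.adicCompletion K, Valued.v x = 1 → x ≠ 0 := by
    rintro _ hx rfl
    rw [map_zero] at hx
    exact zero_ne_one hx
  have h20 := hne 2 h2
  have hr0 := hne r hvr
  have hn0 := hne n hn1
  have hv2r : Valued.v (2 * r) = 1 := by rw [map_mul, h2, hvr, one_mul]
  have h2r0 : 2 * r ≠ 0 := mul_ne_zero h20 hr0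
  by_cases hcase : ∃ s : w.adicCompletion K, s ^ 3 = 2 * r
  · -- the case 2 r = f^3
    obtain ⟨f, hf⟩ := hcase
    have hvf : Valued.v f = 1 := by
      have h : Valued.v f ^ 3 = 1 := by rw [← map_pow, hf, hv2r]
      exact (pow_eq_one_iff.1 h).resolve_right (by norm_num)
    have key : ∀ (D1 : w.adicCompletionIntegers K), (D1 : w.adicCompletion K) = D →
        LIp (w.adicCompletion K) D a b := by
      rintro D1 rfl
      obtain ⟨r1, hr1⟩ : ∃ x1 : w.adicCompletionIntegers K, (x1 : w.adicCompletion K) = r :=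
        ⟨⟨r, (HeightOneSpectrum.mem_adicCompletionIntegers (𝓞 K) K w).2 hvr.le⟩, rfl⟩
      obtain ⟨f1, hf1⟩ : ∃ x1 : w.adicCompletionIntegers K, (x1 : w.adicCompletion K) = f :=
        ⟨⟨f, (HeightOneSpectrum.mem_adicCompletionIntegers (𝓞 K) K w).2 hvf.le⟩, rfl⟩
      have e1 : r1 ^ 2 = D1 := Subtype.ext (by push_cast; rw [hr1]; exact hr)
      have e2 : f1 ^ 3 = 2 * r1 := Subtype.ext (by push_cast; rw [hr1, hf1]; exact hf)
      obtain ⟨om, hom⟩ := d3_root (IsLocalRing.ResidueField (w.adicCompletionIntegers K))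
        (by rw [hcard]; exact h1)
      have hk2 : (2 : IsLocalRing.ResidueField (w.adicCompletionIntegers K)) ≠ 0 := by
        have h := d3_nat w 2 (by exact_mod_cast h2)
        exact_mod_cast h
      have hk3 : (3 : IsLocalRing.ResidueField (w.adicCompletionIntegers K)) ≠ 0 := by
        have h := d3_nat w 3 (by exact_mod_cast h3)
        exact_mod_cast h
      have hφD : IsLocalRing.residue (w.adicCompletionIntegers K) D1 ≠ 0 := d3_unit' w D1 hD
      have hφf : IsLocalRing.residue (w.adicCompletionIntegers K) f1 ≠ 0 :=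
        d3_unit' w f1 (by rw [hf1]; exact hvf)
      have e1' : IsLocalRing.residue (w.adicCompletionIntegers K) r1 ^ 2 =
          IsLocalRing.residue (w.adicCompletionIntegers K) D1 := by rw [← map_pow, e1]
      have e2' : IsLocalRing.residue (w.adicCompletionIntegers K) f1 ^ 3 =
          2 * IsLocalRing.residue (w.adicCompletionIntegers K) r1 := by
        rw [← map_pow, e2, map_mul, map_ofNat]
      have hr' := L6_res (K := K) w
      have hs' : Function.Surjective (IsLocalRing.residue (w.adicCompletionIntegers K)) :=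
        IsLocalRing.residue_surjective
      have hor := d2_abs (k := w.adicCompletion K) (Valued.v (R := w.adicCompletion K))
        (IsLocalRing.ResidueField (w.adicCompletionIntegers K))
        (w.adicCompletionIntegers K).toSubring
        (fun x => HeightOneSpectrum.mem_adicCompletionIntegers (𝓞 K) K w)
        (IsLocalRing.residue (w.adicCompletionIntegers K)) hs' hr' h2 h3 D1 hD
        (fun r s0 => d3_hens w h3 r s0)
        (fun p q hp hq => cube_small w h3 _ hD p q hp hq)
        (fun m n hmn hn0 => ff_or _ hk2 hk3 _ hφD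
          (IsLocalRing.residue (w.adicCompletionIntegers K) r1 * (2 * om + 1)) (by
            rw [mul_pow, e1']
            linear_combination 4 * IsLocalRing.residue (w.adicCompletionIntegers K) D1 * hom) om hom
          (-IsLocalRing.residue (w.adicCompletionIntegers K) f1 ^ 2)
          (IsLocalRing.residue (w.adicCompletionIntegers K) r1 * (2 * om + 1)) (by
            rw [mul_pow, e1']
            have e3 : (IsLocalRing.residue (w.adicCompletionIntegers K) f1 ^ 2) ^ 3 =
              4 * IsLocalRing.residue (w.adicCompletionIntegers K) D1 := by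
              rw [← pow_mul, mul_comm 2 3, pow_mul, e2', mul_pow, e1']
              norm_num
            linear_combination 4 * IsLocalRing.residue (w.adicCompletionIntegers K) D1 * hom + e3)
          (neg_ne_zero.2 (pow_ne_zero 2 hφf)) m n hmn hn0)
        a b n ha hb hn hn1
      rcases hor with h | h
      · exact li_cube_any w h3 _ hD _ h
      · exact h
    exact key ⟨D, (HeightOneSpectrum.mem_adicCompletionIntegers (𝓞 K) K w).2 hD.le⟩ rfl
  · -- the other case
    obtain ⟨x, hx0, hx1⟩ : ∃ x : w.adicCompletion K, x ≠ 0 ∧ Valued.v x < 1 := by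
      obtain ⟨π, hπ⟩ := w.valuation_exists_uniformizer K
      have h : Valued.v (algebraMap K (w.adicCompletion K) π) = WithZero.exp (-1 : ℤ) := by
        rw [H55C.valued_alg]
        exact hπ
      refine ⟨algebraMap K _ π, ?_, ?_⟩
      · intro h0
        rw [h0, map_zero] at h
        exact WithZero.exp_ne_zero h.symm
      · rw [h, ← WithZero.exp_zero, WithZero.exp_lt_exp]
        norm_num
    have hD0 := hne D hD
    obtain ⟨s, hs, hs1⟩ := d3_sqone w h2 (1 + x ^ 3 / D) (by
      rw [add_sub_cancel_left, map_div₀, hD, div_one, map_pow]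
      exact pow_lt_one₀ zero_le hx1 three_ne_zero)
    obtain ⟨e, he, he1⟩ := cube_one w h3 (1 + (s - 1) / 2) (by
      rw [add_sub_cancel_left, map_div₀, h2, div_one]
      exact hs1)
    have hve := L6_near_one _ he1
    have he0 := hne e hve
    have hy1 : r * s + r = 2 * r * e ^ 3 := by
      rw [he]
      field_simp
      ring
    have hxy : (r * s) ^ 2 = x ^ 3 + D := by
      rw [mul_pow, hs, hr]
      field_simp
      ring
    have hpr : (r * s - r) * (r * s + r) = x ^ 3 := by linear_combination hxy - hr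
    have hs12 : (a + b * r) * (a - b * r) = n ^ 3 := by
      rw [← hn, ← hr]
      ring
    have hvs : ∀ c : w.adicCompletion K, Valued.v c = 1 → Valued.v (a + b * c) ≤ 1 := by
      intro c hc
      refine Valuation.map_add_le _ ha ?_
      rw [map_mul, hc, mul_one]
      exact hb
    have hv1 : Valued.v (a + b * r) ≤ 1 := hvs r hvr
    have hv2 : Valued.v (a - b * r) ≤ 1 := by
      have h := hvs (-r) (by rw [Valuation.map_neg, hvr])
      rwa [mul_neg, ← sub_eq_add_neg] at h
    have hv12 : Valued.v (a + b * r) * Valued.v (a - b * r) = 1 := by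
      rw [← map_mul, hs12, map_pow, hn1, one_pow]
    have hs1v : Valued.v (a + b * r) = 1 := by
      refine le_antisymm hv1 ?_
      rw [← hv12]
      exact mul_le_of_le_one_right zero_le hv2
    have hs10 := hne _ hs1v
    obtain ⟨j, hj, σ, hσ⟩ := d3_three w h3 (2 * r) (a + b * r) hv2r hs1v hcase
    have hσ0 : σ ≠ 0 := by
      rintro rfl
      rw [zero_pow three_ne_zero] at hσ
      exact mul_ne_zero (pow_ne_zero j h2r0) hs10 hσ.symm
    have hs2 : a - b * r = n ^ 3 / (a + b * r) := by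
      rw [eq_div_iff hs10]
      linear_combination hs12
    have hym : r * s - r = x ^ 3 / (2 * r * e ^ 3) := by
      rw [eq_div_iff (mul_ne_zero h2r0 (pow_ne_zero 3 he0)), ← hy1]
      linear_combination hpr
    generalize hS : a + b * r = S at *
    interval_cases j
    · refine li_cube_any w h3 _ hD _ ?_
      rw [pow_zero, one_mul] at hσ
      refine d3_split D r hr h20 hr0 a b σ (n / σ) ?_ ?_
      · rw [hσ, hS]
      · rw [hs2, div_pow, hσ]
    · rw [pow_one] at hσ
      have hSe : S = σ ^ 3 / (2 * r) := by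
        rw [hσ]
        field_simp
      refine d3_li D r hr h20 hr0 a b x (-(r * s)) (-(σ * e)) (-(n * x / (σ * e))) (by rw [neg_sq]; exact hxy) hx0 ?_ ?_
      · have e3 : -(r * s) - r = -(2 * r * e ^ 3) := by rw [← hy1]; ring
        rw [hS, e3, hSe]
        field_simp
      · have e3 : -(r * s) + r = -(x ^ 3 / (2 * r * e ^ 3)) := by rw [← hym]; ring
        rw [hs2, e3, hSe]
        field_simp
    · have hSe : S = σ ^ 3 / (2 * r) ^ 2 := by
        rw [hσ]
        field_simp
      refine d3_li D r hr h20 hr0 a b x (r * s) (x * σ / (2 * r * e)) (n * 2 * r * e / σ) hxy hx0 ?_ ?_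
      · rw [hS, hym, hSe]
        field_simp
      · rw [hs2, hy1, hSe]
        field_simp

/-- Cube roots of units if N(w) = 2 modulo 3 (cubing is bijective on the residue field). -/
theorem cube_of_two_mod (h6 : (6 : 𝓞 K) ∉ w.asIdeal) (h1 : Ideal.absNorm w.asIdeal % 3 = 2)
    (u : w.adicCompletion K) (hu : Valued.v u = 1) : ∃ s : w.adicCompletion K, s ^ 3 = u := by
  obtain ⟨h2, h3⟩ := d3_23 w h6
  obtain ⟨hfin, hcard⟩ := H55B.residue_card K w
  obtain ⟨u1, rfl⟩ : ∃ x1 : w.adicCompletionIntegers K, (x1 : w.adicCompletion K) = u :=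
    ⟨⟨u, (HeightOneSpectrum.mem_adicCompletionIntegers (𝓞 K) K w).2 hu.le⟩, rfl⟩
  refine d3_cube w h3 u1 hu ?_
  have h0 := d3_unit' w u1 hu
  rw [← hcard] at h1
  have hfin' : Fintype (IsLocalRing.ResidueField (w.adicCompletionIntegers K)) := Fintype.ofFinite _
  have h4 := FiniteField.pow_card_sub_one_eq_one _ h0
  rw [← Nat.card_eq_fintype_card] at h4
  obtain ⟨t, ht⟩ : ∃ t : ℕ, Nat.card (IsLocalRing.ResidueField (w.adicCompletionIntegers K)) - 1 = 3 * t + 1 :=
    ⟨Nat.card (IsLocalRing.ResidueField (w.adicCompletionIntegers K)) / 3, by omega⟩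
  rw [ht] at h4
  refine ⟨IsLocalRing.residue _ u1 ^ (1 + 2 * t), ?_⟩
  calc (IsLocalRing.residue (w.adicCompletionIntegers K) u1 ^ (1 + 2 * t)) ^ 3 =
      IsLocalRing.residue (w.adicCompletionIntegers K) u1 *
        (IsLocalRing.residue (w.adicCompletionIntegers K) u1 ^ (3 * t + 1)) ^ 2 := by ring
    _ = _ := by rw [h4, one_pow, mul_one]

/-- -1 and 27 are squares if N(w) = 1 modulo 12 (in the residue field -1 and -3 are squares; lift by hensel3 for s^3 - B s). -/
theorem sq_of_one_mod (h6 : (6 : 𝓞 K) ∉ w.asIdeal) (h1 : Ideal.absNorm w.asIdeal % 12 = 1) (B : ℤ)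
    (hB : B = -1 ∨ B = 27) : ∃ s : w.adicCompletion K, s ^ 2 = (B : w.adicCompletion K) := by
  obtain ⟨h2, h3⟩ := d3_23 w h6
  obtain ⟨hfin, hcard⟩ := H55B.residue_card K w
  have hfin' : Fintype (IsLocalRing.ResidueField (w.adicCompletionIntegers K)) := Fintype.ofFinite _
  have hneg : IsSquare (-1 : IsLocalRing.ResidueField (w.adicCompletionIntegers K)) := by
    rw [FiniteField.isSquare_neg_one_iff, ← Nat.card_eq_fintype_card, hcard]
    omega
  obtain ⟨i, hi⟩ := hneg
  obtain ⟨om, hom⟩ := d3_root (IsLocalRing.ResidueField (w.adicCompletionIntegers K))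
    (by rw [hcard]; omega)
  have hBv : Valued.v (B : w.adicCompletion K) = 1 := by
    rcases hB with rfl | rfl
    · push_cast
      rw [Valuation.map_neg, map_one]
    · have e : (((27 : ℤ) : w.adicCompletion K)) = 3 ^ 3 := by
        push_cast
        norm_num
      rw [e, map_pow, h3, one_pow]
  have hz : ∃ z : IsLocalRing.ResidueField (w.adicCompletionIntegers K), z ^ 2 = (B : IsLocalRing.ResidueField _) := by
    rcases hB with rfl | rfl
    · exact ⟨i, by rw [pow_two, ← hi]; push_cast; rfl⟩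
    · refine ⟨i * (2 * om + 1) ^ 3, ?_⟩
      have e1 : (2 * om + 1) ^ 2 = -3 := by linear_combination 4 * hom
      have e2 : (i * (2 * om + 1) ^ 3) ^ 2 = (i * i) * ((2 * om + 1) ^ 2) ^ 3 := by ring
      rw [e2, e1, ← hi]
      push_cast
      norm_num
  obtain ⟨z, hz⟩ := hz
  obtain ⟨z1, rfl⟩ := IsLocalRing.residue_surjective z
  have h4 : Valued.v ((z1 : w.adicCompletion K) ^ 2 - (B : w.adicCompletion K)) < 1 := by
    have h := (L6_res w (z1 ^ 2 - (B : w.adicCompletionIntegers K))).1 (by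
      rw [map_sub, map_pow, map_intCast, hz, sub_self])
    have e : ((z1 ^ 2 - (B : w.adicCompletionIntegers K) : w.adicCompletionIntegers K) : w.adicCompletion K) =
      (z1 : w.adicCompletion K) ^ 2 - (B : w.adicCompletion K) := rfl
    rwa [e] at h
  have hz1 : Valued.v (z1 : w.adicCompletion K) = 1 := by
    have h : Valued.v ((z1 : w.adicCompletion K) ^ 2) = 1 := by
      have h5 : (z1 : w.adicCompletion K) ^ 2 = (B : w.adicCompletion K) +
        ((z1 : w.adicCompletion K) ^ 2 - (B : w.adicCompletion K)) := by ring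
      rw [h5, Valuation.map_add_eq_of_lt_left _ (by rw [hBv]; exact h4), hBv]
    rw [map_pow] at h
    exact (pow_eq_one_iff.1 h).resolve_right (by norm_num)
  obtain ⟨s, hs, hs'⟩ := hensel3 w 0 (-(B : w.adicCompletion K)) 0 z1
    (by rw [map_zero]; exact zero_le_one) (by rw [Valuation.map_neg, hBv])
    (by rw [map_zero]; exact zero_le_one) hz1.le
    (by
      have e : (z1 : w.adicCompletion K) ^ 3 + 0 * z1 ^ 2 + -(B : w.adicCompletion K) * z1 + 0 =
        z1 * ((z1 : w.adicCompletion K) ^ 2 - (B : w.adicCompletion K)) := by ring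
      rw [e, map_mul, hz1, one_mul]
      exact h4)
    (by
      have e : 3 * (z1 : w.adicCompletion K) ^ 2 + 2 * 0 * z1 + -(B : w.adicCompletion K) =
        2 * B + 3 * ((z1 : w.adicCompletion K) ^ 2 - (B : w.adicCompletion K)) := by ring
      rw [e, Valuation.map_add_eq_of_lt_left _ (by rw [map_mul, map_mul, h2, h3, hBv, one_mul, one_mul]; exact h4),
        map_mul, h2, hBv, one_mul])
  have hs0 : s ≠ 0 := by
    rintro rfl
    rw [zero_sub, Valuation.map_neg, hz1] at hs'
    exact lt_irrefl _ hs'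
  refine ⟨s, ?_⟩
  have h : s * (s ^ 2 - (B : w.adicCompletion K)) = 0 := by linear_combination hs
  exact sub_eq_zero.1 ((mul_eq_zero.1 h).resolve_left hs0)

end H35Z
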