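import Mathlib
import Pool.Agent.Lib.H35X.G3
import Pool.Agent.Lib.H35Z.A1
import Pool.Agent.Lib.H35Z.A2
import Pool.Agent.Lib.H35Z.D3

/-! Chunk D4 (M): the local images of y^2 = x^3 + B d^2 and of y^2 = x^3 + B agree at all places. d4_three: w above 3, 9 divides d - 1 or d + 1: v(d - 1) <= v(9) or v(-d - 1) <= v(9), cube_nine; v(3) < 1.
lid_iff: c with c^3 = B (B = -1: c = -1; B = 27: c = 3). d is nonzero (AdmAt.2.1 with l = a nonunit, or 9 divides d - 1 or d + 1).
(1) w above 2: v(2) = exp(-e), e odd (g3_cast w 2 in H35X/G3.lean), v(3) = 1, v(B) = 1, v(d) <= 1. By cube_two' (B1 = -1, resp. 6) m is a cube: both sides hold (lid_cube_any; li_of_cube).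
(2) w above 3: lid_one_three with d4_three. (3) w not above 6, N(w) = 7 mod 12: cube_seven: m is a cube, both sides hold (v(3) = 1, v(B) = 1: B = -1 or 3^3).
(4) w not above 6, N(w) not 7 mod 12: d is not in w by AdmAt (third condition), v(d) = 1. N(w) is prime to 6 (it is a power of a prime <> 2, 3; H35X.T4 has such lemmas), so N(w) mod 12 is 1, 5 or 11.
5 or 11: N(w) = 2 mod 3: cube_of_two_mod for d and lid_one_three. N(w) = 1 mod 12: B is a square, r^2 = B (sq_of_one_mod), B d^2 = (r d)^2.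
LId m: write m = ⟨a, b⟩: LId iff LI for D = B d^2 and (a, b/d) (lid_scale) iff UnrM w (B d^2) (a, b/d) (unrM_of_li, li_of_unrM_sq) iff UnrM w B (a, b) (unrM_scale) iff LI w B (a, b) (unrM_of_li, li_of_unrM). -/

open NumberField IsDedekindDomain Polynomial

namespace H35Z

open H55B H35T H13E H35X

variable {K : Type} [Field K] [NumberField K] (w : HeightOneSpectrum (𝓞 K))

theorem d4_int (k : ℤ) : Valued.v (k : w.adicCompletion K) ≤ 1 := by
  have e : (k : w.adicCompletion K) = algebraMap K _ (algebraMap (𝓞 K) K (k : 𝓞 K)) := by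
    rw [map_intCast, map_intCast]
  rw [e, H55C.valued_alg]
  exact w.valuation_le_one (K := K) (k : 𝓞 K)

theorem d4_one (k : ℤ) (h : (k : 𝓞 K) ∉ w.asIdeal) : Valued.v (k : w.adicCompletion K) = 1 := by
  refine le_antisymm (d4_int w k) (not_lt.1 ?_)
  have e : (k : w.adicCompletion K) = algebraMap K _ (algebraMap (𝓞 K) K (k : 𝓞 K)) := by
    rw [map_intCast, map_intCast]
  rw [e, H55C.valued_alg]
  intro h1
  exact h ((HeightOneSpectrum.valuation_lt_one_iff_mem (K := K) w (k : 𝓞 K)).1 h1)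

theorem d4_card (k : Type) [Field k] [Finite k] (l : ℕ) (hl : Nat.Prime l) (h : (l : k) ≠ 0) :
    ¬ l ∣ Nat.card k := by
  intro hd
  have hp : Fact (Nat.Prime l) := ⟨hl⟩
  obtain ⟨x, hx⟩ := exists_prime_addOrderOf_dvd_card' l hd
  have h1 := addOrderOf_nsmul_eq_zero x
  rw [hx, nsmul_eq_mul] at h1
  rcases mul_eq_zero.1 h1 with h2 | h2
  · exact h h2
  · rw [h2, addOrderOf_zero] at hx
    exact hl.one_lt.ne hx

theorem d4_norm (l : ℕ) (hl : Nat.Prime l) (h : (l : 𝓞 K) ∉ w.asIdeal) : ¬ l ∣ Ideal.absNorm w.asIdeal := by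
  have hm := w.isMaximal
  let _ : Field (𝓞 K ⧸ w.asIdeal) := Ideal.Quotient.field _
  have hfin : Finite (𝓞 K ⧸ w.asIdeal) := inferInstance
  have hq : Ideal.absNorm w.asIdeal = Nat.card (𝓞 K ⧸ w.asIdeal) := rfl
  rw [hq]
  refine d4_card _ l hl ?_
  intro h0
  apply h
  rw [← Ideal.Quotient.eq_zero_iff_mem, map_natCast]
  exact h0

theorem d4_three (h3 : (3 : 𝓞 K) ∈ w.asIdeal) (d : ℤ) (hd : (9 : ℤ) ∣ d - 1 ∨ (9 : ℤ) ∣ d + 1) :
    ∃ δ : w.adicCompletion K, δ ^ 3 = (d : w.adicCompletion K) := by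
  have hv3 : Valued.v (3 : w.adicCompletion K) < 1 := by
    have e := g3_cast w 3
    rw [Nat.cast_ofNat, Nat.cast_ofNat] at e
    rw [e]
    exact_mod_cast (g3_nat_lt w 3).2 (by exact_mod_cast h3)
  have key : ∀ k : ℤ, Valued.v (9 * (k : w.adicCompletion K)) ≤ Valued.v (9 : w.adicCompletion K) := by
    intro k
    rw [map_mul]
    exact mul_le_of_le_one_right zero_le (d4_int w k)
  rcases hd with ⟨k, hk⟩ | ⟨k, hk⟩
  · refine cube_nine w hv3 _ ?_
    have e : (d : w.adicCompletion K) - 1 = 9 * (k : w.adicCompletion K) := by exact_mod_cast congrArg (Int.cast (R := w.adicCompletion K)) hk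
    rw [e]
    exact key k
  · obtain ⟨s, hs⟩ := cube_nine w hv3 (-(d : w.adicCompletion K)) (by
      have e : (d : w.adicCompletion K) + 1 = 9 * (k : w.adicCompletion K) := by exact_mod_cast congrArg (Int.cast (R := w.adicCompletion K)) hk
      have e2 : -(d : w.adicCompletion K) - 1 = -((d : w.adicCompletion K) + 1) := by ring
      rw [e2, Valuation.map_neg, e]
      exact key k)
    exact ⟨-s, by linear_combination -hs⟩

theorem admAt_ne {d : ℤ} (h : AdmAt d K) : d ≠ 0 := by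
  rintro rfl
  rcases h.1 with ⟨k, hk⟩ | ⟨k, hk⟩ <;> omega

theorem lid_iff (h2 : OddTwo K) (d : ℤ) (hd : AdmAt d K) (B : ℤ) (hB : B = -1 ∨ B = 27)
    (m : QA (w.adicCompletion K) (B : w.adicCompletion K)) (n : w.adicCompletion K)
    (hn : m.norm = n ^ 3) (hn0 : n ≠ 0) :
    LId (w.adicCompletion K) (B : w.adicCompletion K) (d : w.adicCompletion K) m ↔
      LI (w.adicCompletion K) (B : w.adicCompletion K) m := by
  have hd0 := admAt_ne hd
  have hcz : CharZero (w.adicCompletion K) :=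
    charZero_of_injective_algebraMap (algebraMap K (w.adicCompletion K)).injective
  have hB0 : B ≠ 0 := by
    rcases hB with rfl | rfl
    · norm_num
    · norm_num
  have hBk : (B : w.adicCompletion K) ≠ 0 := Int.cast_ne_zero.2 hB0
  have hdk : (d : w.adicCompletion K) ≠ 0 := Int.cast_ne_zero.2 hd0
  obtain ⟨c, hc⟩ : ∃ c : w.adicCompletion K, c ^ 3 = (B : w.adicCompletion K) := by
    rcases hB with rfl | rfl
    · exact ⟨-1, by push_cast; ring⟩
    · exact ⟨3, by push_cast; norm_num⟩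
  have hBv : Valued.v (3 : w.adicCompletion K) = 1 → Valued.v (B : w.adicCompletion K) = 1 := by
    intro hv3
    rcases hB with rfl | rfl
    · push_cast
      rw [Valuation.map_neg, map_one]
    · have e : (((27 : ℤ) : w.adicCompletion K)) = 3 ^ 3 := by
        push_cast
        norm_num
      rw [e, map_pow, hv3, one_pow]
  have hcube : Valued.v (3 : w.adicCompletion K) = 1 →
      (∃ β : QA (w.adicCompletion K) (B : w.adicCompletion K), m = β ^ 3) →
      (LId (w.adicCompletion K) (B : w.adicCompletion K) (d : w.adicCompletion K) m ↔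
        LI (w.adicCompletion K) (B : w.adicCompletion K) m) := fun hv3 hm =>
    ⟨fun _ => li_of_cube hc hBk hm, fun _ => lid_cube_any w hv3 _ _ (hBv hv3) (d4_int w d) m hm⟩
  have hpr := w.isPrime
  by_cases c3 : (3 : 𝓞 K) ∈ w.asIdeal
  · obtain ⟨δ, hδ⟩ := d4_three w c3 d hd.1
    exact lid_one_three _ _ δ hδ hdk m
  have hv3 : Valued.v (3 : w.adicCompletion K) = 1 := by
    exact_mod_cast d4_one w 3 (by exact_mod_cast c3)
  by_cases c2 : (2 : 𝓞 K) ∈ w.asIdeal
  · obtain ⟨e, he, hev⟩ := h2 w c2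
    have hv2 : Valued.v (2 : w.adicCompletion K) = WithZero.exp (-(e : ℤ)) := by
      have e' := g3_cast w 2
      rw [Nat.cast_ofNat, Nat.cast_ofNat] at e'
      rw [e']
      exact hev
    obtain ⟨B1, hB1, hB1v⟩ : ∃ B1 : w.adicCompletion K, (B : w.adicCompletion K) = 3 + 4 * B1 ∧
        Valued.v B1 ≤ 1 := by
      rcases hB with rfl | rfl
      · refine ⟨-1, by push_cast; ring, ?_⟩
        rw [Valuation.map_neg, map_one]
      · refine ⟨6, by push_cast; norm_num, ?_⟩
        exact_mod_cast d4_int w 6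
    exact hcube hv3 (cube_two' w e he hv2 _ B1 hB1 hB1v m n hn hn0)
  have hv2 : Valued.v (2 : w.adicCompletion K) = 1 := by
    exact_mod_cast d4_one w 2 (by exact_mod_cast c2)
  have c6 : (6 : 𝓞 K) ∉ w.asIdeal := by
    intro h
    have e : (6 : 𝓞 K) = 2 * 3 := by norm_num
    rw [e] at h
    rcases hpr.mem_or_mem h with h | h
    · exact c2 h
    · exact c3 h
  by_cases c7 : Ideal.absNorm w.asIdeal % 12 = 7
  · exact hcube hv3 (cube_seven w c6 c7 B hB m n hn hn0)
  have hdw : (d : 𝓞 K) ∉ w.asIdeal := fun h => c7 (hd.2.2 w h c2).2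
  have hvd : Valued.v (d : w.adicCompletion K) = 1 := d4_one w d hdw
  have hn2 := d4_norm w 2 Nat.prime_two (by exact_mod_cast c2)
  have hn3 := d4_norm w 3 Nat.prime_three (by exact_mod_cast c3)
  by_cases hmod : Ideal.absNorm w.asIdeal % 3 = 2
  · obtain ⟨δ, hδ⟩ := cube_of_two_mod w c6 hmod _ hvd
    exact lid_one_three _ _ δ hδ hdk m
  have h3 : Ideal.absNorm w.asIdeal % 3 = 1 := by omega
  obtain ⟨r, hr⟩ := sq_of_one_mod w c6 (by omega) B hB
  have hvB := hBv hv3
  have hvD : Valued.v ((B : w.adicCompletion K) * (d : w.adicCompletion K) ^ 2) = 1 := by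
    rw [map_mul, map_pow, hvB, hvd, one_pow, one_mul]
  obtain ⟨a, b⟩ := m
  rw [lid_scale _ _ _ _ hdk]
  constructor
  · intro h
    exact li_of_unrM w hv2 hv3 _ c hc hvB _ ((unrM_scale w _ _ a b hvd).2 (unrM_of_li w hv2 hv3 _ hvD _ h))
  · intro h
    exact li_of_unrM_sq w c6 h3 _ (r * d) (by rw [mul_pow, hr]) hvD _
      ((unrM_scale w _ _ a b hvd).1 (unrM_of_li w hv2 hv3 _ hvB _ h))

end H35Z
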