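import Mathlib
import Pool.Agent.Lib.H35Z.D4

/-! Chunk D5 (M): the Selmer groups of E_d and E_1 are equal. locImd_iff: for a, b in k: LocImd d k (of a + of b root) iff LId k (-1) d ⟨a, b⟩, and LocIm k (of a + of b root) iff
LI k (-1) ⟨a, b⟩. One direction is locIm_of_li in H35X/L1.lean (with L1_hom, the ring homomorphism QA -> AdjoinRoot, z ↦ of z.re + of z.im root); for the converse use the ring homomorphism
AdjoinRoot (X^2 + C 1) -> QA k (-1), AdjoinRoot.lift (algebraMap k _) ⟨0, 1⟩ (⟨0,1⟩^2 = ⟨-1, 0⟩), which maps of a + of b root to ⟨a, b⟩. Same for T^2 = 27.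
seld_eq: the conditions IsUnit and norm are the same; m = of a + of b root (SG_repr / A18_repr: H13E.S2Gen), norm m = a^2 + b^2 = n^3 (SG_norm, as in H35X/G3.lean sel_of_cnd), n nonzero since m is a unit. The image in the
completion is of (f a) + of (f b) root (AdjoinRoot.map_of, map_root as in G3), lid_iff for ⟨f a, f b⟩ with norm (f n)^3, and locImd_iff twice. ((-1 : ℤ) and (27 : ℤ) casts: push_cast.) -/

open NumberField IsDedekindDomain Polynomial

namespace H35Z

open H55B H35T H13E H35X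

theorem d5_iff {k : Type} [Field k] {f : k[X]} {c : k} (hf : f = X ^ 2 + C c) (B : k) (hB : B = -c)
    (a b y e : k) :
    (∃ β : AdjoinRoot f, (AdjoinRoot.of f a + AdjoinRoot.of f b * AdjoinRoot.root f) *
      (AdjoinRoot.of f y - AdjoinRoot.of f e * AdjoinRoot.root f) = β ^ 3) ↔
    ∃ β : QA k B, (⟨a, b⟩ : QA k B) * ⟨y, -e⟩ = β ^ 3 := by
  have hroot := SG_root hf
  constructor
  · rintro ⟨β, hβ⟩
    have ht : eval₂ (algebraMap k (QA k B)) ⟨0, 1⟩ f = 0 := by
      rw [hf, eval₂_add, eval₂_pow, eval₂_X, eval₂_C, pow_two]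
      refine QuadraticAlgebra.ext ?_ ?_
      · rw [QuadraticAlgebra.re_add, QuadraticAlgebra.re_mul, QuadraticAlgebra.algebraMap_re, hB]
        show 0 * 0 + -c * 1 * 1 + c = 0
        ring
      · rw [QuadraticAlgebra.im_add, QuadraticAlgebra.im_mul, QuadraticAlgebra.algebraMap_im]
        show (0 : k) * 1 + 1 * 0 + 0 * 1 * 1 + 0 = 0
        ring
    have hψ : ∀ p q : k, (⟨p, q⟩ : QA k B) = algebraMap k (QA k B) p + algebraMap k (QA k B) q * ⟨0, 1⟩ := by
      intro p q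
      refine QuadraticAlgebra.ext ?_ ?_
      · rw [QuadraticAlgebra.re_add, QuadraticAlgebra.re_mul, QuadraticAlgebra.algebraMap_re,
          QuadraticAlgebra.algebraMap_re, QuadraticAlgebra.algebraMap_im]
        ring
      · rw [QuadraticAlgebra.im_add, QuadraticAlgebra.im_mul, QuadraticAlgebra.algebraMap_re,
          QuadraticAlgebra.algebraMap_im, QuadraticAlgebra.algebraMap_im]
        ring
    refine ⟨AdjoinRoot.lift (algebraMap k (QA k B)) ⟨0, 1⟩ ht β, ?_⟩
    rw [← map_pow, ← hβ, map_mul, map_add, map_sub, map_mul, map_mul, AdjoinRoot.lift_of,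
      AdjoinRoot.lift_of, AdjoinRoot.lift_of, AdjoinRoot.lift_of, AdjoinRoot.lift_root, hψ a b, hψ y (-e),
      map_neg]
    ring
  · rintro ⟨β, hβ⟩
    have hr : AdjoinRoot.root f * AdjoinRoot.root f = AdjoinRoot.of f B := by
      rw [hB, map_neg, ← hroot]
      ring
    refine ⟨L1_hom B (AdjoinRoot.of f) (AdjoinRoot.root f) hr β, ?_⟩
    rw [← map_pow, ← hβ, map_mul]
    change _ = (AdjoinRoot.of f a + AdjoinRoot.of f b * AdjoinRoot.root f) *
        (AdjoinRoot.of f y + AdjoinRoot.of f (-e) * AdjoinRoot.root f)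
    rw [map_neg]
    ring

theorem d5_f {k : Type} [Field k] : (X ^ 2 - C 27 : k[X]) = X ^ 2 + C (-27) := by
  rw [map_neg, sub_eq_add_neg]

theorem locImd_iff {k : Type} [Field k] (d : ℤ) (a b : k) :
    LocImd d k (AdjoinRoot.of _ a + AdjoinRoot.of _ b * AdjoinRoot.root _) ↔
      LId k (-1) (d : k) ⟨a, b⟩ := by
  constructor
  · rintro ⟨x, y, hxy, hx, hβ⟩
    exact ⟨x, y, by rw [hxy]; ring, hx, (d5_iff (f := X ^ 2 + C 1) (c := 1) rfl (-1) rfl a b y d).1 hβ⟩
  · rintro ⟨x, y, hxy, hx, hβ⟩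
    exact ⟨x, y, by rw [hxy]; ring, hx, (d5_iff (f := X ^ 2 + C 1) (c := 1) rfl (-1) rfl a b y d).2 hβ⟩

theorem locImEd_iff {k : Type} [Field k] (d : ℤ) (a b : k) :
    LocImEd d k (AdjoinRoot.of _ a + AdjoinRoot.of _ b * AdjoinRoot.root _) ↔
      LId k 27 (d : k) ⟨a, b⟩ := by
  constructor
  · rintro ⟨x, y, hxy, hx, hβ⟩
    exact ⟨x, y, hxy, hx, (d5_iff (f := X ^ 2 - C 27) (c := -27) d5_f 27 (by rw [neg_neg]) a b y d).1 hβ⟩
  · rintro ⟨x, y, hxy, hx, hβ⟩
    exact ⟨x, y, hxy, hx, (d5_iff (f := X ^ 2 - C 27) (c := -27) d5_f 27 (by rw [neg_neg]) a b y d).2 hβ⟩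

theorem locIm_iff {k : Type} [Field k] (a b : k) :
    LocIm k (AdjoinRoot.of _ a + AdjoinRoot.of _ b * AdjoinRoot.root _) ↔ LI k (-1) ⟨a, b⟩ := by
  constructor
  · rintro ⟨x, y, hxy, hx, β, hβ⟩
    refine ⟨x, y, by rw [hxy]; ring, hx, (d5_iff (f := X ^ 2 + C 1) (c := 1) rfl (-1) rfl a b y 1).1 ⟨β, ?_⟩⟩
    rw [map_one (AdjoinRoot.of (X ^ 2 + C 1 : k[X])), one_mul]
    exact hβ
  · rintro ⟨x, y, hxy, hx, hβ⟩
    obtain ⟨β, hβ⟩ := (d5_iff (f := X ^ 2 + C 1) (c := 1) rfl (-1) rfl a b y 1).2 hβ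
    refine ⟨x, y, by rw [hxy]; ring, hx, β, ?_⟩
    rw [map_one (AdjoinRoot.of (X ^ 2 + C 1 : k[X])), one_mul] at hβ
    exact hβ

theorem locImE_iff {k : Type} [Field k] (a b : k) :
    LocImE k (AdjoinRoot.of _ a + AdjoinRoot.of _ b * AdjoinRoot.root _) ↔ LI k 27 ⟨a, b⟩ := by
  constructor
  · rintro ⟨x, y, hxy, hx, β, hβ⟩
    refine ⟨x, y, hxy, hx, (d5_iff (f := X ^ 2 - C 27) (c := -27) d5_f 27 (by rw [neg_neg]) a b y 1).1 ⟨β, ?_⟩⟩
    rw [map_one (AdjoinRoot.of (X ^ 2 - C 27 : k[X])), one_mul]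
    exact hβ
  · rintro ⟨x, y, hxy, hx, hβ⟩
    obtain ⟨β, hβ⟩ := (d5_iff (f := X ^ 2 - C 27) (c := -27) d5_f 27 (by rw [neg_neg]) a b y 1).2 hβ
    refine ⟨x, y, hxy, hx, β, ?_⟩
    rw [map_one (AdjoinRoot.of (X ^ 2 - C 27 : k[X])), one_mul] at hβ
    exact hβ

theorem seld_eq {K : Type} [Field K] [NumberField K] (h2 : OddTwo K) (d : ℤ) (hd : AdmAt d K) :
    Seld d K = Sel K := by
  have key : ∀ m : Qd K, IsUnit m → (∃ n : K, Algebra.norm K m = n ^ 3) → ∀ w : HeightOneSpectrum (𝓞 K),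
      (LocImd d (w.adicCompletion K) (qmap (algebraMap K (w.adicCompletion K)) m) ↔
        LocIm (w.adicCompletion K) (qmap (algebraMap K (w.adicCompletion K)) m)) := by
    rintro m hu ⟨n, hn⟩ w
    obtain ⟨a, b, rfl⟩ := SG_repr (f := X ^ 2 + C 1) (c := 1) rfl m
    have hn0 : n ≠ 0 := by
      rintro rfl
      have h1 := hu.map (Algebra.norm K)
      rw [hn, zero_pow three_ne_zero] at h1
      exact not_isUnit_zero h1
    rw [SG_norm (f := X ^ 2 + C 1) (c := 1) rfl] at hn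
    have e2 : qmap (algebraMap K (w.adicCompletion K))
        (AdjoinRoot.of _ a + AdjoinRoot.of _ b * AdjoinRoot.root _ : Qd K) =
        AdjoinRoot.of _ (algebraMap K (w.adicCompletion K) a) +
          AdjoinRoot.of _ (algebraMap K (w.adicCompletion K) b) * AdjoinRoot.root _ := by
      unfold qmap
      rw [map_add, map_mul, AdjoinRoot.map_of, AdjoinRoot.map_of, AdjoinRoot.map_root]
    rw [e2, locImd_iff, locIm_iff]
    have e1 : ((((-1) : ℤ) : w.adicCompletion K)) = (-1) := by push_cast; rfl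
    have h1 := lid_iff w h2 d hd (-1) (Or.inl rfl)
      (⟨algebraMap K (w.adicCompletion K) a, algebraMap K (w.adicCompletion K) b⟩)
      (algebraMap K (w.adicCompletion K) n) (by
        have h3 := g3_fnorm w (-1) (a := a) (b := b) (n := n) (by
          rw [← hn]
          push_cast
          ring)
        rw [L5a_norm, ← h3]
        ring) (by
        rw [Ne, map_eq_zero]
        exact hn0)
    rw [e1] at h1
    exact h1
  ext m
  constructor
  · rintro ⟨hu, hn, hw⟩
    exact ⟨hu, hn, fun w => (key m hu hn w).1 (hw w)⟩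
  · rintro ⟨hu, hn, hw⟩
    exact ⟨hu, hn, fun w => (key m hu hn w).2 (hw w)⟩

theorem selEd_eq {K : Type} [Field K] [NumberField K] (h2 : OddTwo K) (d : ℤ) (hd : AdmAt d K) :
    SelEd d K = SelE K := by
  have key : ∀ m : Qe K, IsUnit m → (∃ n : K, Algebra.norm K m = n ^ 3) → ∀ w : HeightOneSpectrum (𝓞 K),
      (LocImEd d (w.adicCompletion K) (emap (algebraMap K (w.adicCompletion K)) m) ↔
        LocImE (w.adicCompletion K) (emap (algebraMap K (w.adicCompletion K)) m)) := by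
    rintro m hu ⟨n, hn⟩ w
    obtain ⟨a, b, rfl⟩ := SG_repr (f := X ^ 2 - C 27) (c := -27) d5_f m
    have hn0 : n ≠ 0 := by
      rintro rfl
      have h1 := hu.map (Algebra.norm K)
      rw [hn, zero_pow three_ne_zero] at h1
      exact not_isUnit_zero h1
    rw [SG_norm (f := X ^ 2 - C 27) (c := -27) d5_f] at hn
    have e2 : emap (algebraMap K (w.adicCompletion K))
        (AdjoinRoot.of _ a + AdjoinRoot.of _ b * AdjoinRoot.root _ : Qe K) =
        AdjoinRoot.of _ (algebraMap K (w.adicCompletion K) a) +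
          AdjoinRoot.of _ (algebraMap K (w.adicCompletion K) b) * AdjoinRoot.root _ := by
      unfold emap
      rw [map_add, map_mul, AdjoinRoot.map_of, AdjoinRoot.map_of, AdjoinRoot.map_root]
    rw [e2, locImEd_iff, locImE_iff]
    have e1 : (((27 : ℤ) : w.adicCompletion K)) = 27 := by push_cast; rfl
    have h1 := lid_iff w h2 d hd 27 (Or.inr rfl)
      (⟨algebraMap K (w.adicCompletion K) a, algebraMap K (w.adicCompletion K) b⟩)
      (algebraMap K (w.adicCompletion K) n) (by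
        have h3 := g3_fnorm w 27 (a := a) (b := b) (n := n) (by
          rw [← hn]
          push_cast
          ring)
        rw [L5a_norm, ← h3]
        ring) (by
        rw [Ne, map_eq_zero]
        exact hn0)
    rw [e1] at h1
    exact h1
  ext m
  constructor
  · rintro ⟨hu, hn, hw⟩
    exact ⟨hu, hn, fun w => (key m hu hn w).1 (hw w)⟩
  · rintro ⟨hu, hn, hw⟩
    exact ⟨hu, hn, fun w => (key m hu hn w).2 (hw w)⟩

/-- The Selmer groups of y^2 = x^3 - d^2 are those of y^2 = x^3 - 1. -/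
theorem selZ_iff {K : Type} [Field K] [NumberField K] (h2 : OddTwo K) (d : ℤ) (hd : AdmAt d K) :
    SelZ d K ↔ SelZ3 K := by
  unfold SelZ SelZ3
  rw [seld_eq h2 d hd, selEd_eq h2 d hd]

end H35Z
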