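import Mathlib
import Pool.Agent.Lib.H35X.L1

/-! Chunk P1 (M): the isogenies of degree 3 in coordinates. iso_step: κ = (p, q). If x is nonzero: N = p^2 - B q^2 satisfies N^3 = norm of κ^3 = y^2 - B d^2 = x^3, ζ = N/x, ζ^3 = 1; replace κ by ζ κ (same cube; norm
ζ^2 N = ζ^3 x = x). If x = 0 then N = 0 = x. So assume p^2 - B q^2 = x. L1_cube: y = p^3 + 3 B p q^2, -d = q (3 p^2 + B q^2). u = 9 p^2 + 3 B q^2, v = 3 p u: q u = -3 d, so u is nonzero and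
9 d^2 = q^2 u^2. v^2 = 9 p^2 u^2 = u^2 (u - 3 B q^2) = u^3 - 27 B d^2; u^3 - 108 B d^2 = u^2 (u - 12 B q^2) = 9 x u^2; v (u^3 + 216 B d^2) = v u^2 (u + 24 B q^2) = 3 p u^3 (9 p^2 + 27 B q^2) = 27 y u^3.
div_pts: x is nonzero (else (y/d)^2 = -1). h1 and iso_step (B = -1) give (u, v) with v^2 = u^3 + 27 d^2; h2 and iso_step (B = 27, point (u, v)) give (u2, v2), v2^2 = u2^3 - 729 d^2, u 9 u2^2 = u2^3 - 2916 d^2,
v 27 u2^3 = v2 (u2^3 + 5832 d^2). X = u2/9, Y = v2/27.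
three_pt (W the curve y^2 = x^3 + D): Q = (X, Y). First suppose Y = 0: X^3 = -D, 2 Q = 0, 3 Q = Q; u = -3 X (u X^2 = 3 D = -3 X^3), v = 0, x 81 X^2 = -27 X^3 - 108 D = 81 X^3, x = X, y = 0. Let Y be nonzero:
2 Q = (X2, Y2) with slope 3 X^2/(2 Y), X2 = 9 X^4/(4 Y^2) - 2 X, Y2 = -(slope (X2 - X) + Y) (Affine.Point.add_self_of_Y_ne, see H35X/V12a.lean v12a_dbl_point for the method); X2 - X = -3 X (X^3 + 4 D)/(4 Y^2) is nonzero
(X^3 + 4 D = u X^2), so 2 Q + Q is computed with the slope m = (Y2 - Y)/(X2 - X) = (7 X^6 - 4 D X^3 + 16 D^2)/(6 X Y (X^3 + 4 D)) (slope_of_X_ne, Affine.Point.add_some or add_of_X_ne), x(3Q) = m^2 - X - X2, y(3Q) =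
-(m (x(3Q) - X) + Y). Substitute D = Y^2 - X^3, u = (X^3 + 4 D)/X^2, v = Y (X^3 - 8 D)/X^3 and clear denominators (field_simp, ring). three_div: P = 0 is 3 0; P = (x, y): div_pts with hA, hB (norms: y^2 + d^2 = x^3,
v^2 - 27 d^2 = u^3), then three_pt with D = -d^2. -/

open NumberField IsDedekindDomain Polynomial

namespace H35Z

open H55B H35T H13E H35X

private theorem hyy_aux {k : Type} [Field k] [CharZero k] (X Y D K : k) (hK : K ≠ 0) (hX : X ≠ 0) (hY : Y ≠ 0)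
    (hDK : X ^ 3 + 4 * D = K) (hE : Y ^ 2 = X ^ 3 + D) :
    Y * (X ^ 3 - 8 * D) / X ^ 3 * ((K / X ^ 2) ^ 3 + 216 * D) / (27 * (K / X ^ 2) ^ 3) =
    -((7 * X ^ 6 - 4 * D * X ^ 3 + 16 * D ^ 2) / (6 * X * Y * K) * (((K / X ^ 2) ^ 3 - 108 * D) / (9 * (K / X ^ 2) ^ 2) - X) + Y) := by
  have hD : D = (K - X ^ 3) / 4 := by rw [← hDK]; ring
  have hE2 : Y ^ 2 = (K + 3 * X ^ 3) / 4 := by rw [hE, hD]; ring
  apply mul_left_cancel₀ hY
  have e1 : Y * (Y * (X ^ 3 - 8 * D) / X ^ 3 * ((K / X ^ 2) ^ 3 + 216 * D) / (27 * (K / X ^ 2) ^ 3)) =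
    Y ^ 2 * ((X ^ 3 - 8 * D) / X ^ 3 * ((K / X ^ 2) ^ 3 + 216 * D) / (27 * (K / X ^ 2) ^ 3)) := by ring
  have e2 : Y * (-((7 * X ^ 6 - 4 * D * X ^ 3 + 16 * D ^ 2) / (6 * X * Y * K) * (((K / X ^ 2) ^ 3 - 108 * D) / (9 * (K / X ^ 2) ^ 2) - X) + Y)) =
    -((7 * X ^ 6 - 4 * D * X ^ 3 + 16 * D ^ 2) / (6 * X * K) * (((K / X ^ 2) ^ 3 - 108 * D) / (9 * (K / X ^ 2) ^ 2) - X) + Y ^ 2) := by
    have : (7 * X ^ 6 - 4 * D * X ^ 3 + 16 * D ^ 2) / (6 * X * Y * K) = (7 * X ^ 6 - 4 * D * X ^ 3 + 16 * D ^ 2) / (6 * X * K) / Y := by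
      rw [div_div]; ring_nf
    rw [this]
    field_simp
  rw [e1, e2, hE2, hD]
  field_simp
  ring

theorem p1_alg {k : Type} [Field k] [CharZero k] (B d : k) (hd : d ≠ 0) (x y p q : k)
    (hx : p ^ 2 - B * q ^ 2 = x) (hy : y = p ^ 3 + 3 * B * p * q ^ 2) (hq : -d = 3 * p ^ 2 * q + B * q ^ 3) :
    ∃ u v : k, v ^ 2 = u ^ 3 - 27 * (B * d ^ 2) ∧ u ≠ 0 ∧
      x * (9 * u ^ 2) = u ^ 3 - 108 * (B * d ^ 2) ∧
      y * (27 * u ^ 3) = v * (u ^ 3 + 216 * (B * d ^ 2)) := by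
  have hd' : d = -(3 * p ^ 2 * q + B * q ^ 3) := by rw [← hq, neg_neg]
  have hu : 9 * p ^ 2 + 3 * B * q ^ 2 ≠ 0 := by
    intro h0
    apply hd
    have h1 : 3 * d = 0 := by
      rw [hd']
      linear_combination (-q) * h0
    rcases mul_eq_zero.1 h1 with h2 | h2
    · exact absurd h2 (by norm_num)
    · exact h2
  refine ⟨9 * p ^ 2 + 3 * B * q ^ 2, 3 * p * (9 * p ^ 2 + 3 * B * q ^ 2), ?_, hu, ?_, ?_⟩
  · rw [hd']
    ring
  · rw [hd', ← hx]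
    ring
  · rw [hd', hy]
    ring

theorem iso_step {k : Type} [Field k] [CharZero k] (B d : k) (hd : d ≠ 0) (x y : k)
    (hxy : y ^ 2 = x ^ 3 + B * d ^ 2) (hκ : ∃ κ : QA k B, (⟨y, -d⟩ : QA k B) = κ ^ 3) :
    ∃ u v : k, v ^ 2 = u ^ 3 - 27 * (B * d ^ 2) ∧ u ≠ 0 ∧
      x * (9 * u ^ 2) = u ^ 3 - 108 * (B * d ^ 2) ∧
      y * (27 * u ^ 3) = v * (u ^ 3 + 216 * (B * d ^ 2)) := by
  obtain ⟨⟨p, q⟩, hpq⟩ := hκ
  rw [L1_cube] at hpq
  have hy : y = p ^ 3 + 3 * B * p * q ^ 2 := congrArg QuadraticAlgebra.re hpq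
  have hq : -d = 3 * p ^ 2 * q + B * q ^ 3 := congrArg QuadraticAlgebra.im hpq
  have hN : (p ^ 2 - B * q ^ 2) ^ 3 = x ^ 3 := by
    have h1 : x ^ 3 = y ^ 2 - B * (-d) ^ 2 := by linear_combination -hxy
    rw [h1, hy, hq]
    ring
  by_cases hx0 : x = 0
  · have h2 : p ^ 2 - B * q ^ 2 = x := by
      rw [hx0, zero_pow (by norm_num)] at hN
      rw [hx0]
      exact eq_zero_of_pow_eq_zero hN
    exact p1_alg B d hd x y p q h2 hy hq
  · set ζ := (p ^ 2 - B * q ^ 2) / x with hζ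
    have hζ3 : ζ ^ 3 = 1 := by
      rw [hζ, div_pow, hN]
      exact div_self (pow_ne_zero 3 hx0)
    have hζx : p ^ 2 - B * q ^ 2 = ζ * x := by
      rw [hζ, div_mul_cancel₀ _ hx0]
    refine p1_alg B d hd x y (ζ * p) (ζ * q) ?_ ?_ ?_
    · linear_combination ζ ^ 2 * hζx + x * hζ3
    · rw [hy]
      linear_combination (-(p ^ 3 + 3 * B * p * q ^ 2)) * hζ3
    · rw [hq]
      linear_combination (-(3 * p ^ 2 * q + B * q ^ 3)) * hζ3

theorem div_pts {k : Type} [Field k] [CharZero k] (d : k) (hd : d ≠ 0) (hi : ∀ x : k, x ^ 2 ≠ -1)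
    (h1 : ∀ x y : k, y ^ 2 = x ^ 3 - d ^ 2 → x ≠ 0 → ∃ κ : QA k (-1), (⟨y, -d⟩ : QA k (-1)) = κ ^ 3)
    (h2 : ∀ u v : k, v ^ 2 = u ^ 3 + 27 * d ^ 2 → u ≠ 0 → ∃ κ : QA k 27, (⟨v, -d⟩ : QA k 27) = κ ^ 3)
    (x y : k) (hxy : y ^ 2 = x ^ 3 - d ^ 2) :
    ∃ X Y u v : k, Y ^ 2 = X ^ 3 - d ^ 2 ∧ X ≠ 0 ∧ u ≠ 0 ∧ u * X ^ 2 = X ^ 3 - 4 * d ^ 2 ∧
      v * X ^ 3 = Y * (X ^ 3 + 8 * d ^ 2) ∧ x * (9 * u ^ 2) = u ^ 3 + 108 * d ^ 2 ∧
      y * (27 * u ^ 3) = v * (u ^ 3 - 216 * d ^ 2) := by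
  have hx0 : x ≠ 0 := by
    rintro rfl
    apply hi (y / d)
    rw [div_pow, hxy]
    field_simp
    ring
  obtain ⟨u, v, a1, a2, a3, a4⟩ := iso_step (-1) d hd x y (by linear_combination hxy) (h1 x y hxy hx0)
  have b1 : v ^ 2 = u ^ 3 + 27 * d ^ 2 := by linear_combination a1
  obtain ⟨u2, v2, c1, c2, c3, c4⟩ := iso_step 27 d hd u v b1 (h2 u v b1 a2)
  refine ⟨u2 / 9, v2 / 27, u, v, ?_, div_ne_zero c2 (by norm_num), a2, ?_, ?_, ?_, ?_⟩
  · linear_combination (1 / 729 : k) * c1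
  · linear_combination (1 / 729 : k) * c3
  · linear_combination (1 / 19683 : k) * c4
  · linear_combination a3
  · linear_combination a4

open WeierstrassCurve in
theorem p1_add {k : Type} [Field k] [DecidableEq k] (D : k) {x₁ y₁ x₂ y₂ : k}
    (h₁ : (⟨0, 0, 0, 0, D⟩ : WeierstrassCurve k).toAffine.Nonsingular x₁ y₁)
    (h₂ : (⟨0, 0, 0, 0, D⟩ : WeierstrassCurve k).toAffine.Nonsingular x₂ y₂) (h : x₁ ≠ x₂) {x₃ y₃ : k}
    (hx : x₃ = ((y₁ - y₂) / (x₁ - x₂)) ^ 2 - x₁ - x₂)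
    (hy : y₃ = -((y₁ - y₂) / (x₁ - x₂) * (x₃ - x₁) + y₁)) :
    ∃ h₃, (Affine.Point.some x₁ y₁ h₁ : (⟨0, 0, 0, 0, D⟩ : WeierstrassCurve k).toAffine.Point) +
      Affine.Point.some x₂ y₂ h₂ = Affine.Point.some x₃ y₃ h₃ := by
  have e1 : (Affine.Point.some x₁ y₁ h₁ : (⟨0, 0, 0, 0, D⟩ : WeierstrassCurve k).toAffine.Point) +
      Affine.Point.some x₂ y₂ h₂ =
      Affine.Point.some _ _ (Affine.nonsingular_add h₁ h₂ fun hxy => h hxy.1) :=
    Affine.Point.add_some fun hxy => h hxy.1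
  have hs : (⟨0, 0, 0, 0, D⟩ : WeierstrassCurve k).toAffine.slope x₁ x₂ y₁ y₂ = (y₁ - y₂) / (x₁ - x₂) :=
    Affine.slope_of_X_ne h
  have ex : (⟨0, 0, 0, 0, D⟩ : WeierstrassCurve k).toAffine.addX x₁ x₂
      ((⟨0, 0, 0, 0, D⟩ : WeierstrassCurve k).toAffine.slope x₁ x₂ y₁ y₂) = x₃ := by
    rw [Affine.addX, hs, hx]
    ring
  have ey : (⟨0, 0, 0, 0, D⟩ : WeierstrassCurve k).toAffine.addY x₁ x₂ y₁
      ((⟨0, 0, 0, 0, D⟩ : WeierstrassCurve k).toAffine.slope x₁ x₂ y₁ y₂) = y₃ := by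
    rw [Affine.addY, Affine.negAddY, Affine.negY, ex, hs, hy]
    ring
  have h3 : (⟨0, 0, 0, 0, D⟩ : WeierstrassCurve k).toAffine.Nonsingular x₃ y₃ := by
    rw [← ex, ← ey]
    exact Affine.nonsingular_add h₁ h₂ fun hxy => h hxy.1
  refine ⟨h3, ?_⟩
  rw [e1, Affine.Point.some.injEq]
  exact ⟨ex, ey⟩

open WeierstrassCurve in
theorem p1_dbl {k : Type} [Field k] [DecidableEq k] (D : k) {x y : k}
    (h₁ : (⟨0, 0, 0, 0, D⟩ : WeierstrassCurve k).toAffine.Nonsingular x y) (h : 2 * y ≠ 0) {x₃ y₃ : k}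
    (hx : x₃ = ((3 * x ^ 2) / (2 * y)) ^ 2 - 2 * x)
    (hy : y₃ = -((3 * x ^ 2) / (2 * y) * (x₃ - x) + y)) :
    ∃ h₃, (Affine.Point.some x y h₁ : (⟨0, 0, 0, 0, D⟩ : WeierstrassCurve k).toAffine.Point) +
      Affine.Point.some x y h₁ = Affine.Point.some x₃ y₃ h₃ := by
  have h2 : y ≠ (⟨0, 0, 0, 0, D⟩ : WeierstrassCurve k).toAffine.negY x y := by
    rw [Affine.negY]
    intro h3
    apply h
    simp only [zero_mul, sub_zero] at h3
    linear_combination h3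
  have hxy : ¬(x = x ∧ y = (⟨0, 0, 0, 0, D⟩ : WeierstrassCurve k).toAffine.negY x y) := fun h' => h2 h'.2
  have e1 : (Affine.Point.some x y h₁ : (⟨0, 0, 0, 0, D⟩ : WeierstrassCurve k).toAffine.Point) +
      Affine.Point.some x y h₁ =
      Affine.Point.some _ _ (Affine.nonsingular_add h₁ h₁ hxy) :=
    Affine.Point.add_some hxy
  have hs : (⟨0, 0, 0, 0, D⟩ : WeierstrassCurve k).toAffine.slope x x y y = (3 * x ^ 2) / (2 * y) := by
    rw [Affine.slope_of_Y_ne rfl h2, Affine.negY]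
    congr 1
    · ring
    · ring
  have ex : (⟨0, 0, 0, 0, D⟩ : WeierstrassCurve k).toAffine.addX x x
      ((⟨0, 0, 0, 0, D⟩ : WeierstrassCurve k).toAffine.slope x x y y) = x₃ := by
    rw [Affine.addX, hs, hx]
    ring
  have ey : (⟨0, 0, 0, 0, D⟩ : WeierstrassCurve k).toAffine.addY x x y
      ((⟨0, 0, 0, 0, D⟩ : WeierstrassCurve k).toAffine.slope x x y y) = y₃ := by
    rw [Affine.addY, Affine.negAddY, Affine.negY, ex, hs, hy]
    ring
  have h3 : (⟨0, 0, 0, 0, D⟩ : WeierstrassCurve k).toAffine.Nonsingular x₃ y₃ := by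
    rw [← ex, ← ey]
    exact Affine.nonsingular_add h₁ h₁ hxy
  refine ⟨h3, ?_⟩
  rw [e1, Affine.Point.some.injEq]
  exact ⟨ex, ey⟩

open WeierstrassCurve in
theorem three_pt {k : Type} [Field k] [CharZero k] [DecidableEq k] (D : k) (hD : D ≠ 0) (X Y : k)
    (h : (⟨0, 0, 0, 0, D⟩ : WeierstrassCurve k).toAffine.Nonsingular X Y) (hX : X ≠ 0)
    (u v x y : k) (hu0 : u ≠ 0) (hu : u * X ^ 2 = X ^ 3 + 4 * D) (hv : v * X ^ 3 = Y * (X ^ 3 - 8 * D))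
    (hx : x * (9 * u ^ 2) = u ^ 3 - 108 * D) (hy : y * (27 * u ^ 3) = v * (u ^ 3 + 216 * D)) :
    ∃ h' : (⟨0, 0, 0, 0, D⟩ : WeierstrassCurve k).toAffine.Nonsingular x y,
      (3 : ℕ) • (Affine.Point.some X Y h : (⟨0, 0, 0, 0, D⟩ : WeierstrassCurve k).toAffine.Point) =
        Affine.Point.some x y h' := by
  have hE : Y ^ 2 = X ^ 3 + D := by
    have h1 := (Affine.equation_iff _ _).1 h.1
    simp only [zero_mul, add_zero] at h1
    exact h1
  by_cases hY : Y = 0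
  · subst hY
    have hD' : D = -X ^ 3 := by linear_combination -hE
    have hu1 : u = -3 * X := by
      have h1 : (u + 3 * X) * X ^ 2 = 0 := by
        rw [hD'] at hu
        linear_combination hu
      rcases mul_eq_zero.1 h1 with h2 | h2
      · linear_combination h2
      · exact absurd h2 (pow_ne_zero 2 hX)
    have hv1 : v = 0 := by
      rw [zero_mul] at hv
      rcases mul_eq_zero.1 hv with h2 | h2
      · exact h2
      · exact absurd h2 (pow_ne_zero 3 hX)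
    have hx1 : x = X := by
      have h1 : (x - X) * (81 * X ^ 2) = 0 := by
        rw [hu1, hD'] at hx
        linear_combination hx
      rcases mul_eq_zero.1 h1 with h2 | h2
      · exact sub_eq_zero.1 h2
      · exact absurd h2 (mul_ne_zero (by norm_num) (pow_ne_zero 2 hX))
    have hy1 : y = 0 := by
      rw [hv1, zero_mul] at hy
      rcases mul_eq_zero.1 hy with h2 | h2
      · exact h2
      · exact absurd h2 (mul_ne_zero (by norm_num) (pow_ne_zero 3 hu0))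
    subst hx1 hy1
    refine ⟨h, ?_⟩
    have h2 : (Affine.Point.some x 0 h : (⟨0, 0, 0, 0, D⟩ : WeierstrassCurve k).toAffine.Point) +
        Affine.Point.some x 0 h = 0 := by
      refine Affine.Point.add_of_Y_eq rfl ?_
      rw [Affine.negY]
      simp
    rw [succ_nsmul, two_nsmul, h2, zero_add]
  · have h2Y : 2 * Y ≠ 0 := mul_ne_zero two_ne_zero hY
    have hk : X ^ 3 + 4 * D ≠ 0 := by
      rw [← hu]
      exact mul_ne_zero hu0 (pow_ne_zero 2 hX)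
    set X2 := ((3 * X ^ 2) / (2 * Y)) ^ 2 - 2 * X with hX2
    set Y2 := -((3 * X ^ 2) / (2 * Y) * (X2 - X) + Y) with hY2
    obtain ⟨h2, e2⟩ := p1_dbl D h h2Y hX2 hY2
    have hdiff : X2 - X = -(3 * X * (X ^ 3 + 4 * D)) / (4 * Y ^ 2) := by
      have hD' : D = Y ^ 2 - X ^ 3 := by linear_combination -hE
      rw [hX2, hD']
      field_simp
      ring
    have hne : X2 ≠ X := by
      intro h0
      rw [h0, sub_self] at hdiff
      have h3 : -(3 * X * (X ^ 3 + 4 * D)) / (4 * Y ^ 2) ≠ 0 :=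
        div_ne_zero (neg_ne_zero.2 (mul_ne_zero (mul_ne_zero three_ne_zero hX) hk))
          (mul_ne_zero (by norm_num) (pow_ne_zero 2 hY))
      exact h3 hdiff.symm
    have hm : (Y2 - Y) / (X2 - X) = (7 * X ^ 6 - 4 * D * X ^ 3 + 16 * D ^ 2) / (6 * X * Y * (X ^ 3 + 4 * D)) := by
      have h3 : Y2 - Y = -(3 * X ^ 2 / (2 * Y)) * (X2 - X) - 2 * Y := by rw [hY2]; ring
      have h4 : X2 - X ≠ 0 := sub_ne_zero.2 hne
      rw [div_eq_div_iff h4 (mul_ne_zero (mul_ne_zero (mul_ne_zero (by norm_num) hX) hY) hk), h3, hdiff]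
      have hD' : D = Y ^ 2 - X ^ 3 := by linear_combination -hE
      rw [hD']
      field_simp
      ring
    have hxx : x = ((Y2 - Y) / (X2 - X)) ^ 2 - X2 - X := by
      have hu' : u = (X ^ 3 + 4 * D) / X ^ 2 := by
        rw [eq_div_iff (pow_ne_zero 2 hX)]
        exact hu
      have hx' : x = (u ^ 3 - 108 * D) / (9 * u ^ 2) := by
        rw [eq_div_iff (mul_ne_zero (by norm_num) (pow_ne_zero 2 hu0))]
        exact hx
      have h5 : X2 = -(3 * X * (X ^ 3 + 4 * D)) / (4 * Y ^ 2) + X := by linear_combination hdiff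
      rw [hm, h5, hx', hu']
      have hD' : D = Y ^ 2 - X ^ 3 := by linear_combination -hE
      have hk' : X ^ 3 + 4 * (Y ^ 2 - X ^ 3) ≠ 0 := by rwa [← hD']
      rw [hD']
      field_simp
      ring
    have hyy : y = -((Y2 - Y) / (X2 - X) * (x - X2) + Y2) := by
      have hu' : u = (X ^ 3 + 4 * D) / X ^ 2 := by
        rw [eq_div_iff (pow_ne_zero 2 hX)]
        exact hu
      have hv' : v = Y * (X ^ 3 - 8 * D) / X ^ 3 := by
        rw [eq_div_iff (pow_ne_zero 3 hX)]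
        exact hv
      have hx' : x = (u ^ 3 - 108 * D) / (9 * u ^ 2) := by
        rw [eq_div_iff (mul_ne_zero (by norm_num) (pow_ne_zero 2 hu0))]
        exact hx
      have hy' : y = v * (u ^ 3 + 216 * D) / (27 * u ^ 3) := by
        rw [eq_div_iff (mul_ne_zero (by norm_num) (pow_ne_zero 3 hu0))]
        exact hy
      have h6 : -((Y2 - Y) / (X2 - X) * (x - X2) + Y2) = -((Y2 - Y) / (X2 - X) * (x - X) + Y) := by
        have h4 : X2 - X ≠ 0 := sub_ne_zero.2 hne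
        field_simp
        ring
      rw [h6, hm, hx', hy', hv', hu']
      exact hyy_aux X Y D _ hk hX hY rfl hE
    obtain ⟨h3, e3⟩ := p1_add D h2 h hne hxx hyy
    refine ⟨h3, ?_⟩
    rw [succ_nsmul, two_nsmul, e2, e3]

theorem three_div {k : Type} [Field k] [CharZero k] [DecidableEq k] (d : k) (hd : d ≠ 0)
    (hi : ∀ x : k, x ^ 2 ≠ -1)
    (hA : ∀ (m : QA k (-1)) (n : k), m.norm = n ^ 3 → n ≠ 0 → ∃ β : QA k (-1), m = β ^ 3)
    (hB : ∀ (m : QA k 27) (n : k), m.norm = n ^ 3 → n ≠ 0 → ∃ β : QA k 27, m = β ^ 3)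
    (P : (⟨0, 0, 0, 0, -d ^ 2⟩ : WeierstrassCurve k).toAffine.Point) : ∃ Q, P = (3 : ℕ) • Q := by
  rcases P with _ | ⟨x, y, h⟩
  · exact ⟨0, (nsmul_zero 3).symm⟩
  · have hE : y ^ 2 = x ^ 3 - d ^ 2 := by
      have h1 := (WeierstrassCurve.Affine.equation_iff _ _).1 h.1
      simp only [zero_mul, add_zero] at h1
      linear_combination h1
    obtain ⟨X, Y, u, v, a1, a2, a3, a4, a5, a6, a7⟩ := div_pts d hd hi
      (fun x y hxy hx => hA ⟨y, -d⟩ x (by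
        rw [QuadraticAlgebra.norm_def]
        linear_combination hxy) hx)
      (fun u v huv hu => hB ⟨v, -d⟩ u (by
        rw [QuadraticAlgebra.norm_def]
        linear_combination huv) hu) x y hE
    have hΔ : (⟨0, 0, 0, 0, -d ^ 2⟩ : WeierstrassCurve k).Δ ≠ 0 := by
      have e : (⟨0, 0, 0, 0, -d ^ 2⟩ : WeierstrassCurve k).Δ = -(432 * d ^ 4) := by
        simp only [WeierstrassCurve.Δ, WeierstrassCurve.b₂, WeierstrassCurve.b₄, WeierstrassCurve.b₆,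
          WeierstrassCurve.b₈]
        ring
      rw [e]
      exact neg_ne_zero.2 (mul_ne_zero (by norm_num) (pow_ne_zero 4 hd))
    have hn : (⟨0, 0, 0, 0, -d ^ 2⟩ : WeierstrassCurve k).toAffine.Nonsingular X Y := by
      refine (WeierstrassCurve.Affine.equation_iff_nonsingular_of_Δ_ne_zero hΔ).1 ?_
      rw [WeierstrassCurve.Affine.equation_iff]
      simp only [zero_mul, add_zero]
      linear_combination a1
    obtain ⟨h', e⟩ := three_pt (-d ^ 2) (neg_ne_zero.2 (pow_ne_zero 2 hd)) X Y hn a2 u v x y a3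
      (by linear_combination a4) (by linear_combination a5) (by linear_combination a6)
      (by linear_combination a7)
    exact ⟨_, e.symm⟩

end H35Z
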