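import Mathlib
import Pool.Agent.Lib.H19Z.L1
import Pool.Agent.Lib.H35X.V12a
import Pool.Agent.Lib.H35Z.Defs

/-! Chunk P8 (M): torsion. Ed_eq: ext, simp. three_zero: a point (x, y) of y^2 = x^3 + D with 3 P = 0: 2 P = -P; y is nonzero (else 2 P = 0 = -P), the slope is 3 x^2/(2 y), x(2P) = 9 x^4/(4 y^2) - 2 x = x, so 9 x^4 = 12 x y^2 = 12 x (x^3 + D), 3 x (x^3 + 4 D) = 0:
x = 0, y^2 = D, or x^3 = -4 D, y^2 = -3 D (see the proof of H35X.no3_pt in H35X/V12.lean). With D = -d^2: y^2 = -d^2 contradicts hi, y^2 = 3 d^2 contradicts h3. finite_torsd: let N be a number field with K in N and δ in N, δ^3 = d (a splitting field or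
AdjoinRoot of an irreducible factor of X^3 - d over K; e.g. N = (X^3 - C d).SplittingField, which is a number field). The map on points E_d(K) -> E_d(N) (Affine.Point.map, injective) and the isomorphism E_d(N) ≃ E_1(N) (H19Z.ZL1_iso or vc_iso with u = δ) give an
injective group homomorphism of E_d(K) into E144(N) = (0,0,0,0,-1); torsion points go to torsion points, H35X.finite_tors144. (Alternatively adapt H35X/V12a.lean to y^2 = x^3 - d^2.) tors_cop: torsd is the order of a finite group (the torsion subgroup),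
Cauchy gives a point of order 3, contradiction with no_three. fin_cop: the same for the whole group. -/

open NumberField IsDedekindDomain WeierstrassCurve

namespace H35Z

open H55B H35T H13E H35X

theorem Ed_eq (d : ℤ) (K : Type) [Field K] [NumberField K] :
    (Ec d).baseChange K = ⟨0, 0, 0, 0, -(d : K) ^ 2⟩ := by
  ext <;> simp [Ec, WeierstrassCurve.baseChange, WeierstrassCurve.map]

theorem p8_coeffs (d : ℤ) (K : Type) [Field K] [NumberField K] :
    ((Ec d).baseChange K).toAffine.a₁ = 0 ∧ ((Ec d).baseChange K).toAffine.a₂ = 0 ∧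
    ((Ec d).baseChange K).toAffine.a₃ = 0 ∧ ((Ec d).baseChange K).toAffine.a₄ = 0 ∧
    ((Ec d).baseChange K).toAffine.a₆ = -(d : K) ^ 2 := by
  refine ⟨?_, ?_, ?_, ?_, ?_⟩ <;>
  simp [Ec, WeierstrassCurve.baseChange, WeierstrassCurve.toAffine, WeierstrassCurve.map]

open Classical in
theorem no_three (d : ℤ) (hd : d ≠ 0) (K : Type) [Field K] [NumberField K] (hi : ∀ x : K, x ^ 2 ≠ -1)
    (h3 : ∀ x : K, x ^ 2 ≠ 3) (P : ((Ec d).baseChange K).toAffine.Point) (hP : (3 : ℕ) • P = 0) : P = 0 := by
  by_contra hP0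
  obtain ⟨h1, h2, h3', h4, h6⟩ := p8_coeffs d K
  have hdK : (d : K) ≠ 0 := Int.cast_ne_zero.2 hd
  cases P with
  | zero => exact hP0 rfl
  | some x y h =>
    have hE : y ^ 2 = x ^ 3 - (d : K) ^ 2 := by
      have h5 := h.1
      rw [WeierstrassCurve.Affine.equation_iff, h1, h2, h3', h4, h6] at h5
      linear_combination h5
    have h2P : WeierstrassCurve.Affine.Point.some x y h + WeierstrassCurve.Affine.Point.some x y h =
        -(WeierstrassCurve.Affine.Point.some x y h) := by
      rw [eq_neg_iff_add_eq_zero, ← hP]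
      rw [show (3 : ℕ) = 2 + 1 from rfl, add_nsmul, one_nsmul, two_nsmul]
    have hx0 : x ≠ 0 := by
      rintro rfl
      refine hi (y / d) ?_
      rw [div_pow, hE, zero_pow (by norm_num), zero_sub, neg_div, div_self (pow_ne_zero 2 hdK)]
    by_cases hy : y = 0
    · have h5 : WeierstrassCurve.Affine.Point.some x y h + WeierstrassCurve.Affine.Point.some x y h = 0 := by
        refine WeierstrassCurve.Affine.Point.add_self_of_Y_eq ?_
        rw [WeierstrassCurve.Affine.negY, h1, h3', hy]
        ring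
      rw [h5] at h2P
      exact hP0 (neg_eq_zero.1 h2P.symm)
    · have hne : y ≠ ((Ec d).baseChange K).toAffine.negY x y := by
        rw [WeierstrassCurve.Affine.negY, h1, h3']
        intro h0
        have : (2 : K) * y = 0 := by linear_combination h0
        rcases mul_eq_zero.mp this with h | h
        · norm_num at h
        · exact hy h
      have hsl : ((Ec d).baseChange K).toAffine.slope x x y y = 3 * x ^ 2 / (2 * y) := by
        rw [WeierstrassCurve.Affine.slope_of_Y_ne rfl hne, WeierstrassCurve.Affine.negY, h1, h2, h3', h4]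
        congr 1
        · ring
        · ring
      rw [WeierstrassCurve.Affine.Point.add_self_of_Y_ne (h₁ := h) hne,
        WeierstrassCurve.Affine.Point.neg_some] at h2P
      simp only [WeierstrassCurve.Affine.Point.some.injEq] at h2P
      obtain ⟨hX, -⟩ := h2P
      rw [hsl, WeierstrassCurve.Affine.addX, h1, h2] at hX
      have h5 : 9 * x ^ 4 = 12 * x * y ^ 2 := by
        have h7 : (3 * x ^ 2 / (2 * y)) ^ 2 = 3 * x := by linear_combination hX
        rw [div_pow, div_eq_iff (pow_ne_zero 2 (mul_ne_zero two_ne_zero hy))] at h7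
        linear_combination h7
      have h7 : x ^ 3 = 4 * (d : K) ^ 2 := by
        have : (3 * x) * (x ^ 3 - 4 * (d : K) ^ 2) = 0 := by
          linear_combination (-1) * h5 + (-12 * x) * hE
        rcases mul_eq_zero.mp this with h | h
        · exact absurd h (mul_ne_zero (by norm_num) hx0)
        · linear_combination h
      have hy2 : y ^ 2 = 3 * (d : K) ^ 2 := by
        rw [hE, h7]; ring
      refine h3 (y / d) ?_
      rw [div_pow, hy2, mul_div_assoc, div_self (pow_ne_zero 2 hdK), mul_one]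

theorem p8_ell {k : Type} [Field k] [CharZero k] (W : WeierstrassCurve k) (h1 : W.a₁ = 0) (h2 : W.a₂ = 0)
    (h3 : W.a₃ = 0) (h4 : W.a₄ = 0) (h6 : W.a₆ ≠ 0) : W.IsElliptic := by
  refine ⟨?_⟩
  have h : W.Δ = -432 * W.a₆ ^ 2 := by
    simp only [WeierstrassCurve.Δ, WeierstrassCurve.b₂, WeierstrassCurve.b₄, WeierstrassCurve.b₆,
      WeierstrassCurve.b₈, h1, h2, h3, h4]
    ring
  rw [h]
  exact (mul_ne_zero (by norm_num) (pow_ne_zero 2 h6)).isUnit

/-- An extension of K containing a cube root of d. -/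
theorem p8_field (d : ℤ) (K : Type) [Field K] [NumberField K] :
    ∃ (N : Type) (_ : Field N) (_ : NumberField N) (_ : Algebra K N) (δ : N), δ ^ 3 = (d : N) := by
  obtain ⟨z, hz⟩ := IsAlgClosed.exists_pow_nat_eq ((d : AlgebraicClosure K)) (n := 3) (by norm_num)
  have hint : IsIntegral K z := (AlgebraicClosure.isAlgebraic K).isAlgebraic z |>.isIntegral
  have hfd : FiniteDimensional K (IntermediateField.adjoin K {z}) := IntermediateField.adjoin.finiteDimensional hint
  refine ⟨IntermediateField.adjoin K {z}, inferInstance, NumberField.of_module_finite K _, inferInstance,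
    IntermediateField.AdjoinSimple.gen K z, ?_⟩
  apply Subtype.ext
  show ((IntermediateField.AdjoinSimple.gen K z : IntermediateField.adjoin K {z}) : AlgebraicClosure K) ^ 3 =
    ((d : IntermediateField.adjoin K {z}) : AlgebraicClosure K)
  rw [IntermediateField.AdjoinSimple.coe_gen, hz]
  push_cast
  rfl

open Classical in
/-- The map from the points over K of the curve to those of E144 over N. -/
theorem p8_map (d : ℤ) (hd : d ≠ 0) (K N : Type) [Field K] [NumberField K] [Field N] [NumberField N] [Algebra K N]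
    (δ : N) (hδ : δ ^ 3 = (d : N)) : ∃ g : ((Ec d).baseChange K).toAffine.Point →+ (E144.baseChange N).toAffine.Point,
      Function.Injective g := by
  let f : K →ₐ[ℚ] N := (algebraMap K N).toRatAlgHom
  let g : ((Ec d).baseChange K).toAffine.Point →+ ((Ec d).baseChange N).toAffine.Point :=
    WeierstrassCurve.Affine.Point.map (W' := Ec d) f
  have hg : Function.Injective g := WeierstrassCurve.Affine.Point.map_injective (W' := Ec d) f
  have hdN : (d : N) ≠ 0 := Int.cast_ne_zero.2 hd
  have hδ0 : δ ≠ 0 := by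
    rintro rfl
    rw [zero_pow (by norm_num)] at hδ
    exact hdN hδ.symm
  obtain ⟨a1, a2, a3, a4, a6⟩ := H35T.A16_coeffs N
  obtain ⟨b1, b2, b3, b4, b6⟩ := p8_coeffs d N
  change (E144.baseChange N).a₁ = 0 at a1
  change (E144.baseChange N).a₂ = 0 at a2
  change (E144.baseChange N).a₃ = 0 at a3
  change (E144.baseChange N).a₄ = 0 at a4
  change (E144.baseChange N).a₆ = -1 at a6
  change ((Ec d).baseChange N).a₁ = 0 at b1
  change ((Ec d).baseChange N).a₂ = 0 at b2
  change ((Ec d).baseChange N).a₃ = 0 at b3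
  change ((Ec d).baseChange N).a₄ = 0 at b4
  change ((Ec d).baseChange N).a₆ = _ at b6
  have i1 : (E144.baseChange N).IsElliptic := p8_ell _ a1 a2 a3 a4 (by rw [a6]; norm_num)
  have i2 : ((Ec d).baseChange N).IsElliptic := p8_ell _ b1 b2 b3 b4 (by
    rw [b6]
    exact neg_ne_zero.2 (pow_ne_zero 2 hdN))
  have D : H19Z.ZL1_D (E144.baseChange N) ((Ec d).baseChange N) δ 0 0 0 := by
    refine ⟨hδ0, ?_, ?_, ?_, ?_, ?_⟩
    · rw [a1, b1]; ring
    · rw [a2, b2, b1]; ring
    · rw [a3, b3, b1]; ring
    · rw [a4, b4, b3, b2, b1]; ring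
    · rw [a6, b6, b4, b3, b2, b1, ← hδ]; ring
  let h := (H19Z.ZL1_iso D).symm
  exact ⟨h.toAddMonoidHom.comp g, h.injective.comp hg⟩

open Classical in
theorem finite_torsd (d : ℤ) (hd : d ≠ 0) (K : Type) [Field K] [NumberField K] :
    Finite {P : ((Ec d).baseChange K).toAffine.Point // IsOfFinAddOrder P} := by
  obtain ⟨N, iF, iN, iA, δ, hδ⟩ := p8_field d K
  obtain ⟨g, hg⟩ := p8_map d hd K N δ hδ
  have hfin := finite_tors144 N
  refine Finite.of_injective (fun P : {P : ((Ec d).baseChange K).toAffine.Point // IsOfFinAddOrder P} =>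
    (⟨g P.1, g.isOfFinAddOrder P.2⟩ : {P : (E144.baseChange N).toAffine.Point // IsOfFinAddOrder P})) ?_
  intro P Q hPQ
  exact Subtype.ext (hg (congrArg Subtype.val hPQ))

theorem tors_cop (d : ℤ) (hd : d ≠ 0) (K : Type) [Field K] [NumberField K] (hi : ∀ x : K, x ^ 2 ≠ -1)
    (h3 : ∀ x : K, x ^ 2 ≠ 3) : ¬ 3 ∣ torsd d K := by
  classical
  let T : AddSubgroup ((Ec d).baseChange K).toAffine.Point :=
    AddCommGroup.torsion ((Ec d).baseChange K).toAffine.Point
  have hTfin : Finite T := by
    have h := finite_torsd d hd K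
    exact h
  have hcard : torsd d K = Nat.card T := by
    unfold torsd
    exact Nat.card_congr (Equiv.refl _)
  rw [hcard]
  intro hdv
  have : Fact (Nat.Prime 3) := ⟨Nat.prime_three⟩
  obtain ⟨P, hP⟩ := exists_prime_addOrderOf_dvd_card' (G := T) 3 hdv
  have h1 : (3 : ℕ) • P = 0 := by
    have h2 := addOrderOf_nsmul_eq_zero P
    rwa [hP] at h2
  have h2 : (3 : ℕ) • P.1 = 0 := by
    have h3 := congrArg (fun Q : T => Q.1) h1
    simpa using h3
  have h4 := no_three d hd K hi h3 _ h2
  have h5 : P = 0 := Subtype.ext h4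
  rw [h5, addOrderOf_zero] at hP
  omega

theorem fin_cop (d : ℤ) (hd : d ≠ 0) (K : Type) [Field K] [NumberField K] (hi : ∀ x : K, x ^ 2 ≠ -1)
    (h3 : ∀ x : K, x ^ 2 ≠ 3) (hf : Finite ((Ec d).baseChange K).toAffine.Point) :
    ¬ 3 ∣ Nat.card ((Ec d).baseChange K).toAffine.Point := by
  classical
  intro hdv
  have : Fact (Nat.Prime 3) := ⟨Nat.prime_three⟩
  obtain ⟨P, hP⟩ := exists_prime_addOrderOf_dvd_card' (G := ((Ec d).baseChange K).toAffine.Point) 3 hdv
  have h1 : (3 : ℕ) • P = 0 := by
    have h2 := addOrderOf_nsmul_eq_zero P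
    rwa [hP] at h2
  have h4 := no_three d hd K hi h3 _ h1
  rw [h4, addOrderOf_zero] at hP
  omega

end H35Z
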