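import Mathlib
import Pool.Agent.Lib.H35Z.D5
import Pool.Agent.Lib.H35Z.P1
import Pool.Agent.Lib.H35Z.P8

/-! Chunk P9 (M): finiteness of E_d(K). height_cub: as H35T.height_lam (A16.lean): forms A = a X^3 + b Z^3, B = c X^2 Z, a, b, c nonzero: X^5 and Z^5 are combinations: a X^5 = X^2 A - (b/c) Z^2 B, and Z^5: b Z^5 = Z^2 A - (a/c) X Z B (X^3 Z^2 = X Z (X^2 Z)).
kummer1: (x, y) in E_d(K), x nonzero: the element m = y + d T (of y + of d * root) of Qd K has norm y^2 + d^2 = x^3 and is in Seld d K: locally m (y - d T) = x^3 (T^2 = -1) with the same point (x, y) in K_w, x nonzero in K_w. So m is a cube (SelZ.1), and ⟨y, -d⟩ in QA K (-1) is a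
cube: m' = y - d T = x^3/m (or the conjugate of m; star in QA), transport between AdjoinRoot and QA by the ring homomorphism of chunk D5 (locImd_iff) / AdjoinRoot.lift. kummer2: the same for v^2 = u^3 + 27 d^2, SelZ.2.
E_finite: div_pts (P1) with h1 = kummer1, h2 = kummer2: for every (x, y) on E_d(K) there are (X, Y) on E_d(K), X nonzero, u, v with the four relations; x = (u^3 + 108 d^2)/(9 u^2), u = (X^3 - 4 d^2)/X^2, so by height_cub twice
9 h(X) - C <= h(x); (x, y) is determined by (X, Y) (u, v, x, y are determined). Then as in H35T.E_fin: g(x, y) = (X, Y) is injective; if q has h(q) = c > C/8 then g maps the finite set (Northcott: copy H35T.A16_northcott for y^2 = x^3 - d^2) of solutions of height at most c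
into itself, injectively, so surjectively: q = g q', h(q') <= c, 9 c - C <= c, contradiction. So finitely many solutions. -/

open NumberField IsDedekindDomain WeierstrassCurve Polynomial

namespace H35Z

open H55B H35T H13E H35X

/-- The coefficients of the certificate. -/
noncomputable def P9_q (K : Type*) [Field K] (a b c : K) : Fin 2 × Fin 2 → MvPolynomial (Fin 2) K := fun p =>
  (![![MvPolynomial.C a⁻¹ * MvPolynomial.X 0 ^ 2, MvPolynomial.C (-(b * a⁻¹ * c⁻¹)) * MvPolynomial.X 1 ^ 2],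
    ![MvPolynomial.C b⁻¹ * MvPolynomial.X 1 ^ 2,
      MvPolynomial.C (-(a * b⁻¹ * c⁻¹)) * (MvPolynomial.X 0 * MvPolynomial.X 1)]] :
      Fin 2 → Fin 2 → _) p.1 p.2

theorem P9_hom (K : Type*) [Field K] (a b c : K) (p : Fin 2 × Fin 2) : (P9_q K a b c p).IsHomogeneous 2 := by
  have h0 : (MvPolynomial.X 0 : MvPolynomial (Fin 2) K).IsHomogeneous 1 := MvPolynomial.isHomogeneous_X _ _
  have h1 : (MvPolynomial.X 1 : MvPolynomial (Fin 2) K).IsHomogeneous 1 := MvPolynomial.isHomogeneous_X _ _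
  obtain ⟨i, j⟩ := p
  fin_cases i <;> fin_cases j
  · exact (h0.pow 2).C_mul _
  · exact (h1.pow 2).C_mul _
  · exact (h1.pow 2).C_mul _
  · exact (h0.mul h1).C_mul _

theorem height_cub (K : Type) [Field K] [NumberField K] (a b c : K) (ha : a ≠ 0) (hb : b ≠ 0) (hc : c ≠ 0) :
    ∃ B : ℝ, 0 ≤ B ∧ ∀ x : K, x ≠ 0 →
      3 * Height.logHeight₁ x - B ≤ Height.logHeight₁ ((a * x ^ 3 + b) / (c * x ^ 2)) := by
  obtain ⟨C₀, hC₀⟩ := Height.logHeight_eval_ge' (K := K) (N := 3) (P9_hom K a b c)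
  refine ⟨max (-C₀) 0, le_max_right _ _, fun x _ => ?_⟩
  have h := hC₀ (![MvPolynomial.C a * MvPolynomial.X 0 ^ 3 + MvPolynomial.C b * MvPolynomial.X 1 ^ 3,
    MvPolynomial.C c * (MvPolynomial.X 0 ^ 2 * MvPolynomial.X 1)] :
    Fin 2 → MvPolynomial (Fin 2) K) (x := ![x, 1]) (by
      intro k
      fin_cases k
      · simp only [P9_q, Fin.sum_univ_two]
        simp
        field_simp
        ring
      · simp only [P9_q, Fin.sum_univ_two]
        simp
        field_simp
        ring)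
  rw [Height.logHeight₁_div_eq_logHeight, Height.logHeight₁_eq_logHeight]
  have e : (fun j => (MvPolynomial.eval ![x, 1]) ((![MvPolynomial.C a * MvPolynomial.X 0 ^ 3 +
      MvPolynomial.C b * MvPolynomial.X 1 ^ 3,
      MvPolynomial.C c * (MvPolynomial.X 0 ^ 2 * MvPolynomial.X 1)] :
      Fin 2 → MvPolynomial (Fin 2) K) j)) = ![a * x ^ 3 + b, c * x ^ 2] := by
    funext j
    fin_cases j
    · simp
    · simp
  rw [e] at h
  push_cast at h
  have := le_max_left (-C₀) 0
  linarith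

theorem P9_star {K : Type} [Field K] {f : K[X]} {c : K} (hf : f = X ^ 2 + C c) (B : K) (hB : B = -c)
    (p q : K) (h : ∃ b : AdjoinRoot f, AdjoinRoot.of f p + AdjoinRoot.of f q * AdjoinRoot.root f = b ^ 3) :
    ∃ κ : QA K B, (⟨p, -q⟩ : QA K B) = κ ^ 3 := by
  obtain ⟨β, hβ⟩ := h
  have ht : eval₂ (algebraMap K (QA K B)) ⟨0, -1⟩ f = 0 := by
    rw [hf, eval₂_add, eval₂_pow, eval₂_X, eval₂_C, pow_two]
    refine QuadraticAlgebra.ext ?_ ?_
    · rw [QuadraticAlgebra.re_add, QuadraticAlgebra.re_mul, QuadraticAlgebra.algebraMap_re, hB]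
      show 0 * 0 + -c * -1 * -1 + c = 0
      ring
    · rw [QuadraticAlgebra.im_add, QuadraticAlgebra.im_mul, QuadraticAlgebra.algebraMap_im]
      show (0 : K) * -1 + -1 * 0 + 0 * -1 * -1 + 0 = 0
      ring
  refine ⟨AdjoinRoot.lift (algebraMap K (QA K B)) ⟨0, -1⟩ ht β, ?_⟩
  rw [← map_pow, ← hβ, map_add, map_mul, AdjoinRoot.lift_of, AdjoinRoot.lift_of, AdjoinRoot.lift_root]
  refine QuadraticAlgebra.ext ?_ ?_
  · rw [QuadraticAlgebra.re_add, QuadraticAlgebra.re_mul, QuadraticAlgebra.algebraMap_re,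
      QuadraticAlgebra.algebraMap_re, QuadraticAlgebra.algebraMap_im]
    show p = p + (q * 0 + B * 0 * -1)
    ring
  · rw [QuadraticAlgebra.im_add, QuadraticAlgebra.im_mul, QuadraticAlgebra.algebraMap_re,
      QuadraticAlgebra.algebraMap_im, QuadraticAlgebra.algebraMap_im]
    show -q = 0 + (q * -1 + 0 * 0 + 0 * 0 * -1)
    ring

theorem P9_unit {K : Type} [Field K] {f : K[X]} {c : K} (hf : f = X ^ 2 + C c) (p q x : K) (hx : x ≠ 0)
    (h : p ^ 2 + c * q ^ 2 = x ^ 3) :
    IsUnit (AdjoinRoot.of f p + AdjoinRoot.of f q * AdjoinRoot.root f) := by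
  have hr := SG_root hf
  have h1 : (AdjoinRoot.of f p + AdjoinRoot.of f q * AdjoinRoot.root f) *
      (AdjoinRoot.of f p - AdjoinRoot.of f q * AdjoinRoot.root f) = AdjoinRoot.of f (x ^ 3) := by
    rw [← h, map_add, map_mul, map_pow, map_pow]
    linear_combination (-(AdjoinRoot.of f q) ^ 2) * hr
  have h2 : IsUnit (AdjoinRoot.of f (x ^ 3)) := (IsUnit.mk0 _ (pow_ne_zero 3 hx)).map _
  rw [← h1] at h2
  exact isUnit_of_mul_isUnit_left h2

theorem P9_lid {k : Type} [Field k] (B d x y : k) (hxy : y ^ 2 = x ^ 3 + B * d ^ 2) (hx : x ≠ 0) :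
    LId k B d ⟨y, d⟩ := by
  refine ⟨x, y, hxy, hx, algebraMap k (QA k B) x, ?_⟩
  rw [← map_pow]
  refine QuadraticAlgebra.ext ?_ ?_
  · rw [QuadraticAlgebra.re_mul, QuadraticAlgebra.algebraMap_re]
    show y * y + B * d * -d = x ^ 3
    linear_combination hxy
  · rw [QuadraticAlgebra.im_mul, QuadraticAlgebra.algebraMap_im]
    show y * -d + d * y + 0 * d * -d = 0
    ring

theorem kummer1 {K : Type} [Field K] [NumberField K] (d : ℤ) (hs : SelZ d K) (x y : K)
    (hxy : y ^ 2 = x ^ 3 - (d : K) ^ 2) (hx : x ≠ 0) :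
    ∃ κ : QA K (-1), (⟨y, -(d : K)⟩ : QA K (-1)) = κ ^ 3 := by
  refine P9_star (f := X ^ 2 + C 1) (c := 1) rfl (-1) rfl y d (hs.1 _ ⟨?_, ⟨x, ?_⟩, fun w => ?_⟩)
  · exact P9_unit (f := X ^ 2 + C 1) (c := 1) rfl y d x hx (by rw [hxy]; ring)
  · rw [SG_norm (f := X ^ 2 + C 1) (c := 1) rfl, hxy]
    ring
  · have e2 : qmap (algebraMap K (w.adicCompletion K))
        (AdjoinRoot.of _ y + AdjoinRoot.of _ (d : K) * AdjoinRoot.root _ : Qd K) =
        AdjoinRoot.of _ (algebraMap K (w.adicCompletion K) y) +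
          AdjoinRoot.of _ (algebraMap K (w.adicCompletion K) (d : K)) * AdjoinRoot.root _ := by
      unfold qmap
      rw [map_add, map_mul, AdjoinRoot.map_of, AdjoinRoot.map_of, AdjoinRoot.map_root]
    rw [e2, locImd_iff]
    have h1 := P9_lid (-1) (d : w.adicCompletion K) (algebraMap K (w.adicCompletion K) x)
      (algebraMap K (w.adicCompletion K) y) (by
        rw [← map_pow, hxy, map_sub, map_pow, map_pow, map_intCast]
        ring) (by
        rw [Ne, map_eq_zero]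
        exact hx)
    rw [map_intCast]
    exact h1

theorem kummer2 {K : Type} [Field K] [NumberField K] (d : ℤ) (hs : SelZ d K) (x y : K)
    (hxy : y ^ 2 = x ^ 3 + 27 * (d : K) ^ 2) (hx : x ≠ 0) :
    ∃ κ : QA K 27, (⟨y, -(d : K)⟩ : QA K 27) = κ ^ 3 := by
  refine P9_star (f := X ^ 2 - C 27) (c := -27) d5_f 27 (by rw [neg_neg]) y d
    (hs.2 _ ⟨?_, ⟨x, ?_⟩, fun w => ?_⟩)
  · exact P9_unit (f := X ^ 2 - C 27) (c := -27) d5_f y d x hx (by rw [hxy]; ring)
  · rw [SG_norm (f := X ^ 2 - C 27) (c := -27) d5_f, hxy]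
    ring
  · have e2 : emap (algebraMap K (w.adicCompletion K))
        (AdjoinRoot.of _ y + AdjoinRoot.of _ (d : K) * AdjoinRoot.root _ : Qe K) =
        AdjoinRoot.of _ (algebraMap K (w.adicCompletion K) y) +
          AdjoinRoot.of _ (algebraMap K (w.adicCompletion K) (d : K)) * AdjoinRoot.root _ := by
      unfold emap
      rw [map_add, map_mul, AdjoinRoot.map_of, AdjoinRoot.map_of, AdjoinRoot.map_root]
    rw [e2, locImEd_iff]
    have h1 := P9_lid 27 (d : w.adicCompletion K) (algebraMap K (w.adicCompletion K) x)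
      (algebraMap K (w.adicCompletion K) y) (by
        rw [← map_pow, hxy, map_add, map_mul, map_pow, map_pow, map_intCast, map_ofNat]) (by
        rw [Ne, map_eq_zero]
        exact hx)
    rw [map_intCast]
    exact h1

/-- solutions of bounded height are finite in number -/
theorem P9_northcott (K : Type) [Field K] [NumberField K] (c : K) (B : ℝ) :
    {q : K × K | q.2 ^ 2 = q.1 ^ 3 - c ∧ Height.logHeight₁ q.1 ≤ B}.Finite := by
  have hS := NumberField.finite_setOfPred_logHeight₁_le K B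
  have hy : ∀ c : K, {y : K | y ^ 2 = c}.Finite := by
    intro c
    by_cases hne : ∃ y₀ : K, y₀ ^ 2 = c
    · obtain ⟨y₀, hy₀⟩ := hne
      refine (Set.toFinite ({y₀, -y₀} : Set K)).subset fun y hy => ?_
      have hy' : y ^ 2 = c := hy
      rw [← hy₀] at hy'
      rcases sq_eq_sq_iff_eq_or_eq_neg.1 hy' with h | h
      · exact Or.inl h
      · exact Or.inr h
    · refine (Set.finite_empty).subset fun y hy => ?_
      exact (hne ⟨y, hy⟩).elim
  have hT : (⋃ x ∈ {x : K | Height.logHeight₁ x ≤ B},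
      (fun y : K => (x, y)) '' {y : K | y ^ 2 = x ^ 3 - c}).Finite :=
    hS.biUnion fun x _ => (hy (x ^ 3 - c)).image _
  refine hT.subset ?_
  rintro ⟨x, y⟩ ⟨h1, h2⟩
  simp only [Set.mem_iUnion]
  exact ⟨x, h2, y, h1, rfl⟩

theorem P9_eqn (d : ℤ) (K : Type) [Field K] [NumberField K] (x y : K)
    (h : ((Ec d).baseChange K).toAffine.Nonsingular x y) : y ^ 2 = x ^ 3 - (d : K) ^ 2 := by
  have h1 := h.1
  rw [Affine.equation_iff] at h1
  have e : (Ec d).baseChange K = ⟨0, 0, 0, 0, -(d : K) ^ 2⟩ := Ed_eq d K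
  rw [e] at h1
  dsimp only at h1
  linear_combination h1

theorem E_finite (d : ℤ) (hd : d ≠ 0) (K : Type) [Field K] [NumberField K] (hi : ∀ x : K, x ^ 2 ≠ -1)
    (hs : SelZ d K) : Finite ((Ec d).baseChange K).toAffine.Point := by
  classical
  have hdK : (d : K) ≠ 0 := Int.cast_ne_zero.2 hd
  have hd2 : (d : K) ^ 2 ≠ 0 := pow_ne_zero 2 hdK
  have h9 : (9 : K) ≠ 0 := by norm_num
  have h27 : (27 : K) ≠ 0 := by norm_num
  obtain ⟨B₁, hB₁, hh₁⟩ := height_cub K 1 (-(4 * (d : K) ^ 2)) 1 one_ne_zero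
    (neg_ne_zero.2 (mul_ne_zero (by norm_num) hd2)) one_ne_zero
  obtain ⟨B₂, hB₂, hh₂⟩ := height_cub K 1 (108 * (d : K) ^ 2) 9 one_ne_zero
    (mul_ne_zero (by norm_num) hd2) h9
  have hdiv := div_pts (d : K) hdK hi (fun x y h hx => kummer1 d hs x y h hx)
    (fun x y h hx => kummer2 d hs x y h hx)
  set S : Set (K × K) := {q | q.2 ^ 2 = q.1 ^ 3 - (d : K) ^ 2} with hS
  choose! X Y U V hXY hX0 hU0 hU hV hx hy using hdiv
  let g : K × K → K × K := fun q => (X q.1 q.2, Y q.1 q.2)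
  have hgS : ∀ q ∈ S, g q ∈ S := fun q hq => hXY q.1 q.2 hq
  have hginj : Set.InjOn g S := by
    intro q hq q' hq' h
    have e1 : X q.1 q.2 = X q'.1 q'.2 := congrArg Prod.fst h
    have e2 : Y q.1 q.2 = Y q'.1 q'.2 := congrArg Prod.snd h
    have c0 := hX0 q.1 q.2 hq
    have u1 := hU q.1 q.2 hq
    have u2 := hU q'.1 q'.2 hq'
    have v1 := hV q.1 q.2 hq
    have v2 := hV q'.1 q'.2 hq'
    rw [← e1] at u2
    rw [← e1, ← e2] at v2
    have e3 : U q.1 q.2 = U q'.1 q'.2 := by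
      refine mul_right_cancel₀ (pow_ne_zero 2 c0) ?_
      rw [u1, u2]
    have e4 : V q.1 q.2 = V q'.1 q'.2 := by
      refine mul_right_cancel₀ (pow_ne_zero 3 c0) ?_
      rw [v1, v2]
    have a1 := hx q.1 q.2 hq
    have a2 := hx q'.1 q'.2 hq'
    have b1 := hy q.1 q.2 hq
    have b2 := hy q'.1 q'.2 hq'
    have w0 := hU0 q.1 q.2 hq
    rw [← e3] at a2
    rw [← e3, ← e4] at b2
    have d1 : q.1 = q'.1 := by
      refine mul_right_cancel₀ (mul_ne_zero h9 (pow_ne_zero 2 w0)) ?_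
      rw [a1, a2]
    have d2 : q.2 = q'.2 := by
      refine mul_right_cancel₀ (mul_ne_zero h27 (pow_ne_zero 3 w0)) ?_
      rw [b1, b2]
    exact Prod.ext d1 d2
  have hgh : ∀ q ∈ S, 9 * Height.logHeight₁ (g q).1 - (3 * B₁ + B₂) ≤ Height.logHeight₁ q.1 := by
    intro q hq
    have c0 := hX0 q.1 q.2 hq
    have w0 := hU0 q.1 q.2 hq
    have a1 := hx q.1 q.2 hq
    have u1 := hU q.1 q.2 hq
    have h1 := hh₁ (X q.1 q.2) c0
    have h2 := hh₂ (U q.1 q.2) w0
    have e1 : (1 * X q.1 q.2 ^ 3 + -(4 * (d : K) ^ 2)) / (1 * X q.1 q.2 ^ 2) = U q.1 q.2 := by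
      rw [div_eq_iff (mul_ne_zero one_ne_zero (pow_ne_zero 2 c0))]
      linear_combination -u1
    have e2 : (1 * U q.1 q.2 ^ 3 + 108 * (d : K) ^ 2) / (9 * U q.1 q.2 ^ 2) = q.1 := by
      rw [div_eq_iff (mul_ne_zero h9 (pow_ne_zero 2 w0))]
      linear_combination -a1
    rw [e1] at h1
    rw [e2] at h2
    show 9 * Height.logHeight₁ (X q.1 q.2) - (3 * B₁ + B₂) ≤ Height.logHeight₁ q.1
    linarith
  set B := 3 * B₁ + B₂ with hB
  have hbd : ∀ q ∈ S, Height.logHeight₁ q.1 ≤ B / 8 := by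
    intro q hq
    by_contra hcon
    push Not at hcon
    set C := Height.logHeight₁ q.1 with hC
    have hfin : ({p ∈ S | Height.logHeight₁ p.1 ≤ C}).Finite := P9_northcott K ((d : K) ^ 2) C
    have hmaps : Set.MapsTo g {p ∈ S | Height.logHeight₁ p.1 ≤ C} {p ∈ S | Height.logHeight₁ p.1 ≤ C} := by
      rintro p ⟨hp, hpC⟩
      refine ⟨hgS p hp, ?_⟩
      have := hgh p hp
      have : 0 ≤ B := by positivity
      linarith
    have hsurj := (Set.Finite.injOn_iff_bijOn_of_mapsTo hfin hmaps).1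
      (hginj.mono fun p hp => hp.1)
    obtain ⟨p, ⟨hp, hpC⟩, hpq⟩ := hsurj.surjOn ⟨hq, hC.symm.le.trans le_rfl⟩
    have h1 := hgh p hp
    rw [hpq] at h1
    linarith
  have hSfin : S.Finite := (P9_northcott K ((d : K) ^ 2) (B / 8)).subset fun q hq => ⟨hq, hbd q hq⟩
  have hSf : Finite S := hSfin.to_subtype
  let φ : ((Ec d).baseChange K).toAffine.Point → Option S := fun P =>
    match P with
    | .zero => none
    | .some x y h => some ⟨(x, y), P9_eqn d K x y h⟩
  refine Finite.of_injective φ ?_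
  intro P Q h
  cases P with
  | zero =>
    cases Q with
    | zero => rfl
    | some x y h' => simp [φ] at h
  | some x y h' =>
    cases Q with
    | zero => simp [φ] at h
    | some x' y' h'' =>
      simp only [φ, Option.some.injEq, Subtype.mk.injEq, Prod.mk.injEq] at h
      obtain ⟨rfl, rfl⟩ := h
      rfl

end H35Z
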