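import Mathlib
import Pool.Agent.Lib.H19T.A9b
import Pool.Agent.Lib.H35Z.Defs

/-! Chunk A11 (M): subfields of 3-extensions, relative form. relT_rank, relT_step, relT_unr: the proofs of H35X.sub6T_rank, t1_exists_sub6T, sub6T_unr (H35X/T1.lean) with the base field
F replaced by M (all fields between M and L are intermediate fields; the field K found is an intermediate field N of K'/M; its algebra structure over F is
((algebraMap M N).comp (algebraMap F M)).toAlgebra, and the scalar towers over F are IsScalarTower.of_algebraMap_eq with algebraMap F K' x = algebraMap M K' (algebraMap F M x)).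
relT_unr_top: K between M and K' in a RelT: for w above 3 in K', e(w|M) = 1 (relT_unr for K') = e(w|K) e(.|M), so e(w|K) = 1. cls3T_cases: H35X.cls6T_cases and T3_case1 (H35X/T3.lean) word for word
(Unr3 in place of UnrSix). -/

open NumberField IsDedekindDomain

namespace H35Z

open H55B H35T H13E H35X

theorem relT_rank {M K : Type} [Field M] [NumberField M] [Field K] [NumberField K] [Algebra M K]
    (hS : RelT M K) : ∃ k : ℕ, Module.finrank M K = 3 ^ k := by
  obtain ⟨L, _, _, _, _, _, -, ⟨k, hk⟩, -⟩ := hS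
  have h1 := Module.finrank_mul_finrank M K L
  have h2 : Module.finrank M K ∣ 3 ^ k := by
    rw [← hk, ← h1]
    exact dvd_mul_right _ _
  obtain ⟨j, -, hj⟩ := (Nat.dvd_prime_pow Nat.prime_three).1 h2
  exact ⟨j, hj⟩

theorem a11_above {K L : Type} [Field K] [NumberField K] [Field L] [NumberField L] [Algebra K L]
    (w : HeightOneSpectrum (𝓞 K)) :
    ∃ W : HeightOneSpectrum (𝓞 L), W.asIdeal.LiesOver w.asIdeal := by
  have hm := w.isMaximal
  obtain ⟨Q, hQ1, hQ2⟩ := Ideal.exists_maximal_ideal_liesOver_of_isIntegral (S := 𝓞 L) w.asIdeal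
  exact ⟨⟨Q, hQ1.isPrime, Ideal.ne_bot_of_liesOver_of_ne_bot w.ne_bot Q⟩, hQ2⟩

theorem relT_step {M K' : Type} [Field M] [NumberField M] [Algebra F M] [Field K'] [NumberField K']
    [Algebra F K'] [Algebra M K'] [IsScalarTower F M K'] (hS : RelT M K')
    (hn : Module.finrank M K' ≠ 1) :
    ∃ (K : Type) (_ : Field K) (_ : NumberField K) (_ : Algebra F K) (_ : Algebra M K)
      (_ : Algebra K K') (_ : IsScalarTower F M K) (_ : IsScalarTower F K K')
      (_ : IsScalarTower M K K'), RelT M K ∧ Module.finrank K K' = 3 ∧ IsGalois K K' := by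
  obtain ⟨L, _, _, _, _, _, hG, ⟨k, hk⟩, hU⟩ := hS
  have : FiniteDimensional M L := Module.finite_of_finrank_pos (by rw [hk]; positivity)
  let f : K' →ₐ[M] L := IsScalarTower.toAlgHom M K' L
  let E' : IntermediateField M L := f.fieldRange
  let E : K' ≃ₐ[M] E' := AlgEquiv.ofInjectiveField f
  have h1 : Module.finrank M E' = Module.finrank M K' := E.toLinearEquiv.finrank_eq.symm
  have h2 : Module.finrank M E' * Module.finrank E' L = 3 ^ k := by
    rw [Module.finrank_mul_finrank, hk]
  obtain ⟨j, hj, hj2⟩ := (Nat.dvd_prime_pow Nat.prime_three).1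
    (Dvd.intro_left _ h2 : Module.finrank E' L ∣ 3 ^ k)
  have h3 : Nat.card E'.fixingSubgroup = 3 ^ j := by
    rw [IsGalois.card_fixingSubgroup_eq_finrank, hj2]
  have hcardG : Nat.card (L ≃ₐ[M] L) = 3 ^ k := by
    rw [IsGalois.card_aut_eq_finrank, hk]
  have hjk : j < k := by
    rcases lt_or_eq_of_le hj with h | h
    · exact h
    · exfalso
      apply hn
      rw [hj2, h, h1] at h2
      have h4 : (0 : ℕ) < 3 ^ k := by positivity
      exact Nat.eq_of_mul_eq_mul_right h4 (by rw [one_mul]; exact h2)
  have := Fact.mk Nat.prime_three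
  obtain ⟨H, hH, hle⟩ := Sylow.exists_subgroup_card_pow_succ (p := 3) (G := L ≃ₐ[M] L) (n := j)
    (by rw [hcardG]; exact pow_dvd_pow 3 hjk) h3
  let M₂ : IntermediateField M L := IntermediateField.fixedField H
  have hM : M₂ ≤ E' := by
    intro x hx
    rw [← IsGalois.fixedField_fixingSubgroup E', IntermediateField.mem_fixedField_iff]
    intro σ hσ
    exact (IntermediateField.mem_fixedField_iff H x).1 hx σ (hle hσ)
  let N : IntermediateField M K' := M₂.comap f
  have hN : N.map f = M₂ := by
    ext x
    constructor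
    · rintro ⟨y, hy, rfl⟩
      exact hy
    · intro hx
      obtain ⟨y, hy⟩ := hM hx
      have hy' : f y = x := hy
      refine ⟨y, ?_, hy⟩
      show f y ∈ M₂
      rw [hy']
      exact hx
  have h5 : Module.finrank M N = Module.finrank M M₂ := by
    rw [← hN]
    exact (IntermediateField.equivMap N f).toLinearEquiv.finrank_eq
  have h6 : Module.finrank M₂ L = 3 ^ (j + 1) := by
    rw [IntermediateField.finrank_fixedField_eq_card, hH]
  have h7 : Module.finrank M M₂ * Module.finrank M₂ L = 3 ^ k := by
    rw [Module.finrank_mul_finrank, hk]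
  have h8 : Module.finrank M N * Module.finrank N K' = Module.finrank M K' :=
    Module.finrank_mul_finrank M N K'
  have h9 : Module.finrank N K' = 3 := by
    rw [h5] at h8
    rw [h1, hj2, ← h8] at h2
    rw [h6] at h7
    have h10 : 0 < Module.finrank M M₂ := Module.finrank_pos
    have h11 : Module.finrank M M₂ * 3 ^ j * Module.finrank N K' =
        Module.finrank M M₂ * 3 ^ j * 3 := by
      calc _ = Module.finrank M M₂ * Module.finrank N K' * 3 ^ j := by ring
        _ = 3 ^ k := h2
        _ = Module.finrank M M₂ * 3 ^ (j + 1) := h7.symm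
        _ = _ := by rw [pow_succ]; ring
    exact Nat.eq_of_mul_eq_mul_left (by positivity) h11
  -- elements of `H` map the image of `K'` to itself
  have hnorm := H19T.a9b_normal E'.fixingSubgroup H j h3 hH hle
  have hstab : ∀ σ ∈ H, ∀ y : K', ∃ z : K', f z = σ (f y) := by
    intro σ hσ y
    have hmem : σ (f y) ∈ E' := by
      rw [← IsGalois.fixedField_fixingSubgroup E', IntermediateField.mem_fixedField_iff]
      intro τ hτ
      have h12 : (⟨τ, hle hτ⟩ : H) ∈ E'.fixingSubgroup.subgroupOf H := by
        rw [Subgroup.mem_subgroupOf]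
        exact hτ
      have h13 := hnorm.conj_mem _ h12 (⟨σ, hσ⟩ : H)⁻¹
      rw [Subgroup.mem_subgroupOf] at h13
      have h14 : σ⁻¹ * τ * σ ∈ E'.fixingSubgroup := by
        simpa using h13
      have h15 : (σ⁻¹ * τ * σ) (f y) = f y :=
        (IntermediateField.mem_fixingSubgroup_iff E' _).1 h14 (f y) ⟨y, rfl⟩
      have h16 : τ (σ (f y)) = σ ((σ⁻¹ * τ * σ) (f y)) := by
        rw [← AlgEquiv.mul_apply, ← AlgEquiv.mul_apply]
        congr 1
        group
      rw [h16, h15]
    obtain ⟨z, hz⟩ := hmem
    exact ⟨z, hz⟩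
  have hfinj : Function.Injective f := f.injective
  have hfix : ∀ σ ∈ H, ∀ n : N, σ (f (n : K')) = f (n : K') := by
    intro σ hσ n
    have h17 : f (n : K') ∈ M₂ := n.2
    exact (IntermediateField.mem_fixedField_iff H _).1 h17 σ hσ
  let τ : (σ : L ≃ₐ[M] L) → σ ∈ H → (K' →ₐ[N] K') := fun σ hσ =>
    { toFun := fun y => (hstab σ hσ y).choose
      map_one' := hfinj (by rw [(hstab σ hσ 1).choose_spec, map_one, map_one])
      map_mul' := fun x y => hfinj (by
        rw [(hstab σ hσ (x * y)).choose_spec, map_mul, map_mul, map_mul,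
          (hstab σ hσ x).choose_spec, (hstab σ hσ y).choose_spec])
      map_zero' := hfinj (by rw [(hstab σ hσ 0).choose_spec, map_zero, map_zero])
      map_add' := fun x y => hfinj (by
        rw [(hstab σ hσ (x + y)).choose_spec, map_add, map_add, map_add,
          (hstab σ hσ x).choose_spec, (hstab σ hσ y).choose_spec])
      commutes' := fun n => hfinj (by
        rw [(hstab σ hσ (algebraMap N K' n)).choose_spec]
        exact hfix σ hσ n) }
  have hτ : ∀ σ hσ y, f (τ σ hσ y) = σ (f y) := fun σ hσ y => (hstab σ hσ y).choose_spec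
  have hGal : IsGalois N K' := by
    apply IsGalois.of_fixedField_eq_bot
    rw [eq_bot_iff]
    intro y hy
    have hyN : y ∈ N := by
      show f y ∈ M₂
      rw [IntermediateField.mem_fixedField_iff]
      intro σ hσ
      let τ' : K' ≃ₐ[N] K' := AlgEquiv.ofBijective (τ σ hσ) (Algebra.IsAlgebraic.algHom_bijective _)
      have h18 : τ' y = y := (IntermediateField.mem_fixedField_iff _ _).1 hy τ' (Subgroup.mem_top _)
      have h19 := hτ σ hσ y
      have h20 : τ σ hσ y = y := h18
      rw [h20] at h19
      exact h19.symm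
    exact IntermediateField.mem_bot.2 ⟨⟨y, hyN⟩, rfl⟩
  have hFN : ∀ x : F, algebraMap F K' x = algebraMap N K' (algebraMap M N (algebraMap F M x)) := fun x =>
    IsScalarTower.algebraMap_apply F M K' x
  let iFN : Algebra F N := ((algebraMap M N).comp (algebraMap F M)).toAlgebra
  have s1 : @IsScalarTower F M N _ _ iFN.toSMul :=
    @IsScalarTower.of_algebraMap_eq F M N _ _ _ _ _ iFN (fun x => rfl)
  have s2 : @IsScalarTower F N K' iFN.toSMul _ _ :=
    @IsScalarTower.of_algebraMap_eq F N K' _ _ _ iFN _ _ hFN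
  exact ⟨N, inferInstance, inferInstance, iFN, inferInstance, inferInstance, s1, s2, inferInstance,
    ⟨L, inferInstance, inferInstance, inferInstance, inferInstance, inferInstance, hG, ⟨k, hk⟩, hU⟩,
    h9, hGal⟩

theorem relT_unr {M K : Type} [Field M] [NumberField M] [Field K] [NumberField K] [Algebra M K]
    (hS : RelT M K) (w : HeightOneSpectrum (𝓞 K)) (h3 : (3 : 𝓞 K) ∈ w.asIdeal) :
    w.asIdeal.ramificationIdx (𝓞 M) = 1 := by
  obtain ⟨L, _, _, _, _, _, -, -, hU⟩ := hS
  obtain ⟨W, hW⟩ := a11_above (L := L) w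
  have h6 : (3 : 𝓞 L) ∈ W.asIdeal := by
    have h3 : (3 : 𝓞 K) ∈ W.asIdeal.under (𝓞 K) := hW.over ▸ h3
    rw [Ideal.mem_under, map_ofNat] at h3
    exact h3
  have h1 := hU W h6
  have h2 := Ideal.ramificationIdx_tower (R := 𝓞 M) w.asIdeal W.asIdeal
  rw [h1] at h2
  exact Nat.eq_one_of_mul_eq_one_right h2.symm

theorem relT_unr_top {M K K' : Type} [Field M] [NumberField M] [Field K] [NumberField K] [Algebra M K]
    [Field K'] [NumberField K'] [Algebra M K'] [Algebra K K'] [IsScalarTower M K K']
    (hS : RelT M K') (w : HeightOneSpectrum (𝓞 K')) (h3 : (3 : 𝓞 K') ∈ w.asIdeal) :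
    w.asIdeal.ramificationIdx (𝓞 K) = 1 := by
  have h1 := relT_unr hS w h3
  have hl : w.asIdeal.LiesOver (w.asIdeal.under (𝓞 K)) := ⟨rfl⟩
  have h2 := Ideal.ramificationIdx_tower (R := 𝓞 M) (w.asIdeal.under (𝓞 K)) w.asIdeal
  rw [h1] at h2
  exact Nat.eq_one_of_mul_eq_one_left h2.symm

theorem a11_case1 (K L : Type) [Field K] [NumberField K] [Field L] [NumberField L]
    [Algebra F L] [Algebra K L] (hT : ThreeExt L) (hU : H35N.Unr3 L) (ζ : K)
    (hζ : ζ ^ 2 + ζ + 1 = 0) : ∃ _ : Algebra F K, RelT F K := by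
  have hz := H55D.X3_z_root L
  have hmem : H55D.X3_z L ∈ (⊥ : IntermediateField K L) := by
    have h1 : (algebraMap K L ζ) ^ 2 + algebraMap K L ζ + 1 = 0 := by
      have h := congrArg (algebraMap K L) hζ
      simpa only [map_add, map_pow, map_one, map_zero] using h
    have h2 : (H55D.X3_z L - algebraMap K L ζ) * (H55D.X3_z L + algebraMap K L ζ + 1) = 0 := by
      linear_combination hz - h1
    rw [IntermediateField.mem_bot]
    rcases mul_eq_zero.1 h2 with h | h
    · exact ⟨ζ, (sub_eq_zero.1 h).symm⟩
    · refine ⟨-ζ - 1, ?_⟩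
      rw [map_sub, map_neg, map_one]
      linear_combination -h
  let ψ : F →+* (⊥ : IntermediateField K L) :=
    (algebraMap F L).codRestrict (⊥ : IntermediateField K L)
      (H55D.X3_range K L (⊥ : IntermediateField K L) hmem)
  let φ : F →+* K := ((IntermediateField.botEquiv K L : (⊥ : IntermediateField K L) →+* K)).comp ψ
  let hFK : Algebra F K := φ.toAlgebra
  have hcomp : ∀ x : F, algebraMap F L x = algebraMap K L (algebraMap F K x) := by
    intro x
    have h1 : algebraMap K L (IntermediateField.botEquiv K L (ψ x)) = algebraMap F L x := by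
      have h2 := (IntermediateField.botEquiv K L).symm_apply_apply (ψ x)
      have h3 := IntermediateField.botEquiv_symm (F := K) (E := L)
        (IntermediateField.botEquiv K L (ψ x))
      rw [h2] at h3
      have h4 := congrArg (fun z : (⊥ : IntermediateField K L) => (z : L)) h3
      exact h4.symm
    exact h1.symm
  have htow : IsScalarTower F K L := IsScalarTower.of_algebraMap_eq hcomp
  exact ⟨hFK, L, inferInstance, inferInstance, inferInstance, inferInstance, htow, hT.1, hT.2, hU⟩

theorem cls3T_cases (K : Type) [Field K] [NumberField K] (h : Cls3T K) :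
    (∃ _ : Algebra F K, RelT F K) ∨
    ∃ (K₁ : Type) (_ : Field K₁) (_ : NumberField K₁) (_ : Algebra F K₁) (_ : Algebra K K₁),
      Quad K K₁ ∧ RelT F K₁ := by
  classical
  obtain ⟨L, hL1, hL2, hL3, hL4, hT, hUL⟩ := h
  by_cases hnr : ∀ x : K, x ^ 2 + x + 1 ≠ 0
  · right
    have hz := H55D.X3_z_root L
    let E : IntermediateField K L := IntermediateField.adjoin K {H55D.X3_z L}
    have hmem : H55D.X3_z L ∈ E := IntermediateField.mem_adjoin_simple_self K _
    have hint : ∀ x ∈ ({H55D.X3_z L} : Set L), IsIntegral K x := by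
      rintro x rfl
      refine ⟨Polynomial.X ^ 2 + Polynomial.X + 1, by monicity!, ?_⟩
      simp only [Polynomial.eval₂_add, Polynomial.eval₂_pow, Polynomial.eval₂_X,
        Polynomial.eval₂_one]
      exact hz
    have hEfin : FiniteDimensional K E := IntermediateField.finiteDimensional_adjoin hint
    have hnf : NumberField E := NumberField.of_module_finite K E
    let ψ : F →+* E := (algebraMap F L).codRestrict E (H55D.X3_range K L E hmem)
    let hFE : Algebra F E := ψ.toAlgebra
    have hFEL : IsScalarTower F E L := IsScalarTower.of_algebraMap_eq (fun x => rfl)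
    exact ⟨E, inferInstance, hnf, hFE, inferInstance, ⟨H55D.X3_rank K L _ hz hnr, hnr⟩,
      L, hL1, hL2, hL3, inferInstance, hFEL, hT.1, hT.2, hUL⟩
  · left
    push Not at hnr
    obtain ⟨ζ, hζ⟩ := hnr
    exact a11_case1 K L hT hUL ζ hζ

end H35Z
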