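import Mathlib
import Pool.Agent.Lib.H35X.G1

/-! Chunk A6 (M): descent of classes fixed by the Galois group of K/M (Hilbert 90). This is a copy of H35T/A6.lean and H35T/A8.lean with the base field F replaced by M; M contains a
root r of X^2 + X + 1. N = K(i), N₁ = M(i), T, T₁ the conjugations, j : N₁ -> N, act g = the extension of g in Gal(K/M) to N with act g t = t.
exists_lay: N₁ from exists_QN (-1) M (hno); j from QN.lift for N₁ with f = (algebraMap K N).comp (algebraMap M K), t' = t; act g from QN.lift for N with f = (algebraMap K N).comp g, t' = t;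
it is invertible with inverse the map for g⁻¹ (compare on K and t with QN.span: a ring homomorphism on N is determined by its values on K and on t): RingEquiv.ofHomInv or RingEquiv.ofBijective
(a ring homomorphism of fields is injective; surjective because act g (act g⁻¹ z) = z).
act_mul', act_one', act_T' : compare on K and t (T fixes K, T t = -t; QN.T_mk). fixed' : z = a + b t fixed by all act g: g a = a, g b = b (QN.indep), so a, b in M
(IsGalois.mem_range_algebraMap_iff_fixed), z = j (a' + b' t₁). norm_K': QN.norm_mk. j_T: H35X.U2_T.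
descend': the proof of H35T.descend (A8.lean, with a8_sign etc.) word for word: act g m = m b^3 gives b_g with the right norm, unique, cocycle, Hilbert 90 (linearIndependent_monoidHom), c = y⁻¹,
m/c^3 is fixed, n/N(c) is fixed by all g, so it is in M. The cube roots of unity in N are 1, r, r^2 (images), fixed by T. -/

open NumberField IsDedekindDomain Polynomial

namespace H35Z

open H55B H35T H13E H35X

/-- The data of a layer: M in K, N₁ = M(i), N = K(i). -/
structure Lay (M K N₁ N : Type) [Field M] [Field K] [Field N₁] [Field N] [Algebra M K] [Algebra M N₁]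
    [Algebra K N] (t₁ : N₁) (T₁ : N₁ ≃ₐ[M] N₁) (t : N) (T : N ≃ₐ[K] N) (j : N₁ →+* N)
    (act : (K ≃ₐ[M] K) → (N ≃+* N)) : Prop where
  q1 : QN (-1) M N₁ t₁ T₁
  q : QN (-1) K N t T
  jK : ∀ x : M, j (algebraMap M N₁ x) = algebraMap K N (algebraMap M K x)
  jt : j t₁ = t
  act_K : ∀ (g : K ≃ₐ[M] K) (x : K), act g (algebraMap K N x) = algebraMap K N (g x)
  act_t : ∀ g : K ≃ₐ[M] K, act g t = t

theorem exists_lay {M K N : Type} [Field M] [NumberField M] [Field K] [NumberField K] [Field N]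
    [NumberField N] [Algebra M K] [Algebra K N] {t : N} {T : N ≃ₐ[K] N} (h : QN (-1) K N t T)
    (hno : ¬ ∃ x : M, x ^ 2 = ((-1 : ℤ) : M)) :
    ∃ (N₁ : Type) (_ : Field N₁) (_ : NumberField N₁) (_ : Algebra M N₁) (t₁ : N₁) (T₁ : N₁ ≃ₐ[M] N₁)
      (j : N₁ →+* N) (act : (K ≃ₐ[M] K) → (N ≃+* N)), Lay M K N₁ N t₁ T₁ t T j act := by
  have hB : (-1 : ℤ) ≠ 0 := by norm_num
  obtain ⟨N₁, _, _, _, t₁, T₁, h1⟩ := exists_QN (-1) M hno
  obtain ⟨j, hjK, hjt⟩ := h1.lift hB ((algebraMap K N).comp (algebraMap M K)) t h.sq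
  have hact : ∀ g : K ≃ₐ[M] K, ∃ a : N ≃+* N, (∀ x, a (algebraMap K N x) = algebraMap K N (g x)) ∧ a t = t := by
    intro g
    obtain ⟨a, haK, hat⟩ := h.lift hB ((algebraMap K N).comp (g : K →+* K)) t h.sq
    have haK' : ∀ x, a (algebraMap K N x) = algebraMap K N (g x) := haK
    refine ⟨RingEquiv.ofBijective a ⟨a.injective, ?_⟩, haK', hat⟩
    intro z
    obtain ⟨x, y, rfl⟩ := h.span z
    refine ⟨algebraMap K N (g.symm x) + algebraMap K N (g.symm y) * t, ?_⟩
    rw [map_add, map_mul, haK', haK', hat, g.apply_symm_apply, g.apply_symm_apply]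
  choose act hK ht using hact
  exact ⟨N₁, _, ‹_›, _, t₁, T₁, j, act, h1, h, hjK, hjt, hK, ht⟩

variable {M K N₁ N : Type} [Field M] [NumberField M] [Field K] [NumberField K] [Field N₁]
  [NumberField N₁] [Field N] [NumberField N] [Algebra M K] [Algebra M N₁] [Algebra K N] {t₁ : N₁}
  {T₁ : N₁ ≃ₐ[M] N₁} {t : N} {T : N ≃ₐ[K] N} {j : N₁ →+* N} {act : (K ≃ₐ[M] K) → (N ≃+* N)}

theorem Lay.act_mul' (C : Lay M K N₁ N t₁ T₁ t T j act) (g h : K ≃ₐ[M] K) (z : N) :
    act (g * h) z = act g (act h z) := by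
  obtain ⟨a, b, rfl⟩ := C.q.span z
  simp only [map_add, map_mul, C.act_K, C.act_t]
  rfl

theorem Lay.act_one' (C : Lay M K N₁ N t₁ T₁ t T j act) (z : N) : act 1 z = z := by
  obtain ⟨a, b, rfl⟩ := C.q.span z
  simp only [map_add, map_mul, C.act_K, C.act_t]
  rfl

theorem Lay.act_T' (C : Lay M K N₁ N t₁ T₁ t T j act) (g : K ≃ₐ[M] K) (z : N) :
    act g (T z) = T (act g z) := by
  obtain ⟨a, b, rfl⟩ := C.q.span z
  rw [C.q.T_mk]
  simp only [map_add, map_sub, map_mul, C.act_K, C.act_t]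
  rw [← map_mul T, ← map_add, C.q.T_mk]

theorem Lay.fixed' (C : Lay M K N₁ N t₁ T₁ t T j act) (hG : IsGalois M K) (z : N)
    (hz : ∀ g, act g z = z) : ∃ m : N₁, j m = z := by
  have hB : (-1 : ℤ) ≠ 0 := by norm_num
  obtain ⟨a, b, rfl⟩ := C.q.span z
  have key : ∀ g : K ≃ₐ[M] K, g a = a ∧ g b = b := by
    intro g
    have h := hz g
    simp only [map_add, map_mul, C.act_K, C.act_t] at h
    exact C.q.uniq hB h
  obtain ⟨a', ha⟩ := (IsGalois.mem_range_algebraMap_iff_fixed a).2 fun g => (key g).1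
  obtain ⟨b', hb⟩ := (IsGalois.mem_range_algebraMap_iff_fixed b).2 fun g => (key g).2
  refine ⟨algebraMap M N₁ a' + algebraMap M N₁ b' * t₁, ?_⟩
  simp only [map_add, map_mul, C.jK, C.jt, ha, hb]

theorem Lay.j_T (C : Lay M K N₁ N t₁ T₁ t T j act) (z : N₁) : j (T₁ z) = T (j z) := by
  obtain ⟨a, b, rfl⟩ := C.q1.span z
  rw [C.q1.T_mk]
  simp only [map_add, map_sub, map_mul, C.jK, C.jt]
  rw [← map_mul T, ← map_add, C.q.T_mk]

/-- the relative norm -/
def a6N (T : N ≃ₐ[K] N) (z : N) : N := z * T z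

theorem a6_mul (T : N ≃ₐ[K] N) (x y : N) : a6N T (x * y) = a6N T x * a6N T y := by
  unfold a6N
  simp only [map_mul]
  ring

theorem a6_ne (T : N ≃ₐ[K] N) {x : N} (hx : x ≠ 0) : a6N T x ≠ 0 := by
  unfold a6N
  have h1 : T x ≠ 0 := by simpa using hx
  exact mul_ne_zero hx h1

theorem a6_inv (T : N ≃ₐ[K] N) (x : N) : a6N T x⁻¹ = (a6N T x)⁻¹ := by
  unfold a6N
  simp only [map_inv₀, mul_inv]

theorem a6_act (C : Lay M K N₁ N t₁ T₁ t T j act) (g : K ≃ₐ[M] K) (z : N) :
    act g (a6N T z) = a6N T (act g z) := by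
  unfold a6N
  simp only [map_mul, C.act_T']

theorem a6_norm_K (C : Lay M K N₁ N t₁ T₁ t T j act) (z : N) :
    ∃ x : K, z * T z = algebraMap K N x := by
  obtain ⟨a, b, rfl⟩ := C.q.span z
  exact ⟨_, C.q.norm_mk a b⟩

theorem a6_root (T : N ≃ₐ[K] N) (w : K) (hw : w ^ 2 + w + 1 = 0) {r : N} (h : r ^ 3 = 1) : T r = r := by
  have hw2 : algebraMap K N w ^ 2 + algebraMap K N w + 1 = 0 := by
    rw [← map_pow, ← map_add, ← map_one (algebraMap K N), ← map_add, hw, map_zero]
  have h1 : (r - 1) * ((r - algebraMap K N w) * (r - algebraMap K N w ^ 2)) = 0 := by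
    linear_combination h + (-r ^ 2 + r * algebraMap K N w + (1 - algebraMap K N w)) * hw2
  rcases mul_eq_zero.1 h1 with h2 | h2
  · rw [sub_eq_zero.1 h2, map_one]
  · rcases mul_eq_zero.1 h2 with h3 | h3
    · rw [sub_eq_zero.1 h3, T.commutes]
    · rw [sub_eq_zero.1 h3, ← map_pow, T.commutes]

theorem a6_sign (C : Lay M K N₁ N t₁ T₁ t T j act) (w : K) (hw : w ^ 2 + w + 1 = 0) {m : N} {n : K} (hn : n ≠ 0)
    (hm : a6N T m = algebraMap K N n ^ 3) (g : K ≃ₐ[M] K) (h : ∃ b : N, act g m = m * b ^ 3) :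
    ∃ b : N, act g m = m * b ^ 3 ∧ a6N T b * algebraMap K N n = algebraMap K N (g n) := by
  obtain ⟨b, hb⟩ := h
  have hn' : algebraMap K N n ≠ 0 := by simpa using hn
  have hgn : algebraMap K N (g n) ≠ 0 := by
    have : g n ≠ 0 := by simpa using hn
    simpa using this
  have h1 : (a6N T b * algebraMap K N n) ^ 3 = algebraMap K N (g n) ^ 3 := by
    have h2 : a6N T (act g m) = algebraMap K N (g n) ^ 3 := by
      rw [← a6_act C, hm, map_pow, C.act_K]
    have e : a6N T (b ^ 3) = a6N T b ^ 3 := by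
      unfold a6N
      rw [map_pow]
      ring
    rw [hb, a6_mul, hm, e] at h2
    rw [← h2]
    ring
  set ρ : N := a6N T b * algebraMap K N n / algebraMap K N (g n) with hρ
  have hρ3 : ρ ^ 3 = 1 := by
    rw [hρ, div_pow, h1, div_self (pow_ne_zero 3 hgn)]
  have hTρ := a6_root T w hw hρ3
  refine ⟨ρ * b, ?_, ?_⟩
  · rw [mul_pow, hρ3, one_mul]
    exact hb
  · have h4 : a6N T ρ = ρ ^ 2 := by
      unfold a6N
      rw [hTρ, pow_two]
    have h5 : a6N T b * algebraMap K N n = ρ * algebraMap K N (g n) := by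
      rw [hρ, div_mul_cancel₀ _ hgn]
    rw [a6_mul, h4, mul_assoc, h5]
    linear_combination algebraMap K N (g n) * hρ3

theorem Lay.descend' (C : Lay M K N₁ N t₁ T₁ t T j act) (hG : IsGalois M K) (r : M)
    (hr : r ^ 2 + r + 1 = 0) (m : N) (n : K) (hn : n ≠ 0)
    (hm : m * T m = algebraMap K N n ^ 3) (hg : ∀ g : K ≃ₐ[M] K, ∃ b : N, act g m = m * b ^ 3) :
    ∃ (m0 : N₁) (c : N) (n0 : M), c ≠ 0 ∧ n0 ≠ 0 ∧ m = j m0 * c ^ 3 ∧
      m0 * T₁ m0 = algebraMap M N₁ n0 ^ 3 := by
  classical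
  have hw : (algebraMap M K r) ^ 2 + algebraMap M K r + 1 = 0 := by
    rw [← map_pow, ← map_add, ← map_one (algebraMap M K), ← map_add, hr, map_zero]
  have : IsScalarTower ℚ M K := IsScalarTower.of_algebraMap_eq' (Subsingleton.elim _ _)
  have hfd : FiniteDimensional M K := Module.Finite.of_restrictScalars_finite ℚ M K
  have hfin : Finite (K ≃ₐ[M] K) := inferInstance
  have : Fintype (K ≃ₐ[M] K) := Fintype.ofFinite _
  have hm' : a6N T m = algebraMap K N n ^ 3 := hm
  have hn' : algebraMap K N n ≠ 0 := by simpa using hn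
  have hm0 : m ≠ 0 := by
    rintro rfl
    unfold a6N at hm'
    rw [zero_mul] at hm'
    exact hn' (pow_eq_zero_iff (three_ne_zero) |>.1 hm'.symm)
  choose b hb hbn using fun g => a6_sign C _ hw hn hm' g (hg g)
  have hb0 : ∀ g, b g ≠ 0 := by
    intro g h0
    have h1 := hb g
    rw [h0, zero_pow three_ne_zero, mul_zero] at h1
    exact hm0 (by simpa using h1)
  -- cocycle
  have hco : ∀ g h, b (g * h) = b g * act g (b h) := by
    intro g h
    have hBh : act g (b h) ≠ 0 := by simpa using hb0 h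
    have hB : b g * act g (b h) ≠ 0 := mul_ne_zero (hb0 g) hBh
    have h1 : (b (g * h)) ^ 3 = (b g * act g (b h)) ^ 3 := by
      have h2 : act (g * h) m = m * (b g * act g (b h)) ^ 3 := by
        rw [C.act_mul', hb h, map_mul, hb g, map_pow]
        ring
      rw [hb (g * h)] at h2
      exact mul_left_cancel₀ hm0 h2
    have h3 : a6N T (b g * act g (b h)) * algebraMap K N n = algebraMap K N ((g * h) n) := by
      have h4 : act g (a6N T (b h) * algebraMap K N n) = act g (algebraMap K N (h n)) := by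
        rw [hbn h]
      rw [map_mul, a6_act C, C.act_K, C.act_K] at h4
      rw [a6_mul, mul_assoc, mul_comm (a6N T (b g))]
      have h5 := hbn g
      have h6 : (g * h) n = g (h n) := rfl
      rw [h6, ← h4, ← h5]
      ring
    set ρ : N := b (g * h) / (b g * act g (b h)) with hρ
    have hρ3 : ρ ^ 3 = 1 := by
      rw [hρ, div_pow, h1, div_self (pow_ne_zero 3 hB)]
    have hTρ := a6_root T _ hw hρ3
    have h4 : b (g * h) = ρ * (b g * act g (b h)) := by
      rw [hρ, div_mul_cancel₀ _ hB]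
    have h5 := hbn (g * h)
    have h6 : a6N T ρ = ρ ^ 2 := by
      unfold a6N
      rw [hTρ, pow_two]
    rw [h4, a6_mul, h6, mul_assoc, h3] at h5
    have hghn : algebraMap K N ((g * h) n) ≠ 0 := by
      have : (g * h) n ≠ 0 := by simpa using hn
      simpa using this
    have h7 : ρ ^ 2 = 1 := by
      apply mul_right_cancel₀ hghn
      rw [h5, one_mul]
    have h8 : ρ = 1 := by linear_combination hρ3 - ρ * h7
    rw [h4, h8, one_mul]
  -- Hilbert 90
  obtain ⟨z, hz⟩ : ∃ z : N, ∑ g, b g * act g z ≠ 0 := by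
    by_contra hcon
    push Not at hcon
    let φ : (K ≃ₐ[M] K) → (N →* N) := fun g => ((act g : N ≃+* N) : N →* N)
    have hφ : Function.Injective φ := by
      intro g h hgh
      apply AlgEquiv.ext
      intro x
      have h1 : act g (algebraMap K N x) = act h (algebraMap K N x) :=
        congrArg (fun f : N →* N => f (algebraMap K N x)) hgh
      rw [C.act_K, C.act_K] at h1
      exact (algebraMap K N).injective h1
    have hli := (linearIndependent_monoidHom N N).comp φ hφ
    rw [Fintype.linearIndependent_iff] at hli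
    have h1 := hli b (by
      funext x
      simp only [Finset.sum_apply, Pi.smul_apply, smul_eq_mul, Pi.zero_apply]
      exact hcon x) 1
    exact hb0 1 h1
  set y : N := ∑ g, b g * act g z with hy
  have hact : ∀ g, act g y = (b g)⁻¹ * y := by
    intro g
    rw [hy, map_sum, Finset.mul_sum]
    rw [← Equiv.sum_comp (Equiv.mulLeft g) (fun h => (b g)⁻¹ * (b h * act h z))]
    refine Finset.sum_congr rfl fun h _ => ?_
    rw [Equiv.coe_mulLeft, map_mul, hco g h, C.act_mul']
    field_simp [hb0 g]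
  have hc : ∀ g, act g y⁻¹ = b g * y⁻¹ := by
    intro g
    rw [map_inv₀, hact g, mul_inv, inv_inv]
  have hc0 : (y⁻¹ : N) ≠ 0 := inv_ne_zero hz
  -- the class
  obtain ⟨m0, hm0'⟩ := C.fixed' hG (m / y⁻¹ ^ 3) (by
    intro g
    rw [map_div₀, map_pow, hc g, hb g]
    have := hb0 g
    field_simp)
  obtain ⟨x, hx⟩ := a6_norm_K C y⁻¹
  have hx' : a6N T y⁻¹ = algebraMap K N x := hx
  have hx0 : x ≠ 0 := by
    rintro rfl
    rw [map_zero] at hx'
    exact a6_ne T hc0 hx'
  have hfix : ∀ g : K ≃ₐ[M] K, g (n / x) = n / x := by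
    intro g
    apply (algebraMap K N).injective
    have h1 : a6N T (act g y⁻¹) = algebraMap K N (g x) := by rw [← a6_act C, hx', C.act_K]
    rw [hc g, a6_mul, hx'] at h1
    have h2 := hbn g
    have hxN : algebraMap K N x ≠ 0 := by simpa using hx0
    have hbg := a6_ne T (hb0 g)
    rw [map_div₀, map_div₀, map_div₀, ← h1, ← h2]
    field_simp
  obtain ⟨n0, hn0⟩ := (IsGalois.mem_range_algebraMap_iff_fixed (F := M) (E := K) (n / x)).2 hfix
  refine ⟨m0, y⁻¹, n0, hc0, ?_, ?_, ?_⟩
  · rintro rfl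
    rw [map_zero] at hn0
    exact div_ne_zero hn hx0 hn0.symm
  · rw [hm0']
    field_simp
  · apply j.injective
    have h1 : j (m0 * T₁ m0) = a6N T (j m0) := by
      unfold a6N
      rw [map_mul, C.j_T]
    have h2 : a6N T (m / y⁻¹ ^ 3) = a6N T m / a6N T y⁻¹ ^ 3 := by
      have h3 : m / y⁻¹ ^ 3 = m * (y⁻¹ * (y⁻¹ * y⁻¹))⁻¹ := by rw [div_eq_mul_inv, pow_three]
      rw [h3, a6_mul, a6_inv, a6_mul, a6_mul, div_eq_mul_inv, pow_three]
    rw [h1, hm0', map_pow, C.jK, hn0, map_div₀, ← hx', h2, hm', div_pow]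

end H35Z
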