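import Mathlib
import Pool.Agent.Lib.H19X.Va
import Pool.Agent.Lib.H35X.E5a

/-! Chunk A5a (M): cubes modulo 3, from local to global. l in N has valuation exp(-1) at all P above 3, and v_P(3) = v_P(l)^2.
a5a_loc (one valuation v on a field k, 3 = 0 and l = 0 have small valuation: v(3) = v(l)^2, v(l) < 1, v(z) < 1 implies v(z) <= v(l)): if v(z - 1) < 1, β nonzero, v(z/β^3 - 1) <= v(3), then
v(z - 1) <= v(3). Proof: v(z) = 1, v(β) = 1, β^3 = z/(1 + small): v(β^3 - 1) < 1. (β - 1)^3 = β^3 - 1 - 3 β (β - 1), so v(β - 1) < 1, so v(β - 1) <= v(l) (δ = β - 1),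
β^3 - 1 = 3 δ + 3 δ^2 + δ^3 has valuation <= v(l)^3 <= v(3); z = β^3 (z/β^3), z - 1 = β^3 (z/β^3 - 1) + (β^3 - 1).
three_glob: for P above 3 the hypothesis gives (k, v, j, β) with v(j m) = v(β)^3 (v(j m/β^3) = 1), and v(j m) = P.valuation m, so P.valuation m = exp(3 k(P)) (m is nonzero; write v(β) =
exp(k(P))). H19X.exists_val for the finite set of the P above 3 (H19X.Va_finite for the prime 3, or i5_finite like: finitely many primes contain 3; see H35X.G3 where it is used)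
gives b0 with P.valuation b0 = exp(k(P)); z = m/b0^3 has P.valuation z = 1 at all P above 3. exists_exp (E5a): e = 1 + 3 f with P.valuation (z^e - 1) < 1. b = b0 z^(-f):
m/b^3 = z z^(3f) = z^e. For P above 3 take (k, v, j, β): j (z^e)/(β z'^f...)^3: z^e = m/(b)^3, so j(z^e)/(β/j b)^3 = j m/β^3. Apply a5a_loc to j(z^e) and β/j(b), then go back:
P.valuation (z^e - 1) = v (j (z^e) - 1) <= v 3 = P.valuation 3. -/

open NumberField IsDedekindDomain

namespace H35Z

open H55B H35T H13E H35X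

theorem a5a_loc {k : Type} [Field k] (v : Valuation k (WithZero (Multiplicative ℤ))) (l : k)
    (h3 : v 3 = v l ^ 2) (hl : v l < 1) (hmax : ∀ z : k, v z < 1 → v z ≤ v l) (z β : k) (hβ : β ≠ 0)
    (hz : v (z - 1) < 1) (h : v (z / β ^ 3 - 1) ≤ v 3) : v (z - 1) ≤ v 3 := by
  have hv3 : v 3 < 1 := by
    rw [h3]
    exact pow_lt_one₀ zero_le hl two_ne_zero
  have hvz : v z = 1 := by
    have h4 : v (z - 1) < v 1 := by rwa [map_one]
    rw [Valuation.map_eq_of_sub_lt v h4, map_one]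
  have hq : v (z / β ^ 3) = 1 := by
    have h4 : v (z / β ^ 3 - 1) < v 1 := by
      rw [map_one]
      exact h.trans_lt hv3
    rw [Valuation.map_eq_of_sub_lt v h4, map_one]
  have hβ3 : β ^ 3 ≠ 0 := pow_ne_zero 3 hβ
  have hvβ : v β = 1 := by
    have h5 : v β ^ 3 = 1 := by
      rw [map_div₀, hvz, map_pow, one_div, inv_eq_one] at hq
      exact hq
    exact (pow_eq_one_iff_of_nonneg zero_le three_ne_zero).mp h5
  have e1 : z - 1 = β ^ 3 * (z / β ^ 3 - 1) + (β ^ 3 - 1) := by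
    field_simp
    ring
  have hb1 : v (β ^ 3 - 1) < 1 := by
    have e2 : β ^ 3 - 1 = (z - 1) - β ^ 3 * (z / β ^ 3 - 1) := by rw [e1]; ring
    rw [e2]
    refine Valuation.map_sub_lt _ hz ?_
    rw [map_mul, map_pow, hvβ, one_pow, one_mul]
    exact h.trans_lt hv3
  have hδ1 : v (β - 1) ≤ 1 := Valuation.map_sub_le _ hvβ.le (by rw [map_one])
  have hδ : v (β - 1) < 1 := by
    have h6 : v ((β - 1) ^ 3) < 1 := by
      have e3 : (β - 1) ^ 3 = (β ^ 3 - 1) - 3 * (β * (β - 1)) := by ring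
      rw [e3]
      refine Valuation.map_sub_lt _ hb1 ?_
      rw [map_mul, map_mul, hvβ, one_mul]
      exact (mul_le_of_le_one_right zero_le hδ1).trans_lt hv3
    rw [map_pow] at h6
    by_contra hcon
    rw [not_lt] at hcon
    exact absurd h6 (not_lt.2 (one_le_pow₀ hcon))
  have hδl := hmax _ hδ
  have h7 : v (β ^ 3 - 1) ≤ v 3 := by
    have e4 : β ^ 3 - 1 = 3 * (β - 1) + 3 * (β - 1) ^ 2 + (β - 1) ^ 3 := by ring
    rw [e4]
    refine Valuation.map_add_le _ (Valuation.map_add_le _ ?_ ?_) ?_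
    · rw [map_mul]
      exact mul_le_of_le_one_right zero_le hδ1
    · rw [map_mul, map_pow]
      exact mul_le_of_le_one_right zero_le (pow_le_one' hδ1 2)
    · rw [map_pow, h3]
      calc v (β - 1) ^ 3 ≤ v l ^ 3 := pow_le_pow_left₀ zero_le hδl 3
        _ = v l ^ 2 * v l := pow_succ _ _
        _ ≤ v l ^ 2 := mul_le_of_le_one_right zero_le hl.le
  rw [e1]
  refine Valuation.map_add_le _ ?_ h7
  rw [map_mul, map_pow, hvβ, one_pow, one_mul]
  exact h

theorem three_glob {N : Type} [Field N] [NumberField N] (l : N)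
    (hl : ∀ P : HeightOneSpectrum (𝓞 N), (3 : 𝓞 N) ∈ P.asIdeal →
      P.valuation N l = WithZero.exp (-1 : ℤ) ∧ P.valuation N 3 = P.valuation N l ^ 2)
    (m : N) (hm : m ≠ 0)
    (h : ∀ P : HeightOneSpectrum (𝓞 N), (3 : 𝓞 N) ∈ P.asIdeal →
      ∃ (k : Type) (_ : Field k) (v : Valuation k (WithZero (Multiplicative ℤ))) (j : N →+* k) (β : k),
        (∀ x : N, v (j x) = P.valuation N x) ∧ (∀ z : k, v z < 1 → v z ≤ v (j l)) ∧ β ≠ 0 ∧
          v (j m / β ^ 3 - 1) ≤ v 3) :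
    ∃ b : N, b ≠ 0 ∧ ∀ P : HeightOneSpectrum (𝓞 N), (3 : 𝓞 N) ∈ P.asIdeal →
      P.valuation N (m / b ^ 3 - 1) ≤ P.valuation N 3 := by
  classical
  have hfin : {P : HeightOneSpectrum (𝓞 N) | (3 : 𝓞 N) ∈ P.asIdeal}.Finite := by
    have h3 : (Ideal.span {(3 : 𝓞 N)}) ≠ 0 := by
      simp
    have h := Ideal.finite_factors h3
    refine h.subset ?_
    intro P hP
    simp only [Set.mem_ofPred_eq] at *
    rw [Ideal.dvd_span_singleton]
    exact hP
  have hv31 : ∀ P : HeightOneSpectrum (𝓞 N), (3 : 𝓞 N) ∈ P.asIdeal → P.valuation N 3 < 1 := by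
    intro P hP
    obtain ⟨h1, h2⟩ := hl P hP
    rw [h2, h1, pow_two, ← WithZero.exp_add, ← WithZero.exp_zero, WithZero.exp_lt_exp]
    norm_num
  have hex : ∀ P : HeightOneSpectrum (𝓞 N), (3 : 𝓞 N) ∈ P.asIdeal → ∃ i : ℤ, P.valuation N m = WithZero.exp (3 * i) := by
    intro P hP
    obtain ⟨k, _, v, j, β, h1, h2, h3, h4⟩ := h P hP
    have hv3 : v 3 < 1 := by
      have e : (3 : k) = j 3 := by rw [map_ofNat]
      rw [e, h1]
      exact hv31 P hP
    have hq : v (j m / β ^ 3) = 1 := by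
      have h5 : v (j m / β ^ 3 - 1) < v 1 := by
        rw [map_one]
        exact h4.trans_lt hv3
      rw [Valuation.map_eq_of_sub_lt v h5, map_one]
    have hvβ : v β ≠ 0 := (Valuation.ne_zero_iff v).2 h3
    rw [map_div₀, map_pow, div_eq_one_iff_eq (pow_ne_zero 3 hvβ), h1] at hq
    refine ⟨WithZero.log (v β), ?_⟩
    rw [hq]
    conv_lhs => rw [← WithZero.exp_log hvβ]
    rw [← WithZero.exp_nsmul, nsmul_eq_mul]
    norm_num
  choose! kk hkk using hex
  obtain ⟨b0, hb00, hb0⟩ := H19X.exists_val hfin.toFinset kk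
  have hb0' : ∀ P : HeightOneSpectrum (𝓞 N), (3 : 𝓞 N) ∈ P.asIdeal → P.valuation N b0 = WithZero.exp (kk P) := fun P hP =>
    hb0 P ((Set.Finite.mem_toFinset _).2 hP)
  obtain ⟨e, he, hexp⟩ := exists_exp N
  obtain ⟨f, hf⟩ : ∃ f : ℕ, e = 3 * f + 1 := ⟨e / 3, by omega⟩
  set z : N := m / b0 ^ 3 with hz
  have hz0 : z ≠ 0 := div_ne_zero hm (pow_ne_zero 3 hb00)
  have hzv : ∀ P : HeightOneSpectrum (𝓞 N), (3 : 𝓞 N) ∈ P.asIdeal → P.valuation N z = 1 := by
    intro P hP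
    rw [hz, map_div₀, map_pow, hkk P hP, hb0' P hP, ← WithZero.exp_nsmul, nsmul_eq_mul]
    push_cast
    exact div_self WithZero.exp_ne_zero
  have hb : b0 / z ^ f ≠ 0 := div_ne_zero hb00 (pow_ne_zero f hz0)
  have hmb : m / (b0 / z ^ f) ^ 3 = z ^ e := by
    have h1 : m = z * b0 ^ 3 := by rw [hz]; field_simp
    rw [div_pow, ← pow_mul, hf, pow_succ z (3 * f), mul_comm f 3]
    rw [div_div_eq_mul_div, div_eq_iff (pow_ne_zero 3 hb00)]
    conv_lhs => rw [h1]
    ring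
  refine ⟨b0 / z ^ f, hb, fun P hP => ?_⟩
  rw [hmb]
  obtain ⟨k, _, v, j, β, h1, h2, h3, h4⟩ := h P hP
  obtain ⟨hl1, hl2⟩ := hl P hP
  have e3 : v 3 = P.valuation N 3 := by
    have e : (3 : k) = j 3 := by rw [map_ofNat]
    rw [e, h1]
  have hjb : j (b0 / z ^ f) ≠ 0 := (map_ne_zero j).mpr hb
  have h5 := a5a_loc v (j l) (by rw [e3, h1, hl2]) (by
      rw [h1, hl1, ← WithZero.exp_zero, WithZero.exp_lt_exp]
      norm_num) h2 (j (z ^ e)) (β / j (b0 / z ^ f)) (div_ne_zero h3 hjb) (by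
      have e4 : j (z ^ e) - 1 = j (z ^ e - 1) := by rw [map_sub, map_one]
      rw [e4, h1]
      exact hexp P hP z (hzv P hP)) (by
      have e5 : j (z ^ e) / (β / j (b0 / z ^ f)) ^ 3 = j m / β ^ 3 := by
        rw [← hmb, map_div₀, map_pow]
        field_simp
      rw [e5]
      exact h4)
  have e4 : j (z ^ e) - 1 = j (z ^ e - 1) := by rw [map_sub, map_one]
  rw [e4, h1, e3] at h5
  exact h5

end H35Z
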