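import Mathlib
import Pool.Agent.Lib.H19X.EX7
import Pool.Agent.Lib.H19X.T1
import Pool.Agent.Lib.H35T.A16
import Pool.Agent.Lib.H35Z.Defs

/-! Chunk B0 (M, many small): basic facts on BaseF, Unr3, OddTwo.
lam3: as H35X.lam_six (T1.lean) with hU w h3; three3: H19X.T1_three. no_i3: F has no square root of -1 (T1b_noF in H35X/T1b.lean is private: copy; or H35T.A5_no_F), a root x in K of x^2 = -1
has degree 2 over F, dividing the odd number [K : F] (compare H35X.no_i). no_r3: s = image of sq3 in K, s^2 = -3 (H35T.A16_sq3), (x/s)^2 = -1.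
oddTwo_down: w₀ of K₀ above 2, w of K above w₀ (H19X.EX7_above), w.valuation (algebraMap x) = w₀.valuation x ^ e, e > 0 (H55C.A4_glob or valuation_liesOver; see H35X.U2_val or
H35X.unrTwo_down in T1.lean): exp(-odd) = (w₀.valuation 2)^e, w₀.valuation 2 = exp(-k), k e is odd so k is odd. baseF_F: [F : F] = 1, ramification indices are 1, 2 is prime in O, so
v(2) = exp(-1) (H19X.T1_val for K = F). layer_e: in a Galois extension of degree 3 every ramification index is 1 or 3 (it divides 3: e f g = 3, see H35X.U2_e3). baseF_layer: odd degree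
(finrank_mul_finrank), Unr3: e(W|O) = e(W|w) e(w|O) (Ideal.ramificationIdx_tower), OddTwo: the valuation of 2 at W is e(W|w) times that at w (w the prime below), e(W|w) is 1 or 3. -/

open NumberField IsDedekindDomain

namespace H35Z

open H55B H35T H13E H35X

variable {K : Type} [Field K] [NumberField K] [Algebra F K]

theorem lam3 (hU : H35N.Unr3 K) (w : HeightOneSpectrum (𝓞 K)) (h3 : (3 : 𝓞 K) ∈ w.asIdeal) :
    w.valuation K (algebraMap O K (om - 1)) = WithZero.exp (-1 : ℤ) := by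
  have hwm := w.isMaximal
  have hwp := w.isPrime
  apply H19X.T1_val w (hU w h3) (om - 1) H55B.lam_prime
  have h1 : (3 : 𝓞 K) = algebraMap O (𝓞 K) 3 := (map_ofNat (algebraMap O (𝓞 K)) 3).symm
  rw [h1, H55B.three_eq, neg_mul, map_neg, Ideal.neg_mem_iff, map_mul] at h3
  rcases hwp.mem_or_mem h3 with h2 | h2
  · exact absurd h2 (H55B.G5_om _ _ hwm.ne_top)
  · rw [map_pow] at h2
    exact hwp.mem_of_pow_mem _ h2

theorem three3 (hU : H35N.Unr3 K) (w : HeightOneSpectrum (𝓞 K)) (h3 : (3 : 𝓞 K) ∈ w.asIdeal) :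
    w.valuation K (3 : K) = WithZero.exp (-2 : ℤ) := by
  exact H19X.T1_three w (lam3 hU w h3)

theorem b0_noF (i : F) (hi : i ^ 2 = -1) : False := by
  have h4 : IsPrimitiveRoot i 4 := by
    rw [IsPrimitiveRoot.iff_def]
    refine ⟨by linear_combination (i ^ 2 - 1) * hi, ?_⟩
    intro l hl
    have h1 : orderOf i = 2 ^ (1 + 1) := by
      apply orderOf_eq_prime_pow
      · intro h
        rw [pow_one, hi] at h
        norm_num at h
      · norm_num
        linear_combination (i ^ 2 - 1) * hi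
    have h2 := orderOf_dvd_of_pow_eq_one hl
    rw [h1] at h2
    exact h2
  have := h4.dvd_of_isCyclotomicExtension (K := F) 3 (by norm_num)
  omega

theorem no_i3 (h : Odd (Module.finrank F K)) (x : K) : x ^ 2 ≠ -1 := by
  intro hx2
  have hirr : Irreducible (Polynomial.X ^ 2 - Polynomial.C (-1 : F)) := by
    refine X_pow_sub_C_irreducible_of_prime Nat.prime_two ?_
    intro b hb
    exact b0_noF b hb
  have hroot : Polynomial.aeval x (Polynomial.X ^ 2 - Polynomial.C (-1 : F)) = 0 := by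
    rw [map_sub, map_pow, Polynomial.aeval_X, Polynomial.aeval_C, map_neg, map_one, hx2, sub_self]
  have hmin := minpoly.eq_of_irreducible_of_monic hirr hroot
    (Polynomial.monic_X_pow_sub_C _ two_ne_zero)
  have hfp : 0 < Module.finrank F K := h.pos
  have hfin : FiniteDimensional F K := FiniteDimensional.of_finrank_pos hfp
  have hdvd : (minpoly F x).natDegree ∣ Module.finrank F K :=
    minpoly.degree_dvd (IsIntegral.of_finite _ _)
  rw [← hmin, Polynomial.natDegree_X_pow_sub_C] at hdvd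
  obtain ⟨c, hc⟩ := h
  omega

theorem no_r3 (h : Odd (Module.finrank F K)) (x : K) : x ^ 2 ≠ 3 := by
  intro hx
  have hs := H35T.A16_sq3 K
  have hs0 : algebraMap O K sq3 ≠ 0 := by
    intro h0
    rw [h0] at hs
    norm_num at hs
  apply no_i3 h (x / algebraMap O K sq3)
  rw [div_pow, hx, hs]
  norm_num

theorem no_i27 (h : Odd (Module.finrank F K)) : ¬ ∃ x : K, x ^ 2 = ((-1 : ℤ) : K) := by
  rintro ⟨x, hx⟩
  refine no_i3 h x ?_
  rw [hx]
  norm_num

theorem oddTwo_down {K₀ K : Type} [Field K₀] [NumberField K₀] [Field K] [NumberField K] [Algebra K₀ K]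
    (h : OddTwo K) : OddTwo K₀ := by
  intro w₀ hw₀
  obtain ⟨P, hP⟩ := H19X.EX7_above (K := K₀) (N := K) w₀
  obtain ⟨w, e, hw, he, hval⟩ := H55C.A4_glob (K := K₀) (N := K) P
  have hww : w = w₀ := HeightOneSpectrum.ext (hw.trans hP.symm)
  subst hww
  have h2 : (2 : 𝓞 K) ∈ P.asIdeal := by
    have h3 : (2 : 𝓞 K₀) ∈ P.asIdeal.under (𝓞 K₀) := hw ▸ hw₀
    rw [Ideal.mem_under, map_ofNat] at h3
    exact h3
  obtain ⟨f, hf, hPv⟩ := h P h2
  have h5 := hval 2
  rw [map_ofNat, hPv] at h5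
  have h6 : w.valuation K₀ (2 : K₀) ≠ 0 := (Valuation.ne_zero_iff _).2 two_ne_zero
  have hn := (WithZero.exp_log h6).symm
  set n := WithZero.log (w.valuation K₀ (2 : K₀)) with hnd
  rw [hn, ← WithZero.exp_nsmul] at h5
  have h7 : (-(f : ℤ)) = e • n := WithZero.exp_injective h5
  rw [nsmul_eq_mul] at h7
  have hle : w.valuation K₀ (2 : K₀) ≤ 1 := by
    have := w.valuation_le_one (K := K₀) (2 : 𝓞 K₀)
    change w.valuation K₀ (algebraMap (𝓞 K₀) K₀ 2) ≤ 1 at this
    rwa [map_ofNat] at this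
  have hn0 : n ≤ 0 := by
    rw [hn, ← WithZero.exp_zero, WithZero.exp_le_exp] at hle
    exact hle
  obtain ⟨m, hm⟩ := Int.eq_ofNat_of_zero_le (neg_nonneg.2 hn0)
  have hnm : n = -(m : ℤ) := by omega
  refine ⟨m, ?_, ?_⟩
  · have h8 : f = e * m := by
      have : (f : ℤ) = e * m := by
        rw [hnm] at h7
        linear_combination -h7
      exact_mod_cast this
    rw [h8] at hf
    exact (Nat.odd_mul.1 hf).2
  · rw [hn, hnm]

theorem baseF_F : BaseF F := by
  have hr : ∀ w : HeightOneSpectrum (𝓞 F), w.asIdeal.ramificationIdx O = 1 := by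
    intro w
    have hwp := w.isPrime
    have h1 : w.asIdeal.ramificationIdx O = w.asIdeal.ramificationIdx O * w.asIdeal.ramificationIdx O := by
      have hl : w.asIdeal.LiesOver w.asIdeal := ⟨by
        rw [Ideal.under_def]
        exact (Ideal.comap_id _).symm⟩
      exact Ideal.ramificationIdx_tower (R := O) w.asIdeal w.asIdeal
    have h2 : 0 < w.asIdeal.ramificationIdx O := w.asIdeal.ramificationIdx_pos O
    exact Nat.eq_of_mul_eq_mul_left h2 (by rw [← h1, mul_one])
  refine ⟨?_, fun w _ => hr w, ?_⟩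
  · rw [Module.finrank_self]
    exact odd_one
  · intro w hw
    refine ⟨1, odd_one, ?_⟩
    have h := H19X.T1_val w (hr w) 2 H55B.two_prime (by rw [map_ofNat]; exact hw)
    rw [map_ofNat] at h
    exact_mod_cast h

theorem b0_split {M K : Type} [Field M] [NumberField M] [Field K] [NumberField K] [Algebra M K]
    [IsGalois M K] (h3 : Module.finrank M K = 3) (w : HeightOneSpectrum (𝓞 K)) :
    w.asIdeal.ramificationIdx (𝓞 M) ∣ 3 ∧ w.asIdeal.inertiaDeg (𝓞 M) ∣ 3 := by
  have hfin : FiniteDimensional M K := Module.Finite.right ℚ M K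
  let w1 : HeightOneSpectrum (𝓞 M) := ⟨w.asIdeal.under (𝓞 M), w.isPrime.under (𝓞 M),
    Ideal.IsIntegral.comap_ne_bot _ w.ne_bot⟩
  have hwp := w.isPrime
  have hw1p := w1.isPrime
  have hl : w.asIdeal.LiesOver w1.asIdeal := ⟨rfl⟩
  have hmax := w1.isMaximal
  have hWm := w.isMaximal
  have h1 := Ideal.ncard_primesOver_mul_ramificationIdxIn_mul_inertiaDegIn w1.asIdeal (𝓞 K)
    (K ≃ₐ[M] K)
  rw [IsGalois.card_aut_eq_finrank, h3,
    Ideal.inertiaDegIn_eq_inertiaDeg w1.asIdeal w.asIdeal (K ≃ₐ[M] K),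
    Ideal.ramificationIdxIn_eq_ramificationIdx w1.asIdeal w.asIdeal (K ≃ₐ[M] K)] at h1
  constructor
  · exact ⟨(w1.asIdeal.primesOver (𝓞 K)).ncard * w.asIdeal.inertiaDeg (𝓞 M), h1.symm.trans (by ring)⟩
  · exact ⟨(w1.asIdeal.primesOver (𝓞 K)).ncard * w.asIdeal.ramificationIdx (𝓞 M), h1.symm.trans (by ring)⟩

theorem layer_e {M K : Type} [Field M] [NumberField M] [Field K] [NumberField K] [Algebra M K]
    [IsGalois M K] (h3 : Module.finrank M K = 3) (w : HeightOneSpectrum (𝓞 K)) :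
    w.asIdeal.ramificationIdx (𝓞 M) = 1 ∨ w.asIdeal.ramificationIdx (𝓞 M) = 3 := by
  exact (Nat.dvd_prime Nat.prime_three).1 (b0_split h3 w).1

theorem layer_f {M K : Type} [Field M] [NumberField M] [Field K] [NumberField K] [Algebra M K]
    [IsGalois M K] (h3 : Module.finrank M K = 3) (w : HeightOneSpectrum (𝓞 K)) :
    w.asIdeal.inertiaDeg (𝓞 M) = 1 ∨ w.asIdeal.inertiaDeg (𝓞 M) = 3 := by
  exact (Nat.dvd_prime Nat.prime_three).1 (b0_split h3 w).2

theorem baseF_layer {M K : Type} [Field M] [NumberField M] [Algebra F M] [Field K] [NumberField K]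
    [Algebra F K] [Algebra M K] [IsScalarTower F M K] [IsGalois M K] (h3 : Module.finrank M K = 3)
    (hM : BaseF M)
    (hU : ∀ w : HeightOneSpectrum (𝓞 K), (3 : 𝓞 K) ∈ w.asIdeal → w.asIdeal.ramificationIdx (𝓞 M) = 1) :
    BaseF K := by
  have hund : ∀ W : HeightOneSpectrum (𝓞 K), ∃ w : HeightOneSpectrum (𝓞 M), w.asIdeal = W.asIdeal.under (𝓞 M) :=
    fun W => ⟨⟨W.asIdeal.under (𝓞 M), W.isPrime.under (𝓞 M),
      Ideal.IsIntegral.comap_ne_bot _ W.ne_bot⟩, rfl⟩
  refine ⟨?_, ?_, ?_⟩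
  · rw [← Module.finrank_mul_finrank F M K, h3]
    exact hM.odd.mul (by decide)
  · intro W h3W
    obtain ⟨w, hw⟩ := hund W
    have hl : W.asIdeal.LiesOver w.asIdeal := ⟨hw⟩
    have hWp := W.isPrime
    have hwp := w.isPrime
    have h3w : (3 : 𝓞 M) ∈ w.asIdeal := by
      rw [hw, Ideal.mem_under, map_ofNat]
      exact h3W
    have ht : IsScalarTower O (𝓞 M) (𝓞 K) := inferInstance
    have h2 := Ideal.ramificationIdx_tower (R := O) w.asIdeal W.asIdeal
    rw [hM.unr w h3w, hU W h3W, mul_one] at h2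
    exact h2
  · intro W h2W
    obtain ⟨w, hw⟩ := hund W
    have hl : W.asIdeal.LiesOver w.asIdeal := ⟨hw⟩
    have hWp := W.isPrime
    have h2w : (2 : 𝓞 M) ∈ w.asIdeal := by
      rw [hw, Ideal.mem_under, map_ofNat]
      exact h2W
    obtain ⟨e, he, hv⟩ := hM.two w h2w
    have hval := HeightOneSpectrum.valuation_liesOver K w W (2 : M)
    have hra : w.asIdeal.ramificationIdx' W.asIdeal = W.asIdeal.ramificationIdx (𝓞 M) :=
      Ideal.ramificationIdx'_eq_ramificationIdx w.asIdeal W.asIdeal w.ne_bot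
    rw [hra, hv, map_ofNat] at hval
    refine ⟨e * W.asIdeal.ramificationIdx (𝓞 M), ?_, ?_⟩
    · refine he.mul ?_
      rcases layer_e h3 W with h | h
      · rw [h]; exact odd_one
      · rw [h]; decide
    · rw [← hval, ← WithZero.exp_nsmul]
      congr 1
      rw [nsmul_eq_mul]
      push_cast
      ring

end H35Z
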