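import Mathlib
import Pool.Agent.Lib.H35X.G2
import Pool.Agent.Lib.H35Z.A5a
import Pool.Agent.Lib.H35Z.B0

/-! Chunk A7 (M): from m' = j(m0) c^3 with Cnd3 over K to Cnd3 over M, for a layer K/M (K/M Galois of degree 3, unramified above 3, no bad prime ramified). j : N₁ -> N as in H35X.U2.
ne: clear. norm: hypothesis. Let P₀ be a prime of N₁; P above P₀ (Algebra N₁ N := j.toAlgebra, H19X.EX7_above; compare H35X.U2_val, Q1_over), P.valuation (j z) = P₀.valuation z ^ e, e = ramification index of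
P over P₀, e >= 1.
val (6 not in P₀): P.valuation (j m0) = exp(3 (k - k')) (Cnd3.val for m', c^3), so 3 divides e l, where P₀.valuation m0 = exp l. If 3 does not divide e then 3 | l. If 3 divides e: let w₀ = P₀ ∩ 𝓞 M,
W = P ∩ 𝓞 K. e(P|P₀) e(P₀|w₀) = e(P|W) e(W|w₀) and e(P|W) = 1 (QN.unr, 2 not in P), so 3 divides e(W|w₀), which is not 1. By NoBad there is no x in 𝓞 M with x^2 + 1 in w₀. Then
there is only one prime of N₁ above w₀, in particular P₀.valuation (T₁ z) = P₀.valuation z for all z: proof (compare H35T/A9.lean, A9_inv, A9_unit, A9_scale, over F; here the scaling is local): let z = a + b t₁; choose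
c in {a, b} with the larger w₀-valuation, z = c (a' + b' t₁) with a', b' in M of w₀-valuation <= 1, one of them equal to 1; a' + b' t₁ and a' - b' t₁ have P₀-valuation <= 1 and product a'^2 + b'^2, which has
w₀-valuation 1 (otherwise -1 would be a square modulo w₀: approximate a', b' by elements of 𝓞 M, for example HeightOneSpectrum.exists_valuation_sub_lt_of_integer, see H19X/U2.lean:216 or H35X.E5b), so both have valuation 1
and P₀.valuation z = w₀-value of c = P₀.valuation (T₁ z). Hence P₀.valuation (m0)^2 = P₀.valuation (n0)^3, 2 l = 3 l', so 3 | l.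
three: three_glob (A5a) for N₁ and l = image of om - 1 (lam3 and three3 for M; QN.val_eq): for P₀ above 3, P above P₀: W = P ∩ 𝓞 K is unramified over w₀ (hU) and e(P|W) = 1, so e(P|P₀) = 1 (e(P|P₀) divides e(P|W) e(W|w₀) = 1), and P.valuation (j z) = P₀.valuation z. Take
k = N, v = P.valuation N, β = b/c with b from Cnd3.three for m' : j m0/β^3 = m'/b^3. If v(z) < 1 then v(z) <= exp(-1) = v(image of om - 1) (integer values; lam3 for K or M). -/

open NumberField IsDedekindDomain Polynomial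

namespace H35Z

open H55B H35T H13E H35X

variable {M K N₁ N : Type} [Field M] [NumberField M] [Algebra F M] [Field K] [NumberField K]
  [Algebra F K] [Algebra M K] [IsScalarTower F M K] [Field N₁] [NumberField N₁] [Algebra M N₁]
  [Field N] [NumberField N] [Algebra K N] {t₁ : N₁} {T₁ : N₁ ≃ₐ[M] N₁} {t : N} {T : N ≃ₐ[K] N}

omit [NumberField K] [Algebra F K] [Algebra F M] [Algebra M K] [IsScalarTower F M K] [NumberField N] [Algebra K N] in
theorem a7_alg (P₀ : HeightOneSpectrum (𝓞 N₁)) (w₀ : HeightOneSpectrum (𝓞 M))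
    (hw : w₀.asIdeal = P₀.asIdeal.under (𝓞 M)) :
    ∃ e : ℕ, e ≠ 0 ∧ ∀ x : M, P₀.valuation N₁ (algebraMap M N₁ x) = w₀.valuation M x ^ e := by
  obtain ⟨w, e, hw', he, hval⟩ := H55C.A4_glob (K := M) P₀
  have hww : w = w₀ := HeightOneSpectrum.ext (hw'.trans hw.symm)
  subst hww
  exact ⟨e, he, hval⟩

theorem a7_unit (w₀ : HeightOneSpectrum (𝓞 M)) (hno : ¬ ∃ x : 𝓞 M, x ^ 2 + 1 ∈ w₀.asIdeal) (a : M)
    (ha : w₀.valuation M a ≤ 1) : w₀.valuation M (a ^ 2 + 1) = 1 := by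
  have h1 : w₀.valuation M (a ^ 2 + 1) ≤ 1 := by
    refine (w₀.valuation M).map_add_le ?_ (by rw [map_one])
    rw [map_pow]
    exact pow_le_one₀ zero_le ha
  refine le_antisymm h1 ?_
  by_contra hlt
  rw [not_le] at hlt
  obtain ⟨x, hx⟩ := HeightOneSpectrum.exists_valuation_sub_lt_of_integer w₀ ha 1
  apply hno
  refine ⟨x, ?_⟩
  have hx' : w₀.valuation M (algebraMap (𝓞 M) M x - a) < 1 := by simpa using hx
  refine (HeightOneSpectrum.valuation_lt_one_iff_mem (K := M) w₀ _).1 ?_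
  have hxi : w₀.valuation M (algebraMap (𝓞 M) M x) ≤ 1 := w₀.valuation_le_one x
  have e1 : algebraMap (𝓞 M) M (x ^ 2 + 1) = (algebraMap (𝓞 M) M x - a) * (algebraMap (𝓞 M) M x + a) + (a ^ 2 + 1) := by
    rw [map_add, map_pow, map_one]
    ring
  show w₀.valuation M (algebraMap (𝓞 M) M (x ^ 2 + 1)) < 1
  rw [e1]
  refine (w₀.valuation M).map_add_lt ?_ hlt
  rw [map_mul]
  have h2 : w₀.valuation M (algebraMap (𝓞 M) M x + a) ≤ 1 := (w₀.valuation M).map_add_le hxi ha
  exact (mul_le_of_le_one_right zero_le h2).trans_lt hx'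

theorem a7_pair (h₁ : QN (-1) M N₁ t₁ T₁) (P₀ : HeightOneSpectrum (𝓞 N₁)) (w₀ : HeightOneSpectrum (𝓞 M))
    (hw : w₀.asIdeal = P₀.asIdeal.under (𝓞 M)) (p q : M) (hp : w₀.valuation M p ≤ 1) (hq : w₀.valuation M q ≤ 1)
    (hpq : w₀.valuation M (p ^ 2 + q ^ 2) = 1) :
    P₀.valuation N₁ (algebraMap M N₁ p - algebraMap M N₁ q * t₁) = 1 ∧
      P₀.valuation N₁ (algebraMap M N₁ p + algebraMap M N₁ q * t₁) = 1 := by
  obtain ⟨e, he, hval⟩ := a7_alg P₀ w₀ hw
  have hsq : t₁ ^ 2 = -1 := by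
    rw [h₁.sq]
    push_cast
    rfl
  have ht : P₀.valuation N₁ t₁ = 1 := by
    have h2 : P₀.valuation N₁ t₁ ^ 2 = 1 := by rw [← map_pow, hsq, Valuation.map_neg, map_one]
    exact (pow_eq_one_iff_of_nonneg zero_le two_ne_zero).mp h2
  have hp' : P₀.valuation N₁ (algebraMap M N₁ p) ≤ 1 := by
    rw [hval]
    exact pow_le_one₀ zero_le hp
  have hq' : P₀.valuation N₁ (algebraMap M N₁ q * t₁) ≤ 1 := by
    rw [map_mul, ht, mul_one, hval]
    exact pow_le_one₀ zero_le hq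
  have h1 : P₀.valuation N₁ (algebraMap M N₁ p - algebraMap M N₁ q * t₁) ≤ 1 := (P₀.valuation N₁).map_sub_le hp' hq'
  have h2 : P₀.valuation N₁ (algebraMap M N₁ p + algebraMap M N₁ q * t₁) ≤ 1 := (P₀.valuation N₁).map_add_le hp' hq'
  have h3 : P₀.valuation N₁ (algebraMap M N₁ p - algebraMap M N₁ q * t₁) *
      P₀.valuation N₁ (algebraMap M N₁ p + algebraMap M N₁ q * t₁) = 1 := by
    rw [← map_mul]
    have e1 : (algebraMap M N₁ p - algebraMap M N₁ q * t₁) * (algebraMap M N₁ p + algebraMap M N₁ q * t₁) =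
        algebraMap M N₁ (p ^ 2 + q ^ 2) := by
      rw [map_add, map_pow, map_pow]
      linear_combination (-(algebraMap M N₁ q) ^ 2) * hsq
    rw [e1, hval, hpq, one_pow]
  constructor
  · refine le_antisymm h1 ?_
    rw [← h3]
    exact mul_le_of_le_one_right zero_le h2
  · refine le_antisymm h2 ?_
    rw [← h3]
    exact mul_le_of_le_one_left zero_le h1

/-- If -1 is not a square modulo w₀ then the conjugation preserves the valuations above w₀. -/
theorem a7_inv (h₁ : QN (-1) M N₁ t₁ T₁) (P₀ : HeightOneSpectrum (𝓞 N₁)) (w₀ : HeightOneSpectrum (𝓞 M))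
    (hw : w₀.asIdeal = P₀.asIdeal.under (𝓞 M)) (hno : ¬ ∃ x : 𝓞 M, x ^ 2 + 1 ∈ w₀.asIdeal) (z : N₁) :
    P₀.valuation N₁ (T₁ z) = P₀.valuation N₁ z := by
  obtain ⟨a, b, rfl⟩ := h₁.span z
  rw [h₁.T_mk]
  have hal := a7_alg P₀ w₀ hw
  obtain ⟨e, he, hval⟩ := hal
  rcases le_total (w₀.valuation M a) (w₀.valuation M b) with hab | hab
  · by_cases hb : b = 0
    · subst hb
      rw [map_zero, zero_mul, add_zero, sub_zero]
    · have hvb : w₀.valuation M b ≠ 0 := (Valuation.ne_zero_iff _).2 hb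
      have h1 : w₀.valuation M (a / b) ≤ 1 := by
        rw [map_div₀]
        exact div_le_one_of_le₀ hab zero_le
      have h2 := a7_pair h₁ P₀ w₀ hw (a / b) 1 h1 (by rw [map_one]) (by
        rw [one_pow]
        exact a7_unit w₀ hno _ h1)
      have hb' : algebraMap M N₁ b ≠ 0 := by rw [Ne, map_eq_zero]; exact hb
      have e1 : algebraMap M N₁ a - algebraMap M N₁ b * t₁ =
          algebraMap M N₁ b * (algebraMap M N₁ (a / b) - algebraMap M N₁ 1 * t₁) := by
        rw [map_div₀, map_one]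
        field_simp
      have e2 : algebraMap M N₁ a + algebraMap M N₁ b * t₁ =
          algebraMap M N₁ b * (algebraMap M N₁ (a / b) + algebraMap M N₁ 1 * t₁) := by
        rw [map_div₀, map_one]
        field_simp
      rw [e1, e2, map_mul, map_mul, h2.1, h2.2]
  · by_cases ha : a = 0
    · subst ha
      rw [map_zero, zero_add, zero_sub, Valuation.map_neg]
    · have hva : w₀.valuation M a ≠ 0 := (Valuation.ne_zero_iff _).2 ha
      have h1 : w₀.valuation M (b / a) ≤ 1 := by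
        rw [map_div₀]
        exact div_le_one_of_le₀ hab zero_le
      have h2 := a7_pair h₁ P₀ w₀ hw 1 (b / a) (by rw [map_one]) h1 (by
        rw [one_pow, add_comm]
        exact a7_unit w₀ hno _ h1)
      have ha' : algebraMap M N₁ a ≠ 0 := by rw [Ne, map_eq_zero]; exact ha
      have e1 : algebraMap M N₁ a - algebraMap M N₁ b * t₁ =
          algebraMap M N₁ a * (algebraMap M N₁ 1 - algebraMap M N₁ (b / a) * t₁) := by
        rw [map_div₀, map_one]
        field_simp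
      have e2 : algebraMap M N₁ a + algebraMap M N₁ b * t₁ =
          algebraMap M N₁ a * (algebraMap M N₁ 1 + algebraMap M N₁ (b / a) * t₁) := by
        rw [map_div₀, map_one]
        field_simp
      rw [e1, e2, map_mul, map_mul, h2.1, h2.2]

theorem a7_le {k : Type} [Field k] (v : Valuation k (WithZero (Multiplicative ℤ))) {x : k} (hx : v x < 1) :
    v x ≤ WithZero.exp (-1 : ℤ) := by
  by_cases hx0 : v x = 0
  · rw [hx0]
    exact zero_le
  · rw [← WithZero.exp_log hx0, WithZero.exp_le_exp]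
    rw [← WithZero.exp_log hx0, ← WithZero.exp_zero, WithZero.exp_lt_exp] at hx
    omega

theorem cnd_descend [IsGalois M K] (h3 : Module.finrank M K = 3) (hM : BaseF M)
    (hU : ∀ w : HeightOneSpectrum (𝓞 K), (3 : 𝓞 K) ∈ w.asIdeal → w.asIdeal.ramificationIdx (𝓞 M) = 1)
    (hnb : NoBad M K) (h₁ : QN (-1) M N₁ t₁ T₁) (h : QN (-1) K N t T) (j : N₁ →+* N)
    (hj : ∀ x : M, j (algebraMap M N₁ x) = algebraMap K N (algebraMap M K x)) (hjt : j t₁ = t)
    (m : N) (hm : Cnd3 K N T m) (m0 : N₁) (c : N) (hc : c ≠ 0) (hmc : m = j m0 * c ^ 3)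
    (n0 : M) (hn0 : m0 * T₁ m0 = algebraMap M N₁ n0 ^ 3) : Cnd3 M N₁ T₁ m0 := by
  have hm0 : m0 ≠ 0 := by
    rintro rfl
    apply hm.ne
    rw [hmc, map_zero, zero_mul]
  have hj0 : j m0 ≠ 0 := (map_ne_zero j).mpr hm0
  have hn00 : n0 ≠ 0 := by
    rintro rfl
    rw [map_zero, zero_pow three_ne_zero] at hn0
    rcases mul_eq_zero.1 hn0 with h' | h'
    · exact hm0 h'
    · rw [map_eq_zero] at h'
      exact hm0 h'
  -- the tower
  let _ : Algebra N₁ N := j.toAlgebra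
  let _ : Algebra M N := ((algebraMap K N).comp (algebraMap M K)).toAlgebra
  have t1 : IsScalarTower M K N := IsScalarTower.of_algebraMap_eq (fun x => rfl)
  have t2 : IsScalarTower M N₁ N := IsScalarTower.of_algebraMap_eq (fun x => (hj x).symm)
  have t1' : IsScalarTower (𝓞 M) (𝓞 K) (𝓞 N) := inferInstance
  have t2' : IsScalarTower (𝓞 M) (𝓞 N₁) (𝓞 N) := inferInstance
  have htower : ∀ (P₀ : HeightOneSpectrum (𝓞 N₁)) (P : HeightOneSpectrum (𝓞 N)), P₀.asIdeal = P.asIdeal.under (𝓞 N₁) →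
      (2 : 𝓞 N) ∉ P.asIdeal →
      ∃ (W : HeightOneSpectrum (𝓞 K)) (w₀ : HeightOneSpectrum (𝓞 M)), W.asIdeal = P.asIdeal.under (𝓞 K) ∧
        w₀.asIdeal = W.asIdeal.under (𝓞 M) ∧ w₀.asIdeal = P₀.asIdeal.under (𝓞 M) ∧
        P.asIdeal.ramificationIdx (𝓞 N₁) ≠ 0 ∧
        P₀.asIdeal.ramificationIdx (𝓞 M) * P.asIdeal.ramificationIdx (𝓞 N₁) = W.asIdeal.ramificationIdx (𝓞 M) ∧
        ∀ z : N₁, P.valuation N (j z) = P₀.valuation N₁ z ^ P.asIdeal.ramificationIdx (𝓞 N₁) := by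
    intro P₀ P hP h2P
    have hPp := P.isPrime
    have hPm := P.isMaximal
    let W : HeightOneSpectrum (𝓞 K) := ⟨P.asIdeal.under (𝓞 K), P.isPrime.under (𝓞 K),
      Ideal.IsIntegral.comap_ne_bot _ P.ne_bot⟩
    let w₀ : HeightOneSpectrum (𝓞 M) := ⟨W.asIdeal.under (𝓞 M), W.isPrime.under (𝓞 M),
      Ideal.IsIntegral.comap_ne_bot _ W.ne_bot⟩
    have hl : P.asIdeal.LiesOver P₀.asIdeal := ⟨hP⟩
    have hlW : P.asIdeal.LiesOver W.asIdeal := ⟨rfl⟩
    have e1 : P.asIdeal.ramificationIdx (𝓞 M) = P₀.asIdeal.ramificationIdx (𝓞 M) *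
        P.asIdeal.ramificationIdx (𝓞 N₁) := Ideal.ramificationIdx_tower P₀.asIdeal P.asIdeal
    have e2 : P.asIdeal.ramificationIdx (𝓞 M) = W.asIdeal.ramificationIdx (𝓞 M) *
        P.asIdeal.ramificationIdx (𝓞 K) := Ideal.ramificationIdx_tower W.asIdeal P.asIdeal
    have e3 : P₀.asIdeal.ramificationIdx' P.asIdeal = P.asIdeal.ramificationIdx (𝓞 N₁) :=
      Ideal.ramificationIdx'_eq_ramificationIdx P₀.asIdeal P.asIdeal P₀.ne_bot
    have hval : ∀ z : N₁, P.valuation N (j z) = P₀.valuation N₁ z ^ P₀.asIdeal.ramificationIdx' P.asIdeal := fun z =>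
      (HeightOneSpectrum.valuation_liesOver N P₀ P z).symm
    rw [h.unr P h2P, mul_one] at e2
    refine ⟨W, w₀, rfl, rfl, ?_, ?_, ?_, ?_⟩
    · show (P.asIdeal.under (𝓞 K)).under (𝓞 M) = P₀.asIdeal.under (𝓞 M)
      rw [hP, Ideal.under_under, Ideal.under_under]
    · exact (P.asIdeal.ramificationIdx_pos (𝓞 N₁)).ne'
    · rw [← e1, e2]
    · intro z
      rw [hval, e3]
  refine ⟨hm0, ⟨n0, hn0⟩, ?_, ?_⟩
  · intro P₀ h6
    obtain ⟨P, hP⟩ := H19X.EX7_above (N := N) P₀
    have hmem : ∀ n : ℕ, (n : 𝓞 N) ∈ P.asIdeal ↔ (n : 𝓞 N₁) ∈ P₀.asIdeal := by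
      intro n
      rw [hP, Ideal.mem_comap, map_natCast]
    have h6P : (6 : 𝓞 N) ∉ P.asIdeal := by
      intro h6'
      apply h6
      have := (hmem 6).1 (by exact_mod_cast h6')
      exact_mod_cast this
    have h2P : (2 : 𝓞 N) ∉ P.asIdeal := by
      intro h2
      apply h6P
      have := P.asIdeal.mul_mem_left 3 h2
      norm_num at this
      exact this
    obtain ⟨W, w₀, hW, hw₀, hw₀', he0, hee, hval⟩ := htower P₀ P hP h2P
    obtain ⟨k, hk⟩ := hm.val P h6P
    have hvm0 : P₀.valuation N₁ m0 ≠ 0 := (Valuation.ne_zero_iff _).2 hm0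
    have hvc : P.valuation N c ≠ 0 := (Valuation.ne_zero_iff _).2 hc
    obtain ⟨l, hl⟩ : ∃ l : ℤ, P₀.valuation N₁ m0 = WithZero.exp l := ⟨_, (WithZero.exp_log hvm0).symm⟩
    obtain ⟨k', hk'⟩ : ∃ l : ℤ, P.valuation N c = WithZero.exp l := ⟨_, (WithZero.exp_log hvc).symm⟩
    have h1 : 3 * k = (P.asIdeal.ramificationIdx (𝓞 N₁) : ℤ) * l + 3 * k' := by
      rw [hmc, map_mul, map_pow, hval, hl, hk', ← WithZero.exp_nsmul, ← WithZero.exp_nsmul, ← WithZero.exp_add,
        WithZero.exp_inj, nsmul_eq_mul, nsmul_eq_mul] at hk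
      push_cast at hk
      exact hk.symm
    by_cases h3e : (3 : ℤ) ∣ (P.asIdeal.ramificationIdx (𝓞 N₁) : ℤ)
    · have h3W : (3 : ℤ) ∣ (W.asIdeal.ramificationIdx (𝓞 M) : ℤ) := by
        rw [← hee]
        push_cast
        exact Dvd.dvd.mul_left h3e _
      have hno : ¬ ∃ x : 𝓞 M, x ^ 2 + 1 ∈ w₀.asIdeal := by
        intro hx
        have h6w : (6 : 𝓞 M) ∉ w₀.asIdeal := by
          intro h6'
          apply h6
          rw [hw₀', Ideal.under_def, Ideal.mem_comap, map_ofNat] at h6'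
          exact h6'
        have := hnb w₀ W hw₀ h6w hx
        rw [this] at h3W
        omega
      have h4 := congrArg (P₀.valuation N₁) hn0
      have hvn0 : P₀.valuation N₁ (algebraMap M N₁ n0) ≠ 0 :=
        (Valuation.ne_zero_iff _).2 (by rw [Ne, map_eq_zero]; exact hn00)
      obtain ⟨l', hl'⟩ : ∃ l : ℤ, P₀.valuation N₁ (algebraMap M N₁ n0) = WithZero.exp l := ⟨_, (WithZero.exp_log hvn0).symm⟩
      rw [map_mul, a7_inv h₁ P₀ w₀ hw₀' hno, map_pow, hl, hl', ← WithZero.exp_nsmul, ← WithZero.exp_add, WithZero.exp_inj,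
        nsmul_eq_mul] at h4
      push_cast at h4
      refine ⟨l - l', ?_⟩
      rw [hl, WithZero.exp_inj]
      linarith
    · have h3l : (3 : ℤ) ∣ l := by
        have h5 : (3 : ℤ) ∣ (P.asIdeal.ramificationIdx (𝓞 N₁) : ℤ) * l := ⟨k - k', by linarith⟩
        exact (Int.Prime.dvd_mul' Nat.prime_three h5).resolve_left h3e
      obtain ⟨i, hi⟩ := h3l
      exact ⟨i, by rw [hl, hi]⟩
  · obtain ⟨b, hb0, hb⟩ := hm.three
    have hthreeP : ∀ P : HeightOneSpectrum (𝓞 N), (3 : 𝓞 N) ∈ P.asIdeal → (2 : 𝓞 N) ∉ P.asIdeal := by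
      intro P h3P h2P
      apply P.isPrime.ne_top
      rw [Ideal.eq_top_iff_one]
      have := P.asIdeal.sub_mem h3P h2P
      norm_num at this
      exact this
    have hthreeP₀ : ∀ P : HeightOneSpectrum (𝓞 N₁), (3 : 𝓞 N₁) ∈ P.asIdeal → (2 : 𝓞 N₁) ∉ P.asIdeal := by
      intro P h3P h2P
      apply P.isPrime.ne_top
      rw [Ideal.eq_top_iff_one]
      have := P.asIdeal.sub_mem h3P h2P
      norm_num at this
      exact this
    have hl : ∀ P₀ : HeightOneSpectrum (𝓞 N₁), (3 : 𝓞 N₁) ∈ P₀.asIdeal →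
        P₀.valuation N₁ (algebraMap M N₁ (algebraMap O M (om - 1))) = WithZero.exp (-1 : ℤ) ∧
        P₀.valuation N₁ (3 : N₁) = WithZero.exp (-2 : ℤ) := by
      intro P₀ h3
      let w₀ : HeightOneSpectrum (𝓞 M) := ⟨P₀.asIdeal.under (𝓞 M), P₀.isPrime.under (𝓞 M),
        Ideal.IsIntegral.comap_ne_bot _ P₀.ne_bot⟩
      have h2P := hthreeP₀ P₀ h3
      have h3w : (3 : 𝓞 M) ∈ w₀.asIdeal := by
        show (3 : 𝓞 M) ∈ P₀.asIdeal.under (𝓞 M)
        rw [Ideal.under_def, Ideal.mem_comap, map_ofNat]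
        exact h3
      constructor
      · rw [h₁.val_eq P₀ h2P w₀ rfl, lam3 hM.unr w₀ h3w]
      · have := h₁.val_eq P₀ h2P w₀ rfl (3 : M)
        rw [map_ofNat] at this
        rw [this, three3 hM.unr w₀ h3w]
    refine three_glob (algebraMap M N₁ (algebraMap O M (om - 1))) (fun P₀ h3 => ?_) m0 hm0 (fun P₀ h3 => ?_)
    · obtain ⟨h1, h2⟩ := hl P₀ h3
      refine ⟨h1, ?_⟩
      rw [h1, h2, pow_two, ← WithZero.exp_add]
      norm_num
    · obtain ⟨P, hP⟩ := H19X.EX7_above (N := N) P₀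
      have h3P : (3 : 𝓞 N) ∈ P.asIdeal := by
        rw [hP, Ideal.under_def, Ideal.mem_comap, map_ofNat] at h3
        exact h3
      have h2P := hthreeP P h3P
      obtain ⟨W, w₀, hW, hw₀, hw₀', he0, hee, hval⟩ := htower P₀ P hP h2P
      have h3W : (3 : 𝓞 K) ∈ W.asIdeal := by
        rw [hW, Ideal.under_def, Ideal.mem_comap, map_ofNat]
        exact h3P
      rw [hU W h3W] at hee
      have he1 : P.asIdeal.ramificationIdx (𝓞 N₁) = 1 := Nat.eq_one_of_mul_eq_one_left hee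
      have hval1 : ∀ z : N₁, P.valuation N (j z) = P₀.valuation N₁ z := fun z => by rw [hval, he1, pow_one]
      refine ⟨N, inferInstance, P.valuation N, j, b / c, hval1, fun z hz => ?_, div_ne_zero hb0 hc, ?_⟩
      · rw [hval1, (hl P₀ h3).1]
        exact a7_le _ hz
      · have e1 : j m0 / (b / c) ^ 3 = m / b ^ 3 := by
          rw [hmc]
          field_simp
        rw [e1]
        exact hb P h3P

end H35Z
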