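import Mathlib
import Pool.Agent.Lib.H35T.A14
import Pool.Agent.Lib.H35Z.A6
import Pool.Agent.Lib.H35Z.A7

/-! Chunk A8 (M): the descent step. cnd3_mul, cnd3_cube, cnd3_act: compare H35T/A13.lean (cond_mul, cond_cube, cond_act; val_auto). For cnd3_mul three: b b'. For cnd3_act: act g preserves the set of primes
containing 6, resp. 3 (H35T.val_auto for 3; for 6: (6 : N) has valuation < 1 at P iff 6 in P; P.valuation (act g z) = P'.valuation z with z = 6, 3), three: act g b.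
cndZ_step: let m be a Cnd3 element of N = K(i) which is not a cube. exists_lay. The group Gal(K/M) has order 3 (IsGalois.card_aut_eq_finrank), so it is a 3-group; H35T.A14_fixed with a = act, P = Cnd3 K N T gives m' with
Cnd3, not a cube, act g m' = m' b^3. Lay.descend' (r = image of om; n nonzero) gives m' = j m0 c^3 with m0 T₁ m0 = n0^3; cnd_descend: m0 satisfies Cnd3 over M, so it is a cube (CndZ M) and so is m'. -/

open NumberField IsDedekindDomain Polynomial

namespace H35Z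

open H55B H35T H13E H35X

theorem cnd3_mul {K N : Type} [Field K] [NumberField K] [Field N] [NumberField N] [Algebra K N]
    {T : N ≃ₐ[K] N} {m m' : N} (h : Cnd3 K N T m) (h' : Cnd3 K N T m') : Cnd3 K N T (m * m') := by
  refine ⟨mul_ne_zero h.ne h'.ne, ?_, ?_, ?_⟩
  · obtain ⟨n, hn2⟩ := h.norm
    obtain ⟨n', hn2'⟩ := h'.norm
    refine ⟨n * n', ?_⟩
    rw [map_mul, map_mul]
    calc m * m' * (T m * T m') = (m * T m) * (m' * T m') := by ring
      _ = _ := by
        rw [hn2, hn2']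
        ring
  · intro P h6
    obtain ⟨k, hk⟩ := h.val P h6
    obtain ⟨k', hk'⟩ := h'.val P h6
    refine ⟨k + k', ?_⟩
    rw [map_mul, hk, hk', ← WithZero.exp_add]
    congr 1
    ring
  · obtain ⟨b, hb, hv⟩ := h.three
    obtain ⟨b', hb', hv'⟩ := h'.three
    refine ⟨b * b', mul_ne_zero hb hb', fun P hP => ?_⟩
    have hθ := A13_three P
    have e : m * m' / (b * b') ^ 3 - 1 =
        (m / b ^ 3 - 1) + ((m' / b' ^ 3 - 1) + (m / b ^ 3 - 1) * (m' / b' ^ 3 - 1)) := by
      field_simp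
      ring
    rw [e]
    refine ((P.valuation N).map_add _ _).trans (max_le (hv P hP) ?_)
    refine ((P.valuation N).map_add _ _).trans (max_le (hv' P hP) ?_)
    rw [map_mul]
    calc P.valuation N (m / b ^ 3 - 1) * P.valuation N (m' / b' ^ 3 - 1) ≤
        P.valuation N 3 * 1 := mul_le_mul' (hv P hP) ((hv' P hP).trans hθ)
      _ = _ := mul_one _

theorem cnd3_cube {K N : Type} [Field K] [NumberField K] [Field N] [NumberField N] [Algebra K N]
    {t : N} {T : N ≃ₐ[K] N} (hq : QN (-1) K N t T) {c : N} (hc : c ≠ 0) : Cnd3 K N T (c ^ 3) := by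
  refine ⟨pow_ne_zero 3 hc, ?_, ?_, ?_⟩
  · obtain ⟨a, b, rfl⟩ := hq.span c
    have h1 := hq.norm_mk a b
    refine ⟨a ^ 2 - (-1 : ℤ) * b ^ 2, ?_⟩
    rw [← h1, map_pow]
    ring
  · intro P _
    obtain ⟨k, hk⟩ := A13_exp P hc
    refine ⟨k, ?_⟩
    rw [map_pow, hk, ← WithZero.exp_nsmul]
    congr 1
  · refine ⟨c, hc, fun P _ => ?_⟩
    rw [div_self (pow_ne_zero 3 hc), sub_self, map_zero]
    exact zero_le

theorem a8_lt {N : Type} [Field N] [NumberField N] (P : HeightOneSpectrum (𝓞 N)) :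
    P.valuation N (6 : N) < 1 ↔ (6 : 𝓞 N) ∈ P.asIdeal := by
  have h := HeightOneSpectrum.valuation_lt_one_iff_mem (K := N) P 6
  have e : (algebraMap (𝓞 N) N 6) = (6 : N) := map_ofNat _ 6
  rw [← e]
  exact h

theorem cnd3_act {M K N₁ N : Type} [Field M] [NumberField M] [Field K] [NumberField K] [Field N₁]
    [NumberField N₁] [Field N] [NumberField N] [Algebra M K] [Algebra M N₁] [Algebra K N] {t₁ : N₁}
    {T₁ : N₁ ≃ₐ[M] N₁} {t : N} {T : N ≃ₐ[K] N} {j : N₁ →+* N} {act : (K ≃ₐ[M] K) → (N ≃+* N)}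
    (C : Lay M K N₁ N t₁ T₁ t T j act) (g : K ≃ₐ[M] K) {m : N} (h : Cnd3 K N T m) :
    Cnd3 K N T (act g m) := by
  refine ⟨(map_ne_zero_iff _ (RingEquiv.injective (act g))).2 h.ne, ?_, ?_, ?_⟩
  · obtain ⟨n, hn2⟩ := h.norm
    refine ⟨g n, ?_⟩
    rw [← C.act_T', ← map_mul, hn2, map_pow, C.act_K]
  · intro P h6
    obtain ⟨P', hP', -⟩ := val_auto (act g) P
    have h6' : (6 : 𝓞 N) ∉ P'.asIdeal := by
      intro h4
      apply h6
      rw [← a8_lt] at h4 ⊢
      have e2 : (6 : N) = act g 6 := by rw [map_ofNat]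
      rw [e2, hP']
      exact h4
    obtain ⟨k, hk⟩ := h.val P' h6'
    exact ⟨k, by rw [hP', hk]⟩
  · obtain ⟨b, hb, hv⟩ := h.three
    refine ⟨act g b, (map_ne_zero_iff _ (RingEquiv.injective (act g))).2 hb, fun P hP => ?_⟩
    obtain ⟨P', hP', h2⟩ := val_auto (act g) P
    have e : act g m / act g b ^ 3 - 1 = act g (m / b ^ 3 - 1) := by
      rw [map_sub, map_div₀, map_pow, map_one]
    have e2 : (3 : N) = act g 3 := by
      rw [map_ofNat]
    rw [e, e2, hP', hP']
    exact hv P' (h2.1 hP)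

theorem cndZ_step {M K : Type} [Field M] [NumberField M] [Algebra F M] [Field K] [NumberField K]
    [Algebra F K] [Algebra M K] [IsScalarTower F M K] [IsGalois M K] (h3 : Module.finrank M K = 3)
    (hM : BaseF M)
    (hU : ∀ w : HeightOneSpectrum (𝓞 K), (3 : 𝓞 K) ∈ w.asIdeal → w.asIdeal.ramificationIdx (𝓞 M) = 1)
    (hnb : NoBad M K) (hZ : CndZ M) : CndZ K := by
  intro N _ _ _ t T hq m hm
  by_contra hns
  obtain ⟨N₁, i1, i2, i3, t₁, T₁, j, act, C⟩ := exists_lay (M := M) hq (no_i27 hM.odd)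
  haveI : FiniteDimensional M K := by
    apply FiniteDimensional.of_finrank_pos
    rw [h3]
    norm_num
  have hp : IsPGroup 3 (K ≃ₐ[M] K) := IsPGroup.of_card (n := 1) (by
    rw [IsGalois.card_aut_eq_finrank, h3, pow_one])
  obtain ⟨m', hm', hns', hfix⟩ := A14_fixed hp act C.act_one' C.act_mul'
    (Cnd3 K N T) (fun m h => h.ne) (fun m m' h h' => cnd3_mul h h')
    (fun c hc => cnd3_cube hq hc) (fun g m h => cnd3_act C g h) m hm (fun ⟨b, hb⟩ => hns ⟨b, hb⟩)
  obtain ⟨n, hn⟩ := hm'.norm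
  have hn0 : n ≠ 0 := by
    rintro rfl
    rw [map_zero, zero_pow three_ne_zero] at hn
    rcases mul_eq_zero.1 hn with h' | h'
    · exact hm'.ne h'
    · rw [map_eq_zero] at h'
      exact hm'.ne h'
  have hr : (algebraMap O M om) ^ 2 + algebraMap O M om + 1 = 0 := by
    rw [← map_pow, ← map_add, ← map_one (algebraMap O M), ← map_add, om_rel, map_zero]
  obtain ⟨m0, c, n0, hc0, hn00, hm0, hn0'⟩ := C.descend' inferInstance (algebraMap O M om) hr m' n hn0 hn hfix
  have h1 := cnd_descend h3 hM hU hnb C.q1 hq j C.jK C.jt m' hm' m0 c hc0 hm0 n0 hn0'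
  obtain ⟨z, hz⟩ := hZ N₁ t₁ T₁ C.q1 m0 h1
  apply hns'
  exact ⟨j z * c, by rw [hm0, hz, map_pow, mul_pow]⟩

end H35Z
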