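import Mathlib
import Pool.Agent.Lib.H35X.E7
import Pool.Agent.Lib.H35X.U1
import Pool.Agent.Lib.H35X.U2
import Pool.Agent.Lib.H35Z.A8

/-! Chunk A9 (M): the two other directions in a layer, and the layer theorem. K/M Galois of degree 3, unramified above 3.
cndZ_down: let N₁, t₁, T₁ with QN (-1) M and m in N₁ with Cnd3. exists_QN (-1) K (no_i27 for K: baseF_layer) gives N; j : N₁ -> N from QN.lift; cnd_mono3 (H35X.U2): j m has Cnd3, so it is a cube; by
nonc_up (H35X.U1; r = image of om, Cnd3.ne, Cnd3.norm) m is a cube. noBad_of_cndZ: suppose w of M, W above w, 6 not in w, x^2 + 1 in w, e(W|w) <> 1. exists_QN for M: N₁; exists_z3 (H35X.E7; its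
hypothesis hK is lam3 for M) gives z in N₁, not a cube; N and j as before; cnd_up3 (H35X.U2): j z has Cnd3, so it is a cube (CndZ K), contradiction to nonc_up. See H35X/T2.lean for the same steps.
layer_iff: from these and cndZ_step. -/

open NumberField IsDedekindDomain Polynomial

namespace H35Z

open H55B H35T H13E H35X

variable {M K : Type} [Field M] [NumberField M] [Algebra F M] [Field K] [NumberField K]
    [Algebra F K] [Algebra M K] [IsScalarTower F M K] [IsGalois M K]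

theorem cndZ_down (h3 : Module.finrank M K = 3) (hM : BaseF M)
    (hU : ∀ w : HeightOneSpectrum (𝓞 K), (3 : 𝓞 K) ∈ w.asIdeal → w.asIdeal.ramificationIdx (𝓞 M) = 1)
    (hZ : CndZ K) : CndZ M := by
  intro N₁ _ _ _ t₁ T₁ hQ1 m hm
  obtain ⟨N, j1, j2, j3, t, T, hQ⟩ := exists_QN (-1) K (no_i27 (baseF_layer h3 hM hU).odd)
  have hr : (algebraMap O M om) ^ 2 + algebraMap O M om + 1 = 0 := by
    rw [← map_pow, ← map_add, ← map_one (algebraMap O M), ← map_add, om_rel, map_zero]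
  obtain ⟨j, hj, hjt⟩ := hQ1.lift (by norm_num) ((algebraMap K N).comp (algebraMap M K)) t hQ.sq
  obtain ⟨z, hz⟩ := hZ N t T hQ (j m) (cnd_mono3 hQ1 hQ j hj hjt m hm)
  obtain ⟨n, hn⟩ := hm.norm
  by_contra hns
  exact nonc_up hQ1 hQ j hj hjt _ hr m hm.ne n hn (fun ⟨b, hb⟩ => hns ⟨b, hb⟩) ⟨z, hz⟩

theorem noBad_of_cndZ (h3 : Module.finrank M K = 3) (hM : BaseF M)
    (hU : ∀ w : HeightOneSpectrum (𝓞 K), (3 : 𝓞 K) ∈ w.asIdeal → w.asIdeal.ramificationIdx (𝓞 M) = 1)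
    (hZ : CndZ K) : NoBad M K := by
  intro w W hw h6 ⟨x, hx⟩
  by_contra he
  obtain ⟨N, j1, j2, j3, t, T, hQ⟩ := exists_QN (-1) K (no_i27 (baseF_layer h3 hM hU).odd)
  obtain ⟨N₁, l1, l2, l3, t₁, T₁, hQ1⟩ := exists_QN (-1) M (no_i27 hM.odd)
  have hr : (algebraMap O M om) ^ 2 + algebraMap O M om + 1 = 0 := by
    rw [← map_pow, ← map_add, ← map_one (algebraMap O M), ← map_add, om_rel, map_zero]
  obtain ⟨z, hz, hzs, ⟨n, hn⟩, hzv, hzt⟩ := exists_z3 hQ1 (fun w h => lam3 hM.unr w h) w h6 x hx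
  obtain ⟨j, hj, hjt⟩ := hQ1.lift (by norm_num) ((algebraMap K N).comp (algebraMap M K)) t hQ.sq
  obtain ⟨y, hy⟩ := hZ N t T hQ (j z) (cnd_up3 h3 hQ1 hQ j hj hjt w W hw he z hz n hn hzv hzt)
  exact nonc_up hQ1 hQ j hj hjt _ hr z hz n hn hzs ⟨y, hy⟩

theorem layer_iff (h3 : Module.finrank M K = 3) (hM : BaseF M)
    (hU : ∀ w : HeightOneSpectrum (𝓞 K), (3 : 𝓞 K) ∈ w.asIdeal → w.asIdeal.ramificationIdx (𝓞 M) = 1) :
    CndZ K ↔ CndZ M ∧ NoBad M K :=
  ⟨fun h => ⟨cndZ_down h3 hM hU h, noBad_of_cndZ h3 hM hU h⟩,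
    fun h => cndZ_step h3 hM hU h.2 h.1⟩

end H35Z
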