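import Mathlib
import Pool.Agent.Lib.H35X.T4
import Pool.Agent.Lib.H35Z.A9
import Pool.Agent.Lib.H35Z.A11

/-! Chunk A10 (M): induction over the tower. baseF_rel: induction on k, [K : M] = 3^k: if [K : M] = 1 then K = M as a field (ramification indices over M are 1, degree 1: odd degree, Unr3 and
OddTwo are transported; or use that e(w|M) = 1 and finrank multiplicativity); otherwise relT_step gives K1 with K/K1 Galois of degree 3, baseF_layer (relT_unr_top).
goodRel_layer: (left to right) let w in K, 6 not in w, e(w|M) <> 1; W of K' above w; e(W|M) = e(W|w) e(w|M) <> 1 (Ideal.ramificationIdx_tower; indices are positive), so N(W) = 7 mod 12; N(W) = N(w)^f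
(f the inertia degree; H35X.T4 uses such a lemma), N(w) = 1 mod 3 (T4_mod3) and odd (6 not in w), so N(w) mod 12 is 1 or 7, and 1 would give N(W) = 1: so 7. NoBad: if e(W|w) <> 1 then e(W|M) <> 1, N(W) = 7,
N(w) = 7, so there is no x (norm7_iff). (right to left) W in K', 6 not in W, e(W|M) <> 1, w below (H19X.T4_under): e(w|M) <> 1 gives N(w) = 7; e(W|w) <> 1 gives by NoBad and norm7_iff N(w) = 7; and N(W) = N(w)^f with
f = 1 or 3 (layer_f), 7^3 = 7 mod 12.
cndZ_iso: [K : M] = 1. algebraMap M K is bijective. Given N over K with QN, N is an algebra over M by composition (Algebra.compHom or ((algebraMap K N).comp (algebraMap M K)).toAlgebra), T becomes an M-algebra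
equivalence, QN and Cnd3 (norm: n in K comes from M) transfer. Conversely use the inverse of algebraMap. cndZ_rel: induction on k with layer_iff, goodRel_layer; base: GoodRel M K is vacuous
as e(w|M) = 1 (H19Y.e_one_of_rank_one for the base F; e f <= [K : M] = 1: H19X.T2_le), cndZ_iso. -/

open NumberField IsDedekindDomain

namespace H35Z

open H55B H35T H13E H35X

theorem e_one_base {M K : Type} [Field M] [NumberField M] [Field K] [NumberField K] [Algebra M K]
    (h1 : Module.finrank M K = 1) (w : HeightOneSpectrum (𝓞 K)) :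
    w.asIdeal.ramificationIdx (𝓞 M) = 1 := by
  have hwp := w.isPrime
  have h2 := H19X.T2_le (K1 := M) w
  rw [h1] at h2
  have h3 := w.asIdeal.ramificationIdx_pos (𝓞 M)
  have h4 := w.asIdeal.inertiaDeg_pos (𝓞 M)
  have h5 : w.asIdeal.ramificationIdx (𝓞 M) * 1 ≤
      w.asIdeal.ramificationIdx (𝓞 M) * w.asIdeal.inertiaDeg (𝓞 M) := Nat.mul_le_mul_left _ h4
  omega

theorem a10_val {M K : Type} [Field M] [NumberField M] [Field K] [NumberField K] [Algebra M K]
    (w : HeightOneSpectrum (𝓞 K)) (v : HeightOneSpectrum (𝓞 M)) (hv : v.asIdeal = w.asIdeal.under (𝓞 M))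
    (x : M) : w.valuation K (algebraMap M K x) = v.valuation M x ^ w.asIdeal.ramificationIdx (𝓞 M) := by
  have hwp := w.isPrime
  have hvp := v.isPrime
  have hl : w.asIdeal.LiesOver v.asIdeal := ⟨hv⟩
  rw [← Ideal.ramificationIdx'_eq_ramificationIdx v.asIdeal w.asIdeal v.ne_bot]
  exact (HeightOneSpectrum.valuation_liesOver K v w x).symm

theorem a10_norm {M K : Type} [Field M] [NumberField M] [Field K] [NumberField K] [Algebra M K]
    (w : HeightOneSpectrum (𝓞 K)) (v : HeightOneSpectrum (𝓞 M)) (hv : v.asIdeal = w.asIdeal.under (𝓞 M)) :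
    Ideal.absNorm w.asIdeal = Ideal.absNorm v.asIdeal ^ w.asIdeal.inertiaDeg (𝓞 M) := by
  have hwp := w.isPrime
  have hvm := v.isMaximal
  have hl : w.asIdeal.LiesOver v.asIdeal := ⟨hv⟩
  rw [Ideal.inertiaDeg_eq_of_isMaximal v.asIdeal w.asIdeal]
  have h := Ideal.absNorm_eq_pow_inertiaDeg'_of_liesOver w.asIdeal v.asIdeal v.isPrime v.ne_bot
  rw [Ideal.inertiaDeg'_algebraMap] at h
  exact h

theorem a10_mem {M K : Type} [Field M] [NumberField M] [Field K] [NumberField K] [Algebra M K]
    (w : HeightOneSpectrum (𝓞 K)) (v : HeightOneSpectrum (𝓞 M)) (hv : v.asIdeal = w.asIdeal.under (𝓞 M))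
    (n : ℕ) [n.AtLeastTwo] : (OfNat.ofNat n : 𝓞 M) ∈ v.asIdeal ↔ (OfNat.ofNat n : 𝓞 K) ∈ w.asIdeal := by
  rw [hv, Ideal.mem_under, map_ofNat]

theorem baseF_rel {M K : Type} [Field M] [NumberField M] [Algebra F M] [Field K] [NumberField K]
    [Algebra F K] [Algebra M K] [IsScalarTower F M K] (hM : BaseF M) (hS : RelT M K) : BaseF K := by
  obtain ⟨k, hk⟩ := relT_rank hS
  induction k generalizing K with
  | zero =>
    rw [pow_zero] at hk
    refine ⟨?_, ?_, ?_⟩
    · rw [← Module.finrank_mul_finrank F M K, hk, mul_one]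
      exact hM.odd
    · intro w h3
      obtain ⟨v, hv⟩ := H19X.T4_under (K₀ := M) w
      have hl : w.asIdeal.LiesOver v.asIdeal := ⟨hv⟩
      rw [Ideal.ramificationIdx_tower (R := O) v.asIdeal w.asIdeal, e_one_base hk w, mul_one]
      exact hM.unr v ((a10_mem w v hv 3).2 h3)
    · intro w h2
      obtain ⟨v, hv⟩ := H19X.T4_under (K₀ := M) w
      obtain ⟨e, he, hve⟩ := hM.two v ((a10_mem w v hv 2).2 h2)
      refine ⟨e, he, ?_⟩
      have h1 := a10_val w v hv 2
      rw [map_ofNat, e_one_base hk w, pow_one, hve] at h1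
      exact h1
  | succ k ih =>
    have hne : Module.finrank M K ≠ 1 := by
      rw [hk, pow_succ]
      have : 0 < 3 ^ k := by positivity
      omega
    obtain ⟨K₁, i1, i2, i3, i4, i5, i6, i7, i8, hS1, h3, hG⟩ := relT_step hS hne
    have hk1 : Module.finrank M K₁ = 3 ^ k := by
      have h4 := Module.finrank_mul_finrank M K₁ K
      rw [hk, h3, pow_succ] at h4
      exact Nat.eq_of_mul_eq_mul_right (by norm_num) h4
    have hB1 : BaseF K₁ := ih hS1 hk1
    exact baseF_layer h3 hB1 (relT_unr_top hS)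

theorem goodRel_layer {M K K' : Type} [Field M] [NumberField M] [Algebra F M] [Field K] [NumberField K]
    [Algebra F K] [Algebra M K] [IsScalarTower F M K] [Field K'] [NumberField K'] [Algebra F K']
    [Algebra M K'] [IsScalarTower F M K'] [Algebra K K'] [IsScalarTower F K K'] [IsScalarTower M K K']
    (h3 : Module.finrank K K' = 3) (hG : IsGalois K K') :
    GoodRel M K' ↔ GoodRel M K ∧ NoBad K K' := by
  constructor
  · intro h
    constructor
    · intro w h6 he
      obtain ⟨W, hW⟩ := a11_above (L := K') w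
      have h6' : (6 : 𝓞 K') ∉ W.asIdeal := fun h' => h6 ((a10_mem W w hW.over 6).2 h')
      have he' : W.asIdeal.ramificationIdx (𝓞 M) ≠ 1 := by
        rw [Ideal.ramificationIdx_tower (R := 𝓞 M) w.asIdeal W.asIdeal]
        intro h'
        exact he (Nat.eq_one_of_mul_eq_one_right h')
      have h7 := h W h6' he'
      rw [a10_norm W w hW.over] at h7
      have h8 := T4_mod3 w (H19X.T4_six h6)
      generalize Ideal.absNorm w.asIdeal = q at h7 h8 ⊢
      generalize W.asIdeal.inertiaDeg (𝓞 K) = f at h7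
      have h9 : q % 12 = 1 ∨ q % 12 = 4 ∨ q % 12 = 7 ∨ q % 12 = 10 := by omega
      rcases h9 with h9 | h9 | h9 | h9
      · rw [Nat.pow_mod, h9, one_pow] at h7
        omega
      · exfalso
        rcases Nat.eq_zero_or_pos f with rfl | hf
        · rw [pow_zero] at h7
          omega
        · have h10 : 2 ∣ q ^ f := dvd_pow (by omega) hf.ne'
          omega
      · exact h9
      · exfalso
        rcases Nat.eq_zero_or_pos f with rfl | hf
        · rw [pow_zero] at h7
          omega
        · have h10 : 2 ∣ q ^ f := dvd_pow (by omega) hf.ne'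
          omega
    · rintro w W hw h6 ⟨x, hx⟩
      by_contra he
      have hl : W.asIdeal.LiesOver w.asIdeal := ⟨hw⟩
      have h6' : (6 : 𝓞 K') ∉ W.asIdeal := fun h' => h6 ((a10_mem W w hw 6).2 h')
      have he' : W.asIdeal.ramificationIdx (𝓞 M) ≠ 1 := by
        rw [Ideal.ramificationIdx_tower (R := 𝓞 M) w.asIdeal W.asIdeal]
        intro h'
        exact he (Nat.eq_one_of_mul_eq_one_left h')
      have h7 := h W h6' he'
      rw [norm7_iff W h6'] at h7
      apply h7
      refine ⟨algebraMap (𝓞 K) (𝓞 K') x, ?_⟩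
      rw [hw, Ideal.mem_under, map_add, map_pow, map_one] at hx
      exact hx
  · rintro ⟨h, hN⟩ W h6 he
    obtain ⟨w, hw⟩ := H19X.T4_under (K₀ := K) W
    have hl : W.asIdeal.LiesOver w.asIdeal := ⟨hw⟩
    have h6' : (6 : 𝓞 K) ∉ w.asIdeal := fun h' => h6 ((a10_mem W w hw 6).1 h')
    have h7 : Ideal.absNorm w.asIdeal % 12 = 7 := by
      by_cases h8 : w.asIdeal.ramificationIdx (𝓞 M) = 1
      · rw [norm7_iff w h6']
        intro hx
        apply he
        rw [Ideal.ramificationIdx_tower (R := 𝓞 M) w.asIdeal W.asIdeal, h8, hN w W hw h6' hx]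
      · exact h w h6' h8
    rw [a10_norm W w hw]
    rcases layer_f h3 W with h8 | h8
    · rw [h8, pow_one]
      exact h7
    · rw [h8, Nat.pow_mod, h7]

theorem a10_iso {K₁ K₂ : Type} [Field K₁] [NumberField K₁] [Field K₂] [NumberField K₂]
    (f : K₁ →+* K₂) (hf : Function.Surjective f) (h : CndZ K₁) : CndZ K₂ := by
  intro N _ _ _ t T hQ m hm
  let iA : Algebra K₁ N := ((algebraMap K₂ N).comp f).toAlgebra
  have hA : ∀ x : K₁, algebraMap K₁ N x = algebraMap K₂ N (f x) := fun x => rfl
  let T' : N ≃ₐ[K₁] N :=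
    { toFun := T
      invFun := T.symm
      left_inv := T.left_inv
      right_inv := T.right_inv
      map_mul' := map_mul T
      map_add' := map_add T
      commutes' := fun x => T.commutes (f x) }
  have hT' : ∀ z, T' z = T z := fun z => rfl
  refine h N t T' ⟨hQ.sq, hQ.Tt, fun z => ?_⟩ m ⟨hm.ne, ?_, hm.val, hm.three⟩
  · obtain ⟨a, b, hz⟩ := hQ.span z
    obtain ⟨a', rfl⟩ := hf a
    obtain ⟨b', rfl⟩ := hf b
    exact ⟨a', b', hz⟩
  · obtain ⟨n, hn⟩ := hm.norm
    obtain ⟨n', rfl⟩ := hf n
    exact ⟨n', hn⟩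

theorem cndZ_iso {M K : Type} [Field M] [NumberField M] [Field K] [NumberField K] [Algebra M K]
    (h1 : Module.finrank M K = 1) : CndZ K ↔ CndZ M := by
  have hs : Function.Surjective (algebraMap M K) := by
    intro y
    have h2 := (finrank_eq_one_iff_of_nonzero' (1 : K) one_ne_zero).1 h1 y
    obtain ⟨c, hc⟩ := h2
    exact ⟨c, by rw [← hc, Algebra.smul_def, mul_one]⟩
  have hb : Function.Bijective (algebraMap M K) := ⟨(algebraMap M K).injective, hs⟩
  let e : M ≃+* K := RingEquiv.ofBijective (algebraMap M K) hb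
  exact ⟨a10_iso (e.symm : K →+* M) e.symm.surjective, a10_iso (algebraMap M K) hs⟩

theorem cndZ_rel {M K : Type} [Field M] [NumberField M] [Algebra F M] [Field K] [NumberField K]
    [Algebra F K] [Algebra M K] [IsScalarTower F M K] (hM : BaseF M) (hS : RelT M K) :
    CndZ K ↔ CndZ M ∧ GoodRel M K := by
  obtain ⟨k, hk⟩ := relT_rank hS
  induction k generalizing K with
  | zero =>
    rw [pow_zero] at hk
    rw [cndZ_iso hk]
    constructor
    · intro h
      exact ⟨h, fun w _ he => absurd (e_one_base hk w) he⟩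
    · exact fun h => h.1
  | succ k ih =>
    have hne : Module.finrank M K ≠ 1 := by
      rw [hk, pow_succ]
      have : 0 < 3 ^ k := by positivity
      omega
    obtain ⟨K₁, i1, i2, i3, i4, i5, i6, i7, i8, hS1, h3, hG⟩ := relT_step hS hne
    have hk1 : Module.finrank M K₁ = 3 ^ k := by
      have h4 := Module.finrank_mul_finrank M K₁ K
      rw [hk, h3, pow_succ] at h4
      exact Nat.eq_of_mul_eq_mul_right (by norm_num) h4
    have hB1 : BaseF K₁ := baseF_rel hM hS1
    rw [layer_iff h3 hB1 (relT_unr_top hS), ih hS1 hk1, goodRel_layer h3 hG, and_assoc]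

end H35Z
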