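import Mathlib
import Pool.Agent.Lib.H35X.G3
import Pool.Agent.Lib.H35Z.A1
import Pool.Agent.Lib.H35Z.Defs

/-! Chunk A3 (M): from Cnd3 to the Selmer groups, with OddTwo instead of UnrTwo. Copy of H35X/G3.lean, the theorems li_of_cnd, sel_of_cnd, selE_of_cnd, cube_of_cnd,
cube_of_cndE (all the g3_ lemmas of that file are reusable by import): the only change is the case 2 in w of li_of_cnd, where cube_two is replaced by cube_two' (A1)
(B1 = -1 for B = -1, B1 = 6 for B = 27; the valuation of 2 in the completion is w.valuation K 2: g3_cast or the lemma used in G3). -/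

open NumberField IsDedekindDomain Polynomial

namespace H35Z

open H55B H35T H13E H35X

variable {B : ℤ} {K N : Type} [Field K] [NumberField K] [Field N] [NumberField N] [Algebra K N]
  {t : N} {T : N ≃ₐ[K] N}

theorem li_of_cnd' (hB : B = -1 ∨ B = 27) (h : QN B K N t T) (h2 : OddTwo K) (a b : K)
    (hm : Cnd3 K N T (algebraMap K N a + algebraMap K N b * t)) (w : HeightOneSpectrum (𝓞 K)) :
    LIp (w.adicCompletion K) (B : w.adicCompletion K) (algebraMap K (w.adicCompletion K) a)
      (algebraMap K (w.adicCompletion K) b) := by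
  classical
  have hB0 : B ≠ 0 := by
    rcases hB with rfl | rfl
    · norm_num
    · norm_num
  have hcz : CharZero (w.adicCompletion K) :=
    charZero_of_injective_algebraMap (algebraMap K (w.adicCompletion K)).injective
  have hBk : (B : w.adicCompletion K) ≠ 0 := Int.cast_ne_zero.2 hB0
  obtain ⟨c, hc⟩ : ∃ c : w.adicCompletion K, c ^ 3 = (B : w.adicCompletion K) := by
    rcases hB with rfl | rfl
    · exact ⟨-1, by push_cast; ring⟩
    · exact ⟨3, by push_cast; norm_num⟩
  obtain ⟨n, hn⟩ := hm.norm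
  have hnorm := g3_norm h a b n hn
  have hn0 : n ≠ 0 := by
    rintro rfl
    rw [map_zero, zero_pow three_ne_zero] at hn
    rcases mul_eq_zero.1 hn with h' | h'
    · exact hm.ne h'
    · rw [map_eq_zero] at h'
      exact hm.ne h'
  have hpr := w.isPrime
  by_cases c2 : (2 : 𝓞 K) ∈ w.asIdeal
  · -- above 2
    obtain ⟨e0, he0, hve⟩ := h2 w c2
    have hv2 : Valued.v (2 : w.adicCompletion K) = WithZero.exp (-(e0 : ℤ)) := by
      have e := g3_cast w 2
      rw [Nat.cast_ofNat, Nat.cast_ofNat] at e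
      rw [e]
      exact hve
    obtain ⟨B1, hB1, hB1v⟩ : ∃ B1 : w.adicCompletion K, (B : w.adicCompletion K) = 3 + 4 * B1 ∧
        Valued.v B1 ≤ 1 := by
      rcases hB with rfl | rfl
      · refine ⟨-1, by push_cast; ring, ?_⟩
        rw [Valuation.map_neg, map_one]
      · refine ⟨6, by push_cast; norm_num, ?_⟩
        have e := g3_cast w 6
        rw [Nat.cast_ofNat, Nat.cast_ofNat] at e
        rw [e]
        exact_mod_cast g3_nat_le w 6
    apply li_of_cube hc hBk
    refine cube_two' w e0 he0 hv2 _ B1 hB1 hB1v _ (algebraMap K (w.adicCompletion K) n) ?_ ?_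
    · rw [QuadraticAlgebra.norm_def, ← g3_fnorm w B hnorm]
      ring
    · rw [Ne, map_eq_zero]
      exact hn0
  by_cases c3 : (3 : 𝓞 K) ∈ w.asIdeal
  · -- above 3
    obtain ⟨b0, hb0, hb0v⟩ := hm.three
    obtain ⟨a', b', hz⟩ := h.span ((algebraMap K N a + algebraMap K N b * t) / b0 ^ 3)
    obtain ⟨n', hn'⟩ := g3_norm' h _ b0 hb0 hm.norm a' b' hz
    obtain ⟨h3, h4⟩ := h.coord_le hB0 w c2 (a' - 1) b' 3 (fun P hP => by
      have h5 := hb0v P (by
        have := (g3_above hP 3).2 (by exact_mod_cast c3)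
        exact_mod_cast this)
      rw [hz] at h5
      have e1 : algebraMap K N (a' - 1) + algebraMap K N b' * t =
          algebraMap K N a' + algebraMap K N b' * t - 1 := by
        rw [map_sub, map_one]
        ring
      rw [e1, map_ofNat]
      exact h5)
    have hv3 : Valued.v (3 : w.adicCompletion K) = w.valuation K (3 : K) := by
      have e := g3_cast w 3
      rwa [Nat.cast_ofNat, Nat.cast_ofNat] at e
    apply g3_scale h hB0 w a b a' b' b0 hb0 hz
    refine li_three w ?_ _ c hc hBk _ _ _ (g3_fnorm w B hn') ?_ ?_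
    · rw [hv3]
      have := (g3_nat_lt w 3).2 (by exact_mod_cast c3)
      exact_mod_cast this
    · rw [← map_one (algebraMap K (w.adicCompletion K)), ← map_sub, H55C.valued_alg, hv3]
      exact h3
    · have hv9 : Valued.v (9 : w.adicCompletion K) = w.valuation K (9 : K) := by
        have e := g3_cast w 9
        rwa [Nat.cast_ofNat, Nat.cast_ofNat] at e
      rw [← g3_fB, ← map_pow, ← map_mul, H55C.valued_alg, hv9]
      have e9 : (9 : K) = 3 ^ 2 := by norm_num
      rw [e9]
      exact h4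
  · -- good places
    have hv2 : w.valuation K (2 : K) = 1 := by
      have := g3_nat_one w 2 (by exact_mod_cast c2)
      exact_mod_cast this
    have hv3 : w.valuation K (3 : K) = 1 := by
      have := g3_nat_one w 3 (by exact_mod_cast c3)
      exact_mod_cast this
    have hV2 : Valued.v (2 : w.adicCompletion K) = 1 := by
      have e := g3_cast w 2
      rw [Nat.cast_ofNat, Nat.cast_ofNat] at e
      rw [e, hv2]
    have hV3 : Valued.v (3 : w.adicCompletion K) = 1 := by
      have e := g3_cast w 3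
      rw [Nat.cast_ofNat, Nat.cast_ofNat] at e
      rw [e, hv3]
    have hBw : w.valuation K (B : K) = 1 := by
      rcases hB with rfl | rfl
      · push_cast
        rw [Valuation.map_neg, map_one]
      · have e : (((27 : ℤ) : K)) = 3 ^ 3 := by
          push_cast
          norm_num
        rw [e, map_pow, hv3, one_pow]
    have hBW : Valued.v (B : w.adicCompletion K) = 1 := by
      rw [← g3_fB, H55C.valued_alg, hBw]
    choose! k hk using hm.val
    obtain ⟨b0, hb0, hb0v⟩ := H19X.exists_val (H19X.Va_finite (N := N) w).toFinset k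
    have h6 : ∀ P : HeightOneSpectrum (𝓞 N), w.asIdeal = P.asIdeal.under (𝓞 K) →
        (6 : 𝓞 N) ∉ P.asIdeal := by
      intro P hP h6
      have h7 : (6 : 𝓞 K) ∈ w.asIdeal := by
        have := (g3_above hP 6).1 (by exact_mod_cast h6)
        exact_mod_cast this
      have e : (6 : 𝓞 K) = 2 * 3 := by norm_num
      rw [e] at h7
      rcases hpr.mem_or_mem h7 with h' | h'
      · exact c2 h'
      · exact c3 h'
    have hz1 : ∀ P : HeightOneSpectrum (𝓞 N), w.asIdeal = P.asIdeal.under (𝓞 K) →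
        P.valuation N ((algebraMap K N a + algebraMap K N b * t) / b0 ^ 3) = 1 := by
      intro P hP
      have e1 := hb0v P ((Set.Finite.mem_toFinset _).2 hP)
      rw [map_div₀, map_pow, e1, hk P (h6 P hP), ← WithZero.exp_nsmul, nsmul_eq_mul,
        Nat.cast_ofNat]
      exact div_self WithZero.exp_ne_zero
    obtain ⟨a', b', hz⟩ := h.span ((algebraMap K N a + algebraMap K N b * t) / b0 ^ 3)
    obtain ⟨n', hn'⟩ := g3_norm' h _ b0 hb0 hm.norm a' b' hz
    have hz0 : algebraMap K N a' + algebraMap K N b' * t ≠ 0 := by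
      rw [← hz]
      exact div_ne_zero hm.ne (pow_ne_zero 3 hb0)
    rw [hz] at hz1
    obtain ⟨i1, i2, -⟩ := g3_int h hB0 w c2 hBw a' b' fun P hP => (hz1 P hP).le
    have i3 := g3_norm_one h hB0 w c2 hBw a' b' hz0 hz1
    rw [hn', map_pow] at i3
    have i4 : w.valuation K n' = 1 := (pow_eq_one_iff.1 i3).resolve_right three_ne_zero
    apply g3_scale h hB0 w a b a' b' b0 hb0 hz
    refine li_good w hV2 hV3 _ c hc hBW _ _ (algebraMap K (w.adicCompletion K) n') ?_ ?_
      (g3_fnorm w B hn') ?_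
    · rw [H55C.valued_alg]
      exact i1
    · rw [H55C.valued_alg]
      exact i2
    · rw [H55C.valued_alg]
      exact i4

theorem sel_of_cnd' (h : QN (-1) K N t T) (h2 : OddTwo K) (a b : K)
    (hm : Cnd3 K N T (algebraMap K N a + algebraMap K N b * t)) :
    (AdjoinRoot.of _ a + AdjoinRoot.of _ b * AdjoinRoot.root _ : Qd K) ∈ Sel K := by
  obtain ⟨n, hn⟩ := hm.norm
  have hnorm := g3_norm h a b n hn
  have hn0 : n ≠ 0 := by
    rintro rfl
    rw [map_zero, zero_pow three_ne_zero] at hn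
    rcases mul_eq_zero.1 hn with h' | h'
    · exact hm.ne h'
    · rw [map_eq_zero] at h'
      exact hm.ne h'
  have hnorm2 : a ^ 2 + 1 * b ^ 2 = n ^ 3 := by
    rw [← hnorm]
    push_cast
    ring
  refine ⟨g3_unit (f := X ^ 2 + C 1) (c := 1) rfl a b ?_, ⟨n, ?_⟩, ?_⟩
  · rw [hnorm2]
    exact pow_ne_zero 3 hn0
  · rw [SG_norm (f := X ^ 2 + C 1) (c := 1) rfl, hnorm2]
  · intro w
    have h1 := li_of_cnd' (Or.inl rfl) h h2 a b hm w
    have e1 : (((-1 : ℤ) : w.adicCompletion K)) = -1 := by push_cast; rfl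
    rw [e1] at h1
    have h3 := locIm_of_li h1
    have e2 : qmap (algebraMap K (w.adicCompletion K))
        (AdjoinRoot.of _ a + AdjoinRoot.of _ b * AdjoinRoot.root _ : Qd K) =
        AdjoinRoot.of _ (algebraMap K (w.adicCompletion K) a) +
          AdjoinRoot.of _ (algebraMap K (w.adicCompletion K) b) * AdjoinRoot.root _ := by
      unfold qmap
      rw [map_add, map_mul, AdjoinRoot.map_of, AdjoinRoot.map_of, AdjoinRoot.map_root]
    rw [e2]
    exact h3

theorem selE_of_cnd' (h : QN 27 K N t T) (h2 : OddTwo K) (a b : K)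
    (hm : Cnd3 K N T (algebraMap K N a + algebraMap K N b * t)) :
    (AdjoinRoot.of _ a + AdjoinRoot.of _ b * AdjoinRoot.root _ : Qe K) ∈ SelE K := by
  obtain ⟨n, hn⟩ := hm.norm
  have hnorm := g3_norm h a b n hn
  have hn0 : n ≠ 0 := by
    rintro rfl
    rw [map_zero, zero_pow three_ne_zero] at hn
    rcases mul_eq_zero.1 hn with h' | h'
    · exact hm.ne h'
    · rw [map_eq_zero] at h'
      exact hm.ne h'
  have hf : (X ^ 2 - C 27 : K[X]) = X ^ 2 + C (-27) := by
    rw [map_neg, sub_eq_add_neg]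
  have hnorm2 : a ^ 2 + (-27) * b ^ 2 = n ^ 3 := by
    rw [← hnorm]
    push_cast
    ring
  refine ⟨g3_unit (f := X ^ 2 - C 27) (c := -27) hf a b ?_, ⟨n, ?_⟩, ?_⟩
  · rw [hnorm2]
    exact pow_ne_zero 3 hn0
  · rw [SG_norm (f := X ^ 2 - C 27) (c := -27) hf, hnorm2]
  · intro w
    have h1 := li_of_cnd' (Or.inr rfl) h h2 a b hm w
    have e1 : (((27 : ℤ) : w.adicCompletion K)) = 27 := by push_cast; rfl
    rw [e1] at h1
    have h3 := locImE_of_li h1
    have e2 : emap (algebraMap K (w.adicCompletion K))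
        (AdjoinRoot.of _ a + AdjoinRoot.of _ b * AdjoinRoot.root _ : Qe K) =
        AdjoinRoot.of _ (algebraMap K (w.adicCompletion K) a) +
          AdjoinRoot.of _ (algebraMap K (w.adicCompletion K) b) * AdjoinRoot.root _ := by
      unfold emap
      rw [map_add, map_mul, AdjoinRoot.map_of, AdjoinRoot.map_of, AdjoinRoot.map_root]
    rw [e2]
    exact h3

/-- If the Selmer group is trivial then the elements with Cnd3 are cubes. -/
theorem cube_of_cnd' (h : QN (-1) K N t T) (h2 : OddTwo K)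
    (hs : ∀ m ∈ Sel K, ∃ b : Qd K, m = b ^ 3) (m : N) (hm : Cnd3 K N T m) : ∃ z : N, m = z ^ 3 := by
  obtain ⟨a, b, rfl⟩ := h.span m
  obtain ⟨β, hβ⟩ := hs _ (sel_of_cnd' h h2 a b hm)
  have ht : eval₂ (algebraMap K N) t (X ^ 2 + C 1) = 0 := by
    rw [eval₂_add, eval₂_pow, eval₂_X, eval₂_C, map_one, h.sq]
    push_cast
    ring
  refine ⟨AdjoinRoot.lift (algebraMap K N) t ht β, ?_⟩
  rw [← map_pow, ← hβ, map_add, map_mul, AdjoinRoot.lift_of, AdjoinRoot.lift_of,
    AdjoinRoot.lift_root]

theorem cube_of_cndE' (h : QN 27 K N t T) (h2 : OddTwo K)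
    (hs : ∀ m ∈ SelE K, ∃ b : Qe K, m = b ^ 3) (m : N) (hm : Cnd3 K N T m) : ∃ z : N, m = z ^ 3 := by
  obtain ⟨a, b, rfl⟩ := h.span m
  obtain ⟨β, hβ⟩ := hs _ (selE_of_cnd' h h2 a b hm)
  have ht : eval₂ (algebraMap K N) t (X ^ 2 - C 27) = 0 := by
    rw [eval₂_sub, eval₂_pow, eval₂_X, eval₂_C, map_ofNat, h.sq]
    push_cast
    ring
  refine ⟨AdjoinRoot.lift (algebraMap K N) t ht β, ?_⟩
  rw [← map_pow, ← hβ, map_add, map_mul, AdjoinRoot.lift_of, AdjoinRoot.lift_of,
    AdjoinRoot.lift_root]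

/-- Trivial Selmer groups imply CndZ. -/
theorem cndZ_of_sel (h2 : OddTwo K) (hs : SelZ3 K) : CndZ K := fun _ _ _ _ _ _ h m hm =>
  cube_of_cnd' h h2 hs.1 m hm

end H35Z
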