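import Mathlib
import Pool.Agent.Lib.H13E.S2Gen
import Pool.Agent.Lib.H35T.A3
import Pool.Agent.Lib.H35X.Defs

/-! Chunk A4 (M): the local condition above 3 without hypothesis on the residue field. This is H35T.loc3 (H35T/A3.lean) without the hypothesis h1 there (which says that
v(z^2 + 1) = 1 for integral z in K). Read the docstring of H35T/A3.lean. X, Y = images of x, y, i^2 = -1, v(i) = 1, 2 is a unit (v(3) < 1).
(a) v(Y) > 1: as there (h1 is not used): b = Y/X.
(b) v(Y) <= 1: there is β in K (image B) with v(B) <= 1 and v(Y - B^3) <= v(3) (as there: if v(Y) = 1, B = Y/(X - 1), and v(X - 1) = 1 since otherwise v(Y^2) = v(X^3 - 1) < 1; if v(Y) < 1, B = 0).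
If v(B + i) = 1: b = B + i works as there: b^3 = B^3 + 3 B^2 i - 3 B - i, Y - i - b^3 = (Y - B^3) - 3 (B^2 i - B), which has valuation <= v(3), and v(b) = 1.
NEW CASE v(B + i) < 1: B^3 = (-i)^3 = i modulo the maximal ideal, so v(Y - i) < 1 (v(Y - B^3) < 1, B^3 - i = B^3 - (-i)^3 is divisible by B + i). Put s = Y - i, s' = Y + i = s + 2 i,
s s' = Y^2 + 1 = X^3, v(s') = v(2 i) = 1, v(s) = v(X)^3 < 1, so v(X) < 1, v(X) <= v(r - 1) by hK and v(s) <= v(r - 1)^3 <= v(3) (v(3) = v(r-1)^2, v(r - 1) < 1). Take b = X/i = - i X (nonzero):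
s/b^3 = s i^3/X^3 = i^3/s' = -i/(s + 2i), and -i/(s + 2 i) - 1 = (-3 i - s)/(s + 2 i) has valuation <= v(3). (v(3) = v(r - 1)^2: 3 = -r^2 (r - 1)^2.) -/

open NumberField IsDedekindDomain

namespace H35Z

open H55B H35T H13E H35X

theorem a4_cube {N : Type} [Field N]
    (v : Valuation N (WithZero (Multiplicative ℤ))) (i : N)
    (hi : i ^ 2 = -1) (h3 : v 3 < 1) {X Y L : N} (hX0 : X ≠ 0) (hcur : Y ^ 2 = X ^ 3 - 1) (hvL2 : v 3 = v L ^ 2)
    (hKx : v X < 1 → v X ≤ v L)
    (B : N) (hβ : v B ≤ 1) (hY : v (Y - B ^ 3) ≤ v 3) :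
    ∃ b : N, b ≠ 0 ∧ v ((Y - i) / b ^ 3 - 1) ≤ v 3 := by
  have hvi := A3_i v i hi
  have hp : v (B + i) ≤ 1 := Valuation.map_add_le _ hβ hvi.le
  rcases hp.eq_or_lt with hb1 | hlt
  · have hb0 : B + i ≠ 0 := by
      intro h
      rw [h, map_zero] at hb1
      exact zero_ne_one hb1
    refine ⟨B + i, hb0, ?_⟩
    have e : (Y - i) / (B + i) ^ 3 - 1 =
        ((Y - B ^ 3) - 3 * (B ^ 2 * i - B)) / (B + i) ^ 3 := by
      rw [div_sub_one (pow_ne_zero 3 hb0)]
      congr 1
      linear_combination (-(3 * B) - i) * hi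
    rw [e, map_div₀, map_pow, hb1, one_pow, div_one]
    refine Valuation.map_sub_le _ hY ?_
    rw [map_mul]
    refine mul_le_of_le_one_right' ?_
    refine Valuation.map_sub_le _ ?_ hβ
    rw [map_mul, map_pow, hvi, mul_one]
    exact pow_le_one' hβ 2
  · have hi0 : i ≠ 0 := by
      rintro rfl
      rw [map_zero] at hvi
      exact zero_ne_one hvi
    have hv2 : v 2 = 1 := by
      have e : (2 : N) = -(1 - 3) := by norm_num
      rw [e, Valuation.map_neg, Valuation.map_sub_eq_of_lt_left v (by rwa [map_one]), map_one]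
    have hs : v (Y - i) < 1 := by
      have e : Y - i = (Y - B ^ 3) + (B + i) * (B ^ 2 - B * i - 1) := by
        linear_combination B * hi
      rw [e]
      refine Valuation.map_add_lt _ (hY.trans_lt h3) ?_
      rw [map_mul]
      refine lt_of_le_of_lt (mul_le_of_le_one_right zero_le ?_) hlt
      refine Valuation.map_sub_le _ (Valuation.map_sub_le _ ?_ ?_) (by rw [map_one])
      · rw [map_pow]
        exact pow_le_one' hβ 2
      · rw [map_mul, hvi, mul_one]
        exact hβ
    have hs' : v (Y + i) = 1 := by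
      have e : Y + i = 2 * i + (Y - i) := by ring
      rw [e, Valuation.map_add_eq_of_lt_left v (by rw [map_mul, hv2, hvi, one_mul]; exact hs), map_mul, hv2, hvi, one_mul]
    have hprod : (Y - i) * (Y + i) = X ^ 3 := by linear_combination hcur - hi
    have hvs : v (Y - i) = v X ^ 3 := by
      rw [← map_pow, ← hprod, map_mul, hs', mul_one]
    have hvX : v X < 1 := by
      by_contra hcon
      rw [not_lt] at hcon
      rw [hvs] at hs
      exact absurd hs (not_lt.2 (one_le_pow₀ hcon))
    have hvXL := hKx hvX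
    have hvL1 : v L ≤ 1 := by
      by_contra hcon
      rw [not_le] at hcon
      rw [hvL2] at h3
      exact absurd h3 (not_lt.2 (one_le_pow₀ hcon.le))
    have hs3 : v (Y - i) ≤ v 3 := by
      rw [hvs, hvL2]
      calc v X ^ 3 ≤ v L ^ 3 := pow_le_pow_left₀ zero_le hvXL 3
        _ = v L ^ 2 * v L := pow_succ _ _
        _ ≤ v L ^ 2 := mul_le_of_le_one_right zero_le hvL1
    have hYi : Y + i ≠ 0 := by
      intro h
      rw [h, map_zero] at hs'
      exact zero_ne_one hs'
    refine ⟨X / i, div_ne_zero hX0 hi0, ?_⟩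
    have e : (Y - i) / (X / i) ^ 3 - 1 = -(3 * i + (Y - i)) / (Y + i) := by
      have hX3 : X ^ 3 ≠ 0 := pow_ne_zero 3 hX0
      have hYm : Y - i ≠ 0 := by
        intro h
        rw [h, zero_mul] at hprod
        exact hX3 hprod.symm
      have e1 : (Y - i) / (X / i) ^ 3 = i ^ 3 / (Y + i) := by
        rw [div_pow, ← hprod]
        field_simp
      rw [e1, div_sub_one hYi]
      congr 1
      linear_combination i * hi
    rw [e, map_div₀, hs', div_one, Valuation.map_neg]
    refine Valuation.map_add_le _ ?_ hs3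
    rw [map_mul, hvi, mul_one]

theorem loc3' {K N : Type} [Field K] [Field N] [Algebra K N]
    (v : Valuation N (WithZero (Multiplicative ℤ))) (r : K) (hr : r ^ 2 + r + 1 = 0) (i : N)
    (hi : i ^ 2 = -1) (h30 : v 3 ≠ 0) (h3 : v 3 < 1)
    (hK : ∀ z : K, v (algebraMap K N z) < 1 → v (algebraMap K N z) ≤ v (algebraMap K N (r - 1)))
    (x y : K) (hxy : y ^ 2 = x ^ 3 - 1) (hx : x ≠ 0) :
    ∃ b : N, b ≠ 0 ∧ v ((algebraMap K N y - i) / b ^ 3 - 1) ≤ v 3 := by
  have hvi := A3_i v i hi
  have hR : (algebraMap K N r) ^ 2 + algebraMap K N r + 1 = 0 := by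
    have := congrArg (algebraMap K N) hr
    rwa [map_add, map_add, map_pow, map_one, map_zero] at this
  have hcur : (algebraMap K N y) ^ 2 = (algebraMap K N x) ^ 3 - 1 := by
    have := congrArg (algebraMap K N) hxy
    rwa [map_sub, map_pow, map_pow, map_one] at this
  have hX0 : algebraMap K N x ≠ 0 := (map_ne_zero _).2 hx
  have hL : algebraMap K N (r - 1) = algebraMap K N r - 1 := by rw [map_sub, map_one]
  set R : N := algebraMap K N r with hR'
  set X : N := algebraMap K N x with hX'
  set Y : N := algebraMap K N y with hY'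
  set L : N := algebraMap K N (r - 1) with hL'
  have hvR : v R = 1 := by
    have h : v R ^ 3 = 1 := by
      rw [← map_pow, show R ^ 3 = 1 by linear_combination (R - 1) * hR, map_one]
    exact (pow_eq_one_iff_of_nonneg zero_le three_ne_zero).mp h
  have hvL2 : v 3 = v L ^ 2 := by
    have h : v (L ^ 2) = v (3 * R) := by
      rw [hL, show (R - 1) ^ 2 = -(3 * R) by linear_combination hR, Valuation.map_neg]
    rw [map_mul, hvR, mul_one, map_pow] at h
    exact h.symm
  have hvL0 : v L ≠ 0 := by
    intro h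
    rw [h, zero_pow two_ne_zero] at hvL2
    exact h30 hvL2
  have hKx : v X < 1 → v X ≤ v L := hK x
  obtain ⟨s, hs⟩ := A3_exp _ hvL0
  have hv3 : v 3 = WithZero.exp (2 * s) := by
    rw [hvL2, hs, A3_pow]
    push_cast
    rfl
  have hs0 : s < 0 := by
    rw [hv3, A3_lt] at h3
    linarith
  rcases lt_or_ge 1 (v Y) with hY | hY
  · -- v(Y) > 1
    have hY0v : v Y ≠ 0 := by
      intro h
      rw [h] at hY
      exact absurd hY (by simp)
    have hY0 : Y ≠ 0 := (Valuation.ne_zero_iff _).mp hY0v
    obtain ⟨b, hb⟩ := A3_exp _ hY0v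
    obtain ⟨a, ha⟩ := A3_exp _ ((Valuation.ne_zero_iff v).mpr hX0)
    have hb0 : 0 < b := by
      rw [hb, ← WithZero.exp_zero, WithZero.exp_lt_exp] at hY
      exact hY
    have h2b : 3 * a = 2 * b := by
      have h1 : v (X ^ 3) = v (Y ^ 2) := by
        have e : X ^ 3 = Y ^ 2 + 1 := by rw [hcur]; ring
        rw [e]
        apply Valuation.map_add_eq_of_lt_left
        rw [map_one, map_pow]
        exact one_lt_pow₀ hY two_ne_zero
      rw [map_pow, map_pow, ha, hb, A3_pow, A3_pow, WithZero.exp_inj] at h1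
      push_cast at h1
      exact h1
    have k1 : a - b ≤ s := by
      have h1 : v (algebraMap K N (x / y)) = WithZero.exp (a - b) := by
        rw [map_div₀, map_div₀, ← hX', ← hY', ha, hb, WithZero.exp_sub]
      have h3 := hK (x / y) (by rw [h1, A3_lt]; linarith)
      rw [h1, hs, WithZero.exp_le_exp] at h3
      exact h3
    refine ⟨Y / X, div_ne_zero hY0 hX0, ?_⟩
    have e : (Y - i) / (Y / X) ^ 3 - 1 = Y⁻¹ * (Y⁻¹ - i - i * Y⁻¹ ^ 2) := by
      have e1 : (Y - i) / (Y / X) ^ 3 = (Y - i) * (Y ^ 2 + 1) / Y ^ 3 := by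
        rw [div_pow, hcur]
        field_simp
        ring
      rw [e1]
      field_simp
      ring
    have hYi : v Y⁻¹ ≤ 1 := by
      rw [map_inv₀]
      exact inv_le_one_of_one_le₀ hY.le
    rw [e, map_mul]
    refine (mul_le_of_le_one_right' ?_).trans ?_
    · refine Valuation.map_sub_le _ (Valuation.map_sub_le _ hYi hvi.le) ?_
      rw [map_mul, map_pow, hvi, one_mul]
      exact pow_le_one' hYi 2
    · rw [map_inv₀, hb, hv3, ← WithZero.exp_neg, WithZero.exp_le_exp]
      linarith
  · rcases eq_or_lt_of_le hY with hY1 | hY1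
    · -- v(Y) = 1
      have hX1 : v X ≤ 1 := by
        have h : v X ^ 3 ≤ 1 := by
          rw [← map_pow, show X ^ 3 = Y ^ 2 + 1 by rw [hcur]; ring]
          refine Valuation.map_add_le _ ?_ (by rw [map_one])
          rw [map_pow]
          exact pow_le_one' hY 2
        exact (pow_le_one_iff three_ne_zero).mp h
      have hfac : Y ^ 2 = (X - 1) * (X ^ 2 + X + 1) := by rw [hcur]; ring
      have hXm : v (X - 1) ≤ 1 := Valuation.map_sub_le _ hX1 (by rw [map_one])
      have hXq : v (X ^ 2 + X + 1) ≤ 1 := by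
        refine Valuation.map_add_le _ (Valuation.map_add_le _ ?_ hX1) (by rw [map_one])
        rw [map_pow]
        exact pow_le_one' hX1 2
      have hXm1 : v (X - 1) = 1 := by
        refine le_antisymm hXm ?_
        have h : v (X - 1) * v (X ^ 2 + X + 1) = 1 := by
          rw [← map_mul, ← hfac, map_pow, hY1, one_pow]
        rw [← h]
        exact mul_le_of_le_one_right' hXq
      have hX10 : X - 1 ≠ 0 := by
        intro h
        rw [h, map_zero] at hXm1
        exact zero_ne_one hXm1
      have hBe : algebraMap K N (y / (x - 1)) = Y / (X - 1) := by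
        rw [map_div₀, map_sub, map_one]
      refine a4_cube v i hi h3 hX0 hcur hvL2 hKx (algebraMap K N (y / (x - 1))) ?_ ?_
      · rw [hBe, map_div₀, hXm1, div_one]
        exact hY
      · rw [hBe]
        have e : Y - (Y / (X - 1)) ^ 3 = 3 * (-(X * Y) / (X - 1) ^ 2) := by
          have e1 : (Y / (X - 1)) ^ 3 = Y * (X ^ 3 - 1) / (X - 1) ^ 3 := by
            rw [div_pow, ← hcur]
            ring
          rw [e1]
          field_simp
          ring
        rw [e, map_mul]
        refine mul_le_of_le_one_right' ?_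
        rw [map_div₀, Valuation.map_neg, map_mul, map_pow, hXm1, one_pow, div_one]
        exact mul_le_one' hX1 hY
    · -- v(Y) < 1
      refine a4_cube v i hi h3 hX0 hcur hvL2 hKx 0 (by rw [map_zero]; exact zero_le_one) ?_
      rw [zero_pow three_ne_zero, sub_zero]
      by_cases hY0 : Y = 0
      · rw [hY0, map_zero]
        exact zero_le
      have hfac : Y ^ 2 = (X - 1) * (X - R) * (X - R ^ 2) := by
        rw [hcur]
        linear_combination (X - 1) * (X - (R - 1)) * hR
      have hX1 : v X ≤ 1 := by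
        have h : v X ^ 3 ≤ 1 := by
          rw [← map_pow, show X ^ 3 = Y ^ 2 + 1 by rw [hcur]; ring]
          refine Valuation.map_add_le _ ?_ (by rw [map_one])
          rw [map_pow]
          exact pow_le_one' hY 2
        exact (pow_le_one_iff three_ne_zero).mp h
      have hR1 : v (R + 1) = 1 := by
        rw [show R + 1 = -(R ^ 2) by linear_combination hR, Valuation.map_neg, map_pow, hvR,
          one_pow]
      have g0 : v (X - 1) ≤ 1 := Valuation.map_sub_le _ hX1 (by rw [map_one])
      have g1 : v (X - R) ≤ 1 := Valuation.map_sub_le _ hX1 hvR.le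
      have g2 : v (X - R ^ 2) ≤ 1 := Valuation.map_sub_le _ hX1 (by rw [map_pow, hvR, one_pow])
      have d01 : v (R - 1) ≤ v L := by rw [hL]
      have d02 : v (R ^ 2 - 1) ≤ v L := by
        rw [show R ^ 2 - 1 = L * (R + 1) by rw [hL]; ring, map_mul, hR1, mul_one]
      have d12 : v (R ^ 2 - R) ≤ v L := by
        rw [show R ^ 2 - R = L * R by rw [hL]; ring, map_mul, hvR, mul_one]
      have q0 : v (X - 1) < 1 → v (X - 1) ≤ v L := by
        intro h
        have := hK (x - 1) (by rw [map_sub, map_one]; exact h)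
        rwa [map_sub, map_one] at this
      have q1 : v (X - R) < 1 → v (X - R) ≤ v L := by
        intro h
        have := hK (x - r) (by rw [map_sub]; exact h)
        rwa [map_sub] at this
      have q2 : v (X - R ^ 2) < 1 → v (X - R ^ 2) ≤ v L := by
        intro h
        have := hK (x - r ^ 2) (by rw [map_sub, map_pow]; exact h)
        rwa [map_sub, map_pow] at this
      have hall : v (X - 1) ≤ v L ∧ v (X - R) ≤ v L ∧ v (X - R ^ 2) ≤ v L := by
        rcases lt_or_eq_of_le g0 with h0 | h0
        · have h := q0 h0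
          refine ⟨h, ?_, ?_⟩
          · rw [show X - R = (X - 1) - (R - 1) by ring]
            exact Valuation.map_sub_le _ h d01
          · rw [show X - R ^ 2 = (X - 1) - (R ^ 2 - 1) by ring]
            exact Valuation.map_sub_le _ h d02
        rcases lt_or_eq_of_le g1 with h1 | h1
        · have h := q1 h1
          refine ⟨?_, h, ?_⟩
          · rw [show X - 1 = (X - R) + (R - 1) by ring]
            exact Valuation.map_add_le _ h d01
          · rw [show X - R ^ 2 = (X - R) - (R ^ 2 - R) by ring]
            exact Valuation.map_sub_le _ h d12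
        rcases lt_or_eq_of_le g2 with h2 | h2
        · have h := q2 h2
          refine ⟨?_, ?_, h⟩
          · rw [show X - 1 = (X - R ^ 2) + (R ^ 2 - 1) by ring]
            exact Valuation.map_add_le _ h d02
          · rw [show X - R = (X - R ^ 2) + (R ^ 2 - R) by ring]
            exact Valuation.map_add_le _ h d12
        exfalso
        have h : v (Y ^ 2) = 1 := by rw [hfac, map_mul, map_mul, h0, h1, h2, one_mul, one_mul]
        rw [map_pow] at h
        have h' := (pow_eq_one_iff_of_nonneg zero_le two_ne_zero).mp h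
        rw [h'] at hY1
        exact lt_irrefl _ hY1
      obtain ⟨n, hn⟩ := A3_exp _ ((Valuation.ne_zero_iff v).mpr hY0)
      have h2n : 2 * n ≤ 3 * s := by
        have h : v (Y ^ 2) ≤ v L * v L * v L := by
          rw [hfac, map_mul, map_mul]
          exact mul_le_mul' (mul_le_mul' hall.1 hall.2.1) hall.2.2
        rw [map_pow, hn, hs, A3_pow, ← WithZero.exp_add, ← WithZero.exp_add,
          WithZero.exp_le_exp] at h
        push_cast at h
        linarith
      have k1 : n - s ≤ s := by
        have h1 : v (algebraMap K N (y / (r - 1))) = WithZero.exp (n - s) := by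
          rw [map_div₀, map_div₀, ← hY', ← hL', hn, hs, WithZero.exp_sub]
        have h3 := hK (y / (r - 1)) (by rw [h1, A3_lt]; linarith)
        rw [h1, hs, WithZero.exp_le_exp] at h3
        exact h3
      rw [hn, hv3, WithZero.exp_le_exp]
      linarith

end H35Z
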