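import Mathlib
import Pool.Agent.Lib.H35X.G2
import Pool.Agent.Lib.H35T.A18
import Pool.Agent.Lib.H13E.S3
import Pool.Agent.Lib.H35Z.A4
import Pool.Agent.Lib.H35Z.A5a
import Pool.Agent.Lib.H35Z.B0

/-! Chunk A5 (M/L): Selmer elements satisfy Cnd3. Compare H35T/A18.lean (A18_loc, sel_cond), whose proof can be followed; no condition above 2 is needed here.
m = of a + of b root in Sel K, m' = a + b t in N. ne: m is a unit, so (a, b) <> (0, 0), QN.indep. norm: A18_norm and QN.norm_mk. Let P be a prime of N, w the prime below,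
ι' : K_w -> N_P, e from H55C.exists_iota. LocIm at w gives x, y in K_w, y^2 = x^3 - 1, x nonzero, and (apply the ring homomorphism Qd K_w -> N_P, AdjoinRoot.lift ι' (image of t)) β' in N_P with
m' (ι' y - t) = β'^3 in N_P. val (6 not in P): H35T.loc1 for K_w -> N_P (ι'.toAlgebra), i = image of t, v = Valued.v (H55C.valued_alg), v(2) = 1: v(ι' y - t) = exp(3k), so
v(m') = exp(3k') (H35T.A18_val_of_mul). three: three_glob with l = image of om - 1 in N: P.valuation l = w.valuation (om - 1) = exp(-1) (QN.val_eq, 2 not in P; lam3), P.valuation 3 = exp(-2) (three3);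
for P above 3 take k = P.adicCompletion N, v = Valued.v, j = algebraMap; if v(z) < 1 then v(z) <= exp(-1) (integer valued: H35X.E5b_le). loc3' (A4) for K_w, N_P, r = image of om: hK: v(ι' z) = v(z)^e < 1 implies
v(z) < 1, v(z) <= exp(-1) = v(om - 1), so v(ι' z) <= v(ι' (r - 1)). It gives b'' with v((ι' y - t)/b''^3 - 1) <= v(3), and with β = β'/b'': m'/β^3 = ((ι' y - t)/b''^3)^(-1), which is
congruent to 1 modulo 3 (v(3) < 1). β is nonzero since m' and ι' y - t are nonzero (ι' y - t = 0 would give (ι' y)^2 = -1, x^3 = 0).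
sel_of_cndZ: N from exists_QN (no_i27), m in Sel K, m = of a + of b root (SG_repr / A18_repr, H13E.S2Gen), m' = z^3 by CndZ, z = c + d t (QN.span), compare coordinates (QN.uniq, or the injective ring
homomorphism Qd K -> N: m - (of c + of d root)^3 maps to 0). SelE: H13E.selE_K. -/

open NumberField IsDedekindDomain Polynomial

namespace H35Z

open H55B H35T H13E H35X

theorem a5_le {k : Type} [Field k] (v : Valuation k (WithZero (Multiplicative ℤ))) {x : k} (hx : v x < 1) :
    v x ≤ WithZero.exp (-1 : ℤ) := by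
  by_cases hx0 : v x = 0
  · rw [hx0]
    exact zero_le
  · rw [← WithZero.exp_log hx0, WithZero.exp_le_exp]
    rw [← WithZero.exp_log hx0, ← WithZero.exp_zero, WithZero.exp_lt_exp] at hx
    omega

open H55C (exists_iota valued_alg A18_under A18_val_lt A18_val_eq A18_valued_ofNat A18_le A18_om A18_v_one A18_U_inv) in
theorem a5_loc {K N : Type} [Field K] [NumberField K] [Field N] [NumberField N] [Algebra K N]
    {t : N} {T : N ≃ₐ[K] N} (h : QN (-1) K N t T) (a b : K)
    (hm : (AdjoinRoot.of _ a + AdjoinRoot.of _ b * AdjoinRoot.root _ : Qd K) ∈ Sel K)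
    (P : HeightOneSpectrum (𝓞 N)) :
    ∃ (w : HeightOneSpectrum (𝓞 K)) (ι' : w.adicCompletion K →+* P.adicCompletion N) (e : ℕ),
      w.asIdeal = P.asIdeal.under (𝓞 K) ∧ 0 < e ∧
      (∀ x : K, ι' (algebraMap K _ x) = algebraMap N _ (algebraMap K N x)) ∧
      (∀ z : w.adicCompletion K, Valued.v (ι' z) = Valued.v z ^ e) ∧
      ∃ (x y : w.adicCompletion K) (β : P.adicCompletion N), y ^ 2 = x ^ 3 - 1 ∧ x ≠ 0 ∧
        algebraMap N (P.adicCompletion N) (algebraMap K N a + algebraMap K N b * t) *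
          (ι' y - algebraMap N (P.adicCompletion N) t) = β ^ 3 := by
  let w : HeightOneSpectrum (𝓞 K) :=
    ⟨P.asIdeal.under (𝓞 K), P.isPrime.under (𝓞 K), Ideal.IsIntegral.comap_ne_bot _ P.ne_bot⟩
  obtain ⟨ι', e, he, hι, hv⟩ := exists_iota K N P w rfl
  obtain ⟨x, y, hxy, hx0, β, hβ⟩ := hm.2.2 w
  have hsq : algebraMap N (P.adicCompletion N) t ^ 2 = -1 := by
    rw [← map_pow, h.sq]
    simp
  let ψ : Qd (w.adicCompletion K) →+* P.adicCompletion N :=
    AdjoinRoot.lift ι' (algebraMap N (P.adicCompletion N) t) (by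
      rw [Polynomial.eval₂_add, Polynomial.eval₂_pow, Polynomial.eval₂_X, Polynomial.eval₂_C,
        map_one, hsq, neg_add_cancel])
  have hψo : ∀ z : w.adicCompletion K, ψ (AdjoinRoot.of _ z) = ι' z := fun z => AdjoinRoot.lift_of _
  have hψr : ψ (AdjoinRoot.root _) = algebraMap N (P.adicCompletion N) t :=
    AdjoinRoot.lift_root _
  refine ⟨w, ι', e, rfl, he, hι, hv, x, y, ψ β, hxy, hx0, ?_⟩
  have h1 : ψ (qmap (algebraMap K (w.adicCompletion K)) (AdjoinRoot.of _ a + AdjoinRoot.of _ b * AdjoinRoot.root _ : Qd K)) =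
      algebraMap N (P.adicCompletion N) (algebraMap K N a + algebraMap K N b * t) := by
    have hco : ∀ z : K, qmap (algebraMap K (w.adicCompletion K)) (AdjoinRoot.of _ z) =
        AdjoinRoot.of _ (algebraMap K (w.adicCompletion K) z) := fun z => AdjoinRoot.map_of _ _ _ _ z
    have hcr : qmap (algebraMap K (w.adicCompletion K)) (AdjoinRoot.root _) =
        AdjoinRoot.root _ := AdjoinRoot.map_root _ _ _ _
    simp only [map_add, map_mul, hco, hcr, hψo, hψr, hι]
  have h2 := congrArg ψ hβ
  rw [map_mul, h1, map_pow, map_sub, hψo, hψr] at h2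
  exact h2

open H55C (exists_iota valued_alg A18_under A18_val_lt A18_val_eq A18_valued_ofNat A18_le A18_om A18_v_one A18_U_inv) in

theorem sel_cnd {K N : Type} [Field K] [NumberField K] [Algebra F K] [Field N] [NumberField N] [Algebra K N]
    {t : N} {T : N ≃ₐ[K] N} (hU : H35N.Unr3 K) (h : QN (-1) K N t T) (a b : K)
    (hm : (AdjoinRoot.of _ a + AdjoinRoot.of _ b * AdjoinRoot.root _ : Qd K) ∈ Sel K) :
    Cnd3 K N T (algebraMap K N a + algebraMap K N b * t) := by
  have hB : (-1 : ℤ) ≠ 0 := by norm_num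
  set m' : N := algebraMap K N a + algebraMap K N b * t with hm'
  have hab : a ^ 2 + 1 * b ^ 2 ≠ 0 := by
    intro h0
    obtain ⟨n, hn⟩ := hm.2.1
    rw [H35T.A18_norm] at hn
    have h1 : IsUnit (Algebra.norm K (AdjoinRoot.of _ a + AdjoinRoot.of _ b * AdjoinRoot.root _ : Qd K)) :=
      hm.1.map (Algebra.norm K)
    rw [H35T.A18_norm] at h1
    apply h1.ne_zero
    rw [← h0]
    ring
  have hne : m' ≠ 0 := by
    intro h0
    obtain ⟨h1, h2⟩ := h.indep hB a b h0
    apply hab
    rw [h1, h2]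
    ring
  have hthreeP : ∀ P : HeightOneSpectrum (𝓞 N), (3 : 𝓞 N) ∈ P.asIdeal → (2 : 𝓞 N) ∉ P.asIdeal := by
    intro P h3P h2P
    apply P.isPrime.ne_top
    rw [Ideal.eq_top_iff_one]
    have := P.asIdeal.sub_mem h3P h2P
    norm_num at this
    exact this
  have hval : ∀ P : HeightOneSpectrum (𝓞 N), (3 : 𝓞 N) ∈ P.asIdeal → ∀ (w : HeightOneSpectrum (𝓞 K)), w.asIdeal = P.asIdeal.under (𝓞 K) →
      P.valuation N (algebraMap K N (algebraMap O K (om - 1))) = WithZero.exp (-1 : ℤ) ∧
      P.valuation N (3 : N) = WithZero.exp (-2 : ℤ) := by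
    intro P h3P w hw
    have h2P := hthreeP P h3P
    have h3w := A18_under P w hw 3 h3P
    constructor
    · rw [h.val_eq P h2P w hw, lam3 hU w h3w]
    · have := h.val_eq P h2P w hw (3 : K)
      rw [map_ofNat] at this
      rw [this, three3 hU w h3w]
  have hP0 : ∀ P : HeightOneSpectrum (𝓞 N), ∃ w : HeightOneSpectrum (𝓞 K), w.asIdeal = P.asIdeal.under (𝓞 K) := fun P =>
    ⟨⟨P.asIdeal.under (𝓞 K), P.isPrime.under (𝓞 K), Ideal.IsIntegral.comap_ne_bot _ P.ne_bot⟩, rfl⟩
  refine ⟨hne, ?_, ?_, ?_⟩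
  · obtain ⟨n, hn⟩ := hm.2.1
    rw [H35T.A18_norm] at hn
    refine ⟨n, ?_⟩
    rw [hm', h.norm_mk, ← map_pow, ← hn]
    congr 1
    push_cast
    ring
  · intro P h6P
    have h2P : (2 : 𝓞 N) ∉ P.asIdeal := by
      intro h2
      apply h6P
      have := P.asIdeal.mul_mem_left 3 h2
      norm_num at this
      exact this
    obtain ⟨w, ι', e, hw, he, hι, hv, x, y, β, hxy, hx0, hβ⟩ := a5_loc h a b hm P
    have hsqP : algebraMap N (P.adicCompletion N) t ^ 2 = -1 := by
      rw [← map_pow, h.sq]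
      simp
    have hv2 : Valued.v (2 : P.adicCompletion N) = 1 := by
      rw [A18_valued_ofNat P 2]
      exact A18_val_eq P 2 h2P
    have hgex : ∃ k : ℤ, Valued.v (ι' y - algebraMap N (P.adicCompletion N) t) = WithZero.exp (3 * k) :=
      @H35T.loc1 (w.adicCompletion K) (P.adicCompletion N) _ _ ι'.toAlgebra
        Valued.v (algebraMap N (P.adicCompletion N) t) hsqP hv2 x y hxy hx0
    have hm0 : algebraMap N (P.adicCompletion N) m' ≠ 0 := by
      rw [Ne, map_eq_zero]
      exact hne
    have hg0 : ι' y - algebraMap N (P.adicCompletion N) t ≠ 0 := by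
      obtain ⟨k, hk⟩ := hgex
      intro h0
      rw [h0, map_zero] at hk
      exact WithZero.exp_ne_zero hk.symm
    rw [← valued_alg]
    exact A18_val_of_mul Valued.v hm0 hg0 hβ hgex
  · refine three_glob (algebraMap K N (algebraMap O K (om - 1))) (fun P h3P => ?_) m' hne (fun P h3P => ?_)
    · obtain ⟨w, hw⟩ := hP0 P
      obtain ⟨h1, h2⟩ := hval P h3P w hw
      refine ⟨h1, ?_⟩
      rw [h1, h2, pow_two, ← WithZero.exp_add]
      norm_num
    · obtain ⟨w, ι', e, hw, he, hι, hv, x, y, β, hxy, hx0, hβ⟩ := a5_loc h a b hm P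
      have h3w := A18_under P w hw 3 h3P
      have hw3 : w.valuation K (algebraMap O K (om - 1)) = WithZero.exp (-1 : ℤ) := lam3 hU w h3w
      obtain ⟨hl1, hl2⟩ := hval P h3P w hw
      have hsqP : algebraMap N (P.adicCompletion N) t ^ 2 = -1 := by
        rw [← map_pow, h.sq]
        simp
      have hr : algebraMap K (w.adicCompletion K) (algebraMap O K om) ^ 2 +
          algebraMap K (w.adicCompletion K) (algebraMap O K om) + 1 = 0 := by
        have h := congrArg (algebraMap K (w.adicCompletion K)) (A18_om K)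
        rwa [map_add, map_add, map_pow, map_one, map_zero] at h
      have hv3 : Valued.v (3 : P.adicCompletion N) < 1 := by
        rw [A18_valued_ofNat P 3]
        exact (A18_val_lt P 3).2 h3P
      have hv30 : Valued.v (3 : P.adicCompletion N) ≠ 0 := by
        rw [A18_valued_ofNat P 3]
        exact (Valuation.ne_zero_iff _).2 three_ne_zero
      have hK : ∀ z : w.adicCompletion K, Valued.v (ι' z) < 1 →
          Valued.v (ι' z) ≤
            Valued.v (ι' (algebraMap K (w.adicCompletion K) (algebraMap O K om) - 1)) := by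
        intro z hz
        rw [hv, hv]
        rw [hv] at hz
        refine A18_le he ?_ hz
        have e1 : algebraMap K (w.adicCompletion K) (algebraMap O K om) - 1 =
            algebraMap K (w.adicCompletion K) (algebraMap O K (om - 1)) := by
          rw [map_sub, map_sub, map_one, map_one]
        rw [e1, valued_alg, hw3]
      obtain ⟨b₂, hb0, hb2⟩ := @loc3' (w.adicCompletion K) (P.adicCompletion N) _ _ ι'.toAlgebra
        Valued.v _ hr (algebraMap N (P.adicCompletion N) t) hsqP hv30 hv3 hK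
        x y hxy hx0
      change Valued.v ((ι' y - algebraMap N (P.adicCompletion N) t) / b₂ ^ 3 - 1) ≤
        Valued.v (3 : P.adicCompletion N) at hb2
      set γ : P.adicCompletion N := ι' y - algebraMap N (P.adicCompletion N) t with hγ
      have hg1 := A18_v_one Valued.v hv3 hb2
      have hg0 : γ ≠ 0 := by
        intro h0
        rw [h0, zero_div, map_zero] at hg1
        exact zero_ne_one hg1
      have hm0 : algebraMap N (P.adicCompletion N) m' ≠ 0 := by
        rw [Ne, map_eq_zero]
        exact hne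
      have hβ0 : β ≠ 0 := by
        intro h0
        rw [h0, zero_pow three_ne_zero] at hβ
        exact mul_ne_zero hm0 hg0 hβ
      refine ⟨P.adicCompletion N, inferInstance, Valued.v, algebraMap N (P.adicCompletion N), β / b₂, valued_alg N P,
        fun z hz => ?_, div_ne_zero hβ0 hb0, ?_⟩
      · rw [valued_alg, hl1]
        exact a5_le Valued.v hz
      · have e1 : algebraMap N (P.adicCompletion N) m' / (β / b₂) ^ 3 = (γ / b₂ ^ 3)⁻¹ := by
          have e2 : algebraMap N (P.adicCompletion N) m' = β ^ 3 / γ := by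
            rw [eq_div_iff hg0]
            exact hβ
          rw [e2]
          field_simp
        rw [e1]
        exact A18_U_inv Valued.v hv3 hb2

theorem sel_of_cndZ {K : Type} [Field K] [NumberField K] [Algebra F K] (hB : BaseF K) (hZ : CndZ K) :
    SelZ3 K := by
  have hB1 : (-1 : ℤ) ≠ 0 := by norm_num
  have hsel : ∀ m ∈ Sel K, ∃ b : Qd K, m = b ^ 3 := by
    intro m hm
    obtain ⟨N, _, _, _, t, T, h⟩ := exists_QN (-1) K (no_i27 hB.odd)
    obtain ⟨a, b, rfl⟩ := SG_repr (f := X ^ 2 + C 1) (c := 1) rfl m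
    obtain ⟨z, hz⟩ := hZ N t T h _ (sel_cnd hB.unr h a b hm)
    obtain ⟨c, d, rfl⟩ := h.span z
    refine ⟨AdjoinRoot.of _ c + AdjoinRoot.of _ d * AdjoinRoot.root _, ?_⟩
    have ht : eval₂ (algebraMap K N) t (X ^ 2 + C 1) = 0 := by
      rw [eval₂_add, eval₂_pow, eval₂_X, eval₂_C, map_one, h.sq]
      push_cast
      ring
    let ψ : Qd K →+* N := AdjoinRoot.lift (algebraMap K N) t ht
    have hψo : ∀ z : K, ψ (AdjoinRoot.of _ z) = algebraMap K N z := fun z => AdjoinRoot.lift_of _
    have hψr : ψ (AdjoinRoot.root _) = t := AdjoinRoot.lift_root _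
    obtain ⟨p, q, hpq⟩ := SG_repr (f := X ^ 2 + C 1) (c := 1) rfl
      ((AdjoinRoot.of _ a + AdjoinRoot.of _ b * AdjoinRoot.root _ : Qd K) -
        (AdjoinRoot.of _ c + AdjoinRoot.of _ d * AdjoinRoot.root _) ^ 3)
    have h1 := congrArg ψ hpq
    rw [map_sub, map_pow, map_add, map_add, map_add, map_mul, map_mul, map_mul, hψo, hψo, hψo, hψo, hψo, hψo, hψr, hz, sub_self] at h1
    obtain ⟨h2, h3⟩ := h.indep hB1 p q h1.symm
    rw [h2, h3, map_zero, zero_mul, add_zero] at hpq
    exact sub_eq_zero.1 hpq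
  exact ⟨hsel, H13E.selE_K K hsel⟩

end H35Z
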