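import Mathlib
import Pool.Agent.Lib.H35X.Q2
import Pool.Agent.Lib.H35Z.A3
import Pool.Agent.Lib.H35Z.A5

/-! Chunk A12 (M): fields K₀ which do not contain F, K = K₀ F. (right to left) sel_sub and selE_sub of H13E (S2, S3; degree 2: hQ.rank). (left to right) Suppose SelZ3 K₀. By sel_of_cndZ it is enough to show
CndZ K: let m in N with Cnd3 K N T m be a non-cube; descQ (H35X.Q2) gives m₁ over K₀ with B = -1 or B = 27, Cnd3, not a cube, contradicting cube_of_cnd' resp. cube_of_cndE' (A3) with oddTwo_down.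
Compare goodRam_of_sel_0 in H35X/FinA.lean. -/

open NumberField IsDedekindDomain

namespace H35Z

open H55B H35T H13E H35X

theorem selZ3_quad {K₀ K : Type} [Field K₀] [NumberField K₀] [Field K] [NumberField K]
    [Algebra F K] [Algebra K₀ K] (hQ : Quad K₀ K) (hB : BaseF K) : SelZ3 K₀ ↔ SelZ3 K := by
  constructor
  · intro hs
    refine sel_of_cndZ hB ?_
    intro N _ _ _ t T hN m hm
    by_contra hns
    have h2 : OddTwo K₀ := oddTwo_down (K := K) hB.two
    rcases descQ hQ hN m hm hns with ⟨N₁, j1, j2, j3, t₁, T₁, m₁, hN₁, hm₁, hc⟩ |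
      ⟨N₂, j1, j2, j3, t₂, T₂, m₂, hN₂, hm₂, hc⟩
    · exact hc (cube_of_cnd' hN₁ h2 hs.1 m₁ hm₁)
    · exact hc (cube_of_cndE' hN₂ h2 hs.2 m₂ hm₂)
  · intro hs
    exact ⟨sel_sub K₀ K hQ.rank hs.1, selE_sub K₀ K hQ.rank hs.2⟩

end H35Z
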