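import Mathlib
import Pool.Agent.Lib.H19X.T2
import Pool.Agent.Lib.H35T.A14
import Pool.Agent.Lib.H35T.A18
import Pool.Agent.Lib.H35X.G2
import Pool.Agent.Lib.H35Z.Defs

/-! Chunk A13 (M): the base field F. Let N = F(i) with QN (-1) F N t T, m with Cnd3. H35T.cond_trivial (A14.lean) for K = F, k = 0: IsGalois F F, finrank 1 = 3^0, UnrOut F (ramification indices of F over F are 1).
The structure Comp F M' N ι τ T act of H35T: take M' = N, algebra M' -> N the identity (Algebra.id), ι = t, τ = T (as a ring automorphism), act g = the identity (every automorphism of F over F is 1);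
mspan, span from QN.span, mindep, indep from QN.indep, tower: both sides are algebraMap F N x (algebraMap F F = id), T_K: T is an F-algebra equivalence.
Cond F N T m from Cnd3: ne; norm (n <> 0 since m T m <> 0); three: b from Cnd3.three; val at P: if 6 not in P: Cnd3.val; if 3 in P: H35T.A18_val_of_three; if 2 in P: P is stable under T: the
prime of N above 2 is unique: (t + 1)^2 = 2 t, so t + 1 in P for every prime P above 2, and by QN.span / coordinates... : P.valuation (T z) = P'.valuation z (val_auto), and P' = P: the ramification index of P over the prime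
(2) of F is 2 ((1 + t)^2 = 2 t gives v_P(2) even, so e is even; e f g = 2, or e f <= 2 by H19X.T2_le and the number of primes above (2) is 1 as e f g = 2), so P' = P since both lie above (2) (2 is prime in O: H55B.two_prime).
So P.valuation m = P.valuation (T m), P.valuation m ^ 2 = P.valuation n ^ 3, hence 3 divides the exponent. -/

open NumberField IsDedekindDomain

namespace H35Z

open H55B H35T H13E H35X

theorem a13_e1 {M K : Type} [Field M] [NumberField M] [Field K] [NumberField K] [Algebra M K]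
    (h1 : Module.finrank M K = 1) (w : HeightOneSpectrum (𝓞 K)) :
    w.asIdeal.ramificationIdx (𝓞 M) = 1 := by
  have hwp := w.isPrime
  have h2 := H19X.T2_le (K1 := M) w
  rw [h1] at h2
  have h3 := w.asIdeal.ramificationIdx_pos (𝓞 M)
  have h4 := w.asIdeal.inertiaDeg_pos (𝓞 M)
  have h5 : w.asIdeal.ramificationIdx (𝓞 M) * 1 ≤
      w.asIdeal.ramificationIdx (𝓞 M) * w.asIdeal.inertiaDeg (𝓞 M) := Nat.mul_le_mul_left _ h4
  omega

theorem a13_val {M K : Type} [Field M] [NumberField M] [Field K] [NumberField K] [Algebra M K]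
    (w : HeightOneSpectrum (𝓞 K)) (v : HeightOneSpectrum (𝓞 M)) (hv : v.asIdeal = w.asIdeal.under (𝓞 M))
    (x : M) : w.valuation K (algebraMap M K x) = v.valuation M x ^ w.asIdeal.ramificationIdx (𝓞 M) := by
  have hwp := w.isPrime
  have hvp := v.isPrime
  have hl : w.asIdeal.LiesOver v.asIdeal := ⟨hv⟩
  rw [← Ideal.ramificationIdx'_eq_ramificationIdx v.asIdeal w.asIdeal v.ne_bot]
  exact (HeightOneSpectrum.valuation_liesOver K v w x).symm

/-- The prime 2 of F. -/
theorem a13_two (v : HeightOneSpectrum (𝓞 F)) (h2 : (2 : 𝓞 F) ∈ v.asIdeal) :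
    v.asIdeal = Ideal.span {(2 : 𝓞 F)} ∧ v.valuation F (2 : F) = WithZero.exp (-1 : ℤ) := by
  have hp := H55B.two_prime
  have hpi : (Ideal.span {(2 : 𝓞 F)}).IsPrime := (Ideal.span_singleton_prime hp.ne_zero).2 hp
  have hm : (Ideal.span {(2 : 𝓞 F)}).IsMaximal :=
    hpi.isMaximal (by rw [Ne, Ideal.span_singleton_eq_bot]; exact hp.ne_zero)
  have h1 : Ideal.span {(2 : 𝓞 F)} = v.asIdeal := by
    apply hm.eq_of_le v.isPrime.ne_top
    rw [Ideal.span_singleton_le_iff_mem]
    exact h2
  refine ⟨h1.symm, ?_⟩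
  have h3 := HeightOneSpectrum.valuation_of_algebraMap (K := F) v (2 : 𝓞 F)
  have e : algebraMap (𝓞 F) F 2 = 2 := map_ofNat _ 2
  rw [← e, h3]
  exact HeightOneSpectrum.intValuation_singleton v hp.ne_zero h1.symm

theorem a13_even {N : Type} [Field N] [NumberField N] [Algebra F N] {t : N} {T : N ≃ₐ[F] N}
    (h : QN (-1) F N t T) (P : HeightOneSpectrum (𝓞 N)) (v : HeightOneSpectrum (𝓞 F))
    (hv : v.asIdeal = P.asIdeal.under (𝓞 F)) (h2 : (2 : 𝓞 F) ∈ v.asIdeal) :
    2 ∣ P.asIdeal.ramificationIdx (𝓞 F) := by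
  obtain ⟨-, hv2⟩ := a13_two v h2
  have h3 := a13_val P v hv 2
  rw [map_ofNat, hv2, ← WithZero.exp_nsmul] at h3
  have hsq : t ^ 2 = -1 := by rw [h.sq]; push_cast; rfl
  have ht : P.valuation N t = 1 := by
    have h4 : P.valuation N t ^ 2 = 1 := by rw [← map_pow, hsq, Valuation.map_neg, map_one]
    have h40 : P.valuation N t ≠ 0 := by
      intro h0
      rw [h0, zero_pow two_ne_zero] at h4
      exact zero_ne_one h4
    rw [← WithZero.exp_log h40, ← WithZero.exp_nsmul, ← WithZero.exp_zero] at h4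
    have h41 := WithZero.exp_injective h4
    simp only [nsmul_eq_mul] at h41
    push_cast at h41
    have h42 : WithZero.log (P.valuation N t) = 0 := by omega
    rw [← WithZero.exp_log h40, h42, WithZero.exp_zero]
  have h5 : (1 + t) ^ 2 = 2 * t := by linear_combination hsq
  have h6 : P.valuation N (1 + t) ^ 2 = P.valuation N 2 := by
    rw [← map_pow, h5, map_mul, ht, mul_one]
  have h7 : (1 + t) ≠ 0 := by
    intro h0
    rw [h0, map_zero, zero_pow two_ne_zero] at h6
    exact (Valuation.ne_zero_iff _).2 (two_ne_zero : (2 : N) ≠ 0) h6.symm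
  have h8 : P.valuation N (1 + t) ≠ 0 := (Valuation.ne_zero_iff _).2 h7
  rw [h3, ← WithZero.exp_log h8, ← WithZero.exp_nsmul] at h6
  have h9 := WithZero.exp_injective h6
  simp only [nsmul_eq_mul] at h9
  push_cast at h9
  omega

theorem a13_under {K₀ K : Type} [Field K₀] [NumberField K₀] [Field K] [NumberField K] [Algebra K₀ K]
    (w : HeightOneSpectrum (𝓞 K)) :
    ∃ w₁ : HeightOneSpectrum (𝓞 K₀), w₁.asIdeal = w.asIdeal.under (𝓞 K₀) := by
  have hp := w.isPrime
  refine ⟨⟨w.asIdeal.under (𝓞 K₀), Ideal.IsPrime.under (𝓞 K₀) w.asIdeal, ?_⟩, rfl⟩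
  exact Ideal.IsIntegral.comap_ne_bot (𝓞 K₀) w.ne_bot

theorem a13_uniq {N : Type} [Field N] [NumberField N] [Algebra F N] {t : N} {T : N ≃ₐ[F] N}
    (h : QN (-1) F N t T) (P P' : HeightOneSpectrum (𝓞 N)) (h2 : (2 : 𝓞 N) ∈ P.asIdeal)
    (h2' : (2 : 𝓞 N) ∈ P'.asIdeal) : P = P' := by
  have hB : (-1 : ℤ) ≠ 0 := by norm_num
  have hG : IsGalois F N := h.galois hB
  obtain ⟨v, hv⟩ := a13_under (K₀ := F) P
  obtain ⟨v', hv'⟩ := a13_under (K₀ := F) P'
  have hm : (2 : 𝓞 F) ∈ v.asIdeal := by
    rw [hv, Ideal.mem_under, map_ofNat]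
    exact h2
  have hm' : (2 : 𝓞 F) ∈ v'.asIdeal := by
    rw [hv', Ideal.mem_under, map_ofNat]
    exact h2'
  have hvv : v = v' := HeightOneSpectrum.ext ((a13_two v hm).1.trans (a13_two v' hm').1.symm)
  subst hvv
  have he := a13_even h P v hv hm
  have hPp := P.isPrime
  have hPp' := P'.isPrime
  have hvp := v.isPrime
  have hl : P.asIdeal.LiesOver v.asIdeal := ⟨hv⟩
  have hl' : P'.asIdeal.LiesOver v.asIdeal := ⟨hv'⟩
  have h1 := Ideal.ncard_primesOver_mul_ramificationIdxIn_mul_inertiaDegIn v.asIdeal (𝓞 N)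
    (N ≃ₐ[F] N)
  rw [Ideal.ramificationIdxIn_eq_ramificationIdx v.asIdeal P.asIdeal (N ≃ₐ[F] N),
    IsGalois.card_aut_eq_finrank, h.rank hB] at h1
  have h3 : (v.asIdeal.primesOver (𝓞 N)).ncard = 1 := by
    obtain ⟨c, hc⟩ := he
    rw [hc] at h1
    have h4 : (v.asIdeal.primesOver (𝓞 N)).ncard * (c * v.asIdeal.inertiaDegIn (𝓞 N)) = 1 := by
      have h5 : 2 * ((v.asIdeal.primesOver (𝓞 N)).ncard * (c * v.asIdeal.inertiaDegIn (𝓞 N))) = 2 * 1 := by
        rw [mul_one]
        refine Eq.trans ?_ h1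
        ring
      exact Nat.eq_of_mul_eq_mul_left (by norm_num) h5
    exact Nat.eq_one_of_mul_eq_one_right h4
  rw [Set.ncard_eq_one] at h3
  obtain ⟨Q, hQ⟩ := h3
  have m1 : P.asIdeal ∈ v.asIdeal.primesOver (𝓞 N) := ⟨hPp, hl⟩
  have m2 : P'.asIdeal ∈ v.asIdeal.primesOver (𝓞 N) := ⟨hPp', hl'⟩
  rw [hQ, Set.mem_singleton_iff] at m1 m2
  exact HeightOneSpectrum.ext (m1.trans m2.symm)

theorem cndZ_F : CndZ F := by
  intro N _ _ _ t T h m hm
  have hB : (-1 : ℤ) ≠ 0 := by norm_num
  have hsq : t ^ 2 = -1 := by rw [h.sq]; push_cast; rfl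
  have hC : Comp F N N t (T : N ≃+* N) (T : N ≃+* N) (fun _ => RingEquiv.refl N) :=
    { sq := hsq
      tau_i := h.Tt
      tau_F := fun x => T.commutes x
      mspan := h.span
      mindep := h.indep hB
      tower := fun x => rfl
      span := h.span
      indep := h.indep hB
      T_K := fun x => T.commutes x
      T_M := fun z => rfl
      act_K := fun g x => by
        have h1 : g x = x := g.commutes x
        rw [h1]
        rfl
      act_M := fun g z => rfl }
  have hU : UnrOut F := fun w v hv _ => a13_e1 (Module.finrank_self F) w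
  have hm0 : T m ≠ 0 := by
    rw [Ne, map_eq_zero_iff T T.injective]
    exact hm.ne
  obtain ⟨n, hn⟩ := hm.norm
  have hn0 : n ≠ 0 := by
    rintro rfl
    rw [map_zero, zero_pow three_ne_zero] at hn
    exact mul_ne_zero hm.ne hm0 hn
  obtain ⟨b, hb0, hb⟩ := hm.three
  refine cond_trivial hC inferInstance 0 (by rw [pow_zero]; exact Module.finrank_self F) hU m
    ⟨hm.ne, ⟨n, hn0, hn⟩, fun P => ?_, fun P hP => ⟨b, hb0, hb P hP⟩⟩
  by_cases h6 : (6 : 𝓞 N) ∈ P.asIdeal
  · have h23 : (2 : 𝓞 N) ∈ P.asIdeal ∨ (3 : 𝓞 N) ∈ P.asIdeal := by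
      apply P.isPrime.mem_or_mem
      have e : (2 : 𝓞 N) * 3 = 6 := by norm_num
      rw [e]
      exact h6
    rcases h23 with h2 | h3
    · obtain ⟨P', hP', -⟩ := H35T.val_auto (T : N ≃+* N) P
      have h2' : (2 : 𝓞 N) ∈ P'.asIdeal := by
        have h4 := hP' 2
        have h5 : (T : N ≃+* N) (2 : N) = 2 := map_ofNat _ 2
        rw [h5] at h4
        rw [← H55C.A18_val_lt P' 2] 
        rw [← H55C.A18_val_lt P 2] at h2
        exact h4 ▸ h2
      have hPP := a13_uniq h P P' h2 h2'
      subst hPP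
      have h7 : P.valuation N m ^ 2 = P.valuation N (algebraMap F N n) ^ 3 := by
        have h8 := congrArg (P.valuation N) hn
        rw [map_mul, map_pow] at h8
        have h9 : P.valuation N (T m) = P.valuation N m := hP' m
        rw [h9] at h8
        rw [← h8, pow_two]
      have v1 : P.valuation N m ≠ 0 := (Valuation.ne_zero_iff _).2 hm.ne
      have v2 : P.valuation N (algebraMap F N n) ≠ 0 :=
        (Valuation.ne_zero_iff _).2 ((map_ne_zero _).2 hn0)
      rw [← WithZero.exp_log v1, ← WithZero.exp_log v2, ← WithZero.exp_nsmul, ← WithZero.exp_nsmul] at h7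
      have h9 := WithZero.exp_injective h7
      simp only [nsmul_eq_mul] at h9
      push_cast at h9
      refine ⟨WithZero.log (P.valuation N m) - WithZero.log (P.valuation N (algebraMap F N n)), ?_⟩
      rw [← WithZero.exp_log v1]
      congr 1
      rw [WithZero.log_exp]
      omega
    · refine A18_val_of_three (P.valuation N) ?_ hb0 (hb P h3)
      exact (H55C.A18_val_lt P 3).2 h3
  · exact hm.val P h6

end H35Z
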