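import Mathlib
import Pool.Agent.Lib.H35Z.A10
import Pool.Agent.Lib.H35Z.A12
import Pool.Agent.Lib.H35Z.A13

/-! Assembly of the algebraic half for y^2 = x^3 - 1 (helper35). -/

open NumberField IsDedekindDomain

namespace H35Z

open H55B H35T H13E H35X

theorem selZ3_iff_cndZ {K : Type} [Field K] [NumberField K] [Algebra F K] (hB : BaseF K) :
    SelZ3 K ↔ CndZ K := ⟨cndZ_of_sel hB.two, sel_of_cndZ hB⟩

theorem selZ3_rel {M K : Type} [Field M] [NumberField M] [Algebra F M] [Field K] [NumberField K]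
    [Algebra F K] [Algebra M K] [IsScalarTower F M K] (hM : BaseF M) (hS : RelT M K) :
    SelZ3 K ↔ SelZ3 M ∧ GoodRel M K := by
  rw [selZ3_iff_cndZ hM, selZ3_iff_cndZ (baseF_rel hM hS), cndZ_rel hM hS]

theorem goodRam_iff_rel (K : Type) [Field K] [NumberField K] [Algebra F K] :
    GoodRam3 K ↔ GoodRel F K := by
  constructor
  · intro h w h6 he
    exact h w h6 fun h1 => he ((H19X.e_iff w (H19X.T4_six h6)).1 h1)
  · intro h w h6 he
    exact h w h6 fun h1 => he ((H19X.e_iff w (H19X.T4_six h6)).2 h1)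

theorem selZ3_F (K : Type) [Field K] [NumberField K] [Algebra F K] (hS : RelT F K) :
    SelZ3 K ↔ GoodRam3 K := by
  rw [selZ3_rel baseF_F hS, goodRam_iff_rel, selZ3_iff_cndZ baseF_F]
  exact ⟨fun h => h.2, fun h => ⟨cndZ_F, h⟩⟩

/-- THEOREM (algebraic half, d = 1). -/
theorem selZ3_iff (K : Type) [Field K] [NumberField K] (h : Cls3T K) : SelZ3 K ↔ GoodRam3 K := by
  rcases cls3T_cases K h with ⟨i, hS⟩ | ⟨K₁, i1, i2, i3, i4, hQ, hS⟩
  · exact selZ3_F K hS
  · rw [selZ3_quad hQ (baseF_rel baseF_F hS), selZ3_F K₁ hS]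
    exact ⟨bad_up3 hQ, good_up3 hQ⟩

end H35Z
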