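import Mathlib
import Pool.Agent.Lib.H19Z.L2
import Pool.Agent.Lib.H35X.Defs

/-! Chunk P2 (M): points near the origin generate a subgroup of finite index, for the curve y^2 = x^3 + b over the completion at w. Compare H19Z/L2.lean (index_ne_zero, zl2_diff), where a gap is assumed; no gap is
needed here. Let H be the closure. v = Valued.v. WLOG C >= 1. Let P = (x1, y1), Q = (x2, y2) not be in the set: v(xi) <= C, v(yi)^2 = v(xi^3 + b) <= max (C^3, v b), so v(yi) <= C' for a suitable C' >= 1.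
CLAIM: there is c <> 0 such that v(x1 - x2) < c, v(y1 - y2) < c imply P - Q in H (in fact P - Q is 0 or has v(x) > C). P - Q = P + (-Q), -Q = (x2, -y2). If x1 = x2: y1 = y2 (then P - Q = 0) or y1 = -y2: then
P = -Q and P - Q = 2 P, with y1 - y2 = 2 y1 small. If x1 <> x2 then the slope of P, -Q is s = (y1 + y2)/(x1 - x2), and x(P - Q) = s^2 - x1 - x2, so it is enough that v(s)^2 > C (v(s)^2 > max(C, v(x1 + x2)), v(x1+x2) <= C).
Case v(y1 + y2) >= c1 (c1 to be chosen, c1 = v(2) c2 ...): v(s) >= c1/c large if c is small compared with c1. Case v(y1 + y2) < c1: v(2 y1) <= max(c1, c) so v(y1) is small (divide by v(2) <> 0), so v(y1)^2 < v(b)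
(b <> 0), so v(x1)^3 = v(y1^2 - b) = v(b), and v(3 x1^2) =: g is a fixed nonzero value (v(3) v(b)^(2/3); take g with g^3 = v(3)^3 v(b)^2, or bound below by any nonzero g0 with g0^3 <= v(3)^3 v(b)^2, g0 exists).
(y1 - y2)(y1 + y2) = x1^3 - x2^3 = (x1 - x2)(x1^2 + x1 x2 + x2^2), and x1^2 + x1 x2 + x2^2 = 3 x1^2 - 3 x1 (x1 - x2) + (x1 - x2)^2 has valuation g if c is small. If x1 <> x2 then y1 <> y2 (the right side is
nonzero) and s = (x1^2 + x1 x2 + x2^2)/(y1 - y2), v(s) >= g/c. If x1 = x2 and y1 = -y2 <> y2: the tangent slope of P is 3 x1^2/(2 y1), 2 y1 = y1 - y2, v(s) >= g/c, x(2P) = s^2 - 2 x1 (the slope for 2P; if y1 = 0 then y1 = y2).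
If x1 = x2, y1 = -y2 and v(y1 + y2) = 0 < c1: this is always the second case. All constants are values in WithZero (Multiplicative ℤ), they can be chosen as WithZero.exp(-n) (zl2_small). Finiteness: zl2_cls
(finitely many balls of radius γ in the integers) applied to x/λ, y/λ with λ of large valuation (v(x/λ) <= 1, v(y/λ) <= 1): the map from Point/H (choose representatives) to Option (S x S) is injective, so the quotient
is finite and the index is not 0 (see the end of index_ne_zero). -/

open NumberField IsDedekindDomain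

namespace H35Z

open H55B H35T H13E H35X

/-- A product is large and one factor is small: the other factor is large. -/
theorem p2_big {L : Type} [Field L] (v : Valuation L (WithZero (Multiplicative ℤ)))
    (C c g : WithZero (Multiplicative ℤ)) (h1 : 1 ≤ C) (hC : C * c < g) (s t : L)
    (hs : g ≤ v (s * t)) (ht : v t < c) : C < v (s ^ 2) := by
  by_contra hcon
  rw [not_lt] at hcon
  have h2 : v (s * t) ^ 2 ≤ (C * c) ^ 2 := by
    rw [← map_pow, mul_pow, map_mul, mul_pow]
    refine mul_le_mul' (hcon.trans ?_) ?_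
    · rw [pow_two]
      exact le_mul_of_one_le_left' h1
    · rw [map_pow]
      exact pow_le_pow_left' ht.le 2
  have h3 : (C * c) ^ 2 < g ^ 2 := pow_lt_pow_left₀ hC zero_le two_ne_zero
  have h4 : g ^ 2 ≤ v (s * t) ^ 2 := pow_le_pow_left' hs 2
  exact absurd (h4.trans h2) (not_le.2 h3)

theorem p2_near {L : Type} [Field L] [DecidableEq L] (v : Valuation L (WithZero (Multiplicative ℤ)))
    (b : L) (C c c1 g : WithZero (Multiplicative ℤ)) (h1 : 1 ≤ C) (hc : c ≤ 1)
    (hC1 : C * c < c1) (hCg : C * c < g) (h2 : c1 ^ 2 ≤ v 2 ^ 2 * v b) (h20 : v 2 ≠ 0)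
    (hg : g ^ 3 ≤ v 3 ^ 3 * v b ^ 2) (h3 : v 3 ≤ 1)
    (W : WeierstrassCurve L) (hW1 : W.a₁ = 0) (hW2 : W.a₂ = 0) (hW3 : W.a₃ = 0) (hW4 : W.a₄ = 0)
    (hW6 : W.a₆ = b)
    (x₁ y₁ x₂ y₂ : L) (hn1 : W.toAffine.Nonsingular x₁ y₁)
    (hn2 : W.toAffine.Nonsingular x₂ y₂)
    (hx1 : v x₁ ≤ C) (hx2 : v x₂ ≤ C) (hx : v (x₁ - x₂) < c) (hy : v (y₁ - y₂) < c) :
    WeierstrassCurve.Affine.Point.some x₁ y₁ hn1 - WeierstrassCurve.Affine.Point.some x₂ y₂ hn2 = 0 ∨
      ∃ (x y : L) (h : W.toAffine.Nonsingular x y),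
        WeierstrassCurve.Affine.Point.some x₁ y₁ hn1 - WeierstrassCurve.Affine.Point.some x₂ y₂ hn2 =
          WeierstrassCurve.Affine.Point.some x y h ∧ C < v x := by
  have hneg : ∀ x y, W.toAffine.negY x y = -y := by
    intro x y
    rw [WeierstrassCurve.Affine.negY, hW1, hW3]
    ring
  have e1 : y₁ ^ 2 = x₁ ^ 3 + b := by
    have h := (WeierstrassCurve.Affine.equation_iff _ _).1 hn1.1
    rw [hW1, hW2, hW3, hW4, hW6] at h
    linear_combination h
  have e2 : y₂ ^ 2 = x₂ ^ 3 + b := by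
    have h := (WeierstrassCurve.Affine.equation_iff _ _).1 hn2.1
    rw [hW1, hW2, hW3, hW4, hW6] at h
    linear_combination h
  by_cases hne0 : x₁ = x₂ ∧ y₁ = y₂
  · left
    obtain ⟨h4, h5⟩ := hne0
    subst h4 h5
    exact sub_self _
  · right
    have hne : ¬ (x₁ = x₂ ∧ y₁ = W.toAffine.negY x₂ (W.toAffine.negY x₂ y₂)) := by
      rw [hneg, hneg, neg_neg]
      exact hne0
    have hn2' : W.toAffine.Nonsingular x₂ (W.toAffine.negY x₂ y₂) :=
      (WeierstrassCurve.Affine.nonsingular_neg ..).mpr hn2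
    have hsub : WeierstrassCurve.Affine.Point.some x₁ y₁ hn1 -
        WeierstrassCurve.Affine.Point.some x₂ y₂ hn2 =
        WeierstrassCurve.Affine.Point.some _ _ (WeierstrassCurve.Affine.nonsingular_add hn1 hn2' hne) := by
      rw [sub_eq_add_neg, WeierstrassCurve.Affine.Point.neg_some,
        WeierstrassCurve.Affine.Point.add_some hne]
    refine ⟨_, _, _, hsub, ?_⟩
    obtain ⟨s, hs⟩ : ∃ s, s = W.toAffine.slope x₁ x₂ y₁ (W.toAffine.negY x₂ y₂) := ⟨_, rfl⟩
    rw [← hs]
    have hC0 : c ≤ C * c := le_mul_of_one_le_left' h1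
    -- the slope is large
    have hbig : C < v (s ^ 2) := by
      by_cases hsum : c1 ≤ v (y₁ + y₂)
      · have hxx : x₁ ≠ x₂ := by
          intro hxx
          rcases WeierstrassCurve.Affine.Y_eq_of_X_eq hn1.1 hn2.1 hxx with h | h
          · exact hne0 ⟨hxx, h⟩
          · rw [hneg] at h
            rw [h, neg_add_cancel, map_zero] at hsum
            exact absurd (lt_of_lt_of_le hC1 hsum) (not_lt.2 zero_le)
        have hd : x₁ - x₂ ≠ 0 := sub_ne_zero.2 hxx
        have hl1 : s * (x₁ - x₂) = y₁ + y₂ := by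
          rw [hs, WeierstrassCurve.Affine.slope_of_X_ne hxx, div_mul_cancel₀ _ hd, hneg]
          ring
        exact p2_big v C c c1 h1 hC1 s (x₁ - x₂) (by rw [hl1]; exact hsum) hx
      · rw [not_le] at hsum
        have hy2 : v 2 * v y₁ < c1 := by
          rw [← map_mul]
          have e : 2 * y₁ = (y₁ + y₂) + (y₁ - y₂) := by ring
          rw [e]
          exact lt_of_le_of_lt (Valuation.map_add _ _ _) (max_lt hsum (hy.trans_le (hC0.trans hC1.le)))
        have hy3 : v (y₁ ^ 2) < v b := by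
          have h4 : (v 2 * v y₁) ^ 2 < v 2 ^ 2 * v b :=
            lt_of_lt_of_le (pow_lt_pow_left₀ hy2 zero_le two_ne_zero) h2
          rw [mul_pow] at h4
          rw [map_pow]
          exact lt_of_mul_lt_mul_left' h4
        have hx3 : v x₁ ^ 3 = v b := by
          rw [← map_pow]
          have e : x₁ ^ 3 = y₁ ^ 2 - b := by rw [e1]; ring
          rw [e]
          exact Valuation.map_sub_eq_of_lt_right _ hy3
        have hg1 : g ≤ v (3 * x₁ ^ 2) := by
          by_contra hcon
          rw [not_le] at hcon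
          have h4 := pow_lt_pow_left₀ hcon zero_le three_ne_zero
          have h5 : v (3 * x₁ ^ 2) ^ 3 = v 3 ^ 3 * v b ^ 2 := by
            rw [← hx3, map_mul, map_pow, mul_pow, ← pow_mul, ← pow_mul]
          rw [h5] at h4
          exact absurd hg (not_le.2 h4)
        by_cases hxx : x₁ = x₂
        · rcases WeierstrassCurve.Affine.Y_eq_of_X_eq hn1.1 hn2.1 hxx with h | h
          · exact absurd ⟨hxx, h⟩ hne0
          · have hyn : y₁ ≠ W.toAffine.negY x₂ (W.toAffine.negY x₂ y₂) := fun h => hne ⟨hxx, h⟩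
            rw [hneg] at h
            have hyy : y₁ - y₂ ≠ 0 := sub_ne_zero.2 (fun h => hne0 ⟨hxx, h⟩)
            have e3 : y₁ - W.toAffine.negY x₁ y₁ = y₁ - y₂ := by
              rw [hneg, h, neg_neg]
            have hl1 : s * (y₁ - y₂) = 3 * x₁ ^ 2 := by
              rw [hs, WeierstrassCurve.Affine.slope_of_Y_ne hxx hyn, e3, div_mul_cancel₀ _ hyy, hW1, hW2,
                hW4]
              ring
            exact p2_big v C c g h1 hCg s (y₁ - y₂) (by rw [hl1]; exact hg1) hy
        · have hd : x₁ - x₂ ≠ 0 := sub_ne_zero.2 hxx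
          have hl1 : s * (x₁ - x₂) = y₁ + y₂ := by
            rw [hs, WeierstrassCurve.Affine.slope_of_X_ne hxx, div_mul_cancel₀ _ hd, hneg]
            ring
          have hl2 : s * (y₁ - y₂) = x₁ ^ 2 + x₁ * x₂ + x₂ ^ 2 := by
            apply mul_right_cancel₀ hd
            linear_combination (y₁ - y₂) * hl1 + e1 - e2
          have hN : g ≤ v (x₁ ^ 2 + x₁ * x₂ + x₂ ^ 2) := by
            have e : x₁ ^ 2 + x₁ * x₂ + x₂ ^ 2 =
              3 * x₁ ^ 2 - (3 * x₁ * (x₁ - x₂) - (x₁ - x₂) ^ 2) := by ring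
            have h4 : v (3 * x₁ * (x₁ - x₂) - (x₁ - x₂) ^ 2) < v (3 * x₁ ^ 2) := by
              refine lt_of_lt_of_le ?_ hg1
              refine lt_of_le_of_lt (Valuation.map_sub _ _ _) (max_lt ?_ ?_)
              · refine lt_of_le_of_lt ?_ hCg
                rw [map_mul, map_mul]
                refine mul_le_mul' ?_ hx.le
                calc v 3 * v x₁ ≤ 1 * C := mul_le_mul' h3 hx1
                  _ = C := one_mul C
              · refine lt_of_le_of_lt ?_ hCg
                rw [map_pow, pow_two]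
                calc v (x₁ - x₂) * v (x₁ - x₂) ≤ 1 * c := mul_le_mul' (hx.le.trans hc) hx.le
                  _ = c := one_mul c
                  _ ≤ C * c := hC0
            rw [e, Valuation.map_sub_eq_of_lt_left _ h4]
            exact hg1
          exact p2_big v C c g h1 hCg s (y₁ - y₂) (by rw [hl2]; exact hN) hy
    have e3 : W.toAffine.addX x₁ x₂ s = s ^ 2 - (x₁ + x₂) := by
      rw [WeierstrassCurve.Affine.addX, hW1, hW2]
      ring
    have h4 : v (x₁ + x₂) < v (s ^ 2) :=
      lt_of_le_of_lt ((Valuation.map_add _ _ _).trans (max_le hx1 hx2)) hbig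
    rw [e3, Valuation.map_sub_eq_of_lt_left _ h4]
    exact hbig

open Classical in
/-- The same with 1 <= C. -/
theorem idx_big1 {K : Type} [Field K] [NumberField K] (w : HeightOneSpectrum (𝓞 K))
    (b : w.adicCompletion K) (hb : b ≠ 0) (C : WithZero (Multiplicative ℤ)) (h1 : 1 ≤ C) :
    (AddSubgroup.closure {P : (⟨0, 0, 0, 0, b⟩ : WeierstrassCurve (w.adicCompletion K)).toAffine.Point |
      P = 0 ∨ ∃ (x y : w.adicCompletion K) (h : (⟨0, 0, 0, 0, b⟩ :
        WeierstrassCurve (w.adicCompletion K)).toAffine.Nonsingular x y),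
        P = WeierstrassCurve.Affine.Point.some x y h ∧ C < Valued.v x}).index ≠ 0 := by
  have hch : CharZero (w.adicCompletion K) :=
    charZero_of_injective_algebraMap (algebraMap K (w.adicCompletion K)).injective
  have hvb : Valued.v b ≠ 0 := (Valuation.ne_zero_iff _).2 hb
  have h20 : Valued.v (2 : w.adicCompletion K) ≠ 0 := (Valuation.ne_zero_iff _).2 two_ne_zero
  have h30 : Valued.v (3 : w.adicCompletion K) ≠ 0 := (Valuation.ne_zero_iff _).2 three_ne_zero
  have h3 : Valued.v (3 : w.adicCompletion K) ≤ 1 := by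
    have h := (3 : w.adicCompletionIntegers K).2
    exact h
  have hCne : C ≠ 0 := (lt_of_lt_of_le zero_lt_one h1).ne'
  have hmin : ∀ γ : WithZero (Multiplicative ℤ), γ ≠ 0 → min 1 γ ≠ 0 := by
    intro γ hγ
    rcases min_choice 1 γ with h | h <;> rw [h]
    · exact one_ne_zero
    · exact hγ
  obtain ⟨c1, hc1⟩ : ∃ c1, c1 = min 1 (Valued.v (2 : w.adicCompletion K) ^ 2 * Valued.v b) := ⟨_, rfl⟩
  obtain ⟨g, hg⟩ : ∃ g, g = min 1 (Valued.v (3 : w.adicCompletion K) ^ 3 * Valued.v b ^ 2) := ⟨_, rfl⟩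
  have hc10 : c1 ≠ 0 := by
    rw [hc1]
    exact hmin _ (mul_ne_zero (pow_ne_zero _ h20) hvb)
  have hg0 : g ≠ 0 := by
    rw [hg]
    exact hmin _ (mul_ne_zero (pow_ne_zero _ h30) (pow_ne_zero _ hvb))
  have hc1' : c1 ^ 2 ≤ Valued.v (2 : w.adicCompletion K) ^ 2 * Valued.v b := by
    have h4 : c1 ≤ 1 := by rw [hc1]; exact min_le_left _ _
    calc c1 ^ 2 ≤ c1 := by
          rw [pow_two]
          exact mul_le_of_le_one_left' h4
      _ ≤ _ := by rw [hc1]; exact min_le_right _ _
  have hg' : g ^ 3 ≤ Valued.v (3 : w.adicCompletion K) ^ 3 * Valued.v b ^ 2 := by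
    have h4 : g ≤ 1 := by rw [hg]; exact min_le_left _ _
    calc g ^ 3 = g ^ 2 * g := pow_succ g 2
      _ ≤ 1 * g := mul_le_mul' (pow_le_one' h4 2) le_rfl
      _ = g := one_mul g
      _ ≤ _ := by rw [hg]; exact min_le_right _ _
  obtain ⟨n, hn⟩ := H19Z.zl2_small (C⁻¹ * min c1 g) (mul_ne_zero (inv_ne_zero hCne) (by
    rcases min_choice c1 g with h | h <;> rw [h]
    · exact hc10
    · exact hg0))
  obtain ⟨c, hc⟩ : ∃ c : WithZero (Multiplicative ℤ), c = WithZero.exp (-(n : ℤ)) := ⟨_, rfl⟩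
  rw [← hc] at hn
  have hc0 : c ≠ 0 := by rw [hc]; exact WithZero.exp_ne_zero
  have hcle : c ≤ 1 := by
    rw [hc, ← WithZero.exp_zero, WithZero.exp_le_exp]
    omega
  have hCc : C * c < min c1 g := by
    have h4 : C * c < C * (C⁻¹ * min c1 g) := by
      refine lt_of_le_of_ne (mul_le_mul' le_rfl hn.le) ?_
      intro h5
      exact absurd (mul_left_cancel₀ hCne h5) hn.ne
    rwa [mul_inv_cancel_left₀ hCne] at h4
  have hC1 : C * c < c1 := lt_of_lt_of_le hCc (min_le_left _ _)
  have hCg : C * c < g := lt_of_lt_of_le hCc (min_le_right _ _)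
  -- a bound for y
  obtain ⟨D, hD⟩ : ∃ D, D = max (C ^ 3) (Valued.v b) := ⟨_, rfl⟩
  have hD1 : 1 ≤ D := by
    rw [hD]
    exact (one_le_pow_of_one_le' h1 3).trans (le_max_left _ _)
  obtain ⟨l, hl0, hl⟩ : ∃ l : w.adicCompletion K, l ≠ 0 ∧ max C D ≤ Valued.v l := by
    obtain ⟨m, hm⟩ := H19Z.zl2_small (max C D)⁻¹ (inv_ne_zero (by
      rcases max_choice C D with h | h <;> rw [h]
      · exact hCne
      · exact (lt_of_lt_of_le zero_lt_one hD1).ne'))
    obtain ⟨p, hp⟩ := w.valuation_exists_uniformizer K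
    have hvz : Valued.v (algebraMap K (w.adicCompletion K) (p ^ m)) = WithZero.exp (-(m : ℤ)) := by
      have h1 := HeightOneSpectrum.valuedAdicCompletion_eq_valuation' w (p ^ m)
      have h2 : Valued.v (algebraMap K (w.adicCompletion K) (p ^ m)) = w.valuation K (p ^ m) := h1
      rw [h2, map_pow, hp, ← WithZero.exp_nsmul]
      congr 1
      simp
    have hz0 : algebraMap K (w.adicCompletion K) (p ^ m) ≠ 0 := by
      intro h
      rw [h, map_zero] at hvz
      exact WithZero.exp_ne_zero hvz.symm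
    refine ⟨(algebraMap K (w.adicCompletion K) (p ^ m))⁻¹, inv_ne_zero hz0, ?_⟩
    rw [map_inv₀, hvz]
    rw [le_inv_comm₀ _ _]
    · exact hm.le
    · exact lt_of_lt_of_le zero_lt_one (h1.trans (le_max_left _ _))
    · exact zero_lt_iff.2 WithZero.exp_ne_zero
  have hvl : Valued.v l ≠ 0 := (Valuation.ne_zero_iff _).2 hl0
  obtain ⟨S, hS, f, hf⟩ := H19Z.zl2_cls w (c / Valued.v l) (div_ne_zero hc0 hvl)
  have hf' : ∀ x y, Valued.v x ≤ Valued.v l → Valued.v y ≤ Valued.v l → f (x / l) = f (y / l) →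
      Valued.v (x - y) < c := by
    intro x y hx hy hxy
    have h4 := hf (x / l) (y / l) (by rw [map_div₀]; exact div_le_one_of_le₀ hx zero_le)
      (by rw [map_div₀]; exact div_le_one_of_le₀ hy zero_le) hxy
    rw [← sub_div, map_div₀] at h4
    exact (div_lt_div_iff_of_pos_right (zero_lt_iff.2 hvl)).1 h4
  obtain ⟨T, hT⟩ : ∃ T : Set (⟨0, 0, 0, 0, b⟩ : WeierstrassCurve (w.adicCompletion K)).toAffine.Point,
      T = {P | P = 0 ∨ ∃ (x y : w.adicCompletion K) (h : (⟨0, 0, 0, 0, b⟩ :
        WeierstrassCurve (w.adicCompletion K)).toAffine.Nonsingular x y),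
        P = WeierstrassCurve.Affine.Point.some x y h ∧ C < Valued.v x} := ⟨_, rfl⟩
  rw [← hT]
  -- coordinates
  have hco : ∀ P : (⟨0, 0, 0, 0, b⟩ : WeierstrassCurve (w.adicCompletion K)).toAffine.Point, P ∉ T →
      ∃ (x y : w.adicCompletion K) (h : (⟨0, 0, 0, 0, b⟩ :
        WeierstrassCurve (w.adicCompletion K)).toAffine.Nonsingular x y),
        P = WeierstrassCurve.Affine.Point.some x y h ∧ Valued.v x ≤ C ∧ Valued.v y ≤ D := by
    intro P hP
    rw [hT] at hP
    rcases P with _ | ⟨x, y, h⟩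
    · exact absurd (Or.inl rfl) hP
    · refine ⟨x, y, h, rfl, ?_⟩
      have hx : Valued.v x ≤ C := by
        by_contra hcon
        exact hP (Or.inr ⟨x, y, h, rfl, not_le.1 hcon⟩)
      refine ⟨hx, ?_⟩
      have he : y ^ 2 = x ^ 3 + b := by
        have he := (WeierstrassCurve.Affine.equation_iff _ _).1 h.1
        simp only at he
        linear_combination he
      by_contra hcon
      rw [not_le] at hcon
      have h4 : Valued.v y ^ 2 ≤ D := by
        rw [← map_pow, he, hD]
        refine (Valuation.map_add _ _ _).trans (max_le_max ?_ le_rfl)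
        rw [map_pow]
        exact pow_le_pow_left' hx 3
      have h5 : D < Valued.v y ^ 2 := by
        calc D < Valued.v y := hcon
          _ ≤ Valued.v y ^ 2 := by
            rw [pow_two]
            exact le_mul_of_one_le_left' (hD1.trans hcon.le)
      exact absurd h4 (not_le.2 h5)
  have hcls : ∃ g : (⟨0, 0, 0, 0, b⟩ : WeierstrassCurve (w.adicCompletion K)).toAffine.Point → Option (S × S),
      ∀ P Q, g P = g Q → P - Q ∈ AddSubgroup.closure T := by
    choose! X Y hN hP hX hY using hco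
    refine ⟨fun P => if P ∈ T then none else some (f (X P / l), f (Y P / l)), ?_⟩
    intro P Q hPQ
    by_cases hp : P ∈ T
    · by_cases hq : Q ∈ T
      · exact sub_mem (AddSubgroup.subset_closure hp) (AddSubgroup.subset_closure hq)
      · simp only [if_pos hp, if_neg hq] at hPQ
        exact absurd hPQ (by simp)
    · by_cases hq : Q ∈ T
      · simp only [if_neg hp, if_pos hq] at hPQ
        exact absurd hPQ (by simp)
      · simp only [if_neg hp, if_neg hq, Option.some.injEq, Prod.mk.injEq] at hPQ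
        apply AddSubgroup.subset_closure
        have hlX : ∀ R, R ∉ T → Valued.v (X R) ≤ Valued.v l := fun R hR =>
          (hX R hR).trans ((le_max_left _ _).trans hl)
        have hlY : ∀ R, R ∉ T → Valued.v (Y R) ≤ Valued.v l := fun R hR =>
          (hY R hR).trans ((le_max_right _ _).trans hl)
        have h := p2_near Valued.v b C c c1 g h1 hcle hC1 hCg hc1' h20 hg' h3 _ rfl rfl rfl rfl rfl _ _ _ _ (hN P hp) (hN Q hq)
          (hX P hp) (hX Q hq) (hf' _ _ (hlX P hp) (hlX Q hq) hPQ.1) (hf' _ _ (hlY P hp) (hlY Q hq) hPQ.2)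
        rw [← hP P hp, ← hP Q hq] at h
        rw [hT]
        exact h
  obtain ⟨g, hg⟩ := hcls
  have hfin : Finite ((⟨0, 0, 0, 0, b⟩ : WeierstrassCurve (w.adicCompletion K)).toAffine.Point ⧸
      AddSubgroup.closure T) := by
    refine Finite.of_injective (fun q => g q.out) ?_
    intro q q' hqq
    have h := hg _ _ hqq
    have h' : (q.out : (⟨0, 0, 0, 0, b⟩ : WeierstrassCurve (w.adicCompletion K)).toAffine.Point ⧸
        AddSubgroup.closure T) = (q'.out : _) := by
      rw [QuotientAddGroup.eq]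
      have := neg_mem h
      rwa [neg_sub, sub_eq_add_neg, add_comm] at this
    rwa [QuotientAddGroup.out_eq', QuotientAddGroup.out_eq'] at h'
  exact AddSubgroup.index_ne_zero_of_finite

open Classical in
theorem idx_big {K : Type} [Field K] [NumberField K] (w : HeightOneSpectrum (𝓞 K))
    (b : w.adicCompletion K) (hb : b ≠ 0) (C : WithZero (Multiplicative ℤ)) :
    (AddSubgroup.closure {P : (⟨0, 0, 0, 0, b⟩ : WeierstrassCurve (w.adicCompletion K)).toAffine.Point |
      P = 0 ∨ ∃ (x y : w.adicCompletion K) (h : (⟨0, 0, 0, 0, b⟩ :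
        WeierstrassCurve (w.adicCompletion K)).toAffine.Nonsingular x y),
        P = WeierstrassCurve.Affine.Point.some x y h ∧ C < Valued.v x}).index ≠ 0 := by
  have h := idx_big1 w b hb (max 1 C) (le_max_left _ _)
  refine fun h0 => h (Nat.eq_zero_of_zero_dvd ?_)
  rw [← h0]
  apply AddSubgroup.index_dvd_of_le
  apply AddSubgroup.closure_mono
  rintro P (hP | ⟨x, y, h', hP, hx⟩)
  · exact Or.inl hP
  · exact Or.inr ⟨x, y, h', hP, lt_of_le_of_lt (le_max_right _ _) hx⟩

end H35Z
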