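import Mathlib
import Pool.Agent.Lib.H19Z.L8
import Pool.Agent.Lib.H35Z.Defs
import Pool.Agent.Lib.H35Z.P2

/-! Chunk P3 (M): the Tamagawa numbers of E_d. Ew_eq, Ew_Δ ..., Wm_eq, Wm_integral: as in H19Z/L8.lean. cw_ne_zero: Wm = C • Ew; vc_iso (H19Z/L1) gives φ : (C • Ew).Point ≃+ Ew.Point with coordinates X = u^2 x + r.
Let C0 >= max (v(u)^2, v(r)). If v(X) > C0 then v(u^2 x) = v(X - r) = v(X) > v(u)^2, so v(x) > 1 and the point is in NonsRed. So φ^(-1) of the set of idx_big (for b = -d^2, C = C0) is contained in NonsRed, and the closure of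
NonsRed contains the preimage of a subgroup of finite index (AddSubgroup.index_comap_of_surjective / map by an equivalence; index of a larger subgroup divides). cw_of_div: the quotient by the closure of NonsRed is finite
and every element of it is 3 times an element (transport hdiv by φ), so its order is prime to 3 (if 3 divides the order of a finite commutative group then multiplication by 3 is not injective (Cauchy), hence not
surjective). cw_two: OddTwo gives v(2) = exp(-e), e odd; three_div with d in K_w: no square root of -1 (nosq_two), hA, hB: cube_two' (A1) with B = -1 = 3 + 4 (-1), 27 = 3 + 4 * 6. cw_seven: nosq_seven and cube_seven (A2). -/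

open NumberField IsDedekindDomain WeierstrassCurve

namespace H35Z

open H55B H35T H13E H35X

variable (d : ℤ) (K : Type) [Field K] [NumberField K] (w : HeightOneSpectrum (𝓞 K))

theorem Ew_eq : Ew d K w = ⟨0, 0, 0, 0, -(d : w.adicCompletion K) ^ 2⟩ := by
  unfold Ew
  ext <;> simp [Ec, WeierstrassCurve.baseChange]

theorem Ew_Δ : (Ew d K w).Δ = -(432 * (d : w.adicCompletion K) ^ 4) := by
  rw [Ew_eq]
  simp only [WeierstrassCurve.Δ, WeierstrassCurve.b₂, WeierstrassCurve.b₄, WeierstrassCurve.b₆,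
    WeierstrassCurve.b₈]
  ring

theorem Ew_integral : WeierstrassCurve.IsIntegral (w.adicCompletionIntegers K) (Ew d K w) := by
  rw [Ew_eq]
  apply isIntegral_of_exists_lift
  · exact ⟨0, map_zero _⟩
  · exact ⟨0, map_zero _⟩
  · exact ⟨0, map_zero _⟩
  · exact ⟨0, map_zero _⟩
  · refine ⟨((-d ^ 2 : ℤ) : w.adicCompletionIntegers K), ?_⟩
    rw [map_intCast]
    push_cast
    rfl

theorem Wm_eq : ∃ C : VariableChange (w.adicCompletion K), Wm d K w = C • Ew d K w := ⟨_, rfl⟩

theorem Wm_integral : WeierstrassCurve.IsIntegral (w.adicCompletionIntegers K) (Wm d K w) := by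
  unfold Wm
  infer_instance

theorem Ew_Δ_ne (hd : d ≠ 0) : (Ew d K w).Δ ≠ 0 := by
  have := H19Z.compl_charZero K w
  rw [Ew_Δ]
  have h : (d : w.adicCompletion K) ≠ 0 := Int.cast_ne_zero.2 hd
  exact neg_ne_zero.2 (mul_ne_zero (by norm_num) (pow_ne_zero _ h))

theorem Ew_elliptic (hd : d ≠ 0) : (Ew d K w).IsElliptic := ⟨isUnit_iff_ne_zero.2 (Ew_Δ_ne d K w hd)⟩

/-- A subgroup of finite index of a group divisible by 3 has index prime to 3. -/
theorem p3_index {G : Type*} [AddCommGroup G] (H : AddSubgroup G) (h0 : H.index ≠ 0)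
    (h3 : ∀ P : G, ∃ Q : G, P = (3 : ℕ) • Q) : ¬ 3 ∣ H.index := by
  classical
  haveI : H.FiniteIndex := ⟨h0⟩
  haveI : Finite (G ⧸ H) := H.finite_quotient_of_finiteIndex
  intro hdvd
  have hcard : H.index = Nat.card (G ⧸ H) := rfl
  rw [hcard] at hdvd
  haveI : Fact (Nat.Prime 3) := ⟨Nat.prime_three⟩
  obtain ⟨x, hx⟩ := exists_prime_addOrderOf_dvd_card' (G := G ⧸ H) 3 hdvd
  have hsurj : Function.Surjective (fun y : G ⧸ H => (3 : ℕ) • y) := by
    intro y
    obtain ⟨P, rfl⟩ := QuotientAddGroup.mk_surjective y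
    obtain ⟨Q, hQ⟩ := h3 P
    exact ⟨QuotientAddGroup.mk Q, by rw [hQ]; rfl⟩
  have hinj : Function.Injective (fun y : G ⧸ H => (3 : ℕ) • y) := Finite.injective_iff_surjective.2 hsurj
  have h1 : (3 : ℕ) • x = 0 := by
    have h3 := addOrderOf_nsmul_eq_zero x
    rwa [hx] at h3
  have h4 : x = 0 := hinj (by simpa using h1)
  rw [h4, addOrderOf_zero] at hx
  omega

open Classical in
/-- Points near the origin have nonsingular reduction for every integral or non integral equation. -/
theorem p3_le {K : Type} [Field K] [NumberField K] (w : HeightOneSpectrum (𝓞 K))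
    (W : WeierstrassCurve (w.adicCompletion K)) [W.IsElliptic]
    (C : VariableChange (w.adicCompletion K))
    (h : ∀ C0 : WithZero (Multiplicative ℤ),
      (AddSubgroup.closure {P : W.toAffine.Point | P = 0 ∨ ∃ (x y : w.adicCompletion K)
        (h : W.toAffine.Nonsingular x y), P = WeierstrassCurve.Affine.Point.some x y h ∧
          C0 < Valued.v x}).index ≠ 0) :
    (AddSubgroup.closure (H19Z.NonsRed w (C • W))).index ≠ 0 := by
  obtain ⟨φ, hφ⟩ := H19Z.vc_iso W C
  obtain ⟨C0, hC0⟩ : ∃ C0, C0 = max (Valued.v ((C.u : w.adicCompletion K) ^ 2)) (Valued.v C.r) := ⟨_, rfl⟩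
  have h1 := h C0
  rw [← AddSubgroup.index_map_equiv (AddSubgroup.closure (H19Z.NonsRed w (C • W))) φ]
  refine fun h0 => h1 (Nat.eq_zero_of_zero_dvd ?_)
  rw [← h0]
  apply AddSubgroup.index_dvd_of_le
  rw [AddSubgroup.closure_le]
  intro P hP
  obtain ⟨Q, rfl⟩ := φ.surjective P
  rw [SetLike.mem_coe]
  refine AddSubgroup.mem_map.2 ⟨Q, AddSubgroup.subset_closure ?_, rfl⟩
  rcases hP with hP | ⟨X, Y, h', hP, hX⟩
  · left
    exact (map_eq_zero_iff φ φ.injective).1 hP
  · rcases Q with _ | ⟨x, y, hq⟩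
    · exfalso
      have e : φ (Affine.Point.zero : (C • W).toAffine.Point) = 0 := map_zero φ
      rw [e] at hP
      exact absurd hP (by intro hh; cases hh)
    · right
      obtain ⟨h2, h3⟩ := hφ x y hq
      rw [h3, Affine.Point.some.injEq] at hP
      refine ⟨x, y, hq, rfl, Or.inl ?_⟩
      rw [hC0, max_lt_iff] at hX
      have hu : (C.u : w.adicCompletion K) ≠ 0 := C.u.ne_zero
      have hvu : Valued.v (C.u : w.adicCompletion K) ≠ 0 := (Valuation.ne_zero_iff _).2 hu
      have h4 : Valued.v ((C.u : w.adicCompletion K) ^ 2 * x) = Valued.v X := by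
        have e : (C.u : w.adicCompletion K) ^ 2 * x = X - C.r := by
          rw [← hP.1]; ring
        rw [e]
        exact Valuation.map_sub_eq_of_lt_left _ hX.2
      by_contra hcon
      rw [not_lt] at hcon
      have h5 : Valued.v ((C.u : w.adicCompletion K) ^ 2 * x) ≤ Valued.v ((C.u : w.adicCompletion K) ^ 2) := by
        rw [map_mul]
        exact mul_le_of_le_one_right' hcon
      rw [h4] at h5
      exact absurd hX.1 (not_lt.2 h5)

theorem cw_ne_zero (hd : d ≠ 0) : cw d K w ≠ 0 := by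
  classical
  have hch := H19Z.compl_charZero K w
  obtain ⟨C, hC⟩ := Wm_eq d K w
  have hell := Ew_elliptic d K w hd
  unfold cw
  rw [hC]
  apply p3_le w (Ew d K w) C
  intro C0
  rw [Ew_eq]
  have h : (d : w.adicCompletion K) ≠ 0 := Int.cast_ne_zero.2 hd
  exact idx_big w (-(d : w.adicCompletion K) ^ 2) (neg_ne_zero.2 (pow_ne_zero 2 h)) C0

open Classical in
theorem cw_of_div (hd : d ≠ 0) (hdiv : ∀ P : (Ew d K w).toAffine.Point, ∃ Q, P = (3 : ℕ) • Q) :
    ¬ 3 ∣ cw d K w := by
  have hell := Ew_elliptic d K w hd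
  refine p3_index _ (cw_ne_zero d K w hd) ?_
  obtain ⟨C, hC⟩ := Wm_eq d K w
  rw [hC]
  obtain ⟨φ, hφ⟩ := H19Z.vc_iso (Ew d K w) C
  intro P
  obtain ⟨Q, hQ⟩ := hdiv (φ P)
  refine ⟨φ.symm Q, ?_⟩
  apply φ.injective
  rw [hQ, map_nsmul, AddEquiv.apply_symm_apply]

end H35Z
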