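import Mathlib
import Pool.Agent.Lib.H35Z.A1
import Pool.Agent.Lib.H35Z.A2
import Pool.Agent.Lib.H35Z.P1
import Pool.Agent.Lib.H35Z.P3

/-! Chunk P4 (S/M): Tamagawa numbers at the places above 2 (OddTwo) and at places not above 6 of norm 7 modulo 12 are prime to 3. cw_of_div and three_div for k = K_w (characteristic 0: H19Z.compl_charZero; Ew_eq).
Above 2: v(2) = exp(-e), e odd: nosq_two, cube_two' with B = -1 = 3 + 4 (-1), 27 = 3 + 4 * 6 (v(6) <= 1). Norm 7 mod 12: nosq_seven, cube_seven. The element d of K_w is nonzero (characteristic 0).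
Casts: QA k (-1) versus QA k ((-1 : ℤ) : k): push_cast / Int.cast_neg, Int.cast_one; state an auxiliary lemma with a variable B and hB : B = -1. -/

open NumberField IsDedekindDomain WeierstrassCurve

namespace H35Z

open H55B H35T H13E H35X

variable {K : Type} [Field K] [NumberField K]

/-- The two casts of B (auxiliary). -/
theorem p4_cast {k : Type} [Field k] (B C : k) (h : C = B)
    (hB : ∀ (m : QA k C) (n : k), m.norm = n ^ 3 → n ≠ 0 → ∃ β : QA k C, m = β ^ 3) :
    ∀ (m : QA k B) (n : k), m.norm = n ^ 3 → n ≠ 0 → ∃ β : QA k B, m = β ^ 3 := by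
  subst h
  exact hB

theorem p4_val_int {K : Type} [Field K] [NumberField K] (w : HeightOneSpectrum (𝓞 K)) (n : ℤ) :
    Valued.v (n : w.adicCompletion K) ≤ 1 := by
  have e : (n : w.adicCompletion K) = ((n : w.adicCompletionIntegers K) : w.adicCompletion K) := by
    push_cast
    rfl
  rw [e]
  exact (n : w.adicCompletionIntegers K).2

theorem cw_two (d : ℤ) (hd : d ≠ 0) (h2 : OddTwo K) (w : HeightOneSpectrum (𝓞 K))
    (hw : (2 : 𝓞 K) ∈ w.asIdeal) : ¬ 3 ∣ cw d K w := by
  classical
  have hch := H19Z.compl_charZero K w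
  obtain ⟨e, he, hv⟩ := h2 w hw
  have hv2 : Valued.v (2 : w.adicCompletion K) = WithZero.exp (-(e : ℤ)) := by
    rw [← map_ofNat (algebraMap K (w.adicCompletion K)) 2, H55C.valued_alg]
    exact hv
  have hd0 : (d : w.adicCompletion K) ≠ 0 := Int.cast_ne_zero.2 hd
  refine cw_of_div d K w hd ?_
  rw [Ew_eq]
  intro P
  refine three_div (d : w.adicCompletion K) hd0 ?_ ?_ ?_ P
  · intro x
    have h := nosq_two w e he hv2 (-1) (Or.inl rfl) x
    simpa using h
  · intro m n hm hn
    refine cube_two' w e he hv2 (-1) (-1) (by norm_num) ?_ m n hm hn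
    rw [Valuation.map_neg, Valuation.map_one]
  · intro m n hm hn
    refine cube_two' w e he hv2 27 6 (by norm_num) ?_ m n hm hn
    have h := p4_val_int w 6
    exact_mod_cast h

theorem cw_seven (d : ℤ) (hd : d ≠ 0) (w : HeightOneSpectrum (𝓞 K)) (h6 : (6 : 𝓞 K) ∉ w.asIdeal)
    (h7 : Ideal.absNorm w.asIdeal % 12 = 7) : ¬ 3 ∣ cw d K w := by
  classical
  have hch := H19Z.compl_charZero K w
  have hd0 : (d : w.adicCompletion K) ≠ 0 := Int.cast_ne_zero.2 hd
  refine cw_of_div d K w hd ?_
  rw [Ew_eq]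
  intro P
  refine three_div (d : w.adicCompletion K) hd0 ?_ ?_ ?_ P
  · intro x
    have h := nosq_seven w h6 h7 (-1) (Or.inl rfl) x
    simpa using h
  · refine p4_cast (-1) (((-1 : ℤ) : w.adicCompletion K)) (by push_cast; ring) ?_
    intro m n hm hn
    exact cube_seven w h6 h7 (-1) (Or.inl rfl) m n hm hn
  · refine p4_cast 27 (((27 : ℤ) : w.adicCompletion K)) (by norm_num) ?_
    intro m n hm hn
    exact cube_seven w h6 h7 27 (Or.inr rfl) m n hm hn

end H35Z
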