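import Mathlib
import Pool.Agent.Lib.H35Z.P3

/-! Chunk P5 (M): places with v(2) = 1 where the equation y^2 = x^3 - d^2 is already minimal (v(Δ) > exp(-12)). min_u: Wm = C • Ew, v(u) = 1: disc_factor in H19Z/L7.lean shows the method: minimality gives v(Wm.Δ) >= v(Ew.Δ),
Wm.Δ = u^(-12) Ew.Δ, v(Wm.Δ) <= 1 (integral), so v(u^(-1))^12 >= 1 and v(u^(-1))^12 v(Ew.Δ) <= 1, v(u^(-1)) = exp(n), n >= 0, 12 n - 11 <= 0 (v(Δ) = exp(-m), m <= 11), so n = 0. min_factor: then v(Wm.Δ/Ew.Δ) = 1, so its norm is 1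
(zl7_norm with n = 0) and 1^(1/12) = 1. min_rst: from ZL1_D (H19Z.ZL1_rel C : ZL1_D (C • W) W u r s t) with W = (0,0,0,0,-d^2): u a1' = 2 s, so v(s) <= 1; u^3 a3' = 2 t, v(t) <= 1; u^6 a6' = -d^2 + r^3 - t^2, so v(r^3) <= 1, v(r) <= 1.
cw_min: φ = vc_iso, X = u^2 x + r, Y = u^3 y + u^2 s x + t. φ maps NonsRed w Wm onto NonsRed w Ew: v(x) > 1 iff v(X) > 1; if v(x) <= 1 (then v(y) <= 1, v(X), v(Y) <= 1, Y^2 + ... integrality from the equation):
2 y + a1' x + a3' = u^(-3) (2 Y) and 3 x^2 + 2 a2' x + a4' - a1' y = u^(-4) (3 X^2 - 2 s Y) (compute from the coefficients; same identities for all x), so the condition (1 <= v(3 x^2 + ...) or 1 <= v(2 y + ...)) is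
(1 <= v(3 X^2 - 2 s Y) or 1 <= v(2 Y)), equivalent to (1 <= v(3 X^2) or 1 <= v(2 Y)) since v(2 s Y) <= v(2 Y). The index of the closure is preserved by the equivalence φ. -/

open NumberField IsDedekindDomain WeierstrassCurve

namespace H35Z

open H55B H35T H13E H35X

variable (d : ℤ) (K : Type) [Field K] [NumberField K] (w : HeightOneSpectrum (𝓞 K))

theorem p5_gen (hd : d ≠ 0) (hΔ : WithZero.exp (-12 : ℤ) < Valued.v (Ew d K w).Δ)
    (C : VariableChange (w.adicCompletion K)) (hC : Wm d K w = C • Ew d K w) :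
    Valued.v ((C.u⁻¹ : (w.adicCompletion K)ˣ) : w.adicCompletion K) = 1 := by
  have hmin : WeierstrassCurve.IsMinimal (w.adicCompletionIntegers K) (Wm d K w) := by
    unfold Wm
    infer_instance
  have hint : WeierstrassCurve.IsIntegral (w.adicCompletionIntegers K) (Wm d K w) :=
    Wm_integral d K w
  have hW := Ew_integral d K w
  have hne := Ew_Δ_ne d K w hd
  obtain ⟨W, hW0⟩ : ∃ W, W = Ew d K w := ⟨_, rfl⟩
  obtain ⟨W', hW'⟩ : ∃ W', W' = Wm d K w := ⟨_, rfl⟩
  rw [← hW'] at hC hmin hint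
  rw [← hW0] at hC hW hne hΔ
  have hCi : C⁻¹ • W' = W := by rw [hC, inv_smul_smul]
  have hmax := hmin.val_Δ_maximal
  have h1 : WeierstrassCurve.valuation_Δ_aux (w.adicCompletionIntegers K) (C⁻¹ • W') ≤
      WeierstrassCurve.valuation_Δ_aux (w.adicCompletionIntegers K)
        ((1 : WeierstrassCurve.VariableChange (w.adicCompletion K)) • W') := by
    rcases le_total (WeierstrassCurve.valuation_Δ_aux (w.adicCompletionIntegers K)
      ((1 : WeierstrassCurve.VariableChange (w.adicCompletion K)) • W'))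
      (WeierstrassCurve.valuation_Δ_aux (w.adicCompletionIntegers K) (C⁻¹ • W')) with h | h
    · exact hmax.2 (by show WeierstrassCurve.IsIntegral _ (C⁻¹ • W'); rw [hCi]; exact hW) h
    · exact h
  rw [hCi, one_smul] at h1
  have h2 : Valued.v W.Δ ≤ Valued.v W'.Δ := by
    have h3 := Subtype.coe_le_coe.2 h1
    rw [WeierstrassCurve.valuation_Δ_aux_eq_of_isIntegral,
      WeierstrassCurve.valuation_Δ_aux_eq_of_isIntegral, H19Z.zl7_val, H19Z.zl7_val] at h3
    exact h3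
  have hΔ' : W'.Δ = ((C.u⁻¹ : (w.adicCompletion K)ˣ) : w.adicCompletion K) ^ 12 * W.Δ := by
    rw [hC, WeierstrassCurve.variableChange_Δ]
  obtain ⟨t, ht⟩ : ∃ t : w.adicCompletion K, t = ((C.u⁻¹ : (w.adicCompletion K)ˣ) : w.adicCompletion K) :=
    ⟨_, rfl⟩
  have ht0 : t ≠ 0 := by
    rw [ht]
    exact Units.ne_zero _
  rw [← ht] at hΔ' ⊢
  have hv0 : Valued.v W.Δ ≠ 0 := (Valuation.ne_zero_iff _).2 hne
  have hvt0 : Valued.v t ≠ 0 := (Valuation.ne_zero_iff _).2 ht0
  obtain ⟨n, hn⟩ : ∃ n : ℤ, Valued.v t = WithZero.exp n := ⟨_, (WithZero.exp_log hvt0).symm⟩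
  obtain ⟨m, hm⟩ : ∃ m : ℤ, Valued.v W.Δ = WithZero.exp m := ⟨_, (WithZero.exp_log hv0).symm⟩
  have h8 : Valued.v W'.Δ ≤ 1 := by
    obtain ⟨r, hr⟩ := WeierstrassCurve.Δ_integral_of_isIntegral (w.adicCompletionIntegers K) W'
    rw [← hr]
    exact r.2
  rw [hm, WithZero.exp_lt_exp] at hΔ
  rw [hΔ', map_mul, map_pow, hn, hm, ← WithZero.exp_nsmul, ← WithZero.exp_add] at h2 h8
  rw [WithZero.exp_le_exp] at h2
  rw [← WithZero.exp_zero, WithZero.exp_le_exp] at h8
  simp only [nsmul_eq_mul] at h2 h8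
  push_cast at h2 h8
  have hn0 : n = 0 := by omega
  rw [hn, hn0, WithZero.exp_zero]

theorem min_u (hd : d ≠ 0) (hΔ : WithZero.exp (-12 : ℤ) < Valued.v (Ew d K w).Δ)
    (C : VariableChange (w.adicCompletion K)) (hC : Wm d K w = C • Ew d K w) :
    Valued.v (C.u : w.adicCompletion K) = 1 := by
  have h := p5_gen d K w hd hΔ C hC
  rw [Units.val_inv_eq_inv_val, map_inv₀, inv_eq_one] at h
  exact h

theorem min_factor (hd : d ≠ 0) (hΔ : WithZero.exp (-12 : ℤ) < Valued.v (Ew d K w).Δ) :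
    ‖(Wm d K w).Δ / (Ew d K w).Δ‖ ^ (1 / 12 : ℝ) = 1 := by
  obtain ⟨C, hC⟩ := Wm_eq d K w
  have h1 := p5_gen d K w hd hΔ C hC
  have hne := Ew_Δ_ne d K w hd
  have e : (Wm d K w).Δ / (Ew d K w).Δ =
      ((C.u⁻¹ : (w.adicCompletion K)ˣ) : w.adicCompletion K) ^ 12 := by
    rw [hC, WeierstrassCurve.variableChange_Δ]
    exact mul_div_cancel_right₀ _ hne
  have h2 := H19Z.zl7_norm w ((C.u⁻¹ : (w.adicCompletion K)ˣ) : w.adicCompletion K) 0
    (by rw [h1]; simp)
  rw [e, norm_pow, h2, pow_zero, one_pow, Real.one_rpow]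

/-- The coefficients r, s, t of the change of variables are integral. -/
theorem p5_rst (hd : d ≠ 0) (h2 : Valued.v (2 : w.adicCompletion K) = 1)
    (hΔ : WithZero.exp (-12 : ℤ) < Valued.v (Ew d K w).Δ)
    (C : VariableChange (w.adicCompletion K)) (hC : Wm d K w = C • Ew d K w) :
    Valued.v C.r ≤ 1 ∧ Valued.v C.s ≤ 1 ∧ Valued.v C.t ≤ 1 := by
  have hu := min_u d K w hd hΔ C hC
  have hint : WeierstrassCurve.IsIntegral (w.adicCompletionIntegers K) (C • Ew d K w) := by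
    rw [← hC]
    exact Wm_integral d K w
  have D := H19Z.ZL1_rel (Ew d K w) C
  have i1 : Valued.v (C • Ew d K w).a₁ ≤ 1 := by
    rw [← WeierstrassCurve.integralModel_a₁_eq (w.adicCompletionIntegers K) (C • Ew d K w)]
    exact (WeierstrassCurve.integralModel (w.adicCompletionIntegers K) (C • Ew d K w)).a₁.2
  have i3 : Valued.v (C • Ew d K w).a₃ ≤ 1 := by
    rw [← WeierstrassCurve.integralModel_a₃_eq (w.adicCompletionIntegers K) (C • Ew d K w)]
    exact (WeierstrassCurve.integralModel (w.adicCompletionIntegers K) (C • Ew d K w)).a₃.2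
  have i6 : Valued.v (C • Ew d K w).a₆ ≤ 1 := by
    rw [← WeierstrassCurve.integralModel_a₆_eq (w.adicCompletionIntegers K) (C • Ew d K w)]
    exact (WeierstrassCurve.integralModel (w.adicCompletionIntegers K) (C • Ew d K w)).a₆.2
  have hdi : Valued.v (d : w.adicCompletion K) ≤ 1 :=
    ((d : w.adicCompletionIntegers K)).2
  obtain ⟨A1, hA1⟩ : ∃ A, A = (C • Ew d K w).a₁ := ⟨_, rfl⟩
  obtain ⟨A3, hA3⟩ : ∃ A, A = (C • Ew d K w).a₃ := ⟨_, rfl⟩
  obtain ⟨A6, hA6⟩ : ∃ A, A = (C • Ew d K w).a₆ := ⟨_, rfl⟩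
  have D1 := D.h1
  have D3 := D.h3
  have D6 := D.h6
  rw [← hA1, Ew_eq] at D1
  rw [← hA3, Ew_eq] at D3
  rw [← hA6, Ew_eq] at D6
  rw [← hA1] at i1
  rw [← hA3] at i3
  rw [← hA6] at i6
  simp only at D1 D3 D6
  have hs : Valued.v C.s ≤ 1 := by
    have h := congrArg Valued.v D1
    rw [zero_add, map_mul, map_mul, hu, h2, one_mul, one_mul] at h
    rw [← h]
    exact i1
  have ht : Valued.v C.t ≤ 1 := by
    have D3' : (C.u : w.adicCompletion K) ^ 3 * A3 = 2 * C.t := by linear_combination D3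
    have h := congrArg Valued.v D3'
    rw [map_mul, map_mul, map_pow, hu, h2, one_pow, one_mul, one_mul] at h
    rw [← h]
    exact i3
  have hr : Valued.v C.r ≤ 1 := by
    have D6' : C.r ^ 3 = (C.u : w.adicCompletion K) ^ 6 * A6 + ((d : w.adicCompletion K) ^ 2 + C.t ^ 2) := by
      linear_combination -D6
    have h : Valued.v (C.r ^ 3) ≤ 1 := by
      rw [D6']
      refine Valued.v.map_add_le ?_ (Valued.v.map_add_le ?_ ?_)
      · rw [map_mul, map_pow, hu, one_pow, one_mul]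
        exact i6
      · rw [map_pow]
        exact pow_le_one₀ zero_le hdi
      · rw [map_pow]
        exact pow_le_one₀ zero_le ht
    rw [map_pow] at h
    exact (pow_le_one_iff_of_nonneg zero_le (by norm_num)).1 h
  exact ⟨hr, hs, ht⟩

/-- The condition of nonsingular reduction at corresponding points. -/
theorem p5_cond (hd : d ≠ 0) (h2 : Valued.v (2 : w.adicCompletion K) = 1)
    (hΔ : WithZero.exp (-12 : ℤ) < Valued.v (Ew d K w).Δ)
    (C : VariableChange (w.adicCompletion K)) (hC : Wm d K w = C • Ew d K w)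
    (x y X Y : w.adicCompletion K) (hX : X = (C.u : w.adicCompletion K) ^ 2 * x + C.r)
    (hY : Y = (C.u : w.adicCompletion K) ^ 3 * y + (C.u : w.adicCompletion K) ^ 2 * C.s * x + C.t)
    (hE : (Ew d K w).toAffine.Equation X Y) :
    (1 < Valued.v x ∨ 1 ≤ Valued.v (3 * x ^ 2 + 2 * (C • Ew d K w).a₂ * x + (C • Ew d K w).a₄ -
        (C • Ew d K w).a₁ * y) ∨
        1 ≤ Valued.v (2 * y + (C • Ew d K w).a₁ * x + (C • Ew d K w).a₃)) ↔
    (1 < Valued.v X ∨ 1 ≤ Valued.v (3 * X ^ 2 + 2 * (Ew d K w).a₂ * X + (Ew d K w).a₄ -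
        (Ew d K w).a₁ * Y) ∨
        1 ≤ Valued.v (2 * Y + (Ew d K w).a₁ * X + (Ew d K w).a₃)) := by
  have hu := min_u d K w hd hΔ C hC
  obtain ⟨hr, hs, ht⟩ := p5_rst d K w hd h2 hΔ C hC
  have D := H19Z.ZL1_rel (Ew d K w) C
  have hdi : Valued.v (d : w.adicCompletion K) ≤ 1 :=
    ((d : w.adicCompletionIntegers K)).2
  obtain ⟨A1, hA1⟩ : ∃ A, A = (C • Ew d K w).a₁ := ⟨_, rfl⟩
  obtain ⟨A2, hA2⟩ : ∃ A, A = (C • Ew d K w).a₂ := ⟨_, rfl⟩
  obtain ⟨A3, hA3⟩ : ∃ A, A = (C • Ew d K w).a₃ := ⟨_, rfl⟩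
  obtain ⟨A4, hA4⟩ : ∃ A, A = (C • Ew d K w).a₄ := ⟨_, rfl⟩
  have D1 := D.h1
  have D2 := D.h2
  have D3 := D.h3
  have D4 := D.h4
  rw [← hA1] at D1
  rw [← hA2] at D2
  rw [← hA3] at D3
  rw [← hA4] at D4
  rw [← hA1, ← hA2, ← hA3, ← hA4]
  rw [Ew_eq] at hE D1 D2 D3 D4 ⊢
  rw [Affine.equation_iff] at hE
  simp only at hE D1 D2 D3 D4 ⊢
  obtain ⟨u, hu'⟩ : ∃ u : w.adicCompletion K, u = C.u := ⟨_, rfl⟩
  rw [← hu'] at hX hY hu D1 D2 D3 D4
  have e1 : u ^ 3 * (2 * y + A1 * x + A3) = 2 * Y := by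
    rw [hY]
    linear_combination u ^ 2 * x * D1 + D3
  have e2 : u ^ 4 * (3 * x ^ 2 + 2 * A2 * x + A4 - A1 * y) = 3 * X ^ 2 - 2 * C.s * Y := by
    rw [hX, hY]
    linear_combination 2 * x * u ^ 2 * D2 + D4 - u ^ 3 * y * D1
  have v1 : Valued.v (2 * y + A1 * x + A3) = Valued.v (2 * Y) := by
    have h := congrArg Valued.v e1
    rw [map_mul, map_pow, hu, one_pow, one_mul] at h
    exact h
  have v2 : Valued.v (3 * x ^ 2 + 2 * A2 * x + A4 - A1 * y) =
      Valued.v (3 * X ^ 2 - 2 * C.s * Y) := by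
    have h := congrArg Valued.v e2
    rw [map_mul, map_pow, hu, one_pow, one_mul] at h
    exact h
  rw [v1, v2]
  have e3 : 3 * X ^ 2 + 2 * 0 * X + 0 - 0 * Y = 3 * X ^ 2 := by ring
  have e4 : 2 * Y + 0 * X + 0 = 2 * Y := by ring
  rw [e3, e4]
  have hxX : 1 < Valued.v x ↔ 1 < Valued.v X := by
    constructor
    · intro h
      have h5 : Valued.v (u ^ 2 * x) = Valued.v x := by
        rw [map_mul, map_pow, hu, one_pow, one_mul]
      rw [hX, Valuation.map_add_eq_of_lt_left _ (by rw [h5]; exact lt_of_le_of_lt hr h), h5]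
      exact h
    · intro h
      by_contra hx
      push Not at hx
      apply absurd h
      rw [not_lt, hX]
      refine Valued.v.map_add_le ?_ hr
      rw [map_mul, map_pow, hu, one_pow, one_mul]
      exact hx
  rw [hxX]
  refine or_congr Iff.rfl ?_
  by_cases hY2 : 1 ≤ Valued.v (2 * Y)
  · exact ⟨fun _ => Or.inr hY2, fun _ => Or.inr hY2⟩
  · push Not at hY2
    have h6 : Valued.v (2 * C.s * Y) < 1 := by
      have e : 2 * C.s * Y = C.s * (2 * Y) := by ring
      rw [e, map_mul]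
      exact lt_of_le_of_lt (mul_le_of_le_one_left' hs) hY2
    constructor
    · rintro (h | h)
      · left
        by_contra hlt
        push Not at hlt
        have h7 : Valued.v (3 * X ^ 2 - 2 * C.s * Y) < 1 := Valued.v.map_sub_lt hlt h6
        exact absurd h (not_le.2 h7)
      · exact absurd h (not_le.2 hY2)
    · rintro (h | h)
      · left
        by_contra hlt
        push Not at hlt
        have h7 : Valued.v (3 * X ^ 2 - 2 * C.s * Y + 2 * C.s * Y) < 1 := Valued.v.map_add_lt hlt h6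
        rw [sub_add_cancel] at h7
        exact absurd h (not_le.2 h7)
      · exact absurd h (not_le.2 hY2)

open Classical in
theorem cw_min (hd : d ≠ 0) (h2 : Valued.v (2 : w.adicCompletion K) = 1)
    (hΔ : WithZero.exp (-12 : ℤ) < Valued.v (Ew d K w).Δ) :
    cw d K w = (AddSubgroup.closure (H19Z.NonsRed w (Ew d K w))).index := by
  have hell := Ew_elliptic d K w hd
  obtain ⟨C, hC⟩ := Wm_eq d K w
  obtain ⟨φ, hφ⟩ := H19Z.vc_iso (Ew d K w) C
  have hcond := p5_cond d K w hd h2 hΔ C hC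
  have himg : (φ : (C • Ew d K w).toAffine.Point →+ (Ew d K w).toAffine.Point) ''
      H19Z.NonsRed w (C • Ew d K w) = H19Z.NonsRed w (Ew d K w) := by
    ext P
    constructor
    · rintro ⟨Q, hQ, rfl⟩
      rcases hQ with rfl | ⟨x, y, h, rfl, hc⟩
      · left
        exact map_zero φ
      · right
        obtain ⟨h', e⟩ := hφ x y h
        refine ⟨_, _, h', e, ?_⟩
        exact (hcond x y _ _ rfl rfl h'.1).1 hc
    · intro hP
      obtain ⟨Q, rfl⟩ := φ.surjective P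
      refine ⟨Q, ?_, rfl⟩
      rcases hP with h0 | ⟨X, Y, h, e, hc⟩
      · left
        exact (EmbeddingLike.map_eq_zero_iff (f := φ)).1 h0
      · right
        rcases Q with _ | ⟨x, y, hxy⟩
        · exact absurd e.symm (by
            intro h9
            rw [show (Affine.Point.zero : (C • Ew d K w).toAffine.Point) = 0 from rfl, map_zero] at h9
            exact Affine.Point.some_ne_zero _ h9)
        · obtain ⟨h', e'⟩ := hφ x y hxy
          rw [e'] at e
          have hinj := Affine.Point.some.inj e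
          refine ⟨x, y, hxy, rfl, ?_⟩
          exact (hcond x y X Y hinj.1.symm hinj.2.symm h.1).2 hc
  have h5 := AddSubgroup.index_map_equiv (AddSubgroup.closure (H19Z.NonsRed w (C • Ew d K w))) φ
  have h6 : AddSubgroup.map (φ : (C • Ew d K w).toAffine.Point →+ (Ew d K w).toAffine.Point)
      (AddSubgroup.closure (H19Z.NonsRed w (C • Ew d K w))) =
      AddSubgroup.closure (H19Z.NonsRed w (Ew d K w)) := by
    rw [AddMonoidHom.map_closure, himg]
  rw [← h6, h5]
  unfold cw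
  rw [hC]

end H35Z
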