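import Mathlib
import Pool.Agent.Lib.H13E.T2
import Pool.Agent.Lib.H35Z.B0
import Pool.Agent.Lib.H35Z.D4
import Pool.Agent.Lib.H35Z.P5

/-! Chunk P6 (M): places above 3. idx_three: d4_three gives δ in K_w with δ^3 = d; v(δ) = 1 (v(d) = 1 as 9 divides d - 1 or d + 1 and v(9) < 1). The change of variables x = δ^2 X, y = δ^3 Y maps y^2 = x^3 - 1 ... : if Y^2 = X^3 - 1
then y^2 = x^3 - d^2. H19Z.ZL1_iso for W₁ = (0,0,0,0,-1) (= E144.baseChange (K_w), H13E.q5_curve or the like), W₂ = Ew d K w = (0,0,0,0,-d^2), u = δ, r = s = t = 0. It maps H13E.E0 K w onto NonsRed w (Ew d K w): for a point (X, Y): 1 < v(x) iff 1 < v(X),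
and in that case v(Y)^2 = v(X)^3 > 1, v(2 Y) > 1 (v(2) = 1), so the condition 1 < v x is contained in the condition 1 <= v(2 y). tam_three_Z: copy of H35X.tam_three6 with three3 (B0) instead of H19Y.val_three; tam0_three_Z: copy of
H35X.tam0_three6. val0_three: copy of H13E.val0_three / H19Y.val0_three with Unr3: exp(-2) = (w'.valuation 3)^e, e >= 1, so e = 1 or 2. cw_three: v(Δ(Ew)) = v(432) = v(3)^3 = exp(-3) or exp(-6) (v(2) = 1 = v(d)), cw_min, idx_three. -/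

open NumberField IsDedekindDomain WeierstrassCurve

namespace H35Z

open H55B H35T H13E H35X

theorem p6_two {K : Type} [Field K] [NumberField K] (w : HeightOneSpectrum (𝓞 K)) (h3 : (3 : 𝓞 K) ∈ w.asIdeal) :
    Valued.v (2 : w.adicCompletion K) = 1 := by
  have h := T1_val3 K w h3
  have e : (2 : w.adicCompletion K) = -(1 - 3) := by norm_num
  rw [e, Valuation.map_neg]
  exact Valuation.map_one_sub_of_lt _ h

theorem p6_d {K : Type} [Field K] [NumberField K] (w : HeightOneSpectrum (𝓞 K)) (h3 : (3 : 𝓞 K) ∈ w.asIdeal)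
    (d : ℤ) (hd : (9 : ℤ) ∣ d - 1 ∨ (9 : ℤ) ∣ d + 1) : Valued.v (d : w.adicCompletion K) = 1 := by
  have h := T1_val3 K w h3
  have key : ∀ k : ℤ, Valued.v (9 * (k : w.adicCompletion K)) < 1 := by
    intro k
    have e : (9 * (k : w.adicCompletion K)) = 3 * (3 * (k : w.adicCompletion K)) := by ring
    rw [e, map_mul]
    refine lt_of_le_of_lt (mul_le_of_le_one_right zero_le ?_) h
    rw [map_mul]
    exact mul_le_one' h.le (d4_int w k)
  rcases hd with ⟨k, hk⟩ | ⟨k, hk⟩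
  · have e : (d : w.adicCompletion K) = 1 + 9 * (k : w.adicCompletion K) := by
      have e := congrArg (Int.cast (R := w.adicCompletion K)) hk
      push_cast at e
      linear_combination e
    rw [e]
    exact Valuation.map_one_add_of_lt _ (key k)
  · have e : (d : w.adicCompletion K) = -(1 - 9 * (k : w.adicCompletion K)) := by
      have e := congrArg (Int.cast (R := w.adicCompletion K)) hk
      push_cast at e
      linear_combination e
    rw [e, Valuation.map_neg]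
    exact Valuation.map_one_sub_of_lt _ (key k)

theorem p6_ne (d : ℤ) (hd : (9 : ℤ) ∣ d - 1 ∨ (9 : ℤ) ∣ d + 1) : d ≠ 0 := by
  rintro rfl
  rcases hd with ⟨k, hk⟩ | ⟨k, hk⟩ <;> omega

open Classical in
theorem idx_three {K : Type} [Field K] [NumberField K] (w : HeightOneSpectrum (𝓞 K)) (h3 : (3 : 𝓞 K) ∈ w.asIdeal)
    (d : ℤ) (hd : (9 : ℤ) ∣ d - 1 ∨ (9 : ℤ) ∣ d + 1) :
    (AddSubgroup.closure (H19Z.NonsRed w (Ew d K w))).index = H13E.tam K w := by
  obtain ⟨δ, hδ⟩ := d4_three w h3 d hd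
  have hvd := p6_d w h3 d hd
  have hd0 := p6_ne d hd
  have hv2 := p6_two w h3
  have hvδ : Valued.v δ = 1 := by
    have h1 : Valued.v δ ^ 3 = 1 := by rw [← map_pow, hδ, hvd]
    exact (pow_eq_one_iff_of_nonneg zero_le (by norm_num)).1 h1
  have hδ0 : δ ≠ 0 := by
    rintro rfl
    rw [map_zero] at hvδ
    exact zero_ne_one hvδ
  have hE0 : E144.IsElliptic := ⟨isUnit_iff_ne_zero.2 (by
    simp only [E144, WeierstrassCurve.Δ, WeierstrassCurve.b₂, WeierstrassCurve.b₄, WeierstrassCurve.b₆, WeierstrassCurve.b₈]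
    norm_num)⟩
  have hE1 : (E144.baseChange (w.adicCompletion K)).IsElliptic :=
    inferInstanceAs (E144.map (algebraMap ℚ (w.adicCompletion K))).IsElliptic
  have hE2 := Ew_elliptic d K w hd0
  obtain ⟨c1, c2, c3, c4, c6⟩ := W10_coeffs (w.adicCompletion K)
  have D : H19Z.ZL1_D (E144.baseChange (w.adicCompletion K)) (Ew d K w) δ 0 0 0 := by
    refine ⟨hδ0, ?_, ?_, ?_, ?_, ?_⟩
    · rw [c1, Ew_eq]; simp
    · rw [c2, Ew_eq]; simp
    · rw [c3, Ew_eq]; simp
    · rw [c4, Ew_eq]; simp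
    · rw [c6, Ew_eq]
      simp only
      linear_combination -(δ ^ 3 + (d : w.adicCompletion K)) * hδ
  have himg : (fun P => H19Z.ZL1_iso D P) '' (H13E.E0 K w) = H19Z.NonsRed w (Ew d K w) := by
    have key : ∀ (x y : w.adicCompletion K), y ^ 2 = x ^ 3 - 1 →
        ((1 ≤ Valued.v (3 * x ^ 2) ∨ 1 ≤ Valued.v (2 * y)) ↔
        (1 < Valued.v (δ ^ 2 * x + 0) ∨ 1 ≤ Valued.v (3 * (δ ^ 2 * x + 0) ^ 2 + 2 * (Ew d K w).a₂ * (δ ^ 2 * x + 0) + (Ew d K w).a₄ -
          (Ew d K w).a₁ * (δ ^ 3 * y + δ ^ 2 * 0 * x + 0)) ∨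
          1 ≤ Valued.v (2 * (δ ^ 3 * y + δ ^ 2 * 0 * x + 0) + (Ew d K w).a₁ * (δ ^ 2 * x + 0) + (Ew d K w).a₃))) := by
      intro x y hxy
      have e1 : Valued.v (δ ^ 2 * x + 0) = Valued.v x := by
        rw [add_zero, map_mul, map_pow, hvδ, one_pow, one_mul]
      have e2 : Valued.v (3 * (δ ^ 2 * x + 0) ^ 2 + 2 * (Ew d K w).a₂ * (δ ^ 2 * x + 0) + (Ew d K w).a₄ -
          (Ew d K w).a₁ * (δ ^ 3 * y + δ ^ 2 * 0 * x + 0)) = Valued.v (3 * x ^ 2) := by
        have : (3 * (δ ^ 2 * x + 0) ^ 2 + 2 * (Ew d K w).a₂ * (δ ^ 2 * x + 0) + (Ew d K w).a₄ -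
          (Ew d K w).a₁ * (δ ^ 3 * y + δ ^ 2 * 0 * x + 0)) = δ ^ 4 * (3 * x ^ 2) := by
          rw [Ew_eq]
          ring
        rw [this, map_mul, map_pow, hvδ, one_pow, one_mul]
      have e3 : Valued.v (2 * (δ ^ 3 * y + δ ^ 2 * 0 * x + 0) + (Ew d K w).a₁ * (δ ^ 2 * x + 0) + (Ew d K w).a₃) =
          Valued.v (2 * y) := by
        have : (2 * (δ ^ 3 * y + δ ^ 2 * 0 * x + 0) + (Ew d K w).a₁ * (δ ^ 2 * x + 0) + (Ew d K w).a₃) = δ ^ 3 * (2 * y) := by
          rw [Ew_eq]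
          ring
        rw [this, map_mul, map_pow, hvδ, one_pow, one_mul]
      rw [e1, e2, e3]
      constructor
      · intro h
        exact Or.inr h
      · rintro (h | h)
        · right
          rw [map_mul, hv2, one_mul]
          by_contra hy
          push Not at hy
          have h4 : Valued.v (x ^ 3) ≤ 1 := by
            have : x ^ 3 = y ^ 2 + 1 := by linear_combination -hxy
            rw [this]
            refine (Valuation.map_add _ _ _).trans (max_le ?_ ?_)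
            · rw [map_pow]
              exact pow_le_one₀ zero_le hy.le
            · rw [map_one]
          rw [map_pow] at h4
          exact absurd h4 (not_le.2 (one_lt_pow₀ h (by norm_num)))
        · exact h
    ext Q
    constructor
    · rintro ⟨P, hP, rfl⟩
      rcases hP with rfl | ⟨x, y, h, rfl, hc⟩
      · left
        exact map_zero (H19Z.ZL1_iso D)
      · right
        exact ⟨_, _, (H19Z.ZL1_ns D x y).1 h, rfl, (key x y (W10_eqn _ x y h)).1 hc⟩
    · intro hQ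
      obtain ⟨P, rfl⟩ := (H19Z.ZL1_iso D).surjective Q
      refine ⟨P, ?_, rfl⟩
      rcases P with _ | ⟨x, y, h⟩
      · left
        rfl
      · right
        refine ⟨x, y, h, rfl, (key x y (W10_eqn _ x y h)).2 ?_⟩
        rcases hQ with h0 | ⟨x', y', h', e, hc⟩
        · exact absurd h0 (Affine.Point.some_ne_zero _)
        · have e' : Affine.Point.some (δ ^ 2 * x + 0) (δ ^ 3 * y + δ ^ 2 * 0 * x + 0) ((H19Z.ZL1_ns D x y).1 h) =
            Affine.Point.some x' y' h' := e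
          have e2 := Affine.Point.some.inj e'
          rw [← e2.1, ← e2.2] at hc
          exact hc
  have h1 : AddSubgroup.closure (H19Z.NonsRed w (Ew d K w)) =
      (AddSubgroup.closure (H13E.E0 K w)).map (H19Z.ZL1_iso D).toAddMonoidHom := by
    rw [AddMonoidHom.map_closure, ← himg]
    rfl
  rw [h1, H13E.tam]
  exact AddSubgroup.index_map_equiv _ (H19Z.ZL1_iso D)

theorem tam_three_Z (K : Type) [Field K] [NumberField K] [Algebra F K] (hU : H35N.Unr3 K)
    (w : HeightOneSpectrum (𝓞 K)) (h : (3 : 𝓞 K) ∈ w.asIdeal) : ¬ 3 ∣ H35T.tam K w := by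
  classical
  obtain ⟨T, h3, hT⟩ := cosets K w (three3 hU w h)
  unfold H35T.tam
  refine H35T.W12_index _ T h3 fun P => ?_
  rcases hT P with h1 | ⟨j, h1⟩
  · exact Or.inl (AddSubgroup.subset_closure h1)
  · exact Or.inr ⟨j, AddSubgroup.subset_closure h1⟩

theorem tam0_three_Z {K₀ : Type} [Field K₀] [NumberField K₀] (K : Type) [Field K] [NumberField K]
    [Algebra F K] [Algebra K₀ K] (hU : H35N.Unr3 K) (w' : HeightOneSpectrum (𝓞 K₀))
    (h : (3 : 𝓞 K₀) ∈ w'.asIdeal) : ¬ 3 ∣ H13E.tam K₀ w' := by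
  classical
  obtain ⟨Q, hQ, hQl⟩ := Ideal.exists_maximal_ideal_liesOver_of_isIntegral (S := 𝓞 K) w'.asIdeal
  have hunder : w'.asIdeal = Q.under (𝓞 K₀) := hQl.over
  have hQ0 : Q ≠ ⊥ := by
    rintro rfl
    apply w'.ne_bot
    rw [hunder]
    exact Ideal.under_bot (𝓞 K₀) (𝓞 K)
  obtain ⟨w, hw⟩ : ∃ w : HeightOneSpectrum (𝓞 K), w.asIdeal = Q := ⟨⟨Q, hQ.isPrime, hQ0⟩, rfl⟩
  rw [← hw] at hunder
  have h3w : (3 : 𝓞 K) ∈ w.asIdeal := by
    have h1 : (3 : 𝓞 K₀) ∈ w.asIdeal.under (𝓞 K₀) := hunder ▸ h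
    rw [Ideal.mem_under] at h1
    rwa [map_ofNat] at h1
  obtain ⟨ι, e, he, -, hv⟩ := H55C.exists_iota K₀ K w w' hunder
  intro hd
  apply tam_three_Z K hU w h3w
  exact hd.trans (T2_index (Valued.v (R := w'.adicCompletion K₀)) (Valued.v (R := w.adicCompletion K))
    (T1_val3 K₀ w' h) (T1_val3 K w h3w) ι e he hv)

theorem val0_three_Z {K₀ : Type} [Field K₀] [NumberField K₀] (K : Type) [Field K] [NumberField K]
    [Algebra F K] [Algebra K₀ K] (hU : H35N.Unr3 K) (w' : HeightOneSpectrum (𝓞 K₀))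
    (h3 : (3 : 𝓞 K₀) ∈ w'.asIdeal) : w'.valuation K₀ (3 : K₀) = WithZero.exp (-1 : ℤ) ∨
      w'.valuation K₀ (3 : K₀) = WithZero.exp (-2 : ℤ) := by
  obtain ⟨w, e, hw, he, hv⟩ := H13E.q5_above K w'
  have h1 := three3 hU w ((H13E.q5_mem w' w hw 3).1 h3)
  have h4 := hv 3
  rw [map_ofNat, h1] at h4
  obtain ⟨k, hk, hk2⟩ := H13E.q5_val w' three_ne_zero h4
  have h5 : (e : ℤ) ∣ 2 := ⟨-k, by linear_combination -hk2⟩
  have h6 := Int.le_of_dvd two_pos h5
  have h7 : (e : ℤ) = 1 ∨ (e : ℤ) = 2 := by omega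
  rcases h7 with h7 | h7 <;> rw [h7] at hk2
  · right
    rw [hk]
    congr 1
    omega
  · left
    rw [hk]
    congr 1
    omega

/-- K₀ need not contain F; K contains F and is unramified over F above 3. -/
theorem cw_three {K₀ : Type} [Field K₀] [NumberField K₀] (K : Type) [Field K] [NumberField K]
    [Algebra F K] [Algebra K₀ K] (hU : H35N.Unr3 K) (w' : HeightOneSpectrum (𝓞 K₀))
    (h3 : (3 : 𝓞 K₀) ∈ w'.asIdeal) (d : ℤ) (hd : (9 : ℤ) ∣ d - 1 ∨ (9 : ℤ) ∣ d + 1) :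
    ¬ 3 ∣ cw d K₀ w' ∧ ‖(Wm d K₀ w').Δ / (Ew d K₀ w').Δ‖ ^ (1 / 12 : ℝ) = 1 := by
  have hd0 := p6_ne d hd
  have hv2 := p6_two w' h3
  have hvd := p6_d w' h3 d hd
  have hΔ : WithZero.exp (-12 : ℤ) < Valued.v (Ew d K₀ w').Δ := by
    have e : (Ew d K₀ w').Δ = -(2 ^ 4 * 3 ^ 3 * (d : w'.adicCompletion K₀) ^ 4) := by
      rw [Ew_Δ]
      norm_num
    rw [e, Valuation.map_neg, map_mul, map_mul, map_pow, map_pow, map_pow, hv2, hvd, one_pow, one_mul, mul_one, W10_val K₀ w' 3]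
    rcases val0_three_Z K hU w' h3 with h | h
    · rw [h, ← WithZero.exp_nsmul, WithZero.exp_lt_exp]
      norm_num
    · rw [h, ← WithZero.exp_nsmul, WithZero.exp_lt_exp]
      norm_num
  refine ⟨?_, min_factor d K₀ w' hd0 hΔ⟩
  rw [cw_min d K₀ w' hd0 hv2 hΔ, idx_three w' h3 d hd]
  exact tam0_three_Z K hU w' h3

end H35Z
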