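import Mathlib
import Pool.Agent.Lib.H35T.I4
import Pool.Agent.Lib.H35Z.P4
import Pool.Agent.Lib.H35Z.P6

/-! Chunk P7 (M): the product of the local terms is a unit above 3. Copy of H19Z/L8.lean (local_odd, CEK_unit). local_cop: by H19Z.disc_factor the discriminant factor is (absNorm w)^n, absNorm w is prime to 3 if w does not contain 3 (it is a
power of the residue characteristic; if 3 divides Nat.card (𝓞 K/w) then 3 in w; compare H19Z norm_odd or H13E.q2_norm3). Cases: 3 in w: cw_three; 2 in w: cw_two; w not above 6, d in w: AdmAt: N(w) = 7 mod 12: cw_seven; w not above 6, d not in w: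
v(Δ) = v(432 d^4) = 1: disc_factor: n = 0 and v(Wm.Δ) = 1, H19Z.nonsRed_of_unit: NonsRed = everything, closure = top, index 1, so cw = 1. CEK_unit: finprod_induction for the complex numbers (cast of the real finprod: map_finprod needs finite
support, see H19Z.CEK_unit: the property that the real number is a natural number prime to 3 is preserved by products: finprod_induction with p x := ∃ m : ℕ, ¬ 3 ∣ m ∧ x = m). -/

open NumberField IsDedekindDomain WeierstrassCurve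

namespace H35Z

open H55B H35T H13E H35X

/-- a prime not above 3 has norm prime to 3 -/
theorem p7_norm {K₀ : Type} [Field K₀] [NumberField K₀] (w : HeightOneSpectrum (𝓞 K₀))
    (h3 : (3 : 𝓞 K₀) ∉ w.asIdeal) : ¬ 3 ∣ Ideal.absNorm w.asIdeal := by
  have hfin : Finite (𝓞 K₀ ⧸ w.asIdeal) := inferInstance
  exact q2_norm3 w h3

theorem p7_cop {K₀ : Type} [Field K₀] [NumberField K₀] (w : HeightOneSpectrum (𝓞 K₀))
    (h3 : (3 : 𝓞 K₀) ∉ w.asIdeal) (c n : ℕ) (hc : ¬ 3 ∣ c) :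
    ¬ 3 ∣ c * Ideal.absNorm w.asIdeal ^ n := by
  intro h
  rcases (Nat.Prime.dvd_mul Nat.prime_three).1 h with h1 | h1
  · exact hc h1
  · exact p7_norm w h3 (Nat.prime_three.dvd_of_dvd_pow h1)

theorem local_cop {K₀ : Type} [Field K₀] [NumberField K₀] (K : Type) [Field K] [NumberField K]
    [Algebra F K] [Algebra K₀ K] (hU : H35N.Unr3 K) (h2 : OddTwo K₀) (d : ℤ) (hd : AdmAt d K₀)
    (w : HeightOneSpectrum (𝓞 K₀)) :
    ∃ m : ℕ, ¬ 3 ∣ m ∧ (cw d K₀ w : ℝ) * ‖(Wm d K₀ w).Δ / (Ew d K₀ w).Δ‖ ^ (1 / 12 : ℝ) = m := by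
  classical
  have hd0 : d ≠ 0 := by
    rintro rfl
    rcases hd.1 with h | h <;> omega
  have hch := H19Z.compl_charZero K₀ w
  by_cases h3 : (3 : 𝓞 K₀) ∈ w.asIdeal
  · obtain ⟨h4, h5⟩ := cw_three K hU w h3 d hd.1
    exact ⟨cw d K₀ w, h4, by rw [h5, mul_one]⟩
  obtain ⟨n, hn, hn1⟩ := H19Z.disc_factor w (Ew d K₀ w) (Ew_integral d K₀ w) (Ew_Δ_ne d K₀ w hd0)
  have hgen : ¬ 3 ∣ cw d K₀ w →
      ∃ m : ℕ, ¬ 3 ∣ m ∧ (cw d K₀ w : ℝ) * ‖(Wm d K₀ w).Δ / (Ew d K₀ w).Δ‖ ^ (1 / 12 : ℝ) = m := by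
    intro hc
    refine ⟨cw d K₀ w * Ideal.absNorm w.asIdeal ^ n, p7_cop w h3 _ n hc, ?_⟩
    rw [Nat.cast_mul, Nat.cast_pow]
    congr 1
  by_cases hw2 : (2 : 𝓞 K₀) ∈ w.asIdeal
  · exact hgen (cw_two d hd0 h2 w hw2)
  have h6 : (6 : 𝓞 K₀) ∉ w.asIdeal := by
    intro h6
    rw [show (6 : 𝓞 K₀) = 2 * 3 by norm_num] at h6
    rcases w.isPrime.mem_or_mem h6 with h | h
    · exact hw2 h
    · exact h3 h
  by_cases hdw : (d : 𝓞 K₀) ∈ w.asIdeal
  · exact hgen (cw_seven d hd0 w h6 (hd.2.2 w hdw hw2).2)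
  have hint : algebraMap K₀ (w.adicCompletion K₀) ((d : 𝓞 K₀) : K₀) = (d : w.adicCompletion K₀) := by
    have e1 : ((d : 𝓞 K₀) : K₀) = (d : K₀) := map_intCast (algebraMap (𝓞 K₀) K₀) d
    rw [e1, map_intCast]
  have h30 : algebraMap K₀ (w.adicCompletion K₀) ((3 : 𝓞 K₀) : K₀) = (3 : w.adicCompletion K₀) := by
    have e1 : ((3 : 𝓞 K₀) : K₀) = (3 : K₀) := map_ofNat (algebraMap (𝓞 K₀) K₀) 3
    rw [e1, map_ofNat]
  have h20 : algebraMap K₀ (w.adicCompletion K₀) ((2 : 𝓞 K₀) : K₀) = (2 : w.adicCompletion K₀) := by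
    have e1 : ((2 : 𝓞 K₀) : K₀) = (2 : K₀) := map_ofNat (algebraMap (𝓞 K₀) K₀) 2
    rw [e1, map_ofNat]
  have hv3 : Valued.v (3 : w.adicCompletion K₀) = 1 := by
    rw [← h30, H55C.valued_alg]
    exact H55E.L5_val w 3 h3
  have hv2 : Valued.v (2 : w.adicCompletion K₀) = 1 := by
    rw [← h20, H55C.valued_alg]
    exact H55E.L5_val w 2 hw2
  have hvd : Valued.v (d : w.adicCompletion K₀) = 1 := by
    rw [← hint, H55C.valued_alg]
    exact H55E.L5_val w d hdw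
  have hΔ : Valued.v (Ew d K₀ w).Δ = 1 := by
    rw [Ew_Δ, Valuation.map_neg, map_mul, map_pow, hvd, one_pow, mul_one,
      show (432 : w.adicCompletion K₀) = 2 ^ 4 * 3 ^ 3 by norm_num, map_mul, map_pow, map_pow, hv2,
      hv3, one_pow, one_pow, one_mul]
  obtain ⟨hn0, hW⟩ := hn1 hΔ
  have hcw : cw d K₀ w = 1 := by
    unfold cw
    have huniv : H19Z.NonsRed w (Wm d K₀ w) = Set.univ :=
      Set.eq_univ_iff_forall.2 (H19Z.nonsRed_of_unit w _ (Wm_integral d K₀ w) hW)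
    rw [huniv, AddSubgroup.closure_univ, AddSubgroup.index_top]
  refine ⟨1, by norm_num, ?_⟩
  rw [hcw]
  have e : ‖(Wm d K₀ w).Δ / (Ew d K₀ w).Δ‖ ^ (1 / 12 : ℝ) = 1 := by
    refine hn.trans ?_
    rw [hn0, pow_zero]
  rw [e, Nat.cast_one, mul_one]

theorem CEK_unit {K₀ : Type} [Field K₀] [NumberField K₀] (K : Type) [Field K] [NumberField K]
    [Algebra F K] [Algebra K₀ K] (hU : H35N.Unr3 K) (h2 : OddTwo K₀) (d : ℤ) (hd : AdmAt d K₀) :
    Unit3 ((CEK d K₀ : ℝ) : ℂ) := by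
  have h : ∃ m : ℕ, ¬ 3 ∣ m ∧ CEK d K₀ = (m : ℝ) := by
    unfold CEK
    refine finprod_induction (fun x : ℝ => ∃ m : ℕ, ¬ 3 ∣ m ∧ x = (m : ℝ)) ⟨1, by norm_num, by simp⟩
      ?_ ?_
    · rintro x y ⟨m, hm, rfl⟩ ⟨m', hm', rfl⟩
      refine ⟨m * m', fun hmm => ?_, by push_cast; rfl⟩
      rcases (Nat.Prime.dvd_mul Nat.prime_three).1 hmm with h1 | h1
      · exact hm h1
      · exact hm' h1
    · intro w
      exact local_cop K hU h2 d hd w
  obtain ⟨m, hm, h⟩ := h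
  rw [h]
  have := Unit3.nat hm
  push_cast
  exact this

end H35Z
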