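import Mathlib
import Pool.Agent.Lib.H35Z.Defs

/-! Definitions for the analytic half. -/

open NumberField IsDedekindDomain

namespace H35Z

open H55B H35T H55N H19T H13E H35X

/-- The local Euler factor of E_d at w, with complex coefficients. -/
noncomputable def LEFd (d : ℤ) (K : Type) [Field K] [NumberField K] (w : HeightOneSpectrum (𝓞 K)) :
    ArithmeticFunction ℂ :=
  (((((Ec d).baseChange K).baseChange (w.adicCompletion K)).localEulerFactor
    (w.adicCompletionIntegers K) : ArithmeticFunction ℤ) : ArithmeticFunction ℂ)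

/-- χ is the cubic character of the rational integer d over K. -/
structure DChr (d : ℤ) (K : Type) [Field K] [NumberField K] [Algebra F K] (χ : Ideal (𝓞 K) →*₀ ℂ) :
    Prop where
  c : CChr3 (Ideal.span {(d : 𝓞 K)}) χ
  val : ∀ (w : HeightOneSpectrum (𝓞 K)) (v : HeightOneSpectrum O), v.asIdeal = w.asIdeal.under O →
    (3 : 𝓞 K) ∉ w.asIdeal → (d : 𝓞 K) ∉ w.asIdeal →
    χ w.asIdeal = e (sym3 v (d : O)) ^ w.asIdeal.inertiaDeg O

/-- The 3-part of the discriminant is 3^(r2). -/
def DiscOK (K : Type) [Field K] [NumberField K] : Prop :=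
  ∃ m : ℕ, ¬ 3 ∣ m ∧ (NumberField.discr K).natAbs = 3 ^ InfinitePlace.nrComplexPlaces K * m

theorem CChr3.norm_le {K : Type} [Field K] [NumberField K] {f : Ideal (𝓞 K)}
    {χ : Ideal (𝓞 K) →*₀ ℂ} (h : CChr3 f χ) (a : Ideal (𝓞 K)) : ‖χ a‖ ≤ 1 := by
  by_cases ha : a = ⊥
  · rw [ha]
    have h0 : χ ⊥ = 0 := χ.map_zero
    rw [h0, norm_zero]
    exact zero_le_one
  · by_cases hc : IsCoprime a f
    · have h1 := congrArg norm (h.val a ha hc)
      rw [norm_pow, NormOneClass.norm_one] at h1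
      exact ((pow_eq_one_iff_of_nonneg (norm_nonneg _) (by norm_num)).1 h1).le
    · rw [h.zero a hc, norm_zero]
      exact zero_le_one

/-- The square of a cubic character. -/
theorem CChr3.sq {K : Type} [Field K] [NumberField K] {f : Ideal (𝓞 K)}
    {χ : Ideal (𝓞 K) →*₀ ℂ} (h : CChr3 f χ) : CChr3 f (χ * χ) := by
  have e : ∀ a, (χ * χ : Ideal (𝓞 K) →*₀ ℂ) a = χ a * χ a := fun a => rfl
  refine ⟨h.ne, h.three, fun a ha hc => ?_, fun a hc => ?_, fun x y hx hy hc hxy => ?_⟩
  · rw [e, mul_pow, h.val a ha hc, one_mul]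
  · rw [e, h.zero a hc, zero_mul]
  · rw [e, e, h.per x y hx hy hc hxy]

end H35Z
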