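import Mathlib
import Pool.Agent.Lib.H35T.R5
import Pool.Agent.Lib.H35Z.V0
import Pool.Agent.Lib.H55N.H1
import Pool.Agent.Lib.H55N.H2

/-! Chunk V11 (M): the cubic character of a rational integer d = 1 or -1 modulo 9. jchar: R5.exists_char without the hypothesis that the primes dividing a are good, and with the value 0 at elements not coprime to a: copy the proof of exists_char
(R5.lean): χ x = jac3 l x, l from factor (a is primary: 3 | a - 1, and 3 divides 3 (om - 1)); Good is used there only to get 3 not in v. Zero: if x is not coprime to a then some v in l contains x (a prime element dividing both), sym3_zero, so the product is 0.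
chiO: let a = d if 9 | d - 1 and a = -d otherwise (9 | a - 1, so 3 (om - 1) | a - 1 because (om - 1)^2 divides 3). For an ideal J let g(J) be a generator (O is a principal ideal ring) and put χ'(J) = e(χ (g J)) for J nonzero, 0 for J = 0: independent of the
generator (χ(ε x) = χ x), multiplicative, χ' 1 = 1. The four properties: coprimality of J with (d) is coprimality of g(J) with a (ideals (a) = (d)); periodicity: x - y in (d) is a | x - y, so v contains x - y for all v containing a; at a prime v not above 3, d not in v: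
e(χ p) = e(sym3 v a) = e(sym3 v d) (sym3_neg). exists_DChr: χ = chiO composed with Ideal.relNorm O (as PsiT): ne: d nonzero; three: 9 | d - 1 or d + 1; val: a nonzero coprime to (d): relNorm O a is nonzero and coprime to (d): otherwise a prime v contains both, v contains
relNorm a, so some prime w above v contains a (relNorm is multiplicative, relNorm of a prime w is v'^f, v' = w ∩ O; induction on the factorization or Ideal lemmas; compare PsiT_ne in H19T/A1.lean), and d in w; zero: a not coprime to (d): w contains a and d,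
v = w ∩ O contains relNorm a and d (relNorm a ≤ relNorm w = v^f ≤ v); per: relNorm (x) = (intNorm x) (Ideal.relNorm_singleton), norm_congr (used in H35X/V2.lean: intNorm x - intNorm y in (d)); intNorm x is nonzero; coprimality as before.
val of DChr: relNorm w = v^f (as in the proof of PsiT_prime). -/

open NumberField IsDedekindDomain

namespace H35Z

open H55B H35T H55N H19T H13E H35X

theorem jchar {a : O} (ha : (3 * (om - 1) : O) ∣ a - 1) : ∃ χ : O → O, χ 1 = 1 ∧
    (∀ x y, χ (x * y) = χ x * χ y) ∧ (∀ (ε : Oˣ) (x : O), χ (ε * x) = χ x) ∧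
    (∀ x y, (∀ v : HeightOneSpectrum O, a ∈ v.asIdeal → x - y ∈ v.asIdeal) → χ x = χ y) ∧
    (∀ x, IsCoprime x a → χ x ^ 3 = 1) ∧ (∀ x, ¬ IsCoprime x a → χ x = 0) ∧
    ∀ (v : HeightOneSpectrum O) (p : O), (3 : O) ∉ v.asIdeal → a ∉ v.asIdeal →
      v.asIdeal = Ideal.span {p} → sym3 v a = χ p := by
  have haP : Prim a := (Dvd.intro _ rfl).trans ha
  obtain ⟨l, hl3, hla⟩ := factor a haP
  have hau : ∀ u ∈ l, a ∈ u.asIdeal := by
    intro u hu
    rw [hla]
    exact (gen_dvd_iff u (hl3 u hu) _).1 (Multiset.dvd_prod (Multiset.mem_map_of_mem _ hu))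
  have hom : jac3 l om = 1 := by
    obtain ⟨k, hk, m, hm⟩ := R5_om l hl3
    obtain ⟨j, hj⟩ := R5_norm9 ha
    rw [← hla, hj] at hm
    have h1 : k = 3 * (k / 3) := by omega
    rw [hk, h1, pow_mul, Z3_om_cube, one_pow]
  have hunit : ∀ (ε : Oˣ) (x : O), jac3 l (ε * x) = jac3 l x := by
    intro ε x
    rw [R5_mul hl3]
    have h1 : jac3 l (ε : O) = 1 := by
      rcases H55B.unit_cases ε with h | h | h | h | h | h <;> rw [h]
      · exact R5_one hl3
      · rw [R5_neg hl3]; exact R5_one hl3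
      · exact hom
      · rw [R5_neg hl3]; exact hom
      · rw [pow_two, R5_mul hl3, hom, one_mul]
      · rw [R5_neg hl3, pow_two, R5_mul hl3, hom, one_mul]
    rw [h1, one_mul]
  refine ⟨jac3 l, R5_one hl3, R5_mul hl3, hunit, ?_, ?_, ?_, ?_⟩
  · intro x y h
    unfold jac3
    congr 1
    apply Multiset.map_congr rfl
    intro u hu
    exact sym3_congr (hl3 u hu) (h u (hau u hu))
  · intro x hx
    apply R4_cube
    intro u hu
    apply sym3_cube (hl3 u hu)
    intro h
    obtain ⟨b, c, hbc⟩ := hx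
    apply u.isPrime.ne_top
    rw [Ideal.eq_top_iff_one, ← hbc]
    exact u.asIdeal.add_mem (u.asIdeal.mul_mem_left _ h) (u.asIdeal.mul_mem_left _ (hau u hu))
  · intro x hx
    have hex : ∃ z : O, Prime z ∧ z ∣ x ∧ z ∣ a := by
      by_contra hcon
      push Not at hcon
      apply hx
      apply isCoprime_of_prime_dvd
      · rintro ⟨-, h0⟩
        exact haP.ne_zero h0
      · intro z hz hzx
        exact hcon z hz hzx
    obtain ⟨z, hz, hzx, hza⟩ := hex
    rw [hla] at hza
    obtain ⟨u, hu, hzu⟩ := hz.exists_mem_multiset_map_dvd hza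
    have hass : Associated z (gen u) :=
      hz.associated_of_dvd (gen_prime u (hl3 u hu)) hzu
    have hux : x ∈ u.asIdeal := (gen_dvd_iff u (hl3 u hu) x).1 (hass.dvd_iff_dvd_left.1 hzx)
    unfold jac3
    apply Multiset.prod_eq_zero
    exact Multiset.mem_map.2 ⟨u, hu, sym3_zero hux⟩
  · intro v p h3 hav hvp
    have h1 : jac3 l (gen v) = sym3 v a := by
      rw [hla, R4_prod h3]
      unfold jac3
      congr 1
      apply Multiset.map_congr rfl
      intro u hu
      refine (recip_all u v (hl3 u hu) h3 ?_).symm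
      intro h
      rw [← h] at hav
      exact hav (hau u hu)
    have h2 : Associated (gen v) p := by
      rw [← Ideal.span_singleton_eq_span_singleton, ← (gen_spec v h3).1, hvp]
    obtain ⟨ε, hε⟩ := h2
    rw [← h1, ← hε, mul_comm, hunit]

open Classical in
/-- A character of elements invariant under units gives a character of ideals. -/
theorem v11_ideal (χ : O → O) (h1 : χ 1 = 1) (hm : ∀ x y, χ (x * y) = χ x * χ y)
    (hu : ∀ (ε : Oˣ) (x : O), χ (ε * x) = χ x) : ∃ ψ : Ideal O →*₀ ℂ,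
    ∀ x : O, x ≠ 0 → ψ (Ideal.span {x}) = e (χ x) := by
  have hg : ∀ J : Ideal O, ∃ x : O, J = Ideal.span {x} := fun J =>
    (IsPrincipalIdealRing.principal J).principal
  choose g hg using hg
  have hass : ∀ x y : O, Ideal.span {x} = Ideal.span {y} → χ x = χ y := by
    intro x y hxy
    obtain ⟨ε, hε⟩ := Ideal.span_singleton_eq_span_singleton.1 hxy
    rw [← hε, mul_comm, hu]
  refine ⟨⟨⟨fun J => if J = ⊥ then 0 else e (χ (g J)), ?_⟩, ?_, ?_⟩, ?_⟩
  · simp
  · have h2 : (1 : Ideal O) ≠ ⊥ := by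
      rw [Ideal.one_eq_top]
      exact top_ne_bot
    show (if (1 : Ideal O) = ⊥ then (0 : ℂ) else e (χ (g 1))) = 1
    rw [if_neg h2, hass (g 1) 1 (by rw [← hg, Ideal.one_eq_top, Ideal.span_singleton_one]), h1, map_one]
  · intro I J
    show (if I * J = ⊥ then (0 : ℂ) else e (χ (g (I * J)))) =
      (if I = ⊥ then (0 : ℂ) else e (χ (g I))) * (if J = ⊥ then (0 : ℂ) else e (χ (g J)))
    by_cases hI : I = ⊥
    · have h2 : I * J = ⊥ := by rw [hI]; exact Ideal.bot_mul J
      rw [if_pos h2, if_pos hI, zero_mul]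
    · by_cases hJ : J = ⊥
      · have h2 : I * J = ⊥ := by rw [hJ]; exact Ideal.mul_bot I
        rw [if_pos h2, if_pos hJ, mul_zero]
      · have h2 : I * J ≠ ⊥ := fun h => (Ideal.mul_eq_bot.1 h).elim hI hJ
        rw [if_neg h2, if_neg hI, if_neg hJ, ← map_mul, ← hm]
        congr 1
        apply hass
        rw [← Ideal.span_singleton_mul_span_singleton, ← hg, ← hg, ← hg]
  · intro x hx
    have h2 : Ideal.span {x} ≠ (⊥ : Ideal O) := fun h => hx (Ideal.span_singleton_eq_bot.1 h)
    show (if Ideal.span {x} = (⊥ : Ideal O) then (0 : ℂ) else e (χ (g (Ideal.span {x})))) = _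
    rw [if_neg h2, hass (g (Ideal.span {x})) x (hg _).symm]

theorem exists_chiO (d : ℤ) (hd : (9 : ℤ) ∣ d - 1 ∨ (9 : ℤ) ∣ d + 1) : ∃ χ : Ideal O →*₀ ℂ,
    (∀ J : Ideal O, J ≠ ⊥ → IsCoprime J (Ideal.span {(d : O)}) → χ J ^ 3 = 1) ∧
    (∀ J : Ideal O, ¬ IsCoprime J (Ideal.span {(d : O)}) → χ J = 0) ∧
    (∀ x y : O, x ≠ 0 → y ≠ 0 → x - y ∈ Ideal.span {(d : O)} →
      χ (Ideal.span {x}) = χ (Ideal.span {y})) ∧
    ∀ v : HeightOneSpectrum O, (3 : O) ∉ v.asIdeal → (d : O) ∉ v.asIdeal →
      χ v.asIdeal = e (sym3 v (d : O)) := by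
  obtain ⟨a, hda, ha⟩ : ∃ a : O, (a = (d : O) ∨ a = -(d : O)) ∧ (3 * (om - 1) : O) ∣ a - 1 := by
    have h3 : (3 * (om - 1) : O) ∣ 9 := by
      refine ⟨-(om ^ 2 * (om - 1)), ?_⟩
      have h := three_eq
      linear_combination 3 * h
    rcases hd with ⟨c, hc⟩ | ⟨c, hc⟩
    · refine ⟨d, Or.inl rfl, ?_⟩
      have h1 := congrArg (fun z : ℤ => (z : O)) hc
      push_cast at h1
      rw [h1]
      exact h3.mul_right _
    · refine ⟨-d, Or.inr rfl, ?_⟩
      have h1 := congrArg (fun z : ℤ => (z : O)) hc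
      push_cast at h1
      have h2 : -(d : O) - 1 = 9 * (-c) := by linear_combination -h1
      rw [h2]
      exact h3.mul_right _
  have hspan : Ideal.span {(d : O)} = Ideal.span {a} := by
    rcases hda with h | h
    · rw [h]
    · rw [h, Ideal.span_singleton_neg]
  have hcop : ∀ x : O, IsCoprime (Ideal.span {x}) (Ideal.span {(d : O)}) ↔ IsCoprime x a := by
    intro x
    rw [hspan, Ideal.isCoprime_span_singleton_iff]
  have hmem : ∀ v : HeightOneSpectrum O, (d : O) ∈ v.asIdeal ↔ a ∈ v.asIdeal := by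
    intro v
    rcases hda with h | h
    · rw [h]
    · rw [h, Ideal.neg_mem_iff]
  obtain ⟨χ, h1, hm, hu, hper, hval, hzero, hsym⟩ := jchar ha
  obtain ⟨ψ, hψ⟩ := v11_ideal χ h1 hm hu
  have hg : ∀ J : Ideal O, ∃ x : O, J = Ideal.span {x} := fun J =>
    (IsPrincipalIdealRing.principal J).principal
  refine ⟨ψ, ?_, ?_, ?_, ?_⟩
  · intro J hJ hc
    obtain ⟨x, rfl⟩ := hg J
    have hx : x ≠ 0 := fun h => hJ (by rw [h]; exact Ideal.span_singleton_eq_bot.2 rfl)
    rw [hψ x hx, ← map_pow, hval x ((hcop x).1 hc), map_one]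
  · intro J hc
    obtain ⟨x, rfl⟩ := hg J
    by_cases hx : x = 0
    · rw [hx, Ideal.span_singleton_eq_bot.2 rfl]
      exact map_zero ψ
    · rw [hψ x hx, hzero x (fun h => hc ((hcop x).2 h)), map_zero]
  · intro x y hx hy hxy
    rw [hψ x hx, hψ y hy, hper x y]
    intro v hv
    rw [hspan] at hxy
    exact (Ideal.span_singleton_le_iff_mem _).2 hv hxy
  · intro v h3 hdv
    obtain ⟨x, hx⟩ := hg v.asIdeal
    have hx0 : x ≠ 0 := by
      rintro rfl
      exact v.ne_bot (by rw [hx]; exact Ideal.span_singleton_eq_bot.2 rfl)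
    have hav : a ∉ v.asIdeal := fun h => hdv ((hmem v).2 h)
    have h2 := hsym v x h3 hav hx
    have h4 : sym3 v a = sym3 v (d : O) := by
      rcases hda with h | h
      · rw [h]
      · rw [h, sym3_neg h3]
    rw [hx, hψ x hx0, ← h2, h4]

section

variable {K : Type} [Field K] [NumberField K] [Algebra F K]

theorem v11_norm_mem (a : Ideal (𝓞 K)) (x : 𝓞 K) (hx : x ∈ a) :
    Algebra.intNorm O (𝓞 K) x ∈ Ideal.relNorm O a := by
  have h1 : a ∣ Ideal.span {x} := Ideal.dvd_iff_le.2 ((Ideal.span_singleton_le_iff_mem a).2 hx)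
  have h2 : Ideal.relNorm O a ∣ Ideal.relNorm O (Ideal.span {x}) := map_dvd _ h1
  rw [Ideal.relNorm_singleton] at h2
  exact (Ideal.span_singleton_le_iff_mem _).1 (Ideal.dvd_iff_le.1 h2)

theorem v11_cop (d : ℤ) (a : Ideal (𝓞 K)) (ha : a ≠ ⊥) :
    IsCoprime (Ideal.relNorm O a) (Ideal.span {(d : O)}) ↔ IsCoprime a (Ideal.span {(d : 𝓞 K)}) := by
  constructor
  · intro h
    by_contra hcon
    rw [Ideal.isCoprime_iff_sup_eq] at hcon
    obtain ⟨M, hM, hle⟩ := Ideal.exists_le_maximal _ hcon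
    have hMa : a ≤ M := le_sup_left.trans hle
    have hMd : (d : 𝓞 K) ∈ M := (Ideal.span_singleton_le_iff_mem M).1 (le_sup_right.trans hle)
    have hM0 : M ≠ ⊥ := by
      rintro rfl
      exact ha (le_bot_iff.1 hMa)
    let w : HeightOneSpectrum (𝓞 K) := ⟨M, hM.isPrime, hM0⟩
    obtain ⟨v, hv⟩ := H1_below w
    have hl : M.LiesOver v.asIdeal := ⟨hv⟩
    have hvm := v.isMaximal
    have h1 : Ideal.relNorm O M = v.asIdeal ^ M.inertiaDeg O :=
      Ideal.relNorm_eq_pow_of_isMaximal M v.asIdeal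
    have hfp : M.inertiaDeg O ≠ 0 := by
      have h3 := Ideal.inertiaDeg_pos M O
      omega
    have h2 : Ideal.relNorm O a ≤ v.asIdeal := by
      have h3 : Ideal.relNorm O M ∣ Ideal.relNorm O a := map_dvd _ (Ideal.dvd_iff_le.2 hMa)
      refine (Ideal.dvd_iff_le.1 h3).trans ?_
      rw [h1]
      exact Ideal.pow_le_self hfp
    have h4 : (d : O) ∈ v.asIdeal := by
      rw [hv, Ideal.under_def, Ideal.mem_comap, map_intCast]
      exact hMd
    rw [Ideal.isCoprime_iff_sup_eq] at h
    apply v.isPrime.ne_top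
    rw [eq_top_iff, ← h]
    exact sup_le h2 ((Ideal.span_singleton_le_iff_mem _).2 h4)
  · intro h
    rw [Ideal.isCoprime_iff_exists] at h ⊢
    obtain ⟨x, hx, y, hy, hxy⟩ := h
    have h1 : x - 1 ∈ Ideal.span {algebraMap O (𝓞 K) (d : O)} := by
      rw [map_intCast]
      have e1 : x - 1 = -y := by linear_combination hxy
      rw [e1]
      exact neg_mem hy
    obtain ⟨c, hc⟩ := norm_congr (d : O) x 1 h1
    rw [map_one] at hc
    refine ⟨Algebra.intNorm O (𝓞 K) x, v11_norm_mem a x hx, -((d : O) * c), ?_, ?_⟩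
    · exact neg_mem (Ideal.mul_mem_right _ _ (Ideal.mem_span_singleton_self _))
    · linear_combination hc

end

theorem exists_DChr (K : Type) [Field K] [NumberField K] [Algebra F K] (d : ℤ)
    (hd : (9 : ℤ) ∣ d - 1 ∨ (9 : ℤ) ∣ d + 1) : ∃ χ : Ideal (𝓞 K) →*₀ ℂ, DChr d K χ := by
  obtain ⟨χ, hval, hzero, hper, hsym⟩ := exists_chiO d hd
  have hd0 : d ≠ 0 := by
    rintro rfl
    rcases hd with h | h <;> omega
  have hap : ∀ a : Ideal (𝓞 K), (χ.comp (Ideal.relNorm O : Ideal (𝓞 K) →*₀ Ideal O)) a =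
    χ (Ideal.relNorm O a) := fun a => rfl
  have hne : Ideal.span {(d : 𝓞 K)} ≠ ⊥ := by
    intro h
    have h1 := Ideal.span_singleton_eq_bot.1 h
    exact hd0 (by exact_mod_cast h1)
  have hN0 : ∀ a : Ideal (𝓞 K), a ≠ ⊥ → Ideal.relNorm O a ≠ ⊥ := by
    intro a ha h
    apply ha
    exact Ideal.relNorm_eq_bot_iff.1 h
  refine ⟨χ.comp (Ideal.relNorm O : Ideal (𝓞 K) →*₀ Ideal O), ⟨hne, ?_, ?_, ?_, ?_⟩, ?_⟩
  · rw [Ideal.isCoprime_span_singleton_iff]
    rcases hd with ⟨c, hc⟩ | ⟨c, hc⟩
    · have h1 := congrArg (fun z : ℤ => (z : 𝓞 K)) hc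
      push_cast at h1
      exact ⟨1, -(3 * c), by linear_combination h1⟩
    · have h1 := congrArg (fun z : ℤ => (z : 𝓞 K)) hc
      push_cast at h1
      exact ⟨-1, 3 * c, by linear_combination -h1⟩
  · intro a ha hc
    rw [hap]
    exact hval _ (hN0 a ha) ((v11_cop d a ha).2 hc)
  · intro a hc
    rw [hap]
    by_cases ha : a = ⊥
    · rw [ha]
      have h1 : Ideal.relNorm O (⊥ : Ideal (𝓞 K)) = ⊥ := Ideal.relNorm_bot O
      rw [h1]
      exact map_zero χ
    · exact hzero _ fun h => hc ((v11_cop d a ha).1 h)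
  · intro x y hx hy hc hxy
    rw [hap, hap, Ideal.relNorm_singleton, Ideal.relNorm_singleton]
    apply hper
    · exact fun h => hx (Algebra.intNorm_eq_zero.1 h)
    · exact fun h => hy (Algebra.intNorm_eq_zero.1 h)
    · rw [Ideal.mem_span_singleton]
      apply norm_congr
      rw [map_intCast]
      exact hxy
  · intro w v hv h3 hdw
    have hl : w.asIdeal.LiesOver v.asIdeal := ⟨hv⟩
    have hwm := w.isMaximal
    have hvm := v.isMaximal
    rw [hap, Ideal.relNorm_eq_pow_of_isMaximal w.asIdeal v.asIdeal, map_pow, hsym v]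
    · intro h
      apply h3
      rw [hv, Ideal.under_def, Ideal.mem_comap, map_ofNat] at h
      exact h
    · intro h
      apply hdw
      rw [hv, Ideal.under_def, Ideal.mem_comap, map_intCast] at h
      exact h

end H35Z
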