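import Mathlib
import Pool.Agent.Lib.H13E.Q2
import Pool.Agent.Lib.H19X.T4
import Pool.Agent.Lib.H35Z.Defs

/-! Chunk B1 (M): AdmAt in extensions. admAt_down: w of M with d in w, 2 not in w; a prime W of K above w (H19X.EX7_above or Ideal.exists_maximal_ideal_liesOver_of_isIntegral as in H35X/V8.lean); d in W, 2 not in W, so e(W|ℤ) = 1, so e(w|ℤ) = 1 (Ideal.ramificationIdx_tower,
e(W|ℤ) = e(W|w) e(w|ℤ)), and absNorm W = (absNorm w)^f % 12 = 7. N = absNorm w satisfies N^f % 12 = 7; N % 12 = r; if r is 0, 2, 3, 4, 6, 8, 9, 10 then N^f is divisible by 2 or 3 or ... (f >= 1), which 7 mod 12 is not; r^2 % 12 = 1 for r = 1, 5, 7, 11, so N^f % 12 is 1 (f even)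
or r (f odd): so r = 7 (decide on residues: Nat.pow_mod and induction). admAt_up: Quad K₀ K; w of K with d in w, 2 not in w; w' below (C4_under or H19X.T4_under): d in w', 2 not in w', so e(w'|ℤ) = 1, absNorm w' % 12 = 7, so absNorm w' % 3 = 1 and 3 not in w' (the norm is a
power of the residue characteristic). split_one: there are two primes above w', so e(w|w') = 1 (e f g = 2 with g = 2; q2_main gives ncard * f = 2; or: sum of e f = 2) and absNorm w = absNorm w'. e(w|ℤ) = e(w|w') e(w'|ℤ) = 1.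
admAt_one: AdmAt 1 K: 1 is in no prime. oddTwo_up: Quad K₀ K, OddTwo K₀ is not needed (OddTwo K comes from BaseF K and OddTwo K₀ from oddTwo_down). -/

open NumberField IsDedekindDomain

namespace H35Z

open H55B H35T H13E H35X

theorem B1_pow (N f : ℕ) (h : N ^ f % 12 = 7) : N % 12 = 7 := by
  have hf : f ≠ 0 := by
    rintro rfl
    norm_num at h
  have h2 : ¬ 2 ∣ N := by
    intro h2
    have h3 : 2 ∣ N ^ f := dvd_pow h2 hf
    omega
  have h3 : ¬ 3 ∣ N := by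
    intro h2
    have h3 : 3 ∣ N ^ f := dvd_pow h2 hf
    omega
  have h4 : N ^ 2 % 12 = 1 := by
    have h5 : N % 12 = 1 ∨ N % 12 = 5 ∨ N % 12 = 7 ∨ N % 12 = 11 := by omega
    rw [Nat.pow_mod]
    rcases h5 with h5 | h5 | h5 | h5 <;> rw [h5]
  have h6 : ∀ k : ℕ, (N ^ 2) ^ k % 12 = 1 := by
    intro k
    rw [Nat.pow_mod, h4, one_pow, Nat.one_mod_eq_one.2 (by norm_num)]
  rcases Nat.even_or_odd' f with ⟨k, hk | hk⟩
  · exfalso
    rw [hk, pow_mul, h6 k] at h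
    omega
  · rw [hk, pow_succ, pow_mul, Nat.mul_mod, h6 k, one_mul, Nat.mod_mod] at h
    exact h

theorem admAt_down {M K : Type} [Field M] [NumberField M] [Field K] [NumberField K] [Algebra M K]
    {d : ℤ} (h : AdmAt d K) : AdmAt d M := by
  classical
  refine ⟨h.1, h.2.1, ?_⟩
  intro w hd h2
  obtain ⟨W, hW⟩ := H19X.EX7_above (K := M) (N := K) w
  have hl : W.asIdeal.LiesOver w.asIdeal := ⟨hW⟩
  have hd' : ((d : ℤ) : 𝓞 K) ∈ W.asIdeal := by
    have h3 : ((d : ℤ) : 𝓞 M) ∈ W.asIdeal.under (𝓞 M) := hW ▸ hd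
    rw [Ideal.mem_under, map_intCast] at h3
    exact h3
  have h2' : (2 : 𝓞 K) ∉ W.asIdeal := by
    intro h3
    apply h2
    rw [hW, Ideal.mem_under, map_ofNat]
    exact h3
  obtain ⟨he, hN⟩ := h.2.2 W hd' h2'
  have hwp := w.isPrime
  have hWp := W.isPrime
  have hwm := w.isMaximal
  have hWm := W.isMaximal
  rw [Ideal.ramificationIdx_tower (R := ℤ) (S := 𝓞 M) w.asIdeal W.asIdeal] at he
  refine ⟨Nat.eq_one_of_mul_eq_one_right he, ?_⟩
  let _ : Field (𝓞 M ⧸ w.asIdeal) := Ideal.Quotient.field _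
  let _ : Field (𝓞 K ⧸ W.asIdeal) := Ideal.Quotient.field _
  have hfin : Finite (𝓞 K ⧸ W.asIdeal) := inferInstance
  have hfin2 : Finite (𝓞 M ⧸ w.asIdeal) := inferInstance
  have hNf : Nat.card (𝓞 K ⧸ W.asIdeal) =
      Nat.card (𝓞 M ⧸ w.asIdeal) ^ Module.finrank (𝓞 M ⧸ w.asIdeal) (𝓞 K ⧸ W.asIdeal) :=
    Module.natCard_eq_pow_finrank
  have h5 : Ideal.absNorm W.asIdeal = Nat.card (𝓞 K ⧸ W.asIdeal) := rfl
  rw [h5, hNf] at hN
  exact B1_pow _ _ hN

theorem admAt_up {K₀ K : Type} [Field K₀] [NumberField K₀] [Field K] [NumberField K] [Algebra F K]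
    [Algebra K₀ K] (hQ : Quad K₀ K) {d : ℤ} (h : AdmAt d K₀) : AdmAt d K := by
  refine ⟨h.1, h.2.1, ?_⟩
  intro w hd h2
  obtain ⟨w₀, hw⟩ := H19X.T4_under (K₀ := K₀) w
  have hl : w.asIdeal.LiesOver w₀.asIdeal := ⟨hw⟩
  have hd' : ((d : ℤ) : 𝓞 K₀) ∈ w₀.asIdeal := by
    rw [hw, Ideal.mem_under, map_intCast]
    exact hd
  have h2' : (2 : 𝓞 K₀) ∉ w₀.asIdeal := by
    intro h3
    apply h2
    have h4 : (2 : 𝓞 K₀) ∈ w.asIdeal.under (𝓞 K₀) := hw ▸ h3
    rw [Ideal.mem_under, map_ofNat] at h4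
    exact h4
  obtain ⟨he, hN⟩ := h.2.2 w₀ hd' h2'
  have hwp := w.isPrime
  have hwp0 := w₀.isPrime
  have h30 : (3 : 𝓞 K₀) ∉ w₀.asIdeal := by
    intro h3
    have h4 := Ideal.absNorm_mem w₀.asIdeal
    obtain ⟨k, hk⟩ : ∃ k, Ideal.absNorm w₀.asIdeal = 3 * k + 1 :=
      ⟨Ideal.absNorm w₀.asIdeal / 3, by omega⟩
    rw [hk] at h4
    push_cast at h4
    apply hwp0.ne_top
    rw [Ideal.eq_top_iff_one]
    have h5 : (1 : 𝓞 K₀) = (3 * (k : 𝓞 K₀) + 1) - 3 * (k : 𝓞 K₀) := by ring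
    rw [h5]
    exact w₀.asIdeal.sub_mem h4 (w₀.asIdeal.mul_mem_right _ h3)
  have h3w : (3 : 𝓞 K) ∉ w.asIdeal := by
    intro h3
    apply h30
    rw [hw, Ideal.mem_under, map_ofNat]
    exact h3
  obtain ⟨f, -, hf, hf1, -⟩ := q2_main hQ w₀ h30 w hw
  rw [hf1 (by omega), pow_one] at hf
  refine ⟨?_, ?_⟩
  · rw [Ideal.ramificationIdx_tower (R := ℤ) (S := 𝓞 K₀) w₀.asIdeal w.asIdeal,
      H19X.T4_one hQ w h3w, mul_one]
    exact he
  · rw [hf]
    exact hN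

theorem admAt_one (K : Type) [Field K] [NumberField K] : AdmAt 1 K := by
  refine ⟨Or.inl (by norm_num), ?_, ?_⟩
  · intro l hl
    exact isUnit_of_dvd_one (dvd_trans (dvd_pow_self l (by norm_num)) hl)
  · intro w hw _
    exfalso
    rw [Int.cast_one] at hw
    exact w.isPrime.ne_top ((Ideal.eq_top_iff_one _).2 hw)

/-- a unit modulo 3 -/
theorem adm_cop {d : ℤ} (h : (9 : ℤ) ∣ d - 1 ∨ (9 : ℤ) ∣ d + 1) : IsCoprime d 3 := by
  rcases h with ⟨k, hk⟩ | ⟨k, hk⟩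
  · exact ⟨1, -3 * k, by linear_combination hk⟩
  · exact ⟨-1, 3 * k, by linear_combination -hk⟩

end H35Z
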