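import Mathlib
import Pool.Agent.Lib.H35T.W9
import Pool.Agent.Lib.H55B.D1

/-! Chunk V6 (M): additive places. bad_local_b: copy of H35T.bad_local (F2.lean) for (0,0,0,0,b): Δ = -432 b^2, c4 = 0. c4_local: good reduction excluded implies localPolynomial = 1 (c4 = 0 excludes multiplicative reduction; the end of bad_local).
bad2_local: v(2) = exp(-e), e odd, v(3) = 1, any d nonzero. Compare H19Z.bad3_local (G.lean) for the method. Suppose that the minimal model W' = C • W has good reduction, C = (u, r, s, t), v(W'.Δ) = 1, W' integral. v(u)^12 = v(Δ) = v(2)^4 v(d)^4 (v(3) = 1), so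
v(u)^3 = v(2) v(d) (hence v(2) <> 0 etc.). H19Z.ZL1_rel C : ZL1_D (C • W) W u r s t: u a1' = 2 s, u^2 a2' = 3 r - s^2, u^3 a3' = 2 t, u^4 a4' = 3 r^2 - 2 s t, u^6 a6' = -d^2 + r^3 - t^2. b8' of W' is integral: u^8 b8' = 3 r^4 - 12 d^2 r
(variableChange_b₈; b2 = b4 = b8 = 0, b6 = -4 d^2). ρ = r/u^2: 3 ρ^4 - 3 (4 d^2/u^6) ρ = b8', v(4 d^2/u^6) = v(2)^2 v(d)^2/(v(2)^2 v(d)^2) = 1, so v(ρ) <= 1 (otherwise the left side has valuation v(ρ)^4 > 1). σ = s/u: σ^2 = 3 ρ - a2', v(σ) <= 1.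
τ = t/u^3, δ = d/u^3, v(δ) = v(2)^(-1): z := τ^2 + δ^2 = ρ^3 - a6' has v(z) <= 1. v(2 δ) = 1, (2 τ)^2 = 4 z - (2 δ)^2, v(4 z) < 1, so v(2 τ) = 1. (2 τ + 2 δ)^2 = 4 z + 2 (2 τ)(2 δ) = 2 ((2 τ)(2 δ) + 2 z), and v((2 τ)(2 δ) + 2 z) = 1, so
v(2 τ + 2 δ)^2 = v(2) = exp(-e), an odd power: contradiction (a square of exp n is exp (2 n); zero is excluded). -/

open NumberField IsDedekindDomain WeierstrassCurve

namespace H35Z

open H55B H35T

theorem v6_Δ (K : Type*) [Field K] (b : K) : (⟨0, 0, 0, 0, b⟩ : WeierstrassCurve K).Δ = -(432 * b ^ 2) := by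
  simp [WeierstrassCurve.Δ, WeierstrassCurve.b₂, WeierstrassCurve.b₄, WeierstrassCurve.b₆,
    WeierstrassCurve.b₈]
  ring

theorem v6_c₄ (K : Type*) [Field K] (b : K) : (⟨0, 0, 0, 0, b⟩ : WeierstrassCurve K).c₄ = 0 := by
  simp [WeierstrassCurve.c₄, WeierstrassCurve.b₂, WeierstrassCurve.b₄]

theorem c4_local (R : Type*) [CommRing R] [IsDomain R] [IsDiscreteValuationRing R] (K : Type*)
    [Field K] [Algebra R K] [IsFractionRing R K] (b : K)
    (hgood : ¬((⟨0, 0, 0, 0, b⟩ : WeierstrassCurve K).minimal R).HasGoodReduction R) :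
    (⟨0, 0, 0, 0, b⟩ : WeierstrassCurve K).localPolynomial R = 1 := by
  set W : WeierstrassCurve K := ⟨0, 0, 0, 0, b⟩ with hW
  obtain ⟨C, hC⟩ : ∃ C : WeierstrassCurve.VariableChange K, W.minimal R = C • W :=
    ⟨_, rfl⟩
  have hmult : ¬ (W.minimal R).HasMultiplicativeReduction R := by
    intro hm
    have h1 := hm.multiplicativeReduction
    rw [hC, WeierstrassCurve.variableChange_c₄, hW, v6_c₄, mul_zero, map_zero] at h1
    exact zero_ne_one h1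
  have hsplit : ¬ (W.minimal R).HasSplitMultiplicativeReduction R := fun hs =>
    hmult hs.toHasMultiplicativeReduction
  unfold WeierstrassCurve.localPolynomial
  rw [if_neg hgood, if_neg hsplit, if_neg hmult]

theorem bad_local_b (R : Type*) [CommRing R] [IsDomain R] [IsDiscreteValuationRing R] (K : Type*)
    [Field K] [Algebra R K] [IsFractionRing R K] (b : K)
    (h : ∀ u : K, u ≠ 0 → (IsDiscreteValuationRing.maximalIdeal R).valuation K (432 * b ^ 2) ≠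
      ((IsDiscreteValuationRing.maximalIdeal R).valuation K u) ^ 12) :
    (⟨0, 0, 0, 0, b⟩ : WeierstrassCurve K).localPolynomial R = 1 := by
  apply c4_local
  set W : WeierstrassCurve K := ⟨0, 0, 0, 0, b⟩ with hW
  obtain ⟨C, hC⟩ : ∃ C : WeierstrassCurve.VariableChange K, W.minimal R = C • W :=
    ⟨_, rfl⟩
  intro hg
  have h1 := hg.goodReduction
  rw [hC, WeierstrassCurve.variableChange_Δ, hW, v6_Δ, map_mul, map_pow, Valuation.map_neg] at h1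
  apply h (C.u : K) C.u.ne_zero
  have h2 : (IsDiscreteValuationRing.maximalIdeal R).valuation K ((C.u⁻¹ : Kˣ) : K) =
      ((IsDiscreteValuationRing.maximalIdeal R).valuation K (C.u : K))⁻¹ := by
    rw [Units.val_inv_eq_inv_val, map_inv₀]
  rw [h2, inv_pow] at h1
  have h3 : ((IsDiscreteValuationRing.maximalIdeal R).valuation K (C.u : K)) ^ 12 ≠ 0 :=
    pow_ne_zero _ ((Valuation.ne_zero_iff _).2 C.u.ne_zero)
  exact (inv_mul_eq_one₀ h3).1 h1 |>.symm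

theorem v6_core {K : Type*} [Field K] (v : Valuation K (WithZero (Multiplicative ℤ))) {d u r t : K}
    {e : ℕ} (he : Odd e) (hu : u ≠ 0) (h2 : v 2 = WithZero.exp (-(e : ℤ))) (h3 : v 3 = 1)
    (hΔ : v (u⁻¹ ^ 12 * (432 * d ^ 4)) = 1)
    (hb : v (u⁻¹ ^ 8 * (3 * r ^ 4 - 12 * d ^ 2 * r)) ≤ 1)
    (ha : v (u⁻¹ ^ 6 * (-d ^ 2 + r ^ 3 - t ^ 2)) ≤ 1) : False := by
  have h2lt : v 2 < 1 := by
    rw [h2, ← WithZero.exp_zero, WithZero.exp_lt_exp]
    have : 0 < e := he.pos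
    omega
  obtain ⟨δ, hδ'⟩ : ∃ δ, δ = d / u ^ 3 := ⟨_, rfl⟩
  obtain ⟨ρ, hρ'⟩ : ∃ ρ, ρ = r / u ^ 2 := ⟨_, rfl⟩
  obtain ⟨τ, hτ'⟩ : ∃ τ, τ = t / u ^ 3 := ⟨_, rfl⟩
  have eΔ : u⁻¹ ^ 12 * (432 * d ^ 4) = 3 ^ 3 * (2 * δ) ^ 4 := by
    rw [hδ']
    field_simp
    ring
  have eb : u⁻¹ ^ 8 * (3 * r ^ 4 - 12 * d ^ 2 * r) = 3 * (ρ ^ 4 - (2 * δ) ^ 2 * ρ) := by
    rw [hδ', hρ']
    field_simp
    ring
  have ea : u⁻¹ ^ 6 * (-d ^ 2 + r ^ 3 - t ^ 2) = -δ ^ 2 + ρ ^ 3 - τ ^ 2 := by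
    rw [hδ', hρ', hτ']
    field_simp
  rw [eΔ, map_mul, map_pow, map_pow, h3, one_pow, one_mul] at hΔ
  rw [eb, map_mul, h3, one_mul] at hb
  rw [ea] at ha
  have hδ : v (2 * δ) = 1 := (pow_eq_one_iff_of_nonneg zero_le (by norm_num)).1 hΔ
  -- `ρ` is integral
  have hρ : v ρ ≤ 1 := by
    by_contra hc
    rw [not_le] at hc
    have h5 : v ((2 * δ) ^ 2 * ρ) < v (ρ ^ 4) := by
      rw [map_mul, map_pow, hδ, one_pow, one_mul, map_pow]
      calc v ρ = v ρ ^ 1 := (pow_one _).symm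
        _ < v ρ ^ 4 := pow_lt_pow_right₀ hc (by norm_num)
    rw [Valuation.map_sub_eq_of_lt_left v h5, map_pow] at hb
    exact absurd hb (not_le.2 (one_lt_pow₀ hc (by norm_num)))
  have hz : v (τ ^ 2 + δ ^ 2) ≤ 1 := by
    have e1 : τ ^ 2 + δ ^ 2 = ρ ^ 3 - (-δ ^ 2 + ρ ^ 3 - τ ^ 2) := by ring
    rw [e1]
    refine (Valuation.map_sub v _ _).trans (max_le ?_ ha)
    rw [map_pow]
    exact pow_le_one₀ zero_le hρ
  have h2z : v (2 * (τ ^ 2 + δ ^ 2)) < 1 := by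
    rw [map_mul]
    calc v 2 * v (τ ^ 2 + δ ^ 2) ≤ v 2 * 1 := mul_le_mul_right hz _
      _ < 1 := by rw [mul_one]; exact h2lt
  have h4z : v (2 * (2 * (τ ^ 2 + δ ^ 2))) < 1 := by
    rw [map_mul]
    calc v 2 * v (2 * (τ ^ 2 + δ ^ 2)) ≤ v 2 * 1 := mul_le_mul_right h2z.le _
      _ < 1 := by rw [mul_one]; exact h2lt
  have hτ : v (2 * τ) = 1 := by
    have e1 : (2 * τ) ^ 2 = 2 * (2 * (τ ^ 2 + δ ^ 2)) - (2 * δ) ^ 2 := by ring
    have h5 : v ((2 * τ) ^ 2) = 1 := by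
      rw [e1, Valuation.map_sub_eq_of_lt_right v (by rw [map_pow v (2 * δ), hδ, one_pow]; exact h4z),
        map_pow, hδ, one_pow]
    rw [map_pow] at h5
    exact (pow_eq_one_iff_of_nonneg zero_le (by norm_num)).1 h5
  have hfin : v (2 * τ + 2 * δ) ^ 2 = v 2 := by
    have e1 : (2 * τ + 2 * δ) ^ 2 = 2 * ((2 * τ) * (2 * δ) + 2 * (τ ^ 2 + δ ^ 2)) := by ring
    have h5 : v ((2 * τ) * (2 * δ)) = 1 := by rw [map_mul, hτ, hδ, one_mul]
    rw [← map_pow, e1, map_mul, Valuation.map_add_eq_of_lt_left v (by rw [h5]; exact h2z), h5, mul_one]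
  have hne : v (2 * τ + 2 * δ) ≠ 0 := by
    intro h0
    rw [h0, zero_pow two_ne_zero, h2] at hfin
    exact WithZero.exp_ne_zero hfin.symm
  obtain ⟨n, hn⟩ : ∃ n : ℤ, v (2 * τ + 2 * δ) = WithZero.exp n := ⟨_, (WithZero.exp_log hne).symm⟩
  rw [hn, h2, ← WithZero.exp_nsmul, WithZero.exp_inj] at hfin
  obtain ⟨k, hk⟩ := he
  rw [nsmul_eq_mul] at hfin
  push_cast at hfin
  omega

theorem bad2_local (R : Type*) [CommRing R] [IsDomain R] [IsDiscreteValuationRing R] (K : Type*)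
    [Field K] [Algebra R K] [IsFractionRing R K] (d : K) (hd : d ≠ 0) (e : ℕ) (he : Odd e)
    (h2 : (IsDiscreteValuationRing.maximalIdeal R).valuation K 2 = WithZero.exp (-(e : ℤ)))
    (h3 : (IsDiscreteValuationRing.maximalIdeal R).valuation K 3 = 1) :
    (⟨0, 0, 0, 0, -d ^ 2⟩ : WeierstrassCurve K).localPolynomial R = 1 := by
  apply c4_local
  set W : WeierstrassCurve K := ⟨0, 0, 0, 0, -d ^ 2⟩ with hW
  obtain ⟨C, hC⟩ : ∃ C : WeierstrassCurve.VariableChange K, W.minimal R = C • W :=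
    ⟨_, rfl⟩
  intro hg
  have h1 := hg.goodReduction
  have hi8 : (IsDiscreteValuationRing.maximalIdeal R).valuation K (W.minimal R).b₈ ≤ 1 := by
    rw [← WeierstrassCurve.integralModel_b₈_eq R (W.minimal R)]
    exact IsDedekindDomain.HeightOneSpectrum.valuation_le_one _ _
  have hi6 : (IsDiscreteValuationRing.maximalIdeal R).valuation K (W.minimal R).a₆ ≤ 1 := by
    rw [← WeierstrassCurve.integralModel_a₆_eq R (W.minimal R)]
    exact IsDedekindDomain.HeightOneSpectrum.valuation_le_one _ _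
  rw [hC, WeierstrassCurve.variableChange_Δ, hW, v6_Δ, mul_neg, Valuation.map_neg, Units.val_inv_eq_inv_val] at h1
  have eb₈ : (C • W).b₈ = ((C.u : K)⁻¹) ^ 8 * (3 * C.r ^ 4 - 12 * d ^ 2 * C.r) := by
    rw [WeierstrassCurve.variableChange_b₈, hW, Units.val_inv_eq_inv_val]
    simp [WeierstrassCurve.b₂, WeierstrassCurve.b₄, WeierstrassCurve.b₆, WeierstrassCurve.b₈]
    ring
  have ea₆ : (C • W).a₆ = ((C.u : K)⁻¹) ^ 6 * (-d ^ 2 + C.r ^ 3 - C.t ^ 2) := by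
    rw [WeierstrassCurve.variableChange_a₆, hW, Units.val_inv_eq_inv_val]
    simp
  rw [hC, eb₈] at hi8
  rw [hC, ea₆] at hi6
  have e1 : (432 : K) * (-d ^ 2) ^ 2 = 432 * d ^ 4 := by ring
  rw [e1] at h1
  exact v6_core _ he C.u.ne_zero h2 h3 h1 hi8 hi6

end H35Z
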