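import Mathlib
import Pool.Agent.Lib.H35T.W9
import Pool.Agent.Lib.H55B.F1

/-! Chunk V7 (M, copy of H35T/F1.lean): the local polynomial of y^2 = x^3 + b where 6 and b are units of R. Copy F1_good, F1_core, F1_count, good_local with -1 replaced by the image of a unit b of R: Δ = -432 b^2; b6 = 4 b, b8 = 0:
u^8 b8' = 3 r^4 + 12 b r (so r^4 + 4 b r is integral), u^2 a2' = 3 r - s^2, u^6 a6' = r^3 + b - t^2. -/

open NumberField IsDedekindDomain Polynomial

namespace H35Z

open H55B H35T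

theorem v7_Δ (K : Type*) [CommRing K] (b : K) : (⟨0, 0, 0, 0, b⟩ : WeierstrassCurve K).Δ = -432 * b ^ 2 := by
  simp [WeierstrassCurve.Δ, WeierstrassCurve.b₂, WeierstrassCurve.b₄, WeierstrassCurve.b₆,
    WeierstrassCurve.b₈]
  ring

theorem v7_isUnit432 {R : Type*} [CommRing R] (h3 : IsUnit (3 : R)) (h2 : IsUnit (2 : R)) {b : R}
    (hb : IsUnit b) : IsUnit (-432 * b ^ 2 : R) := by
  have : (-432 * b ^ 2 : R) = -(3 ^ 3 * 2 ^ 4 * b ^ 2) := by norm_num
  rw [this]
  exact (((h3.pow 3).mul (h2.pow 4)).mul (hb.pow 2)).neg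

theorem v7_good (R : Type*) [CommRing R] [IsDomain R] [IsDiscreteValuationRing R] (K : Type*)
    [Field K] [Algebra R K] [IsFractionRing R K] (h3 : IsUnit (3 : R)) (h2 : IsUnit (2 : R)) {b : R}
    (hb : IsUnit b) :
    ((⟨0, 0, 0, 0, algebraMap R K b⟩ : WeierstrassCurve K).minimal R).HasGoodReduction R := by
  set W : WeierstrassCurve K := ⟨0, 0, 0, 0, algebraMap R K b⟩ with hW
  obtain ⟨C, hC⟩ : ∃ C : WeierstrassCurve.VariableChange K, W.minimal R = C • W := ⟨_, rfl⟩
  have hmin : WeierstrassCurve.IsMinimal R (W.minimal R) := inferInstance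
  rw [WeierstrassCurve.hasGoodReduction_iff]
  refine ⟨hmin, ?_⟩
  have hWint : WeierstrassCurve.IsIntegral R W := by
    refine ⟨⟨⟨0, 0, 0, 0, b⟩, ?_⟩⟩
    rw [hW]
    ext <;> simp [WeierstrassCurve.baseChange]
  have hback : C⁻¹ • W.minimal R = W := by rw [hC, inv_smul_smul]
  have hmax := hmin.val_Δ_maximal
  have hj : WeierstrassCurve.IsIntegral R (C⁻¹ • W.minimal R) := by rw [hback]; exact hWint
  have hval : (WeierstrassCurve.valuation_Δ_aux R (C⁻¹ • W.minimal R)).1 = 1 := by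
    rw [hback]
    rw [WeierstrassCurve.valuation_Δ_aux_eq_of_isIntegral, hW, v7_Δ]
    have := F1_val_unit R K (v7_isUnit432 h3 h2 hb)
    rw [map_mul, map_neg, map_ofNat, map_pow] at this
    exact this
  have hle : WeierstrassCurve.valuation_Δ_aux R ((1 : WeierstrassCurve.VariableChange K) •
      W.minimal R) ≤ WeierstrassCurve.valuation_Δ_aux R (C⁻¹ • W.minimal R) := by
    rw [← Subtype.coe_le_coe, hval]
    exact (WeierstrassCurve.valuation_Δ_aux R _).2
  have hge := hmax.2 hj hle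
  rw [← Subtype.coe_le_coe, hval] at hge
  change 1 ≤ (WeierstrassCurve.valuation_Δ_aux R ((1 : WeierstrassCurve.VariableChange K) •
      W.minimal R)).1 at hge
  rw [one_smul, WeierstrassCurve.valuation_Δ_aux_eq_of_isIntegral] at hge
  refine le_antisymm ?_ hge
  obtain ⟨r, hr⟩ := WeierstrassCurve.Δ_integral_of_isIntegral R (W.minimal R)
  rw [← hr]
  exact IsDedekindDomain.HeightOneSpectrum.valuation_le_one _ _

theorem v7_core (R : Type*) [CommRing R] [IsDomain R] [IsDiscreteValuationRing R] (K : Type*)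
    [Field K] [Algebra R K] [IsFractionRing R K] (h3 : IsUnit (3 : R)) (h2 : IsUnit (2 : R)) {b : R}
    (hb : IsUnit b) :
    ∃ C : WeierstrassCurve.VariableChange R,
      WeierstrassCurve.integralModel R ((⟨0, 0, 0, 0, algebraMap R K b⟩ : WeierstrassCurve K).minimal R) =
        C • (⟨0, 0, 0, 0, b⟩ : WeierstrassCurve R) := by
  set W : WeierstrassCurve K := ⟨0, 0, 0, 0, algebraMap R K b⟩ with hW
  obtain ⟨C, hC⟩ : ∃ C : WeierstrassCurve.VariableChange K, W.minimal R = C • W := ⟨_, rfl⟩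
  set I := WeierstrassCurve.integralModel R (W.minimal R) with hI
  have inj : Function.Injective (algebraMap R K) := IsFractionRing.injective R K
  -- the discriminant of the integral model is a unit
  have hΔ : IsUnit I.Δ := by
    have hg := (v7_good R K h3 h2 hb).goodReduction
    rw [← WeierstrassCurve.integralModel_Δ_eq R] at hg
    by_contra h
    have := (IsDedekindDomain.HeightOneSpectrum.valuation_lt_one_iff_mem
      (K := K) (IsDiscreteValuationRing.maximalIdeal R) I.Δ).2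
      ((IsLocalRing.mem_maximalIdeal _).2 h)
    exact absurd hg this.ne
  have eΔ : algebraMap R K I.Δ = ((C.u⁻¹ : Kˣ) : K) ^ 12 * (-432 * algebraMap R K b ^ 2) := by
    rw [hI, WeierstrassCurve.integralModel_Δ_eq, hC, WeierstrassCurve.variableChange_Δ, hW, v7_Δ]
  have eb₈ : algebraMap R K I.b₈ = ((C.u⁻¹ : Kˣ) : K) ^ 8 * (3 * C.r ^ 4 + 12 * algebraMap R K b * C.r) := by
    rw [hI, WeierstrassCurve.integralModel_b₈_eq, hC, WeierstrassCurve.variableChange_b₈, hW]
    simp [WeierstrassCurve.b₂, WeierstrassCurve.b₄, WeierstrassCurve.b₆, WeierstrassCurve.b₈]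
    ring
  have ea₂ : algebraMap R K I.a₂ = ((C.u⁻¹ : Kˣ) : K) ^ 2 * (3 * C.r - C.s ^ 2) := by
    rw [hI, WeierstrassCurve.integralModel_a₂_eq, hC, WeierstrassCurve.variableChange_a₂, hW]
    simp
  have ea₆ : algebraMap R K I.a₆ = ((C.u⁻¹ : Kˣ) : K) ^ 6 * (C.r ^ 3 + algebraMap R K b - C.t ^ 2) := by
    rw [hI, WeierstrassCurve.integralModel_a₆_eq, hC, WeierstrassCurve.variableChange_a₆, hW]
    simp
    ring
  set u : K := (C.u : K) with hu
  have hu0 : u ≠ 0 := C.u.ne_zero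
  have huinv : ((C.u⁻¹ : Kˣ) : K) = u⁻¹ := Units.val_inv_eq_inv_val _
  rw [huinv] at eΔ eb₈ ea₂ ea₆
  obtain ⟨d, hd⟩ := hΔ
  obtain ⟨m, hm⟩ := v7_isUnit432 h3 h2 hb
  -- u is integral
  have hdm : algebraMap R K d = u⁻¹ ^ 12 * algebraMap R K m := by
    rw [hd, eΔ, hm, map_mul, map_neg, map_ofNat, map_pow]
  have hu12 : u ^ 12 = algebraMap R K ((m : R) * ((d⁻¹ : Rˣ) : R)) := by
    rw [map_mul]
    have h1 : algebraMap R K d * algebraMap R K ((d⁻¹ : Rˣ) : R) = 1 := by
      rw [← map_mul, Units.mul_inv, map_one]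
    have h2 : u ^ 12 * algebraMap R K d = algebraMap R K m := by
      rw [hdm, inv_pow, mul_inv_cancel_left₀ (pow_ne_zero _ hu0)]
    calc u ^ 12 = u ^ 12 * (algebraMap R K d * algebraMap R K ((d⁻¹ : Rˣ) : R)) := by rw [h1, mul_one]
      _ = (u ^ 12 * algebraMap R K d) * algebraMap R K ((d⁻¹ : Rˣ) : R) := by ring
      _ = _ := by rw [h2]
  have huinv12 : u⁻¹ ^ 12 = algebraMap R K ((d : R) * ((m⁻¹ : Rˣ) : R)) := by
    rw [map_mul]
    have h1 : algebraMap R K m * algebraMap R K ((m⁻¹ : Rˣ) : R) = 1 := by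
      rw [← map_mul, Units.mul_inv, map_one]
    rw [hdm, mul_assoc, h1, mul_one]
  obtain ⟨u₀, hu₀⟩ : ∃ u₀ : R, algebraMap R K u₀ = u := by
    apply IsIntegrallyClosed.exists_algebraMap_eq_of_isIntegral_pow (n := 12) (by norm_num)
    rw [hu12]; exact isIntegral_algebraMap
  obtain ⟨v₀, hv₀⟩ : ∃ v₀ : R, algebraMap R K v₀ = u⁻¹ := by
    apply IsIntegrallyClosed.exists_algebraMap_eq_of_isIntegral_pow (n := 12) (by norm_num)
    rw [huinv12]; exact isIntegral_algebraMap
  have huv : u₀ * v₀ = 1 := by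
    apply inj
    rw [map_mul, hu₀, hv₀, map_one, mul_inv_cancel₀ hu0]
  -- r
  obtain ⟨w3, hw3⟩ := h3
  have hw3' : algebraMap R K ((w3⁻¹ : Rˣ) : R) * 3 = 1 := by
    have : (3 : K) = algebraMap R K (w3 : R) := by rw [hw3, map_ofNat]
    rw [this, ← map_mul, Units.inv_mul, map_one]
  have hr4 : C.r ^ 4 + 4 * algebraMap R K b * C.r = algebraMap R K (((w3⁻¹ : Rˣ) : R) * (u₀ ^ 8 * I.b₈)) := by
    rw [map_mul, map_mul, map_pow, hu₀, eb₈]
    have : u ^ 8 * (u⁻¹ ^ 8 * (3 * C.r ^ 4 + 12 * algebraMap R K b * C.r)) = 3 * (C.r ^ 4 + 4 * algebraMap R K b * C.r) := by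
      field_simp
      ring
    rw [this, ← mul_assoc, hw3', one_mul]
  obtain ⟨r₀, hr₀⟩ : ∃ r₀ : R, algebraMap R K r₀ = C.r := by
    rw [← IsIntegrallyClosed.isIntegral_iff]
    refine ⟨Polynomial.X ^ 4 + Polynomial.C (4 * b) * Polynomial.X -
      Polynomial.C (((w3⁻¹ : Rˣ) : R) * (u₀ ^ 8 * I.b₈)), ?_, ?_⟩
    · monicity!
    · simp only [Polynomial.eval₂_sub, Polynomial.eval₂_add, Polynomial.eval₂_mul, Polynomial.eval₂_pow,
        Polynomial.eval₂_X, Polynomial.eval₂_C]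
      rw [map_mul, show algebraMap R K 4 = 4 from map_ofNat _ 4, hr4, sub_self]
  obtain ⟨s₀, hs₀⟩ : ∃ s₀ : R, algebraMap R K s₀ = C.s := by
    apply IsIntegrallyClosed.exists_algebraMap_eq_of_isIntegral_pow (n := 2) (by norm_num)
    have : C.s ^ 2 = algebraMap R K (3 * r₀ - u₀ ^ 2 * I.a₂) := by
      rw [map_sub, map_mul, map_mul, map_pow, hu₀, hr₀, ea₂]
      have : u ^ 2 * (u⁻¹ ^ 2 * (3 * C.r - C.s ^ 2)) = 3 * C.r - C.s ^ 2 := by
        field_simp
      rw [this, map_ofNat]; ring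
    rw [this]; exact isIntegral_algebraMap
  obtain ⟨t₀, ht₀⟩ : ∃ t₀ : R, algebraMap R K t₀ = C.t := by
    apply IsIntegrallyClosed.exists_algebraMap_eq_of_isIntegral_pow (n := 2) (by norm_num)
    have ht2 : C.t ^ 2 = algebraMap R K (r₀ ^ 3 + b - u₀ ^ 6 * I.a₆) := by
      rw [map_sub, map_add, map_mul, map_pow, map_pow, hu₀, hr₀, ea₆]
      have : u ^ 6 * (u⁻¹ ^ 6 * (C.r ^ 3 + algebraMap R K b - C.t ^ 2)) = C.r ^ 3 + algebraMap R K b - C.t ^ 2 := by
        field_simp
      rw [this]; ring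
    rw [ht2]; exact isIntegral_algebraMap
  refine ⟨⟨⟨u₀, v₀, huv, by rw [mul_comm]; exact huv⟩, r₀, s₀, t₀⟩, ?_⟩
  have hmapinj : Function.Injective
      (fun E : WeierstrassCurve R => E.map (algebraMap R K)) := WeierstrassCurve.map_injective inj
  apply hmapinj
  show I.map (algebraMap R K) = (_ : WeierstrassCurve R).map (algebraMap R K)
  rw [← WeierstrassCurve.map_variableChange]
  have e1 : I.map (algebraMap R K) = W.minimal R := WeierstrassCurve.baseChange_integralModel_eq R _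
  rw [e1, hC]
  congr 1
  · ext
    · show u = algebraMap R K u₀
      rw [hu₀]
    · exact hr₀.symm
    · exact hs₀.symm
    · exact ht₀.symm
  · rw [hW]
    ext <;> simp [WeierstrassCurve.map]

theorem v7_count (k : Type*) [Field k] [Finite k] (D : WeierstrassCurve.VariableChange k) (b : k)
    (h432 : -432 * b ^ 2 ≠ 0) :
    Nat.card ((D • (⟨0, 0, 0, 0, b⟩ : WeierstrassCurve k)).toAffine.Point) =
      Nat.card {p : k × k // p.2 ^ 2 = p.1 ^ 3 + b} + 1 := by
  set E : WeierstrassCurve k := D • (⟨0, 0, 0, 0, b⟩ : WeierstrassCurve k) with hE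
  have hΔ : E.Δ ≠ 0 := by
    rw [hE, WeierstrassCurve.variableChange_Δ, v7_Δ]
    exact mul_ne_zero (pow_ne_zero _ (D.u⁻¹).ne_zero) h432
  rw [Nat.card_congr E.toAffine.nonsingularPointEquiv]
  have h1 : Nat.card (WithZero {xy : k × k // E.toAffine.Nonsingular xy.fst xy.snd}) =
      Nat.card {xy : k × k // E.toAffine.Nonsingular xy.fst xy.snd} + 1 := by
    have : Finite {xy : k × k // E.toAffine.Nonsingular xy.fst xy.snd} := inferInstance
    exact Finite.card_option
  rw [h1]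
  congr 1
  have hu0 : (D.u : k) ≠ 0 := D.u.ne_zero
  have huinv : ((D.u⁻¹ : kˣ) : k) = (D.u : k)⁻¹ := Units.val_inv_eq_inv_val _
  have key : ∀ x y : k, E.toAffine.Nonsingular x y ↔
      ((D.u : k) ^ 3 * y + (D.u : k) ^ 2 * D.s * x + D.t) ^ 2 =
        ((D.u : k) ^ 2 * x + D.r) ^ 3 + b := by
    intro x y
    rw [← WeierstrassCurve.Affine.equation_iff_nonsingular_of_Δ_ne_zero (W := E.toAffine) hΔ,
      WeierstrassCurve.Affine.equation_iff']
    have h6 : (D.u : k) ^ 6 ≠ 0 := pow_ne_zero _ hu0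
    rw [← mul_right_inj' h6, mul_zero, ← sub_eq_zero (a := _ ^ 2)]
    have : ∀ a b : k, a = b → (a = 0 ↔ b = 0) := fun a b h => by rw [h]
    apply this
    rw [hE]
    simp only [WeierstrassCurve.variableChange_a₁, WeierstrassCurve.variableChange_a₂,
      WeierstrassCurve.variableChange_a₃, WeierstrassCurve.variableChange_a₄,
      WeierstrassCurve.variableChange_a₆, huinv]
    field_simp
    ring
  refine Nat.card_congr
    ⟨fun p => ⟨((D.u : k) ^ 2 * p.1.1 + D.r,
        (D.u : k) ^ 3 * p.1.2 + (D.u : k) ^ 2 * D.s * p.1.1 + D.t), (key _ _).1 p.2⟩,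
      fun q => ⟨(((D.u : k)⁻¹) ^ 2 * (q.1.1 - D.r),
        ((D.u : k)⁻¹) ^ 3 * (q.1.2 - D.s * (q.1.1 - D.r) - D.t)), ?_⟩, ?_, ?_⟩
  · rw [key]
    have e1 : (D.u : k) ^ 2 * (((D.u : k)⁻¹) ^ 2 * (q.1.1 - D.r)) + D.r = q.1.1 := by
      field_simp; ring
    have e2 : (D.u : k) ^ 3 * (((D.u : k)⁻¹) ^ 3 * (q.1.2 - D.s * (q.1.1 - D.r) - D.t)) +
        (D.u : k) ^ 2 * D.s * (((D.u : k)⁻¹) ^ 2 * (q.1.1 - D.r)) + D.t = q.1.2 := by
      field_simp; ring
    simp only [e1, e2]
    exact q.2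
  · rintro ⟨⟨x, y⟩, h⟩
    simp only [Subtype.mk.injEq, Prod.mk.injEq]
    constructor
    · field_simp <;> ring
    · field_simp <;> ring
  · rintro ⟨⟨x, y⟩, h⟩
    simp only [Subtype.mk.injEq, Prod.mk.injEq]
    constructor
    · field_simp <;> ring
    · field_simp <;> ring

theorem good_local_b (R : Type*) [CommRing R] [IsDomain R] [IsDiscreteValuationRing R] (K : Type*)
    [Field K] [Algebra R K] [IsFractionRing R K] [Finite (IsLocalRing.ResidueField R)]
    (h3 : IsUnit (3 : R)) (h2 : IsUnit (2 : R)) (b : R) (hb : IsUnit b) :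
    (⟨0, 0, 0, 0, algebraMap R K b⟩ : WeierstrassCurve K).localPolynomial R =
      1 - C ((Nat.card (IsLocalRing.ResidueField R) : ℤ) -
        Nat.card {p : IsLocalRing.ResidueField R × IsLocalRing.ResidueField R //
          p.2 ^ 2 = p.1 ^ 3 + IsLocalRing.residue R b}) * X +
        C (Nat.card (IsLocalRing.ResidueField R) : ℤ) * X ^ 2 := by
  obtain ⟨D, hD⟩ := v7_core R K h3 h2 hb
  have hred : ((⟨0, 0, 0, 0, algebraMap R K b⟩ : WeierstrassCurve K).minimal R).reduction R =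
      (D.map (IsLocalRing.residue R)) •
        (⟨0, 0, 0, 0, IsLocalRing.residue R b⟩ : WeierstrassCurve (IsLocalRing.ResidueField R)) := by
    unfold WeierstrassCurve.reduction
    rw [hD, ← WeierstrassCurve.map_variableChange]
    have : (⟨0, 0, 0, 0, b⟩ : WeierstrassCurve R).map (IsLocalRing.residue R) =
        (⟨0, 0, 0, 0, IsLocalRing.residue R b⟩ : WeierstrassCurve (IsLocalRing.ResidueField R)) := by
      ext <;> simp [WeierstrassCurve.map]
    rw [this]
  have h432 : -432 * IsLocalRing.residue R b ^ 2 ≠ 0 := by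
    have h := (v7_isUnit432 h3 h2 hb).map (IsLocalRing.residue R)
    have h' := h.ne_zero
    intro h0
    apply h'
    have : IsLocalRing.residue R 432 = (432 : IsLocalRing.ResidueField R) := map_ofNat _ 432
    rw [map_mul, map_neg, map_pow, this, h0]
  have hcount := v7_count (IsLocalRing.ResidueField R) (D.map (IsLocalRing.residue R))
    (IsLocalRing.residue R b) h432
  unfold WeierstrassCurve.localPolynomial
  rw [if_pos (v7_good R K h3 h2 hb), hred, hcount]
  push_cast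
  congr 3
  congr 1
  ring

end H35Z
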