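import Mathlib
import Pool.Agent.Lib.H35T.I1
import Pool.Agent.Lib.H35T.R1

/-! Chunk V8 (M): the number of points of y^2 = x^3 - d^2 over a finite field. Adapt H35T/E1.lean (count) and E2.lean (pts). chi_sym: χ : MulChar k O with φ(χ x) = x^((q-1)/3), q = N^f, N = absNorm v = 1 mod 3: for a in O not in v:
φ(χ (φ a)) = φ(a)^((N^f-1)/3) = (φ(a)^((N-1)/3))^(1 + N + ... + N^(f-1)) = φ(sym3 v a)^(1 + ... + N^(f-1)) (sym3_spec) = φ(sym3 v a)^f (cube roots of unity, 1 + N + ... + N^(f-1) = f mod 3), both χ(φ a) and sym3 v a^f are cube roots of unity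
and φ is injective on these (mu3_inj, hker; χ(φ a)^3 = 1). count_d: number = sum over y of (1 + χ(y^2 + c^2) + cj of it) (E1_cnt), c = φ d nonzero: substitute y = c z: χ(c^2 (1 + z^2)) = χ(c)^2 χ(1 + z^2), and the sum over z of χ(1 + z^2) is
ε (χ 4 * jacobiSum χ χ), ε = 1 or -1 (the proof of count; cj (χ(c)^2 S) = cj(χ(c)^2) cj S). pts_d: as pts: χ 4 J ε = -(cj (eta gen) gen)^f, so with z = (sym3 v d)^f (z^2 = cj z, z cj z = 1): number = N^f - (z^2 a^f + (z^2)^cj b^f),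
a = conj(e(eta(gen v))) e(gen v), b = e(eta(gen v)) conj(e(gen v)); conj(e z) = e(cj z) (e_cj). -/

open NumberField IsDedekindDomain

namespace H35Z

open H55B H35T

theorem chi_sym (v : HeightOneSpectrum O) (h3 : (3 : O) ∉ v.asIdeal)
    (k : Type*) [Field k] [Fintype k] (φ : O →+* k) (hker : RingHom.ker φ = v.asIdeal) (f : ℕ)
    (hf : 0 < f) (hq : Fintype.card k = Ideal.absNorm v.asIdeal ^ f) (χ : MulChar k O)
    (hχ3 : χ ^ 3 = 1) (hφ : ∀ x : k, φ (χ x) = x ^ ((Fintype.card k - 1) / 3)) (a : O)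
    (ha : a ∉ v.asIdeal) : χ (φ a) = sym3 v a ^ f := by
  have ha0 : φ a ≠ 0 := by
    intro h
    apply ha
    rw [← hker]
    exact h
  obtain ⟨h1, h2⟩ := sym3_spec h3 ha
  obtain ⟨⟨m, hm⟩, hN1⟩ := r1_three h3
  have hm' : (Ideal.absNorm v.asIdeal - 1) / 3 = m := by omega
  have hmN : Ideal.absNorm v.asIdeal = 3 * m + 1 := by omega
  have hs3 := sym3_cube h3 ha
  -- geometric sum
  have hgeo : (Fintype.card k - 1) / 3 = m * ∑ i ∈ Finset.range f, Ideal.absNorm v.asIdeal ^ i := by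
    have h4 := Nat.geomSum_eq (m := Ideal.absNorm v.asIdeal) (by omega) f
    have h5 : (Ideal.absNorm v.asIdeal - 1) * ∑ i ∈ Finset.range f, Ideal.absNorm v.asIdeal ^ i =
        Ideal.absNorm v.asIdeal ^ f - 1 := by
      have h6 := Commute.geom_sum₂_mul (Commute.one_right (Ideal.absNorm v.asIdeal : ℤ)) f
      simp only [one_pow, mul_one] at h6
      have h7 : 1 ≤ Ideal.absNorm v.asIdeal ^ f := Nat.one_le_pow _ _ (by omega)
      zify [h7, hN1.le]
      linarith
    rw [hq, ← h5, hm, mul_assoc, Nat.mul_div_cancel_left _ (by norm_num)]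
  have hmod : (∑ i ∈ Finset.range f, Ideal.absNorm v.asIdeal ^ i) % 3 = f % 3 := by
    rw [Finset.sum_nat_mod]
    have : ∀ i ∈ Finset.range f, Ideal.absNorm v.asIdeal ^ i % 3 = 1 := by
      intro i _
      rw [Nat.pow_mod, hmN]
      have : (3 * m + 1) % 3 = 1 := by omega
      rw [this, one_pow]
      norm_num
    rw [Finset.sum_congr rfl this]
    simp
  have hpow : ∀ n : ℕ, sym3 v a ^ n = sym3 v a ^ (n % 3) := by
    intro n
    conv_lhs => rw [← Nat.div_add_mod n 3, pow_add, pow_mul, hs3, one_pow, one_mul]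
  have hφa : φ a ^ m = φ (sym3 v a) := by
    rw [← map_pow, ← sub_eq_zero, ← map_sub, ← RingHom.mem_ker, hker, ← hm']
    exact h1
  have hχa : χ (φ a) ^ 3 = 1 := by
    have h : (χ ^ 3) (φ a) = (1 : MulChar k O) (φ a) := by rw [hχ3]
    rw [MulChar.pow_apply' χ (by norm_num : (3 : ℕ) ≠ 0),
      MulChar.one_apply (isUnit_iff_ne_zero.2 ha0)] at h
    exact h
  apply mu3_inj h3 (r1_root hχa)
  · apply r1_root
    rw [← pow_mul, mul_comm, pow_mul, hs3, one_pow]
  · rw [← hker, RingHom.mem_ker, map_sub, sub_eq_zero, hφ, hgeo, pow_mul, hφa, ← map_pow,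
      hpow, hmod, ← hpow]

open Classical in
theorem count_d (k : Type*) [Field k] [Fintype k] (φ : O →+* k) (h3 : φ 3 ≠ 0) (h2 : φ 2 ≠ 0)
    (χ : MulChar k O) (hχ3 : χ ^ 3 = 1) (hχ : χ ≠ 1) (h3c : 3 ∣ Fintype.card k - 1)
    (hφ : ∀ x : k, φ (χ x) = x ^ ((Fintype.card k - 1) / 3)) (hcj : ∀ x : k, cj (χ x) = χ x ^ 2)
    (c : k) (hc : c ≠ 0) :
    (Nat.card {p : k × k // p.2 ^ 2 = p.1 ^ 3 + -c ^ 2} : O) = (Fintype.card k : O) +
      (if IsSquare (-1 : k) then 1 else -1) * (χ c ^ 2 * (χ 4 * jacobiSum χ χ) +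
        χ c * cj (χ 4 * jacobiSum χ χ)) := by
  have h2k : (2 : k) ≠ 0 := by
    rwa [map_ofNat] at h2
  have hS : ∑ y : k, χ (1 + y ^ 2) =
      (if IsSquare (-1 : k) then 1 else -1) * (χ 4 * jacobiSum χ χ) := by
    rw [E1_J k h2k χ]
    split_ifs with hs
    · rw [one_mul]
      obtain ⟨i, hi⟩ := hs
      have hi0 : i ≠ 0 := by
        rintro rfl
        simp at hi
      refine (Fintype.sum_bijective (fun z : k => i * z) ?_ _ _ ?_).symm
      · exact ⟨fun a b hab => mul_left_cancel₀ hi0 hab, fun z => ⟨z / i, by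
          show i * (z / i) = z
          field_simp⟩⟩
      · intro z
        congr 1
        linear_combination (z ^ 2) * hi
    · have h := E1_neg k h2k χ hχ hs
      linear_combination h
  have hSc : ∑ y : k, χ (c ^ 2 + y ^ 2) = χ c ^ 2 * ∑ y : k, χ (1 + y ^ 2) := by
    rw [Finset.mul_sum]
    refine (Fintype.sum_bijective (fun z : k => c * z) ?_ _ _ ?_).symm
    · exact ⟨fun a b hab => mul_left_cancel₀ hc hab, fun z => ⟨z / c, by
        show c * (z / c) = z
        field_simp⟩⟩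
    · intro z
      rw [← map_pow, ← map_mul]
      congr 1
      ring
  rw [Nat.card_eq_fintype_card, Fintype.card_subtype, Finset.card_filter]
  push_cast
  rw [Fintype.sum_prod_type_right]
  simp only
  have h1 : ∀ y : k, ∑ x : k, (if y ^ 2 = x ^ 3 + -c ^ 2 then (1 : O) else 0) =
      1 + χ (c ^ 2 + y ^ 2) + cj (χ (c ^ 2 + y ^ 2)) := by
    intro y
    rw [hcj, ← E1_cnt k φ h3 χ hχ3 h3c hφ (c ^ 2 + y ^ 2)]
    apply Finset.sum_congr rfl
    intro x _
    have h4 : (y ^ 2 = x ^ 3 + -c ^ 2) ↔ (c ^ 2 + y ^ 2 = x ^ 3) := by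
      constructor
      · intro h
        linear_combination h
      · intro h
        linear_combination h
    simp only [h4]
  rw [Finset.sum_congr rfl (fun y _ => h1 y), Finset.sum_add_distrib, Finset.sum_add_distrib,
    ← map_sum cj, hSc, hS]
  have h5 : ∀ z : O, cj ((if IsSquare (-1 : k) then 1 else -1) * z) =
      (if IsSquare (-1 : k) then 1 else -1) * cj z := by
    intro z
    split_ifs <;> simp
  have h6 : cj (χ c ^ 2) = χ c := by
    rw [← hcj, cj_cj]
  rw [map_mul, h5, h6, Finset.sum_const, Finset.card_univ, nsmul_eq_mul, mul_one]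
  ring

theorem pts_d (v : HeightOneSpectrum O) (h3 : (3 : O) ∉ v.asIdeal) (h2 : (2 : O) ∉ v.asIdeal)
    (k : Type*) [Field k] [Finite k] (φ : O →+* k) (hker : RingHom.ker φ = v.asIdeal) (f : ℕ)
    (hf : 0 < f) (hq : Nat.card k = Ideal.absNorm v.asIdeal ^ f) (d : O) (hd : d ∉ v.asIdeal) :
    (Nat.card {p : k × k // p.2 ^ 2 = p.1 ^ 3 + -(φ d) ^ 2} : ℂ) = (Ideal.absNorm v.asIdeal : ℂ) ^ f -
      ((starRingEnd ℂ) (e (sym3 v d)) ^ f * fe v ^ f +
        e (sym3 v d) ^ f * (starRingEnd ℂ) (fe v) ^ f) := by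
  classical
  have := Fintype.ofFinite k
  rw [Nat.card_eq_fintype_card] at hq
  have hφ3 : φ 3 ≠ 0 := by
    intro h
    apply h3
    rw [← hker]
    exact h
  have hφ2 : φ 2 ≠ 0 := by
    intro h
    apply h2
    rw [← hker]
    exact h
  have hφd : φ d ≠ 0 := by
    intro h
    apply hd
    rw [← hker]
    exact h
  have h2k : (2 : k) ≠ 0 := by
    rwa [map_ofNat] at hφ2
  obtain ⟨χ, hχ3, hχ, h3c, hφ, hcj, -⟩ := exists_chi k φ hφ3
  have hJ := neg_jacobi v h3 k φ hker f hf hq χ hχ3 hχ h3c hφ hcj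
  have hJ' : jacobiSum χ χ = -gen v ^ f := by rw [← hJ, neg_neg]
  have hc := count_d k φ hφ3 hφ2 χ hχ3 hχ h3c hφ hcj (φ d) hφd
  have h4 := chi_four v h3 h2 k φ hker f hf hq χ hχ3 hχ h3c hφ hcj
  have hzz := chi_sym v h3 k φ hker f hf hq χ hχ3 hφ d hd
  have hN : (Ideal.absNorm v.asIdeal) = Nm (gen v) := absNorm_gen v h3
  have hsign := E2_sign k h2k (Nm (gen v)) f (by rw [hq, hN])
  set ε : O := ((ZMod.χ₄ (Nm (gen v) : ZMod 4) : ℤ) : O) with hε
  have heta : eta (gen v) = ε * kap (gen v) := rfl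
  have hcjε : cj ε = ε := by
    rw [hε]
    exact map_intCast cj _
  have hz : χ 4 * jacobiSum χ χ = -(cj (kap (gen v)) * gen v) ^ f := by
    rw [h4, hJ', mul_pow]; ring
  have hz' : cj (χ 4 * jacobiSum χ χ) = -(kap (gen v) * cj (gen v)) ^ f := by
    rw [hz, map_neg, map_pow, map_mul, cj_cj]
  have hcs : χ (φ d) ^ 2 = cj (sym3 v d) ^ f := by
    rw [← hcj, hzz, map_pow]
  rw [hsign, hz', hz, hcs, hzz] at hc
  have h := congrArg e hc
  have he1 : fe v = e (ε * (cj (kap (gen v)) * gen v)) := by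
    unfold fe
    rw [← e_cj, heta, map_mul, hcjε, ← map_mul, mul_assoc]
  have he2 : (starRingEnd ℂ) (fe v) = e (ε * (kap (gen v) * cj (gen v))) := by
    rw [he1, ← e_cj, map_mul cj, map_mul cj, hcjε, cj_cj]
  rw [he2, he1, ← e_cj]
  simp only [map_natCast, map_add, map_neg, map_mul, map_pow] at h ⊢
  rw [h, hq]
  push_cast
  ring

end H35Z
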