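import Mathlib
import Pool.Agent.Lib.H19T.A3
import Pool.Agent.Lib.H35Z.B0
import Pool.Agent.Lib.H35Z.P3
import Pool.Agent.Lib.H35Z.V0
import Pool.Agent.Lib.H35Z.V6
import Pool.Agent.Lib.H35Z.V7
import Pool.Agent.Lib.H35Z.V8

/-! Chunk V9 (M): the local Euler factors of E_d at all places. The curve over the completion is Ew d K w = (0,0,0,0,-d^2) (Ew_eq in P3). LEFd_of_one: as in H35T.euler_bad. The valuation of the ring of integers of the completion is Valued.v and on K it is
w.valuation (H55B.valuation_compl, H19Z.zl7_val; see loc_bad2 in H35T/F4.lean). LEFd_two: bad2_local with v(2) = exp(-e), e odd, v(3) = 1 (3 = 1 + 2). LEFd_three: bad_local_b with b = -d^2: v(432 b^2) = v(2)^4 v(3)^3 v(d)^4 = exp(-3) or exp(-6), v(2) = 1, v(d) = 1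
(9 divides d - 1 or d + 1 and v(9) < 1). LEFd_seven: w not above 2, d in w: AdmAt: the ramification index over the rationals is 1; w does not contain 3; let p be the rational prime in w, v(p) = exp(-1) (H19X.EX7 / T1_val like lemmas; or
HeightOneSpectrum valuation and ramificationIdx: H35X.U2_val), d = p^a d', p not dividing d', a >= 1 (d in w) and a <= 2 (cube-free: p^3 does not divide d), v(d') = 1, v(432 b^2) = v(d)^4 = exp(-4 a), a = 1, 2 (v(2) = v(3) = 1).
LEFd_good: copy of loc_good (F4.lean), euler_good and I1_LEF (I1.lean) with good_local_b (b = -d^2 in the ring of integers of the completion, a unit) and pts_d (φ : O -> residue field as there, φ (d : O) = d). The two conjugate numbers are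
A = e(sym3 v d)^f conj(fe v)^f and B = conj(e(sym3 v d))^f (fe v)^f, A B = absNorm v ^ f (e(sym3 v d) has absolute value 1: sym3 v d is a cube root of unity as d is not in v; fe_mul_conj). LEFd_all: 3 in w: PsiT is 0 (H19T a3_zero), LEFd_three; 2 in w: a3_zero, LEFd_two;
d in w: χ w = 0 (hχ.c.zero: w is not coprime to (d)), LEFd_seven; otherwise LEFd_good, PsiT_prime, psiT_prime (PsiT w = conj(fe v)^f), hχ.val. See H35X.LEF6T. -/

open NumberField IsDedekindDomain

namespace H35Z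

open H55B H35T H55N H19T H13E H35X

variable {K : Type} [Field K] [NumberField K]

theorem LEFd_of_one (d : ℤ) (w : HeightOneSpectrum (𝓞 K))
    (h : (Ew d K w).localPolynomial (w.adicCompletionIntegers K) = 1) : LEFd d K w = 1 := by
  have hP : (((Ec d).baseChange K).baseChange (w.adicCompletion K)).localPolynomial
      (w.adicCompletionIntegers K) = 1 := h
  unfold LEFd
  rw [WeierstrassCurve.localEulerFactor, WeierstrassCurve.localPowerSeries, hP]
  have : PowerSeries.invOfUnit ((1 : Polynomial ℤ) : PowerSeries ℤ) 1 = 1 := by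
    have h := PowerSeries.mul_invOfUnit ((1 : Polynomial ℤ) : PowerSeries ℤ) 1 (by simp)
    simpa using h
  rw [this, map_one]
  simp

/-- 1 is not in a prime ideal. -/
theorem v9_one (w : HeightOneSpectrum (𝓞 K)) : (1 : 𝓞 K) ∉ w.asIdeal := fun h =>
  w.isPrime.ne_top ((Ideal.eq_top_iff_one _).2 h)

theorem v9_unit (w : HeightOneSpectrum (𝓞 K)) (x : ℤ) (hx : (x : 𝓞 K) ∉ w.asIdeal) :
    w.valuation K (x : K) = 1 := by
  have h := H55E.L5_val w (x : 𝓞 K) hx
  have e1 : (((x : 𝓞 K)) : K) = (x : K) := map_intCast (algebraMap (𝓞 K) K) x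
  rwa [e1] at h

/-- The valuation of 2 and of 3 if they are not in w. -/
theorem v9_two (w : HeightOneSpectrum (𝓞 K)) (h2 : (2 : 𝓞 K) ∉ w.asIdeal) : w.valuation K (2 : K) = 1 := by
  have h := v9_unit w 2 (by exact_mod_cast h2)
  exact_mod_cast h

theorem v9_three (w : HeightOneSpectrum (𝓞 K)) (h3 : (3 : 𝓞 K) ∉ w.asIdeal) : w.valuation K (3 : K) = 1 := by
  have h := v9_unit w 3 (by exact_mod_cast h3)
  exact_mod_cast h

theorem v9_three_of_two (w : HeightOneSpectrum (𝓞 K)) (h2 : (2 : 𝓞 K) ∈ w.asIdeal) : (3 : 𝓞 K) ∉ w.asIdeal := by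
  intro h3
  apply v9_one w
  have e1 : (1 : 𝓞 K) = 3 - 2 := by norm_num
  rw [e1]
  exact w.asIdeal.sub_mem h3 h2

theorem v9_d_of_three (d : ℤ) (hd : (9 : ℤ) ∣ d - 1 ∨ (9 : ℤ) ∣ d + 1) (w : HeightOneSpectrum (𝓞 K))
    (hw : (3 : 𝓞 K) ∈ w.asIdeal) : (d : 𝓞 K) ∉ w.asIdeal := by
  intro h
  apply v9_one w
  rcases hd with ⟨c, hc⟩ | ⟨c, hc⟩
  · have e1 : (1 : 𝓞 K) = (d : 𝓞 K) - 3 * (3 * c) := by
      have h1 := congrArg (fun z : ℤ => (z : 𝓞 K)) hc
      push_cast at h1
      linear_combination -h1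
    rw [e1]
    exact w.asIdeal.sub_mem h (w.asIdeal.mul_mem_right _ hw)
  · have e1 : (1 : 𝓞 K) = 3 * (3 * c) - (d : 𝓞 K) := by
      have h1 := congrArg (fun z : ℤ => (z : 𝓞 K)) hc
      push_cast at h1
      linear_combination h1
    rw [e1]
    exact w.asIdeal.sub_mem (w.asIdeal.mul_mem_right _ hw) h

theorem v9_d_ne {d : ℤ} (hd : (9 : ℤ) ∣ d - 1 ∨ (9 : ℤ) ∣ d + 1) : d ≠ 0 := by
  rintro rfl
  rcases hd with h | h <;> omega

theorem LEFd_two (d : ℤ) (hd : d ≠ 0) (h2 : OddTwo K) (w : HeightOneSpectrum (𝓞 K))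
    (hw : (2 : 𝓞 K) ∈ w.asIdeal) : LEFd d K w = 1 := by
  have hch := H19Z.compl_charZero K w
  apply LEFd_of_one
  rw [Ew_eq]
  obtain ⟨e, he, hv⟩ := h2 w hw
  refine bad2_local (w.adicCompletionIntegers K) (w.adicCompletion K) (d : w.adicCompletion K)
    (Int.cast_ne_zero.2 hd) e he ?_ ?_
  · rw [← map_ofNat (algebraMap K (w.adicCompletion K)) 2, valuation_compl]
    exact hv
  · rw [← map_ofNat (algebraMap K (w.adicCompletion K)) 3, valuation_compl]
    exact v9_three w (v9_three_of_two w hw)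

/-- The common end: the valuation of the discriminant is not divisible by 12. -/
theorem v9_end (d : ℤ) (w : HeightOneSpectrum (𝓞 K)) (m : ℤ) (hm : ¬ (12 : ℤ) ∣ m)
    (h : w.valuation K (2 ^ 4 * 3 ^ 3 * (d : K) ^ 4) = WithZero.exp m) : LEFd d K w = 1 := by
  apply LEFd_of_one
  rw [Ew_eq]
  apply bad_local_b
  intro u hu h1
  have e1 : (432 * (-(d : w.adicCompletion K) ^ 2) ^ 2 : w.adicCompletion K) =
      algebraMap K (w.adicCompletion K) (2 ^ 4 * 3 ^ 3 * (d : K) ^ 4) := by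
    rw [map_mul, map_mul, map_pow, map_pow, map_pow, map_ofNat, map_ofNat, map_intCast]
    ring
  rw [e1, valuation_compl, h] at h1
  set val := (IsDiscreteValuationRing.maximalIdeal (w.adicCompletionIntegers K)).valuation
    (w.adicCompletion K) u with hval
  have h0 : val ≠ 0 := (Valuation.ne_zero_iff _).mpr hu
  rw [← WithZero.exp_log h0, ← WithZero.exp_nsmul, WithZero.exp_inj] at h1
  apply hm
  refine ⟨WithZero.log val, ?_⟩
  rw [h1, nsmul_eq_mul]
  push_cast
  ring

theorem LEFd_three (d : ℤ) (hd : (9 : ℤ) ∣ d - 1 ∨ (9 : ℤ) ∣ d + 1) (w : HeightOneSpectrum (𝓞 K))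
    (hw : (3 : 𝓞 K) ∈ w.asIdeal) (h3 : w.valuation K (3 : K) = WithZero.exp (-1 : ℤ) ∨
      w.valuation K (3 : K) = WithZero.exp (-2 : ℤ)) : LEFd d K w = 1 := by
  have h2 : w.valuation K (2 : K) = 1 := v9_two w fun h => v9_three_of_two w h hw
  have hvd : w.valuation K (d : K) = 1 := v9_unit w d (v9_d_of_three d hd w hw)
  rcases h3 with h3 | h3
  · apply v9_end d w (-3) (by omega)
    rw [map_mul, map_mul, map_pow, map_pow, map_pow, h2, hvd, h3, one_pow, one_mul, mul_one,
      ← WithZero.exp_nsmul]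
    rfl
  · apply v9_end d w (-6) (by omega)
    rw [map_mul, map_mul, map_pow, map_pow, map_pow, h2, hvd, h3, one_pow, one_mul, mul_one,
      ← WithZero.exp_nsmul]
    rfl

theorem v9_prime {K : Type} [Field K] [NumberField K] (w : HeightOneSpectrum (𝓞 K)) :
    ∃ p : ℕ, p.Prime ∧ (p : 𝓞 K) ∈ w.asIdeal := by
  have hwp := w.isPrime
  have key : ∀ n : ℕ, n ≠ 0 → (n : 𝓞 K) ∈ w.asIdeal → ∃ p : ℕ, p.Prime ∧ (p : 𝓞 K) ∈ w.asIdeal := by
    intro n
    induction n using Nat.strong_induction_on with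
    | _ n ih =>
      intro hn0 hn
      have hn1 : n ≠ 1 := by
        rintro rfl
        rw [Nat.cast_one] at hn
        exact hwp.ne_top ((Ideal.eq_top_iff_one _).2 hn)
      have hmp := Nat.minFac_prime hn1
      have hmul : n.minFac * (n / n.minFac) = n := Nat.mul_div_cancel' (Nat.minFac_dvd n)
      rw [← hmul, Nat.cast_mul] at hn
      rcases hwp.mem_or_mem hn with h | h
      · exact ⟨_, hmp, h⟩
      · refine ih (n / n.minFac) (Nat.div_lt_self (Nat.pos_of_ne_zero hn0) hmp.one_lt) ?_ h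
        intro h0
        rw [h0, mul_zero] at hmul
        exact hn0 hmul.symm
  refine key (Ideal.absNorm w.asIdeal) ?_ (Ideal.absNorm_mem _)
  rw [Ne, Ideal.absNorm_eq_zero_iff]
  exact w.ne_bot

theorem v9_val_p (w : HeightOneSpectrum (𝓞 K)) (he : w.asIdeal.ramificationIdx ℤ = 1) (p : ℤ)
    (hp : Prime p) (hw : (p : 𝓞 K) ∈ w.asIdeal) : w.valuation K (p : K) = WithZero.exp (-1 : ℤ) := by
  have hwm := w.isMaximal
  have hwp := w.isPrime
  let v : HeightOneSpectrum ℤ := ⟨Ideal.span {p}, (Ideal.span_singleton_prime hp.ne_zero).2 hp,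
    by simpa using hp.ne_zero⟩
  have hvm := v.isMaximal
  have hunder : v.asIdeal = w.asIdeal.under ℤ := by
    apply hvm.eq_of_le (Ideal.IsPrime.ne_top inferInstance)
    show Ideal.span {p} ≤ _
    rw [Ideal.span_singleton_le_iff_mem]
    show algebraMap ℤ (𝓞 K) p ∈ w.asIdeal
    rw [eq_intCast]
    exact hw
  have hl : w.asIdeal.LiesOver v.asIdeal := ⟨hunder⟩
  have hram : v.asIdeal.ramificationIdx' w.asIdeal = 1 := by
    rw [Ideal.ramificationIdx'_eq_ramificationIdx v.asIdeal w.asIdeal v.ne_bot]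
    exact he
  have h4 := HeightOneSpectrum.valuation_liesOver (K := ℚ) K v w (algebraMap ℤ ℚ p)
  rw [hram, pow_one] at h4
  have e1 : (p : K) = algebraMap ℚ K (algebraMap ℤ ℚ p) := by
    rw [eq_intCast, map_intCast]
  rw [e1, ← h4, HeightOneSpectrum.valuation_of_algebraMap]
  exact HeightOneSpectrum.intValuation_singleton v hp.ne_zero rfl

theorem LEFd_seven (d : ℤ) (hd : AdmAt d K) (w : HeightOneSpectrum (𝓞 K))
    (h2 : (2 : 𝓞 K) ∉ w.asIdeal) (hw : (d : 𝓞 K) ∈ w.asIdeal) : LEFd d K w = 1 := by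
  obtain ⟨h9, hcf, hw7⟩ := hd
  obtain ⟨he, -⟩ := hw7 w hw h2
  have h3 : (3 : 𝓞 K) ∉ w.asIdeal := fun h => v9_d_of_three d h9 w h hw
  have hd0 := v9_d_ne h9
  obtain ⟨p, hp, hpw⟩ := v9_prime w
  have hpi : Prime (p : ℤ) := Nat.prime_iff_prime_int.1 hp
  have hpw' : ((p : ℤ) : 𝓞 K) ∈ w.asIdeal := by exact_mod_cast hpw
  have hvp := v9_val_p w he p hpi hpw'
  have hfm : FiniteMultiplicity (p : ℤ) d :=
    FiniteMultiplicity.of_prime_left hpi hd0
  obtain ⟨c, hc, hpc⟩ := hfm.exists_eq_pow_mul_and_not_dvd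
  obtain ⟨a, ha⟩ : ∃ a, a = multiplicity (p : ℤ) d := ⟨_, rfl⟩
  rw [← ha] at hc
  have hcw : (c : 𝓞 K) ∉ w.asIdeal := by
    intro hcw
    obtain ⟨x, y, hxy⟩ := (Prime.coprime_iff_not_dvd hpi).2 hpc
    apply v9_one w
    have e1 : (1 : 𝓞 K) = (x : 𝓞 K) * ((p : ℤ) : 𝓞 K) + (y : 𝓞 K) * (c : 𝓞 K) := by
      have h := congrArg (fun z : ℤ => (z : 𝓞 K)) hxy
      push_cast at h
      push_cast
      exact h.symm
    rw [e1]
    exact w.asIdeal.add_mem (w.asIdeal.mul_mem_left _ hpw') (w.asIdeal.mul_mem_left _ hcw)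
  have hvc := v9_unit w c hcw
  have ha0 : a ≠ 0 := by
    rintro rfl
    rw [pow_zero, one_mul] at hc
    rw [hc] at hw
    exact hcw hw
  have ha3 : a < 3 := by
    by_contra h
    rw [not_lt] at h
    have h1 : (p : ℤ) ^ 3 ∣ d := by
      rw [hc]
      exact dvd_mul_of_dvd_left (pow_dvd_pow _ h) _
    exact hpi.not_unit (hcf _ h1)
  have hvd : w.valuation K (d : K) = WithZero.exp (-(a : ℤ)) := by
    rw [hc]
    push_cast
    have hvp' : w.valuation K (p : K) = WithZero.exp (-1 : ℤ) := by exact_mod_cast hvp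
    rw [map_mul, map_pow, hvp', hvc, mul_one, ← WithZero.exp_nsmul, WithZero.exp_inj, nsmul_eq_mul]
    ring
  apply v9_end d w (-(4 * a : ℤ)) (by omega)
  rw [map_mul, map_mul, map_pow, map_pow, map_pow, v9_two w h2, v9_three w h3, hvd, one_pow, one_pow,
    one_mul, one_mul, ← WithZero.exp_nsmul, WithZero.exp_inj, nsmul_eq_mul]
  push_cast
  ring

variable [Algebra F K]

theorem LEFd_good (d : ℤ) (w : HeightOneSpectrum (𝓞 K)) (h3 : (3 : 𝓞 K) ∉ w.asIdeal)
    (h2 : (2 : 𝓞 K) ∉ w.asIdeal) (hd : (d : 𝓞 K) ∉ w.asIdeal) (v : HeightOneSpectrum O)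
    (hv : v.asIdeal = w.asIdeal.under O) :
    LEFd d K w = ArithmeticFunction.ofPowerSeries (Ideal.absNorm w.asIdeal)
        ((1 - PowerSeries.C (e (sym3 v (d : O)) ^ w.asIdeal.inertiaDeg O *
          (starRingEnd ℂ) (fe v) ^ w.asIdeal.inertiaDeg O) * PowerSeries.X)⁻¹ : PowerSeries ℂ) *
      ArithmeticFunction.ofPowerSeries (Ideal.absNorm w.asIdeal)
        ((1 - PowerSeries.C ((starRingEnd ℂ) (e (sym3 v (d : O))) ^ w.asIdeal.inertiaDeg O *
          fe v ^ w.asIdeal.inertiaDeg O) * PowerSeries.X)⁻¹ : PowerSeries ℂ) := by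
  have hlies : w.asIdeal.LiesOver v.asIdeal := ⟨hv⟩
  have hmax : v.asIdeal.IsMaximal := v.isMaximal
  obtain ⟨hfin, hcard⟩ := residue_card K w
  obtain ⟨h3v, h2v⟩ := I1_under w h3 h2 v hv
  have hdv : (d : O) ∉ v.asIdeal := by
    intro h
    apply hd
    rw [hv, Ideal.mem_comap, map_intCast] at h
    exact h
  set f := w.asIdeal.inertiaDeg O with hf
  have hf0 : 0 < f := by
    rw [hf, Ideal.inertiaDeg_eq_of_isMaximal v.asIdeal w.asIdeal,
      ← Ideal.inertiaDeg'_algebraMap]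
    exact Ideal.inertiaDeg'_pos v.asIdeal w.asIdeal
  set φ : O →+* IsLocalRing.ResidueField (w.adicCompletionIntegers K) :=
    ((IsLocalRing.residue (w.adicCompletionIntegers K)).comp
      (algebraMap (𝓞 K) (w.adicCompletionIntegers K))).comp (algebraMap O (𝓞 K)) with hφ
  have hker : RingHom.ker φ = v.asIdeal := by
    rw [hv]
    ext x
    rw [RingHom.mem_ker, hφ, RingHom.comp_apply, ← RingHom.mem_ker, residue_ker, Ideal.mem_comap]
  have hq : Nat.card (IsLocalRing.ResidueField (w.adicCompletionIntegers K)) =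
      Ideal.absNorm v.asIdeal ^ f := by
    rw [hcard, absNorm_inertia K w v hv]
  have hpts := pts_d v h3v h2v (IsLocalRing.ResidueField (w.adicCompletionIntegers K)) φ hker f hf0 hq
    (d : O) hdv
  have hφd : φ (d : O) = IsLocalRing.residue (w.adicCompletionIntegers K) (d : w.adicCompletionIntegers K) := by
    rw [map_intCast, map_intCast]
  have hud : IsUnit (d : w.adicCompletionIntegers K) := by
    by_contra hcon
    apply hd
    rw [← residue_ker K w, RingHom.mem_ker, RingHom.comp_apply, map_intCast,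
      IsLocalRing.residue_eq_zero_iff, IsLocalRing.mem_maximalIdeal]
    exact hcon
  have hcurve : Ew d K w = ⟨0, 0, 0, 0, algebraMap (w.adicCompletionIntegers K) (w.adicCompletion K)
      (-(d : w.adicCompletionIntegers K) ^ 2)⟩ := by
    rw [Ew_eq, map_neg, map_pow, map_intCast]
  have hloc := good_local_b (w.adicCompletionIntegers K) (w.adicCompletion K) (f4_unit K w 3 h3)
    (f4_unit K w 2 h2) (-(d : w.adicCompletionIntegers K) ^ 2) (hud.pow 2).neg
  rw [← hcurve] at hloc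
  have hres : IsLocalRing.residue (w.adicCompletionIntegers K) (-(d : w.adicCompletionIntegers K) ^ 2) =
      -(φ (d : O)) ^ 2 := by
    rw [map_neg, map_pow, hφd]
  rw [hres, hq] at hloc
  obtain ⟨N, hN⟩ : ∃ N, N = Nat.card {p : IsLocalRing.ResidueField (w.adicCompletionIntegers K) ×
    IsLocalRing.ResidueField (w.adicCompletionIntegers K) // p.2 ^ 2 = p.1 ^ 3 + -(φ (d : O)) ^ 2} := ⟨_, rfl⟩
  rw [← hN] at hloc hpts
  obtain ⟨A, hA⟩ : ∃ A, A = e (sym3 v (d : O)) ^ f * (starRingEnd ℂ) (fe v) ^ f := ⟨_, rfl⟩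
  obtain ⟨B, hB⟩ : ∃ B, B = (starRingEnd ℂ) (e (sym3 v (d : O))) ^ f * fe v ^ f := ⟨_, rfl⟩
  rw [← hA, ← hB]
  rw [← hA, ← hB] at hpts
  have hsym : e (sym3 v (d : O)) * (starRingEnd ℂ) (e (sym3 v (d : O))) = 1 := by
    have h5 : ‖e (sym3 v (d : O))‖ = 1 := by
      have h4 : ‖e (sym3 v (d : O))‖ ^ 3 = 1 := by
        rw [← norm_pow, ← map_pow, sym3_cube h3v hdv, map_one, NormOneClass.norm_one]
      exact (pow_eq_one_iff_of_nonneg (norm_nonneg _) (by norm_num)).1 h4
    rw [Complex.mul_conj, Complex.normSq_eq_norm_sq, h5]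
    norm_num
  have hfe := fe_mul_conj v h3v h2v
  have hAB : A * B = (Ideal.absNorm v.asIdeal : ℂ) ^ f := by
    calc A * B = (e (sym3 v (d : O)) * (starRingEnd ℂ) (e (sym3 v (d : O)))) ^ f *
          (fe v * (starRingEnd ℂ) (fe v)) ^ f := by
          rw [hA, hB, mul_pow, mul_pow]
          ring
      _ = _ := by rw [hsym, hfe, one_pow, one_mul]
  have hq1 : 1 < Ideal.absNorm w.asIdeal := H55C.b8_one_lt w
  have hP : ((Ew d K w).localPolynomial (w.adicCompletionIntegers K)).map (Int.castRingHom ℂ) =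
      (1 - Polynomial.C A * Polynomial.X) * (1 - Polynomial.C B * Polynomial.X) := by
    have h1 : ((Ideal.absNorm v.asIdeal ^ f : ℕ) : ℂ) - (N : ℂ) = A + B := by
      rw [hpts]
      push_cast
      ring
    have h2' : ((Ideal.absNorm v.asIdeal ^ f : ℕ) : ℂ) = A * B := by
      push_cast
      rw [hAB]
    have h1' : ((Ideal.absNorm v.asIdeal ^ f : ℕ) : Polynomial ℂ) - (N : Polynomial ℂ) =
        Polynomial.C A + Polynomial.C B := by
      rw [← Polynomial.C_eq_natCast, ← Polynomial.C_eq_natCast, ← map_sub, h1, map_add]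
    have h2'' : ((Ideal.absNorm v.asIdeal ^ f : ℕ) : Polynomial ℂ) = Polynomial.C A * Polynomial.C B := by
      rw [← Polynomial.C_eq_natCast, h2', map_mul]
    rw [hloc]
    simp only [Polynomial.map_add, Polynomial.map_sub, Polynomial.map_one, Polynomial.map_mul,
      Polynomial.map_X, Polynomial.map_pow, map_sub, map_natCast, Polynomial.map_natCast]
    rw [h1', h2'']
    ring
  have hP0 : ((Ew d K w).localPolynomial (w.adicCompletionIntegers K)).coeff 0 = 1 := by
    have := congrArg (fun P : Polynomial ℂ => P.coeff 0) hP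
    simp only [Polynomial.coeff_map, Polynomial.mul_coeff_zero] at this
    simpa using this
  have hdef : LEFd d K w = (((Ew d K w).localEulerFactor (w.adicCompletionIntegers K) :
    ArithmeticFunction ℤ) : ArithmeticFunction ℂ) := rfl
  rw [hdef, WeierstrassCurve.localEulerFactor, (residue_card K w).2, I2_cast_ofPS hq1,
    WeierstrassCurve.localPowerSeries, I2_map_invOfUnit _ hP0, hP, ← map_mul, ← PowerSeries.mul_inv_rev]
  congr 2
  rw [mul_comm]
  simp

theorem LEFd_all (hU : H35N.Unr3 K) (h2 : OddTwo K) (d : ℤ) (hd : AdmAt d K)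
    (χ : Ideal (𝓞 K) →*₀ ℂ) (hχ : DChr d K χ) (w : HeightOneSpectrum (𝓞 K)) :
    LEFd d K w = ArithmeticFunction.ofPowerSeries (Ideal.absNorm w.asIdeal)
        ((1 - PowerSeries.C ((PsiT K * χ) w.asIdeal) * PowerSeries.X)⁻¹ : PowerSeries ℂ) *
      ArithmeticFunction.ofPowerSeries (Ideal.absNorm w.asIdeal)
        ((1 - PowerSeries.C ((starRingEnd ℂ) ((PsiT K * χ) w.asIdeal)) *
          PowerSeries.X)⁻¹ : PowerSeries ℂ) := by
  have hap : (PsiT K * χ) w.asIdeal = PsiT K w.asIdeal * χ w.asIdeal := rfl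
  by_cases h3 : (3 : 𝓞 K) ∈ w.asIdeal
  · rw [hap, a3_zero w (Or.inr h3), zero_mul, map_zero (starRingEnd ℂ), H7_ps, map_one, mul_one]
    exact LEFd_three d hd.1 w h3 (Or.inr (three3 hU w h3))
  · by_cases h2' : (2 : 𝓞 K) ∈ w.asIdeal
    · rw [hap, a3_zero w (Or.inl h2'), zero_mul, map_zero (starRingEnd ℂ), H7_ps, map_one, mul_one]
      exact LEFd_two d (v9_d_ne hd.1) h2 w h2'
    · by_cases hdw : (d : 𝓞 K) ∈ w.asIdeal
      · have hz : χ w.asIdeal = 0 := by
          apply hχ.c.zero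
          intro hc
          rw [Ideal.isCoprime_iff_sup_eq,
            sup_eq_left.2 ((Ideal.span_singleton_le_iff_mem _).2 hdw)] at hc
          exact w.isPrime.ne_top hc
        rw [hap, hz, mul_zero, map_zero (starRingEnd ℂ), H7_ps, map_one, mul_one]
        exact LEFd_seven d hd w h2' hdw
      · obtain ⟨v, hv⟩ := H1_below w
        obtain ⟨hv3, _⟩ := I1_under w h3 h2' v hv
        have e1 : (PsiT K * χ) w.asIdeal = e (sym3 v (d : O)) ^ w.asIdeal.inertiaDeg O *
            (starRingEnd ℂ) (fe v) ^ w.asIdeal.inertiaDeg O := by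
          rw [hap, PsiT_prime w v hv, psiT_prime v hv3, hχ.val w v hv h3 hdw, mul_comm]
        rw [e1, map_mul (starRingEnd ℂ), map_pow (starRingEnd ℂ), map_pow (starRingEnd ℂ),
          Complex.conj_conj]
        exact LEFd_good d w h3 h2' hdw v hv

end H35Z
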