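import Mathlib
import Pool.Agent.Lib.H35X.V0
import Pool.Agent.Lib.H35Z.V9
import Pool.Agent.Lib.H55N.H8

/-! Chunk V10 (M, copy of H35X/V6.lean): the L-function of E_d over fields containing F. LFd_ev: the Euler product (copy of H13E.q6_ev). LFunction_PsiTd: copy of H35X.LFunction_PsiT6 with LEFd_all in place of LEF6T; AI_euler for the characters PsiT K * χ and
its complex conjugate (define the conjugate as ((starRingEnd ℂ) as a monoid with zero homomorphism).comp, like a3_conj K in H19T). L_of_lcd: copy of L_of_lc3 (the norm bound: ‖(PsiT K * χ) a‖^2 <= absNorm a from PsiT_norm_le and CChr3.norm_le, as hb in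
H35X/V5.lean step3). ContD is defined in Defs.lean. -/

open NumberField IsDedekindDomain

namespace H35Z

open H55B H35T H55N H19T H13E H35X

theorem LFd_ev (d : ℤ) (K : Type) [Field K] [NumberField K] (m : ℕ) :
    ∀ᶠ T : Finset (HeightOneSpectrum (𝓞 K)) in Filter.atTop,
      (∏ w ∈ T, LEFd d K w) m = ((((Ec d).baseChange K).LFunction m : ℤ) : ℂ) := by
  have hN : Northcott (fun w : HeightOneSpectrum (𝓞 K) =>
      Nat.card (IsLocalRing.ResidueField (w.adicCompletionIntegers K))) := by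
    have h1 : (fun w : HeightOneSpectrum (𝓞 K) =>
      Nat.card (IsLocalRing.ResidueField (w.adicCompletionIntegers K))) =
        fun w => Ideal.absNorm w.asIdeal := funext fun w => (residue_card K w).2
    rw [h1]
    infer_instance
  have h := ArithmeticFunction.tendsTo_eulerProduct_ofPowerSeries
    (fun w : HeightOneSpectrum (𝓞 K) =>
      Nat.card (IsLocalRing.ResidueField (w.adicCompletionIntegers K)))
    (fun w => (((Ec d).baseChange K).baseChange (w.adicCompletion K)).localPowerSeries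
      (w.adicCompletionIntegers K))
    (fun w => by simp [WeierstrassCurve.localPowerSeries]) m
  have h' : ∀ᶠ T : Finset (HeightOneSpectrum (𝓞 K)) in Filter.atTop,
      (∏ w ∈ T, (((Ec d).baseChange K).baseChange (w.adicCompletion K)).localEulerFactor
        (w.adicCompletionIntegers K)) m = ((Ec d).baseChange K).LFunction m := h
  refine h'.mono fun T hT => ?_
  rw [← hT, ← ArithmeticFunction.intCoe_apply, I2_cast_prod]
  rfl

theorem v10_prod_one {ι : Type*} (s : Finset ι) (f : ι → ArithmeticFunction ℂ)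
    (h : ∀ i ∈ s, f i 1 = 1) : (∏ i ∈ s, f i) 1 = 1 := by
  classical
  induction s using Finset.induction_on with
  | empty => simp
  | insert i s hi ih =>
    rw [Finset.prod_insert hi, ArithmeticFunction.mul_apply_one, h i (Finset.mem_insert_self _ _),
      ih fun j hj => h j (Finset.mem_insert_of_mem hj), one_mul]

theorem v10_LEF_one (d : ℤ) (L : Type) [Field L] [NumberField L] (w : HeightOneSpectrum (𝓞 L)) :
    LEFd d L w 1 = 1 := by
  unfold LEFd WeierstrassCurve.localEulerFactor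
  rw [ArithmeticFunction.intCoe_apply]
  simp [WeierstrassCurve.localPowerSeries]

theorem LFd_one (d : ℤ) (K : Type) [Field K] [NumberField K] :
    ((((Ec d).baseChange K).LFunction 1 : ℤ) : ℂ) = 1 := by
  obtain ⟨s, hs⟩ := (LFd_ev d K 1).exists
  rw [← hs]
  exact v10_prod_one s _ fun w _ => v10_LEF_one d K w

variable {K : Type} [Field K] [NumberField K] [Algebra F K]

theorem PsiTd_norm_le (d : ℤ) (χ : Ideal (𝓞 K) →*₀ ℂ) (hχ : DChr d K χ) (a : Ideal (𝓞 K)) :
    ‖(PsiT K * χ : Ideal (𝓞 K) →*₀ ℂ) a‖ ^ 2 ≤ Ideal.absNorm a := by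
  refine le_trans ?_ (PsiT_norm_le a)
  have h4 : (PsiT K * χ : Ideal (𝓞 K) →*₀ ℂ) a = PsiT K a * χ a := rfl
  rw [h4, norm_mul, mul_pow]
  exact mul_le_of_le_one_right (by positivity) (pow_le_one₀ (norm_nonneg _) (hχ.c.norm_le a))

/-- The complex conjugate of a character. -/
noncomputable def v10_conj (h : Ideal (𝓞 K) →*₀ ℂ) : Ideal (𝓞 K) →*₀ ℂ :=
  (starRingEnd ℂ).toMonoidWithZeroHom.comp h

theorem LFunction_PsiTd (hU : H35N.Unr3 K) (h2 : OddTwo K) (d : ℤ) (hd : AdmAt d K)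
    (χ : Ideal (𝓞 K) →*₀ ℂ) (hχ : DChr d K χ) (n : ℕ) :
    ((((Ec d).baseChange K).LFunction n : ℤ) : ℂ) =
      (AI (PsiT K * χ : Ideal (𝓞 K) →*₀ ℂ) *
        AI (fun a => (starRingEnd ℂ) ((PsiT K * χ : Ideal (𝓞 K) →*₀ ℂ) a))) n := by
  classical
  have hL : ∀ᶠ T : Finset (HeightOneSpectrum (𝓞 K)) in Filter.atTop,
      (∏ w ∈ T, LEFd d K w) n = ((((Ec d).baseChange K).LFunction n : ℤ) : ℂ) := LFd_ev d K n
  have hA : ∀ᶠ T : Finset (HeightOneSpectrum (𝓞 K)) in Filter.atTop,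
      ∀ m ∈ Finset.range (n + 1),
      (∏ w ∈ T, ArithmeticFunction.ofPowerSeries (Ideal.absNorm w.asIdeal)
        ((1 - PowerSeries.C ((PsiT K * χ) w.asIdeal) * PowerSeries.X)⁻¹ : PowerSeries ℂ)) m =
          AI (PsiT K * χ : Ideal (𝓞 K) →*₀ ℂ) m ∧
      (∏ w ∈ T, ArithmeticFunction.ofPowerSeries (Ideal.absNorm w.asIdeal)
        ((1 - PowerSeries.C ((starRingEnd ℂ) ((PsiT K * χ) w.asIdeal)) *
          PowerSeries.X)⁻¹ : PowerSeries ℂ)) m =
          AI (fun a => (starRingEnd ℂ) ((PsiT K * χ : Ideal (𝓞 K) →*₀ ℂ) a)) m := by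
    rw [Filter.eventually_all_finset]
    intro m _
    exact (AI_euler (PsiT K * χ) m).and (AI_euler (v10_conj (PsiT K * χ)) m)
  obtain ⟨T, hT1, hT2⟩ := (hL.and hA).exists
  rw [← hT1]
  have h1 : ∀ w ∈ T, LEFd d K w =
      ArithmeticFunction.ofPowerSeries (Ideal.absNorm w.asIdeal)
        ((1 - PowerSeries.C ((PsiT K * χ) w.asIdeal) * PowerSeries.X)⁻¹ : PowerSeries ℂ) *
      ArithmeticFunction.ofPowerSeries (Ideal.absNorm w.asIdeal)
        ((1 - PowerSeries.C ((starRingEnd ℂ) ((PsiT K * χ) w.asIdeal)) *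
          PowerSeries.X)⁻¹ : PowerSeries ℂ) := fun w _ => LEFd_all hU h2 d hd χ hχ w
  rw [Finset.prod_congr rfl h1, Finset.prod_mul_distrib]
  refine I2_mul_congr ?_ ?_ n le_rfl
  · intro m hm
    exact (hT2 m (Finset.mem_range.2 (by omega))).1
  · intro m hm
    exact (hT2 m (Finset.mem_range.2 (by omega))).2

theorem L_of_lcd (hU : H35N.Unr3 K) (h2 : OddTwo K) (d : ℤ) (hd : AdmAt d K)
    (χ : Ideal (𝓞 K) →*₀ ℂ) (hχ : DChr d K χ) (L : ℂ → ℂ) (h : LC (PsiT K * χ) L) :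
    ∃ Λ : ℂ → ℂ, ContD d K Λ ∧ Λ 1 = L 1 * (starRingEnd ℂ) (L 1) := by
  obtain ⟨hLa, hLs⟩ := h
  refine ⟨fun z => L z * (starRingEnd ℂ) (L ((starRingEnd ℂ) z)),
    ⟨hLa.mul (I4_conj hLa), ?_⟩, ?_⟩
  · intro z hz
    have hz' : 3 / 2 < ((starRingEnd ℂ) z).re := by simpa using hz
    have h0 : (PsiT K * χ : Ideal (𝓞 K) →*₀ ℂ) ⊥ = 0 := (PsiT K * χ).map_zero
    have h1 := AI_LSeries (fun a => (PsiT K * χ : Ideal (𝓞 K) →*₀ ℂ) a) h0 z
      (tm_summable _ (PsiTd_norm_le d χ hχ) z hz)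
    have h2' := AI_LSeries (fun a => (starRingEnd ℂ) ((PsiT K * χ : Ideal (𝓞 K) →*₀ ℂ) a))
      (by rw [h0, map_zero]) z
      (tm_summable _ (fun a => by rw [RCLike.norm_conj]; exact PsiTd_norm_le d χ hχ a) z hz)
    have e1 : ∑' a, tm (fun a => (PsiT K * χ : Ideal (𝓞 K) →*₀ ℂ) a) z a = L z :=
      (hLs z hz).tsum_eq
    have e2 : ∑' a, tm (fun a => (starRingEnd ℂ) ((PsiT K * χ : Ideal (𝓞 K) →*₀ ℂ) a)) z a =
        (starRingEnd ℂ) (L ((starRingEnd ℂ) z)) := by
      have h3 := (Complex.hasSum_conj').2 (hLs _ hz')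
      have h4 := h3.tsum_eq
      rw [← h4]
      exact tsum_congr fun a => H8_tm _ z a
    rw [e1] at h1
    rw [e2] at h2'
    have h3 := ArithmeticFunction.LSeriesHasSum_mul h1 h2'
    have e3 : (fun n => ((((Ec d).baseChange K).LFunction n : ℤ) : ℂ)) = fun n =>
        (AI (PsiT K * χ : Ideal (𝓞 K) →*₀ ℂ) *
          AI (fun a => (starRingEnd ℂ) ((PsiT K * χ : Ideal (𝓞 K) →*₀ ℂ) a))) n :=
      funext fun n => LFunction_PsiTd hU h2 d hd χ hχ n
    have key : LSeriesHasSum (fun n => ((((Ec d).baseChange K).LFunction n : ℤ) : ℂ)) z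
        (L z * (starRingEnd ℂ) (L ((starRingEnd ℂ) z))) := by
      rw [e3]
      exact h3
    exact ⟨key.LSeriesSummable, key.LSeries_eq.symm⟩
  · show L 1 * (starRingEnd ℂ) (L ((starRingEnd ℂ) 1)) = _
    rw [map_one]

end H35Z
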