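import Mathlib
import Pool.Agent.Lib.H35Z.P6
import Pool.Agent.Lib.H35Z.V9

/-! Chunk V12 (M): local factors over fields not containing F (adapt H13E/Q3, Q4, Q5). LEFd_poly: as loc_good0 (Q3.lean) with good_local_b (b = -d^2, a unit of the integers of the completion) and an isomorphism of the residue field with k
(FiniteField.ringEquivOfCardEq; it maps the integer d to d). LEFd_eq: as LEF_eq. LEFd_cube: the two curves y^2 = x^3 - 1 and y^2 = x^3 - d^2 have the same number of points over k if d = c^3 in k, d nonzero in k: (x, y) ↦ (c^2 x, c^3 y); then LEFd_poly and loc_good0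
give the same local polynomial, and the Euler factors are equal (both defined by localEulerFactor with the same residue field). LEFd_mod2: absNorm w % 3 = 2: cubing is bijective on the residue field, so d is a cube: LEFd_cube. LEFd_above: w' of K₀ with
absNorm w' % 3 = 2 and w above w' in K: d is a cube modulo w', so modulo w. LEFd_sq: (copy of LEF_sq) norm_mod3: absNorm w' % 3 = 1: split_one: two primes w₁, w₂ above with the same norm, LEFd_eq; absNorm w' % 3 = 2: split_two, one prime w₁: LEFd d K w₁ = LEF K w₁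
= LEF K₀ w' * LEF K₀ w' (LEF_two) = LEFd * LEFd (LEFd_mod2). LEFd_bad0: w' contains 2, 3 or d: LEFd_two, LEFd_three with val0_three_Z (P6), LEFd_seven. LEFd_badK: w contains 2, 3 or d: admAt_up (B1), three3 (B0). -/

open NumberField IsDedekindDomain

namespace H35Z

open H55B H35T H55N H19T H13E H35X

theorem v12_count (d : ℤ) (k k' : Type) [Field k] [Finite k] [Field k'] [Finite k']
    (h : Nat.card k = Nat.card k') :
    Nat.card {p : k × k // p.2 ^ 2 = p.1 ^ 3 + -(d : k) ^ 2} =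
      Nat.card {p : k' × k' // p.2 ^ 2 = p.1 ^ 3 + -(d : k') ^ 2} := by
  classical
  let _ := Fintype.ofFinite k
  let _ := Fintype.ofFinite k'
  have e : k ≃+* k' := FiniteField.ringEquivOfCardEq (by
    rw [← Nat.card_eq_fintype_card, ← Nat.card_eq_fintype_card, h])
  refine Nat.card_congr ((Equiv.prodCongr e.toEquiv e.toEquiv).subtypeEquiv ?_)
  rintro ⟨x, y⟩
  show y ^ 2 = x ^ 3 + -(d : k) ^ 2 ↔ (e y) ^ 2 = (e x) ^ 3 + -(d : k') ^ 2
  have h1 : (e y) ^ 2 = (e x) ^ 3 + -(d : k') ^ 2 ↔ e (y ^ 2) = e (x ^ 3 + -(d : k) ^ 2) := by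
    rw [map_add, map_neg, map_pow, map_pow, map_pow, map_intCast]
  rw [h1]
  exact e.injective.eq_iff.symm

theorem LEFd_poly (d : ℤ) (K : Type) [Field K] [NumberField K] (w : HeightOneSpectrum (𝓞 K))
    (h3 : (3 : 𝓞 K) ∉ w.asIdeal) (h2 : (2 : 𝓞 K) ∉ w.asIdeal) (hd : (d : 𝓞 K) ∉ w.asIdeal)
    (k : Type) [Field k] [Finite k] (hk : Nat.card k = Ideal.absNorm w.asIdeal) :
    (Ew d K w).localPolynomial (w.adicCompletionIntegers K) =
      1 - Polynomial.C ((Ideal.absNorm w.asIdeal : ℤ) -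
        Nat.card {p : k × k // p.2 ^ 2 = p.1 ^ 3 + -(d : k) ^ 2}) * Polynomial.X +
        Polynomial.C (Ideal.absNorm w.asIdeal : ℤ) * Polynomial.X ^ 2 := by
  obtain ⟨hfin, hcard⟩ := residue_card K w
  have hud : IsUnit (d : w.adicCompletionIntegers K) := by
    by_contra hcon
    apply hd
    rw [← residue_ker K w, RingHom.mem_ker, RingHom.comp_apply, map_intCast,
      IsLocalRing.residue_eq_zero_iff, IsLocalRing.mem_maximalIdeal]
    exact hcon
  have hcurve : Ew d K w = ⟨0, 0, 0, 0, algebraMap (w.adicCompletionIntegers K) (w.adicCompletion K)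
      (-(d : w.adicCompletionIntegers K) ^ 2)⟩ := by
    rw [Ew_eq, map_neg, map_pow, map_intCast]
  have hloc := good_local_b (w.adicCompletionIntegers K) (w.adicCompletion K) (q3_unit K w 3 h3)
    (q3_unit K w 2 h2) (-(d : w.adicCompletionIntegers K) ^ 2) (hud.pow 2).neg
  rw [← hcurve] at hloc
  have hres : IsLocalRing.residue (w.adicCompletionIntegers K) (-(d : w.adicCompletionIntegers K) ^ 2) =
      -(d : IsLocalRing.ResidueField (w.adicCompletionIntegers K)) ^ 2 := by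
    rw [map_neg, map_pow, map_intCast]
  rw [hres, hcard, v12_count d (IsLocalRing.ResidueField (w.adicCompletionIntegers K)) k
    (by rw [hcard, hk])] at hloc
  exact hloc

theorem LEFd_eq (d : ℤ) (K K₁ : Type) [Field K] [NumberField K] [Field K₁] [NumberField K₁]
    (w : HeightOneSpectrum (𝓞 K)) (w₁ : HeightOneSpectrum (𝓞 K₁)) (h3 : (3 : 𝓞 K) ∉ w.asIdeal)
    (h2 : (2 : 𝓞 K) ∉ w.asIdeal) (hd : (d : 𝓞 K) ∉ w.asIdeal) (h3' : (3 : 𝓞 K₁) ∉ w₁.asIdeal)
    (h2' : (2 : 𝓞 K₁) ∉ w₁.asIdeal) (hd' : (d : 𝓞 K₁) ∉ w₁.asIdeal)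
    (hN : Ideal.absNorm w.asIdeal = Ideal.absNorm w₁.asIdeal) : LEFd d K w = LEFd d K₁ w₁ := by
  obtain ⟨hfin, hcard⟩ := residue_card K w
  have e1 := LEFd_poly d K w h3 h2 hd (IsLocalRing.ResidueField (w.adicCompletionIntegers K)) hcard
  have e2 := LEFd_poly d K₁ w₁ h3' h2' hd' (IsLocalRing.ResidueField (w.adicCompletionIntegers K))
    (hcard.trans hN)
  have hdef : LEFd d K w = (((Ew d K w).localEulerFactor (w.adicCompletionIntegers K) :
    ArithmeticFunction ℤ) : ArithmeticFunction ℂ) := rfl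
  have hdef₁ : LEFd d K₁ w₁ = (((Ew d K₁ w₁).localEulerFactor (w₁.adicCompletionIntegers K₁) :
    ArithmeticFunction ℤ) : ArithmeticFunction ℂ) := rfl
  rw [hdef, hdef₁, WeierstrassCurve.localEulerFactor, WeierstrassCurve.localEulerFactor, hcard,
    (residue_card K₁ w₁).2, WeierstrassCurve.localPowerSeries, WeierstrassCurve.localPowerSeries,
    e1, e2, hN]

theorem LEFd_cube (d : ℤ) (K : Type) [Field K] [NumberField K] (w : HeightOneSpectrum (𝓞 K))
    (h3 : (3 : 𝓞 K) ∉ w.asIdeal) (h2 : (2 : 𝓞 K) ∉ w.asIdeal) (hd : (d : 𝓞 K) ∉ w.asIdeal)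
    (c : 𝓞 K) (hc : c ^ 3 - (d : 𝓞 K) ∈ w.asIdeal) : LEFd d K w = LEF K w := by
  obtain ⟨hfin, hcard⟩ := residue_card K w
  obtain ⟨k, hk⟩ : ∃ k, k = IsLocalRing.ResidueField (w.adicCompletionIntegers K) := ⟨_, rfl⟩
  have e1 := LEFd_poly d K w h3 h2 hd (IsLocalRing.ResidueField (w.adicCompletionIntegers K)) hcard
  have e2 := loc_good0 K w h3 h2 (IsLocalRing.ResidueField (w.adicCompletionIntegers K)) hcard
  obtain ⟨φ, hφ⟩ : ∃ φ : 𝓞 K →+* IsLocalRing.ResidueField (w.adicCompletionIntegers K),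
    RingHom.ker φ = w.asIdeal := ⟨_, residue_ker K w⟩
  have hγ : φ c ^ 3 = (d : IsLocalRing.ResidueField (w.adicCompletionIntegers K)) := by
    rw [← hφ, RingHom.mem_ker, map_sub, map_pow, map_intCast, sub_eq_zero] at hc
    exact hc
  have hd0 : (d : IsLocalRing.ResidueField (w.adicCompletionIntegers K)) ≠ 0 := by
    intro h
    apply hd
    rw [← hφ, RingHom.mem_ker, map_intCast]
    exact h
  have hγ0 : φ c ≠ 0 := by
    intro h
    rw [h, zero_pow three_ne_zero] at hγ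
    exact hd0 hγ.symm
  have hcount : Nat.card {p : IsLocalRing.ResidueField (w.adicCompletionIntegers K) ×
      IsLocalRing.ResidueField (w.adicCompletionIntegers K) // p.2 ^ 2 = p.1 ^ 3 +
        -(d : IsLocalRing.ResidueField (w.adicCompletionIntegers K)) ^ 2} =
      Nat.card {p : IsLocalRing.ResidueField (w.adicCompletionIntegers K) ×
      IsLocalRing.ResidueField (w.adicCompletionIntegers K) // p.2 ^ 2 = p.1 ^ 3 - 1} := by
    symm
    refine Nat.card_congr ((Equiv.prodCongr (Equiv.mulLeft₀ (φ c ^ 2) (pow_ne_zero 2 hγ0))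
      (Equiv.mulLeft₀ (φ c ^ 3) (pow_ne_zero 3 hγ0))).subtypeEquiv ?_)
    rintro ⟨x, y⟩
    show y ^ 2 = x ^ 3 - 1 ↔ (φ c ^ 3 * y) ^ 2 = (φ c ^ 2 * x) ^ 3 +
      -(d : IsLocalRing.ResidueField (w.adicCompletionIntegers K)) ^ 2
    rw [← hγ]
    constructor
    · intro h
      linear_combination (φ c ^ 6) * h
    · intro h
      have h6 : φ c ^ 6 ≠ 0 := pow_ne_zero 6 hγ0
      apply mul_left_cancel₀ h6
      linear_combination h
  have hdef : LEFd d K w = (((Ew d K w).localEulerFactor (w.adicCompletionIntegers K) :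
    ArithmeticFunction ℤ) : ArithmeticFunction ℂ) := rfl
  unfold LEF
  rw [hdef, WeierstrassCurve.localEulerFactor, WeierstrassCurve.localEulerFactor,
    WeierstrassCurve.localPowerSeries, WeierstrassCurve.localPowerSeries, e1, e2, hcount]

theorem exists_cube_mod (d : ℤ) (K : Type) [Field K] [NumberField K] (w : HeightOneSpectrum (𝓞 K))
    (h : Ideal.absNorm w.asIdeal % 3 = 2) : ∃ c : 𝓞 K, c ^ 3 - (d : 𝓞 K) ∈ w.asIdeal := by
  classical
  have hwm := w.isMaximal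
  let _ : Field (𝓞 K ⧸ w.asIdeal) := Ideal.Quotient.field _
  have hfin : Finite (𝓞 K ⧸ w.asIdeal) := inferInstance
  let _ := Fintype.ofFinite (𝓞 K ⧸ w.asIdeal)
  obtain ⟨m, hm⟩ : ∃ m, Ideal.absNorm w.asIdeal = 3 * m + 2 := ⟨Ideal.absNorm w.asIdeal / 3, by omega⟩
  have hcard : Ideal.absNorm w.asIdeal = Fintype.card (𝓞 K ⧸ w.asIdeal) := by
    rw [← Nat.card_eq_fintype_card]
    rfl
  refine ⟨(d : 𝓞 K) ^ (2 * m + 1), ?_⟩
  rw [← Ideal.Quotient.eq_zero_iff_mem, map_sub, map_pow, map_pow, sub_eq_zero, ← pow_mul]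
  obtain ⟨x, hx⟩ : ∃ x, x = Ideal.Quotient.mk w.asIdeal (d : 𝓞 K) := ⟨_, rfl⟩
  rw [← hx]
  have h1 : x ^ (3 * m + 2) = x := by
    rw [← hm, hcard]
    exact FiniteField.pow_card x
  have h2 : (2 * m + 1) * 3 = (3 * m + 2) + (3 * m + 1) := by ring
  rw [h2, pow_add, h1, ← pow_succ']
  exact h1

variable {K₀ K : Type} [Field K₀] [NumberField K₀] [Field K] [NumberField K] [Algebra F K] [Algebra K₀ K]

theorem LEFd_sq (hQ : Quad K₀ K) (d : ℤ) (w' : HeightOneSpectrum (𝓞 K₀))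
    (h3 : (3 : 𝓞 K₀) ∉ w'.asIdeal) (h2 : (2 : 𝓞 K₀) ∉ w'.asIdeal) (hd : (d : 𝓞 K₀) ∉ w'.asIdeal)
    (T : Finset (HeightOneSpectrum (𝓞 K)))
    (hT : ∀ w, w ∈ T ↔ w'.asIdeal = w.asIdeal.under (𝓞 K₀)) :
    ∏ w ∈ T, LEFd d K w = LEFd d K₀ w' * LEFd d K₀ w' := by
  classical
  have hmem : ∀ w : HeightOneSpectrum (𝓞 K), w'.asIdeal = w.asIdeal.under (𝓞 K₀) →
      (3 : 𝓞 K) ∉ w.asIdeal ∧ (2 : 𝓞 K) ∉ w.asIdeal ∧ (d : 𝓞 K) ∉ w.asIdeal := by
    intro w hw
    refine ⟨fun hc => h3 ((q5_mem w' w hw 3).2 hc), fun hc => h2 ((q5_mem w' w hw 2).2 hc), fun hc => hd ?_⟩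
    rw [hw, Ideal.mem_comap, map_intCast]
    exact hc
  rcases norm_mod3 w' h3 with h | h
  · obtain ⟨w₁, w₂, hne, hall, hn1, hn2⟩ := split_one hQ w' h3 h
    have hT' : T = {w₁, w₂} := by
      ext w
      rw [hT, hall, Finset.mem_insert, Finset.mem_singleton]
    obtain ⟨a1, a2, a3⟩ := hmem w₁ ((hall w₁).2 (Or.inl rfl))
    obtain ⟨b1, b2, b3⟩ := hmem w₂ ((hall w₂).2 (Or.inr rfl))
    rw [hT', Finset.prod_pair hne, LEFd_eq d K K₀ w₁ w' a1 a2 a3 h3 h2 hd hn1,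
      LEFd_eq d K K₀ w₂ w' b1 b2 b3 h3 h2 hd hn2]
  · obtain ⟨w₁, hall, hn1⟩ := split_two hQ w' h3 h
    have hT' : T = {w₁} := by
      ext w
      rw [hT, hall, Finset.mem_singleton]
    have hw1 := (hall w₁).2 rfl
    obtain ⟨a1, a2, a3⟩ := hmem w₁ hw1
    obtain ⟨c, hc⟩ := exists_cube_mod d K₀ w' h
    have hc' : (algebraMap (𝓞 K₀) (𝓞 K) c) ^ 3 - (d : 𝓞 K) ∈ w₁.asIdeal := by
      rw [hw1, Ideal.mem_comap, map_sub, map_pow, map_intCast] at hc
      exact hc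
    rw [hT', Finset.prod_singleton, LEFd_cube d K w₁ a1 a2 a3 _ hc', LEFd_cube d K₀ w' h3 h2 hd c hc]
    exact LEF_two hQ w' h3 h2 h w₁ hw1

theorem LEFd_bad0 (hU : H35N.Unr3 K) (h2 : OddTwo K₀) (d : ℤ) (hd : AdmAt d K₀)
    (w' : HeightOneSpectrum (𝓞 K₀)) (h : (2 : 𝓞 K₀) ∈ w'.asIdeal ∨ (3 : 𝓞 K₀) ∈ w'.asIdeal ∨
      (d : 𝓞 K₀) ∈ w'.asIdeal) : LEFd d K₀ w' = 1 := by
  by_cases h2' : (2 : 𝓞 K₀) ∈ w'.asIdeal
  · exact LEFd_two d (v9_d_ne hd.1) h2 w' h2'
  · rcases h with h | h | h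
    · exact absurd h h2'
    · exact LEFd_three d hd.1 w' h (val0_three_Z K hU w' h)
    · exact LEFd_seven d hd w' h2' h

theorem LEFd_badK (hU : H35N.Unr3 K) (h2 : OddTwo K) (d : ℤ) (hd : AdmAt d K)
    (w : HeightOneSpectrum (𝓞 K)) (h : (2 : 𝓞 K) ∈ w.asIdeal ∨ (3 : 𝓞 K) ∈ w.asIdeal ∨
      (d : 𝓞 K) ∈ w.asIdeal) : LEFd d K w = 1 := by
  by_cases h2' : (2 : 𝓞 K) ∈ w.asIdeal
  · exact LEFd_two d (v9_d_ne hd.1) h2 w h2'
  · rcases h with h | h | h
    · exact absurd h h2'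
    · exact LEFd_three d hd.1 w h (Or.inr (three3 hU w h))
    · exact LEFd_seven d hd w h2' h

end H35Z
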