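import Mathlib
import Pool.Agent.Lib.H13E.Q6
import Pool.Agent.Lib.H13E.Q7
import Pool.Agent.Lib.H13N.L1
import Pool.Agent.Lib.H35Z.B1
import Pool.Agent.Lib.H35Z.V10
import Pool.Agent.Lib.H35Z.V12

/-! Chunk V13 (M, copy of H35X/V7.lean and H13N/L1, L1b): the L-function of E_d over K₀ (not containing F), K = K₀ F. LFun_sqd: copy of LFun_sq6 with LEFd_sq, LEFd_bad0, LEFd_badK, LFd_ev (bad means: w contains 2, 3 or d; membership of 2, 3, d at w' and w above it agree: q5_mem and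
the same for the integer d). PsiTd_c: (PsiT K * χ)(cI c a) = conj((PsiT K * χ) a) for the nontrivial automorphism c (exists_c, H13E/Q1), by induction over the prime factorization as in H13N.PsiT_c (L1b.lean): at a prime w: PsiT_c for PsiT. For χ: if w contains d then cI c w contains
d and both values of χ are 0 (hχ.c.zero); if w contains 3 both values of PsiT are 0; otherwise hχ.val at w and at c w: v' = the prime below c w is the conjugate of v (l1b_prime shows how), sym3 v' (cj d) = cj (sym3 v d) (H35T.exists_conj; sym3 v' depends only on v';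
cj d = d), the inertia degrees agree (norms), e(cj z) = conj(e z). AI_reald: as AI_real (H13N/L1.lean). LFun0_eqd: sqrt_unique with LFd_one, LFun_sqd, LFunction_PsiTd (admAt_up), AI_reald. L_of_lc0d: copy of L_of_lc03; ContD d K₀ L. -/

open NumberField IsDedekindDomain

namespace H35Z

open H55B H35T H55N H19T H13E H35X H13N

variable {K₀ K : Type} [Field K₀] [NumberField K₀] [Field K] [NumberField K] [Algebra F K] [Algebra K₀ K]

theorem LFun_sqd (hQ : Quad K₀ K) (hU : H35N.Unr3 K) (h2 : OddTwo K) (d : ℤ) (hd : AdmAt d K₀) (n : ℕ) :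
    ((((Ec d).baseChange K).LFunction n : ℤ) : ℂ) =
      (((((Ec d).baseChange K₀).LFunction : ArithmeticFunction ℤ) : ArithmeticFunction ℂ) *
        ((((Ec d).baseChange K₀).LFunction : ArithmeticFunction ℤ) : ArithmeticFunction ℂ)) n := by
  classical
  have h20 : OddTwo K₀ := oddTwo_down h2
  have hdK : AdmAt d K := admAt_up hQ hd
  obtain ⟨s0, hs0⟩ := Filter.eventually_atTop.1 (LFd_ev d K n)
  have hR : ∀ᶠ t : Finset (HeightOneSpectrum (𝓞 K₀)) in Filter.atTop,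
      ∀ m ∈ Finset.range (n + 1),
      (∏ w ∈ t, LEFd d K₀ w) m = ((((Ec d).baseChange K₀).LFunction m : ℤ) : ℂ) := by
    rw [Filter.eventually_all_finset]
    intro m _
    exact LFd_ev d K₀ m
  obtain ⟨t0, ht0⟩ := Filter.eventually_atTop.1 hR
  set ov : HeightOneSpectrum (𝓞 K₀) → Finset (HeightOneSpectrum (𝓞 K)) :=
    fun v => (q6_fin K v).toFinset with hov
  have hmo : ∀ v w, w ∈ ov v ↔ v.asIdeal = w.asIdeal.under (𝓞 K₀) := by
    intro v w
    simp [hov]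
  set t : Finset (HeightOneSpectrum (𝓞 K₀)) := t0 ∪ s0.image (q6_under K₀) with ht
  set T : Finset (HeightOneSpectrum (𝓞 K)) := t.biUnion ov with hTdef
  have hsub : s0 ⊆ T := by
    intro w hw
    rw [hTdef, Finset.mem_biUnion]
    refine ⟨q6_under K₀ w, Finset.mem_union_right _ (Finset.mem_image_of_mem _ hw), ?_⟩
    rw [hmo]
    rfl
  rw [← hs0 T hsub, hTdef, Finset.prod_biUnion]
  · have h3 : ∀ v ∈ t, ∏ w ∈ ov v, LEFd d K w = LEFd d K₀ v * LEFd d K₀ v := by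
      intro v _
      by_cases hb : (2 : 𝓞 K₀) ∈ v.asIdeal ∨ (3 : 𝓞 K₀) ∈ v.asIdeal ∨ (d : 𝓞 K₀) ∈ v.asIdeal
      · rw [LEFd_bad0 hU h20 d hd v hb, mul_one]
        apply Finset.prod_eq_one
        intro w hw
        rw [hmo] at hw
        refine LEFd_badK hU h2 d hdK w (hb.imp (fun h => ?_) (Or.imp (fun h => ?_) (fun h => ?_)))
        · exact (q5_mem v w hw 2).1 h
        · exact (q5_mem v w hw 3).1 h
        · have h4 : (d : 𝓞 K₀) ∈ w.asIdeal.under (𝓞 K₀) := hw ▸ h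
          rw [Ideal.mem_under, map_intCast] at h4
          exact h4
      · rw [not_or, not_or] at hb
        exact LEFd_sq hQ d v hb.2.1 hb.1 hb.2.2 (ov v) (hmo v)
    rw [Finset.prod_congr rfl h3, Finset.prod_mul_distrib]
    have hts : t0 ⊆ t := Finset.subset_union_left
    refine I2_mul_congr ?_ ?_ n le_rfl
    · intro m hm
      rw [ht0 t hts m (Finset.mem_range.2 (by omega)), ArithmeticFunction.intCoe_apply]
    · intro m hm
      rw [ht0 t hts m (Finset.mem_range.2 (by omega)), ArithmeticFunction.intCoe_apply]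
  · intro v _ v' _ hne
    rw [Function.onFun, Finset.disjoint_left]
    intro w hw hw'
    rw [hmo] at hw hw'
    apply hne
    apply HeightOneSpectrum.ext
    rw [hw, hw']

omit [NumberField K₀] in
theorem V13_prime (d : ℤ) (χ : Ideal (𝓞 K) →*₀ ℂ) (hχ : DChr d K χ) (c : K ≃ₐ[K₀] K)
    (hc : ∀ x : O, c (algebraMap O K x) = algebraMap O K (cj x)) (w : HeightOneSpectrum (𝓞 K)) :
    (PsiT K * χ : Ideal (𝓞 K) →*₀ ℂ) (cI c w.asIdeal) =
      (starRingEnd ℂ) ((PsiT K * χ : Ideal (𝓞 K) →*₀ ℂ) w.asIdeal) := by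
  have e1 : ∀ a : Ideal (𝓞 K), (PsiT K * χ : Ideal (𝓞 K) →*₀ ℂ) a = PsiT K a * χ a := fun a => rfl
  rw [e1, e1, map_mul, l1b_prime c hc w]
  by_cases hP : PsiT K w.asIdeal = 0
  · rw [hP, map_zero, zero_mul, zero_mul]
  congr 1
  have hwp := w.isPrime
  have hp : (cI c w.asIdeal).IsPrime := by
    unfold cI
    infer_instance
  have hb : cI c w.asIdeal ≠ ⊥ := by
    intro h
    apply w.ne_bot
    rw [eq_bot_iff]
    intro x hx
    have h1 := (l1b_mem c w.asIdeal x).2 hx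
    rw [h, Ideal.mem_bot, map_eq_zero_iff _ (RingEquiv.injective _)] at h1
    rw [h1]
    exact zero_mem _
  let w' : HeightOneSpectrum (𝓞 K) := ⟨cI c w.asIdeal, hp, hb⟩
  have hvp := w.isPrime.under O
  have hvp' := w'.isPrime.under O
  let v : HeightOneSpectrum O :=
    ⟨w.asIdeal.under O, hvp, Ideal.IsIntegral.comap_ne_bot _ w.ne_bot⟩
  let v' : HeightOneSpectrum O :=
    ⟨w'.asIdeal.under O, hvp', Ideal.IsIntegral.comap_ne_bot _ w'.ne_bot⟩
  have hs : ∀ x : O, RingOfIntegers.mapRingEquiv (c : K ≃+* K) (algebraMap O (𝓞 K) x) =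
      algebraMap O (𝓞 K) (cj x) := by
    intro x
    apply RingOfIntegers.ext
    rw [RingOfIntegers.mapRingEquiv_apply]
    exact hc x
  have hv : ∀ x : O, cj x ∈ v'.asIdeal ↔ x ∈ v.asIdeal := by
    intro x
    show algebraMap O (𝓞 K) (cj x) ∈ cI c w.asIdeal ↔ algebraMap O (𝓞 K) x ∈ w.asIdeal
    rw [← hs, l1b_mem]
  have h2 := PsiT_prime w v rfl
  have h3v : (3 : O) ∉ v.asIdeal := by
    intro h
    apply hP
    rw [h2, psiT_three v h, zero_pow]
    have := w.isMaximal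
    have hl : w.asIdeal.LiesOver v.asIdeal := ⟨rfl⟩
    have h4 := w.asIdeal.inertiaDeg_pos O
    exact h4.ne'
  have h3w : (3 : 𝓞 K) ∉ w.asIdeal := by
    intro h
    apply h3v
    show algebraMap O (𝓞 K) 3 ∈ w.asIdeal
    rw [map_ofNat]
    exact h
  have h3v' : (3 : O) ∉ v'.asIdeal := by
    intro h
    apply h3v
    rw [← hv, map_ofNat]
    exact h
  have h3w' : (3 : 𝓞 K) ∉ w'.asIdeal := by
    intro h
    apply h3v'
    show algebraMap O (𝓞 K) 3 ∈ w'.asIdeal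
    rw [map_ofNat]
    exact h
  have hdd : ((d : ℤ) : 𝓞 K) ∈ w'.asIdeal ↔ ((d : ℤ) : 𝓞 K) ∈ w.asIdeal := by
    have h5 := l1b_mem c w.asIdeal ((d : ℤ) : 𝓞 K)
    rw [map_intCast] at h5
    exact h5
  by_cases hd : ((d : ℤ) : 𝓞 K) ∈ w.asIdeal
  · have hz : ∀ u : HeightOneSpectrum (𝓞 K), ((d : ℤ) : 𝓞 K) ∈ u.asIdeal → χ u.asIdeal = 0 := by
      intro u hu
      apply hχ.c.zero
      intro hco
      rw [Ideal.isCoprime_iff_sup_eq] at hco
      apply u.isPrime.ne_top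
      rw [← hco, sup_eq_left.2]
      rw [Ideal.span_singleton_le_iff_mem]
      exact hu
    have h6 := hz w' (hdd.2 hd)
    have h7 : χ (cI c w.asIdeal) = 0 := h6
    rw [h7, hz w hd, map_zero]
  · have hd' : ((d : ℤ) : 𝓞 K) ∉ w'.asIdeal := fun h => hd (hdd.1 h)
    have h5 := hχ.val w v rfl h3w hd
    have h6 := hχ.val w' v' rfl h3w' hd'
    have h7 : χ (cI c w.asIdeal) = e (sym3 v' (d : O)) ^ w'.asIdeal.inertiaDeg O := h6
    have h3 := absNorm_inertia K w v rfl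
    have h4 := absNorm_inertia K w' v' rfl
    have h8 : Ideal.absNorm w'.asIdeal = Ideal.absNorm w.asIdeal := l1b_norm c _
    have hN : Ideal.absNorm v'.asIdeal = Ideal.absNorm v.asIdeal := l1b_normO _ _ hv
    rw [h8, h3, hN] at h4
    have h9 : 1 < Ideal.absNorm v.asIdeal := by
      have h8 : Ideal.absNorm v.asIdeal ≠ 1 := by
        rw [Ne, Ideal.absNorm_eq_one_iff]
        exact hvp.ne_top
      have h9 : Ideal.absNorm v.asIdeal ≠ 0 := by
        rw [Ne, Ideal.absNorm_eq_zero_iff]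
        exact v.ne_bot
      omega
    have h10 := Nat.pow_right_injective h9 h4
    have hsym : sym3 v' (d : O) = cj (sym3 v (d : O)) := by
      have hmem := hv
      have hcd : cj ((d : ℤ) : O) = ((d : ℤ) : O) := map_intCast cj d
      have hx : ((d : ℤ) : O) ∉ v.asIdeal := by
        intro h
        apply hd
        have h11 : algebraMap O (𝓞 K) ((d : ℤ) : O) ∈ w.asIdeal := h
        rw [map_intCast] at h11
        exact h11
      obtain ⟨h12, h13⟩ := sym3_spec h3v hx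
      apply sym3_uniq h3v'
      · apply r1_root
        rw [← map_pow, sym3_cube h3v hx, map_one]
      · rw [hN]
        have h14 := (hmem _).2 h12
        rw [map_sub, map_pow, hcd] at h14
        exact h14
    rw [h7, h5, hsym, e_cj, map_pow, h10]

theorem PsiTd_c (d : ℤ) (χ : Ideal (𝓞 K) →*₀ ℂ) (hχ : DChr d K χ) (c : K ≃ₐ[K₀] K)
    (hc : ∀ x : O, c (algebraMap O K x) = algebraMap O K (cj x)) (a : Ideal (𝓞 K)) :
    (PsiT K * χ : Ideal (𝓞 K) →*₀ ℂ) (cI c a) =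
      (starRingEnd ℂ) ((PsiT K * χ : Ideal (𝓞 K) →*₀ ℂ) a) := by
  induction a using UniqueFactorizationMonoid.induction_on_prime with
  | h₁ =>
    have : cI c (0 : Ideal (𝓞 K)) = 0 := by
      unfold cI
      rw [Ideal.zero_eq_bot, Ideal.map_bot]
    rw [this, map_zero, map_zero]
  | h₂ x hx =>
    rw [Ideal.isUnit_iff] at hx
    have : cI c (1 : Ideal (𝓞 K)) = 1 := by
      unfold cI
      rw [Ideal.one_eq_top, Ideal.map_top]
    rw [hx, ← Ideal.one_eq_top, this, map_one, map_one]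
  | h₃ a p ha hp ih =>
    have : cI c (p * a) = cI c p * cI c a := by
      unfold cI
      rw [Ideal.map_mul]
    have hp0 : p ≠ ⊥ := hp.ne_zero
    have hp1 : p.IsPrime := Ideal.isPrime_of_prime hp
    rw [this, map_mul, map_mul, map_mul, ih, V13_prime d χ hχ c hc ⟨p, hp1, hp0⟩]

theorem AI_reald (hQ : Quad K₀ K) (d : ℤ) (χ : Ideal (𝓞 K) →*₀ ℂ) (hχ : DChr d K χ) :
    AI (fun a => (starRingEnd ℂ) ((PsiT K * χ : Ideal (𝓞 K) →*₀ ℂ) a)) =
      AI (PsiT K * χ : Ideal (𝓞 K) →*₀ ℂ) := by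
  obtain ⟨c, -, hc, hcc, -, -⟩ := exists_c hQ
  let e : Ideal (𝓞 K) ≃ Ideal (𝓞 K) :=
    ⟨cI c, cI c, l1_invol c hcc, l1_invol c hcc⟩
  ext n
  show (if n = 0 then (0 : ℂ) else ∑ᶠ (a : Ideal (𝓞 K)) (_ : Ideal.absNorm a = n),
    (starRingEnd ℂ) ((PsiT K * χ : Ideal (𝓞 K) →*₀ ℂ) a)) = if n = 0 then (0 : ℂ) else
    ∑ᶠ (a : Ideal (𝓞 K)) (_ : Ideal.absNorm a = n), (PsiT K * χ : Ideal (𝓞 K) →*₀ ℂ) a
  congr 1
  rw [← finsum_comp_equiv e
    (f := fun a => ∑ᶠ (_ : Ideal.absNorm a = n), (PsiT K * χ : Ideal (𝓞 K) →*₀ ℂ) a)]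
  refine finsum_congr fun a => ?_
  show _ = ∑ᶠ (_ : Ideal.absNorm (cI c a) = n), (PsiT K * χ : Ideal (𝓞 K) →*₀ ℂ) (cI c a)
  rw [l1b_norm, PsiTd_c d χ hχ c hc]

theorem V13_one (ψ : Ideal (𝓞 K) →*₀ ℂ) : AI ψ 1 = 1 := by
  show (if (1 : ℕ) = 0 then (0 : ℂ) else ∑ᶠ (a : Ideal (𝓞 K)) (_ : Ideal.absNorm a = 1),
    ψ a) = 1
  rw [if_neg one_ne_zero, finsum_eq_single _ (1 : Ideal (𝓞 K))]
  · have h : Ideal.absNorm (1 : Ideal (𝓞 K)) = 1 := map_one _
    rw [finsum_eq_if, if_pos h, map_one]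
  · intro a ha
    rw [finsum_eq_if, if_neg]
    intro h
    apply ha
    rw [Ideal.one_eq_top]
    exact Ideal.absNorm_eq_one_iff.1 h

theorem LFun0_eqd (hQ : Quad K₀ K) (hU : H35N.Unr3 K) (h2 : OddTwo K) (d : ℤ) (hd : AdmAt d K₀)
    (χ : Ideal (𝓞 K) →*₀ ℂ) (hχ : DChr d K χ) (n : ℕ) :
    ((((Ec d).baseChange K₀).LFunction n : ℤ) : ℂ) = AI (PsiT K * χ : Ideal (𝓞 K) →*₀ ℂ) n := by
  have h := sqrt_unique
    (f := ((((Ec d).baseChange K₀).LFunction : ArithmeticFunction ℤ) : ArithmeticFunction ℂ))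
    (g := AI (PsiT K * χ : Ideal (𝓞 K) →*₀ ℂ)) (by
      rw [ArithmeticFunction.intCoe_apply]
      exact LFd_one d K₀) (V13_one _) (by
      intro n
      rw [← LFun_sqd hQ hU h2 d hd n, LFunction_PsiTd hU h2 d (admAt_up hQ hd) χ hχ n,
        AI_reald hQ d χ hχ])
  rw [← h, ArithmeticFunction.intCoe_apply]

theorem L_of_lc0d (hQ : Quad K₀ K) (hU : H35N.Unr3 K) (h2 : OddTwo K) (d : ℤ) (hd : AdmAt d K₀)
    (χ : Ideal (𝓞 K) →*₀ ℂ) (hχ : DChr d K χ) (L : ℂ → ℂ) (h : LC (PsiT K * χ) L) :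
    ContD d K₀ L := by
  obtain ⟨hLa, hLs⟩ := h
  refine ⟨?_, ?_⟩
  · exact hLa
  intro z hz
  have h0 : (PsiT K * χ : Ideal (𝓞 K) →*₀ ℂ) ⊥ = 0 := (PsiT K * χ : Ideal (𝓞 K) →*₀ ℂ).map_zero
  have h1 := AI_LSeries (fun a => (PsiT K * χ : Ideal (𝓞 K) →*₀ ℂ) a) h0 z
    (tm_summable _ (PsiTd_norm_le d χ hχ) z hz)
  have e1 : ∑' a, tm (fun a => (PsiT K * χ : Ideal (𝓞 K) →*₀ ℂ) a) z a = L z := (hLs z hz).tsum_eq
  rw [e1] at h1
  have e3 : (fun n => ((((Ec d).baseChange K₀).LFunction n : ℤ) : ℂ)) =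
      fun n => AI (PsiT K * χ : Ideal (𝓞 K) →*₀ ℂ) n :=
    funext fun n => LFun0_eqd hQ hU h2 d hd χ hχ n
  have key : LSeriesHasSum (fun n => ((((Ec d).baseChange K₀).LFunction n : ℤ) : ℂ)) z (L z) := by
    rw [e3]
    exact h1
  exact ⟨key.LSeriesSummable, key.LSeries_eq.symm⟩

end H35Z
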