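import Mathlib
import Pool.Agent.Lib.H13N.G3
import Pool.Agent.Lib.H35N.U3
import Pool.Agent.Lib.H35X.Defs

/-! The Galois closure of a 3-extension of F unramified above 3 (G2, G3 of H13N). -/

open NumberField IsDedekindDomain

namespace H35Z

open H55B H35T H13E H35X H13N

/-- N is a Galois extension of the rationals containing F, of 3-power degree over F, unramified above 3. -/
structure GalN3 (N : Type) [Field N] [NumberField N] [Algebra F N] (k : ℕ) : Prop where
  gal : IsGalois ℚ N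
  deg : Module.finrank F N = 3 ^ k
  unr : H35N.Unr3 N

theorem g2_unrZ (L N : Type) [Field L] [NumberField L] [Algebra F L] [Field N] [NumberField N]
    [Algebra F N] (hG : IsGalois F L) (hU : H35N.Unr3 L) (hN : IsGalois ℚ N)
    (hgen : ∀ g : N ≃ₐ[F] N, (∀ (τ : L →+* N) (x : L), g (τ x) = τ x) → g = 1) :
    H35N.Unr3 N := by
  intro P h6P
  have hNF : IsGalois F N := IsGalois.tower_top_of_isGalois ℚ F N
  rw [← g2_card N hNF P, Subgroup.card_eq_one, eq_bot_iff]
  intro g hg
  rw [Subgroup.mem_bot]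
  apply hgen
  intro τ x
  obtain ⟨α, hα⟩ := g1_restrict L N hG g τ
  suffices h1 : α = 1 by
    rw [hα, h1]
    rfl
  let t : 𝓞 L →+* 𝓞 N := RingOfIntegers.mapRingHom τ
  have ht : ∀ y : 𝓞 L, algebraMap (𝓞 N) N (t y) = τ (algebraMap (𝓞 L) L y) := fun y => rfl
  have hPp := P.isPrime
  have hne : P.asIdeal.comap t ≠ ⊥ := by
    intro h
    have hn : (Ideal.absNorm P.asIdeal : 𝓞 L) ∈ P.asIdeal.comap t := by
      rw [Ideal.mem_comap, map_natCast]
      exact Ideal.absNorm_mem _
    rw [h, Ideal.mem_bot, Nat.cast_eq_zero, Ideal.absNorm_eq_zero_iff] at hn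
    exact P.ne_bot hn
  let P' : HeightOneSpectrum (𝓞 L) := ⟨P.asIdeal.comap t, inferInstance, hne⟩
  have hP' : ∀ y, y ∈ P'.asIdeal ↔ t y ∈ P.asIdeal := fun y => Iff.rfl
  have h6' : (3 : 𝓞 L) ∈ P'.asIdeal := by
    rw [hP', map_ofNat]
    exact h6P
  have h6 : P'.asIdeal.ramificationIdx O = 1 := hU P' h6'
  rw [← g2_card L hG P', Subgroup.card_eq_one] at h6
  have h7 : α ∈ P'.asIdeal.inertia (L ≃ₐ[F] L) := by
    intro y
    show t (α • y - y) ∈ P.asIdeal
    have h8 : t (α • y - y) = g • t y - t y := by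
      rw [map_sub]
      congr 1
      apply RingOfIntegers.ext
      exact (hα (y : L)).symm
    rw [h8]
    exact hg (t y)
  rw [h6, Subgroup.mem_bot] at h7
  exact h7

theorem exists_galNZ (L : Type) [Field L] [NumberField L] [Algebra F L] (hG : IsGalois F L) (k : ℕ)
    (hk : Module.finrank F L = 3 ^ k) (hU : H35N.Unr3 L) :
    ∃ (N : Type) (_ : Field N) (_ : NumberField N) (_ : Algebra F N) (_ : Algebra L N)
      (_ : IsScalarTower F L N) (m : ℕ), GalN3 N m := by
  obtain ⟨N, i1, i2, i3, hN, hg⟩ := g3_closure L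
  let i4 : Algebra F N := ((algebraMap L N).comp (algebraMap F L)).toAlgebra
  have i5 : IsScalarTower F L N := IsScalarTower.of_algebraMap_eq fun x => rfl
  have hgen : ∀ g : N ≃ₐ[F] N, (∀ (τ : L →+* N) (x : L), g (τ x) = τ x) → g = 1 := by
    intro g h
    have h1 := hg (g.restrictScalars ℚ) h
    ext x
    exact congrArg (fun σ : N ≃ₐ[ℚ] N => σ x) h1
  obtain ⟨m, hm⟩ := g1_pow L N hG k hk hN hgen
  exact ⟨N, i1, i2, i4, i3, i5, m, hN, hm, g2_unrZ L N hG hU hN hgen⟩

end H35Z
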