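import Mathlib
import Pool.Agent.Lib.H13N.R4
import Pool.Agent.Lib.H35Z.V14b

/-! The 3-part of the discriminant (R3a, R3b, R3, R4 of H13N, W7 of H35T, for fields unramified above 3). -/

open NumberField IsDedekindDomain

namespace H35Z

open H55B H35T H13E H35X H13N

theorem discr_valZ (K : Type) [Field K] [NumberField K] [Algebra F K] (hK : H35N.Unr3 K) :
    ∃ m : ℕ, ¬ 3 ∣ m ∧ (NumberField.discr K).natAbs = 3 ^ Module.finrank F K * m := by
  refine ⟨Ideal.absNorm (differentIdeal O (𝓞 K)), ?_, ?_⟩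
  · intro h3
    have hne : differentIdeal O (𝓞 K) ≠ ⊥ := differentIdeal_ne_bot
    have hfin : Finite (𝓞 K ⧸ differentIdeal O (𝓞 K)) :=
      Ring.HasFiniteQuotients.finiteQuotient hne
    have hcard : 3 ∣ Nat.card (𝓞 K ⧸ differentIdeal O (𝓞 K)) := by
      have := h3
      rwa [Ideal.absNorm_apply, Submodule.cardQuot_apply] at this
    obtain ⟨P, hP, hle, h3P⟩ := W7_max _ hcard
    have hPp : P.IsPrime := hP.isPrime
    have hPne : P ≠ ⊥ := by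
      rintro rfl
      rw [Ideal.mem_bot] at h3P
      norm_num at h3P
    let w : HeightOneSpectrum (𝓞 K) := ⟨P, hPp, hPne⟩
    have he : P.ramificationIdx O = 1 := hK w h3P
    have hun := Ideal.ramificationIdx_eq_one_iff.1 he
    exact (dvd_differentIdeal_iff.1 (Ideal.dvd_iff_le.2 hle)) hun
  · rw [natAbs_discr_eq_absNorm_differentIdeal_mul_natAbs_discr_pow F O K (𝓞 K), W7_discrF,
      mul_comm]

variable {K₀ N : Type} [Field K₀] [NumberField K₀] [Field N] [NumberField N] [Algebra F N] [Algebra K₀ N]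

theorem r3_sqfZ {k : ℕ} (hN : GalN3 N k) (w : HeightOneSpectrum (𝓞 N)) (h3 : (3 : 𝓞 N) ∈ w.asIdeal) :
    ¬ differentIdeal (𝓞 K₀) (𝓞 N) ≤ w.asIdeal ^ 2 := by
  intro h
  have hU := hN.unr
  have hwp := w.isPrime
  -- transitivity
  have e1 : differentIdeal ℤ (𝓞 N) = differentIdeal (𝓞 K₀) (𝓞 N) *
      (differentIdeal ℤ (𝓞 K₀)).map (algebraMap (𝓞 K₀) (𝓞 N)) :=
    differentIdeal_eq_differentIdeal_mul_differentIdeal ℤ (𝓞 K₀) (𝓞 N)
  have e2 : differentIdeal ℤ (𝓞 N) = differentIdeal O (𝓞 N) *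
      (differentIdeal ℤ O).map (algebraMap O (𝓞 N)) :=
    differentIdeal_eq_differentIdeal_mul_differentIdeal ℤ O (𝓞 N)
  have d1 : w.asIdeal ^ 2 ∣ differentIdeal O (𝓞 N) *
      (differentIdeal ℤ O).map (algebraMap O (𝓞 N)) := by
    rw [← e2, e1]
    exact Dvd.dvd.mul_right (Ideal.dvd_iff_le.2 h) _
  -- w is unramified over O
  have he : w.asIdeal.ramificationIdx O = 1 := hU w h3
  have hun := Ideal.ramificationIdx_eq_one_iff.1 he
  have hnd : ¬ w.asIdeal ∣ differentIdeal O (𝓞 N) := fun hd => (dvd_differentIdeal_iff.1 hd) hun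
  have hprime : Prime w.asIdeal := w.prime
  have d2 : w.asIdeal ^ 2 ∣ (differentIdeal ℤ O).map (algebraMap O (𝓞 N)) :=
    hprime.pow_dvd_of_dvd_mul_left 2 hnd d1
  have h1 : algebraMap O (𝓞 N) (2 * om + 1) ∈ w.asIdeal ^ 2 :=
    Ideal.le_of_dvd d2 (Ideal.mem_map_of_mem _ r3_lam)
  have e3 : algebraMap O (𝓞 N) (2 * om + 1) = 2 * algebraMap O (𝓞 N) om + 1 := by
    rw [map_add, map_mul, map_one, map_ofNat]
  rw [e3, ← w.intValuation_le_pow_iff_mem] at h1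
  have h2 := three3 hU w h3
  have h4 : w.intValuation (3 : 𝓞 N) = WithZero.exp (-2 : ℤ) := by
    rw [← h2, ← HeightOneSpectrum.valuation_of_algebraMap (K := N)]
    congr 1
  have h5 := congrArg w.intValuation (t8_sq (K := N))
  rw [Valuation.map_neg, map_pow, h4] at h5
  have h6 := pow_le_pow_left₀ zero_le h1 2
  rw [h5, ← WithZero.exp_nsmul, WithZero.exp_le_exp] at h6
  norm_num at h6

theorem r3_iffZ {k : ℕ} (hN : GalN3 N k) (w : HeightOneSpectrum (𝓞 N)) :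
    differentIdeal (𝓞 K₀) (𝓞 N) ≤ w.asIdeal ↔
      ∃ γ : N ≃ₐ[K₀] N, γ ≠ 1 ∧ ∀ y : 𝓞 N, γ • y - y ∈ w.asIdeal := by
  have hGQ := hN.gal
  have hG : IsGalois K₀ N := IsGalois.tower_top_of_isGalois ℚ K₀ N
  have hwm := w.isMaximal
  have hwp := w.isPrime
  have hl : w.asIdeal.LiesOver (w.asIdeal.under (𝓞 K₀)) := ⟨rfl⟩
  have hum : (w.asIdeal.under (𝓞 K₀)).IsMaximal := Ideal.IsMaximal.under _ _
  have hub : w.asIdeal.under (𝓞 K₀) ≠ ⊥ := Ideal.IsIntegral.comap_ne_bot _ w.ne_bot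
  have hfin : Finite (𝓞 K₀ ⧸ w.asIdeal.under (𝓞 K₀)) :=
    Ideal.finiteQuotientOfFreeOfNeBot _ hub
  have h1 : differentIdeal (𝓞 K₀) (𝓞 N) ≤ w.asIdeal ↔
      w.asIdeal.ramificationIdx (𝓞 K₀) ≠ 1 := by
    rw [← Ideal.dvd_iff_le, dvd_differentIdeal_iff, not_iff_not]
    exact Ideal.ramificationIdx_eq_one_iff.symm
  have h2 : Nat.card (w.asIdeal.inertia (N ≃ₐ[K₀] N)) = w.asIdeal.ramificationIdx (𝓞 K₀) := by
    rw [Ideal.card_inertia_eq_ramificationIdxIn (G := N ≃ₐ[K₀] N)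
      (w.asIdeal.under (𝓞 K₀)) w.asIdeal,
      Ideal.ramificationIdxIn_eq_ramificationIdx (w.asIdeal.under (𝓞 K₀)) w.asIdeal (N ≃ₐ[K₀] N)]
  rw [h1, ← h2]
  constructor
  · intro h
    by_contra hcon
    apply h
    have hI : w.asIdeal.inertia (N ≃ₐ[K₀] N) = ⊥ := by
      rw [eq_bot_iff]
      intro g hg
      rw [Subgroup.mem_bot]
      by_contra hg1
      exact hcon ⟨g, hg1, fun y => hg y⟩
    rw [hI, Subgroup.card_bot]
  · rintro ⟨γ, hγ1, hγ⟩ h5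
    have hc : γ ∈ w.asIdeal.inertia (N ≃ₐ[K₀] N) := fun y => hγ y
    rw [Subgroup.card_eq_one] at h5
    rw [h5, Subgroup.mem_bot] at hc
    exact hγ1 hc

theorem disc_relNZ {k : ℕ} (hN : GalN3 N k) (d : ℕ)
    (hd : ∀ w : HeightOneSpectrum (𝓞 N), (3 : 𝓞 N) ∈ w.asIdeal → Ideal.absNorm w.asIdeal = 3 ^ d) :
    ∃ m : ℕ, ¬ 3 ∣ m ∧ (NumberField.discr N).natAbs =
      (NumberField.discr K₀).natAbs ^ Module.finrank K₀ N * 3 ^ (d * Nat.card (WI K₀ N)) * m := by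
  set D := differentIdeal (𝓞 K₀) (𝓞 N) with hD
  have hDb : D ≠ ⊥ := differentIdeal_ne_bot
  set D3 : Ideal (𝓞 N) := D ⊔ Ideal.span {(3 : 𝓞 N)} with hD3
  have hle : D ≤ D3 := le_sup_left
  have h3D3 : (3 : 𝓞 N) ∈ D3 := Ideal.mem_sup_right (Ideal.mem_span_singleton_self _)
  have hD3b : D3 ≠ ⊥ := by
    intro h
    rw [h] at hle
    exact hDb (le_bot_iff.1 hle)
  obtain ⟨D', hD'⟩ := Ideal.dvd_iff_le.2 hle
  have hD'b : D' ≠ ⊥ := by
    intro h
    apply hDb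
    rw [hD', h, Ideal.mul_bot]
  have hiff : ∀ w : HeightOneSpectrum (𝓞 N), D3 ≤ w.asIdeal ↔ ((3 : 𝓞 N) ∈ w.asIdeal ∧
      ∃ γ : N ≃ₐ[K₀] N, γ ≠ 1 ∧ ∀ y : 𝓞 N, γ • y - y ∈ w.asIdeal) := by
    intro w
    rw [← r3_iffZ hN w, hD3, sup_le_iff, Ideal.span_singleton_le_iff_mem]
    exact and_comm
  have hsq : ∀ w : HeightOneSpectrum (𝓞 N), ¬ D3 ≤ w.asIdeal ^ 2 := by
    intro w h
    have h3 : (3 : 𝓞 N) ∈ w.asIdeal := Ideal.pow_le_self (by norm_num) (h h3D3)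
    exact r3_sqfZ (K₀ := K₀) hN w h3 (hle.trans h)
  have hnorm : Ideal.absNorm D3 = (3 ^ d) ^ Nat.card (WI K₀ N) := by
    apply t8_norm D3 hD3b (t8_sqf D3 hD3b hsq) _ _ hiff
    intro w hw
    exact hd w (hw h3D3)
  refine ⟨Ideal.absNorm D', ?_, ?_⟩
  · intro hdvd
    have hfin : Finite (𝓞 N ⧸ D') := Ideal.finiteQuotientOfFreeOfNeBot _ hD'b
    have hdvd' : 3 ∣ Nat.card (𝓞 N ⧸ D') := by
      rwa [Ideal.absNorm_apply] at hdvd
    obtain ⟨M, hM, hDM, h3M⟩ := W7_max D' hdvd'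
    have hMb : M ≠ ⊥ := by
      rintro rfl
      exact hD'b (le_bot_iff.1 hDM)
    have hle1 : D ≤ D' := by
      rw [hD']
      exact Ideal.mul_le_right (I := D3) (J := D')
    have h3 : D3 ≤ M := by
      rw [hD3, sup_le_iff, Ideal.span_singleton_le_iff_mem]
      exact ⟨hle1.trans hDM, h3M⟩
    refine r3_sqfZ (K₀ := K₀) hN ⟨M, hM.isPrime, hMb⟩ h3M ?_
    rw [sq, ← hD, hD']
    exact Ideal.mul_mono h3 hDM
  · rw [NumberField.natAbs_discr_eq_absNorm_differentIdeal_mul_natAbs_discr_pow K₀ (𝓞 K₀) N (𝓞 N),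
      ← hD]
    conv_lhs => rw [hD']
    rw [map_mul, hnorm, pow_mul]
    ring

theorem r4_invZ {k : ℕ} (hN : GalN3 N k) : 0 < Nat.card (H13N.Inv (N ≃ₐ[ℚ] N)) := by
  have hG := hN.gal
  have h1 : Nat.card (N ≃ₐ[ℚ] N) = 2 * 3 ^ k := by
    rw [IsGalois.card_aut_eq_finrank, T6_rankQ, hN.deg]
  have h2 : 2 ∣ Nat.card (N ≃ₐ[ℚ] N) := by
    rw [h1]
    exact Dvd.intro _ rfl
  obtain ⟨g, hg⟩ := exists_prime_orderOf_dvd_card' 2 h2
  have h3 : Nonempty (H13N.Inv (N ≃ₐ[ℚ] N)) := by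
    refine ⟨g, ?_, ?_⟩
    · rintro rfl
      rw [orderOf_one] at hg
      norm_num at hg
    · have := pow_orderOf_eq_one g
      rwa [hg, pow_two] at this
  have h4 : Finite (H13N.Inv (N ≃ₐ[ℚ] N)) := Subtype.finite
  exact Nat.card_pos

theorem disc0NZ {k : ℕ} (hN : GalN3 N k) : ∃ m : ℕ, ¬ 3 ∣ m ∧
    (NumberField.discr K₀).natAbs = 3 ^ InfinitePlace.nrComplexPlaces K₀ * m := by
  have hGQ := hN.gal
  have hGF : IsGalois F N := IsGalois.tower_top_of_isGalois ℚ F N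
  obtain ⟨d, hd, hW⟩ := prime_normZ hGF hN.unr
  have h1 := real_countNZ (K₀ := K₀) hN
  have h2 := prime_countNZ (K₀ := K₀) hN
  obtain ⟨m, hm, h3⟩ := disc_relNZ (K₀ := K₀) hN d hd
  obtain ⟨m1, hm1, h4⟩ := discr_valZ N hN.unr
  have h5 := InfinitePlace.card_add_two_mul_card_eq_rank K₀
  have h6 := Module.finrank_mul_finrank ℚ K₀ N
  rw [T6_rankQ N, hN.deg, ← h5] at h6
  have hi := r4_invZ hN
  have hD0 : (NumberField.discr K₀).natAbs ≠ 0 := Int.natAbs_ne_zero.2 (NumberField.discr_ne_zero K₀)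
  have hh : 0 < Module.finrank K₀ N := Module.finrank_pos
  rw [hN.deg] at h4 hW
  generalize Nat.card (WI K₀ N) = b at h2 h3
  generalize Nat.card (H13N.Inv (N ≃ₐ[ℚ] N)) = i at h1 h2 hi
  generalize Nat.card (H13N.Inv (N ≃ₐ[K₀] N)) = a at h1 h2
  generalize Nat.card {w : HeightOneSpectrum (𝓞 N) // (3 : 𝓞 N) ∈ w.asIdeal} = W at h2 hW
  generalize InfinitePlace.nrRealPlaces K₀ = r1 at h1 h6
  generalize InfinitePlace.nrComplexPlaces K₀ = r2 at h6 ⊢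
  generalize (NumberField.discr K₀).natAbs = D at h3 hD0 ⊢
  generalize Module.finrank K₀ N = h at h1 h3 h6 hh
  obtain ⟨v, m0, hm0, hD⟩ := Nat.exists_eq_pow_mul_and_not_dvd hD0 3 (by norm_num)
  have h7 : 3 ^ k = v * h + d * b := by
    rw [h4, hD, mul_pow, ← pow_mul] at h3
    refine r4_exp hm1 (m' := m0 ^ h * m) ?_ ?_
    · intro h8
      rcases (Nat.prime_three.dvd_mul).1 h8 with h9 | h9
      · exact hm0 (Nat.prime_three.dvd_of_dvd_pow h9)
      · exact hm h9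
    · rw [h3, pow_add]
      ring
  have h8 : h * i * v + 3 ^ k * a = 3 ^ k * i := by
    calc h * i * v + 3 ^ k * a = h * i * v + d * (W * a) := by rw [← hW]; ring
      _ = h * i * v + d * (b * i) := by rw [h2]
      _ = (v * h + d * b) * i := by ring
      _ = 3 ^ k * i := by rw [← h7]
  have h9 : h * i * r2 + 3 ^ k * a = 3 ^ k * i := by
    have h10 : 2 * (h * i * r2 + 3 ^ k * a) = 2 * (3 ^ k * i) := by
      calc 2 * (h * i * r2 + 3 ^ k * a) = 2 * (h * i * r2) + 2 * 3 ^ k * a := by ring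
        _ = 2 * (h * i * r2) + r1 * h * i := by rw [h1]
        _ = (r1 + 2 * r2) * h * i := by ring
        _ = 2 * 3 ^ k * i := by rw [h6]
        _ = 2 * (3 ^ k * i) := by ring
    exact Nat.eq_of_mul_eq_mul_left (by norm_num) h10
  have h10 : v = r2 := by
    have h11 : h * i * v = h * i * r2 := by omega
    exact Nat.eq_of_mul_eq_mul_left (Nat.mul_pos hh hi) h11
  exact ⟨m0, hm0, by rw [hD, h10]⟩

end H35Z
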