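import Mathlib
import Pool.Agent.Lib.H13E.Q7
import Pool.Agent.Lib.H35N.Core
import Pool.Agent.Lib.H35X.Defs

/-! Chunk V1 (S/M, copy): the core theorem of H35N (H35N/Core.lean, coreT3) with the hypothesis that f is prime to 3 instead of prime to 6: the proof there uses hf6 only to derive hf3. Copy the proof of coreT3 and delete
the derivation of hf3 (all the lemmas used are in H35N; open H35N; make local copies of private lemmas if there are any). -/

open NumberField IsDedekindDomain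

namespace H35Z

open H55B H35T H55N H19T H13E H35X H35N

theorem coreT3' (K : Type) [Field K] [NumberField K] [Algebra F K] (m : ℕ)
    (hm : Module.finrank F K = m + 1) (hK : Unr3 K) (b f : Ideal (𝓞 K)) (hb : b ≠ ⊥)
    (hb6 : IsCoprime b (Ideal.span {6})) (hf : f ≠ ⊥) (hf3 : IsCoprime f (Ideal.span {(3 : 𝓞 K)}))
    (c₀ : 𝓞 K) (hc : c₀ ∈ b) (hc' : c₀ ∉ Ideal.span {2} * b) :
    ∃ Bad : Set (Ideal (𝓞 K)), Bad.Finite ∧
      ∀ (c : Fin (m + 1) × Fin 2 → Ideal (𝓞 K)) (p : Fin (m + 1) × Fin 2 → ℕ), Smooth c p →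
        (∀ i, c i ∉ Bad) → ∃ Z : ℂ → ℂ, AnalyticOnNhd ℂ Z {s | 1 / 2 < s.re} ∧
          (∀ T : Set (𝓞 K), Transv (Ideal.span {4} * f) (XS (Ideal.span {4} * f * b) c₀) T →
            ∀ s : ℂ, 3 / 2 < s.re → HasSum (fun x : T => gw c p x * nfT s (x : 𝓞 K)) (Z s)) ∧
          Int3 (Z 1 / (e H35T.sq3 * R0) ^ (m + 1)) := by
  classical
  obtain ⟨σ, hσ⟩ := emb_exists K m hm
  have W : C1D b f c₀ σ := ⟨hb, hf, hc, hc', hσ⟩
  have h63 : Ideal.span {(6 : 𝓞 K)} ≤ Ideal.span {3} := by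
    rw [Ideal.span_singleton_le_span_singleton]
    exact ⟨2, by norm_num⟩
  have hb3 : IsCoprime b (Ideal.span {(3 : 𝓞 K)}) := by
    rw [Ideal.isCoprime_iff_sup_eq] at hb6 ⊢
    exact top_le_iff.1 (hb6 ▸ sup_le_sup_left h63 b)
  obtain ⟨u, hu1, hu2, hu3, hu4⟩ := units_basis4 hm _ W.J'_ne C1D.J'_le
  obtain ⟨n, r, hr1, hr2, hr3⟩ := split (Ideal.span {algebraMap O (𝓞 K) lam} *
    (Ideal.span {4} * f * b)) (Ideal.span {4} * f * b) W.I0_ne Ideal.mul_le_right c₀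
  obtain ⟨L, hL⟩ := labels_exist3 hm b hb c₀ hc hc' u (fun z => C1D.J'_le2 (hu2 z))
  have hdir := fun (q : (Fin m → Fin (m + 1)) × Equiv.Perm (Fin m)) =>
    directions hm (fun k : Fin (m + 1) => L (kv (fun k => ((q.1 k : ℕ) : ℤ)) q.2 k))
      (labels_indep3 b c₀ u L hL _ _) (Ideal.span {algebraMap O (𝓞 K) lam} *
        (Ideal.span {4} * f * b)) W.I0_ne
  choose d hd1 hd2 hd3 using hdir
  refine ⟨(⋃ q : ((Fin m → Fin (m + 1)) × Equiv.Perm (Fin m)) × Fin (m + 1),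
    {c : Ideal (𝓞 K) | d q.1 q.2 ∈ c}) ∪ {c : Ideal (𝓞 K) | (3 : 𝓞 K) ∈ c}, ?_, ?_⟩
  · refine Set.Finite.union (Set.finite_iUnion fun q => finite_ideals _ (hd2 _ _)) ?_
    exact finite_ideals 3 (OfNat.ofNat_ne_zero 3)
  intro c p hcp hbad
  let D : Ctx K m := ⟨σ, Ideal.span {4} * f * b, c₀, c, p⟩
  have hc0X : c₀ ∈ XS (Ideal.span {4} * f * b) c₀ := by
    change c₀ - c₀ ∈ Ideal.span {4} * f * b
    rw [sub_self]
    exact Ideal.zero_mem _
  have hD : D.Ok := ⟨hσ, fun h => W.ne' hc0X (C1D.four_le h), hcp⟩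
  have hn : 0 < n := by
    obtain ⟨i, -, -⟩ := hr3 c₀ hc0X
    exact Nat.pos_of_ne_zero (fun h => by subst h; exact i.elim0)
  have hp3 : ∀ i, D.p i ≠ 3 := by
    intro i hi
    apply hbad i
    right
    have h1 : ((Ideal.absNorm (c i) : ℕ) : 𝓞 K) ∈ c i := Ideal.absNorm_mem _
    rw [hcp.norm i] at h1
    have h2 : p i = 3 := hi
    rw [h2] at h1
    exact_mod_cast h1
  set I₀ : Ideal (𝓞 K) := Ideal.span {algebraMap O (𝓞 K) lam} * (Ideal.span {4} * f * b) with hI₀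
  have hok : ∀ i, (Zc D I₀ (r i)).Ok := fun i => ⟨hσ, W.ne0 (hr1 i), hcp⟩
  have hlow := labels_low3 D hσ b f c₀ hc u L hL
  have hdirs : ∀ (i : Fin n) (a : Fin m → Fin (m + 1)) (π : Equiv.Perm (Fin m)),
      ∃ w', (Zc D I₀ (r i)).Dirs
        (fun k : Fin (m + 1) => L (kv (fun k => ((a k : ℕ) : ℤ)) π k)) w' := by
    intro i a π
    refine dirs_of (Zc D I₀ (r i)) (hok i) _ (d (a, π)) (hd1 (a, π)) ?_ (hd3 (a, π)) ?_ ?_
      (labels_indep3 b c₀ u L hL _ _)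
    · intro j k hj
      apply hbad j
      left
      exact Set.mem_iUnion.2 ⟨((a, π), k), hj⟩
    · intro x hx k
      obtain ⟨⟨y, hy⟩, -⟩ := hlow (kv (fun k => ((a k : ℕ) : ℤ)) π k) x (hr2 i hx)
      exact ⟨_, hy⟩
    · intro x hx k
      exact (hlow (kv (fun k => ((a k : ℕ) : ℤ)) π k) x (hr2 i hx)).2
  have hu := fun i => W.uok u hu1 hu4 D rfl _ (hr1 i)
  have hw := fun i => hdirs i (fun _ => 0) 1
  choose w hw using hw
  have hG := fun i => gspec_exists (Zc D I₀ (r i)) (hok i) _ (w i) (hw i)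
  choose G hG using hG
  have hz := fun i => zfun (Zc D I₀ (r i)) (hok i) u (hu i) _ (w i) (hw i) (G i) (hG i)
  choose Z hZ1 hZ2 hZ3 using hz
  have hval := fun i => CN_value (Zc D I₀ (r i)) (hok i) u (hu i) _ (w i) (hw i) (G i) (hG i) L
    hL.equi (hdirs i)
  have hint := CN_int3 hK D hD b f hb3 hf3 rfl hp3 u hc L hL I₀ rfl n r hn hr3 hr2 hdirs hok
  have hJ3 : IsCoprime (Ideal.span {(4 : 𝓞 K)} * f) (Ideal.span {algebraMap O (𝓞 K) lam}) := by
    have h3l : Ideal.span {(3 : 𝓞 K)} ≤ Ideal.span {algebraMap O (𝓞 K) lam} := by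
      rw [Ideal.span_singleton_le_span_singleton]
      refine ⟨algebraMap O (𝓞 K) (-(om ^ 2) * lam), ?_⟩
      rw [← map_mul]
      have h : (3 : 𝓞 K) = algebraMap O (𝓞 K) 3 := (map_ofNat _ 3).symm
      rw [h, three_lam]
      congr 1
      ring
    refine IsCoprime.mul_left ?_ ?_
    · have h1 : IsCoprime (Ideal.span {(4 : 𝓞 K)}) (Ideal.span {(3 : 𝓞 K)}) := by
        rw [Ideal.isCoprime_span_singleton_iff]
        exact ⟨1, -1, by norm_num⟩
      rw [Ideal.isCoprime_iff_sup_eq] at h1 ⊢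
      exact top_le_iff.1 (h1 ▸ sup_le_sup_left h3l _)
    · rw [Ideal.isCoprime_iff_sup_eq] at hf3 ⊢
      exact top_le_iff.1 (hf3 ▸ sup_le_sup_left h3l f)
  obtain ⟨ν, hν, hT⟩ := cop3_change hK (Ideal.span {4} * f) (Ideal.span {algebraMap O (𝓞 K) lam} *
    (Ideal.span {4} * f)) W.J_ne hJ3 rfl (XS (Ideal.span {4} * f * b) c₀) W.zero_not W.stab
  refine ⟨fun s => (∑ i, kn (r i) * Z i s) / ν, ?_, ?_, ?_⟩
  · intro s hs
    exact (Finset.analyticAt_fun_sum _ fun i _ => analyticAt_const.mul (hZ1 i s hs)).div_const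
  · intro T hTT s hs
    obtain ⟨T', hT', hφ⟩ := hT T hTT
    refine hφ (fun x => gw c p x * nfT s x) _ ?_ ?_
    · intro v hv x _
      rw [Z3_gw, C1_nfT_inv hσ s v (Ideal.mul_le_left hv)
        (norm_one4 D hσ v (Ideal.mul_le_left hv)) x]
    · exact W.sum_classes n r hr2 hr3 u hu2 hu3 (fun x => gw c p x) s (fun i => Z i s)
        (fun i T hT hbij => hZ2 i T hT hbij s hs) T' hT'
  · show Int3 ((∑ i, kn (r i) * Z i 1) / (ν : ℂ) / (e H35T.sq3 * R0) ^ (m + 1))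
    rw [div_right_comm]
    refine i3_div_unit ?_ (unit3_nat hν)
    rcases le_total 0 (Delta (D.lm u)) with h | h
    · have h1 : ∑ i, kn (r i) * Z i 1 =
          ∑ i, kn (r i) * CN (m + 1) (Zc D I₀ (r i)).Jv (fun a => .A (L a)) := by
        refine Finset.sum_congr rfl fun i _ => ?_
        rw [hZ3, hval i]
        have h2 : |Delta ((Zc D I₀ (r i)).lm u)| = Delta ((Zc D I₀ (r i)).lm u) := abs_of_nonneg h
        rw [h2]
      rw [h1]
      exact hint
    · have h1 : ∑ i, kn (r i) * Z i 1 =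
          -∑ i, kn (r i) * CN (m + 1) (Zc D I₀ (r i)).Jv (fun a => .A (L a)) := by
        rw [← Finset.sum_neg_distrib]
        refine Finset.sum_congr rfl fun i _ => ?_
        rw [hZ3, hval i]
        have h2 : |Delta ((Zc D I₀ (r i)).lm u)| = -Delta ((Zc D I₀ (r i)).lm u) :=
          abs_of_nonpos h
        rw [h2]
        push_cast
        ring
      rw [h1, neg_div]
      exact i3_neg hint

end H35Z
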