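import Mathlib
import Pool.Agent.Lib.H19T.TWF
import Pool.Agent.Lib.H35X.V0
import Pool.Agent.Lib.H35X.V3
import Pool.Agent.Lib.H35Z.V0
import Pool.Agent.Lib.H35Z.V1

/-! Chunk V2 (M, mostly a copy of H35X/V2.lean): the twisted L-value. exists_kappa3, P_ne3: the proofs of exists_kappa6T, P_ne6T in H35X/V2.lean word for word (hχ.six is not used there in an essential way). twist_cong3': the proof of
twist_cong3 with: hU := hB.unr, hnodd := hB.odd (m from Nat.exists_eq_succ_of_ne_zero, finrank positive), coreT3' K m hm hB.unr (b i) f (hcd.ne i) (h6 i) hχ.ne hχ.three ..., exists_kappa3, P_ne3. ΛK is introduced only at the end: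
everything up to Λ does not use it. Integrality: e7 there says Λ 1 / RT^n = (sum κ_i N(b_i) Z_i(1)/RT^n) * (unit)^(-1); κ_i = κ'_i ζ_i is integral (Int3_of_unit (hκu i), ζ^3 = 1 is a unit: Unit3.of_pow or norm), Int3_nat, hZi;
Int3_sum or Int3.add by induction over the finite index type (H35X.Int3.prod is for products; for sums use Finset.sum_induction with Int3.add). chr3_top: coprimality with the unit ideal is automatic (isCoprime_one_right; ⊤ = 1),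
oneI ⊤ a = 1 for a not ⊥. base_L: twist_cong3' with f = ⊤, χ = oneI ⊤; PsiT K * oneI ⊤ = PsiT K (ext a; a = ⊥ or not). -/

open NumberField IsDedekindDomain

namespace H35Z

open H55B H35T H55N H19T H13E H35X

variable {K : Type} [Field K] [NumberField K] [Algebra F K]

theorem exists_kappa3 (f : Ideal (𝓞 K)) (χ : Ideal (𝓞 K) →*₀ ℂ) (hχ : CChr3 f χ)
    (b : Ideal (𝓞 K)) (hb : b ≠ ⊥) (hbc : IsCoprime b (Ideal.span {6} * f)) (c₀ : 𝓞 K) (hc : c₀ ∈ b)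
    (hp : ∀ w : HeightOneSpectrum (𝓞 K), Ideal.span {4} * f ≤ w.asIdeal → c₀ ∉ w.asIdeal * b) :
    ∃ κ κ' ζ : ℂ, Unit3 κ' ∧ ζ ^ 3 = 1 ∧ κ = κ' * ζ ∧
      ∀ x ∈ XS (Ideal.span {4} * f * b) c₀, ∀ a : Ideal (𝓞 K), a * b = Ideal.span {x} →
        x ≠ 0 ∧
        (PsiT K * χ) a = κ * (kl (Algebra.intNorm O (𝓞 K) x) *
          (starRingEnd ℂ) (emb (Algebra.norm F (x : K)))) ∧
        (PsiT K * oneI f) a = κ' * (kl (Algebra.intNorm O (𝓞 K) x) *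
          (starRingEnd ℂ) (emb (Algebra.norm F (x : K)))) := by
  classical
  have h4ne : (4 : 𝓞 K) ≠ 0 := by norm_num
  have h3f : Ideal.span {(4 : 𝓞 K)} * f ≠ ⊥ :=
    mul_ne_zero (fun h => h4ne (Ideal.span_singleton_eq_bot.1 h)) hχ.ne
  have hb6 : IsCoprime b (Ideal.span {(6 : 𝓞 K)}) := hbc.of_mul_right_left
  have hbf : IsCoprime b f := hbc.of_mul_right_right
  have hb2 : IsCoprime b (Ideal.span {(2 : 𝓞 K)}) := by
    have h1 : IsCoprime b (Ideal.span {(6 : 𝓞 K)}) := hb6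
    have h2 : Ideal.span {(6 : 𝓞 K)} ≤ Ideal.span {(2 : 𝓞 K)} := by
      rw [Ideal.span_singleton_le_span_singleton]
      exact ⟨3, by norm_num⟩
    rw [Ideal.isCoprime_iff_sup_eq] at h1 ⊢
    exact top_le_iff.1 (h1 ▸ sup_le_sup_left h2 b)
  have h42 : Ideal.span {(4 : 𝓞 K)} = Ideal.span {(2 : 𝓞 K)} * Ideal.span {(2 : 𝓞 K)} := by
    rw [Ideal.span_singleton_mul_span_singleton]
    norm_num
  have hb4 : IsCoprime b (Ideal.span {(4 : 𝓞 K)}) := by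
    rw [h42]
    exact hb2.mul_right hb2
  have hb3f : IsCoprime b (Ideal.span {(4 : 𝓞 K)} * f) := hb4.mul_right hbf
  -- c₀ is prime to 4 f
  have hcop : IsCoprime (Ideal.span {c₀}) (Ideal.span {(4 : 𝓞 K)} * f) := by
    rw [Ideal.isCoprime_iff_sup_eq]
    by_contra hne
    obtain ⟨M, hM, hle⟩ := Ideal.exists_le_maximal _ hne
    have hMf : Ideal.span {(4 : 𝓞 K)} * f ≤ M := le_sup_right.trans hle
    have hMc : Ideal.span {c₀} ≤ M := le_sup_left.trans hle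
    have hM0 : M ≠ ⊥ := by
      rintro rfl
      exact h3f (le_bot_iff.1 hMf)
    have hbM : ¬ b ≤ M := by
      intro h
      rw [Ideal.isCoprime_iff_sup_eq] at hb3f
      exact hM.ne_top (top_le_iff.1 (hb3f ▸ sup_le h hMf))
    obtain ⟨d, hd⟩ := Ideal.dvd_iff_le.2 ((Ideal.span_singleton_le_iff_mem b).2 hc)
    rw [hd] at hMc
    have hdM : d ≤ M := (hM.isPrime.mul_le.1 hMc).resolve_left hbM
    refine hp ⟨M, hM.isPrime, hM0⟩ hMf ?_
    have h1 : c₀ ∈ b * d := by rw [← hd]; exact Ideal.mem_span_singleton_self _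
    rw [mul_comm]
    exact Ideal.mul_mono_right hdM h1
  have hXcop : ∀ x ∈ XS (Ideal.span {4} * f * b) c₀,
      IsCoprime (Ideal.span {x}) (Ideal.span {(4 : 𝓞 K)} * f) := by
    intro x hx
    have hx' : x - c₀ ∈ Ideal.span {(4 : 𝓞 K)} * f :=
      Ideal.mul_le_left (show x - c₀ ∈ Ideal.span {(4 : 𝓞 K)} * f * b from hx)
    rw [Ideal.isCoprime_iff_exists] at hcop ⊢
    obtain ⟨i, hi, j, hj, hij⟩ := hcop
    obtain ⟨r, rfl⟩ := Ideal.mem_span_singleton.1 hi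
    refine ⟨x * r, Ideal.mul_mem_right _ _ (Ideal.mem_span_singleton_self x),
      j - (x - c₀) * r, Ideal.sub_mem _ hj (Ideal.mul_mem_right _ _ hx'), ?_⟩
    linear_combination hij
  have hc3 : IsCoprime (Ideal.span {c₀}) (Ideal.span {(4 : 𝓞 K)}) := hcop.of_mul_right_left
  have hne0 : ∀ x : 𝓞 K, IsCoprime (Ideal.span {x}) (Ideal.span {(4 : 𝓞 K)}) → x ≠ 0 := by
    rintro x hx rfl
    rw [Ideal.isCoprime_span_singleton_iff] at hx
    obtain ⟨r, t, hrt⟩ := hx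
    rw [mul_zero, zero_add] at hrt
    have := H14_not_unit K 4 (by norm_num)
    rw [Nat.cast_ofNat] at this
    exact this (IsUnit.of_mul_eq_one _ ((mul_comm _ _).trans hrt))
  have hc0 : c₀ ≠ 0 := hne0 c₀ hc3
  have hcN : IsCoprime (Algebra.intNorm O (𝓞 K) c₀) 2 := by
    have h1 : IsCoprime (Ideal.span {c₀}) (Ideal.span {(2 : 𝓞 K)}) := by
      rw [h42] at hc3
      exact hc3.of_mul_right_left
    rw [Ideal.isCoprime_span_singleton_iff] at h1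
    obtain ⟨r, t, hrt⟩ := h1
    have h2 := norm_congr 2 (r * c₀) 1 (by
      rw [Ideal.mem_span_singleton, map_ofNat]
      exact ⟨-t, by linear_combination hrt⟩)
    rw [map_mul, map_one] at h2
    obtain ⟨s, hs⟩ := h2
    exact ⟨Algebra.intNorm O (𝓞 K) r, -s, by linear_combination hs⟩
  have hPb : PsiT K b ≠ 0 := (PsiT_ne b hb).2 hb6
  have hχb := hχ.val b hb hbf
  have hc0' : Ideal.span {c₀} ≠ ⊥ := fun h => hc0 (Ideal.span_singleton_eq_bot.1 h)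
  have hχc := hχ.val (Ideal.span {c₀}) hc0' hcop.of_mul_right_right
  refine ⟨e (eta (Algebra.intNorm O (𝓞 K) c₀)) * (PsiT K b)⁻¹ * (χ (Ideal.span {c₀}) * χ b ^ 2),
    e (eta (Algebra.intNorm O (𝓞 K) c₀)) * (PsiT K b)⁻¹, χ (Ideal.span {c₀}) * χ b ^ 2,
    (Unit3_eta _ hcN).mul (Unit3_PsiT b hb hb6).inv, ?_, rfl, ?_⟩
  · calc (χ (Ideal.span {c₀}) * χ b ^ 2) ^ 3 = χ (Ideal.span {c₀}) ^ 3 * (χ b ^ 3) ^ 2 := by ring
      _ = 1 := by rw [hχc, hχb]; norm_num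
  · intro x hx a hab
    have hxc := hXcop x hx
    have hx0 : x ≠ 0 := hne0 x hxc.of_mul_right_left
    have hx3 : x - c₀ ∈ Ideal.span {(4 : 𝓞 K)} :=
      Ideal.mul_le_left (Ideal.mul_le_left
        (show x - c₀ ∈ Ideal.span {(4 : 𝓞 K)} * f * b from hx))
    have hxf : x - c₀ ∈ f := by
      have h1 : x - c₀ ∈ Ideal.span {(4 : 𝓞 K)} * f :=
        Ideal.mul_le_left (show x - c₀ ∈ Ideal.span {(4 : 𝓞 K)} * f * b from hx)
      exact Ideal.mul_le_right h1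
    have hηx : eta (Algebra.intNorm O (𝓞 K) x) = eta (Algebra.intNorm O (𝓞 K) c₀) := by
      apply H19T.eta_congr
      apply norm_congr
      rw [map_ofNat]
      exact hx3
    have hPx := PsiT_span x
    rw [hηx] at hPx
    have ha0 : a ≠ ⊥ := by
      rintro rfl
      apply hx0
      rw [← Ideal.span_singleton_eq_bot, ← hab]
      exact zero_mul b
    have haf : IsCoprime a f := by
      have h1 : IsCoprime (a * b) f := by rw [hab]; exact hxc.of_mul_right_right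
      exact h1.of_mul_left_left
    have hPa : PsiT K a = e (eta (Algebra.intNorm O (𝓞 K) c₀)) * (PsiT K b)⁻¹ *
        (kl (Algebra.intNorm O (𝓞 K) x) *
          (starRingEnd ℂ) (emb (Algebra.norm F (x : K)))) := by
      have h1 : PsiT K a * PsiT K b = PsiT K (Ideal.span {x}) := by rw [← map_mul, hab]
      rw [hPx] at h1
      field_simp
      rw [h1]
      ring
    have hχa : χ a = χ (Ideal.span {c₀}) * χ b ^ 2 := by
      have h1 : χ a * χ b = χ (Ideal.span {x}) := by rw [← map_mul, hab]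
      rw [hχ.per x c₀ hx0 hc0 hxc.of_mul_right_right hxf] at h1
      calc χ a = (χ a * χ b) * χ b ^ 2 := by
            rw [mul_assoc, ← pow_succ', hχb, mul_one]
        _ = _ := by rw [h1]
    refine ⟨hx0, ?_, ?_⟩
    · show PsiT K a * χ a = _
      rw [hPa, hχa]
      ring
    · show PsiT K a * oneI f a = _
      have h1 : oneI f a = 1 := if_pos ⟨ha0, haf⟩
      rw [hPa, h1, mul_one]

theorem P_ne3 (f : Ideal (𝓞 K)) (χ : Ideal (𝓞 K) →*₀ ℂ) (hχ : CChr3 f χ) (c : Ideal (𝓞 K)) (p : ℕ)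
    (hp : p.Prime) (hc : Ideal.absNorm c = p) (s : ℂ) (hs : s.re < 3 / 2) :
    1 - (p : ℂ) * tm (PsiT K * χ : Ideal (𝓞 K) →*₀ ℂ) s c ≠ 0 := by
  have hp0 : (0 : ℝ) < p := by exact_mod_cast hp.pos
  have hp1 : (1 : ℝ) < p := by exact_mod_cast hp.one_lt
  have hc0 : c ≠ ⊥ := by
    intro h
    rw [h, Ideal.absNorm_bot] at hc
    exact hp.ne_zero hc.symm
  intro h
  have h1 : (p : ℂ) * tm (PsiT K * χ : Ideal (𝓞 K) →*₀ ℂ) s c = 1 := by linear_combination -h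
  have h2 : tm (PsiT K * χ : Ideal (𝓞 K) →*₀ ℂ) s c = PsiT K c * χ c * (p : ℂ) ^ (-s) := by
    unfold tm
    rw [hc]
    rfl
  rw [h2] at h1
  have h3 : PsiT K c ≠ 0 := by
    intro h0
    rw [h0] at h1
    simp at h1
  have h4 : χ c ≠ 0 := by
    intro h0
    rw [h0] at h1
    simp at h1
  have h5 : ‖χ c‖ = 1 := by
    have hcop : IsCoprime c f := by
      by_contra hn
      exact h4 (hχ.zero c hn)
    have h := hχ.val c hc0 hcop
    have h' := congrArg norm h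
    rw [norm_pow, NormOneClass.norm_one] at h'
    exact (pow_eq_one_iff_of_nonneg (norm_nonneg _) (by norm_num)).1 h'
  have h6 : ‖PsiT K c‖ ^ 2 = p := by
    rw [PsiT_norm c hc0 ((PsiT_ne c hc0).1 h3), hc]
  have h7 : ‖PsiT K c‖ = (p : ℝ) ^ (1 / 2 : ℝ) := by
    rw [← Real.sqrt_eq_rpow, ← h6, Real.sqrt_sq (norm_nonneg _)]
  have h8 := congrArg norm h1
  rw [norm_mul, norm_mul, norm_mul, h5, h7, NormOneClass.norm_one, Complex.norm_natCast,
    Complex.norm_natCast_cpow_of_pos hp.pos, mul_one, Complex.neg_re] at h8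
  have h9 : (p : ℝ) * ((p : ℝ) ^ (1 / 2 : ℝ) * (p : ℝ) ^ (-s.re)) = (p : ℝ) ^ (3 / 2 - s.re) := by
    have h11 : (3 / 2 - s.re) = 1 + (1 / 2 + -s.re) := by ring
    rw [h11, Real.rpow_add hp0, Real.rpow_add hp0, Real.rpow_one]
  rw [h9] at h8
  have h10 : 1 < (p : ℝ) ^ (3 / 2 - s.re) := Real.one_lt_rpow hp1 (by linarith)
  rw [h8] at h10
  exact lt_irrefl _ h10

theorem V2_int_zero : Int3 (0 : ℂ) := fun V _ => by
  rw [map_zero]
  exact zero_le_one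

theorem V2_int_sum {ι : Type} [Fintype ι] (f : ι → ℂ) (h : ∀ i, Int3 (f i)) : Int3 (∑ i, f i) :=
  Finset.sum_induction _ Int3 (fun _ _ h1 h2 => Int3.add h1 h2) V2_int_zero fun i _ => h i

theorem twist_cong3' (hB : BaseF K) (f : Ideal (𝓞 K)) (χ : Ideal (𝓞 K) →*₀ ℂ) (hχ : CChr3 f χ) :
    ∃ (Λ : ℂ → ℂ) (S : Finset (HeightOneSpectrum (𝓞 K))), LC (PsiT K * χ) Λ ∧
      (∀ w, w ∈ S ↔ f ≤ w.asIdeal) ∧ Int3 (Λ 1 / RT ^ Module.finrank F K) ∧
      ∀ ΛK : ℂ → ℂ, LC (PsiT K) ΛK → ∃ u r : ℂ, Unit3 u ∧ Max3 r ∧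
        Λ 1 / RT ^ Module.finrank F K = u * ((∏ w ∈ S, (1 - tm (PsiT K) 1 w.asIdeal)) *
          (ΛK 1 / RT ^ Module.finrank F K)) + r := by
  classical
  have hnodd : Odd (Module.finrank F K) := hB.odd
  obtain ⟨m, hm⟩ : ∃ m, Module.finrank F K = m + 1 := Nat.exists_eq_succ_of_ne_zero hnodd.pos.ne'
  have hodd : Odd (m + 1) := by rwa [hm] at hnodd
  obtain ⟨ι, hι, b, c₀, T, hcd⟩ := exists_CDT f hχ.ne
  have h6 : ∀ i, IsCoprime (b i) (Ideal.span {(6 : 𝓞 K)}) := fun i => (hcd.cop i).of_mul_right_left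
  have h2 : ∀ i, c₀ i ∉ Ideal.span {2} * b i := fun i => TWFT_two (hcd.prim i)
  have hcore := fun i => coreT3' K m hm hB.unr (b i) f (hcd.ne i) (h6 i) hχ.ne hχ.three (c₀ i) (hcd.mem i)
    (h2 i)
  choose Bad hBad hcore using hcore
  have hnop := fun i => H35N.nopolesT K m hm hodd (b i) f (hcd.ne i) hχ.ne (c₀ i)
    (hcd.mem i) (h2 i)
  choose Z0 hZ0 hZ0s using hnop
  obtain ⟨c, p, hs, hcb, hun⟩ := exists_smoothT K hnodd m
    ((⋃ i, Bad i) ∪ ⋃ i, {w : Ideal (𝓞 K) | b i ≤ w})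
    ((Set.finite_iUnion hBad).union (Set.finite_iUnion fun i => TWF_finite (b i) (hcd.ne i)))
  have hcp : ∀ j, (c j).IsPrime := fun j => (hcb j).1
  have hbc : ∀ i j, IsCoprime (b i) (c j) := by
    intro i j
    rw [Ideal.isCoprime_iff_sup_eq]
    by_contra h
    have hmax : (c j).IsMaximal := (hcp j).isMaximal (TW_ne hs j)
    have h1 : c j ≤ b i ⊔ c j := le_sup_right
    have h2 : b i ⊔ c j = c j := (hmax.eq_of_le h h1).symm
    apply (hcb j).2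
    refine Or.inr (Set.mem_iUnion.2 ⟨i, ?_⟩)
    show b i ≤ c j
    rw [← h2]
    exact le_sup_left
  have hZex := fun i => hcore i c p hs (fun j hj => (hcb j).2 (Or.inl (Set.mem_iUnion.2 ⟨i, hj⟩)))
  choose Z hZa hZs hZi using hZex
  have hkap := fun i => exists_kappa3 f χ hχ (b i) (hcd.ne i) (hcd.cop i) (c₀ i) (hcd.mem i)
    (hcd.prim i)
  choose κ κ' ζ hκu hζ hκζ hκ using hkap
  have hC : CoefT f ι b c₀ (PsiT K * χ) κ := coef_mulT hχ.zero hχ.norm_le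
    (fun i x hx a ha => ⟨(hκ i x hx a ha).1, (hκ i x hx a ha).2.1⟩)
  have hC' : CoefT f ι b c₀ (PsiT K * oneI f) κ' := coef_mulT (oneI_zero f) (oneI_norm_le f)
    (fun i x hx a ha => ⟨(hκ i x hx a ha).1, (hκ i x hx a ha).2.2⟩)
  have hNb : ∀ i, Ideal.absNorm (b i) ≠ 0 := fun i => by
    rw [Ne, Ideal.absNorm_eq_zero_iff]
    exact hcd.ne i
  -- the smoothed functions
  have hZsum : ∀ i s, 3 / 2 < s.re → HasSum (fun x : T i => gw c p x * nfT s (x : 𝓞 K)) (Z i s) :=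
    fun i s hs' => hZs i (T i) (hcd.trans i) s hs'
  have e1 : ∀ s : ℂ, 3 / 2 < s.re →
      (∏ j, (1 - (p j : ℂ) * tm (PsiT K * χ : Ideal (𝓞 K) →*₀ ℂ) s (c j))) *
      ∑' a, tm (PsiT K * χ : Ideal (𝓞 K) →*₀ ℂ) s a =
        ∑ i, κ i * (Ideal.absNorm (b i) : ℂ) ^ s * Z i s :=
    fun s hs' => series_eqT hcd hC hs hcp hbc Z s hs' fun i => hZsum i s hs'
  have e2 : ∀ s : ℂ, 3 / 2 < s.re →
      (∏ j, (1 - (p j : ℂ) * tm (PsiT K * oneI f : Ideal (𝓞 K) →*₀ ℂ) s (c j))) *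
      ∑' a, tm (PsiT K * oneI f : Ideal (𝓞 K) →*₀ ℂ) s a =
        ∑ i, κ' i * (Ideal.absNorm (b i) : ℂ) ^ s * Z i s :=
    fun s hs' => series_eqT hcd hC' hs hcp hbc Z s hs' fun i => hZsum i s hs'
  have e3 : ∀ s : ℂ, 3 / 2 < s.re → HasSum (tm (PsiT K * χ : Ideal (𝓞 K) →*₀ ℂ) s)
      (∑ i, κ i * (Ideal.absNorm (b i) : ℂ) ^ s * Z0 i s) :=
    fun s hs' => series_eq0T hcd hC Z0 s fun i => hZ0s i (T i) (hcd.trans i) s hs'
  have hGa : ∀ κ : ι → ℂ, AnalyticOnNhd ℂ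
      (fun s : ℂ => ∑ i, κ i * (Ideal.absNorm (b i) : ℂ) ^ s * Z i s) {s | 1 / 2 < s.re} := by
    intro κ s hs'
    exact Finset.analyticAt_fun_sum _ fun i _ =>
      (analyticAt_const.mul (TW_pow_analytic _ (hNb i) Set.univ s trivial)).mul (hZa i s hs')
  have hZ0a : AnalyticOnNhd ℂ
      (fun s : ℂ => ∑ i, κ i * (Ideal.absNorm (b i) : ℂ) ^ s * Z0 i s)
      {s | 3 / 2 - 1 / (2 * (m + 1 : ℝ)) < s.re} := by
    intro s hs'
    exact Finset.analyticAt_fun_sum _ fun i _ =>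
      (analyticAt_const.mul (TW_pow_analytic _ (hNb i) Set.univ s trivial)).mul (hZ0 i s hs')
  have hPa : ∀ h : Ideal (𝓞 K) →*₀ ℂ, AnalyticOnNhd ℂ
      (fun s : ℂ => ∏ j, (1 - (p j : ℂ) * tm h s (c j))) {s | 1 / 2 < s.re} := by
    intro h s hs'
    exact Finset.analyticAt_fun_prod _ fun j _ =>
      (analyticAt_const.sub (analyticAt_const.mul
        (TW_tm_analytic h (c j) (TW_ne hs j) Set.univ s trivial)))
  obtain ⟨Λ, hΛa, hΛ, hΛG⟩ := glue (1 / (2 * (m + 1 : ℝ))) (by positivity)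
    (fun s : ℂ => ∑ i, κ i * (Ideal.absNorm (b i) : ℂ) ^ s * Z i s)
    (fun s : ℂ => ∑ i, κ i * (Ideal.absNorm (b i) : ℂ) ^ s * Z0 i s)
    (fun s : ℂ => ∏ j, (1 - (p j : ℂ) * tm (PsiT K * χ : Ideal (𝓞 K) →*₀ ℂ) s (c j)))
    (hGa κ) hZ0a (hPa _)
    (fun s hs' => Finset.prod_ne_zero_iff.2 fun j _ => P_ne3 f χ hχ (c j) (p j) (hs.prime j)
      (hs.norm j) s hs')
    (fun s hs' => by
      show _ = _ * _
      rw [← e1 s hs', (e3 s hs').tsum_eq])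
  -- the value at 1
  obtain ⟨S, hS, hSs⟩ := one_sumT K f hχ.ne
  have h1re : (1 / 2 : ℝ) < (1 : ℂ).re := by norm_num
  have u1 : Unit3 (∏ j, (1 - (p j : ℂ) * tm (PsiT K * χ : Ideal (𝓞 K) →*₀ ℂ) 1 (c j))) := by
    refine Unit3.prod _ _ fun j _ => factorT χ (c j) (p j) (hs.prime j) (hs.norm j) (hun j) ?_
    by_cases hj : IsCoprime (c j) f
    · exact Or.inl (hχ.val _ (TW_ne hs j) hj)
    · exact Or.inr (hχ.zero _ hj)
  have u2 : Unit3 (∏ j, (1 - (p j : ℂ) * tm (PsiT K * oneI f : Ideal (𝓞 K) →*₀ ℂ) 1 (c j))) := by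
    refine Unit3.prod _ _ fun j _ => factorT (oneI f) (c j) (p j) (hs.prime j) (hs.norm j)
      (hun j) ?_
    rcases oneI_eq f (c j) with h | h
    · exact Or.inl (by rw [h, one_pow])
    · exact Or.inr h
  have e6 : (∑ i, κ i * (Ideal.absNorm (b i) : ℂ) ^ (1 : ℂ) * Z i 1) / RT ^ Module.finrank F K =
      (∑ i, κ' i * (Ideal.absNorm (b i) : ℂ) ^ (1 : ℂ) * Z i 1) / RT ^ Module.finrank F K +
      ∑ i, (ζ i - 1) * (κ' i * ((Ideal.absNorm (b i) : ℕ) : ℂ) * (Z i 1 / RT ^ (m + 1))) := by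
    rw [hm, Finset.sum_div, Finset.sum_div, ← Finset.sum_add_distrib]
    refine Finset.sum_congr rfl fun i _ => ?_
    rw [hκζ i, Complex.cpow_one]
    ring
  have e5 := hΛG 1 h1re
  have hne := u1.ne_zero
  have e7 : Λ 1 / RT ^ Module.finrank F K =
      ((∑ i, κ i * (Ideal.absNorm (b i) : ℂ) ^ (1 : ℂ) * Z i 1) / RT ^ Module.finrank F K) *
      (∏ j, (1 - (p j : ℂ) * tm (PsiT K * χ : Ideal (𝓞 K) →*₀ ℂ) 1 (c j)))⁻¹ := by
    rw [e5]
    field_simp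
  refine ⟨Λ, S, ⟨hΛa, fun s hs' => ?_⟩, hS, ?_, ?_⟩
  · rw [hΛ s hs']
    exact e3 s hs'
  · rw [e7]
    refine Int3_mul ?_ (Int3_of_unit u1.inv)
    rw [hm, Finset.sum_div]
    refine V2_int_sum _ fun i => ?_
    rw [Complex.cpow_one, mul_div_assoc, hκζ i]
    exact Int3_mul (Int3_mul (Int3_mul (Int3_of_unit (hκu i))
      (Int3_of_unit (Unit3.of_pow three_ne_zero (by rw [hζ i]; exact Unit3.one)))) (Int3_nat _)) (hZi i)
  intro ΛK hL
  obtain ⟨hKa, hKs⟩ := hL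
  have e4 : ∀ s : ℂ, 1 / 2 < s.re →
      (∑ i, κ' i * (Ideal.absNorm (b i) : ℂ) ^ s * Z i s) =
      (∏ j, (1 - (p j : ℂ) * tm (PsiT K * oneI f : Ideal (𝓞 K) →*₀ ℂ) s (c j))) *
        ((∏ w ∈ S, (1 - tm (PsiT K) s w.asIdeal)) * ΛK s) := by
    intro s hs'
    refine ident (fun s : ℂ => ∑ i, κ' i * (Ideal.absNorm (b i) : ℂ) ^ s * Z i s)
      (fun s : ℂ => (∏ j, (1 - (p j : ℂ) * tm (PsiT K * oneI f : Ideal (𝓞 K) →*₀ ℂ) s (c j))) *
        ((∏ w ∈ S, (1 - tm (PsiT K) s w.asIdeal)) * ΛK s)) (hGa κ') ?_ ?_ s hs'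
    · refine (hPa _).mul (AnalyticOnNhd.mul ?_ hKa)
      intro z hz
      exact Finset.analyticAt_fun_prod _ fun w _ =>
        (analyticAt_const.sub (TW_tm_analytic (PsiT K) w.asIdeal w.ne_bot Set.univ z trivial))
    · intro z hz
      show _ = _ * (_ * _)
      rw [← e2 z hz, (hSs z hz).tsum_eq, (hKs z hz).tsum_eq]
  refine ⟨(∏ j, (1 - (p j : ℂ) * tm (PsiT K * oneI f : Ideal (𝓞 K) →*₀ ℂ) 1 (c j))) *
    (∏ j, (1 - (p j : ℂ) * tm (PsiT K * χ : Ideal (𝓞 K) →*₀ ℂ) 1 (c j)))⁻¹,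
    (∑ i, (ζ i - 1) * (κ' i * ((Ideal.absNorm (b i) : ℕ) : ℂ) * (Z i 1 / RT ^ (m + 1)))) *
    (∏ j, (1 - (p j : ℂ) * tm (PsiT K * χ : Ideal (𝓞 K) →*₀ ℂ) 1 (c j)))⁻¹, u2.mul u1.inv, ?_, ?_⟩
  · exact Max3_mul (Max3_sum _ _ fun i _ => Max3_mul (Max3_root (hζ i))
      (Int3_mul (Int3_mul (Int3_of_unit (hκu i)) (Int3_nat _)) (hZi i))) (Int3_of_unit u1.inv)
  · rw [e7, e6, e4 1 h1re]
    ring

theorem V2_one (f a : Ideal (𝓞 K)) (ha : a ≠ ⊥) (h : IsCoprime a f) : oneI f a = 1 := if_pos ⟨ha, h⟩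

theorem V2_cop (a : Ideal (𝓞 K)) : IsCoprime a (⊤ : Ideal (𝓞 K)) := by
  rw [← Ideal.one_eq_top]
  exact isCoprime_one_right

theorem V2_chr (f : Ideal (𝓞 K)) (hf : f ≠ ⊥) (h3 : IsCoprime f (Ideal.span {(3 : 𝓞 K)}))
    (hc : ∀ a : Ideal (𝓞 K), IsCoprime a f) : CChr3 f (oneI f) := by
  have h1 : ∀ a : Ideal (𝓞 K), a ≠ ⊥ → oneI f a = 1 := fun a ha => V2_one f a ha (hc a)
  refine ⟨hf, h3, fun a ha _ => ?_, fun a h => absurd (hc a) h, fun x y hx hy _ _ => ?_⟩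
  · rw [h1 a ha, one_pow]
  · rw [h1 _ (fun h => hx (Ideal.span_singleton_eq_bot.1 h)), h1 _ (fun h => hy (Ideal.span_singleton_eq_bot.1 h))]

theorem chr3_top : CChr3 (⊤ : Ideal (𝓞 K)) (oneI ⊤) :=
  V2_chr ⊤ top_ne_bot (V2_cop _).symm V2_cop

theorem V2_ext (f : Ideal (𝓞 K)) (hc : ∀ a : Ideal (𝓞 K), IsCoprime a f) :
    (PsiT K * oneI f : Ideal (𝓞 K) →*₀ ℂ) = PsiT K := by
  refine MonoidWithZeroHom.ext fun a => ?_
  show PsiT K a * oneI f a = PsiT K a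
  by_cases ha : a = ⊥
  · rw [ha]
    have h0 : PsiT K ⊥ = 0 := map_zero (PsiT K)
    rw [h0, zero_mul]
  · rw [V2_one f a ha (hc a), mul_one]

theorem base_L (hB : BaseF K) : ∃ Λ : ℂ → ℂ, LC (PsiT K) Λ ∧ Int3 (Λ 1 / RT ^ Module.finrank F K) := by
  obtain ⟨Λ, S, h1, -, h2, -⟩ := twist_cong3' hB (⊤ : Ideal (𝓞 K)) (oneI ⊤) chr3_top
  rw [V2_ext ⊤ V2_cop] at h1
  exact ⟨Λ, h1, h2⟩

end H35Z
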