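import Mathlib
import Pool.Agent.Lib.H19T.A3
import Pool.Agent.Lib.H35X.V3

/-! Chunk V3: Euler factors at 1 modulo 3 for arbitrary inertia degree. -/

open NumberField IsDedekindDomain

namespace H35Z

open H55B H35T H55N H19T H13E H35X

theorem norm_mod4 {K : Type} [Field K] [NumberField K] (w : HeightOneSpectrum (𝓞 K))
    (h2 : (2 : 𝓞 K) ∉ w.asIdeal) :
    Ideal.absNorm w.asIdeal % 4 = 1 ∨ Ideal.absNorm w.asIdeal % 4 = 3 := by
  classical
  have hfin : Finite (𝓞 K ⧸ w.asIdeal) := w.asIdeal.finiteQuotientOfFreeOfNeBot w.ne_bot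
  let _i := Ideal.Quotient.field w.asIdeal
  let _j := Fintype.ofFinite (𝓞 K ⧸ w.asIdeal)
  have h3 : Ideal.absNorm w.asIdeal = Fintype.card (𝓞 K ⧸ w.asIdeal) := by
    rw [Ideal.absNorm_apply, Submodule.cardQuot_apply, Nat.card_eq_fintype_card]
  have hodd : ¬ 2 ∣ Ideal.absNorm w.asIdeal := by
    intro h
    rw [h3] at h
    haveI : Fact (Nat.Prime 2) := ⟨Nat.prime_two⟩
    obtain ⟨x, hx⟩ := exists_prime_addOrderOf_dvd_card (G := 𝓞 K ⧸ w.asIdeal) 2 h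
    have hx0 : x ≠ 0 := by
      intro h0
      rw [h0, addOrderOf_zero] at hx
      exact absurd hx (by norm_num)
    have h4 : (2 : ℕ) • x = 0 := by
      rw [← hx]
      exact addOrderOf_nsmul_eq_zero x
    rw [nsmul_eq_mul] at h4
    have h5 : ((2 : ℕ) : 𝓞 K ⧸ w.asIdeal) = 0 := (mul_eq_zero.1 h4).resolve_right hx0
    apply h2
    rw [← Ideal.Quotient.eq_zero_iff_mem]
    rw [← h5]
    push_cast
    rfl
  omega

theorem norm_sq4 {K : Type} [Field K] [NumberField K] (w : HeightOneSpectrum (𝓞 K))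
    (h2 : (2 : 𝓞 K) ∉ w.asIdeal) :
    (∃ x : 𝓞 K, x ^ 2 + 1 ∈ w.asIdeal) ↔ Ideal.absNorm w.asIdeal % 4 = 1 := by
  classical
  constructor
  · intro h
    have h3 := v3_card w h
    rcases norm_mod4 w h2 with h4 | h4
    · exact h4
    · exact absurd h4 h3
  · intro h
    have hfin : Finite (𝓞 K ⧸ w.asIdeal) := w.asIdeal.finiteQuotientOfFreeOfNeBot w.ne_bot
    let _i := Ideal.Quotient.field w.asIdeal
    let _j := Fintype.ofFinite (𝓞 K ⧸ w.asIdeal)
    have h3 : Ideal.absNorm w.asIdeal = Fintype.card (𝓞 K ⧸ w.asIdeal) := by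
      rw [Ideal.absNorm_apply, Submodule.cardQuot_apply, Nat.card_eq_fintype_card]
    have h1 : IsSquare (-1 : 𝓞 K ⧸ w.asIdeal) := by
      rw [FiniteField.isSquare_neg_one_iff, ← h3, h]
      norm_num
    obtain ⟨y, hy⟩ := h1
    obtain ⟨x, rfl⟩ := Ideal.Quotient.mk_surjective y
    refine ⟨x, ?_⟩
    rw [← Ideal.Quotient.eq_zero_iff_mem, map_add, map_pow, map_one, pow_two, ← hy]
    ring

theorem V3_odd (v : HeightOneSpectrum O) (h2 : (2 : O) ∉ v.asIdeal) (h3 : (3 : O) ∉ v.asIdeal) :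
    ¬ (2 : O) ∣ gen v ∧ Nm (gen v) % 2 = 1 := by
  have h2g : ¬ (2 : O) ∣ gen v := by
    rintro ⟨c, hc⟩
    have hg : gen v ∈ v.asIdeal := by
      rw [(gen_spec v h3).1]
      exact Ideal.mem_span_singleton_self _
    have hcv : c ∈ v.asIdeal := by
      rw [hc] at hg
      exact (v.isPrime.mem_or_mem hg).resolve_left h2
    rw [(gen_spec v h3).1] at hcv
    obtain ⟨t, ht⟩ := Ideal.mem_span_singleton.1 hcv
    rw [ht] at hc
    have hg0 : gen v ≠ 0 := by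
      intro h0
      apply v.ne_bot
      rw [(gen_spec v h3).1, h0]
      simp
    have h5 : (1 : O) = 2 * t := by
      apply mul_left_cancel₀ hg0
      linear_combination hc
    apply v.isPrime.ne_top
    rw [Ideal.eq_top_iff_one]
    have h6' : Nm (1 : O) = Nm ((2 : O) * t) := by rw [← h5]
    have h7 : (Nm (2 : O) : ℤ) = 4 := by
      have h8 : (2 : O) = ((2 : ℤ) : O) + ((0 : ℤ) : O) * om := by push_cast; ring
      rw [h8, Nm_repr]
      norm_num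
    have h9 : Nm (2 : O) = 4 := by exact_mod_cast h7
    rw [Nm_mul, h9, Nm_eq_one.2 isUnit_one] at h6'
    omega
  refine ⟨h2g, ?_⟩
  by_contra hcon
  apply h2g
  obtain ⟨a, b, hab⟩ := exists_repr (gen v)
  have h5 := Nm_repr a b
  rw [← hab] at h5
  have h6' : (a ^ 2 - a * b + b ^ 2) % 2 = 0 := by omega
  obtain ⟨a', ha⟩ := Int.even_or_odd' a
  obtain ⟨b', hb⟩ := Int.even_or_odd' b
  rcases ha with ha | ha <;> rcases hb with hb | hb
  · refine ⟨(a' : O) + (b' : O) * om, ?_⟩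
    rw [hab, ha, hb]
    push_cast
    ring
  · exfalso
    have h7 : a ^ 2 - a * b + b ^ 2 = 2 * (2 * a' ^ 2 - a' * b + 2 * b' ^ 2 + 2 * b') + 1 := by
      rw [ha, hb]
      ring
    omega
  · exfalso
    have h7 : a ^ 2 - a * b + b ^ 2 = 2 * (2 * a' ^ 2 + 2 * a' - a * b' + 2 * b' ^ 2) + 1 := by
      rw [ha, hb]
      ring
    omega
  · exfalso
    have h7 : a ^ 2 - a * b + b ^ 2 = 2 * (2 * a' ^ 2 + a' - 2 * a' * b' + 2 * b' ^ 2 + b') + 1 := by
      rw [ha, hb]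
      ring
    omega

theorem V3_kap (v : HeightOneSpectrum O) (h2 : (2 : O) ∉ v.asIdeal) (h3 : (3 : O) ∉ v.asIdeal) :
    ∃ j : ℕ, kap (gen v) = om ^ j := by
  rcases (kap_spec (gen v)).2 with h | h | h | h
  · exact absurd ((kap_zero _).1 h) (V3_odd v h2 h3).1
  · exact ⟨0, by rw [h, pow_zero]⟩
  · exact ⟨1, by rw [h, pow_one]⟩
  · exact ⟨2, h⟩

theorem V3_dvd (v : HeightOneSpectrum O) (h3 : (3 : O) ∉ v.asIdeal) (j : ℕ) :
    (om - 1) ∣ (om ^ 2) ^ j * gen v - 1 := by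
  have h1 : (om - 1) ∣ (om ^ 2) ^ j - 1 := by
    have h2 : om ^ 2 - 1 ∣ (om ^ 2) ^ j - 1 := by
      have := sub_dvd_pow_sub_pow (om ^ 2) 1 j
      rwa [one_pow] at this
    exact dvd_trans ⟨om + 1, by ring⟩ h2
  obtain ⟨r, hr⟩ := h1
  obtain ⟨c, hc⟩ := v3_gen v h3
  refine ⟨r * gen v + c, ?_⟩
  linear_combination (gen v) * hr + hc

theorem V3_fe1 (v : HeightOneSpectrum O) (h2 : (2 : O) ∉ v.asIdeal) (h3 : (3 : O) ∉ v.asIdeal)
    (hN4 : Nm (gen v) % 4 = 1) : ∃ y : O, fe v = e y ∧ (om - 1) ∣ y - 1 := by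
  have hchi : ZMod.χ₄ (Nm (gen v) : ZMod 4) = 1 := by
    have h2' : ((Nm (gen v) : ℕ) : ZMod 4) = ((Nm (gen v) % 4 : ℕ) : ZMod 4) := (ZMod.natCast_mod _ 4).symm
    rw [h2', hN4]
    decide
  obtain ⟨j, hj⟩ := V3_kap v h2 h3
  have hj' : eta (gen v) = om ^ j := by
    unfold eta
    rw [hchi, hj]
    push_cast
    ring
  refine ⟨(om ^ 2) ^ j * gen v, ?_, V3_dvd v h3 j⟩
  unfold fe
  rw [← e_cj, ← map_mul, hj', map_pow, cj_om]

theorem V3_fe3 (v : HeightOneSpectrum O) (h2 : (2 : O) ∉ v.asIdeal) (h3 : (3 : O) ∉ v.asIdeal)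
    (hN4 : Nm (gen v) % 4 = 3) : ∃ y : O, fe v = -e y ∧ (om - 1) ∣ y - 1 := by
  have hchi : ZMod.χ₄ (Nm (gen v) : ZMod 4) = -1 := by
    have h2' : ((Nm (gen v) : ℕ) : ZMod 4) = ((Nm (gen v) % 4 : ℕ) : ZMod 4) := (ZMod.natCast_mod _ 4).symm
    rw [h2', hN4]
    decide
  obtain ⟨j, hj⟩ := V3_kap v h2 h3
  have hj' : eta (gen v) = -om ^ j := by
    unfold eta
    rw [hchi, hj]
    push_cast
    ring
  refine ⟨(om ^ 2) ^ j * gen v, ?_, V3_dvd v h3 j⟩
  unfold fe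
  rw [← e_cj, ← map_mul, hj', map_neg, map_pow, cj_om, neg_mul, map_neg]

theorem V3_two : Unit3 (2 : ℂ) := by
  have h := Unit3.nat (n := 2) (by norm_num)
  exact_mod_cast h

variable {K : Type} [Field K] [NumberField K] [Algebra F K]

theorem V3_split (w : HeightOneSpectrum (𝓞 K)) (h2 : (2 : O) ∉ (I2_under w).asIdeal)
    (h3 : (3 : O) ∉ (I2_under w).asIdeal) :
    1 - tm (PsiT K) 1 w.asIdeal =
      (fe (I2_under w) ^ w.asIdeal.inertiaDeg O - 1) *
        (fe (I2_under w) ^ w.asIdeal.inertiaDeg O)⁻¹ := by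
  have hu0 := ((fe_unit (I2_under w) h2 h3).pow (w.asIdeal.inertiaDeg O)).ne_zero
  rw [tm_eqT w (I2_under w) rfl h2 h3]
  field_simp

theorem V3_max (y : O) (h : (om - 1) ∣ y - 1) (n : ℕ) : Max3 (e y ^ n - 1) := by
  obtain ⟨z, hz⟩ : (om - 1) ∣ y ^ n - 1 := by
    refine h.trans ?_
    have := sub_dvd_pow_sub_pow y 1 n
    rwa [one_pow] at this
  have hz' := congrArg e hz
  rw [map_sub, map_pow, map_one, map_mul, map_sub, map_one] at hz'
  rw [hz']
  refine Max3_mul (Max3_root ?_) (a12_int z)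
  rw [← map_pow, L5_om_cube, map_one]

theorem Efac_unit' (w : HeightOneSpectrum (𝓞 K)) (h6 : (6 : 𝓞 K) ∉ w.asIdeal)
    (h : Ideal.absNorm w.asIdeal % 4 = 3) : Unit3 (1 - tm (PsiT K) 1 w.asIdeal) := by
  obtain ⟨h2, h3⟩ := v3_under w h6
  rw [V3_split w h2 h3]
  set v := I2_under w with hv
  set f := w.asIdeal.inertiaDeg O with hf
  refine Unit3.mul ?_ ((fe_unit v h2 h3).pow f).inv
  rw [absNorm_inertia K w v rfl, absNorm_gen v h3, ← hf] at h
  have hodd := (V3_odd v h2 h3).2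
  have hN : Nm (gen v) % 4 = 3 := by
    by_contra hcon
    have h1 : Nm (gen v) % 4 = 1 := by omega
    rw [Nat.pow_mod, h1, one_pow] at h
    omega
  have hfo : Odd f := by
    by_contra hcon
    rw [Nat.not_odd_iff_even] at hcon
    obtain ⟨k, hk⟩ := hcon
    rw [hk, Nat.pow_mod, hN, ← two_mul, pow_mul, Nat.pow_mod] at h
    norm_num at h
  obtain ⟨y, hy, hd⟩ := V3_fe3 v h2 h3 hN
  rw [hy, hfo.neg_pow]
  have e1 : -e y ^ f - 1 = -2 + -(e y ^ f - 1) := by ring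
  rw [e1]
  refine Unit3_add ?_ ?_
  · intro A hA
    rw [Valuation.map_neg]
    exact V3_two A hA
  · intro A hA
    rw [Valuation.map_neg]
    exact V3_max y hd f A hA

theorem Efac_non' (w : HeightOneSpectrum (𝓞 K)) (h6 : (6 : 𝓞 K) ∉ w.asIdeal)
    (h : Ideal.absNorm w.asIdeal % 4 = 1) : Max3 (1 - tm (PsiT K) 1 w.asIdeal) := by
  obtain ⟨h2, h3⟩ := v3_under w h6
  rw [V3_split w h2 h3]
  set v := I2_under w with hv
  set f := w.asIdeal.inertiaDeg O with hf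
  refine Max3_mul ?_ (Int3_of_unit ((fe_unit v h2 h3).pow f).inv)
  rw [absNorm_inertia K w v rfl, absNorm_gen v h3, ← hf] at h
  have hodd := (V3_odd v h2 h3).2
  rcases (by omega : Nm (gen v) % 4 = 1 ∨ Nm (gen v) % 4 = 3) with hN | hN
  · obtain ⟨y, hy, hd⟩ := V3_fe1 v h2 h3 hN
    rw [hy]
    exact V3_max y hd f
  · have hfe : Even f := by
      by_contra hcon
      rw [Nat.not_even_iff_odd] at hcon
      obtain ⟨k, hk⟩ := hcon
      rw [hk, Nat.pow_mod, hN, pow_add, pow_mul, Nat.mul_mod, Nat.pow_mod] at h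
      norm_num at h
    obtain ⟨y, hy, hd⟩ := V3_fe3 v h2 h3 hN
    rw [hy, hfe.neg_pow]
    exact V3_max y hd f

theorem Efac_two (w : HeightOneSpectrum (𝓞 K)) (h2 : (2 : 𝓞 K) ∈ w.asIdeal) :
    tm (PsiT K) 1 w.asIdeal = 0 := by
  unfold tm
  rw [a3_zero w (Or.inl h2), zero_mul]

end H35Z
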