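import Mathlib
import Pool.Agent.Lib.H35Z.Defs
import Pool.Agent.Lib.H55R.CH1
import Pool.Agent.Lib.H55R.CH2
import Pool.Agent.Lib.H55R.Fin

/-! Chunk V4 (S/M, copy of H35X/V4.lean): the cubic character of a cyclic cubic extension unramified above 3. three_of_es as six_of_es: if w contains 3 then W above w contains 3, its index over K is 1 by hU, so es = 1. exists_chr3T: the proof
of exists_chr6T: hthree := three_of_es hU; the coprimality of f with (3): a maximal ideal containing f and 3 would be ramified. -/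

open NumberField IsDedekindDomain

namespace H35Z

open H55B H55R H13E

theorem three_of_es {K K' : Type} [Field K] [NumberField K] [Algebra F K] [Field K'] [NumberField K']
    [Algebra F K'] [Algebra K K'] [IsScalarTower F K K'] [IsGalois K K']
    (hU : ∀ W : HeightOneSpectrum (𝓞 K'), (3 : 𝓞 K') ∈ W.asIdeal → W.asIdeal.ramificationIdx (𝓞 K) = 1)
    (w : Pl K) (h : es K K' w ≠ 1) : (3 : 𝓞 K) ∉ w.asIdeal := by
  intro h3
  obtain ⟨W, hW⟩ := under_exists (L := K') w
  have hunder : W.asIdeal.under (𝓞 K) = w.asIdeal := congrArg HeightOneSpectrum.asIdeal hW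
  have hlies : W.asIdeal.LiesOver w.asIdeal := ⟨hunder.symm⟩
  have hw := w.isPrime
  have hWp := W.isPrime
  have h3W : (3 : 𝓞 K') ∈ W.asIdeal := by
    rw [← hunder, Ideal.mem_comap, map_ofNat] at h3
    exact h3
  have h1 : W.asIdeal.ramificationIdx (𝓞 K) = 1 := hU W h3W
  apply h
  have h4 := Ideal.ramificationIdxIn_eq_ramificationIdx w.asIdeal W.asIdeal Gal(K'/K)
  unfold es
  rw [h4, h1]

theorem exists_chr3T (K K' : Type) [Field K] [NumberField K] [Algebra F K] [Field K']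
    [NumberField K'] [Algebra F K'] [Algebra K K'] [IsScalarTower F K K']
    (h3 : Module.finrank K K' = 3) (hG : IsGalois K K')
    (hU : ∀ W : HeightOneSpectrum (𝓞 K'), (3 : 𝓞 K') ∈ W.asIdeal → W.asIdeal.ramificationIdx (𝓞 K) = 1) :
    ∃ (f : Ideal (𝓞 K)) (χ : Ideal (𝓞 K) →*₀ ℂ), CChr3 f χ ∧ H19T.SplitC K K' χ ∧
      ∀ (w : HeightOneSpectrum (𝓞 K)) (W : HeightOneSpectrum (𝓞 K')),
        w.asIdeal = W.asIdeal.under (𝓞 K) →
        (f ≤ w.asIdeal ↔ W.asIdeal.ramificationIdx (𝓞 K) ≠ 1) := by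
  have hthree : ∀ (w : Pl K), es K K' w ≠ 1 → (3 : 𝓞 K) ∉ w.asIdeal := fun w h =>
    three_of_es hU w h
  obtain ⟨f, ρ, hρ⟩ := reciprocity K K' 3 Nat.prime_three h3
    (fun v hv => three_dvd v (hthree v hv))
  refine ⟨f, ρ, ⟨hρ.ne, ?_, hρ.val, hρ.zero, hρ.per⟩, ?_, ?_⟩
  · rw [Ideal.isCoprime_iff_sup_eq]
    by_contra h
    obtain ⟨M, hM, hle⟩ := Ideal.exists_le_maximal _ h
    have hf : f ≤ M := le_sup_left.trans hle
    have h6 : (3 : 𝓞 K) ∈ M := hle (Ideal.mem_sup_right (Ideal.mem_span_singleton_self _))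
    have hne : M ≠ ⊥ := by
      rintro rfl
      exact hρ.ne (le_bot_iff.1 hf)
    exact three_of_es hU ⟨M, hM.isPrime, hne⟩ ((hρ.ram ⟨M, hM.isPrime, hne⟩).1 hf) h6
  · intro w
    by_cases hw : f ≤ w.asIdeal
    · right; right
      refine ⟨?_, cubic_ram h3 w ((hρ.ram w).1 hw)⟩
      apply hρ.zero
      intro h
      rw [Ideal.isCoprime_iff_sup_eq] at h
      apply w.isPrime.ne_top
      rw [eq_top_iff, ← h]
      exact sup_le le_rfl hw
    · by_cases hs : Spl K K' w
      · left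
        exact ⟨(hρ.spl w hw).2 hs, cubic_spl h3 w hs⟩
      · right; left
        refine ⟨fun h => hs ((hρ.spl w hw).1 h), hρ.val _ w.ne_bot (cop_prime w f hw), ?_⟩
        refine cubic_inert h3 w hs ?_
        by_contra h
        exact hw ((hρ.ram w).2 h)
  · intro w W hW
    have hlies : W.asIdeal.LiesOver w.asIdeal := ⟨hW⟩
    have hw := w.isPrime
    have hWp := W.isPrime
    have h4 := Ideal.ramificationIdxIn_eq_ramificationIdx w.asIdeal W.asIdeal Gal(K'/K)
    rw [hρ.ram w]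
    unfold es
    rw [h4]

end H35Z
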