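import Mathlib
import Pool.Agent.Lib.H35Z.V2
import Pool.Agent.Lib.H35Z.V3
import Pool.Agent.Lib.H35Z.V4

/-! Chunk V5: a layer of degree 3. -/

open NumberField IsDedekindDomain

namespace H35Z

open H55B H35T H55N H19T H13E H35X

theorem val_prod3 (V : ValuationSubring ℂ) (x y z : ℂ) (hx : V.valuation x ≤ 1) (hy : V.valuation y ≤ 1)
    (hz : V.valuation z ≤ 1) : V.valuation (x * (y * z)) = 1 ↔
      V.valuation x = 1 ∧ V.valuation y = 1 ∧ V.valuation z = 1 := by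
  rw [map_mul, map_mul]
  constructor
  · intro h
    have h1 : V.valuation x = 1 := by
      by_contra hn
      have hlt : V.valuation x < 1 := lt_of_le_of_ne hx hn
      exact absurd h (mul_lt_one_of_lt_of_le hlt (mul_le_one' hy hz)).ne
    rw [h1, one_mul] at h
    have h2 : V.valuation y = 1 := by
      by_contra hn
      have hlt : V.valuation y < 1 := lt_of_le_of_ne hy hn
      exact absurd h (mul_lt_one_of_lt_of_le hlt hz).ne
    rw [h2, one_mul] at h
    exact ⟨h1, h2, h⟩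
  · rintro ⟨h1, h2, h3⟩
    rw [h1, h2, h3, one_mul, one_mul]

theorem val_cong (V : ValuationSubring ℂ) (x y u E r : ℂ) (h : y = u * (E * x) + r)
    (hu : V.valuation u = 1) (hr : V.valuation r < 1) (hx : V.valuation x ≤ 1) (hE : V.valuation E ≤ 1) :
    V.valuation y = 1 ↔ V.valuation E = 1 ∧ V.valuation x = 1 := by
  constructor
  · intro hy
    have h1 : V.valuation (E * x) = 1 := by
      by_contra hn
      have hlt : V.valuation (E * x) < 1 := lt_of_le_of_ne (by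
        rw [map_mul]
        exact mul_le_one' hE hx) hn
      have h2 : V.valuation (u * (E * x)) < 1 := by
        rw [map_mul, hu, one_mul]
        exact hlt
      have h3 : V.valuation y < 1 := by
        rw [h]
        exact lt_of_le_of_lt (Valuation.map_add _ _ _) (max_lt h2 hr)
      exact absurd hy h3.ne
    rw [map_mul] at h1
    have h4 : V.valuation E = 1 := by
      by_contra hn
      have hlt : V.valuation E < 1 := lt_of_le_of_ne hE hn
      exact absurd h1 (mul_lt_one_of_lt_of_le hlt hx).ne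
    rw [h4, one_mul] at h1
    exact ⟨h4, h1⟩
  · rintro ⟨h1, h2⟩
    have h3 : V.valuation (u * (E * x)) = 1 := by
      rw [map_mul, map_mul, hu, h1, h2, one_mul, one_mul]
    rw [h, Valuation.map_add_eq_of_lt_left, h3]
    rw [h3]
    exact hr

theorem V5_six {K : Type} [Field K] [NumberField K] {f : Ideal (𝓞 K)} {χ : Ideal (𝓞 K) →*₀ ℂ}
    (hf : CChr3 f χ) (w : HeightOneSpectrum (𝓞 K)) (hw : f ≤ w.asIdeal)
    (h2 : (2 : 𝓞 K) ∉ w.asIdeal) : (6 : 𝓞 K) ∉ w.asIdeal := by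
  have h3 : (3 : 𝓞 K) ∉ w.asIdeal := by
    intro h3
    have h4 := Ideal.isCoprime_iff_sup_eq.1 hf.three
    apply w.isPrime.ne_top
    rw [← top_le_iff, ← h4]
    exact sup_le hw ((Ideal.span_singleton_le_iff_mem _).2 h3)
  intro h6
  rw [show (6 : 𝓞 K) = 2 * 3 by norm_num] at h6
  rcases w.isPrime.mem_or_mem h6 with h | h
  · exact h2 h
  · exact h3 h

theorem V5_facint {K : Type} [Field K] [NumberField K] [Algebra F K] {f : Ideal (𝓞 K)}
    {χ : Ideal (𝓞 K) →*₀ ℂ} (hf : CChr3 f χ) (w : HeightOneSpectrum (𝓞 K))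
    (hw : f ≤ w.asIdeal) : Int3 (1 - tm (PsiT K) 1 w.asIdeal) := by
  by_cases h2 : (2 : 𝓞 K) ∈ w.asIdeal
  · rw [Efac_two w h2, sub_zero]
    exact Int3_of_unit Unit3.one
  · exact Efac_int3 w (V5_six hf w hw h2)

theorem layer_L (K K' : Type) [Field K] [NumberField K] [Algebra F K] [Field K'] [NumberField K']
    [Algebra F K'] [Algebra K K'] [IsScalarTower F K K'] (hB : BaseF K)
    (h3 : Module.finrank K K' = 3) (hG : IsGalois K K')
    (hU : ∀ W : HeightOneSpectrum (𝓞 K'), (3 : 𝓞 K') ∈ W.asIdeal → W.asIdeal.ramificationIdx (𝓞 K) = 1)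
    (ΛK : ℂ → ℂ) (hL : LC (PsiT K) ΛK) (hi : Int3 (ΛK 1 / RT ^ Module.finrank F K)) :
    ∃ Λ : ℂ → ℂ, LC (PsiT K') Λ ∧ Int3 (Λ 1 / RT ^ Module.finrank F K') ∧
      ∀ V : ValuationSubring ℂ, V.valuation 3 < 1 →
        (V.valuation (Λ 1 / RT ^ Module.finrank F K') = 1 ↔
          V.valuation (ΛK 1 / RT ^ Module.finrank F K) = 1 ∧ NoBad K K') := by
  obtain ⟨f, χ, hf, hχ, hram⟩ := exists_chr3T K K' h3 hG hU
  obtain ⟨Λ₂, S, hlc, hSf, hint2, hv⟩ := twist_cong3' hB f χ hf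
  obtain ⟨Λ₃, S', hlc', hSf', hint3, hv'⟩ := twist_cong3' hB f (χ * χ) hf.sq
  obtain ⟨u, r, hu, hr, hval⟩ := hv ΛK hL
  obtain ⟨u', r', hu', hr', hval'⟩ := hv' ΛK hL
  have hSS : S' = S := by
    ext w
    rw [hSf, hSf']
  subst hSS
  have hE : Int3 (∏ w ∈ S', (1 - tm (PsiT K) 1 w.asIdeal)) :=
    Int3.prod _ _ fun w hw => V5_facint hf w ((hSf w).1 hw)
  have hrank : Module.finrank F K' = Module.finrank F K + (Module.finrank F K +
      Module.finrank F K) := by
    rw [← Module.finrank_mul_finrank F K K', h3]; ring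
  have hvalp : (ΛK 1 * (Λ₂ 1 * Λ₃ 1)) / RT ^ Module.finrank F K' =
      (ΛK 1 / RT ^ Module.finrank F K) * ((Λ₂ 1 / RT ^ Module.finrank F K) *
        (Λ₃ 1 / RT ^ Module.finrank F K)) := by
    rw [hrank, pow_add, pow_add, mul_div_mul_comm, mul_div_mul_comm]
  -- the continuation
  have hcont : LC (PsiT K') (fun s => ΛK s * (Λ₂ s * Λ₃ s)) := by
    obtain ⟨ha1, hs1⟩ := hL
    obtain ⟨ha2, hs2⟩ := hlc
    obtain ⟨ha3, hs3⟩ := hlc'
    refine ⟨fun s hs => (ha1 s hs).mul ((ha2 s hs).mul (ha3 s hs)), fun s hs => ?_⟩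
    have hb : ∀ ψ : Ideal (𝓞 K) →*₀ ℂ, (∀ a, ‖ψ a‖ ≤ 1) → ∀ a : Ideal (𝓞 K),
        ‖(PsiT K * ψ : Ideal (𝓞 K) →*₀ ℂ) a‖ ^ 2 ≤ Ideal.absNorm a := by
      intro ψ hψ a
      refine le_trans ?_ (PsiT_norm_le a)
      have h4 : (PsiT K * ψ : Ideal (𝓞 K) →*₀ ℂ) a = PsiT K a * ψ a := rfl
      rw [h4, norm_mul, mul_pow]
      exact mul_le_of_le_one_right (by positivity) (pow_le_one₀ (norm_nonneg _) (hψ a))
    have hsum := tm_summable (PsiT K') (fun a => PsiT_norm_le a) s hs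
    have hL := AI_LSeries (PsiT K') (PsiT K').map_zero s hsum
    have hsum1 := tm_summable (PsiT K) (fun a => PsiT_norm_le a) s hs
    have hL1 := AI_LSeries (PsiT K) (PsiT K).map_zero s hsum1
    have hsum2 := tm_summable (PsiT K * χ : Ideal (𝓞 K) →*₀ ℂ) (hb χ hf.norm_le) s hs
    have hL2 := AI_LSeries (PsiT K * χ : Ideal (𝓞 K) →*₀ ℂ)
      (PsiT K * χ : Ideal (𝓞 K) →*₀ ℂ).map_zero s hsum2
    have hsum3 := tm_summable (PsiT K * (χ * χ) : Ideal (𝓞 K) →*₀ ℂ) (hb (χ * χ) hf.sq.norm_le) s hs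
    have hL3 := AI_LSeries (PsiT K * (χ * χ) : Ideal (𝓞 K) →*₀ ℂ)
      (PsiT K * (χ * χ) : Ideal (𝓞 K) →*₀ ℂ).map_zero s hsum3
    have hL4 := ArithmeticFunction.LSeriesHasSum_mul hL1
      (ArithmeticFunction.LSeriesHasSum_mul hL2 hL3)
    rw [← AI_stepT K K' χ hχ] at hL4
    have h5 : ∑' a, tm (PsiT K') s a = ΛK s * (Λ₂ s * Λ₃ s) := by
      rw [hL.unique hL4, (hs1 s hs).tsum_eq, (hs2 s hs).tsum_eq, (hs3 s hs).tsum_eq]
    show HasSum (tm (PsiT K') s) (ΛK s * (Λ₂ s * Λ₃ s))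
    rw [← h5]
    exact hsum.of_norm.hasSum
  refine ⟨fun s => ΛK s * (Λ₂ s * Λ₃ s), hcont, ?_, ?_⟩
  · show Int3 ((ΛK 1 * (Λ₂ 1 * Λ₃ 1)) / RT ^ Module.finrank F K')
    rw [hvalp]
    exact Int3_mul hi (Int3_mul hint2 hint3)
  · intro V hV
    show V.valuation ((ΛK 1 * (Λ₂ 1 * Λ₃ 1)) / RT ^ Module.finrank F K') = 1 ↔ _
    rw [hvalp, val_prod3 V _ _ _ (hi V hV) (hint2 V hV) (hint3 V hV),
      val_cong V _ _ u _ r hval (hu V hV) (hr V hV) (hi V hV) (hE V hV),
      val_cong V _ _ u' _ r' hval' (hu' V hV) (hr' V hV) (hi V hV) (hE V hV)]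
    have hNB : V.valuation (∏ w ∈ S', (1 - tm (PsiT K) 1 w.asIdeal)) = 1 ↔ NoBad K K' := by
      constructor
      · intro h1 w W hw h6 hx
        by_contra hne
        have hfw : f ≤ w.asIdeal := (hram w W hw).2 hne
        have h2w : (2 : 𝓞 K) ∉ w.asIdeal := by
          intro h2
          apply h6
          rw [show (6 : 𝓞 K) = 2 * 3 by norm_num]
          exact w.asIdeal.mul_mem_right _ h2
        have h4 := (norm_sq4 w h2w).1 hx
        have h5 := Max3.prod S' _ (fun w' hw' => V5_facint hf w' ((hSf w').1 hw')) w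
          ((hSf w).2 hfw) (Efac_non' w h6 h4)
        exact absurd h1 (h5 V hV).ne
      · intro hnb
        rw [map_prod]
        refine Finset.prod_eq_one fun w hw => ?_
        have hfw := (hSf w).1 hw
        by_cases h2 : (2 : 𝓞 K) ∈ w.asIdeal
        · rw [Efac_two w h2, sub_zero]
          exact map_one _
        · have h6 := V5_six hf w hfw h2
          rcases norm_mod4 w h2 with h4 | h4
          · exfalso
            obtain ⟨W, hW, -⟩ := T0_above K' w
            exact (hram w W hW.over).1 hfw (hnb w W hW.over h6 ((norm_sq4 w h2).2 h4))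
          · exact Efac_unit' w h6 h4 V hV
    rw [hNB]
    tauto

end H35Z
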