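import Mathlib
import Pool.Agent.Lib.H35X.V13
import Pool.Agent.Lib.H35Z.B1
import Pool.Agent.Lib.H35Z.V14c
import Pool.Agent.Lib.H35Z.V5

/-! Chunk V15 (M): periods, the twist by d, the analytic order of Sha. per_scale: let c > 0 be real with c^6 = d^2 (c = |d|^(1/3)). W1_L L c (H55C/W1.lean, the lattice c L): g₂ = 0, g₃ = (c^6)^(-1) 4 d^2 = 4; Om (W1_L L c) = c^2 Om L (W1_scale); Omr (W1_L L c) = c Omr L: x in the
lattice of L iff c x in the lattice of W1_L L c (sInf of the scaled set: Real.sInf_smul_of_nonneg or by hand as in H13E/T4 Omr_eq_aux). So by H13E.Omr_eq, Omr_unit for W1_L L c: 0 < Omr L, Om L = sqrt 3 Omr L^2, and 3 R^2/(Omr L)^2 = c^2 * unit; (c^2)^3 = d^2 is a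
unit at 3 (d coprime to 3), so c^2 is a unit (Unit3.of_pow). exists_per: H35T.exists_period gives L with g₃ = 4, scale by c^(-1) (W1_scale with the complex number c^(-1)): g₃ = c^6 4 = 4 d^2.
twist_d: (Λ, S, ...) from twist_cong3' for f = (d); V(x_d) = 1 iff V(E) = 1 and V(x) = 1 (val_cong); E is a unit: w in S means d in w; 2 in w: factor 1 (Efac_two); 2 not in w: 3 not in w (d = 1, -1 mod 9), AdmAt: N(w) % 12 = 7, so N(w) % 4 = 3: Efac_unit'.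
disc_base: BaseF K: discr_valZ and nrComplexPlaces K = finrank F K (H55C.complex_places or the like; nrRealPlaces K = 0). shaD_eq: copy of shaT3_eq (H35X/V13.lean) with tors, CEK: u = shaD d K L (RT^n), its square is the product of units, T10_alg with T = CEK d K.
shaD is linear in L1 (shaT3_lin). -/

open NumberField IsDedekindDomain

namespace H35Z

open H55B H35T H55N H19T H13E H35X H13N

theorem v15_mem (L : PeriodPair) (c : ℝ) (hc : 0 < c) (hc' : (c : ℂ) ≠ 0) :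
    Omr (H55C.W1_L L (c : ℂ) hc') = c * Omr L := by
  have hset : {x : ℝ | 0 < x ∧ (x : ℂ) ∈ (H55C.W1_L L (c : ℂ) hc').lattice} =
      (fun x : ℝ => c * x) '' {x : ℝ | 0 < x ∧ (x : ℂ) ∈ L.lattice} := by
    ext x
    constructor
    · rintro ⟨hx, hm⟩
      refine ⟨c⁻¹ * x, ⟨by positivity, ?_⟩, ?_⟩
      · have h := H55C.W1_mem' L (c : ℂ) hc' x hm
        rw [← Complex.ofReal_inv, ← Complex.ofReal_mul] at h
        exact h
      · show c * (c⁻¹ * x) = x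
        rw [mul_inv_cancel_left₀ hc.ne']
    · rintro ⟨y, ⟨hy, hm⟩, rfl⟩
      refine ⟨mul_pos hc hy, ?_⟩
      have h := H55C.W1_mem L (c : ℂ) hc' y hm
      rw [← Complex.ofReal_mul] at h
      exact h
  unfold Omr
  rw [hset]
  exact Real.sInf_smul_of_nonneg hc.le _

theorem v15_ndvd (d : ℤ) (hd : (9 : ℤ) ∣ d - 1 ∨ (9 : ℤ) ∣ d + 1) : ¬ 3 ∣ d.natAbs := by
  intro h
  have h1 : (3 : ℤ) ∣ d := Int.natCast_dvd.2 h
  rcases hd with h2 | h2 <;> omega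

theorem v15_unit (d : ℤ) (hd : (9 : ℤ) ∣ d - 1 ∨ (9 : ℤ) ∣ d + 1) : Unit3 ((d : ℂ) ^ 2) := by
  have h1 : ((d : ℂ)) ^ 2 = ((d.natAbs : ℕ) : ℂ) ^ 2 := by
    rcases Int.natAbs_eq d with h | h
    · have h3 : (d : ℂ) = ((d.natAbs : ℕ) : ℂ) := by
        conv_lhs => rw [h]
        rw [Int.cast_natCast]
      rw [h3]
    · have h3 : (d : ℂ) = -((d.natAbs : ℕ) : ℂ) := by
        conv_lhs => rw [h]
        rw [Int.cast_neg, Int.cast_natCast]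
      rw [h3]
      ring
  rw [h1]
  exact (Unit3.nat (v15_ndvd d hd)).pow 2

theorem v15_scale (d : ℤ) (hd0 : d ≠ 0) (L : PeriodPair) (h2 : L.g₂ = 0) (h3 : L.g₃ = 4 * (d : ℂ) ^ 2) :
    ∃ (c : ℝ) (_ : 0 < c) (hc' : (c : ℂ) ≠ 0), c ^ 6 = (d : ℝ) ^ 2 ∧ (H55C.W1_L L (c : ℂ) hc').g₂ = 0 ∧
      (H55C.W1_L L (c : ℂ) hc').g₃ = 4 ∧ Om (H55C.W1_L L (c : ℂ) hc') = c ^ 2 * Om L := by
  have hdr : (0 : ℝ) < (d : ℝ) ^ 2 := by
    have : (d : ℝ) ≠ 0 := by exact_mod_cast hd0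
    positivity
  set c : ℝ := ((d : ℝ) ^ 2) ^ ((1 : ℝ) / 6) with hc
  have hc0 : 0 < c := Real.rpow_pos_of_pos hdr _
  have hc6 : c ^ 6 = (d : ℝ) ^ 2 := by
    rw [hc, ← Real.rpow_natCast, ← Real.rpow_mul hdr.le]
    norm_num
  have hcc : (c : ℂ) ≠ 0 := by exact_mod_cast hc0.ne'
  refine ⟨c, hc0, hcc, hc6, ?_, ?_, ?_⟩
  · unfold PeriodPair.g₂
    rw [H55C.W1_G]
    have h := h2
    unfold PeriodPair.g₂ at h
    linear_combination ((c : ℂ) ^ 4)⁻¹ * h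
  · have h : (H55C.W1_L L (c : ℂ) hcc).g₃ = ((c : ℂ) ^ 6)⁻¹ * L.g₃ := by
      unfold PeriodPair.g₃
      rw [H55C.W1_G]
      ring
    have hc6' : (c : ℂ) ^ 6 = (d : ℂ) ^ 2 := by exact_mod_cast congrArg (fun z : ℝ => (z : ℂ)) hc6
    have hdc : ((d : ℂ)) ^ 2 ≠ 0 := pow_ne_zero _ (by exact_mod_cast hd0)
    rw [h, hc6', h3]
    field_simp
  · show 2 * |((c : ℂ) * L.ω₁).re * ((c : ℂ) * L.ω₂).im - ((c : ℂ) * L.ω₁).im * ((c : ℂ) * L.ω₂).re| = _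
    have e : ((c : ℂ) * L.ω₁).re * ((c : ℂ) * L.ω₂).im - ((c : ℂ) * L.ω₁).im * ((c : ℂ) * L.ω₂).re =
        c ^ 2 * (L.ω₁.re * L.ω₂.im - L.ω₁.im * L.ω₂.re) := by
      simp only [Complex.mul_re, Complex.mul_im, Complex.ofReal_re, Complex.ofReal_im]
      ring
    rw [e, abs_mul, abs_of_nonneg (by positivity : (0 : ℝ) ≤ c ^ 2)]
    unfold Om
    ring

theorem v15_ne0 (d : ℤ) (hd : (9 : ℤ) ∣ d - 1 ∨ (9 : ℤ) ∣ d + 1) : d ≠ 0 := by
  rintro rfl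
  rcases hd with h | h <;> omega

theorem per_scale (d : ℤ) (hd : (9 : ℤ) ∣ d - 1 ∨ (9 : ℤ) ∣ d + 1) (L : PeriodPair) (h2 : L.g₂ = 0)
    (h3 : L.g₃ = 4 * (d : ℂ) ^ 2) : 0 < Omr L ∧ Om L = Real.sqrt 3 * Omr L ^ 2 ∧
      Unit3 (3 * R (e om - 1) ^ 2 / (Omr L : ℂ) ^ 2) := by
  obtain ⟨c, hc, hc', hc6, g2, g3, hOm⟩ := v15_scale d (v15_ne0 d hd) L h2 h3
  obtain ⟨ho, hOm'⟩ := Omr_eq _ g2 g3
  have hu := Omr_unit _ g2 g3
  have hr := v15_mem L c hc hc'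
  rw [hr] at ho hOm' hu
  have hc2 : (0 : ℝ) < c ^ 2 := by positivity
  have hpos : 0 < Omr L := (mul_pos_iff_of_pos_left hc).1 ho
  refine ⟨hpos, ?_, ?_⟩
  · rw [hOm] at hOm'
    apply mul_left_cancel₀ hc2.ne'
    rw [hOm']
    ring
  · have h6 : ((c : ℂ) ^ 2) ^ 3 = (d : ℂ) ^ 2 := by
      rw [← pow_mul]
      exact_mod_cast congrArg (fun z : ℝ => (z : ℂ)) hc6
    have h7 : Unit3 ((c : ℂ) ^ 2) := by
      refine Unit3.of_pow (n := 3) (by norm_num) ?_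
      rw [h6]
      exact v15_unit d hd
    have h8 : (Omr L : ℂ) ≠ 0 := by exact_mod_cast hpos.ne'
    have h9 : 3 * R (e om - 1) ^ 2 / (Omr L : ℂ) ^ 2 =
        (c : ℂ) ^ 2 * (3 * R (e om - 1) ^ 2 / ((c * Omr L : ℝ) : ℂ) ^ 2) := by
      push_cast
      field_simp
    rw [h9]
    exact h7.mul hu

theorem exists_per (d : ℤ) (hd : d ≠ 0) : ∃ L : PeriodPair, L.g₂ = 0 ∧ L.g₃ = 4 * (d : ℂ) ^ 2 := by
  obtain ⟨L, h2, h3, -⟩ := H35T.exists_period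
  have hdc : ((d : ℂ)) ^ 2 ≠ 0 := pow_ne_zero _ (by exact_mod_cast hd)
  obtain ⟨c, hc⟩ := IsAlgClosed.exists_pow_nat_eq (((d : ℂ)) ^ 2)⁻¹ (n := 6) (by norm_num)
  have hc0 : c ≠ 0 := by
    rintro rfl
    rw [zero_pow (by norm_num)] at hc
    exact inv_ne_zero hdc hc.symm
  obtain ⟨L', h4, h5, -⟩ := H55C.W1_scale L c hc0
  refine ⟨L', ?_, ?_⟩
  · rw [h4, h2, mul_zero]
  · rw [h5, h3, hc, inv_inv]
    ring

theorem twist_d {K : Type} [Field K] [NumberField K] [Algebra F K] (hB : BaseF K) (d : ℤ) (hd : AdmAt d K)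
    (χ : Ideal (𝓞 K) →*₀ ℂ) (hχ : CChr3 (Ideal.span {(d : 𝓞 K)}) χ)
    (ΛK : ℂ → ℂ) (hL : LC (PsiT K) ΛK) (hi : Int3 (ΛK 1 / RT ^ Module.finrank F K)) :
    ∃ Λ : ℂ → ℂ, LC (PsiT K * χ) Λ ∧ Int3 (Λ 1 / RT ^ Module.finrank F K) ∧
      ∀ V : ValuationSubring ℂ, V.valuation 3 < 1 →
        (V.valuation (Λ 1 / RT ^ Module.finrank F K) = 1 ↔
          V.valuation (ΛK 1 / RT ^ Module.finrank F K) = 1) := by
  obtain ⟨Λ, S, hΛ, hS, hint, hcong⟩ := twist_cong3' hB (Ideal.span {(d : 𝓞 K)}) χ hχ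
  obtain ⟨u, r, hu, hr, huv⟩ := hcong ΛK hL
  refine ⟨Λ, hΛ, hint, fun V hV => ?_⟩
  have hE : Unit3 (∏ w ∈ S, (1 - tm (PsiT K) 1 w.asIdeal)) := by
    refine Unit3.prod S _ fun w hw => ?_
    have hdw : (d : 𝓞 K) ∈ w.asIdeal := by
      have h := (hS w).1 hw
      rw [Ideal.span_singleton_le_iff_mem] at h
      exact h
    by_cases h2 : (2 : 𝓞 K) ∈ w.asIdeal
    · rw [Efac_two w h2, sub_zero]
      exact Unit3.one
    · have hwp := w.isPrime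
      have h3 : (3 : 𝓞 K) ∉ w.asIdeal := by
        intro h3
        apply hwp.ne_top
        obtain ⟨a, b, hab⟩ := adm_cop hd.1
        rw [Ideal.eq_top_iff_one]
        have h4 : (1 : 𝓞 K) = (a : 𝓞 K) * (d : 𝓞 K) + (b : 𝓞 K) * 3 := by
          exact_mod_cast (congrArg (fun z : ℤ => (z : 𝓞 K)) hab).symm
        rw [h4]
        exact w.asIdeal.add_mem (w.asIdeal.mul_mem_left _ hdw) (w.asIdeal.mul_mem_left _ h3)
      have h6 : (6 : 𝓞 K) ∉ w.asIdeal := by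
        intro h6
        have h5 : (6 : 𝓞 K) = 2 * 3 := by norm_num
        rw [h5] at h6
        rcases hwp.mem_or_mem h6 with h7 | h7
        · exact h2 h7
        · exact h3 h7
      refine Efac_unit' w h6 ?_
      have h8 := (hd.2.2 w hdw h2).2
      omega
  have h1 := val_cong V _ _ u _ r huv (hu V hV) (hr V hV) (hi V hV) (hE V hV).le
  rw [h1]
  exact ⟨fun h => h.2, fun h => ⟨hE V hV, h⟩⟩

theorem disc_base {K : Type} [Field K] [NumberField K] [Algebra F K] (hB : BaseF K) : DiscOK K := by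
  obtain ⟨m, hm, h⟩ := discr_valZ K hB.unr
  refine ⟨m, hm, ?_⟩
  rw [H55C.complex_places]
  exact h

theorem shaD_lin {K : Type} [Field K] [NumberField K] (d : ℤ) (L : PeriodPair) (c L1 : ℂ) (hc : c ≠ 0) :
    shaD d K L L1 = (L1 / c) * shaD d K L c := by
  unfold shaD
  generalize ((Omr L : ℂ) ^ NumberField.InfinitePlace.nrRealPlaces K *
      (Om L : ℂ) ^ NumberField.InfinitePlace.nrComplexPlaces K * ((CEK d K : ℝ) : ℂ)) = D
  have h : L1 = L1 / c * c := (div_mul_cancel₀ _ hc).symm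
  nth_rewrite 1 [h]
  ring

theorem shaD_eq {K : Type} [Field K] [NumberField K] (d : ℤ) (hd : (9 : ℤ) ∣ d - 1 ∨ (9 : ℤ) ∣ d + 1)
    (hD : DiscOK K) (hC : Unit3 ((CEK d K : ℝ) : ℂ)) (hE : ¬ 3 ∣ torsd d K) (L : PeriodPair)
    (h2 : L.g₂ = 0) (h3 : L.g₃ = 4 * (d : ℂ) ^ 2) :
    ∃ u : ℂ, Unit3 u ∧ ∀ L1 : ℂ, shaD d K L L1 = (L1 / RT ^ Module.finrank ℚ K) * u := by
  obtain ⟨m, hm, hD'⟩ := hD
  have hn : Module.finrank ℚ K =
      InfinitePlace.nrRealPlaces K + 2 * InfinitePlace.nrComplexPlaces K :=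
    (InfinitePlace.card_add_two_mul_card_eq_rank K).symm
  obtain ⟨ho, hOm, hv⟩ := per_scale d hd L h2 h3
  have hE' := (Unit3.nat hE).pow 2
  have hc0 : RT ^ Module.finrank ℚ K ≠ 0 := pow_ne_zero _ RT_ne
  refine ⟨shaD d K L (RT ^ Module.finrank ℚ K), ?_, fun L1 => shaD_lin d L _ L1 hc0⟩
  refine Unit3.of_pow (n := 2) (by norm_num) ?_
  have ho' : (Omr L : ℂ) ≠ 0 := by exact_mod_cast ho.ne'
  have hs : (((Real.sqrt |(NumberField.discr K : ℝ)| : ℝ) : ℂ)) ^ 2 =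
      3 ^ InfinitePlace.nrComplexPlaces K * (m : ℂ) := by
    have h1 : (((Real.sqrt |(NumberField.discr K : ℝ)| : ℝ) : ℂ)) ^ 2 =
        (((NumberField.discr K).natAbs : ℕ) : ℂ) := by
      rw [← Complex.ofReal_pow, Real.sq_sqrt (abs_nonneg _), ← Int.cast_abs, Int.abs_eq_natAbs]
      simp only [Int.cast_natCast, Complex.ofReal_natCast]
    rw [h1, hD']
    push_cast
    rfl
  have hp : (Om L : ℂ) ^ 2 = 3 * (Omr L : ℂ) ^ 4 := by
    rw [hOm]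
    have h4 : (Real.sqrt 3 * Omr L ^ 2) ^ 2 = 3 * Omr L ^ 4 := by
      rw [mul_pow, Real.sq_sqrt (by norm_num)]
      ring
    exact_mod_cast h4
  have hc : RT ^ 2 = -3 * R (e om - 1) ^ 2 := by
    rw [RT_eq, mul_pow, e_sq3]
    ring
  unfold shaD
  rw [T10_alg (RT ^ Module.finrank ℚ K) _ _ _ _ _ RT m (R (e om - 1)) _ _ ho' R0_ne hs hp hc, ← hn,
    div_self hc0, one_pow]
  have h1 : Unit3 (1 : ℂ) := Unit3.one
  exact ((((h1.mul (W13_neg _)).mul (hv.pow _)).mul (Unit3.nat hm)).mul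
    (hE'.pow 2)).div (hC.pow 2)

end H35Z
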