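import Mathlib
import Pool.Agent.Lib.H19T.A10
import Pool.Agent.Lib.H35Z.A10
import Pool.Agent.Lib.H35Z.V5

/-! Chunk V5b: the relative theorem for L-values. -/

open NumberField IsDedekindDomain

namespace H35Z

open H55B H35T H55N H19T H13E H35X

theorem V5b_equiv (M K : Type) [Field M] [NumberField M] [Algebra F M] [Field K] [NumberField K]
    [Algebra F K] [Algebra M K] [IsScalarTower F M K] (h1 : Module.finrank M K = 1) :
    ∃ ε : Ideal (𝓞 M) ≃ Ideal (𝓞 K), ∀ J : Ideal (𝓞 M),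
      Ideal.relNorm O (ε J) = Ideal.relNorm O J ∧ Ideal.absNorm (ε J) = Ideal.absNorm J := by
  have hsurj : Function.Surjective (algebraMap M K) := by
    intro x
    obtain ⟨c, hc⟩ := (finrank_eq_one_iff_of_nonzero' (1 : K) one_ne_zero).1 h1 x
    exact ⟨c, by rw [← hc, Algebra.smul_def, mul_one]⟩
  have hinj : Function.Injective (algebraMap (𝓞 M) (𝓞 K)) :=
    FaithfulSMul.algebraMap_injective (𝓞 M) (𝓞 K)
  have hsurjO : Function.Surjective (algebraMap (𝓞 M) (𝓞 K)) := by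
    intro x
    obtain ⟨y, hy⟩ := hsurj (x : K)
    have hyi : IsIntegral ℤ y := by
      have h2 : IsIntegral ℤ (algebraMap M K y) := by
        rw [hy]
        exact RingOfIntegers.isIntegral_coe x
      exact (isIntegral_algebraMap_iff (algebraMap M K).injective).1 h2
    refine ⟨⟨y, hyi⟩, ?_⟩
    apply RingOfIntegers.ext
    rw [← hy]
    rfl
  let ε₀ : 𝓞 M ≃+* 𝓞 K := RingEquiv.ofBijective (algebraMap (𝓞 M) (𝓞 K)) ⟨hinj, hsurjO⟩
  have hr : Module.finrank (𝓞 M) (𝓞 K) = 1 := by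
    rw [← h1]
    exact (IsFractionRing.finrank_eq (𝓞 M) M (𝓞 K) K).symm
  have key : ∀ J : Ideal (𝓞 M), Ideal.relNorm (𝓞 M) (J.map (algebraMap (𝓞 M) (𝓞 K))) = J := by
    intro J
    rw [Ideal.relNorm_algebraMap (𝓞 K) J, hr, pow_one]
  refine ⟨(ε₀.idealComapOrderIso.symm).toEquiv, fun J => ?_⟩
  have h3 : (ε₀.idealComapOrderIso.symm).toEquiv J = J.map (algebraMap (𝓞 M) (𝓞 K)) := rfl
  rw [h3]
  have ht : IsScalarTower O (𝓞 M) (𝓞 K) := inferInstance
  constructor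
  · have h4 := Ideal.relNorm_relNorm O (𝓞 M) (J.map (algebraMap (𝓞 M) (𝓞 K)))
    rw [key J] at h4
    exact h4.symm
  · rw [← Ideal.absNorm_relNorm (𝓞 M) (𝓞 K), key J]

theorem lc_iso {M K : Type} [Field M] [NumberField M] [Algebra F M] [Field K] [NumberField K]
    [Algebra F K] [Algebra M K] [IsScalarTower F M K] (h1 : Module.finrank M K = 1) (Λ : ℂ → ℂ)
    (h : LC (PsiT M) Λ) : LC (PsiT K) Λ := by
  obtain ⟨ε, hε⟩ := V5b_equiv M K h1
  refine ⟨h.1, fun s hs => ?_⟩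
  rw [← ε.hasSum_iff]
  refine (h.2 s hs).congr_fun fun J => ?_
  show psiT (Ideal.relNorm O (ε J)) * (Ideal.absNorm (ε J) : ℂ) ^ (-s) =
    psiT (Ideal.relNorm O J) * (Ideal.absNorm J : ℂ) ^ (-s)
  rw [(hε J).1, (hε J).2]

theorem V5b_ind {M : Type} [Field M] [NumberField M] [Algebra F M] (hM : BaseF M)
    (ΛM : ℂ → ℂ) (hL : LC (PsiT M) ΛM) (hi : Int3 (ΛM 1 / RT ^ Module.finrank F M)) (k : ℕ) :
    ∀ (K : Type) [Field K] [NumberField K] [Algebra F K] [Algebra M K] [IsScalarTower F M K],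
      RelT M K → Module.finrank M K = 3 ^ k →
      ∃ Λ : ℂ → ℂ, LC (PsiT K) Λ ∧ Int3 (Λ 1 / RT ^ Module.finrank F K) ∧
        ∀ V : ValuationSubring ℂ, V.valuation 3 < 1 →
          (V.valuation (Λ 1 / RT ^ Module.finrank F K) = 1 ↔
            V.valuation (ΛM 1 / RT ^ Module.finrank F M) = 1 ∧ GoodRel M K) := by
  induction k with
  | zero =>
    intro K _ _ _ _ _ _ hk
    rw [pow_zero] at hk
    have hr : Module.finrank F K = Module.finrank F M := by
      rw [← Module.finrank_mul_finrank F M K, hk, mul_one]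
    refine ⟨ΛM, lc_iso hk ΛM hL, ?_, ?_⟩
    · rw [hr]
      exact hi
    · intro V _
      rw [hr]
      exact ⟨fun h => ⟨h, fun w _ hne => absurd (e_one_base hk w) hne⟩, fun h => h.1⟩
  | succ k ih =>
    intro K' _ _ _ _ _ hS hk
    have hn : Module.finrank M K' ≠ 1 := by
      rw [hk]
      exact (Nat.one_lt_pow (Nat.succ_ne_zero k) (by norm_num)).ne'
    obtain ⟨K, i1, i2, i3, i4, i5, i6, i7, i8, hSK, h3, hG⟩ := relT_step hS hn
    have hk1 : Module.finrank M K = 3 ^ k := by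
      have h4 := Module.finrank_mul_finrank M K K'
      rw [h3, hk, pow_succ] at h4
      exact Nat.eq_of_mul_eq_mul_right (by norm_num) h4
    have hB : BaseF K := baseF_rel hM hSK
    obtain ⟨Λ1, hL1, hi1, hV1⟩ := ih K hSK hk1
    obtain ⟨Λ2, hL2, hi2, hV2⟩ := layer_L K K' hB h3 hG
      (fun W h3W => relT_unr_top (M := M) hS W h3W) Λ1 hL1 hi1
    refine ⟨Λ2, hL2, hi2, fun V hV => ?_⟩
    rw [hV2 V hV, hV1 V hV, goodRel_layer (M := M) (K := K) (K' := K') h3 hG, and_assoc]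

theorem rel_L {M K : Type} [Field M] [NumberField M] [Algebra F M] [Field K] [NumberField K]
    [Algebra F K] [Algebra M K] [IsScalarTower F M K] (hM : BaseF M) (hS : RelT M K)
    (ΛM : ℂ → ℂ) (hL : LC (PsiT M) ΛM) (hi : Int3 (ΛM 1 / RT ^ Module.finrank F M)) :
    ∃ Λ : ℂ → ℂ, LC (PsiT K) Λ ∧ Int3 (Λ 1 / RT ^ Module.finrank F K) ∧
      ∀ V : ValuationSubring ℂ, V.valuation 3 < 1 →
        (V.valuation (Λ 1 / RT ^ Module.finrank F K) = 1 ↔
          V.valuation (ΛM 1 / RT ^ Module.finrank F M) = 1 ∧ GoodRel M K) := by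
  obtain ⟨k, hk⟩ := relT_rank hS
  exact V5b_ind hM ΛM hL hi k K hS hk

theorem F_L : ∃ Λ : ℂ → ℂ, LC (PsiT F) Λ ∧ Unit3 (Λ 1 / RT ^ Module.finrank F F) := by
  obtain ⟨Λ, h1, h2, h3⟩ := LVT_base F (Module.finrank_self F)
  exact ⟨Λ, ⟨h1, h2⟩, h3⟩

end H35Z
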