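import Mathlib
import Pool.Agent.Lib.H35Z.A14
import Pool.Agent.Lib.H35Z.P7
import Pool.Agent.Lib.H35Z.P9
import Pool.Agent.Lib.H35Z.V5b
import Pool.Agent.Lib.H35Z.V11
import Pool.Agent.Lib.H35Z.V13
import Pool.Agent.Lib.H35Z.V15

/-! Assembly: the exact criterion and the relative criterion (helper35). -/

open NumberField IsDedekindDomain

namespace H35Z

open H55B H35T H55N H19T H13E H35X H13N

/-- Complex conjugation and valuations. -/
theorem exists_cval (V : ValuationSubring ℂ) (hV : V.valuation 3 < 1) :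
    ∃ V' : ValuationSubring ℂ, V'.valuation 3 < 1 ∧
      ∀ x : ℂ, V.valuation ((starRingEnd ℂ) x) = 1 ↔ V'.valuation x = 1 := by
  have h2 : (3 : ℂ) ≠ 0 := three_ne_zero
  set B : ValuationSubring ℂ := V.comap (starRingEnd ℂ) with hB
  have hmem : ∀ z : ℂ, z ∈ B ↔ (starRingEnd ℂ) z ∈ V := fun z => Iff.rfl
  refine ⟨B, ?_, fun x => ?_⟩
  · rw [i4_lt B h2, hmem, map_inv₀, map_ofNat, ← i4_lt V h2]
    exact hV
  · by_cases hx : x = 0
    · rw [hx, map_zero, map_zero, map_zero]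
      exact iff_of_false zero_ne_one zero_ne_one
    · rw [i4_eq B hx, i4_eq V ((map_ne_zero (starRingEnd ℂ)).2 hx), hmem, hmem, map_inv₀]

theorem val_mul_one (V : ValuationSubring ℂ) (x y : ℂ) (hx : V.valuation x ≤ 1)
    (hy : V.valuation y ≤ 1) : V.valuation (x * y) = 1 ↔ V.valuation x = 1 ∧ V.valuation y = 1 := by
  constructor
  · intro h
    rw [map_mul] at h
    have h0 : V.valuation x ≠ 0 := fun h0 => by
      rw [h0, zero_mul] at h
      exact zero_ne_one h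
    have h1 : V.valuation x = 1 := by
      refine le_antisymm hx ?_
      rw [← h]
      exact mul_le_of_le_one_right' hy
    rw [h1, one_mul] at h
    exact ⟨h1, h⟩
  · rintro ⟨h1, h2⟩
    rw [map_mul, h1, h2, one_mul]

/-- The analytic order of Sha over a field containing F. -/
theorem valK {K : Type} [Field K] [NumberField K] [Algebra F K] (hB : BaseF K) (d : ℤ)
    (hd : AdmAt d K) (Λ₁ : ℂ → ℂ) (hL : LC (PsiT K) Λ₁)
    (hi : Int3 (Λ₁ 1 / RT ^ Module.finrank F K)) :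
    ∃ Λ : ℂ → ℂ, ContD d K Λ ∧ ∀ L : PeriodPair, L.g₂ = 0 → L.g₃ = 4 * (d : ℂ) ^ 2 →
      Int3 (shaD d K L (Λ 1)) ∧ ∀ V : ValuationSubring ℂ, V.valuation 3 < 1 →
        (V.valuation (shaD d K L (Λ 1)) = 1 ↔
          V.valuation (Λ₁ 1 / RT ^ Module.finrank F K) = 1 ∧
          V.valuation ((starRingEnd ℂ) (Λ₁ 1 / RT ^ Module.finrank F K)) = 1) := by
  obtain ⟨χ, hχ⟩ := exists_DChr K d hd.1
  obtain ⟨Λ₂, h21, h22, h23⟩ := twist_d hB d hd χ hχ.c Λ₁ hL hi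
  obtain ⟨Λ, hΛ, h1⟩ := L_of_lcd hB.unr hB.two d hd χ hχ Λ₂ h21
  refine ⟨Λ, hΛ, fun L g2 g3 => ?_⟩
  obtain ⟨u, hu, hsha⟩ := shaD_eq d hd.1 (disc_base hB) (CEK_unit K hB.unr hB.two d hd)
    (tors_cop d (admAt_ne hd) K (fun x => no_i3 hB.odd x) (fun x => no_r3 hB.odd x)) L g2 g3
  have hs : shaD d K L (Λ 1) = ((Λ₂ 1 / RT ^ Module.finrank F K) *
      (starRingEnd ℂ) (Λ₂ 1 / RT ^ Module.finrank F K)) * ((-1) ^ Module.finrank F K * u) := by
    rw [hsha, h1, val_F K]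
    ring
  have hu' : Unit3 ((-1 : ℂ) ^ Module.finrank F K * u) := (W13_neg _).mul hu
  have hm : Int3 ((Λ₂ 1 / RT ^ Module.finrank F K) *
      (starRingEnd ℂ) (Λ₂ 1 / RT ^ Module.finrank F K)) := Int3_mul h22 (Int3.conj h22)
  refine ⟨by rw [hs]; exact Int3_mul hm (Int3_of_unit hu'), fun V hV => ?_⟩
  obtain ⟨V', hV', hc⟩ := exists_cval V hV
  rw [hs, val_mul_one V _ _ (hm V hV) (hu' V hV).le, and_iff_left (hu' V hV),
    val_mul_one V _ _ (h22 V hV) (Int3.conj h22 V hV), h23 V hV, hc, h23 V' hV', ← hc]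

/-- The criterion from the value at 1. -/
theorem critD_of {K : Type} [Field K] [NumberField K] (d : ℤ) (hd : AdmAt d K)
    (hi : ∀ x : K, x ^ 2 ≠ -1) (h3 : ∀ x : K, x ^ 2 ≠ 3) (hsg : SelZ d K ↔ GoodRam3 K)
    (Λ : ℂ → ℂ) (hc : ContD d K Λ)
    (h : ∀ L : PeriodPair, L.g₂ = 0 → L.g₃ = 4 * (d : ℂ) ^ 2 →
      Int3 (shaD d K L (Λ 1)) ∧ ∀ V : ValuationSubring ℂ, V.valuation 3 < 1 →
        (V.valuation (shaD d K L (Λ 1)) = 1 ↔ GoodRam3 K)) : CritD d K := by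
  have hd0 : d ≠ 0 := admAt_ne hd
  refine ⟨exists_per d hd0, Λ, hc, fun L g2 g3 => ?_⟩
  obtain ⟨h1, h2⟩ := h L g2 g3
  refine ⟨h1, ⟨fun hs => ?_, fun hu => ?_⟩, hsg, fun hs => ?_, fun hs V hV => ?_⟩
  · have hU : Unit3 (shaD d K L (Λ 1)) := fun V hV => (h2 V hV).2 (hsg.1 hs)
    refine ⟨fun h0 => hU.ne_zero ?_, hU⟩
    rw [h0]
    simp [shaD]
  · obtain ⟨V, hV⟩ := exists_val3
    exact hsg.2 ((h2 V hV).1 (hu.2 V hV))
  · have hf := E_finite d hd0 K hi hs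
    exact ⟨hf, fin_cop d hd0 K hi h3 hf⟩
  · exact lt_of_le_of_ne (h1 V hV) fun h4 => hs (hsg.2 ((h2 V hV).1 h4))

/-- Fields containing the cube roots of unity. -/
theorem critD_F (K : Type) [Field K] [NumberField K] [Algebra F K] (hS : RelT F K) (d : ℤ)
    (hd : AdmAt d K) : CritD d K := by
  have hB : BaseF K := baseF_rel baseF_F hS
  obtain ⟨ΛF, hF1, hF2⟩ := F_L
  obtain ⟨Λ₁, h11, h12, h13⟩ := rel_L baseF_F hS ΛF hF1 (Int3_of_unit hF2)
  obtain ⟨Λ, hc, h⟩ := valK hB d hd Λ₁ h11 h12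
  have hsg : SelZ d K ↔ GoodRam3 K := (selZ_iff hB.two d hd).trans (selZ3_F K hS)
  refine critD_of d hd (fun x => no_i3 hB.odd x) (fun x => no_r3 hB.odd x) hsg Λ hc
    fun L g2 g3 => ⟨(h L g2 g3).1, fun V hV => ?_⟩
  obtain ⟨V', hV', hcV⟩ := exists_cval V hV
  rw [(h L g2 g3).2 V hV, h13 V hV, hcV, h13 V' hV', goodRam_iff_rel K]
  exact ⟨fun h => h.1.2, fun h => ⟨⟨hF2 V hV, h⟩, hF2 V' hV', h⟩⟩

/-- The 3-part of the discriminant of a subfield. -/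
theorem discOK_of {K₀ K : Type} [Field K₀] [NumberField K₀] [Field K] [NumberField K] [Algebra F K]
    [Algebra K₀ K] (hS : RelT F K) : DiscOK K₀ := by
  obtain ⟨L, i1, i2, i3, i4, i5, hG, ⟨k, hk⟩, hU⟩ := hS
  obtain ⟨N, j1, j2, j3, j4, j5, m, hN⟩ := exists_galNZ L hG k hk hU
  letI : Algebra K₀ N := ((algebraMap L N).comp ((algebraMap K L).comp (algebraMap K₀ K))).toAlgebra
  exact disc0NZ (K₀ := K₀) hN

/-- Fields not containing the cube roots of unity. -/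
theorem critD_0 (K₀ K : Type) [Field K₀] [NumberField K₀] [Field K] [NumberField K] [Algebra F K]
    [Algebra K₀ K] (hQ : Quad K₀ K) (hS : RelT F K) (hK : Cls3T K₀) (d : ℤ) (hd : AdmAt d K₀) :
    CritD d K₀ := by
  have hB : BaseF K := baseF_rel baseF_F hS
  have hd' : AdmAt d K := admAt_up hQ hd
  have h20 : OddTwo K₀ := oddTwo_down hB.two
  have hi0 : ∀ x : K₀, x ^ 2 ≠ -1 := fun x hx => no_i3 hB.odd (algebraMap K₀ K x) (by
    rw [← map_pow, hx, map_neg, map_one])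
  have h30 : ∀ x : K₀, x ^ 2 ≠ 3 := fun x hx => no_r3 hB.odd (algebraMap K₀ K x) (by
    rw [← map_pow, hx, map_ofNat])
  obtain ⟨ΛF, hF1, hF2⟩ := F_L
  obtain ⟨Λ₁, h11, h12, h13⟩ := rel_L baseF_F hS ΛF hF1 (Int3_of_unit hF2)
  obtain ⟨χ, hχ⟩ := exists_DChr K d hd.1
  obtain ⟨Λ₂, h21, h22, h23⟩ := twist_d hB d hd' χ hχ.c Λ₁ h11 h12
  have hc : ContD d K₀ Λ₂ := L_of_lc0d hQ hB.unr hB.two d hd χ hχ Λ₂ h21
  have hsg : SelZ d K₀ ↔ GoodRam3 K₀ := (selZ_iff h20 d hd).trans (selZ3_iff K₀ hK)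
  refine critD_of d hd hi0 h30 hsg Λ₂ hc fun L g2 g3 => ?_
  obtain ⟨u, hu, hsha⟩ := shaD_eq d hd.1 (discOK_of (K₀ := K₀) hS) (CEK_unit K hB.unr h20 d hd)
    (tors_cop d (admAt_ne hd) K₀ hi0 h30) L g2 g3
  rw [hsha, ← rank_rel hQ]
  refine ⟨Int3_mul h22 (Int3_of_unit hu), fun V hV => ?_⟩
  rw [val_mul_one V _ _ (h22 V hV) (hu V hV).le, and_iff_left (hu V hV), h23 V hV, h13 V hV,
    ← goodRam_iff_rel K, and_iff_right (hF2 V hV)]
  exact ⟨fun h => bad_up3 hQ h, fun h => good_up3 hQ h⟩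

/-- THEOREM (the exact criterion). -/
theorem critD (K : Type) [Field K] [NumberField K] (hK : Cls3T K) (d : ℤ) (hd : AdmAt d K) :
    CritD d K := by
  rcases cls3T_cases K hK with ⟨i, hS⟩ | ⟨K₁, h1, h2, h3, h4, hQ, hS⟩
  · exact critD_F K hS d hd
  · exact critD_0 K K₁ hQ hS hK d hd

/-- THEOREM (the relative criterion). -/
theorem critRel (M K : Type) [Field M] [NumberField M] [Algebra F M] [Field K] [NumberField K]
    [Algebra M K] (hM : BaseF M) (hS : RelT M K) (d : ℤ) (hd : AdmAt d K) : CritRel d M K := by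
  letI : Algebra F K := ((algebraMap M K).comp (algebraMap F M)).toAlgebra
  haveI : IsScalarTower F M K := IsScalarTower.of_algebraMap_eq fun _ => rfl
  have hB : BaseF K := baseF_rel hM hS
  have hdM : AdmAt d M := admAt_down hd
  obtain ⟨ΛM, hM1, hM2⟩ := base_L hM
  obtain ⟨ΛK, hK1, hK2, hK3⟩ := rel_L hM hS ΛM hM1 hM2
  obtain ⟨Λ, hc, h⟩ := valK hM d hdM ΛM hM1 hM2
  obtain ⟨Λ', hc', h'⟩ := valK hB d hd ΛK hK1 hK2
  refine ⟨Λ, Λ', hc, hc', fun L g2 g3 V hV => ⟨(h L g2 g3).1 V hV, (h' L g2 g3).1 V hV, ?_⟩, ?_⟩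
  · obtain ⟨V', hV', hcV⟩ := exists_cval V hV
    rw [(h' L g2 g3).2 V hV, (h L g2 g3).2 V hV, hK3 V hV, hcV, hK3 V' hV', ← hcV]
    tauto
  · rw [selZ_iff hB.two d hd, selZ_iff hM.two d hdM, selZ3_rel hM hS]

end H35Z
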