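import Mathlib
import Pool.Agent.Lib.H13E.X1
import Pool.Agent.Lib.H13E.X4
import Pool.Agent.Lib.H35T.I4
import Pool.Agent.Lib.H35X.X3
import Pool.Agent.Lib.H35Z.Defs
import Pool.Agent.Lib.H55N.T0

/-! Chunk X2 (M, copy of H35X/X3, X3b, X4): fields generated by roots of unity and cube roots, unramified above 3. pure_inertiaZ: the second half of the proof of H35X.pure_inertia (case 3 in w; its lemmas x3_cases, x3_int, x3_unit may be used); t is not in w: t in w gives a in w,
and a - 1 or a + 1 is divisible by 3, so 1 in w. unity_inertiaZ: H35X.unity_inertia with M prime to 3 and 3 in w (x M + y 3 = 1). gen3_galois: H35X.gen6_galois (only X1_splits_unity, X1_splits_cube, X1_pow, gal_om are used). gen3_unr: gen6_unr. cls_of_fam3: cls_of_fam6 (exists_big,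
exists_K of H13E/X4; the congruence modulo 3 (om - 1) is derived there from that modulo 9; m is not 0 since 3 divides 0). -/

open NumberField IsDedekindDomain

namespace H35Z

open H55B H35T H13E H35X

/-- K₀ has degree a power of 3 and is contained in a number field generated by m-th roots of unity (m prime to 3)
and cube roots of integers which are 1 or -1 modulo 9. -/
def Fam3 (K₀ : Type) [Field K₀] [NumberField K₀] : Prop :=
  (∃ k : ℕ, Module.finrank ℚ K₀ = 3 ^ k) ∧
  ∃ (m : ℕ) (N : Type) (_ : Field N) (_ : NumberField N) (_ : Algebra K₀ N) (S : Set N),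
    ¬ 3 ∣ m ∧ Algebra.adjoin ℚ S = ⊤ ∧
    ∀ s ∈ S, s ^ m = 1 ∨ ∃ a : ℤ, ((9 : ℤ) ∣ a - 1 ∨ (9 : ℤ) ∣ a + 1) ∧ s ^ 3 = (a : N)

theorem pure_inertiaZ (E : Type) [Field E] [NumberField E] [Algebra F E] (t : 𝓞 E) (a : O)
    (ht : t ^ 3 = algebraMap O (𝓞 E) a)
    (h3 : (3 * (om - 1) : O) ∣ a - 1 ∨ (3 * (om - 1) : O) ∣ a + 1)
    (w : HeightOneSpectrum (𝓞 E)) (hw : (3 : 𝓞 E) ∈ w.asIdeal)
    (g : E ≃ₐ[F] E) (hg : ∀ y : 𝓞 E, g • y - y ∈ w.asIdeal) :
    g • t = t := by
  have hwp := w.isPrime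
  have ha : algebraMap O (𝓞 E) a ∉ w.asIdeal := by
    intro ha
    apply hwp.ne_top
    rw [Ideal.eq_top_iff_one]
    rcases h3 with ⟨b, hb⟩ | ⟨b, hb⟩
    · have h8 := congrArg (algebraMap O (𝓞 E)) hb
      simp only [map_sub, map_mul, map_one, map_ofNat] at h8
      have e1 : (1 : 𝓞 E) = algebraMap O (𝓞 E) a -
          3 * ((algebraMap O (𝓞 E) om - 1) * algebraMap O (𝓞 E) b) := by
        linear_combination -h8
      rw [e1]
      exact Ideal.sub_mem _ ha (Ideal.mul_mem_right _ _ hw)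
    · have h8 := congrArg (algebraMap O (𝓞 E)) hb
      simp only [map_add, map_mul, map_sub, map_one, map_ofNat] at h8
      have e1 : (1 : 𝓞 E) = 3 * ((algebraMap O (𝓞 E) om - 1) * algebraMap O (𝓞 E) b) -
          algebraMap O (𝓞 E) a := by
        linear_combination h8
      rw [e1]
      exact Ideal.sub_mem _ (Ideal.mul_mem_right _ _ hw) ha
  obtain ⟨z, hzd⟩ : ∃ z : 𝓞 E, z = algebraMap O (𝓞 E) om := ⟨_, rfl⟩
  have hz : z ^ 2 + z + 1 = 0 := by
    rw [hzd, ← map_pow, ← map_one (algebraMap O (𝓞 E)), ← map_add, ← map_add, om_rel, map_zero]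
  have hgO : ∀ x : O, g • algebraMap O (𝓞 E) x = algebraMap O (𝓞 E) x := by
    intro x
    apply NumberField.RingOfIntegers.ext
    exact g.commutes (x : F)
  have hgz : g • z = z := by
    rw [hzd]
    exact hgO om
  have hz1 : z - 1 ≠ 0 := by
    intro h
    have h1 : z = 1 := sub_eq_zero.1 h
    rw [h1] at hz
    norm_num at hz
  have htw : t ∉ w.asIdeal := by
    intro h
    apply ha
    rw [← ht]
    exact Ideal.pow_mem_of_mem _ h 3 (by norm_num)
  have hg3 : (g • t) ^ 3 = t ^ 3 := by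
    rw [← smul_pow', ht, hgO]
  by_contra hne
  -- a multiple of z - 1
  have hmul : ∃ c : 𝓞 E, c ∉ w.asIdeal ∧ g • t - t = (z - 1) * c := by
    rcases x3_cases hz hg3 with h | h | h
    · exact absurd h hne
    · exact ⟨t, htw, by rw [h]; ring⟩
    · refine ⟨(z + 1) * t, fun h1 => htw (x3_unit hz w.asIdeal hwp h1), ?_⟩
      rw [h]
      ring
  obtain ⟨c, hc, hgt⟩ := hmul
  have hS : ∃ S ε : 𝓞 E, (ε = 1 ∨ ε = -1) ∧ ε * t - 1 = (z - 1) * S := by
    rcases h3 with ⟨b, hb⟩ | ⟨b, hb⟩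
    · obtain ⟨S, hS⟩ := x3_int E z t (algebraMap O (𝓞 E) b) hz (by
        have h8 := congrArg (algebraMap O (𝓞 E)) hb
        simp only [map_sub, map_mul, map_one, map_ofNat] at h8
        rw [ht, h8, hzd]) hz1
      exact ⟨S, 1, Or.inl rfl, by rw [one_mul]; exact hS⟩
    · obtain ⟨S, hS⟩ := x3_int E z (-t) (algebraMap O (𝓞 E) (-b)) hz (by
        have h8 := congrArg (algebraMap O (𝓞 E)) hb
        simp only [map_add, map_mul, map_sub, map_one, map_ofNat] at h8
        rw [map_neg, hzd]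
        linear_combination -h8 - ht) hz1
      exact ⟨S, -1, Or.inr rfl, by rw [neg_one_mul]; exact hS⟩
  obtain ⟨S, ε, hε, hS⟩ := hS
  have hgε : g • ε = ε := by
    rcases hε with h | h
    · rw [h, smul_one]
    · rw [h, smul_neg, smul_one]
  have h9 : (z - 1) * (g • S - S) = (z - 1) * (ε * c) := by
    have h10 : g • (ε * t - 1) = g • ((z - 1) * S) := by rw [hS]
    rw [smul_sub, smul_mul', smul_one, hgε, smul_mul', smul_sub, hgz, smul_one] at h10
    linear_combination -h10 + hS + ε * hgt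
  have h11 : g • S - S = ε * c := mul_left_cancel₀ hz1 h9
  have h12 := hg S
  rw [h11] at h12
  rcases hε with h | h
  · rw [h, one_mul] at h12
    exact hc h12
  · rw [h, neg_one_mul] at h12
    exact hc ((Ideal.neg_mem_iff _).1 h12)

theorem unity_inertiaZ (E : Type) [Field E] [NumberField E] [Algebra F E] (s : E) (M : ℕ) (hM : ¬ 3 ∣ M)
    (hs : s ^ M = 1) (w : HeightOneSpectrum (𝓞 E)) (h3 : (3 : 𝓞 E) ∈ w.asIdeal)
    (g : E ≃ₐ[F] E) (hg : ∀ y : 𝓞 E, g • y - y ∈ w.asIdeal) : g s = s := by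
  have hwp := w.isPrime
  have hM0 : M ≠ 0 := by
    rintro rfl
    exact hM (dvd_zero 3)
  have hM3 : Nat.Coprime M 3 := ((Nat.Prime.coprime_iff_not_dvd Nat.prime_three).2 hM).symm
  have hsi : IsIntegral ℤ s := by
    refine IsIntegral.of_pow (Nat.pos_of_ne_zero hM0) ?_
    rw [hs]
    exact isIntegral_one
  obtain ⟨S, hS⟩ : ∃ S : 𝓞 E, algebraMap (𝓞 E) E S = s := ⟨⟨s, hsi⟩, rfl⟩
  have hSM : S ^ M = 1 := by
    apply NumberField.RingOfIntegers.ext
    show algebraMap (𝓞 E) E (S ^ M) = algebraMap (𝓞 E) E 1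
    rw [map_pow, map_one, hS, hs]
  have hgSM : (g • S) ^ M = 1 := by
    rw [← smul_pow', hSM, smul_one]
  have hSS : S * S ^ (M - 1) = 1 := by
    rw [← pow_succ', Nat.sub_add_cancel (Nat.one_le_iff_ne_zero.2 hM0), hSM]
  have hkey : g • S = S := by
    by_contra hne
    set R : 𝓞 E := (g • S) * S ^ (M - 1) with hR
    have hR1 : R - 1 ∈ w.asIdeal := by
      have h1 : R - 1 = (g • S - S) * S ^ (M - 1) := by
        rw [sub_mul, hSS, hR]
      rw [h1]
      exact Ideal.mul_mem_right _ _ (hg S)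
    have hRM : R ^ M = 1 := by
      rw [hR, mul_pow, hgSM, one_mul, ← pow_mul, mul_comm, pow_mul, hSM, one_pow]
    have hRne : R - 1 ≠ 0 := by
      intro h
      apply hne
      have h2 : R * S = S := by
        rw [sub_eq_zero.1 h, one_mul]
      rw [hR, mul_assoc, mul_comm (S ^ (M - 1)) S, hSS, mul_one] at h2
      exact h2
    have hsum : ∑ i ∈ Finset.range M, R ^ i = 0 := by
      have h3' := geom_sum_mul R M
      rw [hRM, sub_self] at h3'
      exact (mul_eq_zero.1 h3').resolve_right hRne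
    have hMw : (M : 𝓞 E) ∈ w.asIdeal := by
      rw [← Ideal.Quotient.eq_zero_iff_mem]
      have h4 : Ideal.Quotient.mk w.asIdeal R = 1 := by
        rw [← map_one (Ideal.Quotient.mk w.asIdeal)]
        exact (Ideal.Quotient.mk_eq_mk_iff_sub_mem R 1).2 hR1
      have h5 := congrArg (Ideal.Quotient.mk w.asIdeal) hsum
      rw [map_sum, map_zero] at h5
      simp only [map_pow, h4, one_pow, Finset.sum_const, Finset.card_range, nsmul_eq_mul,
        mul_one] at h5
      rw [map_natCast]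
      exact h5
    obtain ⟨x, y, hxy⟩ := Nat.isCoprime_iff_coprime.2 hM3
    apply hwp.ne_top
    rw [Ideal.eq_top_iff_one]
    have h6' : (1 : 𝓞 E) = (x : 𝓞 E) * (M : 𝓞 E) + (y : 𝓞 E) * 3 := by
      have h7 := congrArg (Int.cast : ℤ → 𝓞 E) hxy
      push_cast at h7
      exact h7.symm
    rw [h6']
    exact Ideal.add_mem _ (Ideal.mul_mem_left _ _ hMw) (Ideal.mul_mem_left _ _ h3)
  have h8 := congrArg (algebraMap (𝓞 E) E) hkey
  rw [← hS]
  exact h8

/-- Generators of a field over F: M-th roots of unity, or cube roots of elements congruent to 1 or -1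
modulo 3(om - 1). -/
def Gen3 (K : Type) [Field K] [NumberField K] [Algebra F K] (M : ℕ) (s : K) : Prop :=
  s ^ M = 1 ∨ ∃ a : O, ((3 * (om - 1) : O) ∣ a - 1 ∨ (3 * (om - 1) : O) ∣ a + 1) ∧
    s ^ 3 = algebraMap O K a

variable {K : Type} [Field K] [NumberField K] [Algebra F K]

theorem gen3_galois (M : ℕ) (hM : 0 < M) (S : Set K) (hS : ∀ s ∈ S, Gen3 K M s)
    (hgen : Algebra.adjoin F S = ⊤) : IsGalois F K ∧ ∀ g h : K ≃ₐ[F] K, g * h = h * g := by
  have : IsScalarTower ℚ F K := IsScalarTower.of_algebraMap_eq' (Subsingleton.elim _ _)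
  have : FiniteDimensional F K := Module.Finite.of_restrictScalars_finite ℚ F K
  constructor
  · have hint : ∀ x : K, IsIntegral F x := fun x => Algebra.IsIntegral.isIntegral x
    have htop : ∀ x : K, x ∈ IntermediateField.adjoin F S := by
      intro x
      have h1 : x ∈ Algebra.adjoin F S := hgen ▸ Algebra.mem_top
      exact IntermediateField.algebra_adjoin_le_adjoin F S h1
    have hsp : ∀ s ∈ S, ((minpoly F s).map (algebraMap F K)).Splits := by
      intro s hs
      rcases hS s hs with h | ⟨a, -, ha⟩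
      · exact X1_splits_unity hM h
      · exact X1_splits_cube ha
    have hn : Normal F K := normal_iff.mpr fun x =>
      ⟨hint x, IntermediateField.splits_of_mem_adjoin F K (L := K) (S := S)
        (fun s hs => ⟨hint s, hsp s hs⟩) (htop x)⟩
    exact ⟨⟩
  · intro g h
    have h1 : ((g * h : K ≃ₐ[F] K) : K →ₐ[F] K) = ((h * g : K ≃ₐ[F] K) : K →ₐ[F] K) := by
      refine AlgHom.ext_of_adjoin_eq_top hgen fun s hs => ?_
      show g (h s) = h (g s)
      rcases hS s hs with hs1 | ⟨a, -, ha⟩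
      · obtain ⟨i, hi⟩ := X1_pow hM hs1 g
        obtain ⟨j, hj⟩ := X1_pow hM hs1 h
        rw [hi, hj, map_pow, map_pow, hi, hj, ← pow_mul, ← pow_mul, mul_comm]
      · obtain ⟨i, -, hi⟩ := gal_om s a ha g
        obtain ⟨j, -, hj⟩ := gal_om s a ha h
        rw [hi, hj, map_mul, map_mul, map_pow, map_pow, K1_fix, K1_fix, hi, hj]
        ring
    ext x
    exact congrArg (fun f : K →ₐ[F] K => f x) h1

theorem gen3_unr (M : ℕ) (hM : ¬ 3 ∣ M) (S : Set K) (hS : ∀ s ∈ S, Gen3 K M s)
    (hgen : Algebra.adjoin F S = ⊤) : H35N.Unr3 K := by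
  have hM0 : 0 < M := by
    rcases Nat.eq_zero_or_pos M with h | h
    · rw [h] at hM
      exact absurd (dvd_zero 3) hM
    · exact h
  have hG := (gen3_galois M hM0 S hS hgen).1
  intro w h3
  rw [H55C.inertia_iff w]
  intro g hg
  have h1 : ((g : K ≃ₐ[F] K) : K →ₐ[F] K) = ((1 : K ≃ₐ[F] K) : K →ₐ[F] K) := by
    refine AlgHom.ext_of_adjoin_eq_top hgen fun s hs => ?_
    show g s = s
    rcases hS s hs with hs1 | ⟨a, ha3, ha⟩
    · exact unity_inertiaZ K s M hM hs1 w h3 g hg
    · have hint : IsIntegral ℤ s := by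
        have h2 : IsIntegral ℤ (s ^ 3) := by
          rw [ha, IsScalarTower.algebraMap_apply O (𝓞 K) K]
          exact RingOfIntegers.isIntegral_coe _
        exact IsIntegral.of_pow (by norm_num) h2
      let t : 𝓞 K := ⟨s, hint⟩
      have ht : t ^ 3 = algebraMap O (𝓞 K) a := by
        apply RingOfIntegers.ext
        show s ^ 3 = _
        rw [ha, IsScalarTower.algebraMap_apply O (𝓞 K) K]
      have h2 := pure_inertiaZ K t a ht ha3 w h3 g hg
      exact congrArg (algebraMap (𝓞 K) K) h2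
  ext x
  exact congrArg (fun f : K →ₐ[F] K => f x) h1

theorem cls_of_fam3 (K₀ : Type) [Field K₀] [NumberField K₀] (h : Fam3 K₀) : Cls3T K₀ := by
  obtain ⟨⟨k, hk⟩, m, N, _, _, _, S, hm, hgen, hS⟩ := h
  obtain ⟨N₁, i1, i2, i3, i4, hN₁⟩ := exists_big N
  let _ : Algebra K₀ N₁ := ((algebraMap N N₁).comp (algebraMap K₀ N)).toAlgebra
  have hgen₁ := hN₁ S hgen
  have hS₁ : ∀ s ∈ algebraMap N N₁ '' S, Gen3 N₁ m s := by
    rintro _ ⟨s, hs, rfl⟩
    rcases hS s hs with h | ⟨a, ha9, ha⟩
    · left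
      rw [← map_pow, h, map_one]
    · right
      refine ⟨(a : O), ?_, ?_⟩
      · have h3 := three_eq
        rcases ha9 with ⟨b, hb⟩ | ⟨b, hb⟩
        · left
          refine ⟨-om ^ 2 * (om - 1) * b, ?_⟩
          have h4 : (a : O) - 1 = 9 * (b : O) := by
            have := congrArg (Int.cast : ℤ → O) hb
            push_cast at this
            exact this
          linear_combination h4 + (3 * (b : O)) * h3
        · right
          refine ⟨-om ^ 2 * (om - 1) * b, ?_⟩
          have h4 : (a : O) + 1 = 9 * (b : O) := by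
            have := congrArg (Int.cast : ℤ → O) hb
            push_cast at this
            exact this
          linear_combination h4 + (3 * (b : O)) * h3
      · rw [← map_pow, ha, map_intCast, map_intCast]
  have hm0 : 0 < m := by
    rcases Nat.eq_zero_or_pos m with h | h
    · rw [h] at hm
      exact absurd (dvd_zero 3) hm
    · exact h
  obtain ⟨hG, hc⟩ := gen3_galois m hm0 _ hS₁ hgen₁
  have hU := gen3_unr m hm _ hS₁ hgen₁
  obtain ⟨K, _, _, _, _, _, hT, hQ, hr⟩ := exists_K K₀ N₁ k hk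
  have hN : IsAbelianGalois F N₁ := { toIsGalois := hG, is_comm := ⟨hc⟩ }
  have hK : IsAbelianGalois F K := IsAbelianGalois.tower_bot F K N₁
  refine ⟨K, inferInstance, inferInstance, inferInstance, inferInstance, ⟨inferInstance, k, hr⟩, ?_⟩
  intro w h3
  obtain ⟨W, hW, -⟩ := H55N.T0_above N₁ w
  have h3W : (3 : 𝓞 N₁) ∈ W.asIdeal := by
    have h7 := hW.over
    rw [h7, Ideal.mem_comap, map_ofNat] at h3
    exact h3
  have h1 := hU W h3W
  have h2 := Ideal.ramificationIdx_tower (R := O) w.asIdeal W.asIdeal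
  rw [h1] at h2
  exact Nat.eq_one_of_mul_eq_one_right h2.symm

end H35Z
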