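import Mathlib
import Pool.Agent.Lib.H35X.X2
import Pool.Agent.Lib.H35X.X5
import Pool.Agent.Lib.H35Z.X2

/-! Chunk X3 (M, copy of the end of H35X/X4.lean and of H35X/X5.lean): pure cubic fields, K₀ = Q(t), t^3 = n, n without cubed prime factors, 1 or -1 modulo 9. not_cubeZ: as H35X.not_cube: n is divisible by a prime p with 1 <= v_p(n) <= 2, so n is not a cube of a rational number. pure_topZ: as
pure_top. cls_of_pureZ: cls_of_fam3 with m = 1, as cls_of_pure. goodRam_pureZ: X5_ram for p | n: v_p(n) = a with a = 1 or 2, 3 v_w(t) = a e, so 3 | e, e = 3, f = 1, N(w) = p (write n = p^a m, p not dividing m). X5_different: n is not the cube of an integer (not_cubeZ), otherwise word for word.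
Final proof as goodRam_pure: left to right: p | n, p not 2, p not 3 (n is prime to 3), so 6 is not in w (w above p). Right to left: w not above 6 and ramified: 3 t^2 in w, t in w, n in w; the prime number p in w (x2_prime) divides n (otherwise 1 in w), and p is not 2 since 6 is not in w. -/

open NumberField IsDedekindDomain

namespace H35Z

open H55B H35T H13E H35X

theorem not_cubeZ (n : ℕ) (h1 : 1 < n) (hs : ∀ p : ℕ, p.Prime → ¬ p ^ 3 ∣ n) (b : ℚ) : b ^ 3 ≠ (n : ℚ) := by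
  intro h
  obtain ⟨p, hp, hpn⟩ := Nat.exists_prime_and_dvd (ne_of_gt h1)
  haveI : Fact p.Prime := ⟨hp⟩
  have hb : b ≠ 0 := by
    rintro rfl
    have : (n : ℚ) = 0 := by rw [← h]; norm_num
    have h2 : n = 0 := by exact_mod_cast this
    omega
  have h2 := congrArg (padicValRat p) h
  rw [padicValRat.pow, padicValRat.of_nat] at h2
  have h4 : 1 ≤ padicValNat p n := one_le_padicValNat_of_dvd (by omega) hpn
  have h5 : ¬ 3 ≤ padicValNat p n := by
    intro h6
    exact hs p hp ((padicValNat_dvd_iff_le (by omega)).2 h6)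
  have h7 : padicValNat p n = 1 ∨ padicValNat p n = 2 := by omega
  rcases h7 with h7 | h7 <;> rw [h7] at h2 <;> push_cast at h2 <;> omega

theorem pure_topZ (K₀ : Type) [Field K₀] [NumberField K₀] (hk : Module.finrank ℚ K₀ = 3) (n : ℕ)
    (t : K₀) (ht : t ^ 3 = (n : K₀)) (h1 : 1 < n) (hs : ∀ p : ℕ, p.Prime → ¬ p ^ 3 ∣ n) :
    Algebra.adjoin ℚ {t} = ⊤ := by
  have hirr : Irreducible (Polynomial.X ^ 3 - Polynomial.C (n : ℚ)) :=
    X_pow_sub_C_irreducible_of_prime Nat.prime_three fun b => not_cubeZ n h1 hs b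
  have hroot : Polynomial.aeval t (Polynomial.X ^ 3 - Polynomial.C (n : ℚ)) = 0 := by
    rw [map_sub, map_pow, Polynomial.aeval_X, Polynomial.aeval_C, map_natCast, ht, sub_self]
  have hmin := minpoly.eq_of_irreducible_of_monic hirr hroot
    (Polynomial.monic_X_pow_sub_C _ three_ne_zero)
  have hdeg : (minpoly ℚ t).natDegree = 3 := by
    rw [← hmin, Polynomial.natDegree_X_pow_sub_C]
  have hint : IsIntegral ℚ t := Algebra.IsIntegral.isIntegral t
  have h3 : IntermediateField.adjoin ℚ {t} = ⊤ := by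
    apply (Field.primitive_element_iff_minpoly_natDegree_eq ℚ t).2
    rw [hdeg, hk]
  have h4 := IntermediateField.adjoin_simple_toSubalgebra_of_isAlgebraic hint.isAlgebraic
  rw [← h4, h3, IntermediateField.top_toSubalgebra]

/-- Pure cubic fields. -/
theorem cls_of_pureZ (K₀ : Type) [Field K₀] [NumberField K₀] (hk : Module.finrank ℚ K₀ = 3) (n : ℕ)
    (t : K₀) (ht : t ^ 3 = (n : K₀)) (h1 : 1 < n) (hs : ∀ p : ℕ, p.Prime → ¬ p ^ 3 ∣ n) 
    (h9 : n % 9 = 1 ∨ n % 9 = 8) : Cls3T K₀ := by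
  apply cls_of_fam3
  refine ⟨⟨1, by rw [hk, pow_one]⟩, 1, K₀, inferInstance, inferInstance, inferInstance, {t},
    by norm_num, pure_topZ K₀ hk n t ht h1 hs, ?_⟩
  intro s hss
  rw [Set.mem_singleton_iff] at hss
  subst hss
  right
  refine ⟨(n : ℤ), ?_, by rw [ht, Int.cast_natCast]⟩
  · rcases h9 with h | h
    · left
      omega
    · right
      omega

theorem X5_ramZ {K₀ : Type} [Field K₀] [NumberField K₀] (hk : Module.finrank ℚ K₀ = 3) (n : ℕ)
    (t : K₀) (ht : t ^ 3 = (n : K₀)) (hn0 : n ≠ 0) (hs : ∀ p : ℕ, p.Prime → ¬ p ^ 3 ∣ n) {p : ℕ} (hp : p.Prime) (hpn : p ∣ n)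
    (w : HeightOneSpectrum (𝓞 K₀)) (hpw : (p : 𝓞 K₀) ∈ w.asIdeal) :
    w.asIdeal.ramificationIdx ℤ = 3 ∧ Ideal.absNorm w.asIdeal = p := by
  have hp' : Prime (p : ℤ) := Nat.prime_iff_prime_int.1 hp
  have hover := X5_over w hp hpw
  have hne : Ideal.span {(p : ℤ)} ≠ ⊥ := by
    rw [Ne, Ideal.span_singleton_eq_bot]
    exact hp'.ne_zero
  have hmax : (Ideal.span {(p : ℤ)}).IsMaximal :=
    PrincipalIdealRing.isMaximal_of_irreducible hp'.irreducible
  let v : HeightOneSpectrum ℤ := ⟨Ideal.span {(p : ℤ)}, hmax.isPrime, hne⟩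
  have hlv : w.asIdeal.LiesOver v.asIdeal := hover
  obtain ⟨m, hpm, hm⟩ : ∃ m, ¬ p ∣ m ∧ n = p ^ (n.factorization p) * m := by
    refine ⟨n / p ^ (n.factorization p), Nat.not_dvd_ordCompl hp hn0, ?_⟩
    exact (Nat.ordProj_mul_ordCompl_eq_self n p).symm
  obtain ⟨a, ha⟩ : ∃ a, a = n.factorization p := ⟨_, rfl⟩
  rw [← ha] at hm
  have ha0 : a ≠ 0 := by
    rintro rfl
    rw [pow_zero, one_mul] at hm
    rw [hm] at hpn
    exact hpm hpn
  have ha3 : a < 3 := by
    by_contra h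
    rw [not_lt] at h
    apply hs p hp
    rw [hm]
    exact dvd_mul_of_dvd_left (pow_dvd_pow _ h) _
  have hvn : v.valuation ℚ (n : ℚ) = WithZero.exp (-(a : ℤ)) := by
    have h1 : (n : ℚ) = algebraMap ℤ ℚ (n : ℤ) := by simp
    have h3 : ((p ^ a * m : ℕ) : ℤ) = (p : ℤ) ^ a * (m : ℤ) := by push_cast; ring
    rw [h1, HeightOneSpectrum.valuation_of_algebraMap, hm, h3]
    rw [map_mul, map_pow, HeightOneSpectrum.intValuation_singleton v hp'.ne_zero rfl]
    have h2 : v.intValuation (m : ℤ) = 1 := by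
      rw [HeightOneSpectrum.intValuation_eq_one_iff]
      intro h3
      apply hpm
      have h4 : (m : ℤ) ∈ Ideal.span {(p : ℤ)} := h3
      rw [Ideal.mem_span_singleton] at h4
      exact_mod_cast h4
    rw [h2, mul_one, ← WithZero.exp_nsmul, WithZero.exp_inj, nsmul_eq_mul]
    ring
  have hval := HeightOneSpectrum.valuation_liesOver K₀ v w (n : ℚ)
  rw [hvn, map_natCast, ← ht, map_pow] at hval
  have hlog := congrArg WithZero.log hval
  rw [WithZero.log_pow, WithZero.log_pow, WithZero.log_exp] at hlog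
  have he0 : v.asIdeal.ramificationIdx' w.asIdeal ≠ 0 :=
    Ideal.IsDedekindDomain.ramificationIdx'_ne_zero_of_liesOver _ v.ne_bot
  have he := Ideal.ramificationIdx'_eq_ramificationIdx v.asIdeal w.asIdeal v.ne_bot
  rw [he] at hlog he0
  have hwm := w.isMaximal
  have hvm : v.asIdeal.IsMaximal := hmax
  have hle := X5_le w
  rw [hk] at hle
  have hfp := w.asIdeal.inertiaDeg_pos ℤ
  simp only [nsmul_eq_mul] at hlog
  have he3 : 3 ≤ w.asIdeal.ramificationIdx ℤ := by
    push_cast at hlog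
    have ha12 : a = 1 ∨ a = 2 := by omega
    rcases ha12 with ha12 | ha12
    · rw [ha12] at hlog
      push_cast at hlog
      omega
    · rw [ha12] at hlog
      push_cast at hlog
      omega
  have hef : w.asIdeal.ramificationIdx ℤ = 3 ∧ w.asIdeal.inertiaDeg ℤ = 1 := by
    constructor
    · nlinarith
    · nlinarith
  refine ⟨hef.1, ?_⟩
  have hN := Ideal.absNorm_eq_pow_inertiaDeg' w.asIdeal hp
  have hf : (Ideal.span {(p : ℤ)}).inertiaDeg' w.asIdeal = w.asIdeal.inertiaDeg ℤ := by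
    rw [Ideal.inertiaDeg_eq_of_isMaximal (Ideal.span {(p : ℤ)}) w.asIdeal, Ideal.inertiaDeg'_algebraMap]
  rw [hN, hf, hef.2, pow_one]

theorem X5_differentZ {K₀ : Type} [Field K₀] [NumberField K₀] (hk : Module.finrank ℚ K₀ = 3) (n : ℕ)
    (τ : 𝓞 K₀) (ht : τ ^ 3 = (n : 𝓞 K₀)) (h1 : 1 < n) (hs : ∀ p : ℕ, p.Prime → ¬ p ^ 3 ∣ n) :
    3 * τ ^ 2 ∈ differentIdeal ℤ (𝓞 K₀) := by
  have htK : ((τ : K₀)) ^ 3 = (n : K₀) := by
    have h4 : ((τ ^ 3 : 𝓞 K₀) : K₀) = (τ : K₀) ^ 3 := rfl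
    rw [← h4, ht]
    exact map_natCast (algebraMap (𝓞 K₀) K₀) n
  have hint : IsIntegral ℤ (τ : K₀) := τ.isIntegral_coe
  have hintQ : IsIntegral ℚ (τ : K₀) := hint.tower_top
  have hfr : Module.finrank ℚ (IntermediateField.adjoin ℚ {(τ : K₀)}) = 3 := by
    have h2 : Module.finrank ℚ (IntermediateField.adjoin ℚ {(τ : K₀)}) ∣ 3 := by
      rw [← hk]
      exact ⟨_, (Module.finrank_mul_finrank ℚ (IntermediateField.adjoin ℚ {(τ : K₀)}) K₀).symm⟩
    rcases (Nat.dvd_prime Nat.prime_three).1 h2 with h3 | h3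
    · exfalso
      rw [IntermediateField.finrank_adjoin_simple_eq_one_iff, IntermediateField.mem_bot] at h3
      obtain ⟨q, hq⟩ := h3
      have h4 : IsIntegral ℤ q := by
        rw [← hq] at hint
        exact (isIntegral_algebraMap_iff (algebraMap ℚ K₀).injective).1 hint
      obtain ⟨c, hc⟩ := IsIntegrallyClosed.isIntegral_iff.1 h4
      have h5 : c ^ 3 = (n : ℤ) := by
        have h6 : ((c : ℤ) : K₀) ^ 3 = (n : K₀) := by
          rw [← htK, ← hq, ← hc]
          simp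
        exact_mod_cast h6
      have h7 : c.natAbs ^ 3 = n := by
        have h8 := congrArg Int.natAbs h5
        rwa [Int.natAbs_pow, Int.natAbs_natCast] at h8
      obtain ⟨q', hq', hqn⟩ := Nat.exists_prime_and_dvd (ne_of_gt h1)
      rw [← h7] at hqn
      have h8 := hq'.dvd_of_dvd_pow hqn
      apply hs q' hq'
      rw [← h7]
      exact pow_dvd_pow_of_dvd h8 3
    · exact h3
  have htop : IntermediateField.adjoin ℚ {(τ : K₀)} = ⊤ := by
    rw [← IntermediateField.finrank_eq_one_iff_eq_top]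
    have h2 := Module.finrank_mul_finrank ℚ (IntermediateField.adjoin ℚ {(τ : K₀)}) K₀
    rw [hfr, hk] at h2
    omega
  have htop' : Algebra.adjoin ℚ {algebraMap (𝓞 K₀) K₀ τ} = ⊤ := by
    have h2 := IntermediateField.adjoin_simple_toSubalgebra_of_isAlgebraic hintQ.isAlgebraic
    rw [htop, IntermediateField.top_toSubalgebra] at h2
    exact h2.symm
  have hd := aeval_derivative_mem_differentIdeal ℤ ℚ K₀ τ htop'
  have hmin : minpoly ℤ τ = Polynomial.X ^ 3 - Polynomial.C (n : ℤ) := by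
    have e1 : minpoly ℤ τ = minpoly ℤ (τ : K₀) :=
      (minpoly.algebraMap_eq (FaithfulSMul.algebraMap_injective (𝓞 K₀) K₀) τ).symm
    rw [e1]
    have e2 := minpoly.isIntegrallyClosed_eq_field_fractions' ℚ hint
    have e3 : (minpoly ℤ (τ : K₀)).natDegree = 3 := by
      have h2 := IntermediateField.adjoin.finrank hintQ
      rw [hfr, e2, (minpoly.monic hint).natDegree_map] at h2
      exact h2.symm
    have hmon : (Polynomial.X ^ 3 - Polynomial.C (n : ℤ)).Monic :=
      Polynomial.monic_X_pow_sub_C _ (by norm_num)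
    refine (Polynomial.eq_of_monic_of_dvd_of_natDegree_le (minpoly.monic hint) hmon ?_ ?_).symm
    · refine minpoly.isIntegrallyClosed_dvd hint ?_
      rw [map_sub, map_pow, Polynomial.aeval_X, Polynomial.aeval_C, htK]
      simp
    · rw [e3, Polynomial.natDegree_X_pow_sub_C]
  rw [hmin] at hd
  have h2 : Polynomial.aeval τ (Polynomial.derivative (Polynomial.X ^ 3 - Polynomial.C (n : ℤ))) = 3 * τ ^ 2 := by
    rw [Polynomial.derivative_sub, Polynomial.derivative_X_pow, Polynomial.derivative_C, sub_zero, map_mul,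
      map_pow, Polynomial.aeval_X, Polynomial.aeval_C]
    norm_num
  rwa [h2] at hd

theorem goodRam_pureZ (K₀ : Type) [Field K₀] [NumberField K₀] (hk : Module.finrank ℚ K₀ = 3) (n : ℕ)
    (t : K₀) (ht : t ^ 3 = (n : K₀)) (h1 : 1 < n) (hs : ∀ p : ℕ, p.Prime → ¬ p ^ 3 ∣ n) 
    (h3 : n % 3 ≠ 0) :
    GoodRam3 K₀ ↔ ∀ p : ℕ, p.Prime → p ≠ 2 → p ∣ n → p % 12 = 7 := by
  have hint : IsIntegral ℤ t := by
    refine IsIntegral.of_pow (n := 3) (by norm_num) ?_
    rw [ht]
    have h := isIntegral_algebraMap (R := ℤ) (A := K₀) (x := (n : ℤ))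
    simpa using h
  obtain ⟨τ, hτ⟩ : ∃ τ : 𝓞 K₀, (τ : K₀) = t := ⟨⟨t, hint⟩, rfl⟩
  have hτ3 : τ ^ 3 = (n : 𝓞 K₀) := by
    apply RingOfIntegers.ext
    have h4 : ((τ ^ 3 : 𝓞 K₀) : K₀) = (τ : K₀) ^ 3 := rfl
    rw [h4, hτ, ht]
    exact (map_natCast (algebraMap (𝓞 K₀) K₀) n).symm
  have hcop : ∀ (w : HeightOneSpectrum (𝓞 K₀)) (a b : ℕ), Nat.Coprime a b → (a : 𝓞 K₀) ∈ w.asIdeal →
      (b : 𝓞 K₀) ∉ w.asIdeal := by
    intro w a b hab ha hb
    have h4 : IsCoprime (a : ℤ) (b : ℤ) := Nat.isCoprime_iff_coprime.2 hab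
    obtain ⟨x, y, hxy⟩ := h4
    apply w.isPrime.ne_top
    rw [Ideal.eq_top_iff_one]
    have h5 : (1 : 𝓞 K₀) = (x : 𝓞 K₀) * (a : 𝓞 K₀) + (y : 𝓞 K₀) * (b : 𝓞 K₀) := by
      have h6 := congrArg (fun z : ℤ => (z : 𝓞 K₀)) hxy
      push_cast at h6
      exact h6.symm
    rw [h5]
    exact Ideal.add_mem _ (Ideal.mul_mem_left _ _ ha) (Ideal.mul_mem_left _ _ hb)
  constructor
  · intro hG p hp hp2 hpn
    obtain ⟨w, hw⟩ : ∃ w : HeightOneSpectrum (𝓞 K₀), (p : 𝓞 K₀) ∈ w.asIdeal := by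
      have hmax : (Ideal.span {(p : ℤ)}).IsMaximal :=
        PrincipalIdealRing.isMaximal_of_irreducible (Nat.prime_iff_prime_int.1 hp).irreducible
      obtain ⟨Q, hQ, hQl⟩ := Ideal.exists_maximal_ideal_liesOver_of_isIntegral (S := 𝓞 K₀) (Ideal.span {(p : ℤ)})
      have hpQ : (p : 𝓞 K₀) ∈ Q := by
        have h4 : (p : ℤ) ∈ Q.under ℤ := by
          rw [← hQl.over]
          exact Ideal.mem_span_singleton_self _
        rw [Ideal.under_def, Ideal.mem_comap, map_natCast] at h4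
        exact h4
      refine ⟨⟨Q, hQ.isPrime, ?_⟩, hpQ⟩
      rintro rfl
      rw [Ideal.mem_bot] at hpQ
      exact hp.ne_zero (by exact_mod_cast hpQ)
    obtain ⟨h4, h5⟩ := X5_ramZ hk n t ht (by omega) hs hp hpn w hw
    rw [← h5]
    refine hG w ?_ (by rw [h4]; norm_num)
    have hp3 : p ≠ 3 := by
      rintro rfl
      exact h3 (Nat.mod_eq_zero_of_dvd hpn)
    have h7 : Nat.Coprime p (2 * 3) := Nat.Coprime.mul_right
      ((Nat.coprime_primes hp Nat.prime_two).2 hp2) ((Nat.coprime_primes hp Nat.prime_three).2 hp3)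
    have h6 := hcop w p 6 h7 hw
    exact_mod_cast h6
  · intro hG w h6 hram
    have hd := X5_differentZ hk n τ hτ3 h1 hs
    have hwp := w.isPrime
    have hle : differentIdeal ℤ (𝓞 K₀) ≤ w.asIdeal := by
      refine Ideal.dvd_iff_le.1 (dvd_differentIdeal_iff.2 fun hun => hram ?_)
      exact Ideal.ramificationIdx_eq_one_iff.2 hun
    have h4 : (3 : 𝓞 K₀) * τ ^ 2 ∈ w.asIdeal := hle hd
    have h5 : (n : 𝓞 K₀) ∈ w.asIdeal := by
      rw [← hτ3]
      rcases hwp.mem_or_mem h4 with h7 | h7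
      · exfalso
        apply h6
        have h8 : (6 : 𝓞 K₀) = 2 * 3 := by norm_num
        rw [h8]
        exact Ideal.mul_mem_left _ _ h7
      · exact Ideal.pow_mem_of_mem _ (hwp.mem_of_pow_mem 2 h7) 3 (by norm_num)
    obtain ⟨p, hp, hpw⟩ := x2_prime w
    have hpn : p ∣ n := by
      by_contra h
      exact hcop w p n ((Nat.Prime.coprime_iff_not_dvd hp).2 h) hpw h5
    have hp2 : p ≠ 2 := by
      rintro rfl
      apply h6
      have h8 : (6 : 𝓞 K₀) = 3 * ((2 : ℕ) : 𝓞 K₀) := by norm_num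
      rw [h8]
      exact Ideal.mul_mem_left _ _ hpw
    rw [(X5_ramZ hk n t ht (by omega) hs hp hpn w hpw).2]
    exact hG p hp hp2 hpn

end H35Z
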