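import Mathlib
import Pool.Agent.Lib.H35X.X2
import Pool.Agent.Lib.H35Z.B1

/-! Chunk X4 (M): the condition AdmAt in terms of prime numbers. inert_odd: N/F Galois of odd degree, p a prime number, p = 1 modulo 3, w a prime of K containing p: then the inertia degree of w over the integers is odd, so N(w) = p^f with f odd. Proof: W a prime of N above w (H19X.EX7_above), v = W ∩ O.
f(W|v) divides [N : F] (e f g = [N : F], Ideal.ncard_primesOver_mul_ramificationIdxIn_mul_inertiaDegIn as in H35X.x2_inertia), so it is odd; N(v) = p: v is generated by a prime element π of O dividing p and p = Nm π' .. (p = 1 modulo 3 splits in O: absNorm v is p or p^2; if it is p^2 then v = (p)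
and p is a prime element of O, impossible as x^2 + x + 1 has a root modulo p; there are lemmas in H55B / H35T on primes of O, for example for N(v) % 3 and inert primes; alternatively count: the cube roots of unity are in F_p (FiniteField, 3 | p - 1), an integer r with p | r^2 + r + 1, so (om - r)(om^2 - r) in v,
om - r or om^2 - r = -1 - om - r is in v, so O/v = F_p (every element is a + b om)). So N(W) = N(v)^f(W|v) = p^odd, and N(W) = N(w)^f(W|w) (a10_norm in A10.lean), N(w) = p^f: f divides an odd number. x2_odd: p^f % 12 = 7. admAt_of: for w with d in w and 2 not in w: the prime number p in w (H35X.x2_prime) divides d: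
otherwise p and d are coprime and 1 in w (x2_cop); p is not 2; ramification: NumberField.not_dvd_discr_iff_forall_mem. admAt_iff: converse: p | d, p odd prime: there is a prime w above p (d in w, 2 not in w), for each of these e = 1 (so p does not divide the discriminant) and N(w) = p^f % 12 = 7, so p % 12 = 7 (x2_pow).
exists_admAt: Dirichlet's theorem in Mathlib (Nat.forall_exists_prime_gt_and_eq_mod or Nat.exists_prime_gt_modEq_... , Nat.setOf_prime_and_eq_mod_infinite): a prime l = 19 modulo 36, l > B and l > |discr K| (which is nonzero), so l does not divide the discriminant; 9 | l - 1, l % 12 = 7. -/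

open NumberField IsDedekindDomain

namespace H35Z

open H55B H35T H13E H35X

theorem x4_norm {M K : Type} [Field M] [NumberField M] [Field K] [NumberField K] [Algebra M K]
    (w : HeightOneSpectrum (𝓞 K)) (v : HeightOneSpectrum (𝓞 M)) (hv : v.asIdeal = w.asIdeal.under (𝓞 M)) :
    Ideal.absNorm w.asIdeal = Ideal.absNorm v.asIdeal ^ w.asIdeal.inertiaDeg (𝓞 M) := by
  have hwp := w.isPrime
  have hvm := v.isMaximal
  have hl : w.asIdeal.LiesOver v.asIdeal := ⟨hv⟩
  rw [Ideal.inertiaDeg_eq_of_isMaximal v.asIdeal w.asIdeal]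
  have h := Ideal.absNorm_eq_pow_inertiaDeg'_of_liesOver w.asIdeal v.asIdeal v.isPrime v.ne_bot
  rw [Ideal.inertiaDeg'_algebraMap] at h
  exact h

theorem x4_root (p : ℕ) (hp : p.Prime) (h3 : p % 3 = 1) : ∃ r : ℕ, p ∣ r ^ 2 + r + 1 := by
  have hf : Fact p.Prime := ⟨hp⟩
  have hf3 : Fact (Nat.Prime 3) := ⟨Nat.prime_three⟩
  have hd : 3 ∣ Fintype.card (ZMod p)ˣ := by
    rw [ZMod.card_units]
    omega
  obtain ⟨u, hu⟩ := exists_prime_orderOf_dvd_card 3 hd
  have hu3 : (u : ZMod p) ^ 3 = 1 := by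
    rw [← Units.val_pow_eq_pow_val, ← hu, pow_orderOf_eq_one, Units.val_one]
  have hu1 : (u : ZMod p) - 1 ≠ 0 := by
    intro h0
    have h1 : u = 1 := Units.ext (by rw [Units.val_one]; exact sub_eq_zero.1 h0)
    rw [h1, orderOf_one] at hu
    omega
  have h5 : (u : ZMod p) ^ 2 + u + 1 = 0 := by
    apply (mul_eq_zero.1 _).resolve_left hu1
    linear_combination hu3
  refine ⟨(u : ZMod p).val, ?_⟩
  rw [← ZMod.natCast_eq_zero_iff]
  push_cast
  rw [ZMod.natCast_zmod_val]
  exact h5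

theorem x4_int (v : HeightOneSpectrum O) (p : ℕ) (hp : p.Prime) (h3 : p % 3 = 1)
    (hv : (p : O) ∈ v.asIdeal) : ∃ c : ℕ, om - (c : O) ∈ v.asIdeal := by
  obtain ⟨r, k, hk⟩ := x4_root p hp h3
  have hom := L5_om_sq
  have h1 : (om - (r : O)) * (om - ((p * r : ℕ) : O) + (r : O) + 1) ∈ v.asIdeal := by
    have h2 : (om - (r : O)) * (om - ((p * r : ℕ) : O) + (r : O) + 1)
        = -((r ^ 2 + r + 1 : ℕ) : O) - (p : O) * ((r : O) * (om - r)) := by
      push_cast
      linear_combination hom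
    rw [h2, hk, Nat.cast_mul]
    exact v.asIdeal.sub_mem (v.asIdeal.neg_mem (v.asIdeal.mul_mem_right _ hv))
      (v.asIdeal.mul_mem_right _ hv)
  rcases v.isPrime.mem_or_mem h1 with h4 | h4
  · exact ⟨r, h4⟩
  · have hp1 : 1 ≤ p := hp.one_le
    refine ⟨p * (r + 1) - (r + 1), ?_⟩
    have h5 : r + 1 ≤ p * (r + 1) := Nat.le_mul_of_pos_left _ hp.pos
    have h6 : om - ((p * (r + 1) - (r + 1) : ℕ) : O)
        = (om - ((p * r : ℕ) : O) + (r : O) + 1) - (p : O) * 1 := by
      rw [Nat.cast_sub h5]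
      push_cast
      ring
    rw [h6]
    exact v.asIdeal.sub_mem h4 (v.asIdeal.mul_mem_right _ hv)

theorem x4_normO (v : HeightOneSpectrum O) (p : ℕ) (hp : p.Prime) (h3 : p % 3 = 1)
    (hv : (p : O) ∈ v.asIdeal) : Ideal.absNorm v.asIdeal = p := by
  obtain ⟨c, hc⟩ := x4_int v p hp h3 hv
  have hvp := v.isPrime
  have h1 := x2_norm v p hp hv
  have hsurj : Function.Surjective (fun n : Fin p => Ideal.Quotient.mk v.asIdeal ((n : ℕ) : O)) := by
    intro y
    obtain ⟨x, rfl⟩ := Ideal.Quotient.mk_surjective y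
    obtain ⟨a, b, rfl⟩ := exists_repr x
    have hp0 : (0 : ℤ) < p := by exact_mod_cast hp.pos
    have hm0 : 0 ≤ (a + b * c) % (p : ℤ) := Int.emod_nonneg _ hp0.ne'
    have hm1 : (a + b * c) % (p : ℤ) < p := Int.emod_lt_of_pos _ hp0
    obtain ⟨m, hm⟩ := Int.eq_ofNat_of_zero_le hm0
    refine ⟨⟨m, by omega⟩, ?_⟩
    show Ideal.Quotient.mk v.asIdeal (m : O) = Ideal.Quotient.mk v.asIdeal ((a : O) + b * om)
    rw [Ideal.Quotient.eq]
    have h4 : (m : ℤ) = (a + b * c) - p * ((a + b * c) / (p : ℤ)) := by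
      have h5 := Int.emod_add_mul_ediv (a + b * c) (p : ℤ)
      rw [hm] at h5
      linarith
    have h6 : (m : O) = ((a : O) + b * c) - (p : O) * (((a + b * c) / (p : ℤ) : ℤ) : O) := by
      have h7 := congrArg (Int.cast : ℤ → O) h4
      push_cast at h7
      rw [h7]
    have h8 : (m : O) - ((a : O) + b * om) =
        -(b : O) * (om - c) - (p : O) * (((a + b * c) / (p : ℤ) : ℤ) : O) := by
      rw [h6]
      ring
    rw [h8]
    exact v.asIdeal.sub_mem (v.asIdeal.mul_mem_left _ hc) (v.asIdeal.mul_mem_right _ hv)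
  have hcard : Ideal.absNorm v.asIdeal ≤ p := by
    have h5 : Ideal.absNorm v.asIdeal = Nat.card (O ⧸ v.asIdeal) := rfl
    rw [h5]
    have h6 := Nat.card_le_card_of_surjective _ hsurj
    rwa [Nat.card_fin] at h6
  have hne : Ideal.absNorm v.asIdeal ≠ 1 := by
    intro h0
    exact hvp.ne_top (Ideal.absNorm_eq_one_iff.1 h0)
  rw [h1] at hcard hne ⊢
  have h7 : v.asIdeal.inertiaDeg ℤ ≠ 0 := by
    intro h0
    rw [h0, pow_zero] at hne
    exact hne rfl
  have h8 : v.asIdeal.inertiaDeg ℤ ≤ 1 := by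
    by_contra hcon
    have h9 : p ^ 2 ≤ p ^ v.asIdeal.inertiaDeg ℤ := Nat.pow_le_pow_right hp.pos (by omega)
    have h10 := hp.two_le
    nlinarith
  have h9 : v.asIdeal.inertiaDeg ℤ = 1 := by omega
  rw [h9, pow_one]

theorem x4_dvd {N : Type} [Field N] [NumberField N] [Algebra F N] (hG : IsGalois F N)
    (w : HeightOneSpectrum (𝓞 N)) : w.asIdeal.inertiaDeg O ∣ Module.finrank F N := by
  have hwp := w.isPrime
  have hp : (w.asIdeal.under O).IsPrime := inferInstance
  have hl : w.asIdeal.LiesOver (w.asIdeal.under O) := ⟨rfl⟩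
  have hne : w.asIdeal.under O ≠ ⊥ := by
    intro h
    have h1 := Ideal.eq_bot_of_comap_eq_bot (R := O) (I := w.asIdeal) h
    exact w.ne_bot h1
  have hmax : (w.asIdeal.under O).IsMaximal := hp.isMaximal hne
  have hfin : FiniteDimensional F N := Module.Finite.right ℚ F N
  have h1 := Ideal.ncard_primesOver_mul_ramificationIdxIn_mul_inertiaDegIn (w.asIdeal.under O) (𝓞 N)
    (N ≃ₐ[F] N)
  rw [IsGalois.card_aut_eq_finrank,
    Ideal.inertiaDegIn_eq_inertiaDeg (w.asIdeal.under O) w.asIdeal (N ≃ₐ[F] N)] at h1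
  rw [← h1]
  exact Dvd.intro_left _ (by rw [← mul_assoc])

theorem inert_odd {K N : Type} [Field K] [NumberField K] [Field N] [NumberField N] [Algebra F N]
    [Algebra K N] (hG : IsGalois F N) (ho : Odd (Module.finrank F N)) (p : ℕ) (hp : p.Prime)
    (h3 : p % 3 = 1) (w : HeightOneSpectrum (𝓞 K)) (hw : (p : 𝓞 K) ∈ w.asIdeal) :
    ∃ f : ℕ, f % 2 = 1 ∧ Ideal.absNorm w.asIdeal = p ^ f := by
  obtain ⟨W, hW⟩ := H19X.EX7_above (K := K) (N := N) w
  obtain ⟨v, hv⟩ := H19X.T4_under (K₀ := F) W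
  have hpW : (p : 𝓞 N) ∈ W.asIdeal := by
    have h1 : (p : 𝓞 K) ∈ W.asIdeal.under (𝓞 K) := hW ▸ hw
    rw [Ideal.mem_under, map_natCast] at h1
    exact h1
  have hpv : (p : O) ∈ v.asIdeal := by
    have h1 : (p : O) ∈ W.asIdeal.under O := by
      rw [Ideal.mem_under, map_natCast]
      exact hpW
    have h2 : v.asIdeal = W.asIdeal.under O := hv
    rw [h2]
    exact h1
  have h1 := x4_norm W w hW
  have h2 := x4_norm (M := F) W v hv
  have h3' := x4_normO v p hp h3 hpv
  have h4 := x2_norm w p hp hw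
  refine ⟨w.asIdeal.inertiaDeg ℤ, ?_, h4⟩
  have h5 : Odd (W.asIdeal.inertiaDeg O) := by
    obtain ⟨c, hc⟩ := x4_dvd hG W
    rw [hc] at ho
    exact (Nat.odd_mul.1 ho).1
  rw [h3', h1, h4, ← pow_mul] at h2
  have h6 := Nat.pow_right_injective hp.two_le h2
  have h7 : Odd (w.asIdeal.inertiaDeg ℤ * W.asIdeal.inertiaDeg (𝓞 K)) := by
    rw [h6]
    exact h5
  exact Nat.odd_iff.1 (Nat.odd_mul.1 h7).1

theorem admAt_of {K N : Type} [Field K] [NumberField K] [Field N] [NumberField N] [Algebra F N]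
    [Algebra K N] (hG : IsGalois F N) (ho : Odd (Module.finrank F N)) (d : ℤ)
    (h9 : (9 : ℤ) ∣ d - 1 ∨ (9 : ℤ) ∣ d + 1) (hc : ∀ l : ℤ, l ^ 3 ∣ d → IsUnit l)
    (h : ∀ p : ℕ, p.Prime → p ≠ 2 → (p : ℤ) ∣ d → p % 12 = 7 ∧ ¬ (p : ℤ) ∣ NumberField.discr K) :
    AdmAt d K := by
  refine ⟨h9, hc, fun w hd h2 => ?_⟩
  have hwp := w.isPrime
  obtain ⟨p, hp, hpw⟩ := x2_prime w
  have hpi : Prime (p : ℤ) := Nat.prime_iff_prime_int.1 hp
  have hp2 : p ≠ 2 := by
    rintro rfl
    exact h2 (by exact_mod_cast hpw)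
  have hpd : (p : ℤ) ∣ d := by
    by_contra hnd
    have h3 : Nat.Coprime p d.natAbs := by
      rw [Nat.Prime.coprime_iff_not_dvd hp]
      intro h4
      exact hnd (Int.natCast_dvd.2 h4)
    refine x2_cop w h3 hpw ?_
    rcases Int.natAbs_eq d with h4 | h4
    · rw [h4, Int.cast_natCast] at hd
      exact hd
    · rw [h4, Int.cast_neg, Int.cast_natCast] at hd
      have h5 := w.asIdeal.neg_mem hd
      rwa [neg_neg] at h5
  obtain ⟨h7, hnd⟩ := h p hp hp2 hpd
  obtain ⟨f, hf, hN⟩ := inert_odd hG ho p hp (by omega) w hpw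
  refine ⟨?_, ?_⟩
  · have h1 := (NumberField.not_dvd_discr_iff_forall_mem K (𝓞 K) hpi).1 hnd w.asIdeal
      w.isPrime (by exact_mod_cast hpw)
    exact Ideal.ramificationIdx_eq_one_iff.2 h1
  · rw [hN]
    exact x2_odd h7 hf

theorem x4_above {K : Type} [Field K] [NumberField K] (p : ℕ) (hp : p.Prime) :
    ∃ w : HeightOneSpectrum (𝓞 K), (p : 𝓞 K) ∈ w.asIdeal := by
  have h1 : ¬ IsUnit (p : 𝓞 K) := by
    intro h0
    have h2 : IsUnit (Algebra.norm ℤ (p : 𝓞 K)) := h0.map _
    have h3 : (p : 𝓞 K) = algebraMap ℤ (𝓞 K) (p : ℤ) := by rw [map_natCast]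
    rw [h3, Algebra.norm_algebraMap, isUnit_pow_iff
      (by rw [RingOfIntegers.rank]; exact Module.finrank_pos.ne')] at h2
    exact (Nat.prime_iff_prime_int.1 hp).not_unit h2
  obtain ⟨P, hP, hpP⟩ := exists_max_ideal_of_mem_nonunits h1
  refine ⟨⟨P, hP.isPrime, ?_⟩, hpP⟩
  rintro rfl
  rw [Ideal.mem_bot] at hpP
  exact hp.ne_zero (by exact_mod_cast hpP)

theorem admAt_iff (K : Type) [Field K] [NumberField K] (hK : Cls3T K) (d : ℤ) : AdmAt d K ↔
    ((9 : ℤ) ∣ d - 1 ∨ (9 : ℤ) ∣ d + 1) ∧ (∀ l : ℤ, l ^ 3 ∣ d → IsUnit l) ∧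
      ∀ p : ℕ, p.Prime → p ≠ 2 → (p : ℤ) ∣ d → p % 12 = 7 ∧ ¬ (p : ℤ) ∣ NumberField.discr K := by
  constructor
  · rintro ⟨h9, hc, h⟩
    refine ⟨h9, hc, fun p hp hp2 hpd => ?_⟩
    have hpi : Prime (p : ℤ) := Nat.prime_iff_prime_int.1 hp
    have key : ∀ w : HeightOneSpectrum (𝓞 K), (p : 𝓞 K) ∈ w.asIdeal →
        w.asIdeal.ramificationIdx ℤ = 1 ∧ Ideal.absNorm w.asIdeal % 12 = 7 := by
      intro w hw
      refine h w ?_ ?_
      · obtain ⟨c, rfl⟩ := hpd
        rw [Int.cast_mul, Int.cast_natCast]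
        exact w.asIdeal.mul_mem_right _ hw
      · intro h2
        exact x2_cop w ((Nat.coprime_primes hp Nat.prime_two).2 hp2) hw (by exact_mod_cast h2)
    refine ⟨?_, ?_⟩
    · obtain ⟨w, hw⟩ := x4_above (K := K) p hp
      have h1 := (key w hw).2
      rw [x2_norm w p hp hw] at h1
      exact B1_pow _ _ h1
    · rw [NumberField.not_dvd_discr_iff_forall_mem K (𝓞 K) hpi]
      intro P hP hpP
      have hpP' : (p : 𝓞 K) ∈ P := by exact_mod_cast hpP
      have hPne : P ≠ ⊥ := by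
        rintro rfl
        rw [Ideal.mem_bot] at hpP'
        exact hp.ne_zero (by exact_mod_cast hpP')
      exact Ideal.ramificationIdx_eq_one_iff.1 (key ⟨P, hP, hPne⟩ hpP').1
  · rintro ⟨h9, hc, h⟩
    obtain ⟨L, _, _, _, _, hT, _⟩ := hK
    obtain ⟨hG, k, hk⟩ := hT
    refine admAt_of (N := L) hG ?_ d h9 hc h
    rw [hk]
    exact Odd.pow (by decide)

theorem exists_admAt (K : Type) [Field K] [NumberField K] (hK : Cls3T K) (B : ℕ) :
    ∃ l : ℕ, B < l ∧ l.Prime ∧ AdmAt (l : ℤ) K := by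
  have hdisc : NumberField.discr K ≠ 0 := NumberField.discr_ne_zero K
  obtain ⟨l, hlB, hlp, hl⟩ := Nat.forall_exists_prime_gt_and_modEq
    (max B (NumberField.discr K).natAbs) (q := 36) (a := 19) (by norm_num) (by norm_num)
  have hB := le_max_left B (NumberField.discr K).natAbs
  have hD := le_max_right B (NumberField.discr K).natAbs
  have hl' : l % 36 = 19 := hl
  refine ⟨l, by omega, hlp, ?_⟩
  rw [admAt_iff K hK]
  refine ⟨Or.inl ?_, ?_, ?_⟩
  · omega
  · intro m hm
    have h1 : m.natAbs ^ 3 ∣ l := by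
      have h2 := Int.natAbs_dvd_natAbs.2 hm
      rwa [Int.natAbs_pow, Int.natAbs_natCast] at h2
    have h2 : m.natAbs ∣ l := dvd_trans (dvd_pow_self _ (by norm_num)) h1
    rcases (Nat.dvd_prime hlp).1 h2 with h3 | h3
    · exact Int.isUnit_iff_natAbs_eq.2 h3
    · exfalso
      rw [h3] at h1
      have h4 := Nat.le_of_dvd hlp.pos h1
      have h5 := hlp.two_le
      have h6 : l ^ 3 = l * l * l := by ring
      rw [h6] at h4
      have h7 : l * l * l ≥ 2 * 2 * l := Nat.mul_le_mul_right l (Nat.mul_le_mul h5 h5)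
      omega
  · intro p hp _ hpl
    have h1 : p ∣ l := by exact_mod_cast hpl
    have h2 : p = l := (Nat.prime_dvd_prime_iff_eq hp hlp).1 h1
    subst h2
    refine ⟨by omega, fun h3 => ?_⟩
    have h4 := Int.natAbs_dvd_natAbs.2 h3
    rw [Int.natAbs_natCast] at h4
    have h5 := Nat.le_of_dvd (Int.natAbs_pos.2 hdisc) h4
    omega

end H35Z
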