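import Mathlib
import Pool.Agent.Lib.H13N.X1
import Pool.Agent.Lib.H35X.X2
import Pool.Agent.Lib.H35Z.Defs

/-! Chunk X1 (M, copy of H35X/X1.lean and X2.lean): fields K₀ which are Galois over the rationals of 3-power degree with discriminant prime to 3. unr3_of_discr: NumberField.not_dvd_discr_iff_forall_mem with p = 3 (see H35X.unr23_of). x1_unrZ: H35X.x1_unr6 with Unr3 in place of UnrSix
(word for word, w above 3). cls_of_ratZ: copy of H35X.cls_of_rat. goodRam_ratZ: copy of H35X.goodRam_rat (X2.lean; its lemmas x2_norm, x2_pow, x2_odd, x2_inertia, x2_prime, x2_cop, x2_23 may be used): left to right: p divides the discriminant, p is not 2 and not 3, so 6 is not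
in w for w above p ramified; right to left: w not above 6 and ramified, p below w: p divides the discriminant and p is not 2 (2 in w would give 6 in w). -/

open NumberField IsDedekindDomain

namespace H35Z

open H55B H35T H13E H35X H13N

theorem unr3_of_discr (K : Type) [Field K] [NumberField K] (h : ¬ (3 : ℤ) ∣ NumberField.discr K)
    (w : HeightOneSpectrum (𝓞 K)) (h3 : (3 : 𝓞 K) ∈ w.asIdeal) : w.asIdeal.ramificationIdx ℤ = 1 := by
  have hwp := w.isPrime
  have h1 := (NumberField.not_dvd_discr_iff_forall_mem K (𝓞 K) Int.prime_three).1 h w.asIdeal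
    w.isPrime (by exact_mod_cast h3)
  exact Ideal.ramificationIdx_eq_one_iff.2 h1

theorem x1_unrZ (K₀ E : Type) [Field K₀] [NumberField K₀] (hG : IsGalois ℚ K₀) (hU : ∀ w : HeightOneSpectrum (𝓞 K₀), (3 : 𝓞 K₀) ∈ w.asIdeal → w.asIdeal.ramificationIdx ℤ = 1)
    [Field E] [NumberField E] [Algebra F E] [Algebra K₀ E] (hGE : IsGalois F E)
    (htop : IntermediateField.adjoin K₀ {H55D.X3_z E} = ⊤) : H35N.Unr3 E := by
  have htow : IsScalarTower ℚ F E := IsScalarTower.of_algebraMap_eq' (Subsingleton.elim _ _)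
  have htow' : IsScalarTower ℚ K₀ E := IsScalarTower.of_algebraMap_eq' (Subsingleton.elim _ _)
  intro w h6
  rw [H55C.inertia_iff w]
  intro g hg
  let g' : E ≃ₐ[ℚ] E := g.restrictScalars ℚ
  let g₀ : K₀ ≃ₐ[ℚ] K₀ := g'.restrictNormal K₀
  have hg₀ : ∀ x : K₀, algebraMap K₀ E (g₀ x) = g (algebraMap K₀ E x) := fun x =>
    AlgEquiv.restrictNormal_commutes g' K₀ x
  have hwp := w.isPrime
  have hp : (w.asIdeal.under (𝓞 K₀)).IsPrime := inferInstance
  have hne : w.asIdeal.under (𝓞 K₀) ≠ ⊥ := by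
    intro h
    exact w.ne_bot (Ideal.eq_bot_of_comap_eq_bot (R := 𝓞 K₀) (I := w.asIdeal) h)
  let w₀ : HeightOneSpectrum (𝓞 K₀) := ⟨w.asIdeal.under (𝓞 K₀), hp, hne⟩
  have h1 : ∀ y : 𝓞 K₀, g₀ • y - y ∈ w₀.asIdeal := by
    intro y
    show algebraMap (𝓞 K₀) (𝓞 E) (g₀ • y - y) ∈ w.asIdeal
    have h2 : algebraMap (𝓞 K₀) (𝓞 E) (g₀ • y) = g • algebraMap (𝓞 K₀) (𝓞 E) y := by
      apply NumberField.RingOfIntegers.ext
      exact hg₀ _
    rw [map_sub, h2]
    exact hg _
  have h6w₀ : (3 : 𝓞 K₀) ∈ w₀.asIdeal := by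
    show algebraMap (𝓞 K₀) (𝓞 E) (3 : 𝓞 K₀) ∈ w.asIdeal
    rwa [map_ofNat]
  have hr := hU w₀ h6w₀
  have hg1 : g₀ = 1 := H55D.X3_inertia w₀ hr g₀ h1
  have hfix : ∀ x : K₀, g (algebraMap K₀ E x) = algebraMap K₀ E x := by
    intro x
    rw [← hg₀, hg1]
    rfl
  have hz : g (H55D.X3_z E) = H55D.X3_z E := g.commutes _
  ext x
  have hx : x ∈ IntermediateField.adjoin K₀ {H55D.X3_z E} := by
    rw [htop]
    exact IntermediateField.mem_top
  show g x = x
  refine IntermediateField.adjoin_induction K₀ (p := fun x _ => g x = x) ?_ hfix ?_ ?_ ?_ hx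
  · rintro x rfl
    exact hz
  · intro x y _ _ h1 h2
    rw [map_add, h1, h2]
  · intro x _ h1
    rw [map_inv₀, h1]
  · intro x y _ _ h1 h2
    rw [map_mul, h1, h2]

theorem cls_of_ratZ (K₀ : Type) [Field K₀] [NumberField K₀] (hG : IsGalois ℚ K₀) (k : ℕ)
    (hk : Module.finrank ℚ K₀ = 3 ^ k) (hd : ¬ (3 : ℤ) ∣ NumberField.discr K₀) : Cls3T K₀ := by
  classical
  let φ : F →ₐ[ℚ] AlgebraicClosure K₀ := IsAlgClosed.lift
  let _ : Algebra F (AlgebraicClosure K₀) := φ.toRingHom.toAlgebra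
  have hz := H55D.X3_z_root (AlgebraicClosure K₀)
  let E : IntermediateField K₀ (AlgebraicClosure K₀) :=
    IntermediateField.adjoin K₀ {H55D.X3_z (AlgebraicClosure K₀)}
  have hmem : H55D.X3_z (AlgebraicClosure K₀) ∈ E :=
    IntermediateField.mem_adjoin_simple_self K₀ _
  have hint : ∀ x ∈ ({H55D.X3_z (AlgebraicClosure K₀)} : Set (AlgebraicClosure K₀)),
      IsIntegral K₀ x := by
    intro x _
    exact (Algebra.IsAlgebraic.isAlgebraic x).isIntegral
  have hEfin : FiniteDimensional K₀ E := IntermediateField.finiteDimensional_adjoin hint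
  have hnf : NumberField E := NumberField.of_module_finite K₀ E
  let ψ : F →+* E := (algebraMap F (AlgebraicClosure K₀)).codRestrict E
    (H55D.X3_range K₀ (AlgebraicClosure K₀) E hmem)
  let hFE : Algebra F E := ψ.toAlgebra
  have htow : IsScalarTower ℚ F E := IsScalarTower.of_algebraMap_eq' (Subsingleton.elim _ _)
  have htow' : IsScalarTower ℚ K₀ E := IsScalarTower.of_algebraMap_eq' (Subsingleton.elim _ _)
  have hzE : ((H55D.X3_z E : E) : AlgebraicClosure K₀) = H55D.X3_z (AlgebraicClosure K₀) := rfl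
  have hrank : Module.finrank K₀ E = 2 := H55D.X3_rank K₀ _ _ hz (x1_noroot hk)
  have hN : Normal ℚ E := H55D.X3_normal K₀ hG _ hz
  have hGQ : IsGalois ℚ E := { to_normal := hN }
  have hGF : IsGalois F E := IsGalois.tower_top_of_isGalois ℚ F E
  have htop : IntermediateField.adjoin K₀ {H55D.X3_z E} = ⊤ := by
    have h1 : IntermediateField.map E.val (IntermediateField.adjoin K₀ {H55D.X3_z E}) =
        IntermediateField.map E.val ⊤ := by
      rw [IntermediateField.adjoin_map, Set.image_singleton]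
      show IntermediateField.adjoin K₀ {H55D.X3_z (AlgebraicClosure K₀)} = _
      rw [← AlgHom.fieldRange_eq_map, IntermediateField.fieldRange_val]
    exact IntermediateField.map_injective E.val h1
  refine ⟨E, inferInstance, hnf, hFE, inferInstance, ⟨hGF, k, ?_⟩,
    x1_unrZ K₀ E hG (unr3_of_discr K₀ hd) hGF htop⟩
  have h1 := Module.finrank_mul_finrank ℚ F E
  have h2 := Module.finrank_mul_finrank ℚ K₀ E
  rw [H55D.X3_finrank] at h1
  rw [hk, hrank] at h2
  omega

theorem goodRam_ratZ (K : Type) [Field K] [NumberField K] (hG : IsGalois ℚ K) (k : ℕ)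
    (hk : Module.finrank ℚ K = 3 ^ k) (h : ¬ (3 : ℤ) ∣ NumberField.discr K) :
    GoodRam3 K ↔ ∀ p : ℕ, p.Prime → p ≠ 2 → (p : ℤ) ∣ NumberField.discr K → p % 12 = 7 := by
  constructor
  · intro hR p hp hp2 hpd
    have hpi : Prime (p : ℤ) := Nat.prime_iff_prime_int.1 hp
    have hp3 : p ≠ 3 := by
      rintro rfl
      exact h hpd
    have h1 := (not_congr (NumberField.not_dvd_discr_iff_forall_mem K (𝓞 K) hpi)).1
      (not_not.2 hpd)
    push Not at h1
    obtain ⟨P, hP, hpP, hram⟩ := h1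
    have hpP' : (p : 𝓞 K) ∈ P := by exact_mod_cast hpP
    have hPne : P ≠ ⊥ := by
      rintro rfl
      rw [Ideal.mem_bot] at hpP'
      exact hp.ne_zero (by exact_mod_cast hpP')
    let w : HeightOneSpectrum (𝓞 K) := ⟨P, hP, hPne⟩
    have h6 : (6 : 𝓞 K) ∉ w.asIdeal := by
      intro h6
      rcases x2_23 w h6 with h2 | h3
      · exact x2_cop w ((Nat.coprime_primes hp Nat.prime_two).2 hp2) hpP' (by exact_mod_cast h2)
      · exact x2_cop w ((Nat.coprime_primes hp Nat.prime_three).2 hp3) hpP' (by exact_mod_cast h3)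
    have h2 := hR w h6 (fun h => hram (Ideal.ramificationIdx_eq_one_iff.1 h))
    rw [x2_norm w p hp hpP'] at h2
    refine x2_pow ?_ ?_ h2
    · intro h0
      exact hp2 (((Nat.prime_dvd_prime_iff_eq Nat.prime_two hp).1 (Nat.dvd_of_mod_eq_zero h0)).symm)
    · intro h0
      exact hp3 (((Nat.prime_dvd_prime_iff_eq Nat.prime_three hp).1
        (Nat.dvd_of_mod_eq_zero h0)).symm)
  · intro hR w h6 hram
    have hwp := w.isPrime
    obtain ⟨p, hp, hpw⟩ := x2_prime w
    have hpi : Prime (p : ℤ) := Nat.prime_iff_prime_int.1 hp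
    have hpd : (p : ℤ) ∣ NumberField.discr K := by
      by_contra hnd
      have h1 := (NumberField.not_dvd_discr_iff_forall_mem K (𝓞 K) hpi).1 hnd w.asIdeal
        w.isPrime (by exact_mod_cast hpw)
      exact hram (Ideal.ramificationIdx_eq_one_iff.2 h1)
    obtain ⟨j, hj⟩ := x2_inertia hG k hk w
    rw [x2_norm w p hp hpw, hj]
    have hp2 : p ≠ 2 := by
      rintro rfl
      apply h6
      have e1 : (6 : 𝓞 K) = 3 * ((2 : ℕ) : 𝓞 K) := by norm_num
      rw [e1]
      exact w.asIdeal.mul_mem_left _ hpw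
    apply x2_odd (hR p hp hp2 hpd)
    rw [Nat.pow_mod]
    norm_num

end H35Z
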