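import Mathlib
import Pool.Agent.Lib.H35Z.A10
import Pool.Agent.Lib.H35Z.A13
import Pool.Agent.Lib.H35Z.X1

/-! Chunk X5 (M): base fields M = F K₀ with K₀ Galois over the rationals of odd degree, discriminant prime to 3. gen_top: M is generated over F by the image of K₀ (and over K₀ by the image of om): the subfield generated has degree over the rationals divisible by 2 and by the odd number [K₀ : Q], so equal to
2 [K₀ : Q] = [M : Q]. So M/F is Galois (Normal: minimal polynomials over F of elements of K₀ divide those over Q, which split in K₀; IntermediateField.splits_of_mem_adjoin as in H35X.gen6_galois; or M/K₀ generated by om and use H55D.X3_normal as in H35X.cls_of_rat: K₀/Q Galois gives M/Q normal). odd: [M : F] = [K₀ : Q].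
unr: as H35X.x1_unr6 / x1_unrZ (needs the generator of M over K₀: H55D.X3_z M), unr3_of_discr. two: w of M above 2: the ramification index of w over O divides [M : F] (b0_split-like: Ideal.ncard_primesOver_mul_ramificationIdxIn_mul_inertiaDegIn, see H35Z.b0_split in B0.lean), so it is odd; w.valuation 2 = (v.valuation 2)^e
(a10_val), v.valuation 2 = exp(-1) (a13_two). -/

open NumberField IsDedekindDomain

namespace H35Z

open H55B H35T H13E H35X

theorem x5_noroot {K₀ : Type} [Field K₀] [NumberField K₀]
    (ho : Odd (Module.finrank ℚ K₀)) (x : K₀) : x ^ 2 + x + 1 ≠ 0 := by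
  intro hx
  have hirr : Irreducible (Polynomial.X ^ 2 + Polynomial.X + 1 : Polynomial ℚ) := by
    apply Polynomial.irreducible_of_degree_le_three_of_not_isRoot
    · have : (Polynomial.X ^ 2 + Polynomial.X + 1 : Polynomial ℚ).natDegree = 2 := by
        compute_degree!
      rw [this]
      simp
    · intro y hy
      have h1 : Polynomial.eval y (Polynomial.X ^ 2 + Polynomial.X + 1 : Polynomial ℚ) = 0 := hy
      simp only [Polynomial.eval_add, Polynomial.eval_pow, Polynomial.eval_X,
        Polynomial.eval_one] at h1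
      nlinarith [sq_nonneg (y + 1 / 2)]
  have hm : minpoly ℚ x = (Polynomial.X ^ 2 + Polynomial.X + 1 : Polynomial ℚ) := by
    symm
    apply minpoly.eq_of_irreducible_of_monic hirr
    · simp only [map_add, map_pow, Polynomial.aeval_X, map_one]
      exact hx
    · monicity!
  have h1 := minpoly.degree_dvd (K := ℚ) (Algebra.IsIntegral.isIntegral x : IsIntegral ℚ x)
  have h2 : (Polynomial.X ^ 2 + Polynomial.X + 1 : Polynomial ℚ).natDegree = 2 := by
    compute_degree!
  rw [hm, h2] at h1
  obtain ⟨c, hc⟩ := ho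
  omega

theorem x5_normal {K₀ M : Type} [Field K₀] [NumberField K₀] [Field M] [NumberField M] [Algebra K₀ M]
    (hG : IsGalois ℚ K₀) (z : M) (hz : z ^ 2 + z + 1 = 0)
    (htop : IntermediateField.adjoin K₀ {z} = ⊤) : Normal ℚ M := by
  have htow : IsScalarTower ℚ K₀ M := IsScalarTower.of_algebraMap_eq' (Subsingleton.elim _ _)
  have hint : ∀ x : M, IsIntegral ℚ x := fun x => Algebra.IsIntegral.isIntegral x
  obtain ⟨S, hS⟩ : ∃ S : Set M, S = Set.range (algebraMap K₀ M) ∪ {z} := ⟨_, rfl⟩
  have hx : ∀ x : M, x ∈ IntermediateField.adjoin ℚ S := by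
    intro x
    have hx : x ∈ IntermediateField.adjoin K₀ {z} := by
      rw [htop]
      exact IntermediateField.mem_top
    refine IntermediateField.adjoin_induction K₀ (p := fun x _ => x ∈ IntermediateField.adjoin ℚ S)
      ?_ ?_ ?_ ?_ ?_ hx
    · rintro x rfl
      apply IntermediateField.subset_adjoin
      rw [hS]
      exact Or.inr rfl
    · intro x
      apply IntermediateField.subset_adjoin
      rw [hS]
      exact Or.inl ⟨x, rfl⟩
    · intro x y _ _ h1 h2
      exact add_mem h1 h2
    · intro x _ h1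
      exact inv_mem h1
    · intro x y _ _ h1 h2
      exact mul_mem h1 h2
  have hsp : ∀ s ∈ S, ((minpoly ℚ s).map (algebraMap ℚ M)).Splits := by
    intro s hs
    rw [hS] at hs
    rcases hs with ⟨a, rfl⟩ | hs
    · rw [minpoly.algebraMap_eq (algebraMap K₀ M).injective a]
      have h1 : ((minpoly ℚ a).map (algebraMap ℚ K₀)).Splits := hG.to_normal.splits a
      have h2 := h1.map (algebraMap K₀ M)
      rwa [Polynomial.map_map, ← IsScalarTower.algebraMap_eq] at h2
    · rw [Set.mem_singleton_iff] at hs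
      subst hs
      have h1 : minpoly ℚ s ∣ Polynomial.X ^ 2 + Polynomial.X + 1 := by
        refine minpoly.dvd ℚ s ?_
        rw [map_add, map_add, map_pow, Polynomial.aeval_X, map_one, hz]
      have h2 : (Polynomial.X ^ 2 + Polynomial.X + 1 : Polynomial ℚ).map (algebraMap ℚ M) =
          (Polynomial.X - Polynomial.C s) * (Polynomial.X - Polynomial.C (-s - 1)) := by
        rw [Polynomial.map_add, Polynomial.map_add, Polynomial.map_pow, Polynomial.map_X, Polynomial.map_one]
        have hr := congrArg (Polynomial.C : M → Polynomial M) hz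
        simp only [Polynomial.C_add, Polynomial.C_pow, Polynomial.C_1, Polynomial.C_0] at hr
        rw [Polynomial.C_sub, Polynomial.C_neg, Polynomial.C_1]
        linear_combination hr
      have h3 : (minpoly ℚ s).map (algebraMap ℚ M) ∣
          (Polynomial.X - Polynomial.C s) * (Polynomial.X - Polynomial.C (-s - 1)) := by
        rw [← h2]
        exact Polynomial.map_dvd _ h1
      exact ((Polynomial.Splits.X_sub_C s).mul (Polynomial.Splits.X_sub_C _)).of_dvd
        (mul_ne_zero (Polynomial.X_sub_C_ne_zero _) (Polynomial.X_sub_C_ne_zero _)) h3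
  exact normal_iff.mpr fun x =>
    ⟨hint x, IntermediateField.splits_of_mem_adjoin ℚ M (L := M) (S := S)
      (fun s hs => ⟨hint s, hsp s hs⟩) (hx x)⟩

theorem galois_of_rat {K₀ M : Type} [Field K₀] [NumberField K₀] [Field M] [NumberField M] [Algebra F M]
    [Algebra K₀ M] (hG : IsGalois ℚ K₀) (ho : Odd (Module.finrank ℚ K₀))
    (hM : Module.finrank ℚ M = 2 * Module.finrank ℚ K₀) :
    IsGalois F M ∧ Odd (Module.finrank F M) ∧ IntermediateField.adjoin K₀ {H55D.X3_z M} = ⊤ := by
  have htow : IsScalarTower ℚ F M := IsScalarTower.of_algebraMap_eq' (Subsingleton.elim _ _)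
  have htow' : IsScalarTower ℚ K₀ M := IsScalarTower.of_algebraMap_eq' (Subsingleton.elim _ _)
  have hfin : FiniteDimensional K₀ M := Module.Finite.right ℚ K₀ M
  have hz := H55D.X3_z_root M
  have hr := H55D.X3_rank K₀ M _ hz (x5_noroot ho)
  have h1 := Module.finrank_mul_finrank ℚ K₀ M
  have hpos : 0 < Module.finrank ℚ K₀ := Module.finrank_pos
  have h2 : Module.finrank K₀ M = 2 := by
    rw [hM] at h1
    have h3 : Module.finrank ℚ K₀ * Module.finrank K₀ M = Module.finrank ℚ K₀ * 2 := by
      rw [h1]; ring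
    exact Nat.eq_of_mul_eq_mul_left hpos h3
  have htop : IntermediateField.adjoin K₀ {H55D.X3_z M} = ⊤ := by
    rw [← IntermediateField.finrank_eq_one_iff_eq_top]
    have h3 := Module.finrank_mul_finrank K₀ (IntermediateField.adjoin K₀ {H55D.X3_z M}) M
    rw [hr, h2] at h3
    omega
  have hN := x5_normal hG _ hz htop
  have hGQ : IsGalois ℚ M := { to_normal := hN }
  refine ⟨IsGalois.tower_top_of_isGalois ℚ F M, ?_, htop⟩
  have h4 := Module.finrank_mul_finrank ℚ F M
  rw [H55D.X3_finrank, hM] at h4
  have h5 : Module.finrank F M = Module.finrank ℚ K₀ := Nat.eq_of_mul_eq_mul_left (by norm_num) h4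
  rw [h5]
  exact ho

theorem baseF_of_rat {K₀ M : Type} [Field K₀] [NumberField K₀] [Field M] [NumberField M] [Algebra F M]
    [Algebra K₀ M] (hG : IsGalois ℚ K₀) (ho : Odd (Module.finrank ℚ K₀))
    (h3 : ¬ (3 : ℤ) ∣ NumberField.discr K₀) (hM : Module.finrank ℚ M = 2 * Module.finrank ℚ K₀) :
    BaseF M := by
  obtain ⟨hGF, hodd, htop⟩ := galois_of_rat (K₀ := K₀) (M := M) hG ho hM
  refine ⟨hodd, x1_unrZ K₀ M hG (unr3_of_discr K₀ h3) hGF htop, ?_⟩
  intro w hw
  have htow : IsScalarTower ℚ F M := IsScalarTower.of_algebraMap_eq' (Subsingleton.elim _ _)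
  have hfin : FiniteDimensional F M := Module.Finite.right ℚ F M
  obtain ⟨v, hv⟩ := H19X.T4_under (K₀ := F) w
  have hv2 : (2 : 𝓞 F) ∈ v.asIdeal := by
    rw [hv, Ideal.mem_under, map_ofNat]
    exact hw
  have hwp := w.isPrime
  have hvp := v.isPrime
  have hl : w.asIdeal.LiesOver v.asIdeal := ⟨hv⟩
  have hvm := v.isMaximal
  have hwm := w.isMaximal
  have h1 := Ideal.ncard_primesOver_mul_ramificationIdxIn_mul_inertiaDegIn v.asIdeal (𝓞 M)
    (M ≃ₐ[F] M)
  rw [IsGalois.card_aut_eq_finrank,
    Ideal.inertiaDegIn_eq_inertiaDeg v.asIdeal w.asIdeal (M ≃ₐ[F] M),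
    Ideal.ramificationIdxIn_eq_ramificationIdx v.asIdeal w.asIdeal (M ≃ₐ[F] M)] at h1
  have he : Odd (w.asIdeal.ramificationIdx (𝓞 F)) := by
    rw [← h1] at hodd
    exact (Nat.odd_mul.1 (Nat.odd_mul.1 hodd).2).1
  refine ⟨w.asIdeal.ramificationIdx (𝓞 F), he, ?_⟩
  have h2 := a10_val w v hv (2 : F)
  rw [map_ofNat, (a13_two v hv2).2, ← WithZero.exp_nsmul, nsmul_eq_mul, mul_neg, mul_one] at h2
  exact h2

end H35Z
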