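import Mathlib
import Pool.Agent.Lib.H35X.X2
import Pool.Agent.Lib.H35Z.X2

/-! Chunk X6 (M, adapt H19Z/S1.lean: X1_normal, X1_unrT, X1_rank, X1_topT, and the end H19Z/Main.lean: bad_above): adjoining the cube root of an integer a = 1 or -1 modulo 9. top3_rank: L contains a primitive cube root of unity, δ^3 in L: the degree of L(δ) over L is 1 or 3 (if δ is not in L then no cube root
ζ^i δ of δ^3 is in L, X^3 - δ^3 is irreducible: X_pow_sub_C_irreducible_of_prime). top3_unr: w above 3, g in the inertia group of w in Gal(E/F): g acts trivially on L (as in X1_unrT: restriction to L, inertia of w ∩ L is trivial: H55C.inertia_iff) and fixes δ by pure_inertiaZ (δ is integral; the congruence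
modulo 3 (om - 1) is derived from that modulo 9 as in H35X.cls_of_fam6: three_eq), so g = 1. top3: E = L(δ) in an algebraic closure, as X1_topT. exists_bad3: (L, ...) from Cls3T K, E = L(δ), δ^3 = 37, E is the required field (Cls3T E: L := E, Algebra E E). A prime w of E above 37: N(w) = 37^f is 1 modulo 12, not 7;
6 is not in w (37 - 6 * 6 = 1); δ is integral and in w, so 37 in w^3 and w is ramified over the rationals (as in bad_above: Ideal.ramificationIdx'_ne_one_iff with w^2). -/

open NumberField IsDedekindDomain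

namespace H35Z

open H55B H35T H13E H35X

theorem x6_cases {R : Type*} [Field R] {z x y : R} (hz : z ^ 2 + z + 1 = 0) (h : x ^ 3 = y ^ 3) :
    x = y ∨ x = z * y ∨ x = z ^ 2 * y := by
  have h1 : (x - y) * ((x - z * y) * (x - z ^ 2 * y)) = 0 := by
    have h2 : (x - y) * ((x - z * y) * (x - z ^ 2 * y)) =
        (x ^ 3 - y ^ 3) - (x - y) * ((z ^ 2 + z + 1) * (x * y)) +
          (x - y) * ((z - 1) * (z ^ 2 + z + 1) * y ^ 2) := by ring
    rw [h2, hz, h]
    ring
  rcases mul_eq_zero.1 h1 with h3 | h3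
  · exact Or.inl (sub_eq_zero.1 h3)
  · rcases mul_eq_zero.1 h3 with h4 | h4
    · exact Or.inr (Or.inl (sub_eq_zero.1 h4))
    · exact Or.inr (Or.inr (sub_eq_zero.1 h4))

theorem x6_z (L : Type) [Field L] [Algebra F L] :
    (algebraMap F L (om : F)) ^ 2 + algebraMap F L (om : F) + 1 = 0 := by
  have h : ((om : F)) ^ 2 + (om : F) + 1 = 0 := by
    have h1 := congrArg (fun t : O => (t : F)) om_rel
    simpa using h1
  rw [← map_pow, ← map_add, ← map_one (algebraMap F L), ← map_add, h, map_zero]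

theorem top3_rank (L Ω : Type) [Field L] [NumberField L] [Algebra F L] [Field Ω] [Algebra L Ω]
    (a : L) (δ : Ω) (hδ : δ ^ 3 = algebraMap L Ω a) :
    Module.finrank L (IntermediateField.adjoin L {δ}) = 1 ∨
      Module.finrank L (IntermediateField.adjoin L {δ}) = 3 := by
  by_cases hb : ∃ b : L, b ^ 3 = a
  · left
    obtain ⟨b, hb⟩ := hb
    rw [IntermediateField.finrank_eq_one_iff, IntermediateField.adjoin_simple_eq_bot_iff,
      IntermediateField.mem_bot]
    have hz : (algebraMap L Ω (algebraMap F L (om : F))) ^ 2 +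
        algebraMap L Ω (algebraMap F L (om : F)) + 1 = 0 := by
      rw [← map_pow, ← map_add, ← map_one (algebraMap L Ω), ← map_add, x6_z, map_zero]
    have h3 : δ ^ 3 = (algebraMap L Ω b) ^ 3 := by
      rw [hδ, ← hb, map_pow]
    rcases x6_cases hz h3 with h | h | h
    · exact ⟨b, h.symm⟩
    · exact ⟨algebraMap F L (om : F) * b, by rw [map_mul]; exact h.symm⟩
    · exact ⟨algebraMap F L (om : F) ^ 2 * b, by rw [map_mul, map_pow]; exact h.symm⟩
  · right
    push Not at hb
    have hirr : Irreducible (Polynomial.X ^ 3 - Polynomial.C a) :=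
      X_pow_sub_C_irreducible_of_prime Nat.prime_three hb
    have hq3 : Polynomial.aeval δ (Polynomial.X ^ 3 - Polynomial.C a) = 0 := by
      simp only [map_sub, map_pow, Polynomial.aeval_X, Polynomial.aeval_C]
      rw [hδ, sub_self]
    have hq1 : (Polynomial.X ^ 3 - Polynomial.C a).Monic :=
      Polynomial.monic_X_pow_sub_C a (by norm_num)
    have h6 : IsIntegral L δ := ⟨_, hq1, hq3⟩
    rw [IntermediateField.adjoin.finrank h6, ← minpoly.eq_of_irreducible_of_monic hirr hq3 hq1,
      Polynomial.natDegree_X_pow_sub_C]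

theorem x6_normal (L : Type) [Field L] [Algebra F L] [FiniteDimensional F L] (hG : IsGalois F L)
    (d : ℤ) (δ : AlgebraicClosure L) (hδ : δ ^ 3 = (d : AlgebraicClosure L)) :
    Normal F (IntermediateField.adjoin L {δ}) := by
  have halg : Algebra.IsAlgebraic F (AlgebraicClosure L) :=
    Algebra.IsAlgebraic.trans F L (AlgebraicClosure L)
  have hac : IsAlgClosure F (AlgebraicClosure L) := ⟨inferInstance, halg⟩
  have hnorm : Normal F (AlgebraicClosure L) := IsAlgClosure.normal F _
  let E := IntermediateField.adjoin L {δ}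
  have hmem : δ ∈ E := IntermediateField.mem_adjoin_simple_self L δ
  have hE0 : ∀ (σ : AlgebraicClosure L →ₐ[F] AlgebraicClosure L) (x : AlgebraicClosure L),
      x ∈ E → σ x ∈ E := by
    intro σ x hx
    refine IntermediateField.adjoin_induction L (p := fun x _ => σ x ∈ E) ?_ ?_ ?_ ?_ ?_ hx
    · rintro x rfl
      have h1 : σ x ^ 3 = x ^ 3 := by
        rw [← map_pow, hδ, map_intCast]
      have hz : (algebraMap L (AlgebraicClosure L) (algebraMap F L (om : F))) ^ 2 +
          algebraMap L (AlgebraicClosure L) (algebraMap F L (om : F)) + 1 = 0 := by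
        rw [← map_pow, ← map_add, ← map_one (algebraMap L (AlgebraicClosure L)), ← map_add, x6_z,
          map_zero]
      rcases x6_cases hz h1 with h | h | h
      · rw [h]
        exact hmem
      · rw [h]
        exact mul_mem (E.algebraMap_mem _) hmem
      · rw [h]
        exact mul_mem (pow_mem (E.algebraMap_mem _) 2) hmem
    · intro x
      rw [← AlgHom.restrictNormal_commutes σ L x]
      exact E.algebraMap_mem _
    · intro x y _ _ h1 h2
      rw [map_add]
      exact add_mem h1 h2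
    · intro x _ h1
      rw [map_inv₀]
      exact inv_mem h1
    · intro x y _ _ h1 h2
      rw [map_mul]
      exact mul_mem h1 h2
  have hE : @Normal F (E.restrictScalars F) _ _
      (IntermediateField.algebra' (E.restrictScalars F)) := by
    rw [IntermediateField.normal_iff_forall_map_le]
    intro σ
    rintro _ ⟨x, hx, rfl⟩
    exact hE0 σ x hx
  exact hE

theorem x6_unr (L E : Type) [Field L] [NumberField L] [Algebra F L] (hG : IsGalois F L)
    (hU : H35N.Unr3 L) [Field E] [NumberField E] [Algebra F E] [Algebra L E] [IsScalarTower F L E]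
    (hGE : IsGalois F E) (a : ℤ) (ha : (9 : ℤ) ∣ a - 1 ∨ (9 : ℤ) ∣ a + 1) (δ : E)
    (hδ : δ ^ 3 = (a : E)) (htop : IntermediateField.adjoin L {δ} = ⊤) : H35N.Unr3 E := by
  intro w h3
  have hwp := w.isPrime
  have hp : (w.asIdeal.under (𝓞 L)).IsPrime := inferInstance
  have hne : w.asIdeal.under (𝓞 L) ≠ ⊥ := by
    intro h
    exact w.ne_bot (Ideal.eq_bot_of_comap_eq_bot (R := 𝓞 L) (I := w.asIdeal) h)
  rw [H55C.inertia_iff w]
  intro g hg
  let g₀ : L ≃ₐ[F] L := g.restrictNormal L
  have hg₀ : ∀ x : L, algebraMap L E (g₀ x) = g (algebraMap L E x) := fun x =>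
    AlgEquiv.restrictNormal_commutes g L x
  let w₀ : HeightOneSpectrum (𝓞 L) := ⟨w.asIdeal.under (𝓞 L), hp, hne⟩
  have h1 : ∀ y : 𝓞 L, g₀ • y - y ∈ w₀.asIdeal := by
    intro y
    show algebraMap (𝓞 L) (𝓞 E) (g₀ • y - y) ∈ w.asIdeal
    have h2 : algebraMap (𝓞 L) (𝓞 E) (g₀ • y) = g • algebraMap (𝓞 L) (𝓞 E) y := by
      apply NumberField.RingOfIntegers.ext
      exact hg₀ _
    rw [map_sub, h2]
    exact hg _
  have h30 : (3 : 𝓞 L) ∈ w₀.asIdeal := by
    show (3 : 𝓞 L) ∈ w.asIdeal.under (𝓞 L)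
    rw [Ideal.mem_under, map_ofNat]
    exact h3
  have hg1 : g₀ = 1 := (H55C.inertia_iff w₀).1 (hU w₀ h30) g₀ h1
  have hfix : ∀ x : L, g (algebraMap L E x) = algebraMap L E x := by
    intro x
    rw [← hg₀, hg1]
    rfl
  have hint : IsIntegral ℤ δ := by
    have h2 : IsIntegral ℤ (δ ^ 3) := by
      rw [hδ]
      exact isIntegral_algebraMap (R := ℤ) (A := E) (x := a)
    exact IsIntegral.of_pow (by norm_num) h2
  let t : 𝓞 E := ⟨δ, hint⟩
  have ht : t ^ 3 = algebraMap O (𝓞 E) (a : O) := by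
    apply RingOfIntegers.ext
    show δ ^ 3 = algebraMap (𝓞 E) E (algebraMap O (𝓞 E) (a : O))
    rw [hδ, map_intCast, map_intCast]
  have ha' : (3 * (om - 1) : O) ∣ (a : O) - 1 ∨ (3 * (om - 1) : O) ∣ (a : O) + 1 := by
    have h3 := three_eq
    rcases ha with ⟨b, hb⟩ | ⟨b, hb⟩
    · left
      refine ⟨-om ^ 2 * (om - 1) * b, ?_⟩
      have h4 : (a : O) - 1 = 9 * (b : O) := by
        have := congrArg (Int.cast : ℤ → O) hb
        push_cast at this
        exact this
      linear_combination h4 + (3 * (b : O)) * h3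
    · right
      refine ⟨-om ^ 2 * (om - 1) * b, ?_⟩
      have h4 : (a : O) + 1 = 9 * (b : O) := by
        have := congrArg (Int.cast : ℤ → O) hb
        push_cast at this
        exact this
      linear_combination h4 + (3 * (b : O)) * h3
  have hgδ : g δ = δ := by
    have h2 := pure_inertiaZ E t (a : O) ht ha' w h3 g hg
    exact congrArg (algebraMap (𝓞 E) E) h2
  ext x
  have hx : x ∈ IntermediateField.adjoin L {δ} := by
    rw [htop]
    exact IntermediateField.mem_top
  show g x = x
  refine IntermediateField.adjoin_induction L (p := fun x _ => g x = x) ?_ hfix ?_ ?_ ?_ hx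
  · rintro x rfl
    exact hgδ
  · intro x y _ _ h1 h2
    rw [map_add, h1, h2]
  · intro x _ h1
    rw [map_inv₀, h1]
  · intro x y _ _ h1 h2
    rw [map_mul, h1, h2]

theorem top3 (L : Type) [Field L] [NumberField L] [Algebra F L] (hT : ThreeExt L) (hU : H35N.Unr3 L)
    (a : ℤ) (ha : (9 : ℤ) ∣ a - 1 ∨ (9 : ℤ) ∣ a + 1) :
    ∃ (E : Type) (_ : Field E) (_ : NumberField E) (_ : Algebra F E) (_ : Algebra L E)
      (_ : IsScalarTower F L E) (δ : E), δ ^ 3 = (a : E) ∧ ThreeExt E ∧ H35N.Unr3 E := by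
  classical
  obtain ⟨hG, k, hk⟩ := hT
  have hfd : FiniteDimensional F L := FiniteDimensional.of_finrank_pos (by
    rw [hk]
    positivity)
  obtain ⟨δ, hδ⟩ := IsAlgClosed.exists_pow_nat_eq (a : AlgebraicClosure L) (n := 3) (by norm_num)
  let E : IntermediateField L (AlgebraicClosure L) := IntermediateField.adjoin L {δ}
  have hmem : δ ∈ E := IntermediateField.mem_adjoin_simple_self L δ
  have hint : ∀ x ∈ ({δ} : Set (AlgebraicClosure L)), IsIntegral L x := by
    intro x _
    exact (Algebra.IsAlgebraic.isAlgebraic x).isIntegral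
  have hEfin : FiniteDimensional L E := IntermediateField.finiteDimensional_adjoin hint
  have hnf : NumberField E := NumberField.of_module_finite L E
  have hN : Normal F E := x6_normal L hG a δ hδ
  have hGE : IsGalois F E := { to_normal := hN }
  have hδE : (⟨δ, hmem⟩ : E) ^ 3 = (a : E) := by
    apply Subtype.ext
    show δ ^ 3 = ((a : E) : AlgebraicClosure L)
    rw [hδ]
    simp
  have htop : IntermediateField.adjoin L {(⟨δ, hmem⟩ : E)} = ⊤ := by
    have h1 : IntermediateField.map E.val (IntermediateField.adjoin L {(⟨δ, hmem⟩ : E)}) =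
        IntermediateField.map E.val ⊤ := by
      rw [IntermediateField.adjoin_map, Set.image_singleton]
      show IntermediateField.adjoin L {δ} = _
      rw [← AlgHom.fieldRange_eq_map, IntermediateField.fieldRange_val]
    exact IntermediateField.map_injective E.val h1
  refine ⟨E, inferInstance, hnf, inferInstance, inferInstance, inferInstance, ⟨δ, hmem⟩, hδE,
    ⟨hGE, ?_⟩, x6_unr L E hG hU hGE a ha _ hδE htop⟩
  have h2 := Module.finrank_mul_finrank F L E
  rw [hk] at h2
  rcases top3_rank L (AlgebraicClosure L) (a : L) δ (by rw [hδ, map_intCast]) with h | h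
  · have h' : Module.finrank L E = 1 := h
    refine ⟨k, ?_⟩
    rw [← h2, h', mul_one]
  · have h' : Module.finrank L E = 3 := h
    refine ⟨k + 1, ?_⟩
    rw [← h2, h', pow_succ]

/-- Every field of the class is contained in a field of the class with a bad ramified prime. -/
theorem exists_bad3 (K : Type) [Field K] [NumberField K] (hK : Cls3T K) :
    ∃ (K' : Type) (_ : Field K') (_ : NumberField K') (_ : Algebra K K'),
      Cls3T K' ∧ ¬ GoodRam3 K' := by
  obtain ⟨L, iL1, iL2, iL3, iL4, hT, hU⟩ := hK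
  obtain ⟨K', i1, i2, i3, i4, i5, δ, hδ, hT', hU'⟩ := top3 L hT hU 37 (Or.inl ⟨4, by norm_num⟩)
  refine ⟨K', i1, i2, ((algebraMap L K').comp (algebraMap K L)).toAlgebra,
    ⟨K', i1, i2, i3, Algebra.id K', hT', hU'⟩, fun hg => ?_⟩
  -- a prime above 37
  have h5p : Prime (37 : ℤ) := by norm_num
  have hmax : (Ideal.span {(37 : ℤ)}).IsMaximal :=
    PrincipalIdealRing.isMaximal_of_irreducible h5p.irreducible
  obtain ⟨Q, hQ, hQl⟩ := Ideal.exists_maximal_ideal_liesOver_of_isIntegral (S := 𝓞 K')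
    (Ideal.span {(37 : ℤ)})
  have h5Q : (37 : 𝓞 K') ∈ Q := by
    have h1 : (37 : ℤ) ∈ Q.under ℤ := by
      rw [← hQl.over]
      exact Ideal.mem_span_singleton_self 37
    rw [Ideal.mem_under] at h1
    simpa using h1
  have hQ0 : Q ≠ ⊥ := by
    rintro rfl
    rw [Ideal.mem_bot] at h5Q
    exact (by norm_num : (37 : 𝓞 K') ≠ 0) h5Q
  let w : HeightOneSpectrum (𝓞 K') := ⟨Q, hQ.isPrime, hQ0⟩
  have hw5 : (37 : 𝓞 K') ∈ w.asIdeal := h5Q
  have h6 : (6 : 𝓞 K') ∉ w.asIdeal := by
    intro h
    apply w.isPrime.ne_top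
    rw [Ideal.eq_top_iff_one]
    have h1 : (1 : 𝓞 K') = 37 - 6 * 6 := by norm_num
    rw [h1]
    exact w.asIdeal.sub_mem hw5 (w.asIdeal.mul_mem_left _ h)
  -- the cube root of 37
  have hint : IsIntegral ℤ δ := by
    have h2 : IsIntegral ℤ (δ ^ 3) := by
      rw [hδ]
      exact isIntegral_algebraMap (R := ℤ) (A := K') (x := 37)
    exact IsIntegral.of_pow (by norm_num) h2
  let η : 𝓞 K' := ⟨δ, hint⟩
  have hη : η ^ 3 = 37 := by
    apply NumberField.RingOfIntegers.ext
    show δ ^ 3 = ((37 : 𝓞 K') : K')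
    rw [hδ]
    have h1 : ((37 : 𝓞 K') : K') = 37 := map_ofNat (algebraMap (𝓞 K') K') 37
    rw [h1]
    norm_num
  have hηw : η ∈ w.asIdeal := w.isPrime.mem_of_pow_mem 3 (by rw [hη]; exact hw5)
  have h52 : (37 : 𝓞 K') ∈ w.asIdeal ^ 2 := by
    rw [← hη]
    exact Ideal.pow_le_pow_right (show 2 ≤ 3 by norm_num) (Ideal.pow_mem_pow hηw 3)
  have hle : Ideal.map (algebraMap ℤ (𝓞 K')) (Ideal.span {(37 : ℤ)}) ≤ w.asIdeal ^ 2 := by
    rw [Ideal.map_span, Set.image_singleton, Ideal.span_singleton_le_iff_mem]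
    have h2 : algebraMap ℤ (𝓞 K') 37 = 37 := by simp
    rw [h2]
    exact h52
  have h5b : Ideal.span {(37 : ℤ)} ≠ ⊥ := by
    rw [Ne, Ideal.span_singleton_eq_bot]
    norm_num
  have hl : w.asIdeal.LiesOver (Ideal.span {(37 : ℤ)}) := hQl
  have hne := (Ideal.ramificationIdx'_ne_one_iff (hle.trans (Ideal.pow_le_self two_ne_zero))).2 hle
  rw [Ideal.ramificationIdx'_eq_ramificationIdx (Ideal.span {(37 : ℤ)}) w.asIdeal h5b] at hne
  have h7 := hg w h6 hne
  have h8 := x2_norm w 37 (by norm_num) (by exact_mod_cast hw5)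
  have h9 : ∀ f : ℕ, 37 ^ f % 12 = 1 := by
    intro f
    rw [Nat.pow_mod]
    norm_num
  rw [h8, h9] at h7
  norm_num at h7

end H35Z
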