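import Mathlib
import Pool.Agent.Lib.H35X.Final
import Pool.Agent.Lib.H35Z.FinA
import Pool.Agent.Lib.H35Z.X3
import Pool.Agent.Lib.H35Z.X4
import Pool.Agent.Lib.H35Z.X5
import Pool.Agent.Lib.H35Z.X6

/-! The final statement. -/

open NumberField IsDedekindDomain

namespace H35Z

open H55B H35T H13E H13N H35X

theorem cls3_of_cls6 (K : Type) [Field K] [NumberField K] (h : Cls6T K) : Cls3T K := by
  obtain ⟨L, i1, i2, i3, i4, hT, hU⟩ := h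
  exact ⟨L, i1, i2, i3, i4, hT, unr3_six hU⟩

theorem final :
    (∀ (K : Type) [Field K] [NumberField K], Cls3T K → ∀ d : ℤ, AdmAt d K → CritD d K) ∧
    (∀ (M K : Type) [Field M] [NumberField M] [Algebra F M] [Field K] [NumberField K] [Algebra M K],
      BaseF M → RelT M K → ∀ d : ℤ, AdmAt d K → CritRel d M K) ∧
    (∀ (K : Type) [Field K] [NumberField K], AdmAt 1 K) ∧
    (∀ (K : Type) [Field K] [NumberField K], Cls3T K →
      (∀ d : ℤ, AdmAt d K ↔ ((9 : ℤ) ∣ d - 1 ∨ (9 : ℤ) ∣ d + 1) ∧ (∀ l : ℤ, l ^ 3 ∣ d → IsUnit l) ∧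
        ∀ p : ℕ, p.Prime → p ≠ 2 → (p : ℤ) ∣ d → p % 12 = 7 ∧ ¬ (p : ℤ) ∣ NumberField.discr K) ∧
      ∀ B : ℕ, ∃ l : ℕ, B < l ∧ l.Prime ∧ AdmAt (l : ℤ) K) ∧
    (∀ (K : Type) [Field K] [NumberField K], IsGalois ℚ K → (∃ k : ℕ, Module.finrank ℚ K = 3 ^ k) →
      ¬ (3 : ℤ) ∣ NumberField.discr K → Cls3T K ∧
        (GoodRam3 K ↔ ∀ p : ℕ, p.Prime → p ≠ 2 → (p : ℤ) ∣ NumberField.discr K → p % 12 = 7)) ∧
    (∀ (K : Type) [Field K] [NumberField K], Fam3 K → Cls3T K) ∧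
    (∀ (K : Type) [Field K] [NumberField K] (n : ℕ) (t : K), Module.finrank ℚ K = 3 →
      t ^ 3 = (n : K) → 1 < n → (∀ p : ℕ, p.Prime → ¬ p ^ 3 ∣ n) → (n % 9 = 1 ∨ n % 9 = 8) →
      Cls3T K ∧ (GoodRam3 K ↔ ∀ p : ℕ, p.Prime → p ≠ 2 → p ∣ n → p % 12 = 7)) ∧
    (∀ (K₀ M : Type) [Field K₀] [NumberField K₀] [Field M] [NumberField M] [Algebra F M]
      [Algebra K₀ M], IsGalois ℚ K₀ → Odd (Module.finrank ℚ K₀) →
      ¬ (3 : ℤ) ∣ NumberField.discr K₀ → Module.finrank ℚ M = 2 * Module.finrank ℚ K₀ → BaseF M) ∧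
    (∀ (K : Type) [Field K] [NumberField K], Cls3T K → ∃ (K' : Type) (_ : Field K')
      (_ : NumberField K') (_ : Algebra K K'), Cls3T K' ∧ ¬ GoodRam3 K') ∧
    (∀ (K : Type) [Field K] [NumberField K], Sub3 K → Cls3T K ∧ GoodRam3 K) ∧
    (∀ (A : Type) [CommGroup A] [Finite A] (k : ℕ), Nat.card A = 3 ^ k → ∀ B : ℕ, Realized A B) ∧
    (∀ (K : Type) [Field K] [NumberField K] [Algebra F K] (B : ℕ), Three K B → Wreathed K B) ∧
    (∀ (H : Type) [Group H] [Finite H] (k : ℕ), Nat.card H = 3 ^ k →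
      (∀ B : ℕ, Embedded H B) ∧ RealField H) := by
  obtain ⟨-, -, -, -, -, f6, f7, f8⟩ := H13N.final2
  refine ⟨fun K _ _ h d hd => critD K h d hd, fun M K _ _ _ _ _ _ hM hS d hd =>
    critRel M K hM hS d hd, fun K _ _ => admAt_one K, fun K _ _ h => ⟨fun d => admAt_iff K h d,
    fun B => exists_admAt K h B⟩, ?_, fun K _ _ h => cls_of_fam3 K h, ?_,
    fun K₀ M _ _ _ _ _ _ hG ho h3 hM => baseF_of_rat hG ho h3 hM, fun K _ _ h => exists_bad3 K h,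
    ?_, fun A _ _ k hA B => f6 A k hA B, fun K _ _ _ B h => f7 K B h, fun H _ _ k hH => f8 H k hH⟩
  · rintro K _ _ hG ⟨k, hk⟩ hd
    exact ⟨cls_of_ratZ K hG k hk hd, goodRam_ratZ K hG k hk hd⟩
  · intro K _ _ n t hk ht h1 hs h9
    exact ⟨cls_of_pureZ K hk n t ht h1 hs h9, goodRam_pureZ K hk n t ht h1 hs (by omega)⟩
  · intro K _ _ h
    obtain ⟨h1, h2⟩ := (sub3_iff K).1 h
    exact ⟨cls3_of_cls6 K h1, h2⟩

end H35Z
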