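import Mathlib
import Pool.Agent.Lib.H35Z.Z3
import Pool.Agent.Lib.H13T.C6
import Pool.Agent.Lib.H13T.C14
import Pool.Agent.Lib.H13T.CE
import Pool.Agent.Lib.SSG.Z.Fin

/-! # H35Z, part 4: the theorem for complex multiplication by the integers of F -/

open NumberField IsDedekindDomain WeierstrassCurve

namespace H35Z

open H55N H55P
open H55K.TQ
open H13T
open SSG (exists_dtaAB)

variable {F : Type} [Field F] [NumberField F] [IQ F] {W : WeierstrassCurve ℤ} {Om : ℂ} {m : Ideal (𝓞 F)} {ψ : Ideal (𝓞 F) →*₀ 𝓞 F} {p : ℕ}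

/-- The analytic half over K. -/
theorem z4_ana (hH : BaseH F (W⁄(𝓞 F)) Om m ψ) (hp : PrimeH F (W⁄(𝓞 F)) p) {M K' K : Type} [Field M] [NumberField M] [Field K']
    [NumberField K'] [Field K] [NumberField K] [Algebra M K'] [Algebra K' K] [Algebra M K] (ιK : K →ₐ[ℚ] AlgebraicClosure F) {n : ℕ}
    (h : HypS F p n W M K' K ιK) :
    ∃ Λ : ℂ → ℂ, AnalyticOnNhd ℂ Λ {s | 1 / 2 < s.re} ∧
      (∀ s : ℂ, 3 / 2 < s.re → LSeriesSummable (fun n => (((W⁄K).LFunction n : ℤ) : ℂ)) s ∧ Λ s = (W⁄K).LSeries s) ∧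
      Λ 1 ≠ 0 ∧
      ∀ L : PeriodPair, PerZ W L → ∀ V : ValuationSubring ℂ, V.valuation (p : ℂ) < 1 →
        V.valuation (lG K W L (Λ 1)) = V.valuation (p : ℂ) ^ (2 * (AnR p W K' K).ncard) := by
  have hpp := hp.prime
  have hp2 : p ≠ 2 := by
    have := hp.five
    omega
  obtain ⟨γ, c⟩ := q_cyc (F := F) hpp hp2 h.pos h.cyc ιK
  have hU : UnrP p (KG F K ιK) := unr_up hpp hp2 hp.unr K ιK h.unr
  have hUK' : UnrP p K' := UnrP.down K' K p hpp h.unr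
  obtain ⟨hL1, hL2, hL3⟩ := c2_pext hpp.pos c
  have hUM := H13R.unr_le hpp (c.le.trans c.le') hU
  have hUN' := H13R.unr_le hpp c.le' hU
  have hLU : H13R.LUnitG p W K' := (H13R.an_iff hpp h.unit.1.2.2.2).1 h.unit.2
  have hR' : LRel W ψ K' (KG F K' (emb ιK : K' →ₐ[ℚ] AlgebraicClosure F)) :=
    H13R.lrelK hH hp hL2 h.bad K' (emb ιK : K' →ₐ[ℚ] AlgebraicClosure F) c.le le_rfl
  have hR : LRel W ψ K (KG F K ιK) := H13R.lrelK hH hp hL1 h.bad K ιK (c.le.trans c.le') le_rfl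
  have hI' := H13R.gen_intR hH hp hUM hL2 c.le le_rfl hUN'
  have hval := (H13R.lunit_iff hH hp K' (KG F K' (emb ιK : K' →ₐ[ℚ] AlgebraicClosure F)) hR' hUK' hI').1 hLU
  obtain ⟨d, hd, hdeg, -, hcard⟩ := q_card hpp hp2 h.pos h.cyc h.unr hH ιK
  have hr : (AnW p (W⁄(𝓞 F)) (KG F K' (emb ιK : K' →ₐ[ℚ] AlgebraicClosure F)) (KG F K ιK)).ncard < p ^ n := by
    rw [hcard]
    refine lt_of_le_of_lt (Nat.mul_le_mul_right _ ?_) h.few
    omega
  obtain ⟨Φ, hΦa, hΦs, hΦ1, hv⟩ := z2_val hH hp c hU hval (c6_fin hpp.pos c) hr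
  exact z3_real hH hp K ιK h.unr hR hΦa hΦs hΦ1 hd hdeg hcard hv

open Classical in
/-- THE THEOREM for complex multiplication by the integers of F. -/
theorem sha_max (hH : BaseH F (W⁄(𝓞 F)) Om m ψ) (hp : PrimeH F (W⁄(𝓞 F)) p) : ShaThm F p W := by
  intro M K' K _ _ _ _ _ _ _ _ _ ιK n h
  have hpp := hp.prime
  obtain ⟨hpts, hsha, hkil⟩ := alg_main hH hp ιK h
  obtain ⟨Λ, hΛa, hΛs, hΛ1, hΛv⟩ := z4_ana hH hp ιK h
  refine ⟨hpts, hsha, hkil, exists_perZ (perW_of hH), Λ, hΛa, hΛs, hΛ1, fun L hL V hV => ?_⟩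
  rw [shaG_lG, map_mul, map_pow, val_nat p hpp V hV _ hpts.2, one_pow, mul_one, hΛv L hL V hV, hsha, Nat.cast_pow, map_pow]

end H35Z
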