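import Mathlib
import Pool.Agent.Lib.H35Z.Z4
import Pool.Agent.Lib.H35Z.Z5A
import Pool.Agent.Lib.H35U.MainB
import Pool.Agent.Lib.H28I.A1
import Pool.Agent.Lib.H13T.K4

/-! # H35Z, part 5B: the theorem for isogenous curves -/

open NumberField IsDedekindDomain WeierstrassCurve

namespace H35Z

open H55P (IQ embF eF LF Per IsHecke Pt ac Inert Dec Nm UnitP UnrP PExt)
open H55K H55K.TQ
open H13T
open SSG (galS PP bridge iso6_card ShaC fin_ell)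
open H28I (TW tw_prime)

variable {F : Type} [Field F] [NumberField F] [IQ F] {W W' : WeierstrassCurve ℤ} {Om : ℂ} {m : Ideal (𝓞 F)}
    {ψ : Ideal (𝓞 F) →*₀ 𝓞 F} {kap : ℤ} {e t u lam : ℚ} {p : ℕ}

open Classical in
/-- KP and isogenies. -/
theorem z5_iso6 {K : Type} [Field K] {W₁ W₂ : WeierstrassCurve K} {Ω : Type} [Field Ω] [Algebra K Ω] (h : H28I.Iso6 W₁ W₂ Ω) {p : ℕ}
    (hp : p.Prime) (h5 : 5 ≤ p) (hK : KP p (galS W₁ Ω).Sha) : KP p (galS W₂ Ω).Sha := by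
  obtain ⟨Φ, Ψ, h1, h2, h3, h4⟩ := h
  have hm : ¬ p ∣ 6 := by
    intro hd
    have h6 := Nat.le_of_dvd (by norm_num) hd
    interval_cases p <;> revert hp hd <;> decide
  have H1 : SSG.Hom (galS W₁ Ω) (galS W₂ Ω) (MonoidHom.id (Ω ≃ₐ[K] Ω)) Φ :=
    ⟨fun g a => h3 g a, fun u hu => ⟨u, hu, fun g hg => hg⟩, fun d hd => ⟨d, hd, fun g hg => hg⟩⟩
  have H2 : SSG.Hom (galS W₂ Ω) (galS W₁ Ω) (MonoidHom.id (Ω ≃ₐ[K] Ω)) Ψ :=
    ⟨fun g a => h4 g a, fun u hu => ⟨u, hu, fun g hg => hg⟩, fun d hd => ⟨d, hd, fun g hg => hg⟩⟩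
  exact kp_hom hp hm H2 H1 (fun g => rfl) h2 hK

open Classical in
/-- THE THEOREM for isogenous curves. -/
theorem sha_iso_thm (h : TW F W W' Om m ψ kap e t u lam) (hp' : PrimeH F (W'⁄(𝓞 F)) p) (hT : ShaThm F p W) : ShaThm F p W' := by
  intro M K' K _ _ _ _ _ _ _ _ _ ιK n hS
  have hp := (tw_prime h).1 hp'
  have h5 := hp.five
  have h2 : p ≠ 2 := by omega
  have hpp : p.Prime := hp.prime
  have hAn := z5_AnR (p := p) h K' K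
  obtain ⟨γ, c⟩ := q_cyc (F := F) hpp h2 hS.pos hS.cyc ιK
  obtain ⟨hL1, hL2, -⟩ := c2_pext hpp.pos c
  have hbad : H13R.BadM (W⁄(𝓞 F)) (KG F M (emb ιK : M →ₐ[ℚ] AlgebraicClosure F)) := (H13R.i1_bad h _).1 hS.bad
  have hSK' := H13R.i1_same h hp K' (H13R.i1_lfun h K' (emb ιK : K' →ₐ[ℚ] AlgebraicClosure F) fun w hw =>
    H13R.bad_KR h.base hp hL2 c.le le_rfl hbad w hw)
  have hSK := H13R.i1_same h hp K (H13R.i1_lfun h K ιK fun w hw => H13R.bad_KR h.base hp hL1 (c.le.trans c.le') le_rfl hbad w hw)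
  have hunit : BSDPG p W K' := (H35U.bsdB_iff h.base hp K' (emb ιK : K' →ₐ[ℚ] AlgebraicClosure F)).2
    ⟨(H13R.i1_sel hpp h5 hSK').1 hS.unit.1.1, (H13R.i1_lunit hSK').1 ((H13R.an_iff hpp hS.unit.1.2.2.2).1 hS.unit.2)⟩
  have hO := hT M K' K ιK n ⟨hS.pos, hS.cyc, hS.unr, hbad, hunit, by rw [← hAn]; exact hS.few⟩
  rw [hAn]
  obtain ⟨q1, q2⟩ := H28I.pts_iso hpp h5 (H28I.a0_disc hSK.disc' K) hSK.iso hO.pts.1 hO.pts.2
  have hWK : (W⁄K).IsElliptic := fin_ell hSK.disc K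
  have hWK' : (W'⁄K).IsElliptic := fin_ell hSK.disc' K
  have hcard : Nat.card (H19A.ShaP p K (W'⁄K)) = Nat.card (H19A.ShaP p K (W⁄K)) := by
    have e1 : Nat.card (ShaC p K (W⁄K)) = _ := bridge (W⁄K) hpp h2
    have e2 : Nat.card (ShaC p K (W'⁄K)) = _ := bridge (W'⁄K) hpp h2
    have e3 := iso6_card hSK.iso hpp h5
    exact e2.trans (e3.symm.trans e1.symm)
  have hkil : ∀ z : H16C.Sha (W'⁄K).toAffine (AlgebraicClosure K), (∃ k : ℕ, (p ^ k : ℕ) • z = 0) → p • z = 0 :=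
    bridge_kp (W'⁄K) hpp h2 (z5_iso6 hSK.iso hpp h5 (bridge_kp2 (W⁄K) hpp h2 hO.kil))
  rw [hO.sha] at hcard
  obtain ⟨Λ, hΛa, hΛs, hΛ1, hΛv⟩ := hO.bsd
  refine ⟨⟨q1, q2⟩, hcard, hkil, hSK.ex', Λ, hΛa, (H28I.a0_ser hSK Λ).2 hΛs, hΛ1, fun L hL V hV => ?_⟩
  obtain ⟨L₀, hL₀⟩ := hSK.ex
  have e1 := hΛv L₀ hL₀ V hV
  rw [shaG_lG, map_mul, map_pow, H55P.val_nat p hpp V hV _ hO.pts.2, one_pow, mul_one, hO.sha] at e1
  rw [shaG_lG, map_mul, map_pow, H55P.val_nat p hpp V hV _ q2, one_pow, mul_one, hcard, hSK.per L₀ L hL₀ hL V hV]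
  exact e1

end H35Z
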