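import Mathlib
import Pool.Agent.Lib.H35Z.Z5B
import Pool.Agent.Lib.H19A.Res

/-! # H35Z, part 7: the theorem for all orders of class number one -/

open NumberField IsDedekindDomain WeierstrassCurve

namespace H35Z

open H55P (IQ)
open H55K H55K.TQ
open H13T

/-- THE THEOREM (S), all 13 orders of class number one. -/
theorem sha_all (F : Type) [Field F] [NumberField F] [IQ F] (W' : WeierstrassCurve ℤ) (hC : H19A.CM F W') (p : ℕ) (hp : p.Prime) (h5 : 5 ≤ p)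
    (hd : ¬ (p : ℤ) ∣ W'.Δ) : ShaThm F p W' := by
  have hcub : ∀ w : 𝓞 F, w ^ 2 + w + 1 = 0 → ∀ n : ℤ, n ≠ 0 →
      ∃ κ : 𝓞 F → 𝓞 F, H55W.PRC (𝓞 F) 3 n (3 * n) (27 * n) κ := fun w hw n hn => H55W.cub_F F IQ.deg w hw n hn
  rcases H55Y.y5_cases hC hcub with ⟨Om, hper⟩ | ⟨W, Om, m, ψ, kap, e, t, u, lam, hΔ, hper, h⟩
  · obtain ⟨hΔ, hmin, -⟩ := hC
    obtain ⟨ψ, hH⟩ := H55W.base_all0 hcub W' Om hΔ hper hmin
    exact sha_max hH (H55W.prime_simple hΔ hper hp h5 hd)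
  · have hP0 := H55W.prime_simple hΔ hper hp h5 fun h' => hd (H55Y.y6_dvd h hp h')
    exact sha_iso_thm h ((H28I.tw_prime h).2 hP0) (sha_max h.base hP0)

end H35Z
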